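import Pool.Agent.Lib.SW.BoundsD

/-!
# SW-O: the neighbourhood of s = 1 for zeta (module O)

PROOFS. Let h = LFunctionTrivChar₁ 1 (entire, h(s) = (s-1) ζ(s) off 1, h(1) = 1, and h ≠ 0 on re s ≥ 1:
`riemannZeta_ne_zero_of_one_le_re`). U = {s : h s ≠ 0} is open and contains {re s ≥ 1}.
`near_vL`: for re s > 1, -ζ'/ζ - ζ = -h'/h + 1/(s-1) - h/(s-1) = -h'(s)/h(s) - dslope h 1 s =: P(s), and P is
analytic on U. LSeries (fun n => Λ n - 1) = P on re s > 1 (`LSeries_vonMangoldt_eq_deriv_riemannZeta_div`,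
`LSeries_one_eq_riemannZeta`, `LSeries_sub`), so (`LSeries_iteratedDeriv`, logMul^[K] f = lc f K off 0)
|LSeries (lc (Λ - 1) K) s| = |iteratedDeriv K P s|, and iteratedDeriv K P is continuous on the open set U ⊇ the
compact [1,2] × [-1,1] (`AnalyticOnNhd.iteratedDeriv`-like / `ContDiffOn`), hence bounded there.
`near_vM`: the same with P(s) = 1/ζ(s) = (s-1)/h(s).
`bound_E`, `bound_vM`: |im s| ≤ 1 by the above ((|t|+2)^ε ≥ 1), |im s| ≥ 1: `bound_vL_far` and
`deriv_zeta_le` (lc (vL - 1) K = lc vL K - lc 1 K), `bound_vM_far`.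
-/

open Complex

namespace Pool.Agent.Lib.SW

open DirichletCharacter LSeries in
/-- the entire function `(s - 1) ζ(s)` -/
theorem nearOne_h_apply {s : ℂ} (hs : s ≠ 1) :
    LFunctionTrivChar₁ 1 s = (s - 1) * riemannZeta s := by
  rw [LFunctionTrivChar₁, Function.update_of_ne hs, LFunctionTrivChar, LFunction_modOne_eq]

theorem nearOne_h_one : DirichletCharacter.LFunctionTrivChar₁ 1 1 = 1 := by
  rw [DirichletCharacter.LFunctionTrivChar₁, Function.update_self]
  simp

theorem nearOne_h_ne {s : ℂ} (hs : 1 ≤ s.re) : DirichletCharacter.LFunctionTrivChar₁ 1 s ≠ 0 := by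
  by_cases h1 : s = 1
  · rw [h1]
    exact DirichletCharacter.LFunctionTrivChar₁_apply_one_ne_zero 1
  · rw [nearOne_h_apply h1]
    exact mul_ne_zero (sub_ne_zero.2 h1) (riemannZeta_ne_zero_of_one_le_re hs)

open LSeries in
/-- the iterated multiplication with the logarithm -/
theorem nearOne_logMul (f : ℕ → ℂ) (K n : ℕ) (hn : n ≠ 0) :
    (logMul^[K] f) n = lc f K n := by
  induction K with
  | zero => rw [Function.iterate_zero, id, lc_zero]
  | succ K ih =>
    rw [Function.iterate_succ_apply', logMul, ih, lc_succ, natCast_log]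
    ring

theorem nearOne_ne_one {s : ℂ} (hs : 1 < s.re) : s ≠ 1 := by
  intro h
  rw [h] at hs
  simp at hs

open LSeries in
/-- general bound near `1` -/
theorem nearOne_gen {f : ℕ → ℂ} (hf : Tame f) (K : ℕ) {P : ℂ → ℂ} {U : Set ℂ} (hU : IsOpen U)
    (hUR : ∀ s : ℂ, 1 ≤ s.re → s ∈ U) (hP : DifferentiableOn ℂ P U)
    (hfP : ∀ s : ℂ, 1 < s.re → LSeries f s = P s) :
    ∃ C : ℝ, 0 < C ∧ ∀ s : ℂ, 1 < s.re → s.re ≤ 2 → |s.im| ≤ 1 →
      ‖LSeries (lc f K) s‖ ≤ C := by
  have hA : AnalyticOnNhd ℂ (deriv^[K] P) U := (hP.analyticOnNhd hU).iterated_deriv K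
  have hcomp : IsCompact (Set.Icc (1 : ℝ) 2 ×ℂ Set.Icc (-1 : ℝ) 1) :=
    isCompact_Icc.reProdIm isCompact_Icc
  have hsub : Set.Icc (1 : ℝ) 2 ×ℂ Set.Icc (-1 : ℝ) 1 ⊆ U := by
    intro s hs
    rw [mem_reProdIm] at hs
    exact hUR s hs.1.1
  obtain ⟨C, hC⟩ := hcomp.exists_bound_of_continuousOn (hA.continuousOn.mono hsub)
  refine ⟨|C| + 1, by positivity, fun s h1 h2 h3 => ?_⟩
  have hsm : s ∈ Set.Icc (1 : ℝ) 2 ×ℂ Set.Icc (-1 : ℝ) 1 := by
    rw [mem_reProdIm]
    exact ⟨⟨h1.le, h2⟩, abs_le.1 h3⟩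
  have habs : abscissaOfAbsConv f < s.re := by
    have h4 : LSeriesSummable f (((1 + s.re) / 2 : ℝ) : ℂ) := by
      have := hf.summable 0 (s := (((1 + s.re) / 2 : ℝ) : ℂ)) (by
        rw [ofReal_re]
        linarith)
      rwa [lc_zero] at this
    refine lt_of_le_of_lt h4.abscissaOfAbsConv_le ?_
    rw [ofReal_re, EReal.coe_lt_coe_iff]
    linarith
  have h5 := LSeries_iteratedDeriv (f := f) K habs
  have h6 : LSeries (logMul^[K] f) s = LSeries (lc f K) s :=
    LSeries_congr (fun {n} hn => nearOne_logMul f K n hn) s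
  have h7 : iteratedDeriv K (LSeries f) s = iteratedDeriv K P s := by
    refine Filter.EventuallyEq.iteratedDeriv_eq K ?_
    exact Filter.eventuallyEq_iff_exists_mem.mpr
      ⟨{z | 1 < z.re}, (isOpen_lt continuous_const continuous_re).mem_nhds h1,
        fun z hz => hfP z hz⟩
  rw [h6, h7, iteratedDeriv_eq_iterate] at h5
  have h8 : ‖deriv^[K] P s‖ = ‖LSeries (lc f K) s‖ := by
    rw [h5, norm_mul, norm_pow, norm_neg, norm_one, one_pow, one_mul]
  rw [← h8]
  exact (hC s hsm).trans ((le_abs_self C).trans (by linarith))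

theorem nearOne_tame : Tame (fun n => vL n - 1) := by
  refine ⟨1, 1, zero_le_one, fun n hn => ?_⟩
  have h1 : ‖vL n‖ ≤ Real.log n := by
    unfold vL
    rw [norm_real, Real.norm_of_nonneg ArithmeticFunction.vonMangoldt_nonneg]
    exact ArithmeticFunction.vonMangoldt_le_log
  have h2 := norm_sub_le (vL n) 1
  rw [norm_one] at h2
  rw [one_mul, pow_one]
  linarith

theorem near_vL (K : ℕ) :
    ∃ C : ℝ, 0 < C ∧ ∀ s : ℂ, 1 < s.re → s.re ≤ 2 → |s.im| ≤ 1 →
      ‖LSeries (lc (fun n => vL n - 1) K) s‖ ≤ C := by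
  set h := DirichletCharacter.LFunctionTrivChar₁ 1 with hh
  have hd : Differentiable ℂ h := DirichletCharacter.differentiable_LFunctionTrivChar₁ 1
  have hds : Differentiable ℂ (dslope h 1) := by
    rw [← differentiableOn_univ, Complex.differentiableOn_dslope Filter.univ_mem]
    exact hd.differentiableOn
  refine nearOne_gen nearOne_tame K (P := fun s => -deriv h s / h s - dslope h 1 s)
    (U := {s | h s ≠ 0}) (isOpen_ne_fun hd.continuous continuous_const)
    (fun s hs => nearOne_h_ne hs) ?_ ?_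
  · refine DifferentiableOn.sub (DifferentiableOn.div ?_ hd.differentiableOn fun s hs => hs)
      hds.differentiableOn
    exact (hd.contDiff.differentiable_deriv_two).neg.differentiableOn
  · intro s hs
    have h1 := nearOne_ne_one hs
    have e1 : LSeries (fun n => vL n - 1) s = LSeries vL s - LSeries 1 s := by
      have s1 : LSeriesSummable vL s := by
        have := tame_vL.summable 0 hs
        rwa [lc_zero] at this
      exact LSeries_sub s1 (LSeriesSummable_one_iff.2 hs)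
    have e2 : LSeries vL s = -deriv riemannZeta s / riemannZeta s :=
      ArithmeticFunction.LSeries_vonMangoldt_eq_deriv_riemannZeta_div hs
    have e3 : LSeries 1 s = riemannZeta s := LSeries_one_eq_riemannZeta hs
    have e4 : deriv h s = (s - 1) * deriv riemannZeta s + riemannZeta s := by
      have := DirichletCharacter.deriv_LFunctionTrivChar₁_apply_of_ne_one 1 h1
      have e5 : DirichletCharacter.LFunctionTrivChar 1 = riemannZeta := by
        rw [DirichletCharacter.LFunctionTrivChar, DirichletCharacter.LFunction_modOne_eq]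
      rw [e5] at this
      exact this
    have e6 : h s = (s - 1) * riemannZeta s := nearOne_h_apply h1
    have h11 : h 1 = 1 := nearOne_h_one
    have e7 : dslope h 1 s = (s - 1)⁻¹ * (h s - 1) := by
      rw [dslope_of_ne _ h1, slope_def_module, smul_eq_mul, h11]
    have z1 : riemannZeta s ≠ 0 := riemannZeta_ne_zero_of_one_le_re hs.le
    have z2 : s - 1 ≠ 0 := sub_ne_zero.2 h1
    change LSeries (fun n => vL n - 1) s = -deriv h s / h s - dslope h 1 s
    rw [e1, e2, e3, e7, e4, e6]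
    field_simp
    ring

theorem near_vM (K : ℕ) :
    ∃ C : ℝ, 0 < C ∧ ∀ s : ℂ, 1 < s.re → s.re ≤ 2 → |s.im| ≤ 1 →
      ‖LSeries (lc vM K) s‖ ≤ C := by
  set h := DirichletCharacter.LFunctionTrivChar₁ 1 with hh
  have hd : Differentiable ℂ h := DirichletCharacter.differentiable_LFunctionTrivChar₁ 1
  refine nearOne_gen tame_vM K (P := fun s => (s - 1) / h s)
    (U := {s | h s ≠ 0}) (isOpen_ne_fun hd.continuous continuous_const)
    (fun s hs => nearOne_h_ne hs) ?_ ?_
  · exact DifferentiableOn.div (by fun_prop) hd.differentiableOn fun s hs => hs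
  · intro s hs
    have h1 := nearOne_ne_one hs
    have e6 : h s = (s - 1) * riemannZeta s := nearOne_h_apply h1
    have z1 : riemannZeta s ≠ 0 := riemannZeta_ne_zero_of_one_le_re hs.le
    have z2 : s - 1 ≠ 0 := sub_ne_zero.2 h1
    have e7 : riemannZeta s * LSeries vM s = 1 := by
      have := LSeries_one_mul_Lseries_moebius hs
      rw [LSeries_one_eq_riemannZeta hs] at this
      exact this
    change LSeries vM s = (s - 1) / h s
    rw [e6, eq_div_iff (mul_ne_zero z2 z1)]
    linear_combination (s - 1) * e7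

theorem nearOne_pow {ε t : ℝ} (hε : 0 < ε) : 1 ≤ (|t| + 2) ^ ε :=
  Real.one_le_rpow (by linarith [abs_nonneg t]) hε.le

theorem bound_E (K : ℕ) (ε : ℝ) (hε : 0 < ε) :
    ∃ C : ℝ, 0 < C ∧ ∀ s : ℂ, 1 < s.re → s.re ≤ 2 →
      ‖LSeries (lc (fun n => vL n - 1) K) s‖ ≤ C * (|s.im| + 2) ^ ε := by
  obtain ⟨C1, p1, h1⟩ := near_vL K
  obtain ⟨C2, p2, h2⟩ := bound_vL_far K ε hε
  obtain ⟨C3, p3, h3⟩ := deriv_zeta_le K ε hε
  refine ⟨C1 + C2 + C3, by positivity, fun s hs hs2 => ?_⟩
  have hp := nearOne_pow (t := s.im) hε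
  rcases le_total |s.im| 1 with h | h
  · refine (h1 s hs hs2 h).trans ?_
    nlinarith
  · have e1 : lc (fun n => vL n - 1) K = lc vL K - lc 1 K := by
      funext n
      rw [Pi.sub_apply]
      unfold lc
      rw [Pi.one_apply]
      ring
    rw [e1, LSeries_sub (tame_vL.summable K hs) (tame_one.summable K hs)]
    have h4 := h2 s hs hs2 h
    have h5 := h3 s hs hs2 h
    refine (norm_sub_le _ _).trans ?_
    nlinarith

theorem bound_vM (K : ℕ) (ε : ℝ) (hε : 0 < ε) :
    ∃ C : ℝ, 0 < C ∧ ∀ s : ℂ, 1 < s.re → s.re ≤ 2 →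
      ‖LSeries (lc vM K) s‖ ≤ C * (|s.im| + 2) ^ ε := by
  obtain ⟨C1, p1, h1⟩ := near_vM K
  obtain ⟨C2, p2, h2⟩ := bound_vM_far K ε hε
  refine ⟨C1 + C2, by positivity, fun s hs hs2 => ?_⟩
  have hp := nearOne_pow (t := s.im) hε
  rcases le_total |s.im| 1 with h | h
  · refine (h1 s hs hs2 h).trans ?_
    nlinarith
  · refine (h2 s hs hs2 h).trans ?_
    nlinarith

end Pool.Agent.Lib.SW
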