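import Pool.Agent.Lib.SW.StripZeta

/-!
# SW-E: the trivial character (module E)

PROOFS.

`pow_omega_le`: K ≥ 1. For primes p ≥ K^(1/ε): K ≤ p^ε. So K^ω(q) ≤ K^(#{p < K^(1/ε)}) ∏_{p | q} p^ε ≤
K^(⌈K^(1/ε)⌉) q^ε (∏_{p | q} p divides q: `Nat.prod_primeFactors_dvd`).

`triv_upper`: for re s > 1, `LFunction_eq_LSeries` and `LFunctionTrivChar_eq_mul_riemannZeta`; each
factor |1 - p^(-s)| ≤ 2, so |L(s, 1)| ≤ 2^ω(q) |ζ(s)|; `pow_omega_le`, `zeta_strip`.

`triv_upper_real`: real 1 < σ ≤ 2: |L(σ, 1_q)| = L(σ,1_q) ≤ ζ(σ) ≤ C/(σ-1) termwise, or from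
`zeta_strip` (then it is C uniformly in q because ∑ over n coprime to q of n^(-σ) ≤ ζ(σ)).
-/

open Complex Filter Topology

namespace Pool.Agent.Lib.SW

theorem pow_omega_le (K ε : ℝ) (hK : 1 ≤ K) (hε : 0 < ε) :
    ∃ C : ℝ, 0 < C ∧ ∀ q : ℕ, 1 ≤ q → K ^ (q.primeFactors.card) ≤ C * (q : ℝ) ^ ε := by
  have hK0 : 0 < K := lt_of_lt_of_le one_pos hK
  refine ⟨K ^ (⌈K ^ (1 / ε)⌉₊), by positivity, ?_⟩
  intro q hq
  generalize hN : ⌈K ^ (1 / ε)⌉₊ = N
  have h1 : ∀ p ∈ q.primeFactors, K ≤ (if p < N then K else 1) * (p : ℝ) ^ ε := by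
    intro p hp
    have hp1 : (1 : ℝ) ≤ p := by
      exact_mod_cast (Nat.prime_of_mem_primeFactors hp).one_lt.le
    by_cases h : p < N
    · rw [if_pos h]
      exact le_mul_of_one_le_right hK0.le (Real.one_le_rpow hp1 hε.le)
    · rw [if_neg h, one_mul]
      have h2 : K ^ (1 / ε) ≤ (p : ℝ) := by
        refine (Nat.le_ceil _).trans ?_
        rw [hN]
        exact_mod_cast not_lt.1 h
      calc K = (K ^ (1 / ε)) ^ ε := by
            rw [← Real.rpow_mul hK0.le, one_div_mul_cancel hε.ne', Real.rpow_one]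
        _ ≤ (p : ℝ) ^ ε := Real.rpow_le_rpow (by positivity) h2 hε.le
  have h2 : K ^ (q.primeFactors.card) = ∏ _p ∈ q.primeFactors, K := by
    rw [Finset.prod_const]
  rw [h2]
  refine (Finset.prod_le_prod (fun _ _ => hK0.le) h1).trans ?_
  rw [Finset.prod_mul_distrib]
  refine mul_le_mul ?_ ?_ (Finset.prod_nonneg fun p _ => by positivity) (by positivity)
  · rw [Finset.prod_ite, Finset.prod_const, Finset.prod_const_one, mul_one]
    refine pow_le_pow_right₀ hK ?_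
    calc (q.primeFactors.filter fun p => p < N).card ≤ (Finset.range N).card := by
          refine Finset.card_le_card fun p hp => ?_
          exact Finset.mem_range.2 (Finset.mem_filter.1 hp).2
      _ = N := Finset.card_range N
  · rw [Real.finsetProd_rpow _ _ fun p _ => Nat.cast_nonneg p]
    refine Real.rpow_le_rpow (Finset.prod_nonneg fun p _ => Nat.cast_nonneg p) ?_ hε.le
    have h3 := Nat.le_of_dvd hq (Nat.prod_primeFactors_dvd q)
    rw [← Nat.cast_prod]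
    exact Nat.cast_le.2 h3

theorem triv_upper (ε : ℝ) (hε : 0 < ε) :
    ∃ C : ℝ, 0 < C ∧ ∀ (q : ℕ) [NeZero q] (s : ℂ), 1 < s.re → s.re ≤ 3 →
      ‖LSeries (ch (1 : DirichletCharacter ℂ q)) s‖ ≤ C * (Qt q s.im) ^ ε * (1 + 1 / ‖s - 1‖) := by
  obtain ⟨C₁, hC₁, h1⟩ := pow_omega_le 2 ε (by norm_num) hε
  obtain ⟨δ, hδ, -, C₂, hC₂, h2⟩ := zeta_strip ε hε
  refine ⟨C₁ * C₂, by positivity, ?_⟩
  intro q _ s hs1 hs2
  have hne : s ≠ 1 := by
    rintro rfl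
    rw [Complex.one_re] at hs1
    exact lt_irrefl _ hs1
  have hq : 1 ≤ q := Nat.one_le_iff_ne_zero.mpr (NeZero.ne q)
  have h3 : LSeries (ch (1 : DirichletCharacter ℂ q)) s
      = (∏ p ∈ q.primeFactors, (1 - (p : ℂ) ^ (-s))) * riemannZeta s := by
    rw [← DirichletCharacter.LFunctionTrivChar_eq_mul_riemannZeta hne]
    exact (DirichletCharacter.LFunction_eq_LSeries 1 hs1).symm
  rw [h3, norm_mul, norm_prod]
  have h4 : ∏ p ∈ q.primeFactors, ‖1 - (p : ℂ) ^ (-s)‖ ≤ C₁ * (q : ℝ) ^ ε := by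
    refine le_trans ?_ (h1 q hq)
    rw [← Finset.prod_const]
    refine Finset.prod_le_prod (fun _ _ => norm_nonneg _) fun p hp => ?_
    have hp1 : 1 ≤ p := (Nat.prime_of_mem_primeFactors hp).one_lt.le
    refine (norm_sub_le _ _).trans ?_
    rw [norm_one, Complex.norm_natCast_cpow_of_pos hp1, Complex.neg_re]
    have h5 : (p : ℝ) ^ (-s.re) ≤ 1 :=
      Real.rpow_le_one_of_one_le_of_nonpos (by exact_mod_cast hp1) (by linarith)
    linarith
  have h5 := h2 s hne (by linarith) hs2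
  have ht := abs_nonneg s.im
  have h6 : (Qt q s.im) ^ ε = (q : ℝ) ^ ε * (|s.im| + 2) ^ ε := by
    unfold Qt
    rw [Real.mul_rpow (Nat.cast_nonneg q) (by positivity)]
  rw [h6]
  calc (∏ p ∈ q.primeFactors, ‖1 - (p : ℂ) ^ (-s)‖) * ‖riemannZeta s‖
      ≤ (C₁ * (q : ℝ) ^ ε) * (C₂ * (|s.im| + 2) ^ ε * (1 + 1 / ‖s - 1‖)) :=
        mul_le_mul h4 h5 (norm_nonneg _) (by positivity)
    _ = C₁ * C₂ * ((q : ℝ) ^ ε * (|s.im| + 2) ^ ε) * (1 + 1 / ‖s - 1‖) := by ring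

theorem TrivChar_term {σ : ℝ} (n : ℕ) :
    LSeries.term 1 (σ : ℂ) n = ((‖LSeries.term 1 (σ : ℂ) n‖ : ℝ) : ℂ) := by
  rw [LSeries.norm_term_eq, LSeries.term_def]
  by_cases h : n = 0
  · rw [if_pos h, if_pos h, Complex.ofReal_zero]
  · rw [if_neg h, if_neg h, Pi.one_apply, norm_one, Complex.ofReal_re]
    push_cast
    rw [Complex.ofReal_cpow (Nat.cast_nonneg n), Complex.ofReal_natCast]

theorem TrivChar_le {q : ℕ} {σ : ℝ} (hσ : 1 < σ) (χ : DirichletCharacter ℂ q) :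
    ‖LSeries (ch χ) σ‖ ≤ ‖riemannZeta σ‖ := by
  have h0 : 1 < (σ : ℂ).re := by rw [Complex.ofReal_re]; exact hσ
  have hs1 : Summable fun n => ‖LSeries.term 1 (σ : ℂ) n‖ := (LSeriesSummable_one_iff.2 h0).norm
  have hle : ∀ n, ‖LSeries.term (ch χ) (σ : ℂ) n‖ ≤ ‖LSeries.term 1 (σ : ℂ) n‖ := by
    intro n
    refine LSeries.norm_term_le _ ?_
    rw [Pi.one_apply, norm_one]
    exact norm_ch_le χ n
  have hs2 : Summable fun n => ‖LSeries.term (ch χ) (σ : ℂ) n‖ :=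
    Summable.of_nonneg_of_le (fun n => norm_nonneg _) hle hs1
  have h1 : ‖LSeries (ch χ) σ‖ ≤ ∑' n, ‖LSeries.term 1 (σ : ℂ) n‖ := by
    unfold LSeries
    refine (norm_tsum_le_tsum_norm hs2).trans ?_
    exact Summable.tsum_le_tsum hle hs2 hs1
  refine h1.trans (le_of_eq ?_)
  rw [← LSeries_one_eq_riemannZeta h0]
  unfold LSeries
  have h2 : ∑' n, LSeries.term 1 (σ : ℂ) n = ((∑' n, ‖LSeries.term 1 (σ : ℂ) n‖ : ℝ) : ℂ) := by
    rw [Complex.ofReal_tsum]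
    exact tsum_congr fun n => TrivChar_term n
  rw [h2, Complex.norm_real, Real.norm_eq_abs, abs_of_nonneg (tsum_nonneg fun n => norm_nonneg _)]

theorem triv_upper_real :
    ∃ C : ℝ, 0 < C ∧ ∀ (q : ℕ) [NeZero q] (σ : ℝ), 1 < σ → σ ≤ 2 →
      ‖LSeries (ch (1 : DirichletCharacter ℂ q)) σ‖ ≤ C / (σ - 1) := by
  obtain ⟨δ, hδ, -, C, hC, h⟩ := zeta_strip 1 one_pos
  refine ⟨C * 4, by positivity, ?_⟩
  intro q _ σ h1 h2
  have hne : (σ : ℂ) ≠ 1 := by
    intro h3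
    have h4 : σ = 1 := by exact_mod_cast h3
    linarith
  have h3 := h σ hne (by rw [Complex.ofReal_re]; linarith) (by rw [Complex.ofReal_re]; linarith)
  have h4 : ‖(σ : ℂ) - 1‖ = σ - 1 := by
    rw [← Complex.ofReal_one, ← Complex.ofReal_sub, Complex.norm_real, Real.norm_eq_abs,
      abs_of_pos (by linarith)]
  rw [h4, Complex.ofReal_im, abs_zero, zero_add, Real.rpow_one] at h3
  refine (TrivChar_le h1 1).trans (h3.trans ?_)
  have h5 : 1 ≤ 1 / (σ - 1) := by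
    rw [le_div_iff₀ (by linarith)]
    linarith
  calc C * 2 * (1 + 1 / (σ - 1)) ≤ C * 2 * (2 * (1 / (σ - 1))) := by
        refine mul_le_mul_of_nonneg_left ?_ (by positivity)
        linarith
    _ = C * 4 / (σ - 1) := by ring

end Pool.Agent.Lib.SW
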