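import Pool.Agent.Lib.SW.Tauber
import Pool.Agent.Lib.SW.NearOne
import Pool.Agent.Lib.SW.TrivChar

/-!
# SW-R: the theorem of Siegel and Walfisz, with every power of log (module R)

PROOFS. `psi_char`: `tauber k` with a = chL χ (|a n| ≤ Λ n ≤ log n), M = C q^ε from
`bound_chL (2k+1) (min ε (1/2))`: (Qt q t)^ε' = q^ε' (|t|+2)^ε' ≤ q^ε (|t|+2)^(1/2).
`mu_char`: same with chM. `pnt`: a = Λ - 1 (|a n| ≤ 1 + log n), `bound_E`; ∑_{n ≤ x} 1 = ⌊x⌋. `mu_sum`: vM.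
`psi_ap`: for (a,q) = 1: ∑_{n ≤ x, n ≡ a (q)} Λ(n) = (1/φ(q)) ∑_χ conj(χ(a)) ∑ χ(n) Λ(n)
(`DirichletCharacter.sum_char_inv_mul_char_eq`), φ(q) characters; χ ≠ 1 by `psi_char`; χ = 1:
∑_{n≤x, (n,q)=1} Λ(n) = ψ(x) - ∑_{p | q} ∑_{p^k ≤ x} log p, and the subtracted sum is
≤ ω(q) log x ≤ 2 (log q) (log x) (⌊log_p x⌋ log p ≤ log x), which is ≤ C q^ε x (log x)^(-k).
`theta_ap`: prime powers p^j, j ≥ 2, contribute ≤ ∑_{p ≤ √x} log x ≤ √x log x.
`theta_ap'` is the same with natural x and any class coprime to q, in the form used by the circle method.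
-/

open Complex

namespace Pool.Agent.Lib.SW

theorem SWF_log (m : ℕ) {x : ℝ} (hx : 1 ≤ x) : (Real.log x) ^ m ≤ (m.factorial : ℝ) * x := by
  have h1 := Real.pow_div_factorial_le_exp (Real.log x) (Real.log_nonneg hx) m
  rw [Real.exp_log (by linarith), div_le_iff₀ (by positivity)] at h1
  rwa [mul_comm]

theorem SWF_logpos {x : ℝ} (hx : 2 ≤ x) : 0 < Real.log x := Real.log_pos (by linarith)

theorem SWF_bd (k m : ℕ) : ∃ C : ℝ, 0 < C ∧ ∀ x : ℝ, 2 ≤ x →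
    (Real.log x) ^ m ≤ C * x / (Real.log x) ^ k := by
  refine ⟨((m + k).factorial : ℝ), by positivity, ?_⟩
  intro x hx
  have h0 := SWF_logpos hx
  rw [le_div_iff₀ (by positivity), ← pow_add]
  exact SWF_log (m + k) (by linarith)

theorem SWF_sqrt (k : ℕ) : ∃ C : ℝ, 0 < C ∧ ∀ x : ℝ, 2 ≤ x →
    2 * √x * Real.log x ≤ C * x / (Real.log x) ^ k := by
  refine ⟨2 * (2 ^ (k + 1) * ((k + 1).factorial : ℝ)), by positivity, ?_⟩
  intro x hx
  have h0 := SWF_logpos hx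
  have hx0 : 0 ≤ x := by linarith
  rw [le_div_iff₀ (by positivity)]
  have h1 : 1 ≤ √x := Real.one_le_sqrt.2 (by linarith)
  have h2 := SWF_log (k + 1) h1
  rw [Real.log_sqrt hx0, div_pow] at h2
  rw [div_le_iff₀ (by positivity)] at h2
  calc 2 * √x * Real.log x * (Real.log x) ^ k = 2 * √x * (Real.log x) ^ (k + 1) := by ring
    _ ≤ 2 * √x * (((k + 1).factorial : ℝ) * √x * 2 ^ (k + 1)) :=
        mul_le_mul_of_nonneg_left h2 (by positivity)
    _ = 2 * (2 ^ (k + 1) * ((k + 1).factorial : ℝ)) * (√x * √x) := by ring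
    _ = 2 * (2 ^ (k + 1) * ((k + 1).factorial : ℝ)) * x := by rw [Real.mul_self_sqrt hx0]

theorem SWF_one_le {q : ℕ} (hq : 1 ≤ q) {ε : ℝ} (hε : 0 < ε) : (1 : ℝ) ≤ (q : ℝ) ^ ε :=
  Real.one_le_rpow (by exact_mod_cast hq) hε.le

theorem SWF_core (k : ℕ) (ε : ℝ) (hε : 0 < ε) :
    ∃ C₁ : ℝ, 0 < C₁ ∧ ∀ C₂ : ℝ, 0 < C₂ → ∀ (q : ℕ) [NeZero q] (a : ℕ → ℂ),
      (∀ n : ℕ, 1 ≤ n → ‖a n‖ ≤ 1 + Real.log n) →
      (∀ s : ℂ, 1 < s.re → s.re ≤ 2 →
        ‖LSeries (lc a (2 * k + 1)) s‖ ≤ C₂ * (Qt q s.im) ^ (min ε (1 / 2))) →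
      ∀ x : ℝ, 2 ≤ x →
        ‖∑ n ∈ Finset.Icc 1 ⌊x⌋₊, a n‖ ≤ C₁ * (C₂ + 1) * (q : ℝ) ^ ε * x / (Real.log x) ^ k := by
  obtain ⟨C₁, hC₁, h1⟩ := tauber k
  refine ⟨C₁, hC₁, ?_⟩
  intro C₂ hC₂ q _ a ha hL x hx
  have hq : 1 ≤ q := Nat.one_le_iff_ne_zero.mpr (NeZero.ne q)
  have hq' : (1 : ℝ) ≤ q := by exact_mod_cast hq
  have hqε := SWF_one_le hq hε
  have h0 := SWF_logpos hx
  have h2 := h1 a (C₂ * (q : ℝ) ^ ε) (by positivity) ha (fun s hs1 hs2 => by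
    refine (hL s hs1 hs2).trans ?_
    rw [mul_assoc]
    refine mul_le_mul_of_nonneg_left ?_ hC₂.le
    have ht := abs_nonneg s.im
    unfold Qt
    rw [Real.mul_rpow (Nat.cast_nonneg q) (by positivity)]
    refine mul_le_mul ?_ ?_ (by positivity) (by positivity)
    · exact Real.rpow_le_rpow_of_exponent_le hq' (min_le_left _ _)
    · exact Real.rpow_le_rpow_of_exponent_le (by linarith) (min_le_right _ _)) x hx
  refine h2.trans ?_
  refine div_le_div_of_nonneg_right ?_ (by positivity)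
  refine mul_le_mul_of_nonneg_right ?_ (by linarith)
  rw [mul_assoc]
  refine mul_le_mul_of_nonneg_left ?_ hC₁.le
  nlinarith

theorem SWF_chL {q : ℕ} (χ : DirichletCharacter ℂ q) (n : ℕ) :
    ‖chL χ n‖ ≤ ArithmeticFunction.vonMangoldt n := by
  unfold chL
  rw [norm_mul, Complex.norm_real, Real.norm_of_nonneg ArithmeticFunction.vonMangoldt_nonneg]
  have h1 := DirichletCharacter.norm_le_one χ (n : ZMod q)
  have h2 : 0 ≤ ArithmeticFunction.vonMangoldt n := ArithmeticFunction.vonMangoldt_nonneg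
  nlinarith

theorem SWF_mu (n : ℕ) : ‖((ArithmeticFunction.moebius n : ℤ) : ℂ)‖ ≤ 1 := by
  rw [Complex.norm_intCast]
  exact_mod_cast ArithmeticFunction.abs_moebius_le_one

theorem SWF_min {ε : ℝ} (hε : 0 < ε) : 0 < min ε (1 / 2) := lt_min hε (by norm_num)

theorem psi_char (k : ℕ) (ε : ℝ) (hε : 0 < ε) :
    ∃ C : ℝ, 0 < C ∧ ∀ (q : ℕ) [NeZero q] (χ : DirichletCharacter ℂ q), χ ≠ 1 → ∀ x : ℝ, 2 ≤ x →
      ‖∑ n ∈ Finset.Icc 1 ⌊x⌋₊, chL χ n‖ ≤ C * (q : ℝ) ^ ε * x / (Real.log x) ^ k := by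
  obtain ⟨C₁, hC₁, h1⟩ := SWF_core k ε hε
  obtain ⟨C₂, hC₂, h2⟩ := bound_chL (2 * k + 1) (min ε (1 / 2)) (SWF_min hε)
  refine ⟨C₁ * (C₂ + 1), by positivity, ?_⟩
  intro q _ χ hχ x hx
  refine h1 C₂ hC₂ q (chL χ) (fun n _ => ?_) (h2 q χ hχ) x hx
  have h3 := SWF_chL χ n
  have h4 : ArithmeticFunction.vonMangoldt n ≤ Real.log n := ArithmeticFunction.vonMangoldt_le_log
  linarith

theorem mu_char (k : ℕ) (ε : ℝ) (hε : 0 < ε) :
    ∃ C : ℝ, 0 < C ∧ ∀ (q : ℕ) [NeZero q] (χ : DirichletCharacter ℂ q), χ ≠ 1 → ∀ x : ℝ, 2 ≤ x →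
      ‖∑ n ∈ Finset.Icc 1 ⌊x⌋₊, chM χ n‖ ≤ C * (q : ℝ) ^ ε * x / (Real.log x) ^ k := by
  obtain ⟨C₁, hC₁, h1⟩ := SWF_core k ε hε
  obtain ⟨C₂, hC₂, h2⟩ := bound_chM (2 * k + 1) (min ε (1 / 2)) (SWF_min hε)
  refine ⟨C₁ * (C₂ + 1), by positivity, ?_⟩
  intro q _ χ hχ x hx
  refine h1 C₂ hC₂ q (chM χ) (fun n _ => ?_) (h2 q χ hχ) x hx
  have h3 := SWF_mu n
  have h4 := DirichletCharacter.norm_le_one χ (n : ZMod q)
  have h5 := Real.log_natCast_nonneg n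
  have h6 : ‖chM χ n‖ ≤ 1 := by
    unfold chM
    rw [norm_mul]
    exact mul_le_one₀ h4 (norm_nonneg _) h3
  linarith

theorem SWF_Q1 (t : ℝ) : Qt 1 t = |t| + 2 := by
  unfold Qt
  rw [Nat.cast_one, one_mul]

theorem pnt (k : ℕ) :
    ∃ C : ℝ, 0 < C ∧ ∀ x : ℝ, 2 ≤ x →
      |∑ n ∈ Finset.Icc 1 ⌊x⌋₊, ArithmeticFunction.vonMangoldt n - x| ≤
        C * x / (Real.log x) ^ k := by
  obtain ⟨C₁, hC₁, h1⟩ := SWF_core k 1 one_pos
  obtain ⟨C₂, hC₂, h2⟩ := bound_E (2 * k + 1) (min 1 (1 / 2)) (SWF_min one_pos)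
  obtain ⟨C₃, hC₃, h3⟩ := SWF_bd k 0
  refine ⟨C₁ * (C₂ + 1) + C₃, by positivity, ?_⟩
  intro x hx
  have h4 := h1 C₂ hC₂ 1 (fun n => vL n - 1) (fun n _ => by
    refine (norm_sub_le _ _).trans ?_
    unfold vL
    rw [Complex.norm_real, Real.norm_of_nonneg ArithmeticFunction.vonMangoldt_nonneg, norm_one]
    have h5 : ArithmeticFunction.vonMangoldt n ≤ Real.log n :=
      ArithmeticFunction.vonMangoldt_le_log
    linarith) (fun s hs1 hs2 => by
      rw [SWF_Q1]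
      exact h2 s hs1 hs2) x hx
  rw [Nat.cast_one, Real.one_rpow, mul_one] at h4
  have h5 : ∑ n ∈ Finset.Icc 1 ⌊x⌋₊, (vL n - 1) =
      ((∑ n ∈ Finset.Icc 1 ⌊x⌋₊, ArithmeticFunction.vonMangoldt n - (⌊x⌋₊ : ℝ) : ℝ) : ℂ) := by
    rw [Finset.sum_sub_distrib]
    unfold vL
    push_cast
    congr 1
    simp
  rw [h5, Complex.norm_real, Real.norm_eq_abs] at h4
  have h6 : |(⌊x⌋₊ : ℝ) - x| ≤ 1 := by
    have h7 := Nat.floor_le (by linarith : (0 : ℝ) ≤ x)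
    have h8 := Nat.lt_floor_add_one x
    rw [abs_le]
    constructor <;> linarith
  have h9 := h3 x hx
  rw [pow_zero] at h9
  have h10 := abs_add_le (∑ n ∈ Finset.Icc 1 ⌊x⌋₊, ArithmeticFunction.vonMangoldt n - (⌊x⌋₊ : ℝ))
    ((⌊x⌋₊ : ℝ) - x)
  rw [sub_add_sub_cancel] at h10
  calc _ ≤ _ := h10
    _ ≤ C₁ * (C₂ + 1) * x / (Real.log x) ^ k + C₃ * x / (Real.log x) ^ k :=
        add_le_add h4 (h6.trans h9)
    _ = (C₁ * (C₂ + 1) + C₃) * x / (Real.log x) ^ k := by ring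

theorem mu_sum (k : ℕ) :
    ∃ C : ℝ, 0 < C ∧ ∀ x : ℝ, 2 ≤ x →
      |∑ n ∈ Finset.Icc 1 ⌊x⌋₊, ((ArithmeticFunction.moebius n : ℤ) : ℝ)| ≤
        C * x / (Real.log x) ^ k := by
  obtain ⟨C₁, hC₁, h1⟩ := SWF_core k 1 one_pos
  obtain ⟨C₂, hC₂, h2⟩ := bound_vM (2 * k + 1) (min 1 (1 / 2)) (SWF_min one_pos)
  refine ⟨C₁ * (C₂ + 1), by positivity, ?_⟩
  intro x hx
  have h4 := h1 C₂ hC₂ 1 vM (fun n _ => by
    have h5 := Real.log_natCast_nonneg n
    have h6 := SWF_mu n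
    unfold vM
    linarith) (fun s hs1 hs2 => by
      rw [SWF_Q1]
      exact h2 s hs1 hs2) x hx
  rw [Nat.cast_one, Real.one_rpow, mul_one] at h4
  have h5 : ∑ n ∈ Finset.Icc 1 ⌊x⌋₊, vM n =
      ((∑ n ∈ Finset.Icc 1 ⌊x⌋₊, ((ArithmeticFunction.moebius n : ℤ) : ℝ) : ℝ) : ℂ) := by
    unfold vM
    push_cast
    rfl
  rw [h5, Complex.norm_real, Real.norm_eq_abs] at h4
  exact h4

theorem SWF_nc (k : ℕ) (ε : ℝ) (hε : 0 < ε) :
    ∃ C : ℝ, 0 < C ∧ ∀ q : ℕ, 1 ≤ q → ∀ x : ℝ, 2 ≤ x →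
      ∑ n ∈ (Finset.Icc 1 ⌊x⌋₊).filter (fun n => ¬ Nat.Coprime n q),
        ArithmeticFunction.vonMangoldt n ≤ C * (q : ℝ) ^ ε * x / (Real.log x) ^ k := by
  obtain ⟨C₁, hC₁, h1⟩ := pow_omega_le 2 ε (by norm_num) hε
  obtain ⟨C₂, hC₂, h2⟩ := SWF_bd k 2
  refine ⟨2 * C₁ * C₂, by positivity, ?_⟩
  intro q hq x hx
  have h0 := SWF_logpos hx
  have hqε := SWF_one_le hq hε
  obtain ⟨N, hN⟩ : ∃ N, N = ⌊x⌋₊ := ⟨_, rfl⟩
  have hN2 : 2 ≤ N := by
    rw [hN]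
    exact Nat.le_floor (by exact_mod_cast hx)
  have hNx : (N : ℝ) ≤ x := by
    rw [hN]
    exact Nat.floor_le (by linarith)
  have hN0 : (0 : ℝ) < N := by
    have : (2 : ℝ) ≤ N := by exact_mod_cast hN2
    linarith
  rw [← hN, ← Finset.sum_filter_ne_zero]
  have h3 : ∀ n ∈ ((Finset.Icc 1 N).filter (fun n => ¬ Nat.Coprime n q)).filter
      (fun n => ArithmeticFunction.vonMangoldt n ≠ 0),
      ArithmeticFunction.vonMangoldt n ≤ Real.log x := by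
    intro n hn
    obtain ⟨hn1, hn2⟩ := Finset.mem_Icc.1 (Finset.mem_filter.1 (Finset.mem_filter.1 hn).1).1
    refine ArithmeticFunction.vonMangoldt_le_log.trans ?_
    refine Real.log_le_log (by exact_mod_cast hn1) ?_
    exact le_trans (by exact_mod_cast hn2) hNx
  refine (Finset.sum_le_sum h3).trans ?_
  rw [Finset.sum_const, nsmul_eq_mul]
  have h4 : (((Finset.Icc 1 N).filter (fun n => ¬ Nat.Coprime n q)).filter
      (fun n => ArithmeticFunction.vonMangoldt n ≠ 0)).card ≤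
      q.primeFactors.card * Nat.log 2 N := by
    calc _ ≤ ((q.primeFactors ×ˢ Finset.Icc 1 (Nat.log 2 N)).image
          fun p : ℕ × ℕ => p.1 ^ p.2).card := by
          refine Finset.card_le_card fun n hn => ?_
          obtain ⟨hn1, hn2⟩ := Finset.mem_filter.1 hn
          obtain ⟨hn3, hn4⟩ := Finset.mem_filter.1 hn1
          obtain ⟨hn5, hn6⟩ := Finset.mem_Icc.1 hn3
          rw [ArithmeticFunction.vonMangoldt_ne_zero_iff, isPrimePow_nat_iff] at hn2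
          obtain ⟨p, j, hp, hj, rfl⟩ := hn2
          refine Finset.mem_image.2 ⟨(p, j), Finset.mem_product.2 ⟨?_, ?_⟩, rfl⟩
          · refine Nat.mem_primeFactors.2 ⟨hp, ?_, by omega⟩
            by_contra hpq
            exact hn4 (((Nat.Prime.coprime_iff_not_dvd hp).2 hpq).pow_left j)
          · refine Finset.mem_Icc.2 ⟨hj, ?_⟩
            refine Nat.le_log_of_pow_le (by norm_num) ?_
            exact (Nat.pow_le_pow_left hp.two_le j).trans hn6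
      _ ≤ (q.primeFactors ×ˢ Finset.Icc 1 (Nat.log 2 N)).card := Finset.card_image_le
      _ = q.primeFactors.card * Nat.log 2 N := by
          rw [Finset.card_product, Nat.card_Icc, Nat.add_sub_cancel]
  have h5 : (Nat.log 2 N : ℝ) ≤ 2 * Real.log x := by
    have h6 := Real.natLog_le_logb N 2
    rw [Real.logb, div_eq_mul_inv] at h6
    have h7 : Real.log N ≤ Real.log x := Real.log_le_log hN0 hNx
    have h8 := Real.log_two_gt_d9
    have h9 : (Real.log ((2 : ℕ) : ℝ))⁻¹ ≤ 2 := by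
      rw [inv_le_comm₀ (by push_cast; linarith) (by norm_num)]
      push_cast
      linarith
    have h10 : 0 ≤ Real.log N := Real.log_natCast_nonneg N
    calc (Nat.log 2 N : ℝ) ≤ Real.log N * (Real.log ((2 : ℕ) : ℝ))⁻¹ := h6
      _ ≤ Real.log x * 2 := mul_le_mul h7 h9 (by positivity) h0.le
      _ = 2 * Real.log x := mul_comm _ _
  have h6 : (q.primeFactors.card : ℝ) ≤ C₁ * (q : ℝ) ^ ε := by
    refine le_trans ?_ (h1 q hq)
    exact_mod_cast (Nat.lt_two_pow_self).le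
  have h7 := h2 x hx
  calc _ ≤ ((q.primeFactors.card : ℝ) * (Nat.log 2 N : ℝ)) * Real.log x := by
        refine mul_le_mul_of_nonneg_right ?_ h0.le
        exact_mod_cast h4
    _ ≤ (C₁ * (q : ℝ) ^ ε * (2 * Real.log x)) * Real.log x := by
        refine mul_le_mul_of_nonneg_right ?_ h0.le
        exact mul_le_mul h6 h5 (Nat.cast_nonneg _) (by positivity)
    _ = 2 * C₁ * (q : ℝ) ^ ε * (Real.log x) ^ 2 := by ring
    _ ≤ 2 * C₁ * (q : ℝ) ^ ε * (C₂ * x / (Real.log x) ^ k) :=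
        mul_le_mul_of_nonneg_left h7 (by positivity)
    _ = 2 * C₁ * C₂ * (q : ℝ) ^ ε * x / (Real.log x) ^ k := by ring

theorem SWF_key {q : ℕ} [NeZero q] {a : ℕ} (ha : Nat.Coprime a q) (S : Finset ℕ) :
    (q.totient : ℂ) * ((∑ n ∈ S.filter (fun n => n ≡ a [MOD q]),
      ArithmeticFunction.vonMangoldt n : ℝ) : ℂ) =
      ∑ χ : DirichletCharacter ℂ q, χ ((a : ZMod q)⁻¹) * ∑ n ∈ S, chL χ n := by
  have hu : IsUnit (a : ZMod q) := (ZMod.isUnit_iff_coprime a q).2 ha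
  have h1 : ∑ χ : DirichletCharacter ℂ q, χ ((a : ZMod q)⁻¹) * ∑ n ∈ S, chL χ n
      = ∑ n ∈ S, (∑ χ : DirichletCharacter ℂ q, χ ((a : ZMod q)⁻¹) * χ (n : ZMod q)) *
        ((ArithmeticFunction.vonMangoldt n : ℝ) : ℂ) := by
    simp_rw [Finset.mul_sum, Finset.sum_mul]
    rw [Finset.sum_comm]
    refine Finset.sum_congr rfl fun n _ => Finset.sum_congr rfl fun χ _ => ?_
    unfold chL
    ring
  rw [h1]
  simp_rw [DirichletCharacter.sum_char_inv_mul_char_eq ℂ hu]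
  rw [Finset.sum_filter]
  push_cast
  rw [Finset.mul_sum]
  refine Finset.sum_congr rfl fun n _ => ?_
  by_cases h : n ≡ a [MOD q]
  · rw [if_pos h, if_pos ((ZMod.natCast_eq_natCast_iff _ _ _).2 h.symm)]
  · rw [if_neg h, if_neg fun h' => h ((ZMod.natCast_eq_natCast_iff _ _ _).1 h').symm]
    simp

theorem SWF_triv {q : ℕ} (S : Finset ℕ) :
    ∑ n ∈ S, chL (1 : DirichletCharacter ℂ q) n =
      ((∑ n ∈ S, ArithmeticFunction.vonMangoldt n -
        ∑ n ∈ S.filter (fun n => ¬ Nat.Coprime n q), ArithmeticFunction.vonMangoldt n : ℝ) : ℂ) := by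
  rw [Finset.sum_filter, ← Finset.sum_sub_distrib]
  push_cast
  refine Finset.sum_congr rfl fun n _ => ?_
  unfold chL
  by_cases h : Nat.Coprime n q
  · rw [if_neg (not_not.2 h), MulChar.one_apply ((ZMod.isUnit_iff_coprime n q).2 h)]
    simp
  · rw [if_pos h, MulChar.map_nonunit _ fun h' => h ((ZMod.isUnit_iff_coprime n q).1 h')]
    simp

theorem psi_ap (k : ℕ) (ε : ℝ) (hε : 0 < ε) :
    ∃ C : ℝ, 0 < C ∧ ∀ (q a : ℕ), 1 ≤ q → Nat.Coprime a q → ∀ x : ℝ, 2 ≤ x →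
      |∑ n ∈ (Finset.Icc 1 ⌊x⌋₊).filter (fun n => n ≡ a [MOD q]),
          ArithmeticFunction.vonMangoldt n - x / q.totient| ≤
        C * (q : ℝ) ^ ε * x / (Real.log x) ^ k := by
  obtain ⟨C₁, hC₁, h1⟩ := psi_char k ε hε
  obtain ⟨C₂, hC₂, h2⟩ := pnt k
  obtain ⟨C₃, hC₃, h3⟩ := SWF_nc k ε hε
  refine ⟨C₁ + C₂ + C₃, by positivity, ?_⟩
  intro q a hq ha x hx
  haveI : NeZero q := ⟨by omega⟩
  have h0 := SWF_logpos hx
  have hqε := SWF_one_le hq hε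
  have hφ : 1 ≤ q.totient := Nat.totient_pos.2 (by omega)
  have hφ' : (1 : ℝ) ≤ q.totient := by exact_mod_cast hφ
  have hE : 0 ≤ x / (Real.log x) ^ k := div_nonneg (by linarith) (by positivity)
  have hkey := SWF_key ha (Finset.Icc 1 ⌊x⌋₊)
  have hu : IsUnit ((a : ZMod q)⁻¹) := by
    have h5 : IsUnit (a : ZMod q) := (ZMod.isUnit_iff_coprime a q).2 ha
    refine isUnit_iff_exists_inv.2 ⟨(a : ZMod q), ?_⟩
    rw [mul_comm]
    exact ZMod.mul_inv_of_unit _ h5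
  have hcard : ((Finset.univ : Finset (DirichletCharacter ℂ q)).card : ℝ) = q.totient := by
    rw [Finset.card_univ, ← Nat.card_eq_fintype_card,
      DirichletCharacter.card_eq_totient_of_hasEnoughRootsOfUnity]
  rw [← Finset.add_sum_erase _ _ (Finset.mem_univ (1 : DirichletCharacter ℂ q)),
    MulChar.one_apply hu, one_mul, SWF_triv] at hkey
  have hrest : ‖∑ χ ∈ Finset.univ.erase (1 : DirichletCharacter ℂ q),
      χ ((a : ZMod q)⁻¹) * ∑ n ∈ Finset.Icc 1 ⌊x⌋₊, chL χ n‖ ≤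
      q.totient * (C₁ * (q : ℝ) ^ ε * x / (Real.log x) ^ k) := by
    refine (norm_sum_le _ _).trans ?_
    calc _ ≤ ∑ _χ ∈ Finset.univ.erase (1 : DirichletCharacter ℂ q),
          C₁ * (q : ℝ) ^ ε * x / (Real.log x) ^ k := by
          refine Finset.sum_le_sum fun χ hχ => ?_
          rw [norm_mul]
          have h5 := DirichletCharacter.norm_le_one χ ((a : ZMod q)⁻¹)
          have h6 := h1 q χ (Finset.ne_of_mem_erase hχ) x hx
          calc _ ≤ 1 * ‖∑ n ∈ Finset.Icc 1 ⌊x⌋₊, chL χ n‖ :=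
                mul_le_mul_of_nonneg_right h5 (norm_nonneg _)
            _ ≤ _ := by rw [one_mul]; exact h6
      _ = ((Finset.univ.erase (1 : DirichletCharacter ℂ q)).card : ℝ) *
          (C₁ * (q : ℝ) ^ ε * x / (Real.log x) ^ k) := by
          rw [Finset.sum_const, nsmul_eq_mul]
      _ ≤ _ := by
          have h7 : 0 ≤ C₁ * (q : ℝ) ^ ε * x / (Real.log x) ^ k := by
            have : C₁ * (q : ℝ) ^ ε * x / (Real.log x) ^ k
                = C₁ * (q : ℝ) ^ ε * (x / (Real.log x) ^ k) := by ring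
            rw [this]
            positivity
          refine mul_le_mul_of_nonneg_right ?_ h7
          rw [← hcard]
          exact_mod_cast Finset.card_le_card (Finset.erase_subset _ _)
  generalize hR : ∑ χ ∈ Finset.univ.erase (1 : DirichletCharacter ℂ q),
      χ ((a : ZMod q)⁻¹) * ∑ n ∈ Finset.Icc 1 ⌊x⌋₊, chL χ n = R at hkey hrest
  have h4 := h2 x hx
  have h5 := h3 q hq x hx
  have h6 : 0 ≤ ∑ n ∈ (Finset.Icc 1 ⌊x⌋₊).filter (fun n => ¬ Nat.Coprime n q),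
      ArithmeticFunction.vonMangoldt n :=
    Finset.sum_nonneg fun n _ => ArithmeticFunction.vonMangoldt_nonneg
  generalize ∑ n ∈ (Finset.Icc 1 ⌊x⌋₊).filter (fun n => ¬ Nat.Coprime n q),
      ArithmeticFunction.vonMangoldt n = B at *
  generalize ∑ n ∈ Finset.Icc 1 ⌊x⌋₊, ArithmeticFunction.vonMangoldt n = P at *
  generalize ∑ n ∈ (Finset.Icc 1 ⌊x⌋₊).filter (fun n => n ≡ a [MOD q]),
          ArithmeticFunction.vonMangoldt n = A at *
  -- `φ A - x = (P - x) - B + R`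
  have h7 : ‖(((q.totient : ℝ) * A - x : ℝ) : ℂ)‖ ≤ |P - x| + B +
      q.totient * (C₁ * (q : ℝ) ^ ε * x / (Real.log x) ^ k) := by
    have h8 : (((q.totient : ℝ) * A - x : ℝ) : ℂ) = ((P - x - B : ℝ) : ℂ) + R := by
      push_cast
      push_cast at hkey
      linear_combination hkey
    rw [h8]
    refine (norm_add_le _ _).trans (add_le_add ?_ hrest)
    rw [Complex.norm_real, Real.norm_eq_abs]
    refine (abs_sub _ _).trans ?_
    rw [abs_of_nonneg h6]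
  rw [Complex.norm_real, Real.norm_eq_abs] at h7
  have h9 : A - x / q.totient = ((q.totient : ℝ) * A - x) / q.totient := by
    field_simp
  rw [h9, abs_div, abs_of_pos (by linarith : (0 : ℝ) < q.totient), div_le_iff₀ (by linarith)]
  refine h7.trans ?_
  have e1 : C₁ * (q : ℝ) ^ ε * x / (Real.log x) ^ k
      = C₁ * (q : ℝ) ^ ε * (x / (Real.log x) ^ k) := by ring
  have e2 : C₂ * x / (Real.log x) ^ k = C₂ * (x / (Real.log x) ^ k) := by ring
  have e3 : C₃ * (q : ℝ) ^ ε * x / (Real.log x) ^ k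
      = C₃ * (q : ℝ) ^ ε * (x / (Real.log x) ^ k) := by ring
  have e4 : (C₁ + C₂ + C₃) * (q : ℝ) ^ ε * x / (Real.log x) ^ k
      = (C₁ + C₂ + C₃) * (q : ℝ) ^ ε * (x / (Real.log x) ^ k) := by ring
  rw [e1, e4]
  rw [e2] at h4
  rw [e3] at h5
  generalize x / (Real.log x) ^ k = E at *
  generalize (q : ℝ) ^ ε = Q at *
  generalize (q.totient : ℝ) = φ at *
  have g1 : C₂ * E ≤ C₂ * Q * E * φ := by
    calc C₂ * E = C₂ * E * 1 * 1 := by ring
      _ ≤ C₂ * E * Q * φ :=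
          mul_le_mul (mul_le_mul_of_nonneg_left hqε (by positivity)) hφ' (by norm_num)
            (by positivity)
      _ = C₂ * Q * E * φ := by ring
  have g2 : C₃ * Q * E ≤ C₃ * Q * E * φ := by
    refine le_mul_of_one_le_right ?_ hφ'
    have : 0 ≤ Q := by linarith
    positivity
  nlinarith

theorem theta_ap (k : ℕ) (ε : ℝ) (hε : 0 < ε) :
    ∃ C : ℝ, 0 < C ∧ ∀ (q a : ℕ), 1 ≤ q → Nat.Coprime a q → ∀ x : ℝ, 2 ≤ x →
      |∑ n ∈ (Finset.Icc 1 ⌊x⌋₊).filter (fun n => n.Prime ∧ n ≡ a [MOD q]),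
          Real.log n - x / q.totient| ≤
        C * (q : ℝ) ^ ε * x / (Real.log x) ^ k := by
  obtain ⟨C₁, hC₁, h1⟩ := psi_ap k ε hε
  obtain ⟨C₂, hC₂, h2⟩ := SWF_sqrt k
  refine ⟨C₁ + C₂, by positivity, ?_⟩
  intro q a hq ha x hx
  have h0 := SWF_logpos hx
  have hqε := SWF_one_le hq hε
  have hE : 0 ≤ x / (Real.log x) ^ k := div_nonneg (by linarith) (by positivity)
  have h3 := h1 q a hq ha x hx
  have h4 := h2 x hx
  have hI : Finset.Icc 1 ⌊x⌋₊ = Finset.Ioc 0 ⌊x⌋₊ := by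
    ext n
    rw [Finset.mem_Icc, Finset.mem_Ioc]
    exact Iff.rfl
  have h5 : ∑ n ∈ (Finset.Icc 1 ⌊x⌋₊).filter (fun n => n ≡ a [MOD q]),
        ArithmeticFunction.vonMangoldt n -
      ∑ n ∈ (Finset.Icc 1 ⌊x⌋₊).filter (fun n => n.Prime ∧ n ≡ a [MOD q]), Real.log n =
      ∑ n ∈ ((Finset.Icc 1 ⌊x⌋₊).filter (fun n => ¬ n.Prime)).filter (fun n => n ≡ a [MOD q]),
        ArithmeticFunction.vonMangoldt n := by
    rw [Finset.filter_filter, Finset.sum_filter, Finset.sum_filter, Finset.sum_filter,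
      ← Finset.sum_sub_distrib]
    refine Finset.sum_congr rfl fun n _ => ?_
    by_cases hm : n ≡ a [MOD q]
    · by_cases hp : n.Prime
      · rw [if_pos hm, if_pos ⟨hp, hm⟩, if_neg fun h => h.1 hp,
          ArithmeticFunction.vonMangoldt_apply_prime hp, sub_self]
      · rw [if_pos hm, if_neg fun h => hp h.1, if_pos ⟨hp, hm⟩, sub_zero]
    · rw [if_neg hm, if_neg fun h => hm h.2, if_neg fun h => hm h.2, sub_zero]
  have h6 : ∑ n ∈ ((Finset.Icc 1 ⌊x⌋₊).filter (fun n => ¬ n.Prime)).filter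
      (fun n => n ≡ a [MOD q]), ArithmeticFunction.vonMangoldt n ≤ 2 * √x * Real.log x := by
    refine le_trans ?_ (Chebyshev.psi_sub_theta_le (by linarith : 1 ≤ x))
    rw [Chebyshev.psi_sub_theta_eq_sum_not_prime, hI]
    exact Finset.sum_le_sum_of_subset_of_nonneg (Finset.filter_subset _ _)
      fun n _ _ => ArithmeticFunction.vonMangoldt_nonneg
  have h7 : 0 ≤ ∑ n ∈ ((Finset.Icc 1 ⌊x⌋₊).filter (fun n => ¬ n.Prime)).filter
      (fun n => n ≡ a [MOD q]), ArithmeticFunction.vonMangoldt n :=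
    Finset.sum_nonneg fun n _ => ArithmeticFunction.vonMangoldt_nonneg
  rw [← h5] at h6 h7
  have e1 : C₁ * (q : ℝ) ^ ε * x / (Real.log x) ^ k
      = C₁ * (q : ℝ) ^ ε * (x / (Real.log x) ^ k) := by ring
  have e2 : C₂ * x / (Real.log x) ^ k = C₂ * (x / (Real.log x) ^ k) := by ring
  have e4 : (C₁ + C₂) * (q : ℝ) ^ ε * x / (Real.log x) ^ k
      = (C₁ + C₂) * (q : ℝ) ^ ε * (x / (Real.log x) ^ k) := by ring
  rw [e1] at h3
  rw [e2] at h4
  rw [e4]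
  have h8 : C₂ * (x / (Real.log x) ^ k) ≤ C₂ * (q : ℝ) ^ ε * (x / (Real.log x) ^ k) := by
    refine mul_le_mul_of_nonneg_right ?_ hE
    nlinarith
  have h9 := abs_le.1 h3
  rw [abs_le]
  constructor <;> nlinarith [h9.1, h9.2]

end Pool.Agent.Lib.SW
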