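import Pool.Agent.Lib.SW.Continuation

/-!
# SW-B: bounds for `L(s, χ)`, `χ ≠ 1`, in `re s > 0` (module B)

PROOFS.

`char_sum_le`: the sum over a full period of length q is 0 (`MulChar.sum_eq_zero_of_ne_one`, via
`Nat.filter_Ico_card...`/`ZMod` bijection with any q consecutive integers, or: the function
N ↦ ∑_{n<N} χ(n) has period q), so an interval sum equals a sum over at most q-1 (or q) terms of
modulus ≤ 1.

`LFunction_sub_sum_le`: apply `continuation` with g = LFunction χ (`differentiable_LFunction`),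
f N s = ∑_{n ∈ Icc 1 N} χ(n) n^(-s), B s = q (1 + ‖s‖ / re s).
hC: with b(n) = ∑_{M < m ≤ n} χ(m), |b| ≤ q, b(M) = 0, Abel summation gives
∑_{M < n ≤ N} χ(n) n^(-s) = b(N) N^(-s) + ∑_{M < n < N} b(n) (n^(-s) - (n+1)^(-s)), so by
`norm_cpow_sub_le` (telescoping) it is ≤ q (N^(-σ) + (|s|/σ) (M+1)^(-σ)) ≤ q (1 + |s|/σ) M^(-σ).
(Induction on N also works: show ∑_{M<n≤N} χ(n) n^(-s) - b(N) N^(-s) is bounded by
q (|s|/σ) ((M+1)^(-σ) - N^(-σ)) for N ≥ M+1.)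
hlim: for re s > 1, `LFunction_eq_LSeries` and the L-series is absolutely summable
(`LSeriesSummable_of_one_lt_re`), so partial sums over Icc 1 N (term at 0 is 0) converge.

`LFunction_crude`: M = 1, σ ≥ 1/2: |L| ≤ 1 + q (1 + 2|s|) ≤ 4 q (|s| + 1).

`LFunction_strip`: δ = min (ε/2) (1/4), M = ⌈q (|t| + 2)⌉ (so M ≤ 2 q (|t|+2), M ≥ 2).
∑_{n ≤ M} n^(-σ) ≤ ∑_{n ≤ M} n^(-(1-δ)) ≤ 1 + ∫_1^M x^(δ-1) dx ≤ 1 + M^δ/δ (or crude:
∑ n^(-1) n^δ ≤ M^δ (1 + log M), and 1 + log M ≤ C M^(ε/2)).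
Error: q (1 + |s|/σ) M^(-σ) ≤ q (1 + (4/3)(3 + |t|)) M^(-1) M^δ ≤ 6 M^δ.
-/

open Complex Filter Topology

namespace Pool.Agent.Lib.SW

theorem stripChar_period {q : ℕ} [NeZero q] {χ : DirichletCharacter ℂ q} (hχ : χ ≠ 1) :
    ∑ n ∈ Finset.range q, ch χ n = 0 := by
  rw [← MulChar.sum_eq_zero_of_ne_one hχ]
  refine Finset.sum_nbij' (fun n => (n : ZMod q)) ZMod.val ?_ ?_ ?_ ?_ ?_
  · intro a _
    exact Finset.mem_univ _
  · intro a _
    exact Finset.mem_range.2 (ZMod.val_lt a)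
  · intro a ha
    exact ZMod.val_cast_of_lt (Finset.mem_range.1 ha)
  · intro a _
    exact ZMod.natCast_zmod_val a
  · intro a _
    rfl

theorem stripChar_ch_add {q : ℕ} [NeZero q] (χ : DirichletCharacter ℂ q) (n : ℕ) :
    ch χ (q + n) = ch χ n := by
  unfold ch
  push_cast
  rw [ZMod.natCast_self, zero_add]

theorem stripChar_range_add {q : ℕ} [NeZero q] {χ : DirichletCharacter ℂ q} (hχ : χ ≠ 1)
    (N : ℕ) : ∑ n ∈ Finset.range (q + N), ch χ n = ∑ n ∈ Finset.range N, ch χ n := by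
  rw [Finset.sum_range_add, stripChar_period hχ, zero_add]
  exact Finset.sum_congr rfl fun n _ => stripChar_ch_add χ n

/-- the sum over the `L` integers from `c` on -/
theorem stripChar_shift {q : ℕ} [NeZero q] {χ : DirichletCharacter ℂ q} (hχ : χ ≠ 1)
    (c L : ℕ) : ‖∑ i ∈ Finset.range L, ch χ (c + i)‖ ≤ q := by
  have hper : ∀ L, ∑ i ∈ Finset.range (q + L), ch χ (c + i) =
      ∑ i ∈ Finset.range L, ch χ (c + i) := by
    intro L
    have h1 := Finset.sum_range_add (ch χ) c (q + L)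
    have h2 := Finset.sum_range_add (ch χ) c L
    have h3 := stripChar_range_add hχ (c + L)
    rw [show q + (c + L) = c + (q + L) by ring, h1, h2] at h3
    exact add_left_cancel h3
  have hmod : ∀ k r, ∑ i ∈ Finset.range (q * k + r), ch χ (c + i) =
      ∑ i ∈ Finset.range r, ch χ (c + i) := by
    intro k r
    induction k with
    | zero => simp
    | succ k ih => rw [show q * (k + 1) + r = q + (q * k + r) by ring, hper, ih]
  have hq : 0 < q := Nat.pos_of_ne_zero (NeZero.ne q)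
  have h := hmod (L / q) (L % q)
  rw [Nat.div_add_mod] at h
  rw [h]
  refine (norm_sum_le _ _).trans ?_
  refine (Finset.sum_le_sum fun i _ => norm_ch_le χ (c + i)).trans ?_
  rw [Finset.sum_const, Finset.card_range, nsmul_eq_mul, mul_one]
  exact_mod_cast (Nat.mod_lt _ hq).le

theorem char_sum_le {q : ℕ} [NeZero q] {χ : DirichletCharacter ℂ q} (hχ : χ ≠ 1) (M N : ℕ) :
    ‖∑ n ∈ Finset.Ioc M N, ch χ n‖ ≤ q := by
  have h : Finset.Ioc M N = Finset.Ico (M + 1) (N + 1) := by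
    ext n
    simp only [Finset.mem_Ioc, Finset.mem_Ico]
    omega
  rw [h, Finset.sum_Ico_eq_sum_range]
  exact stripChar_shift hχ (M + 1) _

theorem stripChar_abel {q : ℕ} [NeZero q] {χ : DirichletCharacter ℂ q} (hχ : χ ≠ 1)
    (s : ℂ) (hs : 0 < s.re) (M : ℕ) (hM : 1 ≤ M) (N : ℕ) (hN : M ≤ N) :
    ‖∑ n ∈ Finset.Ioc M N, ch χ n * (n : ℂ) ^ (-s) -
        (∑ n ∈ Finset.Ioc M N, ch χ n) * (N : ℂ) ^ (-s)‖ ≤
      q * (‖s‖ / s.re) * ((M : ℝ) ^ (-s.re) - (N : ℝ) ^ (-s.re)) := by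
  induction N, hN using Nat.le_induction with
  | base => simp
  | succ N hN ih =>
    rw [Finset.sum_Ioc_succ_top hN, Finset.sum_Ioc_succ_top hN]
    have hN1 : (1 : ℝ) ≤ N := by exact_mod_cast hM.trans hN
    have h1 := norm_cpow_sub_le s hs hN1 (by linarith : (N : ℝ) ≤ (N : ℝ) + 1)
    have h2 := char_sum_le hχ M N
    have e : ∑ n ∈ Finset.Ioc M N, ch χ n * (n : ℂ) ^ (-s) +
          ch χ (N + 1) * ((N + 1 : ℕ) : ℂ) ^ (-s) -
          (∑ n ∈ Finset.Ioc M N, ch χ n + ch χ (N + 1)) * ((N + 1 : ℕ) : ℂ) ^ (-s) =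
        (∑ n ∈ Finset.Ioc M N, ch χ n * (n : ℂ) ^ (-s) -
          (∑ n ∈ Finset.Ioc M N, ch χ n) * (N : ℂ) ^ (-s)) +
        (∑ n ∈ Finset.Ioc M N, ch χ n) *
          (((N : ℝ) : ℂ) ^ (-s) - (((N : ℝ) + 1 : ℝ) : ℂ) ^ (-s)) := by
      push_cast
      ring
    rw [e]
    refine (norm_add_le _ _).trans ?_
    have h3 : ‖(∑ n ∈ Finset.Ioc M N, ch χ n) *
        (((N : ℝ) : ℂ) ^ (-s) - (((N : ℝ) + 1 : ℝ) : ℂ) ^ (-s))‖ ≤
        q * (‖s‖ / s.re * ((N : ℝ) ^ (-s.re) - ((N : ℝ) + 1) ^ (-s.re))) := by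
      rw [norm_mul]
      exact mul_le_mul h2 h1 (norm_nonneg _) (Nat.cast_nonneg _)
    refine (add_le_add ih h3).trans (le_of_eq ?_)
    push_cast
    ring

theorem LFunction_sub_sum_le {q : ℕ} [NeZero q] {χ : DirichletCharacter ℂ q} (hχ : χ ≠ 1)
    (s : ℂ) (hs : 0 < s.re) (M : ℕ) (hM : 1 ≤ M) :
    ‖DirichletCharacter.LFunction χ s - ∑ n ∈ Finset.Icc 1 M, ch χ n * (n : ℂ) ^ (-s)‖ ≤
      q * (1 + ‖s‖ / s.re) * (M : ℝ) ^ (-s.re) := by
  refine continuation (g := DirichletCharacter.LFunction χ)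
    (f := fun N s => ∑ n ∈ Finset.Icc 1 N, ch χ n * (n : ℂ) ^ (-s))
    (B := fun s => q * (1 + ‖s‖ / s.re))
    (DirichletCharacter.differentiable_LFunction hχ).differentiableOn ?_ ?_ ?_ ?_ s hs M hM
  · intro N
    apply Differentiable.differentiableOn
    apply Differentiable.fun_sum
    intro n hn
    apply Differentiable.const_mul
    intro z
    have hn0 : (n : ℂ) ≠ 0 := by
      have := (Finset.mem_Icc.1 hn).1
      exact_mod_cast (by omega : n ≠ 0)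
    exact (differentiableAt_id.neg).const_cpow (Or.inl hn0)
  · apply ContinuousOn.mul continuousOn_const
    apply ContinuousOn.add continuousOn_const
    apply ContinuousOn.div continuous_norm.continuousOn Complex.continuous_re.continuousOn
    intro z hz
    exact (show 0 < z.re from hz).ne'
  · intro s hs M N hM hMN
    have hM1 : (1 : ℝ) ≤ M := by exact_mod_cast hM
    have hN1 : (1 : ℝ) ≤ N := by exact_mod_cast hM.trans hMN
    have e : ∑ n ∈ Finset.Icc 1 N, ch χ n * (n : ℂ) ^ (-s) -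
        ∑ n ∈ Finset.Icc 1 M, ch χ n * (n : ℂ) ^ (-s) =
        ∑ n ∈ Finset.Ioc M N, ch χ n * (n : ℂ) ^ (-s) := by
      have h0 := Finset.sum_Ioc_consecutive (fun n => ch χ n * (n : ℂ) ^ (-s))
        (Nat.zero_le M) hMN
      have i1 : Finset.Icc 1 N = Finset.Ioc 0 N := by
        ext n; simp only [Finset.mem_Icc, Finset.mem_Ioc]; omega
      have i2 : Finset.Icc 1 M = Finset.Ioc 0 M := by
        ext n; simp only [Finset.mem_Icc, Finset.mem_Ioc]; omega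
      rw [i1, i2, ← h0]
      ring
    rw [e]
    have h1 := stripChar_abel hχ s hs M hM N hMN
    have h2 := char_sum_le hχ M N
    have h3 : ‖(∑ n ∈ Finset.Ioc M N, ch χ n) * (N : ℂ) ^ (-s)‖ ≤
        q * (N : ℝ) ^ (-s.re) := by
      rw [norm_mul]
      have h4 : ‖(N : ℂ) ^ (-s)‖ = (N : ℝ) ^ (-s.re) := by
        have := Complex.norm_cpow_eq_rpow_re_of_pos (lt_of_lt_of_le one_pos hN1) (-s)
        simpa using this
      rw [h4]
      exact mul_le_mul_of_nonneg_right h2 (Real.rpow_nonneg (by linarith) _)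
    have h5 : ‖∑ n ∈ Finset.Ioc M N, ch χ n * (n : ℂ) ^ (-s)‖ ≤
        q * (‖s‖ / s.re) * ((M : ℝ) ^ (-s.re) - (N : ℝ) ^ (-s.re)) +
          q * (N : ℝ) ^ (-s.re) := by
      have e2 : ∑ n ∈ Finset.Ioc M N, ch χ n * (n : ℂ) ^ (-s) =
          (∑ n ∈ Finset.Ioc M N, ch χ n * (n : ℂ) ^ (-s) -
            (∑ n ∈ Finset.Ioc M N, ch χ n) * (N : ℂ) ^ (-s)) +
          (∑ n ∈ Finset.Ioc M N, ch χ n) * (N : ℂ) ^ (-s) := by ring
      rw [e2]
      exact (norm_add_le _ _).trans (add_le_add h1 h3)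
    refine h5.trans ?_
    have h6 : (N : ℝ) ^ (-s.re) ≤ (M : ℝ) ^ (-s.re) :=
      Real.rpow_le_rpow_of_nonpos (by linarith) (by exact_mod_cast hMN) (by linarith)
    have h7 : 0 ≤ (N : ℝ) ^ (-s.re) := Real.rpow_nonneg (by linarith) _
    have h8 : 0 ≤ ‖s‖ / s.re := div_nonneg (norm_nonneg _) hs.le
    have h9 : (0 : ℝ) ≤ q := Nat.cast_nonneg _
    have h10 := mul_nonneg (mul_nonneg h9 h8) h7
    have h11 := mul_le_mul_of_nonneg_left h6 h9
    show q * (‖s‖ / s.re) * ((M : ℝ) ^ (-s.re) - (N : ℝ) ^ (-s.re)) +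
          q * (N : ℝ) ^ (-s.re) ≤ q * (1 + ‖s‖ / s.re) * (M : ℝ) ^ (-s.re)
    nlinarith [h10, h11]
  · intro s hs
    rw [DirichletCharacter.LFunction_eq_LSeries χ hs]
    have h1 := (DirichletCharacter.LSeriesSummable_of_one_lt_re χ hs).LSeriesHasSum
    have h2 := (HasSum.tendsto_sum_nat h1).comp (tendsto_add_atTop_nat 1)
    refine h2.congr fun N => ?_
    show ∑ i ∈ Finset.range (N + 1), LSeries.term (fun n => χ (n : ZMod q)) s i =
      ∑ n ∈ Finset.Icc 1 N, ch χ n * (n : ℂ) ^ (-s)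
    rw [Finset.sum_range_succ']
    have e0 : LSeries.term (fun n => χ (n : ZMod q)) s 0 = 0 := by
      rw [LSeries.term_def, if_pos rfl]
    rw [e0, add_zero]
    have e1 : Finset.Icc 1 N = Finset.Ico 1 (N + 1) := by
      ext n; simp only [Finset.mem_Icc, Finset.mem_Ico]; omega
    rw [e1, Finset.sum_Ico_eq_sum_range]
    refine Finset.sum_congr rfl fun n _ => ?_
    rw [LSeries.term_def, if_neg (Nat.succ_ne_zero n), add_comm 1 n, Complex.cpow_neg,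
      div_eq_mul_inv]
    rfl

theorem LFunction_crude {q : ℕ} [NeZero q] {χ : DirichletCharacter ℂ q} (hχ : χ ≠ 1)
    (s : ℂ) (hs : 1 / 2 ≤ s.re) :
    ‖DirichletCharacter.LFunction χ s‖ ≤ 4 * q * (‖s‖ + 1) := by
  have hs0 : 0 < s.re := by linarith
  have h := LFunction_sub_sum_le hχ s hs0 1 le_rfl
  have e : ∑ n ∈ Finset.Icc 1 1, ch χ n * (n : ℂ) ^ (-s) = 1 := by
    rw [Finset.Icc_self, Finset.sum_singleton]
    unfold ch
    simp
  rw [e] at h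
  have h2 : ((1 : ℕ) : ℝ) ^ (-s.re) = 1 := by simp
  rw [h2, mul_one] at h
  have h3 : ‖s‖ / s.re ≤ 2 * ‖s‖ := by
    rw [div_le_iff₀ hs0]
    nlinarith [norm_nonneg s]
  have hq : (1 : ℝ) ≤ q := by exact_mod_cast Nat.one_le_iff_ne_zero.mpr (NeZero.ne q)
  have h4 : ‖DirichletCharacter.LFunction χ s‖ ≤ q * (1 + ‖s‖ / s.re) + 1 := by
    have h5 : DirichletCharacter.LFunction χ s = (DirichletCharacter.LFunction χ s - 1) + 1 := by
      ring
    rw [h5]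
    refine (norm_add_le _ _).trans ?_
    rw [norm_one]
    linarith
  have h6 : (q : ℝ) * (1 + ‖s‖ / s.re) ≤ q * (1 + 2 * ‖s‖) :=
    mul_le_mul_of_nonneg_left (by linarith) (by linarith)
  have h7 : (0 : ℝ) ≤ q * ‖s‖ := mul_nonneg (by linarith) (norm_nonneg s)
  nlinarith [h4, h6, h7]

theorem stripChar_sum_le (ε δ σ : ℝ) (hε : 0 < ε) (hδ : δ ≤ ε / 2) (hδ0 : 0 ≤ δ)
    (hσ : 1 - δ ≤ σ) (M : ℕ) (hM : 1 ≤ M) :
    ∑ n ∈ Finset.Icc 1 M, (n : ℝ) ^ (-σ) ≤ (1 + 2 / ε) * (M : ℝ) ^ ε := by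
  have hM1 : (1 : ℝ) ≤ M := by exact_mod_cast hM
  have hM0 : (0 : ℝ) < M := by linarith
  have h1 : ∀ n ∈ Finset.Icc 1 M, (n : ℝ) ^ (-σ) ≤ (M : ℝ) ^ δ * (n : ℝ)⁻¹ := by
    intro n hn
    obtain ⟨hn1, hn2⟩ := Finset.mem_Icc.1 hn
    have hn1' : (1 : ℝ) ≤ n := by exact_mod_cast hn1
    have hn2' : (n : ℝ) ≤ M := by exact_mod_cast hn2
    have hn0 : (0 : ℝ) < n := by linarith
    calc (n : ℝ) ^ (-σ) ≤ (n : ℝ) ^ (δ + (-1)) :=
          Real.rpow_le_rpow_of_exponent_le hn1' (by linarith)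
      _ = (n : ℝ) ^ δ * (n : ℝ)⁻¹ := by
          rw [Real.rpow_add hn0, Real.rpow_neg_one]
      _ ≤ (M : ℝ) ^ δ * (n : ℝ)⁻¹ :=
          mul_le_mul_of_nonneg_right (Real.rpow_le_rpow hn0.le hn2' hδ0) (inv_nonneg.2 hn0.le)
  have h2 : ∑ n ∈ Finset.Icc 1 M, (n : ℝ)⁻¹ ≤ 1 + Real.log M := by
    have h3 := harmonic_le_one_add_log M
    refine le_trans (le_of_eq ?_) h3
    unfold harmonic
    push_cast
    have e1 : Finset.Icc 1 M = Finset.Ico 1 (M + 1) := by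
      ext n; simp only [Finset.mem_Icc, Finset.mem_Ico]; omega
    rw [e1, Finset.sum_Ico_eq_sum_range]
    refine Finset.sum_congr rfl fun n _ => ?_
    push_cast
    rw [add_comm]
  have h4 : Real.log M ≤ (M : ℝ) ^ (ε / 2) / (ε / 2) :=
    Real.log_le_rpow_div hM0.le (by linarith)
  have h5 : (1 : ℝ) ≤ (M : ℝ) ^ (ε / 2) := Real.one_le_rpow hM1 (by linarith)
  have h6 : 1 + Real.log M ≤ (1 + 2 / ε) * (M : ℝ) ^ (ε / 2) := by
    have e : (M : ℝ) ^ (ε / 2) / (ε / 2) = 2 / ε * (M : ℝ) ^ (ε / 2) := by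
      field_simp
    rw [e] at h4
    nlinarith
  calc ∑ n ∈ Finset.Icc 1 M, (n : ℝ) ^ (-σ) ≤
        ∑ n ∈ Finset.Icc 1 M, (M : ℝ) ^ δ * (n : ℝ)⁻¹ := Finset.sum_le_sum h1
    _ = (M : ℝ) ^ δ * ∑ n ∈ Finset.Icc 1 M, (n : ℝ)⁻¹ := by rw [Finset.mul_sum]
    _ ≤ (M : ℝ) ^ (ε / 2) * ((1 + 2 / ε) * (M : ℝ) ^ (ε / 2)) := by
        apply mul_le_mul (Real.rpow_le_rpow_of_exponent_le hM1 hδ) (h2.trans h6)
        · exact Finset.sum_nonneg fun n _ => inv_nonneg.2 (Nat.cast_nonneg n)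
        · exact Real.rpow_nonneg hM0.le _
    _ = (1 + 2 / ε) * (M : ℝ) ^ ε := by
        have e : (M : ℝ) ^ ε = (M : ℝ) ^ (ε / 2) * (M : ℝ) ^ (ε / 2) := by
          rw [← Real.rpow_add hM0]
          congr 1
          ring
        rw [e]
        ring

theorem LFunction_strip (ε : ℝ) (hε : 0 < ε) :
    ∃ δ : ℝ, 0 < δ ∧ δ ≤ 1 / 4 ∧ ∃ C : ℝ, 0 < C ∧
      ∀ (q : ℕ) [NeZero q] (χ : DirichletCharacter ℂ q), χ ≠ 1 → ∀ s : ℂ,
        1 - δ ≤ s.re → s.re ≤ 3 →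
          ‖DirichletCharacter.LFunction χ s‖ ≤ C * (Qt q s.im) ^ ε := by
  refine ⟨min (ε / 2) (1 / 4), lt_min (by linarith) (by norm_num), min_le_right _ _,
    (7 + 2 / ε) * 2 ^ ε, by positivity, ?_⟩
  intro q _ χ hχ s hs1 hs3
  set δ := min (ε / 2) (1 / 4) with hδ
  have hδ0 : 0 < δ := lt_min (by linarith) (by norm_num)
  have hδ1 : δ ≤ ε / 2 := min_le_left _ _
  have hδ2 : δ ≤ 1 / 4 := min_le_right _ _
  have hs0 : 3 / 4 ≤ s.re := by linarith
  have hspos : 0 < s.re := by linarith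
  have hX := two_le_Qt q s.im
  set X := Qt q s.im with hXdef
  set M := ⌈X⌉₊ with hMdef
  have hXM : X ≤ M := Nat.le_ceil _
  have hM1 : (1 : ℝ) ≤ M := by linarith
  have hM0 : (0 : ℝ) < M := by linarith
  have hM : 1 ≤ M := by exact_mod_cast hM1
  have hM2 : (M : ℝ) ≤ 2 * X := by
    have := (Nat.ceil_lt_add_one (by linarith : 0 ≤ X)).le
    linarith
  have h1 := LFunction_sub_sum_le hχ s hspos M hM
  have h2 : ‖∑ n ∈ Finset.Icc 1 M, ch χ n * (n : ℂ) ^ (-s)‖ ≤ (1 + 2 / ε) * (M : ℝ) ^ ε := by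
    refine (norm_sum_le _ _).trans ?_
    refine le_trans ?_ (stripChar_sum_le ε δ s.re hε hδ1 hδ0.le hs1 M hM)
    refine Finset.sum_le_sum fun n hn => ?_
    have hn0 : (0 : ℝ) < n := by
      have := (Finset.mem_Icc.1 hn).1
      exact_mod_cast (by omega : 0 < n)
    rw [norm_mul]
    have h4 : ‖(n : ℂ) ^ (-s)‖ = (n : ℝ) ^ (-s.re) := by
      have := Complex.norm_cpow_eq_rpow_re_of_pos hn0 (-s)
      simpa using this
    rw [h4]
    have h5 := norm_ch_le χ n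
    have h6 : 0 ≤ (n : ℝ) ^ (-s.re) := Real.rpow_nonneg hn0.le _
    nlinarith
  have hq : (1 : ℝ) ≤ q := by exact_mod_cast Nat.one_le_iff_ne_zero.mpr (NeZero.ne q)
  have h3 : (q : ℝ) * (1 + ‖s‖ / s.re) ≤ 6 * M := by
    have a1 : ‖s‖ ≤ 3 + |s.im| := by
      refine (Complex.norm_le_abs_re_add_abs_im s).trans ?_
      rw [abs_of_pos hspos]
      linarith
    have a2 : ‖s‖ / s.re ≤ 4 / 3 * (3 + |s.im|) := by
      rw [div_le_iff₀ hspos]
      have := abs_nonneg s.im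
      nlinarith
    have a3 : (q : ℝ) * (1 + ‖s‖ / s.re) ≤ q * (6 * (|s.im| + 2)) := by
      apply mul_le_mul_of_nonneg_left _ (by linarith)
      have := abs_nonneg s.im
      linarith
    have a4 : (q : ℝ) * (6 * (|s.im| + 2)) = 6 * X := by
      rw [hXdef]
      unfold Qt
      ring
    linarith
  have h4 : (q : ℝ) * (1 + ‖s‖ / s.re) * (M : ℝ) ^ (-s.re) ≤ 6 * (M : ℝ) ^ ε := by
    have b1 : (M : ℝ) ^ (-s.re) ≤ (M : ℝ) ^ (ε + (-1)) :=
      Real.rpow_le_rpow_of_exponent_le hM1 (by linarith)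
    have b2 : (M : ℝ) ^ (ε + (-1)) = (M : ℝ) ^ ε * (M : ℝ)⁻¹ := by
      rw [Real.rpow_add hM0, Real.rpow_neg_one]
    calc (q : ℝ) * (1 + ‖s‖ / s.re) * (M : ℝ) ^ (-s.re) ≤
          (6 * M) * ((M : ℝ) ^ ε * (M : ℝ)⁻¹) := by
          apply mul_le_mul h3 (b1.trans (le_of_eq b2)) (Real.rpow_nonneg hM0.le _) (by linarith)
      _ = 6 * (M : ℝ) ^ ε := by
          field_simp
  have h5 : ‖DirichletCharacter.LFunction χ s‖ ≤ (7 + 2 / ε) * (M : ℝ) ^ ε := by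
    have e : DirichletCharacter.LFunction χ s = (DirichletCharacter.LFunction χ s -
        ∑ n ∈ Finset.Icc 1 M, ch χ n * (n : ℂ) ^ (-s)) +
        ∑ n ∈ Finset.Icc 1 M, ch χ n * (n : ℂ) ^ (-s) := by ring
    rw [e]
    refine (norm_add_le _ _).trans ?_
    linarith
  refine h5.trans ?_
  rw [mul_assoc]
  apply mul_le_mul_of_nonneg_left _ (by positivity)
  rw [← Real.mul_rpow (by norm_num) (by linarith)]
  exact Real.rpow_le_rpow hM0.le hM2 hε.le

end Pool.Agent.Lib.SW
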