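import Pool.Agent.Lib.SW.VinoSum

/-!
# SW-U: type I and type II sums (module U)

PROOFS. `type_I`: |∑_{k ≤ X/m} e(mkα)| ≤ gmin (X/m) (mα) (`geom_le`), `vino_sum`. `type_I_log`: Abel
summation for log k: |∑_{k≤K} log k e(kβ)| ≤ 2 log K max_{K'} |∑_{k ≤ K'}| ≤ 2 log X · gmin (X/m) (mα).
`type_II`: Cauchy-Schwarz in l: |∑_l u_l ∑_j v_j e(ljα)|² ≤ (∑|u_l|²) ∑_{L<l≤2L} |∑_{j ≤ J, l j ≤ X} v_j e(ljα)|²; open
the square: ∑_{j₁,j₂} v_{j₁} conj v_{j₂} ∑_{L < l ≤ min(2L, X/j₁, X/j₂)} e(l(j₁-j₂)α), inner sum ≤ gmin L ((j₁-j₂)α);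
|v v'| ≤ (|v|²+|v'|²)/2 and symmetry (gmin L (-β) = gmin L β): ≤ ∑_{j₁} |v_{j₁}|² ∑_{j₂ ≤ J} gmin L ((j₁-j₂)α) ≤
(∑|v|²) (L + 2 ∑_{1≤h≤J} gmin L (hα)), and L ≤ X/h for h ≤ J (hypothesis L J ≤ X), so `gmin_mono`, `vino_sum` with M = J.
Since q, J ≤ ..: log (2 q J) ≤ log (2 q X).
-/

open Finset Pool.Agent.Lib.GT

namespace Pool.Agent.Lib.SW

/-- the inner geometric sum of the type I sums -/
theorem inner_le (α : ℝ) (m X K : ℕ) (hK : K ≤ X / m) :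
    ‖∑ k ∈ Icc 1 K, e ((m * k : ℕ) * α)‖ ≤ gmin ((X : ℝ) / m) (m * α) := by
  have h1 : ∑ k ∈ Icc 1 K, e ((m * k : ℕ) * α) = ∑ k ∈ Ioc 0 K, e (k * (m * α)) := by
    apply Finset.sum_congr
    · ext k
      simp only [Finset.mem_Icc, Finset.mem_Ioc]
      omega
    · intro k _
      congr 1
      push_cast
      ring
  rw [h1]
  apply geom_le _ _ _ _ (Nat.zero_le _)
  have h2 : ((K : ℕ) : ℝ) ≤ ((X / m : ℕ) : ℝ) := by exact_mod_cast hK
  have h3 : ((X / m : ℕ) : ℝ) ≤ (X : ℝ) / m := Nat.cast_div_le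
  simpa using h2.trans h3

/-- Abel summation with the logarithm -/
theorem abel_log (z : ℕ → ℂ) (G : ℝ) (K : ℕ) (hG : ∀ k : ℕ, k ≤ K → ‖∑ i ∈ Icc 1 k, z i‖ ≤ G) :
    ‖∑ i ∈ Icc 1 K, (Real.log i : ℂ) * z i‖ ≤ 2 * Real.log K * G := by
  have h1 : ∀ n : ℕ, ∑ i ∈ Icc 1 (n + 1), (Real.log i : ℂ) * z i =
      (Real.log (n + 1 : ℕ) : ℂ) * ∑ i ∈ Icc 1 (n + 1), z i -
      ∑ k ∈ Icc 1 n, ((Real.log (k + 1 : ℕ) - Real.log k : ℝ) : ℂ) * ∑ i ∈ Icc 1 k, z i := by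
    intro n
    induction n with
    | zero => simp
    | succ n ih =>
      rw [Finset.sum_Icc_succ_top (by omega : 1 ≤ n + 1 + 1), ih,
        Finset.sum_Icc_succ_top (by omega : 1 ≤ n + 1 + 1) z,
        Finset.sum_Icc_succ_top (by omega : 1 ≤ n + 1) (fun k =>
          ((Real.log (k + 1 : ℕ) - Real.log k : ℝ) : ℂ) * ∑ i ∈ Icc 1 k, z i)]
      push_cast
      ring
  have h2 : ∀ n : ℕ, ∑ k ∈ Icc 1 n, (Real.log (k + 1 : ℕ) - Real.log k) =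
      Real.log (n + 1 : ℕ) := by
    intro n
    induction n with
    | zero => simp
    | succ n ih =>
      rw [Finset.sum_Icc_succ_top (by omega : 1 ≤ n + 1), ih]
      ring
  have hG0 : 0 ≤ G := by
    have := hG 0 (Nat.zero_le _)
    simpa using this
  rcases K with _ | n
  · simp
  · rw [h1 n]
    have h3 : 0 ≤ Real.log ((n + 1 : ℕ) : ℝ) := Real.log_natCast_nonneg _
    calc _ ≤ ‖(Real.log (n + 1 : ℕ) : ℂ) * ∑ i ∈ Icc 1 (n + 1), z i‖ +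
          ‖∑ k ∈ Icc 1 n, ((Real.log (k + 1 : ℕ) - Real.log k : ℝ) : ℂ) *
            ∑ i ∈ Icc 1 k, z i‖ := norm_sub_le _ _
      _ ≤ Real.log (n + 1 : ℕ) * G +
          ∑ k ∈ Icc 1 n, (Real.log (k + 1 : ℕ) - Real.log k) * G := by
        apply add_le_add
        · rw [norm_mul, Complex.norm_real, Real.norm_of_nonneg h3]
          exact mul_le_mul_of_nonneg_left (hG _ le_rfl) h3
        · refine (norm_sum_le _ _).trans (Finset.sum_le_sum fun k hk => ?_)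
          rw [Finset.mem_Icc] at hk
          have h4 : 0 ≤ Real.log (k + 1 : ℕ) - Real.log k := by
            rw [sub_nonneg]
            apply Real.log_le_log
            · exact_mod_cast hk.1
            · push_cast
              linarith
          rw [norm_mul, Complex.norm_real, Real.norm_of_nonneg h4]
          exact mul_le_mul_of_nonneg_left (hG k (by omega)) h4
      _ = 2 * Real.log (n + 1 : ℕ) * G := by
        rw [← Finset.sum_mul, h2]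
        ring

theorem log_le_log_qX (q M X : ℕ) (hq : 1 ≤ q) (hM : 1 ≤ M) (hMX : M ≤ X) :
    Real.log (2 * q * M) ≤ Real.log (2 * q * X) := by
  have h1 : (1 : ℝ) ≤ q := by exact_mod_cast hq
  have h2 : (1 : ℝ) ≤ M := by exact_mod_cast hM
  have h3 : (M : ℝ) ≤ X := by exact_mod_cast hMX
  apply Real.log_le_log
  · positivity
  · gcongr

theorem log_two_le_qX (q X : ℕ) (hq : 1 ≤ q) (hX : 1 ≤ X) :
    Real.log 2 ≤ Real.log (2 * q * X) := by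
  have h1 : (1 : ℝ) ≤ q := by exact_mod_cast hq
  have h2 : (1 : ℝ) ≤ X := by exact_mod_cast hX
  apply Real.log_le_log (by norm_num)
  nlinarith

theorem log_X_le_qX (q X K : ℕ) (hq : 1 ≤ q) (hX : 1 ≤ X) (hK : K ≤ X) :
    Real.log K ≤ Real.log (2 * q * X) := by
  have h1 : (1 : ℝ) ≤ q := by exact_mod_cast hq
  have h2 : (1 : ℝ) ≤ X := by exact_mod_cast hX
  have h3 : (K : ℝ) ≤ X := by exact_mod_cast hK
  rcases Nat.eq_zero_or_pos K with h4 | h4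
  · rw [h4]
    simp only [Nat.cast_zero, Real.log_zero]
    apply Real.log_nonneg
    nlinarith
  · apply Real.log_le_log (by exact_mod_cast h4)
    nlinarith

theorem type_I :
    ∃ C : ℝ, 0 < C ∧ ∀ (α A : ℝ) (a : ℤ) (q M X : ℕ) (c : ℕ → ℂ), 1 ≤ q → IsCoprime a (q : ℤ) →
      |α - a / q| ≤ 1 / (q : ℝ) ^ 2 → M ≤ X → 1 ≤ X → (∀ m ∈ Icc 1 M, ‖c m‖ ≤ A) → 0 ≤ A →
        ‖∑ m ∈ Icc 1 M, c m * ∑ k ∈ Icc 1 (X / m), e ((m * k : ℕ) * α)‖ ≤
          C * A * (X / q + M + q) * Real.log (2 * q * X) := by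
  obtain ⟨C, hC, hV⟩ := vino_sum
  refine ⟨C, hC, ?_⟩
  intro α A a q M X c hq hcop hα hMX hX hc hA
  rcases Nat.eq_zero_or_pos M with hM | hM
  · subst hM
    have h0 : 0 ≤ Real.log (2 * q * X) :=
      le_trans (Real.log_nonneg (by norm_num)) (log_two_le_qX q X hq hX)
    simp only [Finset.Icc_eq_empty_of_lt (by norm_num : (0 : ℕ) < 1), Finset.sum_empty, norm_zero]
    positivity
  · have h1 : ‖∑ m ∈ Icc 1 M, c m * ∑ k ∈ Icc 1 (X / m), e ((m * k : ℕ) * α)‖ ≤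
        ∑ m ∈ Icc 1 M, A * gmin ((X : ℝ) / m) (m * α) := by
      refine (norm_sum_le _ _).trans (Finset.sum_le_sum fun m hm => ?_)
      rw [norm_mul]
      exact mul_le_mul (hc m hm) (inner_le α m X _ le_rfl) (norm_nonneg _) hA
    rw [← Finset.mul_sum] at h1
    have h2 := hV α X a q M hq hcop hα hM (by exact_mod_cast hMX)
    have h3 := log_le_log_qX q M X hq hM hMX
    have h4 : 0 ≤ C * ((X : ℝ) / q + M + q) := by positivity
    calc _ ≤ A * ∑ m ∈ Icc 1 M, gmin ((X : ℝ) / m) (m * α) := h1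
      _ ≤ A * (C * (X / q + M + q) * Real.log (2 * q * M)) :=
        mul_le_mul_of_nonneg_left h2 hA
      _ ≤ A * (C * (X / q + M + q) * Real.log (2 * q * X)) :=
        mul_le_mul_of_nonneg_left (mul_le_mul_of_nonneg_left h3 h4) hA
      _ = _ := by ring

theorem type_I_log :
    ∃ C : ℝ, 0 < C ∧ ∀ (α A : ℝ) (a : ℤ) (q M X : ℕ) (c : ℕ → ℂ), 1 ≤ q → IsCoprime a (q : ℤ) →
      |α - a / q| ≤ 1 / (q : ℝ) ^ 2 → M ≤ X → 1 ≤ X → (∀ m ∈ Icc 1 M, ‖c m‖ ≤ A) → 0 ≤ A →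
        ‖∑ m ∈ Icc 1 M, c m * ∑ k ∈ Icc 1 (X / m), (Real.log k : ℂ) * e ((m * k : ℕ) * α)‖ ≤
          C * A * (X / q + M + q) * (Real.log (2 * q * X)) ^ 2 := by
  obtain ⟨C, hC, hV⟩ := vino_sum
  refine ⟨2 * C, by positivity, ?_⟩
  intro α A a q M X c hq hcop hα hMX hX hc hA
  have h00 : 0 ≤ Real.log (2 * q * X) :=
    le_trans (Real.log_nonneg (by norm_num)) (log_two_le_qX q X hq hX)
  rcases Nat.eq_zero_or_pos M with hM | hM
  · subst hM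
    simp only [Finset.Icc_eq_empty_of_lt (by norm_num : (0 : ℕ) < 1), Finset.sum_empty, norm_zero]
    positivity
  · have h1 : ‖∑ m ∈ Icc 1 M, c m * ∑ k ∈ Icc 1 (X / m),
        (Real.log k : ℂ) * e ((m * k : ℕ) * α)‖ ≤
        ∑ m ∈ Icc 1 M, (A * (2 * Real.log (2 * q * X))) * gmin ((X : ℝ) / m) (m * α) := by
      refine (norm_sum_le _ _).trans (Finset.sum_le_sum fun m hm => ?_)
      rw [norm_mul]
      have h5 := abel_log (fun k => e ((m * k : ℕ) * α)) (gmin ((X : ℝ) / m) (m * α)) (X / m)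
        (fun k hk => inner_le α m X k hk)
      have h6 : Real.log ((X / m : ℕ) : ℝ) ≤ Real.log (2 * q * X) :=
        log_X_le_qX q X (X / m) hq hX (Nat.div_le_self _ _)
      have h7 : 0 ≤ gmin ((X : ℝ) / m) (m * α) := gmin_nonneg _ _ (by positivity)
      calc _ ≤ A * (2 * Real.log ((X / m : ℕ) : ℝ) * gmin ((X : ℝ) / m) (m * α)) :=
            mul_le_mul (hc m hm) h5 (norm_nonneg _) hA
        _ ≤ A * (2 * Real.log (2 * q * X) * gmin ((X : ℝ) / m) (m * α)) := by gcongr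
        _ = _ := by ring
    rw [← Finset.mul_sum] at h1
    have h2 := hV α X a q M hq hcop hα hM (by exact_mod_cast hMX)
    have h3 := log_le_log_qX q M X hq hM hMX
    have h4 : 0 ≤ C * ((X : ℝ) / q + M + q) := by positivity
    calc _ ≤ (A * (2 * Real.log (2 * q * X))) * ∑ m ∈ Icc 1 M, gmin ((X : ℝ) / m) (m * α) := h1
      _ ≤ (A * (2 * Real.log (2 * q * X))) * (C * (X / q + M + q) * Real.log (2 * q * M)) :=
        mul_le_mul_of_nonneg_left h2 (by positivity)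
      _ ≤ (A * (2 * Real.log (2 * q * X))) * (C * (X / q + M + q) * Real.log (2 * q * X)) :=
        mul_le_mul_of_nonneg_left (mul_le_mul_of_nonneg_left h3 h4) (by positivity)
      _ = _ := by ring

/-- the sum over the differences -/
theorem sum_dist_le (f : ℕ → ℝ) (hf : ∀ h, 0 ≤ f h) (U J j₁ : ℕ) (hj : j₁ ≤ J) :
    ∑ j₂ ∈ Ioc U J, f (Nat.dist j₁ j₂) ≤ 2 * ∑ h ∈ range (J + 1), f h := by
  have h1 : ∀ j₂ ∈ Ioc U J, Nat.dist j₁ j₂ ∈ range (J + 1) := by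
    intro j₂ h
    rw [Finset.mem_Ioc] at h
    rw [Finset.mem_range]
    unfold Nat.dist
    omega
  rw [← Finset.sum_fiberwise_of_maps_to h1, Finset.mul_sum]
  refine Finset.sum_le_sum fun h _ => ?_
  have h2 : ∑ i ∈ (Ioc U J).filter (fun i => Nat.dist j₁ i = h), f (Nat.dist j₁ i) =
      (((Ioc U J).filter (fun i => Nat.dist j₁ i = h)).card : ℝ) * f h := by
    rw [Finset.sum_congr rfl (fun i hi => by rw [(Finset.mem_filter.mp hi).2])]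
    rw [Finset.sum_const, nsmul_eq_mul]
  rw [h2]
  have h3 : ((Ioc U J).filter (fun i => Nat.dist j₁ i = h)).card ≤ 2 := by
    have h4 : (Ioc U J).filter (fun i => Nat.dist j₁ i = h) ⊆ {j₁ - h, j₁ + h} := by
      intro i hi
      have h5 := (Finset.mem_filter.mp hi).2
      unfold Nat.dist at h5
      rw [Finset.mem_insert, Finset.mem_singleton]
      omega
    exact (Finset.card_le_card h4).trans Finset.card_le_two
  have h4 : (((Ioc U J).filter (fun i => Nat.dist j₁ i = h)).card : ℝ) ≤ 2 := by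
    exact_mod_cast h3
  exact mul_le_mul_of_nonneg_right h4 (hf h)

theorem conj_e (x : ℝ) : (starRingEnd ℂ) (e x) = e (-x) := by
  unfold e
  rw [← Complex.exp_conj]
  congr 1
  simp only [map_mul, Complex.conj_I, Complex.conj_ofReal]
  push_cast
  have h2 : (starRingEnd ℂ) (2 : ℂ) = 2 := Complex.conj_ofNat 2
  rw [h2]
  ring

theorem filter_eq_Ioc (L X j₁ j₂ : ℕ) (h1 : 1 ≤ j₁) (h2 : 1 ≤ j₂) :
    (Ioc L (2 * L)).filter (fun l => l * j₁ ≤ X ∧ l * j₂ ≤ X) =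
      Ioc L (max L (min (2 * L) (min (X / j₁) (X / j₂)))) := by
  ext l
  rw [Finset.mem_filter, Finset.mem_Ioc, Finset.mem_Ioc, ← Nat.le_div_iff_mul_le (by omega),
    ← Nat.le_div_iff_mul_le (by omega)]
  omega

/-- the sum over l of the product of two phases -/
theorem inner_II_aux (α : ℝ) (L X j₁ j₂ : ℕ) (h1 : 1 ≤ j₁) (h2 : 1 ≤ j₂) (h : j₂ ≤ j₁) :
    ‖∑ l ∈ (Ioc L (2 * L)).filter (fun l => l * j₁ ≤ X ∧ l * j₂ ≤ X),
        e ((l * j₁ : ℕ) * α) * (starRingEnd ℂ) (e ((l * j₂ : ℕ) * α))‖ ≤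
      gmin L ((Nat.dist j₁ j₂ : ℕ) * α) := by
  rw [filter_eq_Ioc L X j₁ j₂ h1 h2]
  have h3 : Nat.dist j₁ j₂ = j₁ - j₂ := Nat.dist_eq_sub_of_le_right h
  rw [h3]
  set K := max L (min (2 * L) (min (X / j₁) (X / j₂))) with hK
  have h4 : K ≤ 2 * L := by omega
  have h5 : L ≤ K := by omega
  have h6 : ∀ l ∈ Ioc L K, e ((l * j₁ : ℕ) * α) * (starRingEnd ℂ) (e ((l * j₂ : ℕ) * α)) =
      e (l * ((j₁ - j₂ : ℕ) * α)) := by
    intro l _
    rw [conj_e, ← e_add]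
    congr 1
    rw [Nat.cast_sub h]
    push_cast
    ring
  rw [Finset.sum_congr rfl h6]
  apply geom_le _ _ _ _ h5
  have h7 : (K : ℝ) ≤ 2 * L := by exact_mod_cast h4
  linarith

theorem inner_II (α : ℝ) (L X j₁ j₂ : ℕ) (h1 : 1 ≤ j₁) (h2 : 1 ≤ j₂) :
    ‖∑ l ∈ (Ioc L (2 * L)).filter (fun l => l * j₁ ≤ X ∧ l * j₂ ≤ X),
        e ((l * j₁ : ℕ) * α) * (starRingEnd ℂ) (e ((l * j₂ : ℕ) * α))‖ ≤
      gmin L ((Nat.dist j₁ j₂ : ℕ) * α) := by
  rcases le_total j₂ j₁ with h | h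
  · exact inner_II_aux α L X j₁ j₂ h1 h2 h
  · have h3 := inner_II_aux α L X j₂ j₁ h2 h1 h
    rw [Nat.dist_comm]
    refine le_trans (le_of_eq ?_) h3
    rw [← Complex.norm_conj, map_sum]
    congr 1
    apply Finset.sum_congr
    · ext l
      simp only [Finset.mem_filter]
      tauto
    · intro l _
      rw [map_mul, Complex.conj_conj]
      ring

theorem sum_g_le (α : ℝ) (L J X : ℕ) (hX : L * J ≤ X) :
    ∑ h ∈ range (J + 1), gmin L ((h : ℕ) * α) ≤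
      L + ∑ h ∈ Icc 1 J, gmin ((X : ℝ) / h) (h * α) := by
  rw [Finset.sum_range_succ', add_comm]
  apply add_le_add
  · exact gmin_le _ _ (by positivity)
  · have h1 : ∑ k ∈ range J, gmin (L : ℝ) (((k + 1 : ℕ) : ℝ) * α) =
        ∑ h ∈ Icc 1 J, gmin (L : ℝ) ((h : ℝ) * α) := by
      rw [← Finset.sum_image (f := fun h : ℕ => gmin (L : ℝ) ((h : ℝ) * α)) (g := fun k => k + 1)
        (s := range J) (by intro a _ b _ h; simpa using h)]
      congr 1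
      ext h
      simp only [Finset.mem_image, Finset.mem_range, Finset.mem_Icc]
      constructor
      · rintro ⟨k, hk, rfl⟩
        omega
      · intro hh
        exact ⟨h - 1, by omega, by omega⟩
    rw [h1]
    refine Finset.sum_le_sum fun h hh => ?_
    rw [Finset.mem_Icc] at hh
    apply gmin_mono _ _ _ (by positivity)
    have h2 : (0 : ℝ) < h := by exact_mod_cast hh.1
    rw [le_div_iff₀ h2]
    have h3 : L * h ≤ X := (Nat.mul_le_mul_left L hh.2).trans hX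
    exact_mod_cast h3

/-- the dual form of the type II sum -/
theorem sum_sq_le (α : ℝ) (L J U X : ℕ) (v : ℕ → ℂ) (hJ : X / (L + 1) ≤ J) :
    ∑ l ∈ Ioc L (2 * L), ‖∑ j ∈ Ioc U (X / l), v j * e ((l * j : ℕ) * α)‖ ^ 2 ≤
      (∑ j ∈ Ioc U J, ‖v j‖ ^ 2) * (2 * ∑ h ∈ range (J + 1), gmin L ((h : ℕ) * α)) := by
  set g : ℕ → ℝ := fun h => gmin (L : ℝ) ((h : ℝ) * α) with hg
  have hg0 : ∀ h, 0 ≤ g h := fun h => gmin_nonneg _ _ (by positivity)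
  -- the sum over all `j` with a cutoff
  have hT : ∀ l ∈ Ioc L (2 * L), ∑ j ∈ Ioc U (X / l), v j * e ((l * j : ℕ) * α) =
      ∑ j ∈ Ioc U J, (if l * j ≤ X then v j * e ((l * j : ℕ) * α) else 0) := by
    intro l hl
    rw [Finset.mem_Ioc] at hl
    rw [← Finset.sum_filter]
    apply Finset.sum_congr _ (fun _ _ => rfl)
    ext j
    rw [Finset.mem_filter, Finset.mem_Ioc, Finset.mem_Ioc]
    have h1 : X / l ≤ X / (L + 1) := Nat.div_le_div_left (by omega) (by omega)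
    rw [mul_comm l j, ← Nat.le_div_iff_mul_le (by omega)]
    omega
  -- in the complex numbers
  have hC : ((∑ l ∈ Ioc L (2 * L), ‖∑ j ∈ Ioc U (X / l), v j * e ((l * j : ℕ) * α)‖ ^ 2 : ℝ) : ℂ) =
      ∑ j₁ ∈ Ioc U J, ∑ j₂ ∈ Ioc U J, v j₁ * (starRingEnd ℂ) (v j₂) *
        ∑ l ∈ (Ioc L (2 * L)).filter (fun l => l * j₁ ≤ X ∧ l * j₂ ≤ X),
          e ((l * j₁ : ℕ) * α) * (starRingEnd ℂ) (e ((l * j₂ : ℕ) * α)) := by
    rw [Complex.ofReal_sum]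
    have h1 : ∀ l ∈ Ioc L (2 * L),
        ((‖∑ j ∈ Ioc U (X / l), v j * e ((l * j : ℕ) * α)‖ ^ 2 : ℝ) : ℂ) =
        ∑ j₁ ∈ Ioc U J, ∑ j₂ ∈ Ioc U J, (if l * j₁ ≤ X ∧ l * j₂ ≤ X then
          v j₁ * (starRingEnd ℂ) (v j₂) *
            (e ((l * j₁ : ℕ) * α) * (starRingEnd ℂ) (e ((l * j₂ : ℕ) * α))) else 0) := by
      intro l hl
      rw [hT l hl]
      rw [← Complex.normSq_eq_norm_sq, ← Complex.mul_conj, map_sum, Finset.sum_mul_sum]
      refine Finset.sum_congr rfl fun j₁ _ => Finset.sum_congr rfl fun j₂ _ => ?_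
      by_cases h2 : l * j₁ ≤ X
      · by_cases h3 : l * j₂ ≤ X
        · simp only [h2, h3, if_true, and_self, map_mul]
          ring
        · simp only [h3, if_false, and_false, map_zero, mul_zero]
      · simp only [h2, if_false, false_and, zero_mul]
    rw [Finset.sum_congr rfl h1, Finset.sum_comm]
    refine Finset.sum_congr rfl fun j₁ _ => ?_
    rw [Finset.sum_comm]
    refine Finset.sum_congr rfl fun j₂ _ => ?_
    rw [← Finset.sum_filter, Finset.mul_sum]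
  have hN : ∑ l ∈ Ioc L (2 * L), ‖∑ j ∈ Ioc U (X / l), v j * e ((l * j : ℕ) * α)‖ ^ 2 ≤
      ∑ j₁ ∈ Ioc U J, ∑ j₂ ∈ Ioc U J, ‖v j₁‖ * ‖v j₂‖ * g (Nat.dist j₁ j₂) := by
    have h1 : 0 ≤ ∑ l ∈ Ioc L (2 * L), ‖∑ j ∈ Ioc U (X / l), v j * e ((l * j : ℕ) * α)‖ ^ 2 :=
      Finset.sum_nonneg fun _ _ => sq_nonneg _
    rw [← Real.norm_of_nonneg h1, ← Complex.norm_real, hC]
    refine (norm_sum_le _ _).trans (Finset.sum_le_sum fun j₁ hj₁ => ?_)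
    refine (norm_sum_le _ _).trans (Finset.sum_le_sum fun j₂ hj₂ => ?_)
    rw [Finset.mem_Ioc] at hj₁ hj₂
    rw [norm_mul, norm_mul, Complex.norm_conj]
    exact mul_le_mul_of_nonneg_left (inner_II α L X j₁ j₂ (by omega) (by omega)) (by positivity)
  have hS : ∑ j₁ ∈ Ioc U J, ∑ j₂ ∈ Ioc U J, ‖v j₁‖ * ‖v j₂‖ * g (Nat.dist j₁ j₂) ≤
      ∑ j₁ ∈ Ioc U J, ∑ j₂ ∈ Ioc U J, ‖v j₁‖ ^ 2 * g (Nat.dist j₁ j₂) := by
    have h1 : ∑ j₁ ∈ Ioc U J, ∑ j₂ ∈ Ioc U J, ‖v j₁‖ * ‖v j₂‖ * g (Nat.dist j₁ j₂) ≤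
        ∑ j₁ ∈ Ioc U J, ∑ j₂ ∈ Ioc U J,
          ((1 / 2) * (‖v j₁‖ ^ 2 * g (Nat.dist j₁ j₂)) +
            (1 / 2) * (‖v j₂‖ ^ 2 * g (Nat.dist j₁ j₂))) := by
      refine Finset.sum_le_sum fun j₁ _ => Finset.sum_le_sum fun j₂ _ => ?_
      have h2 := hg0 (Nat.dist j₁ j₂)
      nlinarith [sq_nonneg (‖v j₁‖ - ‖v j₂‖)]
    have h2 : ∑ j₁ ∈ Ioc U J, ∑ j₂ ∈ Ioc U J, ‖v j₂‖ ^ 2 * g (Nat.dist j₁ j₂) =
        ∑ j₁ ∈ Ioc U J, ∑ j₂ ∈ Ioc U J, ‖v j₁‖ ^ 2 * g (Nat.dist j₁ j₂) := by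
      rw [Finset.sum_comm]
      refine Finset.sum_congr rfl fun j₁ _ => Finset.sum_congr rfl fun j₂ _ => ?_
      rw [Nat.dist_comm]
    simp only [Finset.sum_add_distrib, ← Finset.mul_sum] at h1
    simp only [← Finset.mul_sum] at h2 ⊢
    linarith
  refine hN.trans (hS.trans ?_)
  rw [Finset.sum_mul]
  refine Finset.sum_le_sum fun j₁ hj₁ => ?_
  rw [← Finset.mul_sum]
  rw [Finset.mem_Ioc] at hj₁
  exact mul_le_mul_of_nonneg_left (sum_dist_le g hg0 U J j₁ hj₁.2) (sq_nonneg _)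

theorem type_II :
    ∃ C : ℝ, 0 < C ∧ ∀ (α : ℝ) (a : ℤ) (q L J U X : ℕ) (u v : ℕ → ℂ), 1 ≤ q → IsCoprime a (q : ℤ) →
      |α - a / q| ≤ 1 / (q : ℝ) ^ 2 → 1 ≤ L → 1 ≤ J → L * J ≤ X → X / (L + 1) ≤ J →
        ‖∑ l ∈ Ioc L (2 * L), u l * ∑ j ∈ Ioc U (X / l), v j * e ((l * j : ℕ) * α)‖ ^ 2 ≤
          C * (∑ l ∈ Ioc L (2 * L), ‖u l‖ ^ 2) * (∑ j ∈ Ioc U J, ‖v j‖ ^ 2) *
            (X / q + L + J + q) * Real.log (2 * q * X) := by
  obtain ⟨C, hC, hV⟩ := vino_sum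
  refine ⟨2 * (2 + C), by positivity, ?_⟩
  intro α a q L J U X u v hq hcop hα hL hJ hLJ hXJ
  have hJX : J ≤ X := le_trans (Nat.le_mul_of_pos_left J hL) hLJ
  have hX : 1 ≤ X := le_trans hJ hJX
  have h1 : ‖∑ l ∈ Ioc L (2 * L), u l * ∑ j ∈ Ioc U (X / l), v j * e ((l * j : ℕ) * α)‖ ^ 2 ≤
      (∑ l ∈ Ioc L (2 * L), ‖u l‖ ^ 2) *
        ∑ l ∈ Ioc L (2 * L), ‖∑ j ∈ Ioc U (X / l), v j * e ((l * j : ℕ) * α)‖ ^ 2 := by
    have h2 : ‖∑ l ∈ Ioc L (2 * L), u l * ∑ j ∈ Ioc U (X / l), v j * e ((l * j : ℕ) * α)‖ ≤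
        ∑ l ∈ Ioc L (2 * L), ‖u l‖ * ‖∑ j ∈ Ioc U (X / l), v j * e ((l * j : ℕ) * α)‖ := by
      refine (norm_sum_le _ _).trans (Finset.sum_le_sum fun l _ => ?_)
      rw [norm_mul]
    calc _ ≤ (∑ l ∈ Ioc L (2 * L), ‖u l‖ *
          ‖∑ j ∈ Ioc U (X / l), v j * e ((l * j : ℕ) * α)‖) ^ 2 := by gcongr
      _ ≤ _ := Finset.sum_mul_sq_le_sq_mul_sq _ _ _
  have h2 := sum_sq_le α L J U X v hXJ
  have h3 := sum_g_le α L J X hLJ
  have h4 := hV α X a q J hq hcop hα hJ (by exact_mod_cast hJX)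
  have h5 := log_le_log_qX q J X hq hJ hJX
  have h6 := log_two_le_qX q X hq hX
  have h7 : (1 / 2 : ℝ) ≤ Real.log 2 := by
    have := Real.log_two_gt_d9
    linarith
  set W := Real.log (2 * q * X) with hW
  have hW0 : 1 / 2 ≤ W := by linarith
  set u2 := ∑ l ∈ Ioc L (2 * L), ‖u l‖ ^ 2 with hu2
  set v2 := ∑ j ∈ Ioc U J, ‖v j‖ ^ 2 with hv2
  have hu0 : 0 ≤ u2 := Finset.sum_nonneg fun _ _ => sq_nonneg _
  have hv0 : 0 ≤ v2 := Finset.sum_nonneg fun _ _ => sq_nonneg _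
  have h8 : 0 ≤ C * ((X : ℝ) / q + J + q) := by positivity
  have h9 : ∑ h ∈ range (J + 1), gmin L ((h : ℕ) * α) ≤ (2 + C) * (X / q + L + J + q) * W := by
    have h10 : C * ((X : ℝ) / q + J + q) * Real.log (2 * q * J) ≤ C * ((X : ℝ) / q + J + q) * W :=
      mul_le_mul_of_nonneg_left h5 h8
    have h11 : (L : ℝ) ≤ 2 * L * W := by
      have : (0 : ℝ) ≤ L := by positivity
      nlinarith
    have h12 : 0 ≤ (2 * ((X : ℝ) / q + J + q) + C * L) * W := by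
      have : 0 ≤ W := by linarith
      positivity
    calc _ ≤ (L : ℝ) + C * ((X : ℝ) / q + J + q) * W := by linarith
      _ ≤ 2 * L * W + C * ((X : ℝ) / q + J + q) * W +
          (2 * ((X : ℝ) / q + J + q) + C * L) * W := by linarith
      _ = _ := by ring
  calc _ ≤ u2 * ∑ l ∈ Ioc L (2 * L), ‖∑ j ∈ Ioc U (X / l), v j * e ((l * j : ℕ) * α)‖ ^ 2 := h1
    _ ≤ u2 * (v2 * (2 * ∑ h ∈ range (J + 1), gmin L ((h : ℕ) * α))) :=
      mul_le_mul_of_nonneg_left h2 hu0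
    _ ≤ u2 * (v2 * (2 * ((2 + C) * (X / q + L + J + q) * W))) := by gcongr
    _ = _ := by ring

end Pool.Agent.Lib.SW
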