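import Mathlib

/-!
# SW-S: Vaughan's identity (module S)

PROOF. Pointwise for n ≥ 1, with arithmetic functions: Λ_{>V} = μ_{≤U} * log - μ_{≤U} * Λ_{≤V} * ζ +
μ_{>U} * Λ_{>V} * ζ. Indeed (μ - μ_{≤U}) * (Λ - Λ_{≤V}) * ζ = μ*Λ*ζ - μ*Λ_{≤V}*ζ - μ_{≤U}*Λ*ζ +
μ_{≤U}*Λ_{≤V}*ζ = Λ - Λ_{≤V} - μ_{≤U}*log + μ_{≤U}*Λ_{≤V}*ζ (μ*ζ = 1, Λ*ζ = log). Here
(μ_{≤U} * Λ_{≤V})(m) = cUV U V m (zero for m > U V) and (μ_{>U} * ζ)(j) = bU U j (zero for j ≤ U). Multiply by f(n), sum over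
1 ≤ n ≤ X and group n = m k (`Finset.sum_sigma`/`Nat.divisors` bijection {(m,k): m k ≤ X}).
`abs_cUV_le`: ≤ ∑_{d | m} Λ(m/d) = log m. `abs_bU_le`: number of divisors.
`sum_divisors_sq_le`: ∑_{j ≤ J} d(j)² ≤ ∑_{j} ∑_{d | j} d(d) d(j/d)..: simple: d(j)² ≤ ∑_{d e = j} d(d) d(e)
is d_4(j) ≥ d(j)² ? (true: d² ≤ d_4, multiplicative, (a+1)² ≤ C(a+3,3)). Alternative direct proof:
∑_{j≤J} d(j)² = ∑_{a ≤ J} ∑_{j ≤ J, a | j} d(j) and d(a b) ≤ d(a) d(b): ≤ ∑_a d(a) ∑_{b ≤ J/a} d(b) ≤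
∑_a d(a) (J/a) (1+log J) ≤ J (1+log J) ∑_{a ≤ J} d(a)/a ≤ J (1+log J)^3 (∑_{a≤J} d(a)/a ≤ (∑ 1/u)²).
`sum_vonMangoldt_sq_le`: ≤ log (X) ψ(X) and ψ(X) ≤ C X (Mathlib `Chebyshev.psi_le`...).
-/

open Finset
open scoped ArithmeticFunction.Moebius ArithmeticFunction.vonMangoldt

namespace Pool.Agent.Lib.SW

/-- coefficients `(μ_{≤ U} * Λ_{≤ V})(m)` -/
noncomputable def cUV (U V m : ℕ) : ℝ :=
  ∑ d ∈ m.divisors.filter (fun d => d ≤ U ∧ m / d ≤ V), (μ d : ℝ) * Λ (m / d)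

/-- coefficients `(μ_{> U} * 1)(j)` -/
noncomputable def bU (U j : ℕ) : ℝ := ∑ d ∈ j.divisors.filter (fun d => U < d), (μ d : ℝ)

theorem Vaughan_Icc (X : ℕ) : Icc 1 X = Ioc 0 X := by
  ext n
  simp only [mem_Icc, mem_Ioc]
  omega

/-- grouping a sum over `n ≤ X` by the factorisations `n = m k` -/
theorem Vaughan_swap {R : Type*} [AddCommMonoid R] (G : ℕ → ℕ → R) (X : ℕ) :
    ∑ n ∈ Icc 1 X, ∑ p ∈ n.divisorsAntidiagonal, G p.1 p.2 =
      ∑ m ∈ Icc 1 X, ∑ k ∈ Icc 1 (X / m), G m k := by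
  have h1 : ∑ n ∈ Icc 1 X, ∑ p ∈ n.divisorsAntidiagonal, G p.1 p.2 =
      ∑ x ∈ Ioc 0 X ×ˢ Ioc 0 X with x.1 * x.2 ≤ X, G x.1 x.2 := by
    rw [Vaughan_Icc]
    trans ∑ n ∈ Ioc 0 X, ∑ x ∈ Ioc 0 X ×ˢ Ioc 0 X with x.1 * x.2 = n, G x.1 x.2
    · refine sum_congr rfl fun n hn ↦ ?_
      simp only [mem_Ioc] at hn
      rw [Nat.divisorsAntidiagonal_eq_prod_filter_of_le hn.1.ne' hn.2]
    · simp_rw [sum_filter]
      rw [sum_comm]
      refine sum_congr rfl fun x hx ↦ ?_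
      rw [mem_product, mem_Ioc, mem_Ioc] at hx
      by_cases hle : x.1 * x.2 ≤ X
      · rw [if_pos hle, Finset.sum_ite_eq, if_pos]
        rw [mem_Ioc]
        exact ⟨Nat.mul_pos hx.1.1 hx.2.1, hle⟩
      · rw [if_neg hle, Finset.sum_ite_eq, if_neg]
        rw [mem_Ioc]
        exact fun h => hle h.2
  rw [h1, sum_filter, sum_product, Vaughan_Icc]
  refine sum_congr rfl fun m hm ↦ ?_
  rw [mem_Ioc] at hm
  rw [← sum_filter]
  apply sum_congr _ (fun _ _ => rfl)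
  ext k
  simp only [mem_filter, mem_Ioc, mem_Icc]
  constructor
  · rintro ⟨⟨h2, _⟩, h3⟩
    exact ⟨h2, (Nat.le_div_iff_mul_le hm.1).mpr (by rw [mul_comm]; exact h3)⟩
  · rintro ⟨h2, h3⟩
    have h4 := (Nat.le_div_iff_mul_le hm.1).mp h3
    refine ⟨⟨h2, le_trans (Nat.le_mul_of_pos_right k hm.1) h4⟩, by rw [mul_comm]; exact h4⟩

theorem Vaughan_dirichlet (g h : ArithmeticFunction ℝ) (f : ℕ → ℂ) (X : ℕ) :
    ∑ n ∈ Icc 1 X, (((g * h) n : ℝ) : ℂ) * f n =
      ∑ m ∈ Icc 1 X, (g m : ℂ) * ∑ k ∈ Icc 1 (X / m), (h k : ℂ) * f (m * k) := by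
  have h1 : ∑ n ∈ Icc 1 X, (((g * h) n : ℝ) : ℂ) * f n =
      ∑ n ∈ Icc 1 X, ∑ p ∈ n.divisorsAntidiagonal,
        (fun m k : ℕ => (g m : ℂ) * ((h k : ℂ) * f (m * k))) p.1 p.2 := by
    refine sum_congr rfl fun n _ ↦ ?_
    rw [ArithmeticFunction.mul_apply, Complex.ofReal_sum, sum_mul]
    refine sum_congr rfl fun p hp ↦ ?_
    rw [Nat.mem_divisorsAntidiagonal] at hp
    simp only
    rw [hp.1]
    push_cast
    ring
  rw [h1.trans (Vaughan_swap (fun m k : ℕ => (g m : ℂ) * ((h k : ℂ) * f (m * k))) X)]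
  refine sum_congr rfl fun m _ ↦ ?_
  rw [mul_sum]

theorem Vaughan_restrict (g S : ℕ → ℂ) (A X : ℕ) (hg : ∀ m, A < m → g m = 0)
    (hS : ∀ m, X < m → S m = 0) :
    ∑ m ∈ Icc 1 X, g m * S m = ∑ m ∈ Icc 1 A, g m * S m := by
  have h1 : ∑ m ∈ Icc 1 (min A X), g m * S m = ∑ m ∈ Icc 1 X, g m * S m := by
    apply sum_subset
    · exact Icc_subset_Icc_right (min_le_right _ _)
    · intro m hm hm'
      rw [mem_Icc] at hm hm'
      rw [hg m (by by_contra h; exact hm' ⟨hm.1, by omega⟩), zero_mul]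
  have h2 : ∑ m ∈ Icc 1 (min A X), g m * S m = ∑ m ∈ Icc 1 A, g m * S m := by
    apply sum_subset
    · exact Icc_subset_Icc_right (min_le_left _ _)
    · intro m hm hm'
      rw [mem_Icc] at hm hm'
      rw [hS m (by by_contra h; exact hm' ⟨hm.1, by omega⟩), mul_zero]
  rw [← h1, h2]

theorem Vaughan_sub_apply (F G : ArithmeticFunction ℝ) (n : ℕ) : (F - G) n = F n - G n := by
  have h := congrArg (fun H : ArithmeticFunction ℝ => H n) (sub_add_cancel F G)
  simp only [ArithmeticFunction.add_apply] at h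
  linarith

/-- truncation of an arithmetic function -/
noncomputable def Vaughan_tr (F : ArithmeticFunction ℝ) (U : ℕ) : ArithmeticFunction ℝ :=
  ⟨fun n => if n ≤ U then F n else 0, by simp⟩

theorem Vaughan_tr_apply (F : ArithmeticFunction ℝ) (U n : ℕ) :
    Vaughan_tr F U n = if n ≤ U then F n else 0 := rfl

/-- the Moebius function with real values -/
noncomputable def Vaughan_mu : ArithmeticFunction ℝ :=
  ((ArithmeticFunction.moebius : ArithmeticFunction ℤ) : ArithmeticFunction ℝ)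

theorem Vaughan_mu_apply (n : ℕ) : Vaughan_mu n = ((μ n : ℤ) : ℝ) := by
  rw [Vaughan_mu, ArithmeticFunction.intCoe_apply]

theorem Vaughan_mu_zeta :
    Vaughan_mu * ((ArithmeticFunction.zeta : ArithmeticFunction ℕ) : ArithmeticFunction ℝ) = 1 :=
  ArithmeticFunction.coe_moebius_mul_coe_zeta

theorem Vaughan_conv (F G : ArithmeticFunction ℝ) (U V m : ℕ) :
    (Vaughan_tr F U * Vaughan_tr G V) m =
      ∑ d ∈ m.divisors.filter (fun d => d ≤ U ∧ m / d ≤ V), F d * G (m / d) := by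
  rw [ArithmeticFunction.mul_apply,
    Nat.sum_divisorsAntidiagonal (f := fun a b => Vaughan_tr F U a * Vaughan_tr G V b),
    sum_filter]
  refine sum_congr rfl fun d _ ↦ ?_
  rw [Vaughan_tr_apply, Vaughan_tr_apply]
  by_cases h1 : d ≤ U
  · by_cases h2 : m / d ≤ V
    · simp [h1, h2]
    · simp [h1, h2]
  · simp [h1]

theorem Vaughan_cUV_eq (U V m : ℕ) :
    (Vaughan_tr Vaughan_mu U * Vaughan_tr Λ V) m = cUV U V m := by
  rw [Vaughan_conv, cUV]
  refine sum_congr rfl fun d _ ↦ ?_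
  rw [Vaughan_mu_apply]

theorem Vaughan_filter_empty (U V m : ℕ) (hm : U * V < m) :
    m.divisors.filter (fun d => d ≤ U ∧ m / d ≤ V) = ∅ := by
  rw [filter_eq_empty_iff]
  intro d hd hh
  have hdm := Nat.dvd_of_mem_divisors hd
  have h1 : d * (m / d) = m := Nat.mul_div_cancel' hdm
  have h2 : d * (m / d) ≤ U * V := Nat.mul_le_mul hh.1 hh.2
  omega

theorem Vaughan_cUV_zero (U V m : ℕ) (hm : U * V < m) : cUV U V m = 0 := by
  rw [cUV, Vaughan_filter_empty U V m hm, sum_empty]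

theorem Vaughan_bU_eq (U j : ℕ) :
    ((Vaughan_mu - Vaughan_tr Vaughan_mu U) *
      ((ArithmeticFunction.zeta : ArithmeticFunction ℕ) : ArithmeticFunction ℝ)) j = bU U j := by
  rw [ArithmeticFunction.coe_mul_zeta_apply, bU, sum_filter]
  refine sum_congr rfl fun d _ ↦ ?_
  rw [Vaughan_sub_apply, Vaughan_tr_apply, Vaughan_mu_apply]
  by_cases h1 : d ≤ U
  · rw [if_pos h1, if_neg (by omega), sub_self]
  · rw [if_neg h1, if_pos (by omega), sub_zero]

theorem Vaughan_bU_zero (U j : ℕ) (hj : 1 ≤ j) (h : j ≤ U) : bU U j = 0 := by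
  rw [bU]
  apply sum_eq_zero
  intro d hd
  rw [mem_filter] at hd
  have := Nat.le_of_dvd hj (Nat.dvd_of_mem_divisors hd.1)
  omega

theorem Vaughan_inner (U K l : ℕ) (f : ℕ → ℂ) :
    ∑ j ∈ Icc 1 K, (bU U j : ℂ) * f (l * j) = ∑ j ∈ Ioc U K, (bU U j : ℂ) * f (l * j) := by
  symm
  apply sum_subset
  · intro j hj
    rw [mem_Ioc] at hj
    rw [mem_Icc]
    omega
  · intro j hj hj'
    rw [mem_Icc] at hj
    rw [mem_Ioc] at hj'
    rw [Vaughan_bU_zero U j hj.1 (by omega)]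
    simp

/-- the tail sum `∑_{V < l ≤ X}` -/
theorem Vaughan_tail (F : ArithmeticFunction ℝ) (V X : ℕ) (S : ℕ → ℂ) :
    ∑ l ∈ Icc 1 X, (((F - Vaughan_tr F V) l : ℝ) : ℂ) * S l = ∑ l ∈ Ioc V X, (F l : ℂ) * S l := by
  symm
  have h1 : ∑ l ∈ Ioc V X, (F l : ℂ) * S l =
      ∑ l ∈ Ioc V X, (((F - Vaughan_tr F V) l : ℝ) : ℂ) * S l := by
    refine sum_congr rfl fun l hl ↦ ?_
    rw [mem_Ioc] at hl
    rw [Vaughan_sub_apply, Vaughan_tr_apply, if_neg (by omega), sub_zero]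
  rw [h1]
  apply sum_subset
  · intro j hj
    rw [mem_Ioc] at hj
    rw [mem_Icc]
    omega
  · intro j hj hj'
    rw [mem_Icc] at hj
    rw [mem_Ioc] at hj'
    rw [Vaughan_sub_apply, Vaughan_tr_apply, if_pos (by omega), sub_self]
    simp

theorem vaughan (U V X : ℕ) (f : ℕ → ℂ) :
    ∑ n ∈ Ioc V X, ((Λ n : ℝ) : ℂ) * f n =
      ∑ m ∈ Icc 1 U, ((μ m : ℝ) : ℂ) * ∑ k ∈ Icc 1 (X / m), (Real.log k : ℂ) * f (m * k) -
      ∑ m ∈ Icc 1 (U * V), (cUV U V m : ℂ) * ∑ k ∈ Icc 1 (X / m), f (m * k) +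
      ∑ l ∈ Ioc V X, ((Λ l : ℝ) : ℂ) * ∑ j ∈ Ioc U (X / l), (bU U j : ℂ) * f (l * j) := by
  set Z : ArithmeticFunction ℝ :=
    ((ArithmeticFunction.zeta : ArithmeticFunction ℕ) : ArithmeticFunction ℝ) with hZ
  set a := Vaughan_tr Vaughan_mu U with ha
  set b := Vaughan_tr Λ V with hb
  have hz : Vaughan_mu * Z = 1 := Vaughan_mu_zeta
  have hl : Λ * Z = ArithmeticFunction.log := ArithmeticFunction.vonMangoldt_mul_zeta
  have hid : Λ - b = a * ArithmeticFunction.log - (a * b) * Z + (Λ - b) * ((Vaughan_mu - a) * Z) := by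
    linear_combination a * hl - (Λ - b) * hz
  have hdiv : ∀ m, X < m → X / m = 0 := fun m hm => Nat.div_eq_of_lt hm
  -- left side
  have h0 : ∑ n ∈ Icc 1 X, (((Λ - b) n : ℝ) : ℂ) * f n = ∑ n ∈ Ioc V X, ((Λ n : ℝ) : ℂ) * f n :=
    Vaughan_tail Λ V X f
  rw [← h0]
  have h1 : ∀ n, (((Λ - b) n : ℝ) : ℂ) * f n =
      (((a * ArithmeticFunction.log) n : ℝ) : ℂ) * f n - ((((a * b) * Z) n : ℝ) : ℂ) * f n +
        ((((Λ - b) * ((Vaughan_mu - a) * Z)) n : ℝ) : ℂ) * f n := by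
    intro n
    have h : (Λ - b) n = (a * ArithmeticFunction.log - (a * b) * Z +
        (Λ - b) * ((Vaughan_mu - a) * Z)) n := congrArg (fun F : ArithmeticFunction ℝ => F n) hid
    rw [h, ArithmeticFunction.add_apply, Vaughan_sub_apply]
    push_cast
    ring
  rw [sum_congr rfl (fun n _ => h1 n), sum_add_distrib, sum_sub_distrib]
  congr 1
  · congr 1
    · rw [Vaughan_dirichlet, Vaughan_restrict _ _ U X]
      · refine sum_congr rfl fun m hm ↦ ?_
        rw [mem_Icc] at hm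
        rw [ha, Vaughan_tr_apply, if_pos hm.2, Vaughan_mu_apply]
        rfl
      · intro m hm
        rw [ha, Vaughan_tr_apply, if_neg (by omega)]
        simp
      · intro m hm
        rw [hdiv m hm]
        simp
    · rw [Vaughan_dirichlet, Vaughan_restrict _ _ (U * V) X]
      · refine sum_congr rfl fun m hm ↦ ?_
        rw [ha, hb, Vaughan_cUV_eq]
        congr 1
        refine sum_congr rfl fun k hk ↦ ?_
        rw [mem_Icc] at hk
        rw [hZ, ArithmeticFunction.natCoe_apply, ArithmeticFunction.zeta_apply_ne (by omega)]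
        simp
      · intro m hm
        rw [ha, hb, Vaughan_cUV_eq, Vaughan_cUV_zero U V m hm]
        simp
      · intro m hm
        rw [hdiv m hm]
        simp
  · rw [Vaughan_dirichlet, Vaughan_tail Λ V X]
    refine sum_congr rfl fun l _ ↦ ?_
    congr 1
    rw [← Vaughan_inner]
    refine sum_congr rfl fun j _ ↦ ?_
    rw [ha, hZ, Vaughan_bU_eq]

theorem abs_cUV_le (U V m : ℕ) (hm : 1 ≤ m) : |cUV U V m| ≤ Real.log m := by
  rw [cUV]
  have h1 : ∑ d ∈ m.divisors, Λ (m / d) = Real.log m := by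
    rw [Nat.sum_div_divisors m (fun d => Λ d), ArithmeticFunction.vonMangoldt_sum]
  rw [← h1]
  refine le_trans (abs_sum_le_sum_abs _ _) ?_
  refine le_trans (sum_le_sum (fun d _ => ?_)) (sum_le_sum_of_subset_of_nonneg
    (filter_subset _ _) (fun d _ _ => ArithmeticFunction.vonMangoldt_nonneg))
  rw [abs_mul, abs_of_nonneg (ArithmeticFunction.vonMangoldt_nonneg (n := m / d))]
  have h2 : |((μ d : ℤ) : ℝ)| ≤ 1 := by
    have := ArithmeticFunction.abs_moebius_le_one (n := d)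
    exact_mod_cast this
  exact mul_le_of_le_one_left ArithmeticFunction.vonMangoldt_nonneg h2

theorem abs_bU_le (U j : ℕ) : |bU U j| ≤ (j.divisors.card : ℝ) := by
  rw [bU]
  refine le_trans (abs_sum_le_sum_abs _ _) ?_
  refine le_trans (sum_le_sum (g := fun _ => (1 : ℝ)) (fun d _ => ?_)) ?_
  · have := ArithmeticFunction.abs_moebius_le_one (n := d)
    exact_mod_cast this
  · rw [sum_const, nsmul_eq_mul, mul_one]
    exact_mod_cast card_filter_le _ _

theorem Vaughan_harmonic (n : ℕ) : ∑ a ∈ Icc 1 n, (1 : ℝ) / a ≤ 1 + Real.log n := by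
  have h := harmonic_le_one_add_log n
  rw [harmonic_eq_sum_Icc] at h
  push_cast at h
  refine le_trans (le_of_eq ?_) h
  refine sum_congr rfl fun a _ ↦ ?_
  rw [one_div]

theorem Vaughan_card_mul (a b : ℕ) :
    ((a * b).divisors.card : ℝ) ≤ (a.divisors.card : ℝ) * (b.divisors.card : ℝ) := by
  rw [Nat.divisors_mul]
  exact_mod_cast card_mul_le

theorem Vaughan_sum_div (B : ℕ) :
    ∑ b ∈ Icc 1 B, (b.divisors.card : ℝ) ≤ B * (1 + Real.log B) := by
  have h1 : ∑ b ∈ Icc 1 B, (b.divisors.card : ℝ) =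
      ∑ b ∈ Icc 1 B, ∑ p ∈ b.divisorsAntidiagonal, (fun _ _ : ℕ => (1 : ℝ)) p.1 p.2 := by
    refine sum_congr rfl fun b _ ↦ ?_
    rw [Nat.sum_divisorsAntidiagonal (f := fun _ _ : ℕ => (1 : ℝ)), sum_const, nsmul_eq_mul, mul_one]
  rw [h1.trans (Vaughan_swap (fun _ _ : ℕ => (1 : ℝ)) B)]
  have h2 : ∀ m ∈ Icc 1 B, ∑ k ∈ Icc 1 (B / m), (1 : ℝ) ≤ (B : ℝ) * (1 / (m : ℝ)) := by
    intro c hc
    rw [sum_const, nsmul_eq_mul, mul_one, Nat.card_Icc, Nat.add_sub_cancel, mul_one_div]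
    exact Nat.cast_div_le
  refine le_trans (sum_le_sum h2) ?_
  rw [← mul_sum]
  exact mul_le_mul_of_nonneg_left (Vaughan_harmonic B) (Nat.cast_nonneg B)

theorem Vaughan_sum_div_div (J : ℕ) :
    ∑ a ∈ Icc 1 J, (a.divisors.card : ℝ) / a ≤ (1 + Real.log J) ^ 2 := by
  have h1 : ∑ a ∈ Icc 1 J, (a.divisors.card : ℝ) / a =
      ∑ a ∈ Icc 1 J, ∑ p ∈ a.divisorsAntidiagonal,
        (fun u v : ℕ => (1 : ℝ) / u * (1 / v)) p.1 p.2 := by
    refine sum_congr rfl fun a _ ↦ ?_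
    have h2 : ∀ p ∈ a.divisorsAntidiagonal, (fun u v : ℕ => (1 : ℝ) / u * (1 / v)) p.1 p.2 =
        1 / (a : ℝ) := by
      intro p hp
      rw [Nat.mem_divisorsAntidiagonal] at hp
      simp only
      rw [← hp.1]
      push_cast
      rw [one_div_mul_one_div]
    rw [sum_congr rfl h2, sum_const, nsmul_eq_mul]
    have h3 : a.divisorsAntidiagonal.card = a.divisors.card := by
      have := Nat.sum_divisorsAntidiagonal (n := a) (f := fun _ _ : ℕ => (1 : ℕ))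
      simpa using this
    rw [h3, mul_one_div]
  rw [h1.trans (Vaughan_swap (fun u v : ℕ => (1 : ℝ) / u * (1 / v)) J), pow_two,
    sum_congr rfl (fun m _ => (mul_sum _ _ _).symm)]
  have h0 : ∀ n : ℕ, 0 ≤ ∑ a ∈ Icc 1 n, (1 : ℝ) / a := fun n => sum_nonneg (fun _ _ => by positivity)
  calc ∑ m ∈ Icc 1 J, (1 : ℝ) / m * ∑ v ∈ Icc 1 (J / m), (1 : ℝ) / v
      ≤ ∑ m ∈ Icc 1 J, (1 : ℝ) / m * ∑ v ∈ Icc 1 J, (1 : ℝ) / v := by
        apply sum_le_sum
        intro m _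
        apply mul_le_mul_of_nonneg_left _ (by positivity)
        exact sum_le_sum_of_subset_of_nonneg (Icc_subset_Icc_right (Nat.div_le_self J m))
          (fun _ _ _ => by positivity)
    _ = (∑ m ∈ Icc 1 J, (1 : ℝ) / m) * ∑ v ∈ Icc 1 J, (1 : ℝ) / v := by rw [sum_mul]
    _ ≤ (1 + Real.log J) * (1 + Real.log J) :=
        mul_le_mul (Vaughan_harmonic J) (Vaughan_harmonic J) (h0 J)
          (le_trans (h0 J) (Vaughan_harmonic J))

theorem sum_divisors_sq_le (J : ℕ) (hJ : 1 ≤ J) :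
    ∑ j ∈ Icc 1 J, ((j.divisors.card : ℝ)) ^ 2 ≤ J * (1 + Real.log J) ^ 3 := by
  have hlog : 0 ≤ Real.log J := Real.log_nonneg (by exact_mod_cast hJ)
  have h1 : ∑ j ∈ Icc 1 J, ((j.divisors.card : ℝ)) ^ 2 =
      ∑ j ∈ Icc 1 J, ∑ p ∈ j.divisorsAntidiagonal,
        (fun a b : ℕ => ((a * b).divisors.card : ℝ)) p.1 p.2 := by
    refine sum_congr rfl fun j _ ↦ ?_
    have h2 : ∀ p ∈ j.divisorsAntidiagonal, (fun a b : ℕ => ((a * b).divisors.card : ℝ)) p.1 p.2 =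
        (j.divisors.card : ℝ) := by
      intro p hp
      rw [Nat.mem_divisorsAntidiagonal] at hp
      simp only
      rw [hp.1]
    rw [sum_congr rfl h2, sum_const, nsmul_eq_mul]
    have h3 : j.divisorsAntidiagonal.card = j.divisors.card := by
      have := Nat.sum_divisorsAntidiagonal (n := j) (f := fun _ _ : ℕ => (1 : ℕ))
      simpa using this
    rw [h3, pow_two]
  rw [h1.trans (Vaughan_swap (fun a b : ℕ => ((a * b).divisors.card : ℝ)) J)]
  calc ∑ a ∈ Icc 1 J, ∑ b ∈ Icc 1 (J / a), ((a * b).divisors.card : ℝ)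
      ≤ ∑ a ∈ Icc 1 J, ((a.divisors.card : ℝ) / a) * (J * (1 + Real.log J)) := by
        apply sum_le_sum
        intro a ha
        rw [mem_Icc] at ha
        have ha0 : (0 : ℝ) < a := by exact_mod_cast ha.1
        calc ∑ b ∈ Icc 1 (J / a), ((a * b).divisors.card : ℝ)
            ≤ ∑ b ∈ Icc 1 (J / a), (a.divisors.card : ℝ) * (b.divisors.card : ℝ) :=
              sum_le_sum (fun b _ => Vaughan_card_mul a b)
          _ = (a.divisors.card : ℝ) * ∑ b ∈ Icc 1 (J / a), (b.divisors.card : ℝ) := by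
              rw [mul_sum]
          _ ≤ (a.divisors.card : ℝ) * (((J / a : ℕ) : ℝ) * (1 + Real.log ((J / a : ℕ) : ℝ))) :=
              mul_le_mul_of_nonneg_left (Vaughan_sum_div (J / a)) (Nat.cast_nonneg _)
          _ ≤ (a.divisors.card : ℝ) * (((J : ℝ) / a) * (1 + Real.log J)) := by
              apply mul_le_mul_of_nonneg_left _ (Nat.cast_nonneg _)
              have h5 : ((J / a : ℕ) : ℝ) ≤ (J : ℝ) / a := Nat.cast_div_le
              have h6 : 1 ≤ J / a := (Nat.one_le_div_iff ha.1).mpr ha.2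
              have h7 : Real.log ((J / a : ℕ) : ℝ) ≤ Real.log J := by
                apply Real.log_le_log (by exact_mod_cast h6)
                exact_mod_cast Nat.div_le_self J a
              have h8 : 0 ≤ Real.log ((J / a : ℕ) : ℝ) := Real.log_nonneg (by exact_mod_cast h6)
              apply mul_le_mul h5 (by linarith) (by linarith) (by positivity)
          _ = ((a.divisors.card : ℝ) / a) * (J * (1 + Real.log J)) := by
              field_simp
    _ = (∑ a ∈ Icc 1 J, (a.divisors.card : ℝ) / a) * (J * (1 + Real.log J)) := by rw [sum_mul]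
    _ ≤ (1 + Real.log J) ^ 2 * (J * (1 + Real.log J)) :=
        mul_le_mul_of_nonneg_right (Vaughan_sum_div_div J) (by positivity)
    _ = J * (1 + Real.log J) ^ 3 := by ring

theorem sum_vonMangoldt_sq_le :
    ∃ C : ℝ, 0 < C ∧ ∀ X : ℕ, 1 ≤ X → ∑ n ∈ Icc 1 X, (Λ n) ^ 2 ≤ C * X * (1 + Real.log X) := by
  refine ⟨Real.log 4 + 4, ?_, fun X hX => ?_⟩
  · have : 0 < Real.log 4 := Real.log_pos (by norm_num)
    linarith
  · have hlog : 0 ≤ Real.log X := Real.log_nonneg (by exact_mod_cast hX)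
    have hpsi : ∑ n ∈ Icc 1 X, Λ n ≤ (Real.log 4 + 4) * X := by
      have h := Chebyshev.psi_le_const_mul_self (x := (X : ℝ)) (Nat.cast_nonneg X)
      have h2 : Chebyshev.psi (X : ℝ) = ∑ n ∈ Icc 1 X, Λ n := by
        rw [Chebyshev.psi, Nat.floor_natCast, Vaughan_Icc]
      rw [← h2]
      exact h
    have hL4 : 0 < Real.log 4 := Real.log_pos (by norm_num)
    calc ∑ n ∈ Icc 1 X, (Λ n) ^ 2 ≤ ∑ n ∈ Icc 1 X, Real.log X * Λ n := by
          apply sum_le_sum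
          intro n hn
          rw [mem_Icc] at hn
          rw [pow_two]
          apply mul_le_mul_of_nonneg_right _ ArithmeticFunction.vonMangoldt_nonneg
          refine le_trans ArithmeticFunction.vonMangoldt_le_log ?_
          apply Real.log_le_log (by exact_mod_cast hn.1)
          exact_mod_cast hn.2
      _ = Real.log X * ∑ n ∈ Icc 1 X, Λ n := by rw [mul_sum]
      _ ≤ Real.log X * ((Real.log 4 + 4) * X) := mul_le_mul_of_nonneg_left hpsi hlog
      _ ≤ (Real.log 4 + 4) * X * (1 + Real.log X) := by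
          have : (0 : ℝ) ≤ (Real.log 4 + 4) * X := by positivity
          nlinarith

/-- Vaughan's identity for the Moebius function: `μ_{> max}`-type decomposition. For `n > max U V`
(indeed the identity holds for all n with the truncated terms included):
μ = μ_{≤U} + μ_{≤V} - μ_{≤U} * μ_{≤V} * ζ + μ_{>U} * μ_{>V} * ζ. -/
theorem vaughan_mu (U V X : ℕ) (f : ℕ → ℂ) :
    ∑ n ∈ Icc 1 X, ((μ n : ℝ) : ℂ) * f n =
      ∑ n ∈ Icc 1 (min U X), ((μ n : ℝ) : ℂ) * f n + ∑ n ∈ Icc 1 (min V X), ((μ n : ℝ) : ℂ) * f n -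
      ∑ m ∈ Icc 1 (U * V),
        ((∑ d ∈ m.divisors.filter (fun d => d ≤ U ∧ m / d ≤ V), (μ d : ℝ) * (μ (m / d) : ℝ) : ℝ) : ℂ) *
          ∑ k ∈ Icc 1 (X / m), f (m * k) +
      ∑ l ∈ Ioc V X, ((μ l : ℝ) : ℂ) * ∑ j ∈ Ioc U (X / l), (bU U j : ℂ) * f (l * j) := by
  set Z : ArithmeticFunction ℝ :=
    ((ArithmeticFunction.zeta : ArithmeticFunction ℕ) : ArithmeticFunction ℝ) with hZ
  set a := Vaughan_tr Vaughan_mu U with ha
  set b := Vaughan_tr Vaughan_mu V with hb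
  have hz : Vaughan_mu * Z = 1 := Vaughan_mu_zeta
  have hid : Vaughan_mu = a + b - (a * b) * Z +
      (Vaughan_mu - b) * ((Vaughan_mu - a) * Z) := by
    linear_combination (a + b - Vaughan_mu) * hz
  have hdiv : ∀ m, X < m → X / m = 0 := fun m hm => Nat.div_eq_of_lt hm
  have h1 : ∀ n, ((μ n : ℝ) : ℂ) * f n =
      ((a n : ℝ) : ℂ) * f n + ((b n : ℝ) : ℂ) * f n - ((((a * b) * Z) n : ℝ) : ℂ) * f n +
        ((((Vaughan_mu - b) * ((Vaughan_mu - a) * Z)) n : ℝ) : ℂ) * f n := by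
    intro n
    have h : Vaughan_mu n = (a + b - (a * b) * Z +
      (Vaughan_mu - b) * ((Vaughan_mu - a) * Z)) n := congrArg (fun F : ArithmeticFunction ℝ => F n) hid
    rw [← Vaughan_mu_apply, h, ArithmeticFunction.add_apply, Vaughan_sub_apply,
      ArithmeticFunction.add_apply]
    push_cast
    ring
  have htr : ∀ W : ℕ, ∑ n ∈ Icc 1 X, ((Vaughan_tr Vaughan_mu W n : ℝ) : ℂ) * f n =
      ∑ n ∈ Icc 1 (min W X), ((μ n : ℝ) : ℂ) * f n := by
    intro W
    symm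
    have h2 : ∑ n ∈ Icc 1 (min W X), ((μ n : ℝ) : ℂ) * f n =
        ∑ n ∈ Icc 1 (min W X), ((Vaughan_tr Vaughan_mu W n : ℝ) : ℂ) * f n := by
      refine sum_congr rfl fun n hn ↦ ?_
      rw [mem_Icc] at hn
      rw [Vaughan_tr_apply, if_pos (by omega), Vaughan_mu_apply]
    rw [h2]
    apply sum_subset
    · exact Icc_subset_Icc_right (min_le_right _ _)
    · intro n hn hn'
      rw [mem_Icc] at hn hn'
      rw [Vaughan_tr_apply, if_neg (by omega)]
      simp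
  rw [sum_congr rfl (fun n _ => h1 n), sum_add_distrib, sum_sub_distrib, sum_add_distrib]
  congr 1
  · congr 1
    · rw [htr U, htr V]
    · rw [Vaughan_dirichlet, Vaughan_restrict _ _ (U * V) X]
      · refine sum_congr rfl fun m hm ↦ ?_
        rw [ha, hb, Vaughan_conv]
        have e1 : ∑ d ∈ m.divisors.filter (fun d => d ≤ U ∧ m / d ≤ V),
            Vaughan_mu d * Vaughan_mu (m / d) =
            ∑ d ∈ m.divisors.filter (fun d => d ≤ U ∧ m / d ≤ V), (μ d : ℝ) * (μ (m / d) : ℝ) := by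
          refine sum_congr rfl fun d _ ↦ ?_
          rw [Vaughan_mu_apply, Vaughan_mu_apply]
        have e2 : ∑ k ∈ Icc 1 (X / m), ((Z k : ℝ) : ℂ) * f (m * k) =
            ∑ k ∈ Icc 1 (X / m), f (m * k) := by
          refine sum_congr rfl fun k hk ↦ ?_
          rw [mem_Icc] at hk
          rw [hZ, ArithmeticFunction.natCoe_apply, ArithmeticFunction.zeta_apply_ne (by omega)]
          simp
        rw [e1, e2]
      · intro m hm
        rw [ha, hb, Vaughan_conv, Vaughan_filter_empty U V m hm, sum_empty]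
        simp
      · intro m hm
        rw [hdiv m hm]
        simp
  · rw [Vaughan_dirichlet, Vaughan_tail Vaughan_mu V X]
    refine sum_congr rfl fun l _ ↦ ?_
    rw [Vaughan_mu_apply]
    congr 1
    rw [← Vaughan_inner]
    refine sum_congr rfl fun j _ ↦ ?_
    rw [ha, hZ, Vaughan_bU_eq]

end Pool.Agent.Lib.SW
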