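import Pool.Agent.Lib.SW.MinorQ
import Pool.Agent.Lib.SW.SWFinal
import Pool.Agent.Lib.SW.TrivChar

/-!
# SW-Y: Davenport's theorem for the Moebius function (module Y)

PROOFS. `mu_triv`: for n coprime to q, μ(n) 1_{(n,q)=1} = ∑_{d e = n, d | q^∞} μ(e) (Dirichlet series
1/(ζ ∏_{p|q}(1-p^(-s))); elementary: the function 1_{d | q^∞} * μ is multiplicative and equals μ(p^k) at p ∤ q,
at p | q it is 1 + ... : ∑_{i ≤ k} μ(p^(k-i)) = 0 for k ≥ 1). So the sum is ∑_{d ≤ x, d | q^∞} M(x/d), M(y) = ∑_{n≤y} μ(n),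
|M(y)| ≤ C y (1+log y)^(-k) for y ≥ 1 (`mu_sum`). d ≤ √x: ≤ C x (log x)^(-k) ∑_{d | q^∞} 1/d =
C x (log x)^(-k) ∏_{p|q}(1-1/p)^(-1) ≤ C x (log x)^(-k) 2^ω(q). d > √x: ≤ x ∑ d^(-1) ≤ x^(3/4) ∑_{d | q^∞} d^(-1/2) ≤ x^(3/4) 4^ω(q).
Use `pow_omega_le`. (`Nat.factoredNumbers`, `EulerProduct.summable_and_hasSum_factoredNumbers_prod_...`.)
`mu_ap_exp`: a integer, group n by g = gcd(n,q), n = g m, q' = q/g: μ(g m) = μ(g) μ(m) if (m,g) = 1 and 0 otherwise, so
(m,q) = 1; e(a n/q) = e(a m/q'). ∑_{m ≤ Y/g, (m,q)=1} μ(m) e(am/q') = ∑_{b mod q, (b,q)=1} e(ab/q')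
(1/φ(q)) ∑_χ conj χ(b) ∑_{m≤Y/g} χ(m) μ(m), |..| ≤ q C q^ε X/(log X)^k (`mu_char`, `mu_triv`, y/(log y)^k ≤ C X/(log X)^k
for 2 ≤ y ≤ X); at most q values of g.
`davenport`: Dirichlet with R = X/(log X)^B: coprime a, q ≤ R, |α - a/q| ≤ 1/(qR). If q > (log X)^(2A+12): `minor_Q_mu` (B = 2A+12 too).
If q ≤ (log X)^(2A+12): Abel summation, factor (1 + 2π X/(qR)) ≤ C (log X)^B, `mu_ap_exp` with k = 2B + ... + A.
-/

open Finset Pool.Agent.Lib.GT
open scoped ArithmeticFunction.Moebius ArithmeticFunction.vonMangoldt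

namespace Pool.Agent.Lib.SW

noncomputable def davF (k : ℕ) (y : ℝ) : ℝ := y / ((2 * k + 1 : ℝ) + Real.log y) ^ k

theorem davF_den {k : ℕ} {y : ℝ} (hy : 1 ≤ y) : 1 ≤ (2 * k + 1 : ℝ) + Real.log y := by
  have h1 : 0 ≤ Real.log y := Real.log_nonneg hy
  have h2 : (0 : ℝ) ≤ k := Nat.cast_nonneg k
  linarith

theorem davF_nonneg {k : ℕ} {y : ℝ} (hy : 1 ≤ y) : 0 ≤ davF k y := by
  have h1 := davF_den (k := k) hy
  unfold davF
  positivity

/-- the key comparison -/
theorem davF_mul {k : ℕ} {y t : ℝ} (hy : 1 ≤ y) (ht : 1 ≤ t) :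
    davF k y ≤ (Real.sqrt t)⁻¹ * davF k (t * y) := by
  have hk : (0 : ℝ) ≤ k := Nat.cast_nonneg k
  have hD := davF_den (k := k) hy
  have hlt : 0 ≤ Real.log t := Real.log_nonneg ht
  have hly : 0 ≤ Real.log y := Real.log_nonneg hy
  have hty : 1 ≤ t * y := one_le_mul_of_one_le_of_one_le ht hy
  have hD2 := davF_den (k := k) hty
  have hlog : Real.log (t * y) = Real.log t + Real.log y := Real.log_mul (by positivity) (by positivity)
  have hst : 0 < Real.sqrt t := Real.sqrt_pos.2 (by positivity)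
  -- the power inequality
  have key : ((2 * k + 1 : ℝ) + Real.log (t * y)) ^ k ≤
      Real.sqrt t * ((2 * k + 1 : ℝ) + Real.log y) ^ k := by
    have h1 : (2 * k + 1 : ℝ) + Real.log (t * y) ≤
        ((2 * k + 1 : ℝ) + Real.log y) * Real.exp (Real.log t / (2 * k + 1)) := by
      have h2 : Real.log t / (2 * k + 1) + 1 ≤ Real.exp (Real.log t / (2 * k + 1)) :=
        Real.add_one_le_exp _
      have h3 : 0 < (2 * k + 1 : ℝ) := by positivity
      have h4 : (2 * k + 1 : ℝ) + Real.log (t * y) ≤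
          ((2 * k + 1 : ℝ) + Real.log y) * (Real.log t / (2 * k + 1) + 1) := by
        rw [hlog]
        have h5 : (2 * k + 1 : ℝ) * (Real.log t / (2 * k + 1)) = Real.log t := by
          field_simp
        have h6 : 0 ≤ Real.log y * (Real.log t / (2 * k + 1)) := by positivity
        nlinarith
      exact h4.trans (mul_le_mul_of_nonneg_left h2 (by linarith))
    have h7 : (Real.exp (Real.log t / (2 * k + 1))) ^ k ≤ Real.sqrt t := by
      rw [← Real.exp_nat_mul, Real.sqrt_eq_rpow, Real.rpow_def_of_pos (by positivity)]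
      apply Real.exp_le_exp.2
      have h3 : 0 < (2 * k + 1 : ℝ) := by positivity
      rw [mul_div_assoc', div_le_iff₀ h3]
      nlinarith
    calc ((2 * k + 1 : ℝ) + Real.log (t * y)) ^ k
        ≤ (((2 * k + 1 : ℝ) + Real.log y) * Real.exp (Real.log t / (2 * k + 1))) ^ k :=
          pow_le_pow_left₀ (by linarith) h1 k
      _ = ((2 * k + 1 : ℝ) + Real.log y) ^ k * (Real.exp (Real.log t / (2 * k + 1))) ^ k := mul_pow _ _ _
      _ ≤ ((2 * k + 1 : ℝ) + Real.log y) ^ k * Real.sqrt t :=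
          mul_le_mul_of_nonneg_left h7 (by positivity)
      _ = _ := mul_comm _ _
  unfold davF
  have hp1 : 0 < ((2 * k + 1 : ℝ) + Real.log y) ^ k := by positivity
  have hp2 : 0 < ((2 * k + 1 : ℝ) + Real.log (t * y)) ^ k := by positivity
  rw [← mul_div_assoc, div_le_div_iff₀ hp1 hp2]
  have h8 : (Real.sqrt t)⁻¹ * (t * y) = Real.sqrt t * y := by
    have : t = Real.sqrt t * Real.sqrt t := (Real.mul_self_sqrt (by positivity)).symm
    field_simp
    rw [Real.sq_sqrt (by positivity)]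
  rw [h8]
  calc y * ((2 * k + 1 : ℝ) + Real.log (t * y)) ^ k
      ≤ y * (Real.sqrt t * ((2 * k + 1 : ℝ) + Real.log y) ^ k) :=
        mul_le_mul_of_nonneg_left key (by positivity)
    _ = _ := by ring

theorem davF_mono {k : ℕ} {y z : ℝ} (hy : 1 ≤ y) (hz : y ≤ z) : davF k y ≤ davF k z := by
  have h0 : 0 < y := by linarith
  have ht : 1 ≤ z / y := by rwa [le_div_iff₀ h0, one_mul]
  have h := davF_mul (k := k) hy ht
  have e1 : z / y * y = z := by field_simp
  rw [e1] at h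
  refine h.trans ?_
  have h1 : 1 ≤ Real.sqrt (z / y) := by
    rw [Real.one_le_sqrt]
    exact ht
  have h2 : (Real.sqrt (z / y))⁻¹ ≤ 1 := inv_le_one_of_one_le₀ h1
  calc (Real.sqrt (z / y))⁻¹ * davF k z ≤ 1 * davF k z :=
        mul_le_mul_of_nonneg_right h2 (davF_nonneg (hy.trans hz))
    _ = _ := one_mul _

theorem davF_le {k : ℕ} {y : ℝ} (hy : 2 ≤ y) : davF k y ≤ y / (Real.log y) ^ k := by
  have h1 : 0 < Real.log y := Real.log_pos (by linarith)
  have hk : (0 : ℝ) ≤ k := Nat.cast_nonneg k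
  unfold davF
  apply div_le_div_of_nonneg_left (by linarith) (by positivity)
  exact pow_le_pow_left₀ h1.le (by linarith) k

theorem le_davF (k : ℕ) : ∃ C : ℝ, 1 ≤ C ∧ ∀ y : ℝ, 2 ≤ y → y / (Real.log y) ^ k ≤ C * davF k y := by
  have hl2 : 0 < Real.log 2 := Real.log_pos (by norm_num)
  have hk : (0 : ℝ) ≤ k := Nat.cast_nonneg k
  have h3 : (1 : ℝ) ≤ 1 + (2 * k + 1) / Real.log 2 := by
    have : 0 ≤ (2 * k + 1 : ℝ) / Real.log 2 := by positivity
    linarith
  refine ⟨(1 + (2 * k + 1) / Real.log 2) ^ k, one_le_pow₀ h3, fun y hy => ?_⟩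
  have h1 : Real.log 2 ≤ Real.log y := Real.log_le_log (by norm_num) hy
  have h1' : 0 < Real.log y := by linarith
  have hD := davF_den (k := k) (y := y) (by linarith)
  unfold davF
  have h2 : (2 * k + 1 : ℝ) + Real.log y ≤ (1 + (2 * k + 1) / Real.log 2) * Real.log y := by
    have h4 : (2 * k + 1 : ℝ) ≤ (2 * k + 1) / Real.log 2 * Real.log y := by
      rw [div_mul_eq_mul_div, le_div_iff₀ hl2]
      exact mul_le_mul_of_nonneg_left h1 (by positivity)
    linarith
  have h5 := pow_le_pow_left₀ (by linarith) h2 k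
  rw [mul_pow] at h5
  rw [← mul_div_assoc, div_le_div_iff₀ (by positivity) (by positivity)]
  have hy0 : 0 ≤ y := by linarith
  calc y * ((2 * k + 1 : ℝ) + Real.log y) ^ k
      ≤ y * ((1 + (2 * k + 1) / Real.log 2) ^ k * Real.log y ^ k) :=
        mul_le_mul_of_nonneg_left h5 hy0
    _ = _ := by ring

/-- floor of a quotient -/
theorem davF_floor {k N p : ℕ} (hp : 2 ≤ p) (h : 1 ≤ N / p) :
    davF k ((N / p : ℕ) : ℝ) ≤ 3 / 4 * davF k N := by
  have hy : (1 : ℝ) ≤ ((N / p : ℕ) : ℝ) := by exact_mod_cast h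
  have h0 : (0 : ℝ) < ((N / p : ℕ) : ℝ) := by linarith
  have hmul : (p : ℝ) * ((N / p : ℕ) : ℝ) ≤ N := by
    exact_mod_cast Nat.mul_div_le N p
  have hp2 : (2 : ℝ) ≤ p := by exact_mod_cast hp
  set t : ℝ := N / ((N / p : ℕ) : ℝ) with ht
  have ht2 : 2 ≤ t := by
    rw [ht, le_div_iff₀ h0]
    nlinarith
  have e1 : t * ((N / p : ℕ) : ℝ) = N := by
    rw [ht]
    field_simp
  have h1 := davF_mul (k := k) hy (show (1 : ℝ) ≤ t by linarith)
  rw [e1] at h1
  refine h1.trans ?_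
  have hN : (1 : ℝ) ≤ N := by nlinarith
  apply mul_le_mul_of_nonneg_right _ (davF_nonneg hN)
  have h2 : (4 / 3 : ℝ) ≤ Real.sqrt t := by
    apply Real.le_sqrt_of_sq_le
    nlinarith
  calc (Real.sqrt t)⁻¹ ≤ (4 / 3 : ℝ)⁻¹ := inv_anti₀ (by norm_num) h2
    _ = 3 / 4 := by norm_num

/-- the Moebius sum over integers free of the primes of `P` -/
noncomputable def davT (P : Finset ℕ) (N : ℕ) : ℝ :=
  ∑ n ∈ (Icc 1 N).filter (fun n => ∀ p ∈ P, ¬ p ∣ n), (μ n : ℝ)

theorem davT_insert {P : Finset ℕ} (hP : ∀ r ∈ P, r.Prime) {p : ℕ} (hp : p.Prime) (hpP : p ∉ P)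
    (N : ℕ) : davT (insert p P) N = davT P N + davT (insert p P) (N / p) := by
  have hp0 : 0 < p := hp.pos
  -- the multiples of `p`
  have h1 : davT P N = davT (insert p P) N +
      ∑ n ∈ (Icc 1 N).filter (fun n => p ∣ n ∧ ∀ r ∈ P, ¬ r ∣ n), (μ n : ℝ) := by
    unfold davT
    rw [← sum_filter_add_sum_filter_not ((Icc 1 N).filter (fun n => ∀ r ∈ P, ¬ r ∣ n))
      (fun n => ¬ p ∣ n), filter_filter, filter_filter]
    congr 1
    · apply sum_congr _ fun _ _ => rfl
      ext n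
      simp only [mem_filter, mem_insert, forall_eq_or_imp]
      tauto
    · apply sum_congr _ fun _ _ => rfl
      ext n
      simp only [mem_filter, not_not]
      tauto
  have h2 : ∑ n ∈ (Icc 1 N).filter (fun n => p ∣ n ∧ ∀ r ∈ P, ¬ r ∣ n), (μ n : ℝ) =
      ∑ m ∈ (Icc 1 (N / p)).filter (fun m => ∀ r ∈ P, ¬ r ∣ m), (μ (p * m) : ℝ) := by
    symm
    apply sum_nbij (fun m => p * m)
    · intro m hm
      simp only [mem_filter, mem_Icc] at hm ⊢
      refine ⟨⟨Nat.mul_pos hp0 hm.1.1, ?_⟩, dvd_mul_right _ _, fun r hr hd => ?_⟩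
      · calc p * m ≤ p * (N / p) := Nat.mul_le_mul_left _ hm.1.2
          _ ≤ N := Nat.mul_div_le _ _
      · rcases (hP r hr).dvd_mul.1 hd with h | h
        · have := (Nat.prime_dvd_prime_iff_eq (hP r hr) hp).1 h
          exact hpP (this ▸ hr)
        · exact hm.2 r hr h
    · intro a _ b _ hab
      exact Nat.eq_of_mul_eq_mul_left hp0 hab
    · intro n hn
      simp only [coe_filter, mem_Icc, Set.mem_ofPred_eq, Set.mem_image] at hn ⊢
      obtain ⟨⟨h1, h2⟩, ⟨m, rfl⟩, h3⟩ := hn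
      refine ⟨m, ⟨⟨Nat.pos_of_mul_pos_left h1, ?_⟩, fun r hr hd => h3 r hr (hd.mul_left p)⟩, rfl⟩
      rw [Nat.le_div_iff_mul_le hp0, mul_comm]
      exact h2
    · intro m _
      rfl
  have h3 : ∑ m ∈ (Icc 1 (N / p)).filter (fun m => ∀ r ∈ P, ¬ r ∣ m), (μ (p * m) : ℝ) =
      - davT (insert p P) (N / p) := by
    unfold davT
    rw [← sum_filter_add_sum_filter_not ((Icc 1 (N / p)).filter (fun n => ∀ r ∈ P, ¬ r ∣ n))
      (fun n => p ∣ n), filter_filter, filter_filter]
    have h4 : ∑ m ∈ (Icc 1 (N / p)).filter (fun m => (∀ r ∈ P, ¬ r ∣ m) ∧ p ∣ m),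
        (μ (p * m) : ℝ) = 0 := by
      apply sum_eq_zero
      intro m hm
      rw [mem_filter] at hm
      have : μ (p * m) = 0 := by
        apply ArithmeticFunction.moebius_eq_zero_of_not_squarefree
        intro hs
        obtain ⟨c, hc⟩ := hm.2.2
        have := hs p ⟨c, by rw [hc]; ring⟩
        exact hp.one_lt.ne' (Nat.isUnit_iff.1 this)
      rw [this]
      simp
    rw [h4, zero_add, ← sum_neg_distrib]
    apply sum_congr
    · ext n
      simp only [mem_filter, mem_insert, forall_eq_or_imp]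
      tauto
    · intro m hm
      rw [mem_filter, mem_Icc] at hm
      have hc : Nat.Coprime p m := (hp.coprime_iff_not_dvd).2 (hm.2 p (mem_insert_self _ _))
      rw [ArithmeticFunction.isMultiplicative_moebius.map_mul_of_coprime hc,
        ArithmeticFunction.moebius_apply_prime hp]
      simp
  rw [h1, h2, h3]
  ring

theorem davT_bound (k : ℕ) {B : ℝ} (hB : 0 ≤ B)
    (h0 : ∀ N : ℕ, 1 ≤ N → |davT ∅ N| ≤ B * davF k N) (P : Finset ℕ) :
    (∀ r ∈ P, r.Prime) → ∀ N : ℕ, 1 ≤ N → |davT P N| ≤ 4 ^ P.card * (B * davF k N) := by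
  induction P using Finset.induction_on with
  | empty => intro _ N hN; simpa using h0 N hN
  | insert p P hpP ih =>
    intro hP N
    have hp : p.Prime := hP p (mem_insert_self _ _)
    have hP' : ∀ r ∈ P, r.Prime := fun r hr => hP r (mem_insert_of_mem hr)
    have ih' := ih hP'
    rw [card_insert_of_notMem hpP]
    induction N using Nat.strong_induction_on with
    | _ N ihN =>
      intro hN
      have hN' : (1 : ℝ) ≤ N := by exact_mod_cast hN
      have hF := davF_nonneg (k := k) hN'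
      rw [davT_insert hP' hp hpP]
      have h1 := ih' N hN
      have h2 : |davT (insert p P) (N / p)| ≤ 3 * (4 ^ P.card * (B * davF k N)) := by
        rcases Nat.eq_zero_or_pos (N / p) with hz | hz
        · rw [hz]
          have : davT (insert p P) 0 = 0 := by simp [davT]
          rw [this, abs_zero]
          positivity
        · have h3 := ihN (N / p) (Nat.div_lt_self hN hp.one_lt) hz
          have h4 := davF_floor (k := k) hp.two_le hz
          calc _ ≤ 4 ^ (P.card + 1) * (B * davF k ((N / p : ℕ) : ℝ)) := h3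
            _ ≤ 4 ^ (P.card + 1) * (B * (3 / 4 * davF k N)) := by gcongr
            _ = _ := by ring
      calc |davT P N + davT (insert p P) (N / p)| ≤ |davT P N| + |davT (insert p P) (N / p)| :=
            abs_add_le _ _
        _ ≤ 4 ^ P.card * (B * davF k N) + 3 * (4 ^ P.card * (B * davF k N)) := add_le_add h1 h2
        _ = _ := by ring

theorem dav_filter (q N : ℕ) (hq : 1 ≤ q) :
    ∑ n ∈ (Icc 1 N).filter (fun n => Nat.Coprime n q), (μ n : ℝ) = davT q.primeFactors N := by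
  unfold davT
  apply sum_congr _ fun _ _ => rfl
  ext n
  simp only [mem_filter, and_congr_right_iff]
  intro _
  constructor
  · intro h p hp hd
    have hp' := Nat.prime_of_mem_primeFactors hp
    have := Nat.dvd_gcd hd (Nat.dvd_of_mem_primeFactors hp)
    rw [h] at this
    exact hp'.one_lt.ne' (Nat.dvd_one.1 this)
  · intro h
    by_contra hc
    obtain ⟨p, hp, h1, h2⟩ := Nat.Prime.not_coprime_iff_dvd.1 hc
    exact h p (Nat.mem_primeFactors.2 ⟨hp, h2, by omega⟩) h1

theorem dav_base (k : ℕ) : ∃ B : ℝ, 0 < B ∧ ∀ N : ℕ, 1 ≤ N → |davT ∅ N| ≤ B * davF k N := by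
  obtain ⟨C, hC, h⟩ := mu_sum k
  obtain ⟨C', hC', h'⟩ := le_davF k
  refine ⟨C * C' + (2 * k + 1 : ℝ) ^ k, by positivity, fun N hN => ?_⟩
  have hN' : (1 : ℝ) ≤ N := by exact_mod_cast hN
  have hF := davF_nonneg (k := k) hN'
  have e0 : davT ∅ N = ∑ n ∈ Icc 1 N, (μ n : ℝ) := by simp [davT]
  rcases Nat.lt_or_ge N 2 with h2 | h2
  · have : N = 1 := by omega
    subst this
    rw [e0]
    have e1 : davF k ((1 : ℕ) : ℝ) = 1 / (2 * k + 1 : ℝ) ^ k := by simp [davF]
    rw [e1]
    simp only [Icc_self, sum_singleton, ArithmeticFunction.moebius_apply_one, Int.cast_one,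
      abs_one]
    have : (2 * k + 1 : ℝ) ^ k * (1 / (2 * k + 1 : ℝ) ^ k) = 1 := by field_simp
    rw [add_mul, this]
    have : 0 ≤ C * C' * (1 / (2 * k + 1 : ℝ) ^ k) := by positivity
    linarith
  · have h3 := h N (by exact_mod_cast h2)
    rw [Nat.floor_natCast] at h3
    have h4 := h' N (by exact_mod_cast h2)
    rw [e0]
    calc _ ≤ C * N / (Real.log N) ^ k := h3
      _ = C * (N / (Real.log N) ^ k) := by ring
      _ ≤ C * (C' * davF k N) := by gcongr
      _ ≤ _ := by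
        have : 0 ≤ (2 * k + 1 : ℝ) ^ k * davF k N := by positivity
        linarith

theorem mu_triv (k : ℕ) (ε : ℝ) (hε : 0 < ε) :
    ∃ C : ℝ, 0 < C ∧ ∀ q : ℕ, 1 ≤ q → ∀ x : ℝ, 2 ≤ x →
      |∑ n ∈ (Icc 1 ⌊x⌋₊).filter (fun n => Nat.Coprime n q), (μ n : ℝ)| ≤
        C * (q : ℝ) ^ ε * x / (Real.log x) ^ k := by
  obtain ⟨B, hB, h⟩ := dav_base k
  obtain ⟨C, hC, h2⟩ := pow_omega_le 4 ε (by norm_num) hε
  refine ⟨C * B, by positivity, fun q hq x hx => ?_⟩
  have hfl : 1 ≤ ⌊x⌋₊ := by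
    rw [Nat.one_le_floor_iff]
    linarith
  have hfl2 : ((⌊x⌋₊ : ℕ) : ℝ) ≤ x := Nat.floor_le (by linarith)
  have hfl1 : (1 : ℝ) ≤ ((⌊x⌋₊ : ℕ) : ℝ) := by exact_mod_cast hfl
  rw [dav_filter q _ hq]
  have h3 := davT_bound k hB.le h q.primeFactors (fun r hr => Nat.prime_of_mem_primeFactors hr)
    ⌊x⌋₊ hfl
  have h4 : davF k ((⌊x⌋₊ : ℕ) : ℝ) ≤ x / (Real.log x) ^ k :=
    (davF_mono hfl1 hfl2).trans (davF_le hx)
  have h5 := h2 q hq
  have hF := davF_nonneg (k := k) hfl1
  calc _ ≤ _ := h3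
    _ ≤ (C * (q : ℝ) ^ ε) * (B * (x / (Real.log x) ^ k)) := by gcongr
    _ = _ := by ring

/-- all character sums at once -/
theorem dav_char (k : ℕ) :
    ∃ C : ℝ, 0 < C ∧ ∀ (q : ℕ) [NeZero q] (χ : DirichletCharacter ℂ q) (X Z : ℕ), 2 ≤ X → Z ≤ X →
      ‖∑ n ∈ Icc 1 Z, chM χ n‖ ≤ C * q * (X / (Real.log X) ^ k) := by
  obtain ⟨C1, hC1, h1⟩ := mu_triv k 1 one_pos
  obtain ⟨C2, hC2, h2⟩ := mu_char k 1 one_pos
  obtain ⟨C3, hC3, h3⟩ := le_davF k
  obtain ⟨C4, hC4, h4⟩ : ∃ C4 : ℝ, 0 < C4 ∧ ∀ X : ℕ, 2 ≤ X → 1 ≤ C4 * (X / (Real.log X) ^ k) := by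
    refine ⟨(2 * k + 1) ^ k, by positivity, fun X hX => ?_⟩
    have hX' : (2 : ℝ) ≤ X := by exact_mod_cast hX
    have e1 : davF k 1 = 1 / (2 * k + 1 : ℝ) ^ k := by simp [davF]
    have e2 := (davF_mono (k := k) le_rfl (show (1 : ℝ) ≤ X by linarith)).trans (davF_le hX')
    rw [e1] at e2
    have e3 : (2 * k + 1 : ℝ) ^ k * (1 / (2 * k + 1 : ℝ) ^ k) = 1 := by field_simp
    calc (1 : ℝ) = (2 * k + 1 : ℝ) ^ k * (1 / (2 * k + 1 : ℝ) ^ k) := e3.symm
      _ ≤ _ := mul_le_mul_of_nonneg_left e2 (by positivity)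
  refine ⟨(C1 + C2) * C3 + C4, by positivity, fun q _ χ X Z hX hZ => ?_⟩
  have hX' : (2 : ℝ) ≤ X := by exact_mod_cast hX
  have hq : (1 : ℝ) ≤ q := by exact_mod_cast Nat.one_le_iff_ne_zero.2 (NeZero.ne q)
  have hlog : 0 < Real.log X := Real.log_pos (by linarith)
  have hXk : 0 < (X : ℝ) / (Real.log X) ^ k := by positivity
  rcases Nat.lt_or_ge Z 2 with hz | hz
  · -- trivial
    have e1 : ‖∑ n ∈ Icc 1 Z, chM χ n‖ ≤ 1 := by
      have : Z = 0 ∨ Z = 1 := by omega
      rcases this with rfl | rfl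
      · simp
      · simp only [Icc_self, sum_singleton, chM]
        simp
    have e2 := h4 X hX
    calc _ ≤ 1 := e1
      _ ≤ C4 * (X / (Real.log X) ^ k) := e2
      _ ≤ C4 * q * (X / (Real.log X) ^ k) := by
        apply mul_le_mul_of_nonneg_right _ hXk.le
        nlinarith
      _ ≤ _ := by
        apply mul_le_mul_of_nonneg_right _ hXk.le
        apply mul_le_mul_of_nonneg_right _ (by positivity)
        have : 0 ≤ (C1 + C2) * C3 := by positivity
        linarith
  · have hz' : (2 : ℝ) ≤ Z := by exact_mod_cast hz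
    have hZX : (Z : ℝ) ≤ X := by exact_mod_cast hZ
    have e0 : (Z : ℝ) / (Real.log Z) ^ k ≤ C3 * (X / (Real.log X) ^ k) := by
      calc _ ≤ C3 * davF k Z := h3 Z hz'
        _ ≤ C3 * davF k X := by
          apply mul_le_mul_of_nonneg_left _ (by positivity)
          exact davF_mono (by linarith) hZX
        _ ≤ _ := by
          apply mul_le_mul_of_nonneg_left _ (by positivity)
          exact davF_le hX'
    have e1 : ‖∑ n ∈ Icc 1 Z, chM χ n‖ ≤ (C1 + C2) * q * (Z / (Real.log Z) ^ k) := by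
      have hlz : 0 < Real.log Z := Real.log_pos (by linarith)
      by_cases hχ : χ = 1
      · subst hχ
        have e2 := h1 q (Nat.one_le_iff_ne_zero.2 (NeZero.ne q)) Z hz'
        rw [Nat.floor_natCast, Real.rpow_one] at e2
        have e3 : ∑ n ∈ Icc 1 Z, chM (1 : DirichletCharacter ℂ q) n =
            ((∑ n ∈ (Icc 1 Z).filter (fun n => Nat.Coprime n q), (μ n : ℝ) : ℝ) : ℂ) := by
          rw [sum_filter]
          push_cast
          apply sum_congr rfl
          intro n _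
          unfold chM
          by_cases hc : Nat.Coprime n q
          · rw [if_pos hc, MulChar.one_apply ((ZMod.isUnit_iff_coprime n q).2 hc)]
            simp
          · rw [if_neg hc, MulChar.map_nonunit _ (fun h => hc ((ZMod.isUnit_iff_coprime n q).1 h))]
            simp
        rw [e3, Complex.norm_real, Real.norm_eq_abs]
        calc _ ≤ C1 * q * Z / (Real.log Z) ^ k := e2
          _ = C1 * q * (Z / (Real.log Z) ^ k) := by ring
          _ ≤ _ := by
            apply mul_le_mul_of_nonneg_right _ (by positivity)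
            apply mul_le_mul_of_nonneg_right _ (by positivity)
            linarith
      · have e2 := h2 q χ hχ Z hz'
        rw [Nat.floor_natCast, Real.rpow_one] at e2
        calc _ ≤ C2 * q * Z / (Real.log Z) ^ k := e2
          _ = C2 * q * (Z / (Real.log Z) ^ k) := by ring
          _ ≤ _ := by
            apply mul_le_mul_of_nonneg_right _ (by positivity)
            apply mul_le_mul_of_nonneg_right _ (by positivity)
            linarith
    calc _ ≤ (C1 + C2) * q * (Z / (Real.log Z) ^ k) := e1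
      _ ≤ (C1 + C2) * q * (C3 * (X / (Real.log X) ^ k)) := by gcongr
      _ ≤ _ := by
        have : 0 ≤ C4 * q * (X / (Real.log X) ^ k) := by positivity
        nlinarith

theorem dav_class (k : ℕ) :
    ∃ C : ℝ, 0 < C ∧ ∀ (q : ℕ) [NeZero q] (c X Z : ℕ), Nat.Coprime c q → 2 ≤ X → Z ≤ X →
      ‖∑ n ∈ (Icc 1 Z).filter (fun n => n ≡ c [MOD q]), ((μ n : ℝ) : ℂ)‖ ≤
        C * q * (X / (Real.log X) ^ k) := by
  obtain ⟨C, hC, h⟩ := dav_char k
  refine ⟨C, hC, fun q _ c X Z hc hX hZ => ?_⟩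
  have hcu : IsUnit (c : ZMod q) := (ZMod.isUnit_iff_coprime c q).2 hc
  have htp : 0 < q.totient := Nat.totient_pos.2 (Nat.pos_of_ne_zero (NeZero.ne q))
  have e1 : (q.totient : ℂ) * ∑ n ∈ (Icc 1 Z).filter (fun n => n ≡ c [MOD q]), ((μ n : ℝ) : ℂ) =
      ∑ χ : DirichletCharacter ℂ q, χ (c : ZMod q)⁻¹ * ∑ n ∈ Icc 1 Z, chM χ n := by
    simp_rw [mul_sum]
    rw [sum_comm, sum_filter]
    apply sum_congr rfl
    intro n _
    have e2 := DirichletCharacter.sum_char_inv_mul_char_eq ℂ hcu (n : ZMod q)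
    have e3 : ∑ χ : DirichletCharacter ℂ q, χ (c : ZMod q)⁻¹ * chM χ n =
        (∑ χ : DirichletCharacter ℂ q, χ (c : ZMod q)⁻¹ * χ (n : ZMod q)) * ((μ n : ℤ) : ℂ) := by
      rw [sum_mul]
      apply sum_congr rfl
      intro χ _
      unfold chM
      ring
    rw [e3, e2]
    by_cases hn : n ≡ c [MOD q]
    · rw [if_pos hn, if_pos ((ZMod.natCast_eq_natCast_iff c n q).2 hn.symm)]
      push_cast
      rfl
    · rw [if_neg hn, if_neg (fun h' => hn ((ZMod.natCast_eq_natCast_iff c n q).1 h').symm)]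
      simp
  have e4 : ‖∑ χ : DirichletCharacter ℂ q, χ (c : ZMod q)⁻¹ * ∑ n ∈ Icc 1 Z, chM χ n‖ ≤
      q.totient * (C * q * (X / (Real.log X) ^ k)) := by
    calc _ ≤ ∑ χ : DirichletCharacter ℂ q, (C * q * (X / (Real.log X) ^ k)) := by
          apply norm_sum_le_of_le
          intro χ _
          rw [norm_mul]
          have e5 := DirichletCharacter.norm_le_one χ (c : ZMod q)⁻¹
          have e6 := h q χ X Z hX hZ
          calc _ ≤ 1 * (C * q * (X / (Real.log X) ^ k)) := by gcongr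
            _ = _ := one_mul _
      _ = _ := by
        rw [sum_const, nsmul_eq_mul, card_univ, ← Nat.card_eq_fintype_card,
          DirichletCharacter.card_eq_totient_of_hasEnoughRootsOfUnity]
  rw [← e1, norm_mul, Complex.norm_natCast] at e4
  exact le_of_mul_le_mul_left e4 (by exact_mod_cast htp)

theorem dav_g (k : ℕ) :
    ∃ C : ℝ, 0 < C ∧ ∀ (q : ℕ) [NeZero q] (a : ℤ) (g X Z : ℕ), 2 ≤ X → Z ≤ X →
      ‖∑ m ∈ (Icc 1 Z).filter (fun m => Nat.Coprime m q),
        ((μ m : ℝ) : ℂ) * e (((g * m : ℕ) : ℝ) * ((a : ℝ) / q))‖ ≤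
        C * (q : ℝ) ^ 2 * (X / (Real.log X) ^ k) := by
  obtain ⟨C, hC, h⟩ := dav_class k
  refine ⟨C, hC, fun q _ a g X Z hX hZ => ?_⟩
  have hq0 : 0 < q := Nat.pos_of_ne_zero (NeZero.ne q)
  have hq0' : (q : ℝ) ≠ 0 := by exact_mod_cast hq0.ne'
  have hX' : (2 : ℝ) ≤ X := by exact_mod_cast hX
  have hlog : 0 < Real.log X := Real.log_pos (by linarith)
  rw [← sum_fiberwise_of_maps_to (t := range q) (g := fun m => m % q)
    (fun m _ => mem_range.2 (Nat.mod_lt m hq0))]
  have e1 : ∀ c ∈ range q, ‖∑ m ∈ ((Icc 1 Z).filter (fun m => Nat.Coprime m q)).filter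
      (fun m => m % q = c), ((μ m : ℝ) : ℂ) * e (((g * m : ℕ) : ℝ) * ((a : ℝ) / q))‖ ≤
      C * q * (X / (Real.log X) ^ k) := by
    intro c hc
    rw [mem_range] at hc
    by_cases hcc : Nat.Coprime c q
    · have e2 : ((Icc 1 Z).filter (fun m => Nat.Coprime m q)).filter (fun m => m % q = c) =
          (Icc 1 Z).filter (fun m => m ≡ c [MOD q]) := by
        ext m
        simp only [mem_filter, Nat.ModEq, Nat.mod_eq_of_lt hc]
        constructor
        · rintro ⟨⟨h1, _⟩, h2⟩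
          exact ⟨h1, h2⟩
        · rintro ⟨h1, h2⟩
          refine ⟨⟨h1, ?_⟩, h2⟩
          rw [← h2] at hcc
          have := Nat.gcd_rec q m
          rw [Nat.Coprime, Nat.gcd_comm, this]
          exact hcc
      rw [e2]
      have e3 : ∀ m ∈ (Icc 1 Z).filter (fun m => m ≡ c [MOD q]),
          ((μ m : ℝ) : ℂ) * e (((g * m : ℕ) : ℝ) * ((a : ℝ) / q)) =
          ((μ m : ℝ) : ℂ) * e (((g * c : ℕ) : ℝ) * ((a : ℝ) / q)) := by
        intro m hm
        rw [mem_filter] at hm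
        congr 1
        obtain ⟨t, ht⟩ : (q : ℤ) ∣ (m : ℤ) - c := by
          have := (Int.natCast_modEq_iff.2 hm.2.symm).dvd
          exact this
        have e4 : ((g * m : ℕ) : ℝ) * ((a : ℝ) / q) =
            ((g * c : ℕ) : ℝ) * ((a : ℝ) / q) + ((g * t * a : ℤ) : ℝ) := by
          have e5 : (m : ℝ) = c + q * t := by
            have : (m : ℤ) = c + q * t := by linarith
            exact_mod_cast this
          push_cast
          rw [e5]
          field_simp
        rw [e4, e_add_int]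
      rw [sum_congr rfl e3, ← sum_mul, norm_mul, norm_e, mul_one]
      exact h q c X Z hcc hX hZ
    · have e2 : ((Icc 1 Z).filter (fun m => Nat.Coprime m q)).filter (fun m => m % q = c) = ∅ := by
        apply filter_eq_empty_iff.2
        intro m hm hmc
        rw [mem_filter] at hm
        apply hcc
        rw [← hmc]
        have := Nat.gcd_rec q m
        rw [Nat.Coprime, ← this, Nat.gcd_comm]
        exact hm.2
      rw [e2, sum_empty, norm_zero]
      positivity
  calc _ ≤ ∑ c ∈ range q, C * q * (X / (Real.log X) ^ k) := norm_sum_le_of_le _ e1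
    _ = _ := by
      rw [sum_const, nsmul_eq_mul, card_range]
      ring

theorem dav_group (h : ℕ → ℂ) (q Y : ℕ) (hq : 1 ≤ q) :
    ∑ n ∈ Icc 1 Y, ((μ n : ℝ) : ℂ) * h n =
      ∑ g ∈ q.divisors, ((μ g : ℝ) : ℂ) *
        ∑ m ∈ (Icc 1 (Y / g)).filter (fun m => Nat.Coprime m q), ((μ m : ℝ) : ℂ) * h (g * m) := by
  rw [← sum_fiberwise_of_maps_to (t := q.divisors) (g := fun n => Nat.gcd n q)
    (fun n _ => Nat.mem_divisors.2 ⟨Nat.gcd_dvd_right n q, by omega⟩)]
  apply sum_congr rfl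
  intro g hg
  have hgq : g ∣ q := Nat.dvd_of_mem_divisors hg
  have hg0 : 0 < g := Nat.pos_of_mem_divisors hg
  rw [mul_sum]
  -- rewrite the left side with `n = g m`
  have e1 : ∑ n ∈ (Icc 1 Y).filter (fun n => Nat.gcd n q = g), ((μ n : ℝ) : ℂ) * h n =
      ∑ m ∈ (Icc 1 (Y / g)).filter (fun m => Nat.gcd (g * m) q = g),
        ((μ (g * m) : ℝ) : ℂ) * h (g * m) := by
    symm
    apply sum_nbij (fun m => g * m)
    · intro m hm
      simp only [mem_filter, mem_Icc] at hm ⊢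
      refine ⟨⟨Nat.mul_pos hg0 hm.1.1, ?_⟩, hm.2⟩
      calc g * m ≤ g * (Y / g) := Nat.mul_le_mul_left _ hm.1.2
        _ ≤ Y := Nat.mul_div_le _ _
    · intro a _ b _ hab
      exact Nat.eq_of_mul_eq_mul_left hg0 hab
    · intro n hn
      simp only [coe_filter, mem_Icc, Set.mem_ofPred_eq, Set.mem_image] at hn ⊢
      obtain ⟨⟨h1, h2⟩, h3⟩ := hn
      have h4 : g ∣ n := h3 ▸ Nat.gcd_dvd_left n q
      obtain ⟨m, rfl⟩ := h4
      refine ⟨m, ⟨⟨Nat.pos_of_mul_pos_left h1, ?_⟩, h3⟩, rfl⟩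
      rw [Nat.le_div_iff_mul_le hg0, mul_comm]
      exact h2
    · intro m _
      rfl
  rw [e1, sum_filter, sum_filter]
  apply sum_congr rfl
  intro m _
  by_cases hmq : Nat.Coprime m q
  · have hgm : Nat.Coprime g m := (hmq.coprime_dvd_right hgq).symm
    have e2 : Nat.gcd (g * m) q = g := by
      rw [Nat.Coprime.gcd_mul_right_cancel g hmq]
      exact Nat.gcd_eq_left hgq
    rw [if_pos hmq, if_pos e2, ArithmeticFunction.isMultiplicative_moebius.map_mul_of_coprime hgm]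
    push_cast
    ring
  · rw [if_neg hmq]
    split_ifs with e2
    · have : μ (g * m) = 0 := by
        apply ArithmeticFunction.moebius_eq_zero_of_not_squarefree
        intro hs
        obtain ⟨p, hp, hpm, hpq⟩ := Nat.Prime.not_coprime_iff_dvd.1 hmq
        obtain ⟨q', hq'⟩ := hgq
        have hpg : p ∣ g := by
          rw [hq'] at hpq
          rcases hp.dvd_mul.1 hpq with h1 | h1
          · exact h1
          · exfalso
            have h2 : g * p ∣ Nat.gcd (g * m) q :=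
              Nat.dvd_gcd (Nat.mul_dvd_mul_left g hpm) (by rw [hq']; exact Nat.mul_dvd_mul_left g h1)
            rw [e2] at h2
            have h3 := Nat.le_of_dvd hg0 h2
            have h4 := hp.two_le
            nlinarith
        have := hs p (Nat.mul_dvd_mul hpg hpm)
        exact hp.one_lt.ne' (Nat.isUnit_iff.1 this)
      rw [this]
      simp
    · rfl

theorem mu_ap_exp (k : ℕ) :
    ∃ C : ℝ, 0 < C ∧ ∀ (X Y q : ℕ) (a : ℤ), 2 ≤ X → Y ≤ X → 1 ≤ q →
      ‖∑ n ∈ Icc 1 Y, ((μ n : ℝ) : ℂ) * e (n * ((a : ℝ) / q))‖ ≤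
          C * (q : ℝ) ^ 3 * X / (Real.log X) ^ k := by
  obtain ⟨C, hC, h⟩ := dav_g k
  refine ⟨C, hC, fun X Y q a hX hY hq => ?_⟩
  have : NeZero q := ⟨by omega⟩
  have hX' : (2 : ℝ) ≤ X := by exact_mod_cast hX
  have hlog : 0 < Real.log X := Real.log_pos (by linarith)
  rw [dav_group (fun n => e (n * ((a : ℝ) / q))) q Y hq]
  calc _ ≤ ∑ g ∈ q.divisors, C * (q : ℝ) ^ 2 * (X / (Real.log X) ^ k) := by
        apply norm_sum_le_of_le
        intro g _
        rw [norm_mul]
        have e1 := h q a g X (Y / g) hX ((Nat.div_le_self Y g).trans hY)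
        have e2 : ‖((μ g : ℝ) : ℂ)‖ ≤ 1 := by
          rw [Complex.norm_real, Real.norm_eq_abs]
          exact_mod_cast ArithmeticFunction.abs_moebius_le_one
        calc _ ≤ 1 * (C * (q : ℝ) ^ 2 * (X / (Real.log X) ^ k)) := by gcongr
          _ = _ := one_mul _
    _ = (q.divisors.card : ℝ) * (C * (q : ℝ) ^ 2 * (X / (Real.log X) ^ k)) := by
      rw [sum_const, nsmul_eq_mul]
    _ ≤ (q : ℝ) * (C * (q : ℝ) ^ 2 * (X / (Real.log X) ^ k)) := by
      gcongr
      exact_mod_cast Nat.card_divisors_le_self q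
    _ = _ := by ring

theorem dav_abel (f : ℕ → ℂ) (z : ℂ) (hz : ‖z‖ = 1) (Y : ℕ) (D : ℝ)
    (h : ∀ N : ℕ, N ≤ Y → ‖∑ n ∈ Icc 1 N, f n‖ ≤ D) :
    ‖∑ n ∈ Icc 1 Y, f n * z ^ n‖ ≤ D * (1 + Y * ‖z - 1‖) := by
  have e1 : ∀ N : ℕ, ∑ n ∈ Icc 1 N, f n * z ^ n = (∑ n ∈ Icc 1 N, f n) * z ^ N +
      ∑ n ∈ range N, (∑ m ∈ Icc 1 n, f m) * (z ^ n - z ^ (n + 1)) := by
    intro N
    induction N with
    | zero => simp
    | succ N ih =>
      rw [sum_Icc_succ_top (by omega), ih, sum_Icc_succ_top (by omega), sum_range_succ]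
      ring
  have hp : ∀ n : ℕ, ‖z ^ n‖ = 1 := fun n => by rw [norm_pow, hz, one_pow]
  rw [e1]
  calc _ ≤ ‖(∑ n ∈ Icc 1 Y, f n) * z ^ Y‖ +
        ‖∑ n ∈ range Y, (∑ m ∈ Icc 1 n, f m) * (z ^ n - z ^ (n + 1))‖ := norm_add_le _ _
    _ ≤ D + ∑ n ∈ range Y, D * ‖z - 1‖ := by
      apply add_le_add
      · rw [norm_mul, hp, mul_one]
        exact h Y le_rfl
      · apply norm_sum_le_of_le
        intro n hn
        rw [norm_mul, show z ^ n - z ^ (n + 1) = z ^ n * (1 - z) by ring, norm_mul, hp, one_mul,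
          norm_sub_rev 1 z]
        exact mul_le_mul_of_nonneg_right (h n (mem_range.1 hn).le) (norm_nonneg _)
    _ = _ := by
      rw [sum_const, card_range, nsmul_eq_mul]
      ring

theorem dav_triv (Y : ℕ) (α : ℝ) : ‖∑ n ∈ Icc 1 Y, ((μ n : ℝ) : ℂ) * e (n * α)‖ ≤ Y := by
  calc _ ≤ ∑ n ∈ Icc 1 Y, (1 : ℝ) := by
        apply norm_sum_le_of_le
        intro n _
        rw [norm_mul, norm_e, mul_one, Complex.norm_real, Real.norm_eq_abs]
        exact_mod_cast ArithmeticFunction.abs_moebius_le_one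
    _ = Y := by simp

/-- powers of the logarithm against powers -/
theorem dav_log_pow (j : ℕ) (δ : ℝ) (hδ : 0 < δ) :
    ∃ C : ℝ, 1 ≤ C ∧ ∀ x : ℝ, 1 ≤ x → (Real.log x) ^ j ≤ C * x ^ δ := by
  rcases Nat.eq_zero_or_pos j with rfl | hj
  · refine ⟨1, le_rfl, fun x hx => ?_⟩
    rw [pow_zero, one_mul]
    exact Real.one_le_rpow hx hδ.le
  · have hj' : (0 : ℝ) < j := by exact_mod_cast hj
    refine ⟨1 + (j / δ) ^ j, by linarith [pow_pos (div_pos hj' hδ) j], fun x hx => ?_⟩
    have h1 : Real.log x ≤ x ^ (δ / j) / (δ / j) := Real.log_le_rpow_div (by linarith) (by positivity)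
    have h2 : 0 ≤ Real.log x := Real.log_nonneg hx
    have h3 := pow_le_pow_left₀ h2 h1 j
    have h4 : (x ^ (δ / j) / (δ / j)) ^ j = (j / δ) ^ j * x ^ δ := by
      rw [div_pow, ← Real.rpow_natCast (x ^ (δ / j)) j, ← Real.rpow_mul (by linarith),
        div_mul_cancel₀ _ hj'.ne', div_pow, div_pow]
      field_simp
    rw [h4] at h3
    have h5 : 0 ≤ x ^ δ := Real.rpow_nonneg (by linarith) _
    linarith

theorem davenport (A : ℕ) :
    ∃ C : ℝ, 0 < C ∧ ∀ X : ℕ, 2 ≤ X → ∀ Y : ℕ, Y ≤ X → ∀ α : ℝ,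
      ‖∑ n ∈ Icc 1 Y, ((μ n : ℝ) : ℂ) * e (n * α)‖ ≤ C * X / (Real.log X) ^ A := by
  set B : ℕ := 2 * A + 10 with hB
  obtain ⟨C1, hC1, h1⟩ := minor_Q_mu
  obtain ⟨C2, hC2, h2⟩ := mu_ap_exp (4 * B + A)
  obtain ⟨C3, hC3, h3⟩ := dav_log_pow B (1 / 2) (by norm_num)
  obtain ⟨C4, hC4, h4⟩ := dav_log_pow (A + 5) (1 / 10) (by norm_num)
  -- constants
  set K0 : ℝ := (Real.log (C3 ^ 2 + 2)) ^ A with hK0
  have hK0' : 0 ≤ K0 := pow_nonneg (Real.log_nonneg (by nlinarith)) A
  set K : ℝ := K0 + (1 / Real.log 2) ^ B * (8 * C2) + C1 * (3 * C4) + C4 with hK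
  have hl2 : 0 < Real.log 2 := Real.log_pos (by norm_num)
  have hl2' : Real.log 2 ≤ 1 := by
    have := Real.log_two_lt_d9
    linarith
  refine ⟨K, by positivity, fun X hX Y hY α => ?_⟩
  have hX' : (2 : ℝ) ≤ X := by exact_mod_cast hX
  have hY' : (Y : ℝ) ≤ X := by exact_mod_cast hY
  have hL : 0 < Real.log X := Real.log_pos (by linarith)
  have hL2 : Real.log 2 ≤ Real.log X := Real.log_le_log (by norm_num) hX'
  set L := Real.log X with hLdef
  have hXA : 0 < (X : ℝ) / L ^ A := by positivity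
  have hfin : ∀ c : ℝ, c ≤ K → ‖∑ n ∈ Icc 1 Y, ((μ n : ℝ) : ℂ) * e (n * α)‖ ≤ c * (X / L ^ A) →
      ‖∑ n ∈ Icc 1 Y, ((μ n : ℝ) : ℂ) * e (n * α)‖ ≤ K * X / L ^ A := by
    intro c hc hle
    calc _ ≤ c * (X / L ^ A) := hle
      _ ≤ K * (X / L ^ A) := mul_le_mul_of_nonneg_right hc hXA.le
      _ = _ := by ring
  rcases lt_or_ge (X : ℝ) (C3 ^ 2) with hsmall | hbig
  · -- small X
    apply hfin K0
    · rw [hK]
      have : 0 ≤ (1 / Real.log 2) ^ B * (8 * C2) := by positivity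
      have : 0 ≤ C1 * (3 * C4) := by positivity
      linarith
    · have e1 : L ^ A ≤ K0 := by
        rw [hK0]
        exact pow_le_pow_left₀ hL.le (Real.log_le_log (by linarith) (by linarith)) A
      calc _ ≤ (Y : ℝ) := dav_triv Y α
        _ ≤ X := hY'
        _ = L ^ A * (X / L ^ A) := by field_simp
        _ ≤ _ := mul_le_mul_of_nonneg_right e1 hXA.le
  · -- large X : `L ^ B ≤ X`
    have hLB : L ^ B ≤ X := by
      have e1 := h3 X (by linarith)
      have e2 : C3 ≤ (X : ℝ) ^ (1 / 2 : ℝ) := by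
        rw [← Real.sqrt_eq_rpow]
        exact Real.le_sqrt_of_sq_le hbig
      calc _ ≤ C3 * (X : ℝ) ^ (1 / 2 : ℝ) := e1
        _ ≤ (X : ℝ) ^ (1 / 2 : ℝ) * (X : ℝ) ^ (1 / 2 : ℝ) :=
          mul_le_mul_of_nonneg_right e2 (by positivity)
        _ = X := by
          rw [← Real.sqrt_eq_rpow, Real.mul_self_sqrt (by linarith)]
    have hLB0 : 0 < L ^ B := by positivity
    set R : ℝ := X / L ^ B with hR
    have hR1 : 1 ≤ R := by rwa [hR, le_div_iff₀ hLB0, one_mul]
    have hn : 0 < ⌊R⌋₊ := Nat.floor_pos.2 hR1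
    obtain ⟨r, hr1, hr2⟩ := Real.exists_rat_abs_sub_le_and_den_le α hn
    set q : ℕ := r.den with hq
    have hq1 : 1 ≤ q := r.den_pos
    have hq1' : (1 : ℝ) ≤ q := by exact_mod_cast hq1
    have hrr : (r : ℝ) = (r.num : ℝ) / (q : ℝ) := by
      rw [hq]
      exact_mod_cast (Rat.num_div_den r).symm
    have hqR : (q : ℝ) ≤ R := by
      calc (q : ℝ) ≤ (⌊R⌋₊ : ℝ) := by exact_mod_cast hr2
        _ ≤ R := Nat.floor_le (by linarith)
    have hco : IsCoprime r.num (q : ℤ) := by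
      have := r.reduced
      rw [Int.isCoprime_iff_gcd_eq_one]
      exact this
    rw [hrr] at hr1
    have hfl : R < (⌊R⌋₊ : ℝ) + 1 := Nat.lt_floor_add_one R
    have hα : |α - (r.num : ℝ) / q| ≤ 1 / (R * q) := by
      refine hr1.trans ?_
      apply one_div_le_one_div_of_le (by positivity)
      apply mul_le_mul_of_nonneg_right hfl.le (by positivity)
    have hα2 : |α - (r.num : ℝ) / q| ≤ 1 / (q : ℝ) ^ 2 := by
      refine hα.trans ?_
      apply one_div_le_one_div_of_le (by positivity)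
      rw [sq]
      exact mul_le_mul_of_nonneg_right hqR (by positivity)
    rcases le_or_gt (q : ℝ) (L ^ B) with hqs | hqb
    · -- major arcs
      set β : ℝ := α - (r.num : ℝ) / q with hβ
      have e1 : ∀ n : ℕ, ((μ n : ℝ) : ℂ) * e (n * α) =
          (((μ n : ℝ) : ℂ) * e (n * ((r.num : ℝ) / q))) * (e β) ^ n := by
        intro n
        rw [← RE.e_mul_nat, mul_assoc, ← e_add]
        congr 2
        rw [hβ]
        ring
      have hD : ∀ N : ℕ, N ≤ Y → ‖∑ n ∈ Icc 1 N, ((μ n : ℝ) : ℂ) * e (n * ((r.num : ℝ) / q))‖ ≤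
          C2 * (q : ℝ) ^ 3 * X / L ^ (4 * B + A) := fun N hN => h2 X N q r.num hX (hN.trans hY) hq1
      have e2 := dav_abel (fun n => ((μ n : ℝ) : ℂ) * e (n * ((r.num : ℝ) / q))) (e β) (norm_e β) Y _ hD
      have e3 : ‖e β - 1‖ ≤ 2 * Real.pi * |β| := RE.norm_e_sub_one_le β
      have e4 : (Y : ℝ) * ‖e β - 1‖ ≤ 7 * L ^ B := by
        have e5 : |β| ≤ 1 / R := hα.trans (one_div_le_one_div_of_le (by linarith) (by nlinarith))
        have e6 : (X : ℝ) * (1 / R) = L ^ B := by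
          rw [hR]
          field_simp
        have hpi : Real.pi ≤ 3.15 := Real.pi_lt_d2.le
        calc (Y : ℝ) * ‖e β - 1‖ ≤ X * (2 * Real.pi * (1 / R)) := by
              apply mul_le_mul hY' (e3.trans _) (norm_nonneg _) (by linarith)
              exact mul_le_mul_of_nonneg_left e5 (by positivity)
          _ = 2 * Real.pi * L ^ B := by rw [← e6]; ring
          _ ≤ _ := by nlinarith
      apply hfin ((1 / Real.log 2) ^ B * (8 * C2))
      · rw [hK]
        have : 0 ≤ C1 * (3 * C4) := by positivity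
        linarith
      · rw [sum_congr rfl (fun n _ => e1 n)]
        refine e2.trans ?_
        have hD0 : 0 ≤ C2 * (q : ℝ) ^ 3 * X / L ^ (4 * B + A) := by positivity
        have e7 : 1 ≤ (1 / Real.log 2) ^ B * L ^ B := by
          rw [← mul_pow]
          apply one_le_pow₀
          rw [one_div, inv_mul_eq_div, le_div_iff₀ hl2, one_mul]
          exact hL2
        have e7' : 1 ≤ (1 / Real.log 2) ^ B := by
          apply one_le_pow₀
          rw [le_div_iff₀ hl2, one_mul]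
          exact hl2'
        have e8 : 1 + (Y : ℝ) * ‖e β - 1‖ ≤ (1 / Real.log 2) ^ B * (8 * L ^ B) := by
          nlinarith
        have e9 : (q : ℝ) ^ 3 ≤ (L ^ B) ^ 3 := pow_le_pow_left₀ (by linarith) hqs 3
        calc C2 * (q : ℝ) ^ 3 * X / L ^ (4 * B + A) * (1 + Y * ‖e β - 1‖)
            ≤ C2 * (q : ℝ) ^ 3 * X / L ^ (4 * B + A) * ((1 / Real.log 2) ^ B * (8 * L ^ B)) :=
              mul_le_mul_of_nonneg_left e8 hD0
          _ ≤ C2 * (L ^ B) ^ 3 * X / L ^ (4 * B + A) * ((1 / Real.log 2) ^ B * (8 * L ^ B)) := by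
              gcongr
          _ = _ := by
              rw [show (L ^ (4 * B + A) : ℝ) = (L ^ B) ^ 3 * L ^ B * L ^ A by ring]
              field_simp
    · -- minor arcs
      apply hfin (C1 * (3 * C4) + C4)
      · rw [hK]
        have : 0 ≤ (1 / Real.log 2) ^ B * (8 * C2) := by positivity
        linarith
      · have h10 : L ^ (A + 5) ≤ C4 * (X : ℝ) ^ (1 / 10 : ℝ) := h4 X (by linarith)
        have hL0 : L ^ A ≤ C4 * X := by
          rcases le_or_gt L 1 with hle | hgt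
          · have : L ^ A ≤ 1 := pow_le_one₀ hL.le hle
            nlinarith
          · calc L ^ A ≤ L ^ (A + 5) := pow_le_pow_right₀ hgt.le (by omega)
              _ ≤ C4 * (X : ℝ) ^ (1 / 10 : ℝ) := h10
              _ ≤ C4 * (X : ℝ) ^ (1 : ℝ) := by
                apply mul_le_mul_of_nonneg_left _ (by linarith)
                exact Real.rpow_le_rpow_of_exponent_le (by linarith) (by norm_num)
              _ = _ := by rw [Real.rpow_one]
        rcases Nat.lt_or_ge Y 2 with hY2 | hY2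
        · -- trivial
          have e1 : (Y : ℝ) ≤ 1 := by exact_mod_cast (by omega : Y ≤ 1)
          have e3 : 1 ≤ C4 * (X / L ^ A) := by
            rw [← mul_div_assoc, le_div_iff₀ (by positivity), one_mul]
            exact hL0
          calc _ ≤ (Y : ℝ) := dav_triv Y α
            _ ≤ C4 * (X / L ^ A) := e1.trans e3
            _ ≤ _ := by
              apply mul_le_mul_of_nonneg_right _ hXA.le
              have : 0 ≤ C1 * (3 * C4) := by positivity
              linarith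
        · have e1 := h1 α r.num q Y hY2 hq1 hco hα2
          have hY2' : (2 : ℝ) ≤ Y := by exact_mod_cast hY2
          have hlY : 0 ≤ Real.log Y := Real.log_nonneg (by linarith)
          have hlY2 : Real.log Y ≤ L := Real.log_le_log (by linarith) hY'
          have hB2 : L ^ B = (L ^ (A + 5)) ^ 2 := by
            rw [hB]
            ring
          have hA5 : 0 < L ^ (A + 5) := by positivity
          have hsq : L ^ (A + 5) ≤ Real.sqrt q := by
            apply Real.le_sqrt_of_sq_le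
            rw [← hB2]
            exact hqb.le
          have t1 : (Y : ℝ) / Real.sqrt q ≤ X / L ^ (A + 5) :=
            div_le_div₀ (by linarith) hY' hA5 hsq
          have t2 : (Y : ℝ) ^ (9 / 10 : ℝ) ≤ (X : ℝ) ^ (9 / 10 : ℝ) :=
            Real.rpow_le_rpow (by linarith) hY' (by norm_num)
          have t3 : Real.sqrt (Y * q) ≤ X / L ^ (A + 5) := by
            rw [Real.sqrt_le_left (by positivity)]
            calc (Y : ℝ) * q ≤ X * R := mul_le_mul hY' hqR (by linarith) (by linarith)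
              _ = _ := by
                rw [hR, div_pow, ← hB2]
                ring
          have t4 : (X : ℝ) ^ (9 / 10 : ℝ) * L ^ (A + 5) ≤ C4 * X := by
            calc _ ≤ (X : ℝ) ^ (9 / 10 : ℝ) * (C4 * (X : ℝ) ^ (1 / 10 : ℝ)) :=
                  mul_le_mul_of_nonneg_left h10 (by positivity)
              _ = C4 * ((X : ℝ) ^ (9 / 10 : ℝ) * (X : ℝ) ^ (1 / 10 : ℝ)) := by ring
              _ = _ := by
                rw [← Real.rpow_add (by linarith)]
                norm_num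
          have t5 : (X : ℝ) ^ (9 / 10 : ℝ) ≤ C4 * (X / L ^ (A + 5)) := by
            rw [← mul_div_assoc, le_div_iff₀ hA5]
            exact t4
          have t6 : (X : ℝ) / L ^ (A + 5) * L ^ 5 = X / L ^ A := by
            rw [pow_add]
            field_simp
          have hXA5 : 0 < (X : ℝ) / L ^ (A + 5) := by positivity
          calc _ ≤ C1 * (Y / Real.sqrt q + (Y : ℝ) ^ (9 / 10 : ℝ) + Real.sqrt (Y * q)) *
                (Real.log Y) ^ 5 := e1
            _ ≤ C1 * (X / L ^ (A + 5) + C4 * (X / L ^ (A + 5)) + X / L ^ (A + 5)) * L ^ 5 := by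
                gcongr
                exact t2.trans t5
            _ ≤ C1 * (3 * C4 * (X / L ^ (A + 5))) * L ^ 5 := by
                gcongr
                nlinarith
            _ = C1 * (3 * C4) * (X / L ^ A) := by
                rw [← t6]
                ring
            _ ≤ _ := by
                apply mul_le_mul_of_nonneg_right _ hXA.le
                linarith

end Pool.Agent.Lib.SW
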