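import Pool.Agent.Lib.SW.VinoSum

/-!
# SW-W: the Ramanujan model of the primes (module W)

`gq q n = ∏_{p | q} g_p(n)`, `g_p(n) = -1` if p | n and `1/(p-1)` otherwise; for squarefree q this is
(μ(q)/φ(q)) c_q(n). `LQ Qs n = ∑_{q ∈ Qs} gq q n`.

PROOFS. `gq_eq_exp`: for squarefree q: for a prime p, ∑_{0<b<p} e(bn/p) = p-1 or -1, so
g_p(n) = (-1/(p-1)) ∑_{0<b<p} e(bn/p); the product over p | q: by CRT (or by multiplicativity of the Ramanujan sum,
induction on the number of primes: for coprime q', q'': b/q = b'/q' + b''/q'' mod 1 is a bijection of reduced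
classes). Alternative: c_q(n) = ∑_{d | (q,n)} d μ(q/d) via ∑_{d | (b,q)} μ(d) = 1_{(b,q)=1}, then multiplicativity.
`abs_gq_le`: each factor has modulus ≤ 1.
`sum_gq_exp_le`: insert `gq_eq_exp`, |∑_{n ≤ N} e(n(α + b/q))| ≤ gmin N (α + b/q) (`geom_le`); if no b/q is
within η of -α mod 1 use `gmin_le'`: at most φ(q) terms times 1/φ(q).
`sum_gq_exp_main`: α = a/q exactly, (a,q) = 1: the term b ≡ -a gives (μ(q)/φ(q)) N, all other b have nd ≥ 1/q; and
for q' ≠ q squarefree, nd(a/q + b/q') ≥ 1/(q q').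
`prod_one_add_gq`: ∏_{p | W} (1 + g_p(n)) = (W/φ(W)) 1_{(n,W)=1} and expansion of the product over subsets:
∑_{d | W} gq d n, W squarefree.
`gq_mul`: multiplicativity for coprime q, q'. `gq_periodic`.
-/

open Finset Pool.Agent.Lib.GT
open scoped ArithmeticFunction.Moebius

namespace Pool.Agent.Lib.SW

/-- `(μ(q)/φ(q)) c_q(n)` for squarefree `q` -/
noncomputable def gq (q : ℕ) (n : ℤ) : ℝ :=
  ∏ p ∈ q.primeFactors, (if (p : ℤ) ∣ n then (-1 : ℝ) else 1 / ((p : ℝ) - 1))

/-- the model of the primes attached to a finite set of (squarefree) moduli -/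
noncomputable def LQ (Qs : Finset ℕ) (n : ℤ) : ℝ := ∑ q ∈ Qs, gq q n

theorem abs_gq_le (q : ℕ) (n : ℤ) : |gq q n| ≤ 1 := by
  unfold gq
  rw [Finset.abs_prod]
  apply Finset.prod_le_one (fun _ _ => abs_nonneg _)
  intro p hp
  have hp2 : (2 : ℝ) ≤ p := by exact_mod_cast (Nat.prime_of_mem_primeFactors hp).two_le
  split_ifs
  · simp
  · rw [abs_of_nonneg (by apply div_nonneg zero_le_one; linarith)]
    rw [div_le_one (by linarith)]
    linarith

theorem gq_mul (q q' : ℕ) (h : Nat.Coprime q q') (n : ℤ) : gq (q * q') n = gq q n * gq q' n := by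
  unfold gq
  rw [h.primeFactors_mul, Finset.prod_union h.disjoint_primeFactors]

theorem gq_periodic (q : ℕ) (n m : ℤ) : gq q (n + q * m) = gq q n := by
  unfold gq
  refine Finset.prod_congr rfl fun p hp => ?_
  have h1 : (p : ℤ) ∣ q * m := by
    have : (p : ℤ) ∣ (q : ℤ) := by exact_mod_cast Nat.dvd_of_mem_primeFactors hp
    exact this.mul_right m
  exact if_congr (dvd_add_left h1) rfl rfl

theorem rm_prod (q : ℕ) (hq : Squarefree q) : ∏ p ∈ q.primeFactors, p = q :=
  Nat.prod_primeFactors_of_squarefree hq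

theorem rm_totient (q : ℕ) (hq : Squarefree q) :
    (q.totient : ℝ) = ∏ p ∈ q.primeFactors, ((p : ℝ) - 1) := by
  have h1 := Nat.totient_mul_prod_primeFactors q
  rw [rm_prod q hq, mul_comm] at h1
  have h2 := Nat.eq_of_mul_eq_mul_left (Nat.pos_of_ne_zero hq.ne_zero) h1
  rw [h2]
  push_cast
  refine Finset.prod_congr rfl fun p hp => ?_
  rw [Nat.cast_sub (Nat.prime_of_mem_primeFactors hp).one_le]
  simp

theorem rm_moebius (q : ℕ) (hq : Squarefree q) :
    (ArithmeticFunction.moebius q : ℤ) = ∏ p ∈ q.primeFactors, (-1 : ℤ) := by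
  have h1 := ArithmeticFunction.isMultiplicative_moebius.map_prod_of_subset_primeFactors q
    q.primeFactors subset_rfl
  rw [rm_prod q hq] at h1
  rw [h1]
  refine Finset.prod_congr rfl fun p hp => ?_
  exact ArithmeticFunction.moebius_apply_prime (Nat.prime_of_mem_primeFactors hp)

/-- `m ↦ m 1_{m | n}` -/
noncomputable def rmG (n : ℤ) : ArithmeticFunction ℂ :=
  ⟨fun m => if (m : ℤ) ∣ n then (m : ℂ) else 0, by simp⟩

theorem rmG_apply (n : ℤ) (m : ℕ) : rmG n m = if (m : ℤ) ∣ n then (m : ℂ) else 0 := rfl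

theorem rmG_mult (n : ℤ) : (rmG n).IsMultiplicative := by
  refine ⟨by simp [rmG_apply], ?_⟩
  intro a b hab
  rw [rmG_apply, rmG_apply, rmG_apply]
  have h1 : (((a * b : ℕ) : ℤ) ∣ n) ↔ (a : ℤ) ∣ n ∧ (b : ℤ) ∣ n := by
    push_cast
    constructor
    · intro h
      exact ⟨(dvd_mul_right _ _).trans h, (dvd_mul_left _ _).trans h⟩
    · rintro ⟨h1, h2⟩
      exact (Nat.isCoprime_iff_coprime.2 hab).mul_dvd h1 h2
  rw [if_congr h1 rfl rfl]
  by_cases h2 : (a : ℤ) ∣ n <;> by_cases h3 : (b : ℤ) ∣ n <;> simp [h2, h3]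

/-- a complete exponential sum -/
theorem rm_complete (k : ℕ) (hk : 0 < k) (n : ℤ) :
    ∑ j ∈ range k, e ((n : ℝ) / k * j) = rmG n k := by
  rw [rmG_apply]
  split_ifs with h
  · obtain ⟨m, rfl⟩ := h
    have hkr : (k : ℝ) ≠ 0 := by positivity
    have h1 : ∀ j ∈ range k, e ((((k : ℤ) * m : ℤ) : ℝ) / k * j) = 1 := by
      intro j _
      have h2 : (((k : ℤ) * m : ℤ) : ℝ) / k * j = ((m * j : ℤ) : ℝ) := by
        push_cast
        field_simp
      rw [h2, e_int]
    rw [Finset.sum_congr rfl h1]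
    simp
  · exact RE.sum_e_div_range k hk n h

/-- the Ramanujan sum as a Dirichlet convolution -/
theorem rm_ramanujan (q : ℕ) (hq : 0 < q) (n : ℤ) :
    ∑ c ∈ (range q).filter (fun c => Nat.Coprime c q), e ((n : ℝ) / q * c) =
      (((ArithmeticFunction.moebius : ArithmeticFunction ℤ) : ArithmeticFunction ℂ) * rmG n) q := by
  have hq' : (q : ℝ) ≠ 0 := by positivity
  have h1 : ∀ c ∈ range q, (if Nat.Coprime c q then e ((n : ℝ) / q * c) else 0) =
      ∑ d ∈ q.divisors, (if d ∣ c then (ArithmeticFunction.moebius d : ℂ) * e ((n : ℝ) / q * c)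
        else 0) := by
    intro c hc
    have hg : Nat.gcd c q ≠ 0 := Nat.gcd_ne_zero_right hq.ne'
    have h2 := RE.sum_moebius_divisors _ hg
    have h3 : (Nat.gcd c q).divisors = q.divisors.filter (fun d => d ∣ c) := by
      ext d
      rw [Nat.mem_divisors, Finset.mem_filter, Nat.mem_divisors, Nat.dvd_gcd_iff]
      constructor
      · rintro ⟨⟨h4, h5⟩, _⟩
        exact ⟨⟨h5, hq.ne'⟩, h4⟩
      · rintro ⟨⟨h5, _⟩, h4⟩
        exact ⟨⟨h4, h5⟩, hg⟩
    rw [h3] at h2
    rw [← Finset.sum_filter, ← Finset.sum_mul]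
    have h4 : (∑ d ∈ q.divisors.filter (fun d => d ∣ c), (ArithmeticFunction.moebius d : ℂ)) =
        ((∑ d ∈ q.divisors.filter (fun d => d ∣ c), ArithmeticFunction.moebius d : ℤ) : ℂ) := by
      push_cast
      rfl
    rw [h4, h2]
    by_cases h5 : Nat.Coprime c q
    · rw [if_pos h5, if_pos h5]
      simp
    · rw [if_neg h5, if_neg h5]
      simp
  rw [Finset.sum_filter, Finset.sum_congr rfl h1, Finset.sum_comm, ArithmeticFunction.mul_apply,
    Nat.sum_divisorsAntidiagonal (fun a b =>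
      ((ArithmeticFunction.moebius : ArithmeticFunction ℤ) : ArithmeticFunction ℂ) a * rmG n b)]
  refine Finset.sum_congr rfl fun d hd => ?_
  obtain ⟨k, hk⟩ := (Nat.mem_divisors.mp hd).1
  have hd0 : 0 < d := Nat.pos_of_mem_divisors hd
  have hk0 : 0 < k := by
    rcases Nat.eq_zero_or_pos k with h | h
    · rw [h, mul_zero] at hk
      omega
    · exact h
  have hqd : q / d = k := by rw [hk, Nat.mul_div_cancel_left _ hd0]
  rw [hqd, ← rm_complete k hk0, ← Finset.sum_filter, Finset.mul_sum, ArithmeticFunction.intCoe_apply]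
  symm
  apply Finset.sum_bij (fun j _ => d * j)
  · intro j hj
    rw [Finset.mem_range] at hj
    rw [Finset.mem_filter, Finset.mem_range, hk]
    exact ⟨Nat.mul_lt_mul_of_pos_left hj hd0, dvd_mul_right _ _⟩
  · intro i _ j _ hij
    exact Nat.eq_of_mul_eq_mul_left hd0 hij
  · intro c hc
    rw [Finset.mem_filter, Finset.mem_range, hk] at hc
    obtain ⟨h6, j, hj⟩ := hc
    refine ⟨j, ?_, hj.symm⟩
    rw [Finset.mem_range]
    rw [hj] at h6
    exact Nat.lt_of_mul_lt_mul_left h6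
  · intro j _
    congr 2
    have hdr : (d : ℝ) ≠ 0 := by positivity
    have hkr : (k : ℝ) ≠ 0 := by positivity
    rw [hk]
    push_cast
    field_simp

theorem gq_eq_exp (q : ℕ) (hq : Squarefree q) (n : ℤ) :
    (gq q n : ℂ) = ((ArithmeticFunction.moebius q : ℤ) : ℂ) / (q.totient : ℂ) *
      ∑ b ∈ (range q).filter (fun b => Nat.Coprime b q), e ((b : ℝ) / q * n) := by
  have h0 : ∀ b ∈ (range q).filter (fun b => Nat.Coprime b q),
      e ((b : ℝ) / q * n) = e ((n : ℝ) / q * b) := by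
    intro b _
    congr 1
    ring
  rw [Finset.sum_congr rfl h0, rm_ramanujan q (Nat.pos_of_ne_zero hq.ne_zero),
    ← (ArithmeticFunction.isMultiplicative_moebius.intCast).prodPrimeFactors_add_of_squarefree
      (rmG_mult n) hq, ArithmeticFunction.prodPrimeFactors_apply hq.ne_zero, rm_moebius q hq]
  have h1 : ((q.totient : ℕ) : ℂ) = ∏ p ∈ q.primeFactors, ((p : ℂ) - 1) := by
    have h2 : (((q.totient : ℝ)) : ℂ) = ((∏ p ∈ q.primeFactors, ((p : ℝ) - 1) : ℝ) : ℂ) := by
      rw [rm_totient q hq]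
    push_cast at h2
    exact h2
  rw [h1]
  unfold gq
  push_cast
  rw [← Finset.prod_div_distrib, ← Finset.prod_mul_distrib]
  refine Finset.prod_congr rfl fun p hp => ?_
  have hpp := Nat.prime_of_mem_primeFactors hp
  have hp1 : (p : ℂ) - 1 ≠ 0 := by
    rw [sub_ne_zero]
    exact_mod_cast hpp.one_lt.ne'
  rw [ArithmeticFunction.add_apply, ArithmeticFunction.intCoe_apply,
    ArithmeticFunction.moebius_apply_prime hpp, rmG_apply]
  split_ifs with h
  · push_cast
    field_simp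
    ring
  · push_cast
    field_simp
    ring

theorem rm_card (q : ℕ) : ((range q).filter (fun b => Nat.Coprime b q)).card = q.totient := by
  rw [Nat.totient_eq_card_coprime]
  congr 1
  refine Finset.filter_congr fun b _ => ?_
  rw [Nat.coprime_comm]

theorem rm_norm_factor (q : ℕ) (hq : Squarefree q) :
    ‖((ArithmeticFunction.moebius q : ℤ) : ℂ) / (q.totient : ℂ)‖ * (q.totient : ℝ) ≤ 1 := by
  have h1 : 0 < (q.totient : ℝ) := by
    exact_mod_cast Nat.totient_pos.2 (Nat.pos_of_ne_zero hq.ne_zero)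
  rw [norm_div, Complex.norm_intCast, Complex.norm_natCast, div_mul_cancel₀ _ h1.ne']
  exact_mod_cast ArithmeticFunction.abs_moebius_le_one

theorem rm_sum_swap (q : ℕ) (hq : Squarefree q) (N : ℕ) (α : ℝ) :
    ∑ n ∈ Icc 1 N, (gq q n : ℂ) * e (n * α) =
      ((ArithmeticFunction.moebius q : ℤ) : ℂ) / (q.totient : ℂ) *
        ∑ b ∈ (range q).filter (fun b => Nat.Coprime b q),
          ∑ n ∈ Icc 1 N, e ((α + (b : ℝ) / q) * n) := by
  rw [Finset.sum_comm, Finset.mul_sum]
  refine Finset.sum_congr rfl fun n _ => ?_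
  rw [gq_eq_exp q hq, mul_assoc, Finset.sum_mul]
  congr 1
  refine Finset.sum_congr rfl fun b _ => ?_
  rw [← e_add]
  congr 1
  push_cast
  ring

theorem sum_gq_exp_le (q : ℕ) (hq : Squarefree q) (N : ℕ) (α η : ℝ) (hη : 0 < η)
    (h : ∀ b : ℤ, IsCoprime b (q : ℤ) → ∀ m : ℤ, η ≤ |α + b / q - m|) :
    ‖∑ n ∈ Icc 1 N, (gq q n : ℂ) * e (n * α)‖ ≤ 1 / (2 * η) := by
  rw [rm_sum_swap q hq, norm_mul]
  have h1 : ‖∑ b ∈ (range q).filter (fun b => Nat.Coprime b q),
      ∑ n ∈ Icc 1 N, e ((α + (b : ℝ) / q) * n)‖ ≤ (q.totient : ℝ) * (1 / (2 * η)) := by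
    refine (norm_sum_le _ _).trans ?_
    rw [← rm_card q, ← nsmul_eq_mul]
    apply Finset.sum_le_card_nsmul
    intro b hb
    rw [Finset.mem_filter] at hb
    refine RE.norm_geom_Icc_le _ _ hη (fun m => ?_) N
    have h2 := h b (Nat.isCoprime_iff_coprime.2 hb.2) m
    simpa using h2
  have h3 := rm_norm_factor q hq
  calc _ ≤ ‖((ArithmeticFunction.moebius q : ℤ) : ℂ) / (q.totient : ℂ)‖ *
        ((q.totient : ℝ) * (1 / (2 * η))) := mul_le_mul_of_nonneg_left h1 (norm_nonneg _)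
    _ = (‖((ArithmeticFunction.moebius q : ℤ) : ℂ) / (q.totient : ℂ)‖ * (q.totient : ℝ)) *
        (1 / (2 * η)) := by ring
    _ ≤ 1 * (1 / (2 * η)) := mul_le_mul_of_nonneg_right h3 (by positivity)
    _ = _ := one_mul _

theorem sum_gq_exp_main (q : ℕ) (hq : Squarefree q) (a : ℤ) (ha : IsCoprime a (q : ℤ)) (N : ℕ) :
    ‖∑ n ∈ Icc 1 N, (gq q n : ℂ) * e (n * ((a : ℝ) / q)) -
      ((ArithmeticFunction.moebius q : ℤ) : ℂ) / (q.totient : ℂ) * N‖ ≤ q := by
  have hq0 : 0 < q := Nat.pos_of_ne_zero hq.ne_zero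
  have hqr : (0 : ℝ) < q := by exact_mod_cast hq0
  have hqz : (0 : ℤ) < q := by exact_mod_cast hq0
  have hb0n : 0 ≤ (-a) % (q : ℤ) := Int.emod_nonneg _ hqz.ne'
  have hb0l : (-a) % (q : ℤ) < q := Int.emod_lt_of_pos _ hqz
  obtain ⟨b0, hb0⟩ : ∃ b0 : ℕ, (b0 : ℤ) = (-a) % (q : ℤ) := ⟨((-a) % (q : ℤ)).toNat, by omega⟩
  have hdiv : (q : ℤ) ∣ a + b0 := by
    rw [hb0]
    have := Int.emod_add_mul_ediv (-a) (q : ℤ)
    exact ⟨-((-a) / (q : ℤ)), by linarith⟩
  have hb0m : b0 ∈ (range q).filter (fun b => Nat.Coprime b q) := by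
    rw [Finset.mem_filter, Finset.mem_range]
    refine ⟨by omega, ?_⟩
    rw [← Nat.isCoprime_iff_coprime]
    obtain ⟨m, hm⟩ := hdiv
    have h1 : (b0 : ℤ) = -a + q * m := by linarith
    rw [h1]
    exact (IsCoprime.neg_left ha).add_mul_left_left m
  have hT0 : ∑ n ∈ Icc 1 N, e (((a : ℝ) / q + (b0 : ℝ) / q) * n) = N := by
    obtain ⟨m, hm⟩ := hdiv
    have h1 : (a : ℝ) / q + (b0 : ℝ) / q = m := by
      rw [← add_div, div_eq_iff hqr.ne']
      have : ((a + b0 : ℤ) : ℝ) = ((q * m : ℤ) : ℝ) := by rw [hm]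
      push_cast at this
      linarith
    have h2 : ∀ n ∈ Icc 1 N, e (((a : ℝ) / q + (b0 : ℝ) / q) * n) = 1 := by
      intro n _
      rw [h1, show (m : ℝ) * (n : ℝ) = ((m * n : ℤ) : ℝ) by push_cast; rfl, e_int]
    rw [Finset.sum_congr rfl h2]
    simp
  rw [rm_sum_swap q hq, ← mul_sub, norm_mul, ← Finset.add_sum_erase _ _ hb0m, hT0,
    add_sub_cancel_left]
  have h1 : ‖∑ b ∈ ((range q).filter (fun b => Nat.Coprime b q)).erase b0,
      ∑ n ∈ Icc 1 N, e (((a : ℝ) / q + (b : ℝ) / q) * n)‖ ≤ (q.totient : ℝ) * q := by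
    refine (norm_sum_le _ _).trans ?_
    have h2 : (((range q).filter (fun b => Nat.Coprime b q)).erase b0).card ≤ q.totient := by
      rw [← rm_card q]
      exact Finset.card_le_card (Finset.erase_subset _ _)
    have h3 : ((((range q).filter (fun b => Nat.Coprime b q)).erase b0).card : ℝ) * q ≤
        (q.totient : ℝ) * q := mul_le_mul_of_nonneg_right (by exact_mod_cast h2) hqr.le
    refine le_trans ?_ h3
    rw [← nsmul_eq_mul]
    apply Finset.sum_le_card_nsmul
    intro b hb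
    rw [Finset.mem_erase, Finset.mem_filter, Finset.mem_range] at hb
    have hnd : ∀ m : ℤ, 1 / (q : ℝ) ≤ |(a : ℝ) / q + (b : ℝ) / q - m| := by
      intro m
      have h4 : a + b - q * m ≠ 0 := by
        intro h5
        apply hb.1
        obtain ⟨m', hm'⟩ := hdiv
        have h6 : (b : ℤ) - b0 = q * (m - m') := by
          rw [mul_sub]
          linarith
        have h7 : |(b : ℤ) - b0| < q := by
          rw [abs_lt]
          constructor <;> omega
        have h8 := Int.eq_zero_of_abs_lt_dvd ⟨_, h6⟩ h7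
        omega
      have h5 : (1 : ℝ) ≤ |((a + b - q * m : ℤ) : ℝ)| := by
        exact_mod_cast Int.one_le_abs h4
      have h6 : (a : ℝ) / q + (b : ℝ) / q - m = ((a + b - q * m : ℤ) : ℝ) / q := by
        push_cast
        field_simp
      rw [h6, abs_div, abs_of_pos hqr]
      exact div_le_div_of_nonneg_right h5 hqr.le
    have h4 := RE.norm_geom_Icc_le _ _ (by positivity) hnd N
    refine h4.trans ?_
    rw [mul_one_div, one_div_div]
    linarith
  have h3 := rm_norm_factor q hq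
  calc _ ≤ ‖((ArithmeticFunction.moebius q : ℤ) : ℂ) / (q.totient : ℂ)‖ *
        ((q.totient : ℝ) * q) := mul_le_mul_of_nonneg_left h1 (norm_nonneg _)
    _ = (‖((ArithmeticFunction.moebius q : ℤ) : ℂ) / (q.totient : ℂ)‖ * (q.totient : ℝ)) *
        q := by ring
    _ ≤ 1 * q := mul_le_mul_of_nonneg_right h3 hqr.le
    _ = _ := one_mul _

/-- `gq` as an arithmetic function of the modulus -/
noncomputable def rmA (n : ℤ) : ArithmeticFunction ℝ :=
  ArithmeticFunction.prodPrimeFactors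
    (fun p => if (p : ℤ) ∣ n then (-1 : ℝ) else 1 / ((p : ℝ) - 1))

theorem rmA_apply (n : ℤ) (d : ℕ) (hd : d ≠ 0) : rmA n d = gq d n := by
  unfold rmA gq
  rw [ArithmeticFunction.prodPrimeFactors_apply hd]

theorem sum_gq_divisors (W : ℕ) (hW : Squarefree W) (n : ℤ) :
    ∑ d ∈ W.divisors, gq d n =
      if IsCoprime n (W : ℤ) then (W : ℝ) / (W.totient : ℝ) else 0 := by
  have h1 : ∑ d ∈ W.divisors, gq d n = ∑ d ∈ W.divisors, rmA n d :=
    Finset.sum_congr rfl fun d hd => (rmA_apply n d (Nat.pos_of_mem_divisors hd).ne').symm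
  have hmult : (rmA n).IsMultiplicative := ArithmeticFunction.IsMultiplicative.prodPrimeFactors _
  rw [h1, ← hmult.prodPrimeFactors_one_add_of_squarefree hW]
  have h2 : ∀ p ∈ W.primeFactors, 1 + rmA n p =
      1 + (if (p : ℤ) ∣ n then (-1 : ℝ) else 1 / ((p : ℝ) - 1)) := by
    intro p hp
    have hpp := Nat.prime_of_mem_primeFactors hp
    rw [rmA_apply n p hpp.ne_zero]
    unfold gq
    rw [hpp.primeFactors, Finset.prod_singleton]
  rw [Finset.prod_congr rfl h2]
  split_ifs with hco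
  · have h3 : ∀ p ∈ W.primeFactors,
        1 + (if (p : ℤ) ∣ n then (-1 : ℝ) else 1 / ((p : ℝ) - 1)) = (p : ℝ) / ((p : ℝ) - 1) := by
      intro p hp
      have hpp := Nat.prime_of_mem_primeFactors hp
      have hp1 : (1 : ℝ) < p := by exact_mod_cast hpp.one_lt
      have hp2 : (p : ℝ) - 1 ≠ 0 := by linarith
      have h4 : ¬ ((p : ℤ) ∣ n) := by
        intro h5
        have h6 : (p : ℤ) ∣ (W : ℤ) := by exact_mod_cast Nat.dvd_of_mem_primeFactors hp
        have h7 := hco.isUnit_of_dvd' h5 h6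
        rw [Int.isUnit_iff] at h7
        have := hpp.two_le
        omega
      rw [if_neg h4]
      field_simp
      ring
    rw [Finset.prod_congr rfl h3, Finset.prod_div_distrib, ← rm_totient W hW]
    congr 1
    rw [← Nat.cast_prod, rm_prod W hW]
  · obtain ⟨p, hp, hpn⟩ : ∃ p ∈ W.primeFactors, (p : ℤ) ∣ n := by
      by_contra hcon
      push Not at hcon
      apply hco
      rw [Int.isCoprime_iff_gcd_eq_one]
      by_contra hg
      obtain ⟨p, hp, hpg⟩ := Nat.exists_prime_and_dvd hg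
      have h5 : (p : ℤ) ∣ n := (Int.natCast_dvd_natCast.2 hpg).trans (Int.gcd_dvd_left _ _)
      have h6 : (p : ℤ) ∣ (W : ℤ) := (Int.natCast_dvd_natCast.2 hpg).trans (Int.gcd_dvd_right _ _)
      exact hcon p (Nat.mem_primeFactors.2 ⟨hp, by exact_mod_cast h6, hW.ne_zero⟩) h5
    apply Finset.prod_eq_zero hp
    rw [if_pos hpn]
    norm_num

end Pool.Agent.Lib.SW
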