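import Pool.Agent.Lib.SW.MinorQ
import Pool.Agent.Lib.SW.RamModel
import Pool.Agent.Lib.SW.SWFinal

/-!
# SW-X: Λ minus its model has small Fourier transform, with any power of log (module X)

PROOFS.
`major_L` (major arcs, exact rational): split n ≤ Y by residue b mod q; b coprime to q: `psi_ap` (exponent k),
∑_{(b,q)=1} e(ab/q) = μ(q) (`GT.RE.ramanujan`); b not coprime: ∑_{(n,q)>1} Λ(n) ≤ ∑_{p | q} log Y ≤ 2 log q log Y ≤ ....
Total error ≤ q C q^ε Y' /(log Y')^k + .. where for 2 ≤ Y ≤ X, Y/(log Y)^k ≤ C_k X/(log X)^k; Y < 2 trivial.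

`fourier_SW`. Given A. A1 := 2A + 9 (so that (log X)^(4 - A1/2) ≤ (log X)^(-A)). Let P1 = (log X)^A1, P2 = (log X)^A2 bound
the elements of Qs, R := X/(log X)^B with B := 2 A2 + A + 1. Let α real; Dirichlet (`Real.exists_int_int_abs_mul_sub_le` /
`Real.exists_rat_abs_sub_le_and_den_le`): coprime a, q with q ≤ R, |α - a/q| ≤ 1/(q R) ≤ 1/q².
Case 1: q ∉ Qs and q > P1. For Λ: `minor_Q` at Y (for Y ≥ √X, else trivial bound): C (Y/√q + Y^(4/5) +
√(Y q)) (log X)^4 ≤ C X (log X)^(4 - A1/2) + .. + X (log X)^(4 - B/2). For the model: for every q' ∈ Qs (q' ≤ P2,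
q' ≠ q, a/q + b/q' is not an integer because the reduced fractions a/q and -b/q' mod 1 have different denominators):
|α + b/q' - m| ≥ 1/(q q') - 1/(q R) ≥ 1/(2 q q') (R ≥ 2 P2 for large X), so `sum_gq_exp_le`: each q' contributes ≤ q q' ≤
R P2; total ≤ P2 · R P2 = X (log X)^(2 A2 - B) ≤ X (log X)^(-A).
Case 2: q ∈ Qs or q ≤ P1 (then q ≤ P2; if q ∉ Qs then q is not squarefree, μ(q) = 0). Write β = α - a/q,
|β| ≤ 1/(qR) ; Abel summation: |∑_{n ≤ Y} f(n) e(nα)| ≤ (1 + 2π |β| X) max_{Y' ≤ Y} |∑_{n ≤ Y'} f(n) e(na/q)| with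
|β| X ≤ (log X)^B. For f = Λ - LQ: `major_L` gives μ(q)/φ(q) Y' + O(P2^2 X/(log X)^k); the model:
`sum_gq_exp_main` for q' = q (if q ∈ Qs) gives μ(q)/φ(q) Y' + O(q), and q' ≠ q: nd(a/q + b/q') ≥ 1/(q q') so ≤ q q'/2 each,
total ≤ P2^3. So everything is ≤ C (log X)^B (P2^2 X/(log X)^k + P2^3) ≤ C X (log X)^(-A) with k = B + 2 A2 + A + 1.
For bounded X (X < X₀(A, A2)) the trivial bound.
`fourier_lam`: |∑_{n≤Y} (Λ(n) - lam n) e(nα)| ≤ ∑ over prime powers p^j, j ≥ 2 ≤ √X log X (+ C).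
`davenport`: μ: Dirichlet with R = X/(log X)^B; q > (log X)^(B'): `minor_Q_mu`; q ≤ (log X)^B': Abel summation and
`mu_ap_exp`: |∑_{n ≤ Y} μ(n) e(na/q)| ≤ C q^(..) X/(log X)^k. (see module Y for the latter)
-/

open Finset Pool.Agent.Lib.GT
open scoped ArithmeticFunction.Moebius ArithmeticFunction.vonMangoldt

namespace Pool.Agent.Lib.SW

/-! ### powers of the logarithm -/

theorem FourierSW_log_pow (k : ℕ) (ε : ℝ) (hε : 0 < ε) :
    ∃ C : ℝ, 0 < C ∧ ∀ x : ℝ, 1 ≤ x → (Real.log x) ^ k ≤ C * x ^ ε := by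
  have hk : (0 : ℝ) < (k : ℝ) + 1 := by positivity
  obtain ⟨δ, hδ⟩ : ∃ δ : ℝ, δ = ε / ((k : ℝ) + 1) := ⟨_, rfl⟩
  have hδ0 : 0 < δ := by rw [hδ]; positivity
  refine ⟨1 / δ ^ k, by positivity, fun x hx => ?_⟩
  have hx0 : 0 ≤ x := by linarith
  have h1 : Real.log x ≤ x ^ δ / δ := Real.log_le_rpow_div hx0 hδ0
  have h2 : 0 ≤ Real.log x := Real.log_nonneg hx
  calc (Real.log x) ^ k ≤ (x ^ δ / δ) ^ k := pow_le_pow_left₀ h2 h1 k
    _ = 1 / δ ^ k * x ^ (δ * k) := by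
        rw [div_pow, ← Real.rpow_natCast (x ^ δ) k, ← Real.rpow_mul hx0]
        ring
    _ ≤ 1 / δ ^ k * x ^ ε := by
        refine mul_le_mul_of_nonneg_left ?_ (by positivity)
        refine Real.rpow_le_rpow_of_exponent_le hx ?_
        rw [hδ, div_mul_eq_mul_div, div_le_iff₀ hk]
        nlinarith

theorem FourierSW_log_pos {x : ℝ} (hx : 2 ≤ x) : 0 < Real.log x := Real.log_pos (by linarith)

theorem FourierSW_log_ge {x : ℝ} (hx : 2 ≤ x) : 1 / 2 ≤ Real.log x := by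
  have h1 := Real.log_two_gt_d9
  have h2 := Real.log_le_log (by norm_num : (0 : ℝ) < 2) hx
  linarith

/-- `x ↦ x / (log x) ^ k` is monotone up to constants -/
theorem FourierSW_mono (k : ℕ) : ∃ C : ℝ, 0 < C ∧ ∀ x y : ℝ, 2 ≤ y → y ≤ x →
    y / (Real.log y) ^ k ≤ C * x / (Real.log x) ^ k := by
  obtain ⟨C0, hC0, h0⟩ := FourierSW_log_pow k (1 / 2) (by norm_num)
  refine ⟨2 ^ k + 2 ^ k * C0, by positivity, fun x y hy hyx => ?_⟩
  have hx : 2 ≤ x := hy.trans hyx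
  have hLy := FourierSW_log_pos hy
  have hLx := FourierSW_log_pos hx
  have hx0 : 0 < x := by linarith
  have hy0 : 0 < y := by linarith
  rcases le_total (Real.sqrt x) y with h | h
  · have h1 : Real.log x ≤ 2 * Real.log y := by
      have h2 : x ≤ y ^ 2 := by
        have h3 := Real.sq_sqrt hx0.le
        have h4 := Real.sqrt_nonneg x
        nlinarith
      have h3 := Real.log_le_log hx0 h2
      rw [Real.log_pow] at h3
      exact_mod_cast h3
    have h2 : (Real.log x) ^ k ≤ 2 ^ k * (Real.log y) ^ k := by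
      rw [← mul_pow]
      exact pow_le_pow_left₀ hLx.le h1 k
    rw [div_le_div_iff₀ (pow_pos hLy k) (pow_pos hLx k)]
    have h3 : y * (Real.log x) ^ k ≤ x * (2 ^ k * (Real.log y) ^ k) :=
      mul_le_mul hyx h2 (pow_nonneg hLx.le k) hx0.le
    have h4 : 0 ≤ 2 ^ k * C0 * x * (Real.log y) ^ k := by positivity
    nlinarith
  · have h1 : 1 / 2 ≤ Real.log y := FourierSW_log_ge hy
    have h2 : y / (Real.log y) ^ k ≤ Real.sqrt x * 2 ^ k := by
      have h3 : (1 / 2 : ℝ) ^ k ≤ (Real.log y) ^ k := pow_le_pow_left₀ (by norm_num) h1 k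
      rw [div_le_iff₀ (pow_pos hLy k)]
      have h4 : (1 : ℝ) ≤ 2 ^ k * (Real.log y) ^ k := by
        calc (1 : ℝ) = 2 ^ k * (1 / 2) ^ k := by rw [← mul_pow]; norm_num
          _ ≤ _ := mul_le_mul_of_nonneg_left h3 (by positivity)
      calc y ≤ Real.sqrt x := h
        _ = Real.sqrt x * 1 := by ring
        _ ≤ Real.sqrt x * (2 ^ k * (Real.log y) ^ k) :=
            mul_le_mul_of_nonneg_left h4 (Real.sqrt_nonneg x)
        _ = _ := by ring
    have h3 := h0 x (by linarith)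
    rw [← Real.sqrt_eq_rpow] at h3
    have h4 : Real.sqrt x ≤ C0 * x / (Real.log x) ^ k := by
      rw [le_div_iff₀ (pow_pos hLx k)]
      calc Real.sqrt x * (Real.log x) ^ k ≤ Real.sqrt x * (C0 * Real.sqrt x) :=
            mul_le_mul_of_nonneg_left h3 (Real.sqrt_nonneg x)
        _ = C0 * (Real.sqrt x * Real.sqrt x) := by ring
        _ = C0 * x := by rw [Real.mul_self_sqrt hx0.le]
    calc y / (Real.log y) ^ k ≤ Real.sqrt x * 2 ^ k := h2
      _ ≤ C0 * x / (Real.log x) ^ k * 2 ^ k := mul_le_mul_of_nonneg_right h4 (by positivity)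
      _ ≤ (2 ^ k + 2 ^ k * C0) * x / (Real.log x) ^ k := by
          rw [div_mul_eq_mul_div]
          refine div_le_div_of_nonneg_right ?_ (pow_pos hLx k).le
          have : 0 ≤ (2 : ℝ) ^ k * x := by positivity
          nlinarith

/-! ### von Mangoldt sums over integers not coprime to `q` -/

theorem FourierSW_noncop (Y q : ℕ) (hq : 1 ≤ q) :
    ∑ n ∈ (Icc 1 Y).filter (fun n => ¬ Nat.Coprime n q), Λ n ≤
      (q : ℝ) * ((Nat.log 2 Y : ℝ) + 1) * Real.log Y := by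
  have h1 : ∑ n ∈ (Icc 1 Y).filter (fun n => ¬ Nat.Coprime n q), Λ n ≤
      ∑ n ∈ (q.primeFactors ×ˢ range (Nat.log 2 Y + 1)).image (fun x => x.1 ^ x.2),
        Real.log Y := by
    have h2 : ∑ n ∈ (Icc 1 Y).filter (fun n => ¬ Nat.Coprime n q), Λ n =
        ∑ n ∈ ((Icc 1 Y).filter (fun n => ¬ Nat.Coprime n q)).filter (fun n => Λ n ≠ 0),
          Λ n := (sum_filter_ne_zero _).symm
    rw [h2]
    refine (sum_le_sum_of_subset_of_nonneg (t := ((q.primeFactors ×ˢ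
      range (Nat.log 2 Y + 1)).image (fun x => x.1 ^ x.2)).filter (fun n => 1 ≤ n ∧ n ≤ Y)) ?_
      fun n _ _ => ArithmeticFunction.vonMangoldt_nonneg).trans ?_
    · intro n hn
      rw [mem_filter, mem_filter, mem_Icc] at hn
      obtain ⟨⟨⟨hn1, hn2⟩, hnc⟩, hL⟩ := hn
      rw [mem_filter]
      refine ⟨?_, hn1, hn2⟩
      rw [ArithmeticFunction.vonMangoldt_ne_zero_iff, isPrimePow_nat_iff] at hL
      obtain ⟨p, j, hp, hj, rfl⟩ := hL
      rw [mem_image]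
      refine ⟨(p, j), ?_, rfl⟩
      rw [mem_product]
      constructor
      · rw [Nat.mem_primeFactors]
        refine ⟨hp, ?_, by omega⟩
        by_contra hc
        exact hnc ((Nat.Coprime.pow_left j ((Nat.Prime.coprime_iff_not_dvd hp).2 hc)))
      · rw [mem_range]
        show j < Nat.log 2 Y + 1
        have h3 : 2 ^ j ≤ Y := (Nat.pow_le_pow_left hp.two_le j).trans hn2
        have h4 : j ≤ Nat.log 2 Y := Nat.le_log_of_pow_le (by norm_num) h3
        omega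
    · refine (sum_le_sum (g := fun _ => Real.log Y) fun n hn => ?_).trans ?_
      · rw [mem_filter] at hn
        refine ArithmeticFunction.vonMangoldt_le_log.trans ?_
        exact Real.log_le_log (by exact_mod_cast hn.2.1) (by exact_mod_cast hn.2.2)
      · refine sum_le_sum_of_subset_of_nonneg (filter_subset _ _) fun _ _ _ => ?_
        exact Real.log_natCast_nonneg Y
  refine h1.trans ?_
  rw [sum_const, nsmul_eq_mul]
  refine mul_le_mul_of_nonneg_right ?_ (Real.log_natCast_nonneg Y)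
  have h2 : ((q.primeFactors ×ˢ range (Nat.log 2 Y + 1)).image (fun x => x.1 ^ x.2)).card ≤
      q * (Nat.log 2 Y + 1) := by
    refine card_image_le.trans ?_
    rw [card_product, card_range]
    refine Nat.mul_le_mul_right _ ?_
    have h3 : q.primeFactors ⊆ Icc 1 q := by
      intro p hp
      rw [mem_Icc]
      exact ⟨(Nat.prime_of_mem_primeFactors hp).one_lt.le,
        Nat.le_of_dvd (by omega) (Nat.dvd_of_mem_primeFactors hp)⟩
    have h4 := card_le_card h3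
    rw [Nat.card_Icc] at h4
    omega
  exact_mod_cast h2

theorem FourierSW_noncop' (Y q : ℕ) (hq : 1 ≤ q) (hY : 2 ≤ Y) :
    ∑ n ∈ (Icc 1 Y).filter (fun n => ¬ Nat.Coprime n q), Λ n ≤
      4 * (q : ℝ) * (Real.log Y) ^ 2 := by
  refine (FourierSW_noncop Y q hq).trans ?_
  have hY' : (2 : ℝ) ≤ Y := by exact_mod_cast hY
  have h1 : (Nat.log 2 Y : ℝ) ≤ Real.log Y / Real.log 2 := by
    have := Real.natLog_le_logb Y 2
    rw [Real.logb] at this
    exact_mod_cast this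
  have h2 := Real.log_two_gt_d9
  have h3 : Real.log 2 ≤ Real.log Y := Real.log_le_log (by norm_num) hY'
  have h4 : (Nat.log 2 Y : ℝ) + 1 ≤ 4 * Real.log Y := by
    have h5 : Real.log Y / Real.log 2 ≤ 2 * Real.log Y := by
      rw [div_le_iff₀ (by linarith)]
      nlinarith
    linarith
  have h5 : 0 ≤ (q : ℝ) := Nat.cast_nonneg q
  have h6 : 0 ≤ Real.log Y := by linarith
  calc (q : ℝ) * ((Nat.log 2 Y : ℝ) + 1) * Real.log Y ≤ (q : ℝ) * (4 * Real.log Y) * Real.log Y :=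
        mul_le_mul_of_nonneg_right (mul_le_mul_of_nonneg_left h4 h5) h6
    _ = 4 * (q : ℝ) * (Real.log Y) ^ 2 := by ring

theorem FourierSW_e_mod (a : ℤ) (q n b : ℕ) (hq : 1 ≤ q) (h : n ≡ b [MOD q]) :
    e (n * ((a : ℝ) / q)) = e ((a : ℝ) / q * b) := by
  have hq0 : (q : ℝ) ≠ 0 := by positivity
  have h1 : (n : ℤ) ≡ (b : ℤ) [ZMOD (q : ℤ)] := Int.natCast_modEq_iff.2 h
  obtain ⟨m, hm⟩ := h1.dvd
  have h2 : (n : ℝ) = (b : ℝ) - (q : ℝ) * (m : ℝ) := by
    have h3 : (n : ℤ) = (b : ℤ) - (q : ℤ) * m := by linarith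
    exact_mod_cast congrArg (fun z : ℤ => (z : ℝ)) h3
  have h3 : (n : ℝ) * ((a : ℝ) / q) = (a : ℝ) / q * b + ((-(a * m) : ℤ) : ℝ) := by
    rw [h2]
    push_cast
    field_simp
    ring
  rw [h3, e_add_int]

theorem major_L (k : ℕ) :
    ∃ C : ℝ, 0 < C ∧ ∀ (X Y q : ℕ) (a : ℤ), 2 ≤ X → Y ≤ X → 1 ≤ q → IsCoprime a (q : ℤ) →
      ‖∑ n ∈ Icc 1 Y, ((Λ n : ℝ) : ℂ) * e (n * ((a : ℝ) / q)) -
        ((ArithmeticFunction.moebius q : ℤ) : ℂ) / (q.totient : ℂ) * Y‖ ≤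
          C * (q : ℝ) ^ 2 * X / (Real.log X) ^ k := by
  obtain ⟨C1, hC1, h1⟩ := psi_ap k 1 one_pos
  obtain ⟨C2, hC2, h2⟩ := FourierSW_mono k
  obtain ⟨C3, hC3, h3⟩ := FourierSW_log_pow (k + 2) 1 one_pos
  obtain ⟨C4, hC4, h4⟩ := FourierSW_log_pow k 1 one_pos
  refine ⟨C1 * C2 + 4 * C3 + C4, by positivity, fun X Y q a hX hY hq ha => ?_⟩
  have hq0 : (0 : ℝ) < q := by exact_mod_cast hq
  have hq1 : (1 : ℝ) ≤ q := by exact_mod_cast hq
  have hq2 : (1 : ℝ) ≤ (q : ℝ) ^ 2 := one_le_pow₀ hq1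
  have hqq : (q : ℝ) ≤ (q : ℝ) ^ 2 := by nlinarith
  have hX' : (2 : ℝ) ≤ X := by exact_mod_cast hX
  have hX0 : (0 : ℝ) < X := by linarith
  have hL := FourierSW_log_pos hX'
  have hLk : 0 < (Real.log X) ^ k := pow_pos hL k
  have htot : 0 < q.totient := Nat.totient_pos.2 (by omega)
  have htot1 : (1 : ℝ) ≤ q.totient := by exact_mod_cast htot
  have hmu : ‖((ArithmeticFunction.moebius q : ℤ) : ℂ)‖ ≤ 1 := by
    rw [Complex.norm_intCast]
    exact_mod_cast ArithmeticFunction.abs_moebius_le_one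
  rcases lt_or_ge Y 2 with hY2 | hY2
  · have h5 : ∑ n ∈ Icc 1 Y, ((Λ n : ℝ) : ℂ) * e (n * ((a : ℝ) / q)) = 0 := by
      refine sum_eq_zero fun n hn => ?_
      rw [mem_Icc] at hn
      have : n = 1 := by omega
      rw [this]
      simp
    rw [h5, zero_sub, norm_neg, norm_mul, norm_div, Complex.norm_natCast, Complex.norm_natCast]
    have h6 : ‖((ArithmeticFunction.moebius q : ℤ) : ℂ)‖ / (q.totient : ℝ) ≤ 1 := by
      rw [div_le_one (by linarith)]
      linarith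
    have h7 : (Y : ℝ) ≤ 1 := by
      have : Y ≤ 1 := by omega
      exact_mod_cast this
    have h8 : ‖((ArithmeticFunction.moebius q : ℤ) : ℂ)‖ / (q.totient : ℝ) * (Y : ℝ) ≤ 1 * 1 :=
      mul_le_mul h6 h7 (Nat.cast_nonneg _) zero_le_one
    refine h8.trans ?_
    rw [one_mul, le_div_iff₀ hLk, one_mul]
    have h9 := h4 X (by linarith)
    rw [Real.rpow_one] at h9
    calc (Real.log X) ^ k ≤ C4 * X := h9
      _ = C4 * 1 * X := by ring
      _ ≤ (C1 * C2 + 4 * C3 + C4) * (q : ℝ) ^ 2 * X := by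
          refine mul_le_mul_of_nonneg_right ?_ hX0.le
          refine mul_le_mul ?_ hq2 zero_le_one (by positivity)
          have : 0 < C1 * C2 := mul_pos hC1 hC2
          linarith
  · have hY' : (2 : ℝ) ≤ Y := by exact_mod_cast hY2
    have hYX : (Y : ℝ) ≤ X := by exact_mod_cast hY
    have hLY := FourierSW_log_pos hY'
    -- split
    have hsplit := sum_filter_add_sum_filter_not (Icc 1 Y) (fun n => Nat.Coprime n q)
      (fun n => ((Λ n : ℝ) : ℂ) * e (n * ((a : ℝ) / q)))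
    rw [← hsplit]
    have hnc : ‖∑ n ∈ (Icc 1 Y).filter (fun n => ¬ Nat.Coprime n q),
        ((Λ n : ℝ) : ℂ) * e (n * ((a : ℝ) / q))‖ ≤ 4 * (q : ℝ) * (Real.log Y) ^ 2 := by
      refine (norm_sum_le _ _).trans ?_
      refine le_trans (le_of_eq (sum_congr rfl fun n _ => ?_)) (FourierSW_noncop' Y q hq hY2)
      rw [norm_mul, norm_e, mul_one, Complex.norm_real, Real.norm_of_nonneg
        ArithmeticFunction.vonMangoldt_nonneg]
    -- the coprime classes
    have hcop : ∑ n ∈ (Icc 1 Y).filter (fun n => Nat.Coprime n q),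
        ((Λ n : ℝ) : ℂ) * e (n * ((a : ℝ) / q)) =
        ∑ b ∈ (range q).filter (fun b => Nat.Coprime b q), e ((a : ℝ) / q * b) *
          (((∑ n ∈ (Icc 1 Y).filter (fun n => n ≡ b [MOD q]), Λ n : ℝ)) : ℂ) := by
      rw [← sum_fiberwise_of_maps_to (s := (Icc 1 Y).filter (fun n => Nat.Coprime n q))
        (t := (range q).filter (fun b => Nat.Coprime b q)) (g := fun n => n % q)]
      · refine sum_congr rfl fun b hb => ?_
        rw [mem_filter, mem_range] at hb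
        rw [Complex.ofReal_sum, mul_sum]
        have hset : ((Icc 1 Y).filter (fun n => Nat.Coprime n q)).filter (fun n => n % q = b) =
            (Icc 1 Y).filter (fun n => n ≡ b [MOD q]) := by
          rw [filter_filter]
          refine filter_congr fun n _ => ?_
          have hbq : b % q = b := Nat.mod_eq_of_lt hb.1
          constructor
          · rintro ⟨_, h5⟩
            show n % q = b % q
            rw [hbq, h5]
          · intro h5
            have h6 : n % q = b := by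
              have : n % q = b % q := h5
              rw [this, hbq]
            refine ⟨?_, h6⟩
            rw [← h6] at hb
            have h7 := hb.2
            rw [Nat.coprime_iff_gcd_eq_one, ← Nat.gcd_rec, Nat.gcd_comm] at h7
            exact h7
        rw [hset]
        refine sum_congr rfl fun n hn => ?_
        rw [mem_filter] at hn
        rw [FourierSW_e_mod a q n b hq hn.2]
        ring
      · intro n hn
        rw [mem_filter] at hn
        rw [mem_filter, mem_range]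
        refine ⟨Nat.mod_lt _ hq, ?_⟩
        show Nat.Coprime (n % q) q
        have h7 := hn.2
        rw [Nat.coprime_iff_gcd_eq_one, ← Nat.gcd_rec, Nat.gcd_comm]
        exact h7
    have hram := GT.RE.ramanujan q hq a ha
    have hmain : ‖∑ n ∈ (Icc 1 Y).filter (fun n => Nat.Coprime n q),
        ((Λ n : ℝ) : ℂ) * e (n * ((a : ℝ) / q)) -
        ((ArithmeticFunction.moebius q : ℤ) : ℂ) / (q.totient : ℂ) * Y‖ ≤
          C1 * (q : ℝ) ^ 2 * (Y / (Real.log Y) ^ k) := by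
      have h5 : ∑ n ∈ (Icc 1 Y).filter (fun n => Nat.Coprime n q),
          ((Λ n : ℝ) : ℂ) * e (n * ((a : ℝ) / q)) -
          ((ArithmeticFunction.moebius q : ℤ) : ℂ) / (q.totient : ℂ) * Y =
          ∑ b ∈ (range q).filter (fun b => Nat.Coprime b q), e ((a : ℝ) / q * b) *
          (((∑ n ∈ (Icc 1 Y).filter (fun n => n ≡ b [MOD q]), Λ n -
            (Y : ℝ) / (q.totient : ℝ) : ℝ)) : ℂ) := by
        rw [hcop, ← hram, sum_div, sum_mul, ← sum_sub_distrib]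
        refine sum_congr rfl fun b _ => ?_
        push_cast
        ring
      rw [h5]
      refine (norm_sum_le _ _).trans ?_
      have h6 : ∀ b ∈ (range q).filter (fun b => Nat.Coprime b q),
          ‖e ((a : ℝ) / q * b) * (((∑ n ∈ (Icc 1 Y).filter (fun n => n ≡ b [MOD q]), Λ n -
            (Y : ℝ) / (q.totient : ℝ) : ℝ)) : ℂ)‖ ≤ C1 * (q : ℝ) * Y / (Real.log Y) ^ k := by
        intro b hb
        rw [mem_filter] at hb
        rw [norm_mul, norm_e, one_mul, Complex.norm_real, Real.norm_eq_abs]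
        have h7 := h1 q b hq hb.2 Y hY'
        rw [Nat.floor_natCast, Real.rpow_one] at h7
        exact h7
      refine (sum_le_card_nsmul _ _ _ h6).trans ?_
      rw [nsmul_eq_mul]
      have h7 : (((range q).filter (fun b => Nat.Coprime b q)).card : ℝ) ≤ q := by
        have := card_filter_le (range q) (fun b => Nat.Coprime b q)
        rw [card_range] at this
        exact_mod_cast this
      have h8 : 0 ≤ C1 * (q : ℝ) * Y / (Real.log Y) ^ k := by positivity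
      calc (((range q).filter (fun b => Nat.Coprime b q)).card : ℝ) *
            (C1 * (q : ℝ) * Y / (Real.log Y) ^ k) ≤ q * (C1 * (q : ℝ) * Y / (Real.log Y) ^ k) :=
            mul_le_mul_of_nonneg_right h7 h8
        _ = C1 * (q : ℝ) ^ 2 * (Y / (Real.log Y) ^ k) := by ring
    have hlogY : (Real.log Y) ^ 2 ≤ C3 * X / (Real.log X) ^ k := by
      rw [le_div_iff₀ hLk]
      have h5 := h3 X (by linarith)
      rw [Real.rpow_one] at h5
      have h6 : Real.log Y ≤ Real.log X := Real.log_le_log (by linarith) hYX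
      calc (Real.log Y) ^ 2 * (Real.log X) ^ k ≤ (Real.log X) ^ 2 * (Real.log X) ^ k :=
            mul_le_mul_of_nonneg_right (pow_le_pow_left₀ hLY.le h6 2) hLk.le
        _ = (Real.log X) ^ (k + 2) := by ring
        _ ≤ C3 * X := h5
    have hm := h2 X Y hY' hYX
    calc ‖∑ n ∈ (Icc 1 Y).filter (fun n => Nat.Coprime n q),
          ((Λ n : ℝ) : ℂ) * e (n * ((a : ℝ) / q)) +
          ∑ n ∈ (Icc 1 Y).filter (fun n => ¬ Nat.Coprime n q),
            ((Λ n : ℝ) : ℂ) * e (n * ((a : ℝ) / q)) -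
          ((ArithmeticFunction.moebius q : ℤ) : ℂ) / (q.totient : ℂ) * Y‖
        = ‖(∑ n ∈ (Icc 1 Y).filter (fun n => Nat.Coprime n q),
          ((Λ n : ℝ) : ℂ) * e (n * ((a : ℝ) / q)) -
          ((ArithmeticFunction.moebius q : ℤ) : ℂ) / (q.totient : ℂ) * Y) +
          ∑ n ∈ (Icc 1 Y).filter (fun n => ¬ Nat.Coprime n q),
            ((Λ n : ℝ) : ℂ) * e (n * ((a : ℝ) / q))‖ := by
          congr 1
          ring
      _ ≤ C1 * (q : ℝ) ^ 2 * (Y / (Real.log Y) ^ k) + 4 * (q : ℝ) * (Real.log Y) ^ 2 :=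
          (norm_add_le _ _).trans (add_le_add hmain hnc)
      _ ≤ C1 * (q : ℝ) ^ 2 * (C2 * X / (Real.log X) ^ k) +
          4 * (q : ℝ) ^ 2 * (C3 * X / (Real.log X) ^ k) := by
          refine add_le_add (mul_le_mul_of_nonneg_left hm (by positivity)) ?_
          refine mul_le_mul ?_ hlogY (by positivity) (by positivity)
          linarith
      _ ≤ (C1 * C2 + 4 * C3 + C4) * (q : ℝ) ^ 2 * X / (Real.log X) ^ k := by
          have h5 : C1 * (q : ℝ) ^ 2 * (C2 * X / (Real.log X) ^ k) +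
              4 * (q : ℝ) ^ 2 * (C3 * X / (Real.log X) ^ k) =
              (C1 * C2 + 4 * C3) * (q : ℝ) ^ 2 * X / (Real.log X) ^ k := by ring
          rw [h5]
          refine div_le_div_of_nonneg_right ?_ hLk.le
          refine mul_le_mul_of_nonneg_right ?_ hX0.le
          refine mul_le_mul_of_nonneg_right ?_ (by positivity)
          linarith

/-! ### Abel summation -/

theorem FourierSW_abel_id (f : ℕ → ℂ) (g : ℕ → ℂ) (Y : ℕ) :
    ∑ n ∈ Icc 1 Y, f n * g n = (∑ n ∈ Icc 1 Y, f n) * g Y -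
      ∑ m ∈ range Y, (∑ n ∈ Icc 1 m, f n) * (g (m + 1) - g m) := by
  induction Y with
  | zero => simp
  | succ Y ih =>
    rw [sum_Icc_succ_top (by omega), sum_Icc_succ_top (by omega), ih, sum_range_succ]
    ring

theorem FourierSW_abel (f : ℕ → ℂ) (β M : ℝ) (Y : ℕ)
    (hM : ∀ Z : ℕ, Z ≤ Y → ‖∑ n ∈ Icc 1 Z, f n‖ ≤ M) :
    ‖∑ n ∈ Icc 1 Y, f n * e (n * β)‖ ≤ (1 + 2 * Real.pi * |β| * Y) * M := by
  rw [FourierSW_abel_id]
  have h1 : ‖(∑ n ∈ Icc 1 Y, f n) * e (Y * β)‖ ≤ M := by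
    rw [norm_mul, norm_e, mul_one]
    exact hM Y le_rfl
  have h2 : ∀ m ∈ range Y, ‖(∑ n ∈ Icc 1 m, f n) *
      (e (((m + 1 : ℕ) : ℝ) * β) - e ((m : ℝ) * β))‖ ≤ M * (2 * Real.pi * |β|) := by
    intro m hm
    rw [mem_range] at hm
    rw [norm_mul]
    refine mul_le_mul (hM m hm.le) ?_ (norm_nonneg _) ((norm_nonneg _).trans (hM m hm.le))
    have h3 : e (((m + 1 : ℕ) : ℝ) * β) - e ((m : ℝ) * β) = e ((m : ℝ) * β) * (e β - 1) := by
      rw [mul_sub, mul_one, ← e_add]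
      congr 2
      push_cast
      ring
    rw [h3, norm_mul, norm_e, one_mul]
    exact GT.RE.norm_e_sub_one_le β
  have h3 := (norm_sum_le _ _).trans (sum_le_card_nsmul _ _ _ h2)
  rw [card_range, nsmul_eq_mul] at h3
  calc ‖(∑ n ∈ Icc 1 Y, f n) * e (Y * β) -
        ∑ m ∈ range Y, (∑ n ∈ Icc 1 m, f n) * (e (((m + 1 : ℕ) : ℝ) * β) - e ((m : ℝ) * β))‖
      ≤ M + Y * (M * (2 * Real.pi * |β|)) := (norm_sub_le _ _).trans (add_le_add h1 h3)
    _ = _ := by ring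

/-! ### the model away from its poles -/

theorem FourierSW_far (q' q : ℕ) (hq' : Squarefree q') (hq : 1 ≤ q) (a : ℤ)
    (ha : IsCoprime a (q : ℤ)) (hne : q' ≠ q) (α : ℝ)
    (hα : |α - a / q| ≤ 1 / (2 * (q : ℝ) * q')) (Y : ℕ) :
    ‖∑ n ∈ Icc 1 Y, (gq q' n : ℂ) * e (n * α)‖ ≤ (q : ℝ) * q' := by
  have hq'1 : 1 ≤ q' := Nat.one_le_iff_ne_zero.2 hq'.ne_zero
  have hq0 : (0 : ℝ) < q := by exact_mod_cast hq
  have hq'0 : (0 : ℝ) < q' := by exact_mod_cast hq'1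
  have h1 := sum_gq_exp_le q' hq' Y α (1 / (2 * (q : ℝ) * q')) (by positivity) ?_
  · have h2 : 1 / (2 * (1 / (2 * (q : ℝ) * q'))) = (q : ℝ) * q' := by
      field_simp
    rw [h2] at h1
    exact h1
  · intro b hb m
    have h2 : a * (q' : ℤ) + b * (q : ℤ) - m * ((q : ℤ) * (q' : ℤ)) ≠ 0 := by
      intro h3
      apply hne
      have h4 : (q : ℤ) ∣ a * (q' : ℤ) := ⟨m * q' - b, by linarith⟩
      have h5 : (q' : ℤ) ∣ b * (q : ℤ) := ⟨m * q - a, by linarith⟩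
      have h6 : (q : ℤ) ∣ (q' : ℤ) := (IsCoprime.dvd_of_dvd_mul_left ha.symm h4)
      have h7 : (q' : ℤ) ∣ (q : ℤ) := (IsCoprime.dvd_of_dvd_mul_left hb.symm h5)
      exact Nat.dvd_antisymm (Int.natCast_dvd_natCast.1 h7) (Int.natCast_dvd_natCast.1 h6)
    have h3 : (1 : ℝ) ≤ |((a * (q' : ℤ) + b * (q : ℤ) - m * ((q : ℤ) * (q' : ℤ)) : ℤ) : ℝ)| := by
      exact_mod_cast Int.one_le_abs h2
    have h4 : (a : ℝ) / q + b / q' - m =
        ((a * (q' : ℤ) + b * (q : ℤ) - m * ((q : ℤ) * (q' : ℤ)) : ℤ) : ℝ) / (q * q') := by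
      push_cast
      field_simp
    have h5 : 1 / ((q : ℝ) * q') ≤ |(a : ℝ) / q + b / q' - m| := by
      rw [h4, abs_div, abs_of_pos (by positivity : (0 : ℝ) < q * q')]
      exact div_le_div_of_nonneg_right h3 (by positivity)
    have h6 : |(a : ℝ) / q + b / q' - m| ≤ |α + b / q' - m| + |α - a / q| := by
      have h7 : (a : ℝ) / q + b / q' - m = (α + b / q' - m) - (α - a / q) := by ring
      rw [h7]
      exact abs_sub _ _
    have h7 : 1 / ((q : ℝ) * q') = 1 / (2 * (q : ℝ) * q') + 1 / (2 * (q : ℝ) * q') := by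
      field_simp
      ring
    linarith

theorem FourierSW_card (Qs : Finset ℕ) (P : ℝ) (hP : 0 ≤ P)
    (h : ∀ q ∈ Qs, Squarefree q ∧ (q : ℝ) ≤ P) : (Qs.card : ℝ) ≤ P := by
  have h1 : Qs ⊆ Icc 1 ⌊P⌋₊ := by
    intro q hq
    rw [mem_Icc]
    exact ⟨Nat.one_le_iff_ne_zero.2 (h q hq).1.ne_zero, Nat.le_floor (h q hq).2⟩
  have h2 := card_le_card h1
  rw [Nat.card_Icc, Nat.add_sub_cancel] at h2
  exact (Nat.cast_le.2 h2).trans (Nat.floor_le hP)

theorem FourierSW_LQ_sum (Qs : Finset ℕ) (Y : ℕ) (α : ℝ) :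
    ∑ n ∈ Icc 1 Y, ((LQ Qs n : ℝ) : ℂ) * e (n * α) =
      ∑ q ∈ Qs, ∑ n ∈ Icc 1 Y, (gq q n : ℂ) * e (n * α) := by
  rw [sum_comm]
  refine sum_congr rfl fun n _ => ?_
  unfold LQ
  rw [Complex.ofReal_sum, sum_mul]

theorem FourierSW_abs_LQ_le (Qs : Finset ℕ) (n : ℤ) : |LQ Qs n| ≤ Qs.card := by
  unfold LQ
  refine (abs_sum_le_sum_abs _ _).trans ?_
  refine (sum_le_card_nsmul _ _ 1 fun q _ => abs_gq_le q n).trans ?_
  rw [nsmul_eq_mul, mul_one]

/-- the model, all moduli different from `q` -/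
theorem FourierSW_far_sum (Qs : Finset ℕ) (P : ℝ) (hP : 0 ≤ P)
    (h : ∀ q' ∈ Qs, Squarefree q' ∧ (q' : ℝ) ≤ P) (q : ℕ) (hq : 1 ≤ q) (hqQ : q ∉ Qs) (a : ℤ)
    (ha : IsCoprime a (q : ℤ)) (α : ℝ)
    (hα : ∀ q' ∈ Qs, |α - a / q| ≤ 1 / (2 * (q : ℝ) * q')) (Y : ℕ) :
    ‖∑ n ∈ Icc 1 Y, ((LQ Qs n : ℝ) : ℂ) * e (n * α)‖ ≤ (q : ℝ) * P ^ 2 := by
  rw [FourierSW_LQ_sum]
  have hq0 : (0 : ℝ) ≤ q := Nat.cast_nonneg q
  have h1 : ∀ q' ∈ Qs, ‖∑ n ∈ Icc 1 Y, (gq q' n : ℂ) * e (n * α)‖ ≤ (q : ℝ) * P := by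
    intro q' hq'
    refine (FourierSW_far q' q (h q' hq').1 hq a ha ?_ α (hα q' hq') Y).trans ?_
    · rintro rfl
      exact hqQ hq'
    · exact mul_le_mul_of_nonneg_left (h q' hq').2 hq0
  refine (norm_sum_le _ _).trans ((sum_le_card_nsmul _ _ _ h1).trans ?_)
  rw [nsmul_eq_mul]
  have h2 := FourierSW_card Qs P hP h
  calc (Qs.card : ℝ) * ((q : ℝ) * P) ≤ P * ((q : ℝ) * P) :=
        mul_le_mul_of_nonneg_right h2 (mul_nonneg hq0 hP)
    _ = (q : ℝ) * P ^ 2 := by ring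

/-- the model at a rational point -/
theorem FourierSW_near (Qs : Finset ℕ) (P : ℝ) (hP : 0 ≤ P)
    (h : ∀ q' ∈ Qs, Squarefree q' ∧ (q' : ℝ) ≤ P) (q : ℕ) (hq : 1 ≤ q)
    (hqQ : q ∈ Qs ∨ ¬ Squarefree q) (a : ℤ) (ha : IsCoprime a (q : ℤ)) (Y : ℕ) :
    ‖∑ n ∈ Icc 1 Y, ((LQ Qs n : ℝ) : ℂ) * e (n * ((a : ℝ) / q)) -
      ((ArithmeticFunction.moebius q : ℤ) : ℂ) / (q.totient : ℂ) * Y‖ ≤ (q : ℝ) * (1 + P ^ 2) := by
  have hq0 : (0 : ℝ) ≤ q := Nat.cast_nonneg q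
  have hα : ∀ (Q : Finset ℕ), ∀ q' ∈ Q, |(a : ℝ) / q - a / q| ≤ 1 / (2 * (q : ℝ) * q') := by
    intro Q q' _
    rw [sub_self, abs_zero]
    positivity
  by_cases hin : q ∈ Qs
  · have h1 : ∑ n ∈ Icc 1 Y, ((LQ Qs n : ℝ) : ℂ) * e (n * ((a : ℝ) / q)) =
        ∑ n ∈ Icc 1 Y, (gq q n : ℂ) * e (n * ((a : ℝ) / q)) +
          ∑ n ∈ Icc 1 Y, ((LQ (Qs.erase q) n : ℝ) : ℂ) * e (n * ((a : ℝ) / q)) := by
      rw [FourierSW_LQ_sum, FourierSW_LQ_sum]
      exact (add_sum_erase Qs (fun q' => ∑ n ∈ Icc 1 Y, (gq q' n : ℂ) * e (n * ((a : ℝ) / q)))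
        hin).symm
    have h2 := FourierSW_far_sum (Qs.erase q) P hP (fun q' hq' => h q' (mem_of_mem_erase hq')) q hq
      (notMem_erase q Qs) a ha _ (hα _) Y
    have h3 := sum_gq_exp_main q (h q hin).1 a ha Y
    rw [h1]
    calc ‖∑ n ∈ Icc 1 Y, (gq q n : ℂ) * e (n * ((a : ℝ) / q)) +
          ∑ n ∈ Icc 1 Y, ((LQ (Qs.erase q) n : ℝ) : ℂ) * e (n * ((a : ℝ) / q)) -
          ((ArithmeticFunction.moebius q : ℤ) : ℂ) / (q.totient : ℂ) * Y‖
        = ‖(∑ n ∈ Icc 1 Y, (gq q n : ℂ) * e (n * ((a : ℝ) / q)) -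
          ((ArithmeticFunction.moebius q : ℤ) : ℂ) / (q.totient : ℂ) * Y) +
          ∑ n ∈ Icc 1 Y, ((LQ (Qs.erase q) n : ℝ) : ℂ) * e (n * ((a : ℝ) / q))‖ := by
          congr 1
          ring
      _ ≤ (q : ℝ) + (q : ℝ) * P ^ 2 := (norm_add_le _ _).trans (add_le_add h3 h2)
      _ = (q : ℝ) * (1 + P ^ 2) := by ring
  · have hns : ¬ Squarefree q := by
      rcases hqQ with h1 | h1
      · exact absurd h1 hin
      · exact h1
    rw [ArithmeticFunction.moebius_eq_zero_of_not_squarefree hns]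
    rw [Int.cast_zero, zero_div, zero_mul, sub_zero]
    refine (FourierSW_far_sum Qs P hP h q hq hin a ha _ (hα _) Y).trans ?_
    refine mul_le_mul_of_nonneg_left ?_ hq0
    linarith

/-! ### the trivial bound -/

theorem FourierSW_trivial (Qs : Finset ℕ) (X Y : ℕ) (hY : Y ≤ X) (α : ℝ) :
    ‖∑ n ∈ Icc 1 Y, ((Λ n - LQ Qs n : ℝ) : ℂ) * e (n * α)‖ ≤
      X * (Real.log X + Qs.card) := by
  have h1 : ∀ n ∈ Icc 1 Y, ‖((Λ n - LQ Qs n : ℝ) : ℂ) * e (n * α)‖ ≤ Real.log X + Qs.card := by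
    intro n hn
    rw [mem_Icc] at hn
    rw [norm_mul, norm_e, mul_one, Complex.norm_real, Real.norm_eq_abs]
    refine (abs_sub _ _).trans (add_le_add ?_ (FourierSW_abs_LQ_le Qs n))
    rw [abs_of_nonneg ArithmeticFunction.vonMangoldt_nonneg]
    refine ArithmeticFunction.vonMangoldt_le_log.trans ?_
    exact Real.log_le_log (by exact_mod_cast hn.1) (by exact_mod_cast hn.2.trans hY)
  refine (norm_sum_le _ _).trans ((sum_le_card_nsmul _ _ _ h1).trans ?_)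
  rw [nsmul_eq_mul, Nat.card_Icc, Nat.add_sub_cancel]
  refine mul_le_mul_of_nonneg_right (by exact_mod_cast hY) ?_
  have := Real.log_natCast_nonneg X
  positivity

/-! ### minor arcs for Λ -/

theorem FourierSW_minor (A B' : ℕ) (hB : A + 4 ≤ B') : ∃ C : ℝ, 0 < C ∧
    ∀ (X Y q : ℕ) (a : ℤ) (α : ℝ), 2 ≤ X → 1 ≤ Real.log X → Y ≤ X → 1 ≤ q → IsCoprime a (q : ℤ) →
      |α - a / q| ≤ 1 / (q : ℝ) ^ 2 → (Real.log X) ^ (2 * (A + 4)) ≤ q →
      (q : ℝ) ≤ X / (Real.log X) ^ (2 * B') →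
        ‖∑ n ∈ Icc 1 Y, ((Λ n : ℝ) : ℂ) * e (n * α)‖ ≤ C * X / (Real.log X) ^ A := by
  obtain ⟨C1, hC1, h1⟩ := minor_Q
  obtain ⟨C2, hC2, h2⟩ := FourierSW_log_pow (A + 4) (1 / 5) (by norm_num)
  refine ⟨C1 * (2 + C2), by positivity, fun X Y q a α hX hL1 hY hq ha hα hq1 hq2 => ?_⟩
  have hX' : (2 : ℝ) ≤ X := by exact_mod_cast hX
  have hX0 : (0 : ℝ) < X := by linarith
  have hL : 0 < Real.log X := by linarith
  have hLA : 0 < (Real.log X) ^ A := pow_pos hL A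
  rcases lt_or_ge Y 2 with hY2 | hY2
  · have h5 : ∑ n ∈ Icc 1 Y, ((Λ n : ℝ) : ℂ) * e (n * α) = 0 := by
      refine sum_eq_zero fun n hn => ?_
      rw [mem_Icc] at hn
      have : n = 1 := by omega
      rw [this]
      simp
    rw [h5, norm_zero]
    positivity
  have hY' : (2 : ℝ) ≤ Y := by exact_mod_cast hY2
  have hYX : (Y : ℝ) ≤ X := by exact_mod_cast hY
  have hq0 : (0 : ℝ) < q := by exact_mod_cast hq
  refine (h1 α a q Y hY2 hq ha hα).trans ?_
  have e1 : (Y : ℝ) / Real.sqrt q ≤ X / (Real.log X) ^ (A + 4) := by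
    have h3 : (Real.log X) ^ (A + 4) ≤ Real.sqrt q := by
      refine Real.le_sqrt_of_sq_le ?_
      rw [← pow_mul, mul_comm]
      exact hq1
    exact div_le_div₀ hX0.le hYX (pow_pos hL _) h3
  have e2 : (Y : ℝ) ^ (4 / 5 : ℝ) ≤ C2 * X / (Real.log X) ^ (A + 4) := by
    have h3 : (Y : ℝ) ^ (4 / 5 : ℝ) ≤ (X : ℝ) ^ (4 / 5 : ℝ) :=
      Real.rpow_le_rpow (by linarith) hYX (by norm_num)
    refine h3.trans ?_
    rw [le_div_iff₀ (pow_pos hL _)]
    have h4 := h2 X (by linarith)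
    calc (X : ℝ) ^ (4 / 5 : ℝ) * (Real.log X) ^ (A + 4) ≤
          (X : ℝ) ^ (4 / 5 : ℝ) * (C2 * (X : ℝ) ^ (1 / 5 : ℝ)) :=
          mul_le_mul_of_nonneg_left h4 (by positivity)
      _ = C2 * ((X : ℝ) ^ (4 / 5 : ℝ) * (X : ℝ) ^ (1 / 5 : ℝ)) := by ring
      _ = C2 * X := by
          rw [← Real.rpow_add hX0]
          norm_num
  have e3 : Real.sqrt (Y * q) ≤ X / (Real.log X) ^ (A + 4) := by
    have h3 : (Y : ℝ) * q ≤ (X / (Real.log X) ^ B') ^ 2 := by
      calc (Y : ℝ) * q ≤ X * (X / (Real.log X) ^ (2 * B')) :=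
            mul_le_mul hYX hq2 hq0.le hX0.le
        _ = (X / (Real.log X) ^ B') ^ 2 := by
            rw [div_pow, ← pow_mul, mul_comm B' 2]
            ring
    have h4 : Real.sqrt (Y * q) ≤ X / (Real.log X) ^ B' :=
      Real.sqrt_le_iff.2 ⟨by positivity, h3⟩
    refine h4.trans ?_
    exact div_le_div_of_nonneg_left hX0.le (pow_pos hL _) (pow_le_pow_right₀ hL1 hB)
  have e4 : (Real.log Y) ^ 4 ≤ (Real.log X) ^ 4 :=
    pow_le_pow_left₀ (FourierSW_log_pos hY').le (Real.log_le_log (by linarith) hYX) 4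
  have e5 : (Y : ℝ) / Real.sqrt q + (Y : ℝ) ^ (4 / 5 : ℝ) + Real.sqrt (Y * q) ≤
      (2 + C2) * X / (Real.log X) ^ (A + 4) := by
    calc _ ≤ X / (Real.log X) ^ (A + 4) + C2 * X / (Real.log X) ^ (A + 4) +
          X / (Real.log X) ^ (A + 4) := add_le_add (add_le_add e1 e2) e3
      _ = _ := by ring
  calc C1 * ((Y : ℝ) / Real.sqrt q + (Y : ℝ) ^ (4 / 5 : ℝ) + Real.sqrt (Y * q)) *
        (Real.log Y) ^ 4 ≤ C1 * ((2 + C2) * X / (Real.log X) ^ (A + 4)) * (Real.log X) ^ 4 := by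
        refine mul_le_mul (mul_le_mul_of_nonneg_left e5 hC1.le) e4
          (pow_nonneg (FourierSW_log_pos hY').le 4) (by positivity)
    _ = C1 * (2 + C2) * X / (Real.log X) ^ A := by
        rw [pow_add]
        field_simp

/-! ### major arcs -/

theorem FourierSW_major (A A2 A3 B : ℕ) (hA2 : A2 ≤ A3) : ∃ C : ℝ, 0 < C ∧
    ∀ (X Y q : ℕ) (a : ℤ) (α : ℝ) (Qs : Finset ℕ), 2 ≤ X → 1 ≤ Real.log X → Y ≤ X → 1 ≤ q →
      IsCoprime a (q : ℤ) → |α - a / q| ≤ (Real.log X) ^ B / X →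
      (∀ q' ∈ Qs, Squarefree q' ∧ (q' : ℝ) ≤ (Real.log X) ^ A2) →
      (q : ℝ) ≤ (Real.log X) ^ A3 → (q ∈ Qs ∨ ¬ Squarefree q) →
        ‖∑ n ∈ Icc 1 Y, ((Λ n - LQ Qs n : ℝ) : ℂ) * e (n * α)‖ ≤ C * X / (Real.log X) ^ A := by
  obtain ⟨C1, hC1, h1⟩ := major_L (B + 2 * A3 + A)
  obtain ⟨C2, hC2, h2⟩ := FourierSW_log_pow (B + 3 * A3 + A) 1 one_pos
  refine ⟨8 * (C1 + 2 * C2), by positivity, fun X Y q a α Qs hX hL1 hY hq ha hα hQs hqA hqQ => ?_⟩
  have hX' : (2 : ℝ) ≤ X := by exact_mod_cast hX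
  have hX0 : (0 : ℝ) < X := by linarith
  have hL : 0 < Real.log X := by linarith
  have hq0 : (0 : ℝ) ≤ q := Nat.cast_nonneg q
  obtain ⟨L, hLdef⟩ : ∃ L, L = Real.log X := ⟨_, rfl⟩
  rw [← hLdef] at hL1 hL hα hQs hqA ⊢
  obtain ⟨M, hMdef⟩ : ∃ M : ℝ, M = C1 * (q : ℝ) ^ 2 * X / L ^ (B + 2 * A3 + A) +
      (q : ℝ) * (1 + (L ^ A2) ^ 2) := ⟨_, rfl⟩
  have hM0 : 0 ≤ M := by rw [hMdef]; positivity
  have hP : 0 ≤ L ^ A2 := by positivity
  have hM : ∀ Z : ℕ, Z ≤ Y → ‖∑ n ∈ Icc 1 Z, ((Λ n - LQ Qs n : ℝ) : ℂ) *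
      e (n * ((a : ℝ) / q))‖ ≤ M := by
    intro Z hZ
    have h3 := h1 X Z q a hX (hZ.trans hY) hq ha
    rw [← hLdef] at h3
    have h4 := FourierSW_near Qs (L ^ A2) hP hQs q hq hqQ a ha Z
    have h5 : ∑ n ∈ Icc 1 Z, ((Λ n - LQ Qs n : ℝ) : ℂ) * e (n * ((a : ℝ) / q)) =
        (∑ n ∈ Icc 1 Z, ((Λ n : ℝ) : ℂ) * e (n * ((a : ℝ) / q)) -
          ((ArithmeticFunction.moebius q : ℤ) : ℂ) / (q.totient : ℂ) * Z) -
        (∑ n ∈ Icc 1 Z, ((LQ Qs n : ℝ) : ℂ) * e (n * ((a : ℝ) / q)) -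
          ((ArithmeticFunction.moebius q : ℤ) : ℂ) / (q.totient : ℂ) * Z) := by
      rw [sub_sub_sub_cancel_right, ← sum_sub_distrib]
      refine sum_congr rfl fun n _ => ?_
      push_cast
      ring
    rw [h5, hMdef]
    exact (norm_sub_le _ _).trans (add_le_add h3 h4)
  have h3 := FourierSW_abel (fun n => ((Λ n - LQ Qs n : ℝ) : ℂ) * e (n * ((a : ℝ) / q)))
    (α - a / q) M Y hM
  have h4 : ∑ n ∈ Icc 1 Y, ((Λ n - LQ Qs n : ℝ) : ℂ) * e (n * α) =
      ∑ n ∈ Icc 1 Y, ((Λ n - LQ Qs n : ℝ) : ℂ) * e (n * ((a : ℝ) / q)) *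
        e (n * (α - a / q)) := by
    refine sum_congr rfl fun n _ => ?_
    rw [mul_assoc, ← e_add]
    congr 2
    ring
  rw [h4]
  refine h3.trans ?_
  have h5 : |α - a / q| * Y ≤ L ^ B := by
    have hYX : (Y : ℝ) ≤ X := by exact_mod_cast hY
    calc |α - a / q| * Y ≤ L ^ B / X * X :=
          mul_le_mul hα hYX (Nat.cast_nonneg _) (by positivity)
      _ = L ^ B := by field_simp
  have h6 : 1 + 2 * Real.pi * |α - a / q| * Y ≤ 8 * L ^ B := by
    have h7 : 1 ≤ L ^ B := one_le_pow₀ hL1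
    have h8 := Real.pi_lt_d2
    have h9 := Real.pi_pos
    have h10 : 2 * Real.pi * |α - a / q| * Y = 2 * Real.pi * (|α - a / q| * Y) := by ring
    rw [h10]
    have h11 : 2 * Real.pi * (|α - a / q| * Y) ≤ 2 * Real.pi * L ^ B :=
      mul_le_mul_of_nonneg_left h5 (by positivity)
    nlinarith
  have h7 : M ≤ C1 * X / L ^ (B + A) + 2 * L ^ (3 * A3) := by
    rw [hMdef]
    refine add_le_add ?_ ?_
    · have h8 : (q : ℝ) ^ 2 ≤ L ^ (2 * A3) := by
        rw [mul_comm 2 A3, pow_mul]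
        exact pow_le_pow_left₀ hq0 hqA 2
      rw [div_le_div_iff₀ (pow_pos hL _) (pow_pos hL _)]
      calc C1 * (q : ℝ) ^ 2 * X * L ^ (B + A) ≤ C1 * L ^ (2 * A3) * X * L ^ (B + A) := by
            gcongr
        _ = C1 * X * L ^ (B + 2 * A3 + A) := by ring
    · have h8 : (L ^ A2) ^ 2 ≤ L ^ (2 * A3) := by
        rw [← pow_mul]
        exact pow_le_pow_right₀ hL1 (by omega)
      have h9 : 1 ≤ L ^ (2 * A3) := one_le_pow₀ hL1
      calc (q : ℝ) * (1 + (L ^ A2) ^ 2) ≤ L ^ A3 * (L ^ (2 * A3) + L ^ (2 * A3)) := by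
            refine mul_le_mul hqA (add_le_add h9 h8) (by positivity) (by positivity)
        _ = 2 * L ^ (3 * A3) := by ring
  have h8 : L ^ (B + 3 * A3) ≤ C2 * X / L ^ A := by
    rw [le_div_iff₀ (pow_pos hL A), ← pow_add]
    have h9 := h2 X (by linarith)
    rw [Real.rpow_one, ← hLdef] at h9
    exact h9
  calc (1 + 2 * Real.pi * |α - a / q| * Y) * M ≤
        8 * L ^ B * (C1 * X / L ^ (B + A) + 2 * L ^ (3 * A3)) :=
        mul_le_mul h6 h7 hM0 (by positivity)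
    _ = 8 * (C1 * X / L ^ A) + 16 * L ^ (B + 3 * A3) := by
        rw [pow_add L B A, pow_add L B (3 * A3)]
        field_simp
        ring
    _ ≤ 8 * (C1 * X / L ^ A) + 16 * (C2 * X / L ^ A) := by linarith
    _ = 8 * (C1 + 2 * C2) * X / L ^ A := by ring

theorem FourierSW_log_three {x : ℝ} (hx : 3 ≤ x) : 1 ≤ Real.log x := by
  rw [Real.le_log_iff_exp_le (by linarith)]
  linarith [Real.exp_one_lt_d9]

theorem fourier_SW (A : ℕ) :
    ∃ A1 : ℕ, ∀ A2 : ℕ, ∃ C : ℝ, 0 < C ∧ ∀ X : ℕ, 2 ≤ X → ∀ Qs : Finset ℕ,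
      (∀ q ∈ Qs, Squarefree q ∧ (q : ℝ) ≤ (Real.log X) ^ A2) →
      (∀ q : ℕ, Squarefree q → (q : ℝ) ≤ (Real.log X) ^ A1 → q ∈ Qs) →
      ∀ Y : ℕ, Y ≤ X → ∀ α : ℝ,
        ‖∑ n ∈ Icc 1 Y, ((Λ n - LQ Qs n : ℝ) : ℂ) * e (n * α)‖ ≤ C * X / (Real.log X) ^ A := by
  refine ⟨2 * (A + 4), fun A2 => ?_⟩
  obtain ⟨A3, hA3⟩ : ∃ A3, A3 = 2 * (A + 4) + A2 := ⟨_, rfl⟩
  obtain ⟨B', hB'⟩ : ∃ B', B' = A + 4 + A2 := ⟨_, rfl⟩
  obtain ⟨C1, hC1, hminor⟩ := FourierSW_minor A B' (by omega)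
  obtain ⟨C2, hC2, hmajor⟩ := FourierSW_major A A2 A3 (2 * B') (by omega)
  obtain ⟨C3, hC3, hlog⟩ := FourierSW_log_pow (A2 + 2 * B') (1 / 2) (by norm_num)
  obtain ⟨X0, hX0def⟩ : ∃ X0 : ℝ, X0 = 3 + 4 * C3 ^ 2 := ⟨_, rfl⟩
  obtain ⟨L0, hL0def⟩ : ∃ L0 : ℝ, L0 = Real.log X0 := ⟨_, rfl⟩
  have hX03 : 3 ≤ X0 := by rw [hX0def]; nlinarith [sq_nonneg C3]
  have hL01 : 1 ≤ L0 := by rw [hL0def]; exact FourierSW_log_three hX03
  refine ⟨C1 + 1 + C2 + (L0 + L0 ^ A2) * L0 ^ A, by positivity, ?_⟩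
  intro X hX Qs hQs hQs' Y hY α
  have hX' : (2 : ℝ) ≤ X := by exact_mod_cast hX
  have hXpos : (0 : ℝ) < X := by linarith
  have hL := FourierSW_log_pos hX'
  have hLA : 0 < (Real.log X) ^ A := pow_pos hL A
  rcases lt_or_ge (X : ℝ) X0 with hsmall | hlarge
  · -- bounded X
    have h1 := FourierSW_trivial Qs X Y hY α
    have h2 := FourierSW_card Qs ((Real.log X) ^ A2) (by positivity) hQs
    have h3 : Real.log X ≤ L0 := by
      rw [hL0def]
      exact Real.log_le_log hXpos hsmall.le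
    refine h1.trans ?_
    rw [le_div_iff₀ hLA]
    have h4 : (Real.log X + Qs.card) * (Real.log X) ^ A ≤ (L0 + L0 ^ A2) * L0 ^ A := by
      refine mul_le_mul (add_le_add h3 (h2.trans (pow_le_pow_left₀ hL.le h3 A2)))
        (pow_le_pow_left₀ hL.le h3 A) (by positivity) (by positivity)
    calc (X : ℝ) * (Real.log X + Qs.card) * (Real.log X) ^ A
        = ((Real.log X + Qs.card) * (Real.log X) ^ A) * X := by ring
      _ ≤ (C1 + 1 + C2 + (L0 + L0 ^ A2) * L0 ^ A) * X := by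
          refine mul_le_mul_of_nonneg_right ?_ hXpos.le
          linarith
  · have hL1 : 1 ≤ Real.log X := FourierSW_log_three (hX03.trans hlarge)
    obtain ⟨L, hLdef⟩ : ∃ L, L = Real.log X := ⟨_, rfl⟩
    have hR2 : 2 * L ^ A2 ≤ X / L ^ (2 * B') := by
      rw [← hLdef] at hL
      rw [le_div_iff₀ (pow_pos hL _)]
      have h1 := hlog X (by linarith)
      rw [← Real.sqrt_eq_rpow, ← hLdef] at h1
      have h2 : 2 * C3 ≤ Real.sqrt X := by
        refine Real.le_sqrt_of_sq_le ?_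
        nlinarith
      calc 2 * L ^ A2 * L ^ (2 * B') = 2 * L ^ (A2 + 2 * B') := by ring
        _ ≤ 2 * (C3 * Real.sqrt X) := by linarith
        _ = 2 * C3 * Real.sqrt X := by ring
        _ ≤ Real.sqrt X * Real.sqrt X := mul_le_mul_of_nonneg_right h2 (Real.sqrt_nonneg _)
        _ = X := Real.mul_self_sqrt hXpos.le
    rw [← hLdef] at hL hLA hL1 ⊢ hQs hQs'
    have hA2one : 1 ≤ L ^ A2 := one_le_pow₀ hL1
    obtain ⟨R, hR⟩ : ∃ R : ℝ, R = X / L ^ (2 * B') := ⟨_, rfl⟩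
    have hRpos : 0 < R := by rw [hR]; positivity
    have hR1 : 1 ≤ R := by rw [hR]; linarith
    have hN : 0 < ⌊R⌋₊ := Nat.floor_pos.2 hR1
    obtain ⟨r, hr1, hr2⟩ := Real.exists_rat_abs_sub_le_and_den_le α hN
    obtain ⟨q, hqdef⟩ : ∃ q : ℕ, q = r.den := ⟨_, rfl⟩
    obtain ⟨a, hadef⟩ : ∃ a : ℤ, a = r.num := ⟨_, rfl⟩
    have hq : 1 ≤ q := by rw [hqdef]; exact r.den_pos
    have hq0 : (0 : ℝ) < q := by exact_mod_cast hq
    have ha : IsCoprime a (q : ℤ) := by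
      rw [hadef, hqdef]
      rw [Int.isCoprime_iff_gcd_eq_one]
      exact r.reduced
    have hr : ((r : ℚ) : ℝ) = (a : ℝ) / q := by
      rw [hadef, hqdef]
      exact_mod_cast (Rat.num_div_den r).symm
    have hqR : (q : ℝ) ≤ R := by
      rw [hqdef]
      exact (Nat.cast_le.2 hr2).trans (Nat.floor_le hRpos.le)
    have hαR : |α - a / q| ≤ 1 / (R * q) := by
      rw [← hr]
      refine hr1.trans ?_
      rw [← hqdef]
      refine one_div_le_one_div_of_le (by positivity) ?_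
      exact mul_le_mul_of_nonneg_right (Nat.lt_floor_add_one R).le hq0.le
    have hαq : |α - a / q| ≤ 1 / (q : ℝ) ^ 2 := by
      refine hαR.trans ?_
      refine one_div_le_one_div_of_le (by positivity) ?_
      rw [sq]
      exact mul_le_mul_of_nonneg_right hqR hq0.le
    by_cases hcase : q ∉ Qs ∧ L ^ (2 * (A + 4)) < q
    · -- minor arcs
      obtain ⟨hqQ, hqbig⟩ := hcase
      have h1 := hminor X Y q a α hX (by rw [← hLdef]; exact hL1) hY hq ha hαq
        (by rw [← hLdef]; exact hqbig.le) (by rw [← hLdef, ← hR]; exact hqR)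
      rw [← hLdef] at h1
      have h2 := FourierSW_far_sum Qs (L ^ A2) (by positivity) hQs q hq hqQ a ha α ?_ Y
      · have h3 : (q : ℝ) * (L ^ A2) ^ 2 ≤ X / L ^ A := by
          calc (q : ℝ) * (L ^ A2) ^ 2 ≤ X / L ^ (2 * B') * (L ^ A2) ^ 2 := by
                rw [← hR]
                exact mul_le_mul_of_nonneg_right hqR (by positivity)
            _ ≤ X / L ^ A := by
                rw [div_mul_eq_mul_div, div_le_div_iff₀ (pow_pos hL _) hLA]
                calc (X : ℝ) * (L ^ A2) ^ 2 * L ^ A = X * L ^ (2 * A2 + A) := by ring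
                  _ ≤ X * L ^ (2 * B') := by
                      refine mul_le_mul_of_nonneg_left ?_ hXpos.le
                      exact pow_le_pow_right₀ hL1 (by omega)
        have h4 : ∑ n ∈ Icc 1 Y, ((Λ n - LQ Qs n : ℝ) : ℂ) * e (n * α) =
            ∑ n ∈ Icc 1 Y, ((Λ n : ℝ) : ℂ) * e (n * α) -
              ∑ n ∈ Icc 1 Y, ((LQ Qs n : ℝ) : ℂ) * e (n * α) := by
          rw [← sum_sub_distrib]
          refine sum_congr rfl fun n _ => ?_
          push_cast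
          ring
        rw [h4]
        calc _ ≤ C1 * X / L ^ A + X / L ^ A :=
              (norm_sub_le _ _).trans (add_le_add h1 (h2.trans h3))
          _ = (C1 + 1) * X / L ^ A := by ring
          _ ≤ (C1 + 1 + C2 + (L0 + L0 ^ A2) * L0 ^ A) * X / L ^ A := by
              refine div_le_div_of_nonneg_right ?_ hLA.le
              refine mul_le_mul_of_nonneg_right ?_ hXpos.le
              have : 0 ≤ (L0 + L0 ^ A2) * L0 ^ A := by positivity
              linarith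
      · intro q' hq'
        refine hαR.trans ?_
        have hq'1 : 1 ≤ q' := Nat.one_le_iff_ne_zero.2 (hQs q' hq').1.ne_zero
        have hq'0 : (0 : ℝ) < q' := by exact_mod_cast hq'1
        refine one_div_le_one_div_of_le (by positivity) ?_
        have h3 : 2 * (q' : ℝ) ≤ R := by
          rw [hR]
          linarith [(hQs q' hq').2]
        calc 2 * (q : ℝ) * q' = 2 * (q' : ℝ) * q := by ring
          _ ≤ R * q := mul_le_mul_of_nonneg_right h3 hq0.le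
    · -- major arcs
      have hqA : (q : ℝ) ≤ L ^ A3 := by
        by_cases hin : q ∈ Qs
        · exact (hQs q hin).2.trans (pow_le_pow_right₀ hL1 (by omega))
        · have h1 : (q : ℝ) ≤ L ^ (2 * (A + 4)) := by
            by_contra hc
            push Not at hc
            exact hcase ⟨hin, hc⟩
          exact h1.trans (pow_le_pow_right₀ hL1 (by omega))
      have hqQ : q ∈ Qs ∨ ¬ Squarefree q := by
        by_cases hin : q ∈ Qs
        · exact Or.inl hin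
        · right
          intro hsq
          have h1 : (q : ℝ) ≤ L ^ (2 * (A + 4)) := by
            by_contra hc
            push Not at hc
            exact hcase ⟨hin, hc⟩
          exact hin (hQs' q hsq h1)
      have hα2 : |α - a / q| ≤ L ^ (2 * B') / X := by
        refine hαR.trans ?_
        have h1 : 1 / R = L ^ (2 * B') / X := by rw [hR, one_div_div]
        rw [← h1]
        refine one_div_le_one_div_of_le hRpos ?_
        have hq1 : (1 : ℝ) ≤ q := by exact_mod_cast hq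
        nlinarith
      have h1 := hmajor X Y q a α Qs hX (by rw [← hLdef]; exact hL1) hY hq ha
        (by rw [← hLdef]; exact hα2) (by rw [← hLdef]; exact hQs) (by rw [← hLdef]; exact hqA) hqQ
      rw [← hLdef] at h1
      refine h1.trans ?_
      refine div_le_div_of_nonneg_right ?_ hLA.le
      refine mul_le_mul_of_nonneg_right ?_ hXpos.le
      have : 0 ≤ (L0 + L0 ^ A2) * L0 ^ A := by positivity
      linarith

theorem FourierSW_lam_diff (Y : ℕ) (hY : 1 ≤ Y) (α : ℝ) :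
    ‖∑ n ∈ Icc 1 Y, ((Λ n - lam n : ℝ) : ℂ) * e (n * α)‖ ≤
      2 * Real.sqrt Y * Real.log Y := by
  have h1 : ∀ n ∈ Icc 1 Y, ‖((Λ n - lam n : ℝ) : ℂ) * e (n * α)‖ =
      if ¬ n.Prime then Λ n else 0 := by
    intro n _
    rw [norm_mul, norm_e, mul_one, Complex.norm_real, Real.norm_eq_abs]
    unfold lam
    by_cases hp : n.Prime
    · rw [if_pos hp, if_neg (not_not.2 hp), ArithmeticFunction.vonMangoldt_apply_prime hp, sub_self,
        abs_zero]
    · rw [if_neg hp, if_pos hp, sub_zero, abs_of_nonneg ArithmeticFunction.vonMangoldt_nonneg]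
  refine (norm_sum_le _ _).trans ?_
  rw [sum_congr rfl h1, ← sum_filter]
  have h2 := Chebyshev.psi_sub_theta_eq_sum_not_prime (Y : ℝ)
  rw [Nat.floor_natCast] at h2
  have h3 : Ioc 0 Y = Icc 1 Y := by
    ext n
    rw [mem_Ioc, mem_Icc]
    omega
  rw [h3] at h2
  rw [← h2]
  exact Chebyshev.psi_sub_theta_le (by exact_mod_cast hY)

theorem fourier_lam (A : ℕ) :
    ∃ A1 : ℕ, ∀ A2 : ℕ, ∃ C : ℝ, 0 < C ∧ ∀ X : ℕ, 2 ≤ X → ∀ Qs : Finset ℕ,
      (∀ q ∈ Qs, Squarefree q ∧ (q : ℝ) ≤ (Real.log X) ^ A2) →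
      (∀ q : ℕ, Squarefree q → (q : ℝ) ≤ (Real.log X) ^ A1 → q ∈ Qs) →
      ∀ Y : ℕ, Y ≤ X → ∀ α : ℝ,
        ‖∑ n ∈ Icc 1 Y, ((lam n - LQ Qs n : ℝ) : ℂ) * e (n * α)‖ ≤ C * X / (Real.log X) ^ A := by
  obtain ⟨A1, hA1⟩ := fourier_SW A
  obtain ⟨C2, hC2, h2⟩ := FourierSW_log_pow (A + 1) (1 / 2) (by norm_num)
  refine ⟨A1, fun A2 => ?_⟩
  obtain ⟨C1, hC1, h1⟩ := hA1 A2
  refine ⟨C1 + 2 * C2, by positivity, fun X hX Qs hQs hQs' Y hY α => ?_⟩
  have hX' : (2 : ℝ) ≤ X := by exact_mod_cast hX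
  have hXpos : (0 : ℝ) < X := by linarith
  have hL := FourierSW_log_pos hX'
  have hLA : 0 < (Real.log X) ^ A := pow_pos hL A
  have h3 := h1 X hX Qs hQs hQs' Y hY α
  have h4 : ‖∑ n ∈ Icc 1 Y, ((Λ n - lam n : ℝ) : ℂ) * e (n * α)‖ ≤
      2 * C2 * X / (Real.log X) ^ A := by
    rcases Nat.eq_zero_or_pos Y with h5 | h5
    · rw [h5, Icc_eq_empty (by norm_num), sum_empty, norm_zero]
      positivity
    · refine (FourierSW_lam_diff Y h5 α).trans ?_
      have hY1 : (1 : ℝ) ≤ Y := by exact_mod_cast h5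
      have hYX : (Y : ℝ) ≤ X := by exact_mod_cast hY
      have h6 : Real.log Y ≤ Real.log X := Real.log_le_log (by linarith) hYX
      have h7 : Real.sqrt Y ≤ Real.sqrt X := Real.sqrt_le_sqrt hYX
      have h8 := h2 X (by linarith)
      rw [← Real.sqrt_eq_rpow] at h8
      rw [le_div_iff₀ hLA]
      calc 2 * Real.sqrt Y * Real.log Y * (Real.log X) ^ A ≤
            2 * Real.sqrt X * Real.log X * (Real.log X) ^ A := by
            refine mul_le_mul_of_nonneg_right ?_ hLA.le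
            exact mul_le_mul (by linarith) h6 (Real.log_nonneg hY1) (by positivity)
        _ = 2 * Real.sqrt X * (Real.log X) ^ (A + 1) := by ring
        _ ≤ 2 * Real.sqrt X * (C2 * Real.sqrt X) :=
            mul_le_mul_of_nonneg_left h8 (by positivity)
        _ = 2 * C2 * (Real.sqrt X * Real.sqrt X) := by ring
        _ = 2 * C2 * X := by rw [Real.mul_self_sqrt hXpos.le]
  have h5 : ∑ n ∈ Icc 1 Y, ((lam n - LQ Qs n : ℝ) : ℂ) * e (n * α) =
      ∑ n ∈ Icc 1 Y, ((Λ n - LQ Qs n : ℝ) : ℂ) * e (n * α) -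
        ∑ n ∈ Icc 1 Y, ((Λ n - lam n : ℝ) : ℂ) * e (n * α) := by
    rw [← sum_sub_distrib]
    refine sum_congr rfl fun n _ => ?_
    push_cast
    ring
  rw [h5]
  calc _ ≤ C1 * X / (Real.log X) ^ A + 2 * C2 * X / (Real.log X) ^ A :=
        (norm_sub_le _ _).trans (add_le_add h3 h4)
    _ = (C1 + 2 * C2) * X / (Real.log X) ^ A := by ring

end Pool.Agent.Lib.SW
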