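import Pool.Agent.Lib.SW.Defs

/-!
# SW-M: the Leibniz recursion (module M)

PROOFS.
`Tame.summable`: ‖lc f j n‖ n^(-σ) ≤ C (1 + log n)^(k+j) n^(-σ) and (1 + log n)^(k+j) ≤ C' n^((σ-1)/2).
(Or `LSeriesSummable_of_le_const_mul_rpow`.) `tame_*`: characters: bound 1; Λ(n) ≤ log n
(`ArithmeticFunction.vonMangoldt_le_log`), |μ| ≤ 1.
`leibniz`: for n ≥ 1: (f ⍟ g)(n) (log n)^K = ∑_{d e = n} f(d) g(e) (log d + log e)^K =
∑_i C(K,i) (lc f (K-i) ⍟ lc g i)(n) (binomial theorem `add_pow`, log (d e) = log d + log e), then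
`LSeries_convolution'` and linearity (`LSeries_sum`/`LSeries_const_smul`; or termwise `LSeriesHasSum`).
`rec_L`: f = ch χ, g = chL χ: (ch χ ⍟ chL χ)(n) = χ(n) ∑_{e | n} Λ(e) = χ(n) log n (Mathlib:
`DirichletCharacter.convolution_twist_vonMangoldt`), so `lc (ch χ ⍟ chL χ) K = lc (ch χ) (K+1)`.
`rec_M`: f = ch χ, g = chM χ: ch χ ⍟ chM χ = δ (`DirichletCharacter.convolution_mul_moebius`), and
LSeries (lc δ K) = 1 if K = 0 and 0 otherwise (log 1 = 0).
`rec_L_zeta`, `rec_M_zeta`: the same with f = 1 (q = 1; all characters mod 1 are 1 on ℕ).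
-/

open Complex LSeries

namespace Pool.Agent.Lib.SW

theorem one_add_log_pow_le (m : ℕ) {ε : ℝ} (hε : 0 < ε) :
    ∃ C : ℝ, 0 ≤ C ∧ ∀ n : ℕ, 1 ≤ n → (1 + Real.log n) ^ m ≤ C * (n : ℝ) ^ ε := by
  have hm : (0 : ℝ) < ε / (m + 1) := by positivity
  set δ := ε / (m + 1) with hδ
  refine ⟨(1 + 1 / δ) ^ m, by positivity, fun n hn => ?_⟩
  have hn1 : (1 : ℝ) ≤ n := by exact_mod_cast hn
  have hn0 : (0 : ℝ) ≤ n := by linarith
  have h1 : Real.log n ≤ (n : ℝ) ^ δ / δ := Real.log_le_rpow_div hn0 hm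
  have h2 : (1 : ℝ) ≤ (n : ℝ) ^ δ := Real.one_le_rpow hn1 hm.le
  have h3 : 1 + Real.log n ≤ (1 + 1 / δ) * (n : ℝ) ^ δ := by
    calc 1 + Real.log n ≤ (n : ℝ) ^ δ + (n : ℝ) ^ δ / δ := add_le_add h2 h1
      _ = (1 + 1 / δ) * (n : ℝ) ^ δ := by ring
  have h4 : 0 ≤ 1 + Real.log n := by
    have := Real.log_nonneg hn1
    linarith
  calc (1 + Real.log n) ^ m ≤ ((1 + 1 / δ) * (n : ℝ) ^ δ) ^ m := pow_le_pow_left₀ h4 h3 m
    _ = (1 + 1 / δ) ^ m * ((n : ℝ) ^ δ) ^ m := mul_pow _ _ _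
    _ = (1 + 1 / δ) ^ m * (n : ℝ) ^ (δ * m) := by
        rw [← Real.rpow_natCast ((n : ℝ) ^ δ) m, ← Real.rpow_mul hn0]
    _ ≤ (1 + 1 / δ) ^ m * (n : ℝ) ^ ε := by
        apply mul_le_mul_of_nonneg_left _ (by positivity)
        apply Real.rpow_le_rpow_of_exponent_le hn1
        rw [hδ, div_mul_eq_mul_div, div_le_iff₀ (by positivity)]
        nlinarith

theorem Tame.lc_bound {f : ℕ → ℂ} (hf : Tame f) (j : ℕ) {ε : ℝ} (hε : 0 < ε) :
    ∃ C : ℝ, ∀ n : ℕ, n ≠ 0 → ‖lc f j n‖ ≤ C * (n : ℝ) ^ ε := by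
  obtain ⟨C, k, hC, h⟩ := hf
  obtain ⟨C', hC', h'⟩ := one_add_log_pow_le (k + j) hε
  refine ⟨C * C', fun n hn => ?_⟩
  have hn1 : 1 ≤ n := Nat.one_le_iff_ne_zero.mpr hn
  have hl : 0 ≤ Real.log n := Real.log_natCast_nonneg n
  rw [norm_lc]
  calc ‖f n‖ * Real.log n ^ j ≤ (C * (1 + Real.log n) ^ k) * (1 + Real.log n) ^ j := by
        apply mul_le_mul (h n hn1) _ (by positivity) (by positivity)
        exact pow_le_pow_left₀ hl (by linarith) j
    _ = C * (1 + Real.log n) ^ (k + j) := by ring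
    _ ≤ C * (C' * (n : ℝ) ^ ε) := mul_le_mul_of_nonneg_left (h' n hn1) hC
    _ = C * C' * (n : ℝ) ^ ε := by ring

theorem Tame.summable {f : ℕ → ℂ} (hf : Tame f) (j : ℕ) {s : ℂ} (hs : 1 < s.re) :
    LSeriesSummable (lc f j) s := by
  have hx : (1 + s.re) / 2 < s.re := by linarith
  obtain ⟨C, h⟩ := hf.lc_bound j (ε := (1 + s.re) / 2 - 1) (by linarith)
  exact LSeriesSummable_of_le_const_mul_rpow hx ⟨C, h⟩

theorem tame_of_norm_le_one {f : ℕ → ℂ} (h : ∀ n, ‖f n‖ ≤ 1) : Tame f :=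
  ⟨1, 0, zero_le_one, fun n _ => by simpa using h n⟩

theorem tame_of_norm_le_log {f : ℕ → ℂ} (h : ∀ n : ℕ, 1 ≤ n → ‖f n‖ ≤ Real.log n) : Tame f :=
  ⟨1, 1, zero_le_one, fun n hn => by
    have := h n hn
    rw [one_mul, pow_one]
    linarith⟩

theorem norm_vonMangoldt_le (n : ℕ) :
    ‖((ArithmeticFunction.vonMangoldt n : ℝ) : ℂ)‖ ≤ Real.log n := by
  rw [Complex.norm_real, Real.norm_of_nonneg ArithmeticFunction.vonMangoldt_nonneg]
  exact ArithmeticFunction.vonMangoldt_le_log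

theorem norm_moebius_le (n : ℕ) : ‖((ArithmeticFunction.moebius n : ℤ) : ℂ)‖ ≤ 1 := by
  rw [Complex.norm_intCast]
  exact_mod_cast ArithmeticFunction.abs_moebius_le_one

theorem tame_one : Tame 1 := by
  exact tame_of_norm_le_one fun n => by simp

theorem tame_ch {q : ℕ} (χ : DirichletCharacter ℂ q) : Tame (ch χ) := by
  exact tame_of_norm_le_one fun n => norm_ch_le χ n

theorem tame_chL {q : ℕ} (χ : DirichletCharacter ℂ q) : Tame (chL χ) := by
  refine tame_of_norm_le_log fun n _ => ?_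
  unfold chL
  rw [norm_mul]
  calc _ ≤ 1 * Real.log n := mul_le_mul (DirichletCharacter.norm_le_one χ _)
        (norm_vonMangoldt_le n) (norm_nonneg _) zero_le_one
    _ = _ := one_mul _

theorem tame_chM {q : ℕ} (χ : DirichletCharacter ℂ q) : Tame (chM χ) := by
  refine tame_of_norm_le_one fun n => ?_
  unfold chM
  rw [norm_mul]
  calc _ ≤ 1 * (1 : ℝ) := mul_le_mul (DirichletCharacter.norm_le_one χ _)
        (norm_moebius_le n) (norm_nonneg _) zero_le_one
    _ = _ := one_mul _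

theorem tame_vL : Tame vL := by
  exact tame_of_norm_le_log fun n _ => norm_vonMangoldt_le n

theorem tame_vM : Tame vM := by
  exact tame_of_norm_le_one fun n => norm_moebius_le n

theorem lc_convolution (f g : ℕ → ℂ) (K : ℕ) :
    lc (LSeries.convolution f g) K = ∑ i ∈ Finset.range (K + 1),
      (K.choose i : ℂ) • LSeries.convolution (lc f (K - i)) (lc g i) := by
  funext n
  simp only [lc, Finset.sum_apply, Pi.smul_apply, smul_eq_mul, LSeries.convolution_def,
    Finset.sum_mul, Finset.mul_sum]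
  rw [Finset.sum_comm]
  refine Finset.sum_congr rfl fun p hp => ?_
  have hne := Nat.ne_zero_of_mem_divisorsAntidiagonal hp
  have hlog : Real.log n = Real.log p.2 + Real.log p.1 := by
    rw [← (Nat.mem_divisorsAntidiagonal.mp hp).1]
    push_cast
    rw [Real.log_mul (by exact_mod_cast hne.1) (by exact_mod_cast hne.2), add_comm]
  rw [hlog, add_pow]
  push_cast
  rw [Finset.mul_sum]
  refine Finset.sum_congr rfl fun i _ => ?_
  ring

theorem leibniz {f g : ℕ → ℂ} (hf : Tame f) (hg : Tame g) (K : ℕ) {s : ℂ} (hs : 1 < s.re) :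
    LSeries (lc (LSeries.convolution f g) K) s = ∑ i ∈ Finset.range (K + 1),
      (K.choose i : ℂ) * (LSeries (lc f (K - i)) s * LSeries (lc g i) s) := by
  rw [lc_convolution, LSeries_sum]
  · refine Finset.sum_congr rfl fun i _ => ?_
    rw [LSeries_smul, LSeries_convolution' (hf.summable _ hs) (hg.summable _ hs)]
  · intro i _
    exact ((hf.summable _ hs).convolution (hg.summable _ hs)).smul _

theorem convolution_ch_chL {q : ℕ} (χ : DirichletCharacter ℂ q) (n : ℕ) :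
    LSeries.convolution (ch χ) (chL χ) n = ch χ n * (Real.log n : ℂ) := by
  rw [LSeries.convolution_def]
  have h1 : ∀ p ∈ n.divisorsAntidiagonal,
      ch χ p.1 * chL χ p.2 = ch χ n * ((ArithmeticFunction.vonMangoldt p.2 : ℝ) : ℂ) := by
    intro p hp
    rw [← (Nat.mem_divisorsAntidiagonal.mp hp).1]
    simp only [ch, chL, Nat.cast_mul, map_mul]
    ring
  beta_reduce
  rw [Finset.sum_congr rfl h1, ← Finset.mul_sum]
  congr 1
  have h2 := ArithmeticFunction.vonMangoldt_sum (n := n)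
  rw [Nat.sum_divisorsAntidiagonal' (fun _ j => ((ArithmeticFunction.vonMangoldt j : ℝ) : ℂ)),
    ← h2]
  push_cast
  rfl

theorem convolution_ch_chM {q : ℕ} (χ : DirichletCharacter ℂ q) :
    LSeries.convolution (ch χ) (chM χ) = LSeries.delta :=
  DirichletCharacter.convolution_mul_moebius χ

theorem LSeries_lc_delta (K : ℕ) (s : ℂ) :
    LSeries (lc LSeries.delta K) s = if K = 0 then (1 : ℂ) else 0 := by
  by_cases hK : K = 0
  · subst hK
    rw [lc_zero, LSeries_delta]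
    simp
  · rw [if_neg hK]
    have h : lc LSeries.delta K = 0 := by
      funext n
      by_cases hn : n = 1
      · subst hn
        simp [lc, hK]
      · simp [lc, LSeries.delta, hn]
    rw [h]
    simp [LSeries_zero]

theorem rec_L {q : ℕ} (χ : DirichletCharacter ℂ q) (K : ℕ) {s : ℂ} (hs : 1 < s.re) :
    LSeries (lc (ch χ) (K + 1)) s = ∑ i ∈ Finset.range (K + 1),
      (K.choose i : ℂ) * (LSeries (lc (ch χ) (K - i)) s * LSeries (lc (chL χ) i) s) := by
  rw [← leibniz (tame_ch χ) (tame_chL χ) K hs]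
  refine LSeries_congr (fun {n} _ => ?_) s
  simp only [lc]
  rw [convolution_ch_chL]
  push_cast
  ring

theorem rec_M {q : ℕ} (χ : DirichletCharacter ℂ q) (K : ℕ) {s : ℂ} (hs : 1 < s.re) :
    (if K = 0 then (1 : ℂ) else 0) = ∑ i ∈ Finset.range (K + 1),
      (K.choose i : ℂ) * (LSeries (lc (ch χ) (K - i)) s * LSeries (lc (chM χ) i) s) := by
  rw [← leibniz (tame_ch χ) (tame_chM χ) K hs, convolution_ch_chM, LSeries_lc_delta]

theorem ch_one_one : ch (1 : DirichletCharacter ℂ 1) = 1 := by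
  funext n
  have h : IsUnit ((n : ZMod 1)) := by
    rw [Subsingleton.elim (n : ZMod 1) 1]
    exact isUnit_one
  simp [ch, MulChar.one_apply h]

theorem chL_one_one : chL (1 : DirichletCharacter ℂ 1) = vL := by
  funext n
  have h := congrFun ch_one_one n
  simp only [ch, Pi.one_apply] at h
  simp only [chL, vL, h, one_mul]

theorem chM_one_one : chM (1 : DirichletCharacter ℂ 1) = vM := by
  funext n
  have h := congrFun ch_one_one n
  simp only [ch, Pi.one_apply] at h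
  simp only [chM, vM, h, one_mul]

theorem rec_L_zeta (K : ℕ) {s : ℂ} (hs : 1 < s.re) :
    LSeries (lc 1 (K + 1)) s = ∑ i ∈ Finset.range (K + 1),
      (K.choose i : ℂ) * (LSeries (lc 1 (K - i)) s * LSeries (lc vL i) s) := by
  have h := rec_L (1 : DirichletCharacter ℂ 1) K hs
  rwa [ch_one_one, chL_one_one] at h

theorem rec_M_zeta (K : ℕ) {s : ℂ} (hs : 1 < s.re) :
    (if K = 0 then (1 : ℂ) else 0) = ∑ i ∈ Finset.range (K + 1),
      (K.choose i : ℂ) * (LSeries (lc 1 (K - i)) s * LSeries (lc vM i) s) := by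
  have h := rec_M (1 : DirichletCharacter ℂ 1) K hs
  rwa [ch_one_one, chM_one_one] at h

end Pool.Agent.Lib.SW
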