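import Pool.Agent.Lib.SW.Mellin
import Pool.Agent.Lib.SW.Leibniz

/-!
# SW-Q: from bounds of `LSeries (lc a (2k+1))` on 1 < re s ≤ 2 to sums (module Q)

PROOF. K = 2k+1, b = lc a K, R(x) = ∑_{n ≤ x} b(n) log (x/n), S(x) = ∑_{n ≤ x} b(n).
(1) For x ≥ 3 (say; σ = 1 + 1/log x in (1,2]): |R(x)| ≤ 4 M x^σ = 4 e M x (`perron_bound`; summability:
`Tame.summable`).
(2) For 0 < h ≤ 1, y = x e^h: R(y) - R(x) = h S(x) + ∑_{x < n ≤ y} b(n) log (y/n), |log (y/n)| ≤ h. So
|S(x)| ≤ (|R(x)| + |R(y)|)/h + ∑_{x<n≤y} |b(n)| ≤ C M x/h + (2 x h + 1)(1 + log (3x))^(K+1).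
With h = (log x)^(-(k+1)): (log x)^{K+1} h = (log x)^{k+1}, and x h ≥ c so 1 ≤ C x h. Hence
|S(x)| ≤ C (M+1) x (log x)^{k+1} for all x ≥ 3 (for bounded x trivial).
(3) ∑_{√x < n ≤ x} a(n) = ∑ b(n) (log n)^(-K): Abel summation: = S(x) (log x)^(-K) - S(√x) (..)^(-K)
+ ∑ S(n) ((log n)^(-K) - (log (n+1))^(-K)), total variation of (log)^(-K) on [√x, x] is
≤ (log √x)^(-K) = 2^K (log x)^(-K): so ≤ C (M+1) x (log x)^{k+1-K} = C (M+1) x (log x)^{-k}.
The part n ≤ √x: ≤ √x (1 + log x) ≤ C x (log x)^(-k).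
-/

open Complex

namespace Pool.Agent.Lib.SW

theorem two_add_log_pow_le (m : ℕ) {ε : ℝ} (hε : 0 < ε) :
    ∃ C : ℝ, 0 ≤ C ∧ ∀ x : ℝ, 1 ≤ x → (2 + Real.log x) ^ m ≤ C * x ^ ε := by
  have hm : (0 : ℝ) < ε / (m + 1) := by positivity
  set δ := ε / (m + 1) with hδ
  refine ⟨(2 + 1 / δ) ^ m, by positivity, fun x hx => ?_⟩
  have hx0 : (0 : ℝ) ≤ x := by linarith
  have h1 : Real.log x ≤ x ^ δ / δ := Real.log_le_rpow_div hx0 hm
  have h2 : (1 : ℝ) ≤ x ^ δ := Real.one_le_rpow hx hm.le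
  have h3 : 2 + Real.log x ≤ (2 + 1 / δ) * x ^ δ := by
    calc 2 + Real.log x ≤ 2 * x ^ δ + x ^ δ / δ := by linarith
      _ = (2 + 1 / δ) * x ^ δ := by ring
  have h4 : 0 ≤ 2 + Real.log x := by
    have := Real.log_nonneg hx
    linarith
  calc (2 + Real.log x) ^ m ≤ ((2 + 1 / δ) * x ^ δ) ^ m := pow_le_pow_left₀ h4 h3 m
    _ = (2 + 1 / δ) ^ m * (x ^ δ) ^ m := mul_pow _ _ _
    _ = (2 + 1 / δ) ^ m * x ^ (δ * m) := by
        rw [← Real.rpow_natCast (x ^ δ) m, ← Real.rpow_mul hx0]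
    _ ≤ (2 + 1 / δ) ^ m * x ^ ε := by
        apply mul_le_mul_of_nonneg_left _ (by positivity)
        apply Real.rpow_le_rpow_of_exponent_le hx
        rw [hδ, div_mul_eq_mul_div, div_le_iff₀ (by positivity)]
        nlinarith

theorem abel_aux (b : ℕ → ℂ) (w : ℕ → ℝ) (m : ℕ) (B : ℝ)
    (hw : ∀ n, m < n → w (n + 1) ≤ w n) (N : ℕ) (hN : m + 1 ≤ N)
    (hS : ∀ n, m ≤ n → n ≤ N → ‖∑ i ∈ Finset.Icc 1 n, b i‖ ≤ B) :
    ‖∑ n ∈ Finset.Ioc m N, b n * (w n : ℂ) -
      (∑ i ∈ Finset.Icc 1 N, b i - ∑ i ∈ Finset.Icc 1 m, b i) * (w N : ℂ)‖ ≤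
      2 * B * (w (m + 1) - w N) := by
  induction N, hN using Nat.le_induction with
  | base =>
    have h1 : Finset.Ioc m (m + 1) = {m + 1} := by
      ext i
      simp only [Finset.mem_Ioc, Finset.mem_singleton]
      omega
    rw [h1, Finset.sum_singleton, Finset.sum_Icc_succ_top (by omega)]
    simp
  | succ N hN ih =>
    have ih' := ih (fun n h1 h2 => hS n h1 (by omega))
    rw [Finset.sum_Ioc_succ_top (by omega), Finset.sum_Icc_succ_top (by omega)]
    have e : ∑ n ∈ Finset.Ioc m N, b n * (w n : ℂ) + b (N + 1) * (w (N + 1) : ℂ) -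
        (∑ i ∈ Finset.Icc 1 N, b i + b (N + 1) - ∑ i ∈ Finset.Icc 1 m, b i) * (w (N + 1) : ℂ) =
        (∑ n ∈ Finset.Ioc m N, b n * (w n : ℂ) -
          (∑ i ∈ Finset.Icc 1 N, b i - ∑ i ∈ Finset.Icc 1 m, b i) * (w N : ℂ)) +
        (∑ i ∈ Finset.Icc 1 N, b i - ∑ i ∈ Finset.Icc 1 m, b i) * ((w N - w (N + 1) : ℝ) : ℂ) := by
      push_cast
      ring
    rw [e]
    refine (norm_add_le _ _).trans ?_
    have h2 : ‖(∑ i ∈ Finset.Icc 1 N, b i - ∑ i ∈ Finset.Icc 1 m, b i) *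
        ((w N - w (N + 1) : ℝ) : ℂ)‖ ≤ 2 * B * (w N - w (N + 1)) := by
      have hw' := hw N (by omega)
      rw [norm_mul, Complex.norm_real, Real.norm_of_nonneg (by linarith)]
      apply mul_le_mul_of_nonneg_right _ (by linarith)
      have h3 := norm_sub_le (∑ i ∈ Finset.Icc 1 N, b i) (∑ i ∈ Finset.Icc 1 m, b i)
      have h4 := hS N (by omega) (by omega)
      have h5 := hS m le_rfl (by omega)
      linarith
    calc _ ≤ 2 * B * (w (m + 1) - w N) + 2 * B * (w N - w (N + 1)) := add_le_add ih' h2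
      _ = _ := by ring

theorem abel_bound (b : ℕ → ℂ) (w : ℕ → ℝ) (m : ℕ) (B : ℝ)
    (hw : ∀ n, m < n → w (n + 1) ≤ w n) (hw0 : ∀ n, m < n → 0 ≤ w n) (N : ℕ) (hN : m ≤ N)
    (hS : ∀ n, m ≤ n → n ≤ N → ‖∑ i ∈ Finset.Icc 1 n, b i‖ ≤ B) :
    ‖∑ n ∈ Finset.Ioc m N, b n * (w n : ℂ)‖ ≤ 2 * B * w (m + 1) := by
  have hB : 0 ≤ B := (norm_nonneg _).trans (hS m le_rfl hN)
  rcases hN.eq_or_lt with h | h
  · subst h
    simp only [Finset.Ioc_self, Finset.sum_empty, norm_zero]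
    have := hw0 (m + 1) (by omega)
    positivity
  · have h1 := abel_aux b w m B hw N h hS
    have h2 : ‖(∑ i ∈ Finset.Icc 1 N, b i - ∑ i ∈ Finset.Icc 1 m, b i) * (w N : ℂ)‖ ≤
        2 * B * w N := by
      rw [norm_mul, Complex.norm_real, Real.norm_of_nonneg (hw0 N h)]
      apply mul_le_mul_of_nonneg_right _ (hw0 N h)
      have h3 := norm_sub_le (∑ i ∈ Finset.Icc 1 N, b i) (∑ i ∈ Finset.Icc 1 m, b i)
      have h4 := hS N hN le_rfl
      have h5 := hS m le_rfl hN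
      linarith
    have h3 := norm_add_le (∑ n ∈ Finset.Ioc m N, b n * (w n : ℂ) -
      (∑ i ∈ Finset.Icc 1 N, b i - ∑ i ∈ Finset.Icc 1 m, b i) * (w N : ℂ))
      ((∑ i ∈ Finset.Icc 1 N, b i - ∑ i ∈ Finset.Icc 1 m, b i) * (w N : ℂ))
    rw [sub_add_cancel] at h3
    calc _ ≤ _ := h3
      _ ≤ 2 * B * (w (m + 1) - w N) + 2 * B * w N := add_le_add h1 h2
      _ = _ := by ring

theorem one_lt_log_of_three_le {x : ℝ} (hx : 3 ≤ x) : 1 < Real.log x := by
  rw [Real.lt_log_iff_exp_lt (by linarith)]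
  have := Real.exp_one_lt_d9
  linarith

theorem R_bound (k : ℕ) (a : ℕ → ℂ) (M : ℝ) (hM0 : 0 ≤ M)
    (ha : ∀ n : ℕ, 1 ≤ n → ‖a n‖ ≤ 1 + Real.log n)
    (hL : ∀ s : ℂ, 1 < s.re → s.re ≤ 2 →
        ‖LSeries (lc a (2 * k + 1)) s‖ ≤ M * (|s.im| + 2) ^ (1 / 2 : ℝ))
    (x : ℝ) (hx : 3 ≤ x) :
    ‖∑ n ∈ Finset.Icc 1 ⌊x⌋₊, lc a (2 * k + 1) n * (Real.log (x / n) : ℂ)‖ ≤ 12 * M * x := by
  have hl := one_lt_log_of_three_le hx
  have hl0 : 0 < Real.log x := by linarith
  have hT : Tame a := ⟨1, 1, zero_le_one, fun n hn => by simpa using ha n hn⟩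
  set σ : ℝ := 1 + 1 / Real.log x with hσ
  have h1 : 0 < 1 / Real.log x := by positivity
  have h2 : 1 / Real.log x ≤ 1 := by
    rw [div_le_one hl0]; linarith
  have hσ1 : 1 < σ := by linarith
  have hσ2 : σ ≤ 2 := by linarith
  have hre : ∀ t : ℝ, ((σ : ℂ) + t * I).re = σ := fun t => by simp
  have him : ∀ t : ℝ, ((σ : ℂ) + t * I).im = t := fun t => by simp
  have hb := perron_bound (lc a (2 * k + 1)) σ hσ1 (hT.summable _ (by simpa using hσ1)) M
    (fun t => by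
      have := hL ((σ : ℂ) + t * I) (by rw [hre]; exact hσ1) (by rw [hre]; exact hσ2)
      rwa [him] at this) x (by linarith)
  have hxσ : x ^ σ = x * Real.exp 1 := by
    rw [hσ, Real.rpow_add (by linarith), Real.rpow_one, Real.rpow_def_of_pos (by linarith)]
    congr 2
    field_simp
  rw [hxσ] at hb
  have he := Real.exp_one_lt_d9
  have hMx : 0 ≤ M * x := mul_nonneg hM0 (by linarith)
  calc _ ≤ _ := hb
    _ = 4 * Real.exp 1 * (M * x) := by ring
    _ ≤ 12 * (M * x) := mul_le_mul_of_nonneg_right (by linarith) hMx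
    _ = 12 * M * x := by ring

theorem norm_b_le (k : ℕ) (a : ℕ → ℂ) (ha : ∀ n : ℕ, 1 ≤ n → ‖a n‖ ≤ 1 + Real.log n)
    (n : ℕ) (hn : 1 ≤ n) {L : ℝ} (hL : 1 + Real.log n ≤ L) :
    ‖lc a (2 * k + 1) n‖ ≤ L ^ (2 * (k + 1)) := by
  have hl : 0 ≤ Real.log n := Real.log_natCast_nonneg n
  rw [norm_lc]
  calc ‖a n‖ * Real.log n ^ (2 * k + 1) ≤ L * L ^ (2 * k + 1) := by
        apply mul_le_mul ((ha n hn).trans hL) _ (by positivity) (by linarith)
        exact pow_le_pow_left₀ hl (by linarith) _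
    _ = L ^ (2 * (k + 1)) := by ring

theorem log_le_of_mem {x : ℝ} {n : ℕ} (hn : n ∈ Finset.Icc 1 ⌊x⌋₊) :
    Real.log n ≤ Real.log x := by
  have h := Finset.mem_Icc.mp hn
  have h1 : (0 : ℝ) < n := by exact_mod_cast h.1
  have h2 : (n : ℝ) ≤ x := by
    have hf : ⌊x⌋₊ ≠ 0 := by omega
    exact (Nat.le_floor_iff' (by omega)).mp h.2
  exact Real.log_le_log h1 h2

theorem S_bound (k : ℕ) :
    ∃ C : ℝ, 0 < C ∧ ∀ (a : ℕ → ℂ) (M : ℝ), 0 ≤ M →
      (∀ n : ℕ, 1 ≤ n → ‖a n‖ ≤ 1 + Real.log n) →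
      (∀ s : ℂ, 1 < s.re → s.re ≤ 2 →
        ‖LSeries (lc a (2 * k + 1)) s‖ ≤ M * (|s.im| + 2) ^ (1 / 2 : ℝ)) →
      ∀ x : ℝ, 1 ≤ x →
        ‖∑ n ∈ Finset.Icc 1 ⌊x⌋₊, lc a (2 * k + 1) n‖ ≤
          C * (M + 1) * (x * (2 + Real.log x) ^ (k + 1)) := by
  obtain ⟨C1, hC1, h1⟩ := two_add_log_pow_le (2 * (k + 1)) (ε := 1) one_pos
  refine ⟨50 + C1 + 3 ^ (2 * (k + 1)), by positivity, fun a M hM ha hL x hx => ?_⟩
  have hlx : 0 ≤ Real.log x := Real.log_nonneg hx
  set L := 2 + Real.log x with hLdef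
  set H := L ^ (k + 1) with hH
  have hL1 : 1 ≤ L := by linarith
  have hH1 : 1 ≤ H := one_le_pow₀ hL1
  have hH0 : 0 < H := by linarith
  have hx0 : 0 < x := by linarith
  have hxH : 0 < x * H := by positivity
  by_cases hx3 : x < 3
  · -- trivial range
    have hlog3 : Real.log x ≤ 2 := by
      have := Real.log_le_sub_one_of_pos hx0
      linarith
    have hb : ∀ n ∈ Finset.Icc 1 ⌊x⌋₊, ‖lc a (2 * k + 1) n‖ ≤ 3 ^ (2 * (k + 1)) := by
      intro n hn
      exact norm_b_le k a ha n (Finset.mem_Icc.mp hn).1 (by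
        have := log_le_of_mem hn
        linarith)
    have h2 : ‖∑ n ∈ Finset.Icc 1 ⌊x⌋₊, lc a (2 * k + 1) n‖ ≤ x * 3 ^ (2 * (k + 1)) := by
      refine (norm_sum_le _ _).trans ((Finset.sum_le_card_nsmul _ _ _ hb).trans ?_)
      rw [nsmul_eq_mul, Nat.card_Icc, Nat.add_sub_cancel]
      exact mul_le_mul_of_nonneg_right (Nat.floor_le hx0.le) (by positivity)
    refine h2.trans ?_
    calc x * 3 ^ (2 * (k + 1)) ≤ 3 ^ (2 * (k + 1)) * (M + 1) * (x * H) := by
          have : (3 : ℝ) ^ (2 * (k + 1)) * x * 1 ≤ (3 : ℝ) ^ (2 * (k + 1)) * x * ((M + 1) * H) := by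
            apply mul_le_mul_of_nonneg_left _ (by positivity)
            nlinarith
          nlinarith
      _ ≤ _ := by
          apply mul_le_mul_of_nonneg_right _ hxH.le
          apply mul_le_mul_of_nonneg_right _ (by linarith)
          linarith
  · have hx3' : 3 ≤ x := not_lt.mp hx3
    set h : ℝ := 1 / H with hh
    have hh0 : 0 < h := by positivity
    have hh1 : h ≤ 1 := by rw [hh, div_le_one hH0]; exact hH1
    set y : ℝ := x * Real.exp h with hy
    have hexp1 : Real.exp h ≤ 1 + 2 * h := by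
      have h2 := Real.abs_exp_sub_one_sub_id_le (x := h) (by rw [abs_of_pos hh0]; exact hh1)
      have h3 := (abs_le.mp h2).2
      nlinarith
    have hexp0 : 1 ≤ Real.exp h := Real.one_le_exp hh0.le
    have hxy : x ≤ y := by rw [hy]; nlinarith
    have hy3 : y ≤ 3 * x := by rw [hy]; nlinarith
    have hylog : Real.log y = Real.log x + h := by
      rw [hy, Real.log_mul hx0.ne' (Real.exp_pos h).ne', Real.log_exp]
    have hfl : ⌊x⌋₊ ≤ ⌊y⌋₊ := Nat.floor_mono hxy
    have hRx := R_bound k a M hM ha hL x hx3'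
    have hRy := R_bound k a M hM ha hL y (by linarith)
    have hIoc : ∀ n : ℕ, Finset.Icc 1 n = Finset.Ioc 0 n := by
      intro n; ext i; simp; omega
    -- decomposition
    have hdec : ∑ n ∈ Finset.Icc 1 ⌊y⌋₊, lc a (2 * k + 1) n * (Real.log (y / n) : ℂ) =
        ∑ n ∈ Finset.Icc 1 ⌊x⌋₊, lc a (2 * k + 1) n * (Real.log (x / n) : ℂ) +
        (h : ℂ) * ∑ n ∈ Finset.Icc 1 ⌊x⌋₊, lc a (2 * k + 1) n +
        ∑ n ∈ Finset.Ioc ⌊x⌋₊ ⌊y⌋₊, lc a (2 * k + 1) n * (Real.log (y / n) : ℂ) := by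
      rw [hIoc ⌊y⌋₊, ← Finset.sum_Ioc_consecutive _ (Nat.zero_le _) hfl, ← hIoc ⌊x⌋₊]
      congr 1
      rw [Finset.mul_sum, ← Finset.sum_add_distrib]
      refine Finset.sum_congr rfl fun n hn => ?_
      have hn0 : (0 : ℝ) < n := by exact_mod_cast (Finset.mem_Icc.mp hn).1
      have : Real.log (y / n) = Real.log (x / n) + h := by
        rw [Real.log_div (by positivity) hn0.ne', Real.log_div hx0.ne' hn0.ne', hylog]
        ring
      rw [this]
      push_cast
      ring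
    -- error term
    have hE : ‖∑ n ∈ Finset.Ioc ⌊x⌋₊ ⌊y⌋₊, lc a (2 * k + 1) n * (Real.log (y / n) : ℂ)‖ ≤
        (2 * x * h + 1) * (L ^ (2 * (k + 1)) * h) := by
      have hb : ∀ n ∈ Finset.Ioc ⌊x⌋₊ ⌊y⌋₊,
          ‖lc a (2 * k + 1) n * (Real.log (y / n) : ℂ)‖ ≤ L ^ (2 * (k + 1)) * h := by
        intro n hn
        have hn' := Finset.mem_Ioc.mp hn
        have hn1 : 1 ≤ n := by omega
        have hn0 : (0 : ℝ) < n := by exact_mod_cast hn1
        have hxn : x < n := Nat.lt_of_floor_lt hn'.1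
        have hny : (n : ℝ) ≤ y := (Nat.le_floor_iff' (by omega)).mp hn'.2
        have hlog1 : 0 ≤ Real.log (y / n) := by
          apply Real.log_nonneg
          rw [le_div_iff₀ hn0]; linarith
        have hlog2 : Real.log (y / n) ≤ h := by
          rw [Real.log_div (by positivity) hn0.ne', hylog]
          have := Real.log_le_log hx0 hxn.le
          linarith
        rw [norm_mul, Complex.norm_real, Real.norm_of_nonneg hlog1]
        apply mul_le_mul _ hlog2 hlog1 (by positivity)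
        apply norm_b_le k a ha n hn1
        have := Real.log_le_log hn0 hny
        rw [hylog] at this
        linarith
      refine (norm_sum_le _ _).trans ((Finset.sum_le_card_nsmul _ _ _ hb).trans ?_)
      rw [nsmul_eq_mul, Nat.card_Ioc, Nat.cast_sub hfl]
      apply mul_le_mul_of_nonneg_right _ (by positivity)
      have h2 := Nat.floor_le (show 0 ≤ y by linarith)
      have h3 := Nat.lt_floor_add_one x
      have h4 : y - x ≤ 2 * x * h := by rw [hy]; nlinarith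
      linarith
    -- main inequality
    have hmain : h * ‖∑ n ∈ Finset.Icc 1 ⌊x⌋₊, lc a (2 * k + 1) n‖ ≤
        48 * M * x + (2 * x * h + 1) * (L ^ (2 * (k + 1)) * h) := by
      have e : (h : ℂ) * ∑ n ∈ Finset.Icc 1 ⌊x⌋₊, lc a (2 * k + 1) n =
          ∑ n ∈ Finset.Icc 1 ⌊y⌋₊, lc a (2 * k + 1) n * (Real.log (y / n) : ℂ) -
          ∑ n ∈ Finset.Icc 1 ⌊x⌋₊, lc a (2 * k + 1) n * (Real.log (x / n) : ℂ) -
          ∑ n ∈ Finset.Ioc ⌊x⌋₊ ⌊y⌋₊, lc a (2 * k + 1) n * (Real.log (y / n) : ℂ) := by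
        rw [hdec]; ring
      have e2 : h * ‖∑ n ∈ Finset.Icc 1 ⌊x⌋₊, lc a (2 * k + 1) n‖ =
          ‖(h : ℂ) * ∑ n ∈ Finset.Icc 1 ⌊x⌋₊, lc a (2 * k + 1) n‖ := by
        rw [norm_mul, Complex.norm_real, Real.norm_of_nonneg hh0.le]
      rw [e2, e]
      refine (norm_sub_le _ _).trans ?_
      refine (add_le_add (norm_sub_le _ _) hE).trans ?_
      have h5 : 12 * M * y ≤ 12 * M * (3 * x) := mul_le_mul_of_nonneg_left hy3 (by positivity)
      linarith
    have hS : ‖∑ n ∈ Finset.Icc 1 ⌊x⌋₊, lc a (2 * k + 1) n‖ ≤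
        H * (48 * M * x + (2 * x * h + 1) * (L ^ (2 * (k + 1)) * h)) := by
      have h6 := mul_le_mul_of_nonneg_left hmain hH0.le
      have h7 : H * (h * ‖∑ n ∈ Finset.Icc 1 ⌊x⌋₊, lc a (2 * k + 1) n‖) =
          ‖∑ n ∈ Finset.Icc 1 ⌊x⌋₊, lc a (2 * k + 1) n‖ := by
        rw [hh, ← mul_assoc, mul_one_div_cancel hH0.ne', one_mul]
      linarith
    have hLH : L ^ (2 * (k + 1)) = H * H := by rw [hH]; ring
    have hC1x : H * H ≤ C1 * x := by
      have := h1 x hx
      rw [Real.rpow_one, ← hLdef, hLH] at this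
      exact this
    have hHh : H * h = 1 := by rw [hh]; field_simp
    have e3 : H * (48 * M * x + (2 * x * h + 1) * (L ^ (2 * (k + 1)) * h)) =
        48 * M * (x * H) + 2 * (x * H) + H * H := by
      rw [hLH]
      have : H * (48 * M * x + (2 * x * h + 1) * (H * H * h)) =
        48 * M * (x * H) + 2 * x * (H * h) * (H * h) * H + (H * h) * (H * H) := by ring
      rw [this, hHh]
      ring
    rw [e3] at hS
    have h8 : H * H ≤ C1 * (x * H) := by
      have : C1 * x * 1 ≤ C1 * x * H := mul_le_mul_of_nonneg_left hH1 (by positivity)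
      nlinarith
    have h9 : (50 + C1) * (M + 1) * (x * H) ≤
        (50 + C1 + 3 ^ (2 * (k + 1))) * (M + 1) * (x * H) := by
      apply mul_le_mul_of_nonneg_right _ hxH.le
      apply mul_le_mul_of_nonneg_right _ (by linarith)
      have : (0 : ℝ) ≤ 3 ^ (2 * (k + 1)) := by positivity
      linarith
    refine hS.trans (le_trans ?_ h9)
    have h10 : 0 ≤ M * (x * H) := by positivity
    have h11 : 0 ≤ C1 * M * (x * H) := by positivity
    nlinarith

theorem tauber (k : ℕ) :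
    ∃ C : ℝ, 0 < C ∧ ∀ (a : ℕ → ℂ) (M : ℝ), 0 ≤ M → (∀ n : ℕ, 1 ≤ n → ‖a n‖ ≤ 1 + Real.log n) →
      (∀ s : ℂ, 1 < s.re → s.re ≤ 2 →
        ‖LSeries (lc a (2 * k + 1)) s‖ ≤ M * (|s.im| + 2) ^ (1 / 2 : ℝ)) →
      ∀ x : ℝ, 2 ≤ x →
        ‖∑ n ∈ Finset.Icc 1 ⌊x⌋₊, a n‖ ≤ C * (M + 1) * x / (Real.log x) ^ k := by
  obtain ⟨C2, hC2, hS⟩ := S_bound k
  obtain ⟨C3, hC3, h3⟩ := two_add_log_pow_le (k + 1) (ε := 1 / 2) (by norm_num)
  refine ⟨3 * 3 * 2 ^ k + C3 + 2 ^ (2 * k + 2) * 3 ^ (k + 1) * C2, by positivity,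
    fun a M hM ha hL x hx => ?_⟩
  have hx0 : 0 < x := by linarith
  have hlx : 0 < Real.log x := Real.log_pos (by linarith)
  rw [le_div_iff₀ (by positivity)]
  by_cases hx3 : x < 3
  · have hlog3 : Real.log x ≤ 2 := by
      have := Real.log_le_sub_one_of_pos hx0
      linarith
    have hb : ∀ n ∈ Finset.Icc 1 ⌊x⌋₊, ‖a n‖ ≤ 3 := by
      intro n hn
      refine (ha n (Finset.mem_Icc.mp hn).1).trans ?_
      have := log_le_of_mem hn
      linarith
    have h2 : ‖∑ n ∈ Finset.Icc 1 ⌊x⌋₊, a n‖ ≤ x * 3 := by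
      refine (norm_sum_le _ _).trans ((Finset.sum_le_card_nsmul _ _ _ hb).trans ?_)
      rw [nsmul_eq_mul, Nat.card_Icc, Nat.add_sub_cancel]
      exact mul_le_mul_of_nonneg_right (Nat.floor_le hx0.le) (by positivity)
    have h4 : Real.log x ^ k ≤ 2 ^ k := pow_le_pow_left₀ hlx.le hlog3 k
    calc _ ≤ (x * 3) * 2 ^ k := mul_le_mul h2 h4 (by positivity) (by positivity)
      _ ≤ (3 * 3 * 2 ^ k) * (M + 1) * x := by
          have : (0 : ℝ) < 2 ^ k * x := by positivity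
          nlinarith
      _ ≤ _ := by
          apply mul_le_mul_of_nonneg_right _ hx0.le
          apply mul_le_mul_of_nonneg_right _ (by linarith)
          have : (0 : ℝ) ≤ 2 ^ (2 * k + 2) * 3 ^ (k + 1) * C2 := by positivity
          linarith
  · have hx3' : 3 ≤ x := not_lt.mp hx3
    have hl1 := one_lt_log_of_three_le hx3'
    set N := ⌊x⌋₊ with hN
    set m := ⌊Real.sqrt x⌋₊ with hm
    have hsq1 : 1 ≤ Real.sqrt x := by rw [Real.one_le_sqrt]; linarith
    have hsqx : Real.sqrt x ≤ x := by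
      rw [Real.sqrt_le_left (by linarith)]
      nlinarith
    have hm1 : 1 ≤ m := by
      rw [hm]; exact Nat.one_le_floor_iff _ |>.mpr hsq1
    have hmN : m ≤ N := Nat.floor_mono hsqx
    have hIoc : ∀ n : ℕ, Finset.Icc 1 n = Finset.Ioc 0 n := by
      intro n; ext i; simp; omega
    have hsplit : ∑ n ∈ Finset.Icc 1 N, a n =
        ∑ n ∈ Finset.Icc 1 m, a n + ∑ n ∈ Finset.Ioc m N, a n := by
      rw [hIoc N, ← Finset.sum_Ioc_consecutive _ (Nat.zero_le m) hmN, ← hIoc m]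
    -- small part
    have hsmall : ‖∑ n ∈ Finset.Icc 1 m, a n‖ ≤ Real.sqrt x * (2 + Real.log x) := by
      have hb : ∀ n ∈ Finset.Icc 1 m, ‖a n‖ ≤ 2 + Real.log x := by
        intro n hn
        refine (ha n (Finset.mem_Icc.mp hn).1).trans ?_
        have := log_le_of_mem hn
        have h5 := Real.log_le_log (by linarith) hsqx
        linarith
      refine (norm_sum_le _ _).trans ((Finset.sum_le_card_nsmul _ _ _ hb).trans ?_)
      rw [nsmul_eq_mul, Nat.card_Icc, Nat.add_sub_cancel]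
      exact mul_le_mul_of_nonneg_right (Nat.floor_le (Real.sqrt_nonneg x)) (by linarith)
    -- large part
    have hlarge : ‖∑ n ∈ Finset.Ioc m N, a n‖ ≤
        2 * (C2 * (M + 1) * (x * (2 + Real.log x) ^ (k + 1))) *
          ((Real.log (m + 1 : ℕ)) ^ (2 * k + 1))⁻¹ := by
      have e : ∑ n ∈ Finset.Ioc m N, a n = ∑ n ∈ Finset.Ioc m N,
          lc a (2 * k + 1) n * ((((Real.log n) ^ (2 * k + 1))⁻¹ : ℝ) : ℂ) := by
        refine Finset.sum_congr rfl fun n hn => ?_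
        have hn' := Finset.mem_Ioc.mp hn
        have hpos : 0 < Real.log n := Real.log_pos (by exact_mod_cast (by omega : 1 < n))
        simp only [lc]
        rw [mul_assoc, ← Complex.ofReal_mul, mul_inv_cancel₀ (by positivity)]
        simp
      rw [e]
      apply abel_bound (lc a (2 * k + 1)) (fun n => ((Real.log n) ^ (2 * k + 1))⁻¹) m _ _ _ N hmN
      · intro n h5 h6
        have hn1 : 1 ≤ n := by omega
        have hnx : (n : ℝ) ≤ x := (Nat.le_floor_iff' (by omega)).mp h6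
        have hn1' : (1 : ℝ) ≤ n := by exact_mod_cast hn1
        have h7 := hS a M hM ha hL n hn1'
        rw [Nat.floor_natCast] at h7
        refine h7.trans ?_
        have hln : 0 ≤ Real.log n := Real.log_nonneg hn1'
        have h8 : Real.log n ≤ Real.log x := Real.log_le_log (by linarith) hnx
        apply mul_le_mul_of_nonneg_left _ (by positivity)
        apply mul_le_mul hnx _ (by positivity) hx0.le
        exact pow_le_pow_left₀ (by linarith) (by linarith) _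
      · intro n h5
        have hpos : 0 < Real.log n := Real.log_pos (by exact_mod_cast (by omega : 1 < n))
        apply inv_anti₀ (by positivity)
        apply pow_le_pow_left₀ hpos.le
        apply Real.log_le_log (by exact_mod_cast (by omega : 0 < n))
        push_cast
        linarith
      · intro n h5
        have : 0 ≤ Real.log n := Real.log_natCast_nonneg n
        positivity
    have hlogm : Real.log x / 2 ≤ Real.log (m + 1 : ℕ) := by
      rw [← Real.log_sqrt hx0.le]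
      apply Real.log_le_log (by positivity)
      push_cast
      exact (Nat.lt_floor_add_one _).le
    have hlarge2 : ‖∑ n ∈ Finset.Ioc m N, a n‖ * Real.log x ^ k ≤
        2 ^ (2 * k + 2) * 3 ^ (k + 1) * C2 * (M + 1) * x := by
      have h9 : ((Real.log (m + 1 : ℕ)) ^ (2 * k + 1))⁻¹ ≤ ((Real.log x / 2) ^ (2 * k + 1))⁻¹ := by
        apply inv_anti₀ (by positivity)
        exact pow_le_pow_left₀ (by positivity) hlogm _
      have h10 : (2 + Real.log x) ^ (k + 1) ≤ (3 * Real.log x) ^ (k + 1) :=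
        pow_le_pow_left₀ (by linarith) (by linarith) _
      calc _ ≤ (2 * (C2 * (M + 1) * (x * (2 + Real.log x) ^ (k + 1))) *
          ((Real.log (m + 1 : ℕ)) ^ (2 * k + 1))⁻¹) * Real.log x ^ k :=
            mul_le_mul_of_nonneg_right hlarge (by positivity)
        _ ≤ (2 * (C2 * (M + 1) * (x * (3 * Real.log x) ^ (k + 1))) *
          ((Real.log x / 2) ^ (2 * k + 1))⁻¹) * Real.log x ^ k := by
            apply mul_le_mul_of_nonneg_right _ (by positivity)
            apply mul_le_mul _ h9 (by positivity) (by positivity)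
            apply mul_le_mul_of_nonneg_left _ (by positivity)
            apply mul_le_mul_of_nonneg_left _ (by positivity)
            exact mul_le_mul_of_nonneg_left h10 hx0.le
        _ = 2 ^ (2 * k + 2) * 3 ^ (k + 1) * C2 * (M + 1) * x := by
            rw [mul_pow, div_pow, inv_div, pow_succ (Real.log x) k,
              show 2 * k + 1 = k + k + 1 by ring, pow_succ (Real.log x) (k + k),
              pow_add (Real.log x) k k, show 2 * k + 2 = (k + k + 1) + 1 by ring,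
              pow_succ (2 : ℝ) (k + k + 1)]
            have : Real.log x ^ k ≠ 0 := by positivity
            field_simp
    have hsmall2 : ‖∑ n ∈ Finset.Icc 1 m, a n‖ * Real.log x ^ k ≤ C3 * x := by
      calc _ ≤ (Real.sqrt x * (2 + Real.log x)) * (2 + Real.log x) ^ k := by
            apply mul_le_mul hsmall _ (by positivity) (by positivity)
            exact pow_le_pow_left₀ hlx.le (by linarith) k
        _ = Real.sqrt x * (2 + Real.log x) ^ (k + 1) := by ring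
        _ ≤ Real.sqrt x * (C3 * x ^ (1 / 2 : ℝ)) :=
            mul_le_mul_of_nonneg_left (h3 x (by linarith)) (Real.sqrt_nonneg x)
        _ = C3 * x := by
            rw [← Real.sqrt_eq_rpow]
            have := Real.mul_self_sqrt hx0.le
            calc Real.sqrt x * (C3 * Real.sqrt x) = C3 * (Real.sqrt x * Real.sqrt x) := by ring
              _ = _ := by rw [this]
    rw [hsplit]
    calc ‖∑ n ∈ Finset.Icc 1 m, a n + ∑ n ∈ Finset.Ioc m N, a n‖ * Real.log x ^ k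
        ≤ (‖∑ n ∈ Finset.Icc 1 m, a n‖ + ‖∑ n ∈ Finset.Ioc m N, a n‖) * Real.log x ^ k :=
          mul_le_mul_of_nonneg_right (norm_add_le _ _) (by positivity)
      _ ≤ C3 * x + 2 ^ (2 * k + 2) * 3 ^ (k + 1) * C2 * (M + 1) * x := by
          rw [add_mul]; exact add_le_add hsmall2 hlarge2
      _ ≤ _ := by
          have h11 : 0 ≤ C3 * M * x := by positivity
          have h12 : 0 ≤ 3 * 3 * (2 : ℝ) ^ k * (M + 1) * x := by positivity
          nlinarith

end Pool.Agent.Lib.SW
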