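import Pool.Agent.Lib.SW.LG1

/-!
# FW-1: prime pairs p, p + a for almost all a (with the singular series cut at log log x)

PROOF of `pairs_almost_all`. Apply `local_global` (K = 3, ε' small) with X = x, S = {x - p : p prime, p < x} ⊆ Icc 1 x, N = x + a, 1 ≤ a ≤ x:
N - s = p + a for s = x - p, so reps S N = #{p < x : p prime, p + a prime} and SN = #{p < x prime : (p+a, W) = 1} =: m(a). For all but ε' x of the a in
[1,x]: reps ≥ (W/φ(W)) (m(a) - ε' max(m(a), x/(log x)^3))/log x.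
For a with V2 := #{c mod W : (c,W) = (c+a,W) = 1} > 0: m(a) = ∑_{c, c+a units} π(x;W,c) ± w, and by `theta_ap` (k = 8, ε = 1; W ≤ (log x)^2, θ ≤ π log x)
π(x;W,c) ≥ θ(x;W,c)/log x ≥ (1-ε')x/(φ(W) log x); with π(x) ≤ (1+ε') x/log x (`theta_ap` for q = 1 and partial summation, or Mathlib / `pnt`-type: see below) we get
m(a) ≥ (1-2ε') V2/φ(W) · π(x). Here V2/W = ∏_{p ≤ w}(1 - ν/p) (ν = 1 if p | a, 2 otherwise; CRT), so
(W/φ(W)) m(a)/log x ≥ (1-3ε') (W V2/φ(W)^2) π(x)^2/x = (1-3ε') S2w a w π(x)^2/x (using log x ≤ (1+ε') x/π(x)).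
m(a) ≥ x/(log x)^3 because V2/φ(W) ≥ 1/φ(W) ≥ (log x)^(-2)·.. is too weak: use V2/W = ∏(1-ν/p) ≥ (1/2)∏_{3≤p≤w}(1-2/p) ≥ c/(log w)^2, i.e. simply
V2 ≥ φ(W) · ∏_{3≤p≤w} (p-2)/(p-1) ≥ φ(W)/w (telescoping: (p-2)/(p-1) over odd p is ≥ ∏_{n=3}^{w} (n-2)/(n-1) = 1/(w-1)). If V2 = 0 (a odd) there is nothing to prove.
The bound π(x) log x ≤ (1+ε')x: from `theta_ap` with q = 1: π(x) ≤ π(x^(1-ε'')) + θ(x)/((1-ε'') log x).
-/

open Finset Pool.Agent.Lib.GT

namespace Pool.Agent.Lib.SW

/-- the singular series of `{0, a}` over the primes `≤ w` -/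
noncomputable def S2w (a w : ℕ) : ℝ :=
  ∏ p ∈ (Icc 1 w).filter Nat.Prime, (1 - (if p ∣ a then (1 : ℝ) else 2) / p) / (1 - 1 / (p : ℝ)) ^ 2

/-! ### auxiliary lemmas -/

theorem FW1_filter_succ (w : ℕ) : (Icc 1 (w + 1)).filter Nat.Prime =
    if (w + 1).Prime then insert (w + 1) ((Icc 1 w).filter Nat.Prime)
      else (Icc 1 w).filter Nat.Prime := by
  have h : Icc 1 (w + 1) = insert (w + 1) (Icc 1 w) := by
    ext n
    simp only [mem_Icc, mem_insert]
    omega
  rw [h, filter_insert]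

theorem FW1_not_mem (w : ℕ) : (w + 1) ∉ (Icc 1 w).filter Nat.Prime := by
  intro h
  have := (mem_Icc.1 (mem_filter.1 h).1).2
  omega

theorem FW1_S2w_succ (a w : ℕ) (hp : (w + 1).Prime) : S2w a (w + 1) =
    ((1 - (if (w + 1) ∣ a then (1 : ℝ) else 2) / ((w + 1 : ℕ) : ℝ)) /
      (1 - 1 / ((w + 1 : ℕ) : ℝ)) ^ 2) * S2w a w := by
  unfold S2w
  rw [FW1_filter_succ, if_pos hp, prod_insert (FW1_not_mem w)]

theorem FW1_S2w_succ' (a w : ℕ) (hp : ¬ (w + 1).Prime) : S2w a (w + 1) = S2w a w := by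
  unfold S2w
  rw [FW1_filter_succ, if_neg hp]

theorem FW1_primorial_succ (w : ℕ) (hp : (w + 1).Prime) :
    primorial (w + 1) = (w + 1) * primorial w := by
  unfold primorial
  rw [Finset.range_add_one, Finset.filter_insert, if_pos hp, Finset.prod_insert]
  simp

theorem FW1_primorial_succ' (w : ℕ) (hp : ¬ (w + 1).Prime) :
    primorial (w + 1) = primorial w := by
  unfold primorial
  rw [Finset.range_add_one, Finset.filter_insert, if_neg hp]

theorem FW1_S2w_ge (a : ℕ) (ha : Even a) (m : ℕ) :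
    ((m : ℝ) + 2) / ((m : ℝ) + 1) ≤ S2w a (m + 2) := by
  induction m with
  | zero =>
    have h1 : (Icc 1 (0 + 2)).filter Nat.Prime = {2} := by decide
    unfold S2w
    rw [h1, prod_singleton, if_pos ha.two_dvd]
    norm_num
  | succ m ih =>
    have hm : (0 : ℝ) ≤ m := Nat.cast_nonneg m
    by_cases hp : (m + 2 + 1).Prime
    · have e : m + 1 + 2 = m + 2 + 1 := by ring
      rw [e, FW1_S2w_succ a _ hp]
      have h0 : (0 : ℝ) < (1 - 1 / ((m + 2 + 1 : ℕ) : ℝ)) ^ 2 := by
        have : (0 : ℝ) < 1 - 1 / ((m + 2 + 1 : ℕ) : ℝ) := by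
          rw [sub_pos, div_lt_one (by positivity)]
          push_cast
          linarith
        positivity
      have h1 : (1 - 2 / ((m + 2 + 1 : ℕ) : ℝ)) / (1 - 1 / ((m + 2 + 1 : ℕ) : ℝ)) ^ 2 ≤
          (1 - (if (m + 2 + 1) ∣ a then (1 : ℝ) else 2) / ((m + 2 + 1 : ℕ) : ℝ)) /
            (1 - 1 / ((m + 2 + 1 : ℕ) : ℝ)) ^ 2 := by
        refine div_le_div_of_nonneg_right ?_ h0.le
        have : (if (m + 2 + 1) ∣ a then (1 : ℝ) else 2) ≤ 2 := by split_ifs <;> norm_num
        have := div_le_div_of_nonneg_right this (Nat.cast_nonneg (α := ℝ) (m + 2 + 1))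
        linarith
      have h2 : (1 - 2 / ((m + 2 + 1 : ℕ) : ℝ)) / (1 - 1 / ((m + 2 + 1 : ℕ) : ℝ)) ^ 2 =
          ((m : ℝ) + 1) * ((m : ℝ) + 3) / ((m : ℝ) + 2) ^ 2 := by
        push_cast
        have h4 : 1 - 1 / ((m : ℝ) + 2 + 1) = ((m : ℝ) + 2) / ((m : ℝ) + 3) := by
          field_simp
          ring
        have h5 : 1 - 2 / ((m : ℝ) + 2 + 1) = ((m : ℝ) + 1) / ((m : ℝ) + 3) := by
          field_simp
          ring
        rw [h4, h5]
        field_simp
      have h3 : (0 : ℝ) ≤ ((m : ℝ) + 1) * ((m : ℝ) + 3) / ((m : ℝ) + 2) ^ 2 := by positivity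
      have h4 : (0 : ℝ) ≤ ((m : ℝ) + 2) / ((m : ℝ) + 1) := by positivity
      calc (((m + 1 : ℕ) : ℝ) + 2) / (((m + 1 : ℕ) : ℝ) + 1)
          = ((m : ℝ) + 1) * ((m : ℝ) + 3) / ((m : ℝ) + 2) ^ 2 * (((m : ℝ) + 2) / ((m : ℝ) + 1)) := by
            push_cast
            have e3 : (m : ℝ) + 1 + 2 = m + 3 := by ring
            have e4 : (m : ℝ) + 1 + 1 = m + 2 := by ring
            rw [e3, e4]
            field_simp
        _ ≤ _ := mul_le_mul (h2 ▸ h1) ih h4 (h3.trans (h2 ▸ h1))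
    · have e : m + 1 + 2 = m + 2 + 1 := by ring
      rw [e, FW1_S2w_succ' a _ hp]
      refine le_trans ?_ ih
      push_cast
      rw [div_le_div_iff₀ (by positivity) (by positivity)]
      nlinarith

/-- for even `a` the product is at least one -/
theorem one_le_S2w (a w : ℕ) (ha : Even a) (hw : 2 ≤ w) : 1 ≤ S2w a w := by
  obtain ⟨m, rfl⟩ : ∃ m, w = m + 2 := ⟨w - 2, by omega⟩
  refine le_trans ?_ (FW1_S2w_ge a ha m)
  have hm : (0 : ℝ) ≤ m := Nat.cast_nonneg m
  rw [one_le_div (by positivity)]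
  linarith

/-- number of admissible residues -/
def FW1V (W a : ℕ) : ℕ :=
  ((range W).filter (fun c => Nat.Coprime c W ∧ Nat.Coprime (c + a) W)).card

theorem FW1V_zmod (W a : ℕ) [NeZero W] : FW1V W a =
    Fintype.card {c : ZMod W // IsUnit c ∧ IsUnit (c + (a : ZMod W))} := by
  classical
  rw [Fintype.card_subtype]
  unfold FW1V
  refine card_nbij' (fun c => (c : ZMod W)) (fun c => c.val) ?_ ?_ ?_ ?_
  · intro c hc
    simp only [coe_filter, mem_range, Set.mem_ofPred_eq] at hc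
    simp only [coe_filter, mem_univ, true_and, Set.mem_ofPred_eq]
    refine ⟨(ZMod.isUnit_iff_coprime c W).2 hc.2.1, ?_⟩
    have := (ZMod.isUnit_iff_coprime (c + a) W).2 hc.2.2
    push_cast at this
    exact this
  · intro c hc
    simp only [coe_filter, mem_univ, true_and, Set.mem_ofPred_eq] at hc
    simp only [coe_filter, mem_range, Set.mem_ofPred_eq]
    refine ⟨ZMod.val_lt c, ?_, ?_⟩
    · rw [← ZMod.isUnit_iff_coprime, ZMod.natCast_zmod_val]
      exact hc.1
    · rw [← ZMod.isUnit_iff_coprime]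
      push_cast
      rw [ZMod.natCast_zmod_val]
      exact hc.2
  · intro c hc
    simp only [coe_filter, mem_range, Set.mem_ofPred_eq] at hc
    exact ZMod.val_cast_of_lt hc.1
  · intro c _
    exact ZMod.natCast_zmod_val c

theorem FW1V_mul (m n a : ℕ) [NeZero m] [NeZero n] (h : Nat.Coprime m n) :
    FW1V (m * n) a = FW1V m a * FW1V n a := by
  classical
  have : NeZero (m * n) := ⟨mul_ne_zero (NeZero.ne m) (NeZero.ne n)⟩
  rw [FW1V_zmod, FW1V_zmod, FW1V_zmod, ← Fintype.card_prod]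
  set e := ZMod.chineseRemainder h with he
  refine Fintype.card_congr ?_
  refine Equiv.trans (Equiv.subtypeEquiv (q := fun c : ZMod m × ZMod n =>
    (IsUnit c.1 ∧ IsUnit (c.1 + (a : ZMod m))) ∧ (IsUnit c.2 ∧ IsUnit (c.2 + (a : ZMod n))))
      e.toEquiv ?_) ?_
  · intro c
    have h1 : IsUnit c ↔ IsUnit (e c) := (MulEquiv.isUnit_map e.toMulEquiv).symm
    have h2 : IsUnit (c + (a : ZMod (m * n))) ↔ IsUnit (e (c + (a : ZMod (m * n)))) :=
      (MulEquiv.isUnit_map e.toMulEquiv).symm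
    rw [h1, h2, map_add, map_natCast, Prod.isUnit_iff, Prod.isUnit_iff]
    constructor
    · rintro ⟨⟨h3, h4⟩, h5, h6⟩
      exact ⟨⟨h3, h5⟩, h4, h6⟩
    · rintro ⟨⟨h3, h5⟩, h4, h6⟩
      exact ⟨⟨h3, h4⟩, h5, h6⟩
  · exact Equiv.subtypeProdEquivProd (p := fun c : ZMod m => IsUnit c ∧ IsUnit (c + (a : ZMod m)))
      (q := fun c : ZMod n => IsUnit c ∧ IsUnit (c + (a : ZMod n)))

theorem FW1V_prime (p a : ℕ) (hp : p.Prime) :
    (FW1V p a : ℝ) = (p : ℝ) - (if p ∣ a then (1 : ℝ) else 2) := by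
  classical
  have : Fact p.Prime := ⟨hp⟩
  rw [FW1V_zmod, Fintype.card_subtype]
  have h1 : (univ.filter fun c : ZMod p => IsUnit c ∧ IsUnit (c + (a : ZMod p))) =
      (univ \ {0, -(a : ZMod p)} : Finset (ZMod p)) := by
    ext c
    simp only [mem_filter, mem_univ, true_and, mem_sdiff, mem_insert, mem_singleton, not_or,
      isUnit_iff_ne_zero]
    constructor
    · rintro ⟨h1, h2⟩
      refine ⟨h1, fun h => h2 ?_⟩
      rw [h, neg_add_cancel]
    · rintro ⟨h1, h2⟩
      exact ⟨h1, fun h => h2 (eq_neg_of_add_eq_zero_left h)⟩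
  rw [h1, card_sdiff_of_subset (subset_univ _), card_univ, ZMod.card]
  by_cases h : p ∣ a
  · have h2 : (a : ZMod p) = 0 := (ZMod.natCast_eq_zero_iff a p).2 h
    rw [if_pos h, h2, neg_zero]
    simp only [mem_singleton, insert_eq_of_mem, card_singleton]
    rw [Nat.cast_sub hp.one_le]
    norm_num
  · have h2 : (a : ZMod p) ≠ 0 := fun h3 => h ((ZMod.natCast_eq_zero_iff a p).1 h3)
    rw [if_neg h, card_pair (fun h4 => h2 (neg_eq_zero.1 h4.symm)), Nat.cast_sub hp.two_le]
    norm_num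

theorem FW1V_primorial (a w : ℕ) : (FW1V (primorial w) a : ℝ) * (primorial w : ℝ) =
    S2w a w * ((primorial w).totient : ℝ) ^ 2 := by
  induction w with
  | zero =>
    have h1 : S2w a 0 = 1 := by
      unfold S2w
      simp
    rw [h1, primorial_zero]
    have : FW1V 1 a = 1 := by
      unfold FW1V
      simp
    rw [this]
    simp
  | succ w ih =>
    by_cases hp : (w + 1).Prime
    · have hco : Nat.Coprime (w + 1) (primorial w) := by
        rw [Nat.Prime.coprime_iff_not_dvd hp, hp.dvd_primorial_iff]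
        omega
      have : NeZero (primorial w) := ⟨primorial_ne_zero w⟩
      rw [FW1_primorial_succ w hp, FW1V_mul _ _ _ hco, Nat.totient_mul hco,
        Nat.totient_prime hp, FW1_S2w_succ a w hp]
      push_cast
      have h1 := FW1V_prime (w + 1) a hp
      rw [h1]
      have hw1 := hp.two_le
      have hw : (0 : ℝ) < w := by
        have : 0 < w := by omega
        exact_mod_cast this
      have h2 : 1 - 1 / ((w : ℝ) + 1) = w / ((w : ℝ) + 1) := by
        field_simp
        ring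
      set ν : ℝ := (if (w + 1) ∣ a then (1 : ℝ) else 2) with hν
      have h3 : 1 - ν / ((w : ℝ) + 1) = ((w : ℝ) + 1 - ν) / ((w : ℝ) + 1) := by
        field_simp
      push_cast
      rw [h2, h3]
      have e1 : ((w : ℝ) + 1 - ν) * (FW1V (primorial w) a : ℝ) * (((w : ℝ) + 1) * (primorial w : ℝ)) =
          ((w : ℝ) + 1 - ν) * ((w : ℝ) + 1) * ((FW1V (primorial w) a : ℝ) * (primorial w : ℝ)) := by
        ring
      rw [e1, ih]
      field_simp
    · rw [FW1_primorial_succ' w hp, FW1_S2w_succ' a w hp]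
      exact ih

/-! ### prime number theorem -/

theorem FW1_primeCounting (y : ℕ) :
    Nat.primeCounting y = ((Icc 1 y).filter Nat.Prime).card := by
  rw [Nat.primeCounting, Nat.primeCounting', Nat.count_eq_card_filter_range]
  congr 1
  ext p
  rw [mem_filter, mem_filter, mem_range, mem_Icc]
  constructor
  · rintro ⟨h1, h2⟩; exact ⟨⟨h2.one_le, by omega⟩, h2⟩
  · rintro ⟨⟨_, h1⟩, h2⟩; exact ⟨by omega, h2⟩

theorem FW1_rpow_log {κ a : ℝ} (hκ : 0 < κ) (ha : 0 < a) : ∃ y₀ : ℕ, ∀ y : ℕ, y₀ ≤ y →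
    (y : ℝ) ^ (1 - κ) * Real.log y ≤ a * y := by
  have h4 := (isLittleO_log_rpow_atTop hκ).tendsto_div_nhds_zero
  have h6 := (h4.comp tendsto_natCast_atTop_atTop).eventually_lt_const ha
  obtain ⟨N₀, hN₀⟩ := Filter.eventually_atTop.mp h6
  refine ⟨max N₀ 1, fun y hy => ?_⟩
  have h7 := hN₀ y ((le_max_left _ _).trans hy)
  have hy1 : (1 : ℝ) ≤ y := by exact_mod_cast (le_max_right _ _).trans hy
  have hy0 : (0 : ℝ) < y := by linarith
  simp only [Function.comp] at h7
  rw [div_lt_iff₀ (by positivity)] at h7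
  calc (y : ℝ) ^ (1 - κ) * Real.log y ≤ (y : ℝ) ^ (1 - κ) * (a * (y : ℝ) ^ κ) :=
        mul_le_mul_of_nonneg_left h7.le (by positivity)
    _ = a * ((y : ℝ) ^ (1 - κ) * (y : ℝ) ^ κ) := by ring
    _ = a * y := by
        rw [← Real.rpow_add hy0]
        norm_num

theorem FW1_card_mul_log {κ : ℝ} (hκ0 : 0 < κ) (hκ1 : κ < 1) {y : ℕ} (hy : 1 ≤ y) (S : Finset ℕ)
    (hS : ∀ p ∈ S, p.Prime ∧ p ≤ y) :
    (1 - κ) * (S.card : ℝ) * Real.log y ≤ ∑ p ∈ S, Real.log p +
      (y : ℝ) ^ (1 - κ) * Real.log y := by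
  classical
  have hyR : (1 : ℝ) ≤ y := by exact_mod_cast hy
  have hlog : 0 ≤ Real.log y := Real.log_nonneg hyR
  set T : Finset ℕ := S.filter (fun p : ℕ => (p : ℝ) ≤ (y : ℝ) ^ (1 - κ)) with hT
  have h1 : (T.card : ℝ) ≤ (y : ℝ) ^ (1 - κ) := by
    have h2 : T ⊆ Finset.Icc 1 ⌊(y : ℝ) ^ (1 - κ)⌋₊ := by
      intro p hp
      rw [hT, Finset.mem_filter] at hp
      rw [Finset.mem_Icc]
      exact ⟨(hS p hp.1).1.one_le, Nat.le_floor hp.2⟩
    have h3 := Finset.card_le_card h2
    rw [Nat.card_Icc] at h3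
    have h4 : (T.card : ℝ) ≤ ⌊(y : ℝ) ^ (1 - κ)⌋₊ := by exact_mod_cast (by omega : T.card ≤ _)
    exact h4.trans (Nat.floor_le (by positivity))
  have h2 : ∀ p ∈ S \ T, (1 - κ) * Real.log y ≤ Real.log p := by
    intro p hp
    rw [Finset.mem_sdiff, hT, Finset.mem_filter] at hp
    have h3 : (y : ℝ) ^ (1 - κ) < p := by
      by_contra h4
      exact hp.2 ⟨hp.1, not_lt.mp h4⟩
    calc (1 - κ) * Real.log y = Real.log ((y : ℝ) ^ (1 - κ)) := by
          rw [Real.log_rpow (by linarith)]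
      _ ≤ Real.log p := Real.log_le_log (by positivity) h3.le
  have h3 : ((S \ T).card : ℝ) * ((1 - κ) * Real.log y) ≤ ∑ p ∈ S \ T, Real.log p := by
    rw [← nsmul_eq_mul]
    exact Finset.card_nsmul_le_sum _ _ _ h2
  have h4 : ∑ p ∈ S \ T, Real.log p ≤ ∑ p ∈ S, Real.log (p : ℝ) :=
    Finset.sum_le_sum_of_subset_of_nonneg Finset.sdiff_subset
      fun p _ _ => Real.log_natCast_nonneg p
  have h5 : S.card ≤ T.card + (S \ T).card := by
    rw [← Finset.card_sdiff_add_card_inter S T]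
    have : (S ∩ T).card ≤ T.card := Finset.card_le_card Finset.inter_subset_right
    omega
  have h5R : (S.card : ℝ) ≤ T.card + (S \ T).card := by exact_mod_cast h5
  have h6 : (1 - κ) * (T.card : ℝ) * Real.log y ≤ (y : ℝ) ^ (1 - κ) * Real.log y := by
    apply mul_le_mul_of_nonneg_right _ hlog
    have : (1 - κ) * (T.card : ℝ) ≤ 1 * T.card :=
      mul_le_mul_of_nonneg_right (by linarith) (Nat.cast_nonneg _)
    linarith
  calc (1 - κ) * (S.card : ℝ) * Real.log y
      ≤ (1 - κ) * (T.card + (S \ T).card : ℝ) * Real.log y := by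
        apply mul_le_mul_of_nonneg_right _ hlog
        exact mul_le_mul_of_nonneg_left h5R (by linarith)
    _ = (1 - κ) * (T.card : ℝ) * Real.log y + (S \ T).card * ((1 - κ) * Real.log y) := by ring
    _ ≤ _ := by linarith

/-- the sum of `log p` over the primes `p ≤ x` is asymptotic to `x` -/
theorem FW1_theta (δ : ℝ) (hδ : 0 < δ) : ∃ X₀ : ℕ, ∀ x : ℕ, X₀ ≤ x →
    |∑ p ∈ (Icc 1 x).filter Nat.Prime, Real.log p - x| ≤ δ * x := by
  obtain ⟨C, hC, h⟩ := theta_ap 1 1 one_pos
  obtain ⟨N₀, hN₀⟩ := Filter.eventually_atTop.1 (ev_log (C / δ))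
  refine ⟨max N₀ 2, fun x hx => ?_⟩
  have hx1 := hN₀ x ((le_max_left _ _).trans hx)
  have hx2 : 2 ≤ x := (le_max_right _ _).trans hx
  have hx3 : (2 : ℝ) ≤ x := by exact_mod_cast hx2
  have hL : 0 < Real.log x := Real.log_pos (by linarith)
  have h1 := h 1 0 le_rfl (by norm_num) x hx3
  rw [Nat.floor_natCast] at h1
  have h2 : (Icc 1 x).filter (fun n => n.Prime ∧ n ≡ 0 [MOD 1]) = (Icc 1 x).filter Nat.Prime := by
    refine filter_congr fun n _ => ?_
    constructor
    · exact fun h => h.1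
    · exact fun h => ⟨h, Nat.modEq_one⟩
  rw [h2, Nat.totient_one, Nat.cast_one, div_one, Real.one_rpow, mul_one, pow_one] at h1
  refine h1.trans ?_
  rw [div_le_iff₀ hL]
  rw [div_le_iff₀ hδ] at hx1
  nlinarith

theorem primeCounting_mul_log (ε : ℝ) (hε : 0 < ε) : ∃ X₀ : ℕ, ∀ x : ℕ, X₀ ≤ x →
    (1 - ε) * x ≤ (Nat.primeCounting x : ℝ) * Real.log x ∧
      (Nat.primeCounting x : ℝ) * Real.log x ≤ (1 + ε) * x := by
  set δ : ℝ := min (1 / 2) (ε / (2 * (3 + ε))) with hδ
  have hδ0 : 0 < δ := by positivity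
  have hδ1 : δ < 1 := lt_of_le_of_lt (min_le_left _ _) (by norm_num)
  have hδ2 : δ * (3 + ε) ≤ ε / 2 := by
    have h1 : δ ≤ ε / (2 * (3 + ε)) := min_le_right _ _
    calc δ * (3 + ε) ≤ ε / (2 * (3 + ε)) * (3 + ε) := mul_le_mul_of_nonneg_right h1 (by linarith)
      _ = ε / 2 := by field_simp
  have hδ3 : δ ≤ ε := by nlinarith
  obtain ⟨y₁, hy₁⟩ := FW1_rpow_log hδ0 hδ0
  obtain ⟨y₂, hy₂⟩ := FW1_theta δ hδ0
  refine ⟨max (max y₁ y₂) 1, fun y hy => ?_⟩
  have hya := hy₁ y ((le_max_left _ _).trans ((le_max_left _ _).trans hy))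
  have hyb := abs_le.1 (hy₂ y ((le_max_right _ _).trans ((le_max_left _ _).trans hy)))
  have hy1 : 1 ≤ y := (le_max_right _ _).trans hy
  have hyR : (0 : ℝ) < y := by exact_mod_cast hy1
  constructor
  · have h1 : ∑ p ∈ (Icc 1 y).filter Nat.Prime, Real.log p ≤
        (Nat.primeCounting y : ℝ) * Real.log y := by
      rw [FW1_primeCounting, ← nsmul_eq_mul]
      refine Finset.sum_le_card_nsmul _ _ _ fun p hp => ?_
      rw [Finset.mem_filter, Finset.mem_Icc] at hp
      exact Real.log_le_log (by exact_mod_cast hp.1.1) (by exact_mod_cast hp.1.2)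
    nlinarith [hyb.1]
  · have h1 := FW1_card_mul_log hδ0 hδ1 hy1 ((Finset.Icc 1 y).filter Nat.Prime) (fun p hp => by
      rw [Finset.mem_filter, Finset.mem_Icc] at hp
      exact ⟨hp.2, hp.1.2⟩)
    rw [← FW1_primeCounting] at h1
    have h2 : (1 - δ) * ((Nat.primeCounting y : ℝ) * Real.log y) ≤ (1 - δ) * ((1 + ε) * y) := by
      calc (1 - δ) * ((Nat.primeCounting y : ℝ) * Real.log y)
          = (1 - δ) * (Nat.primeCounting y : ℝ) * Real.log y := by ring
        _ ≤ (1 + δ) * y + δ * y := by linarith [hyb.2]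
        _ ≤ (1 - δ) * ((1 + ε) * y) := by nlinarith
    exact le_of_mul_le_mul_left h2 (by linarith)

/-! ### the lower bound for the number of `p` with `p + a` coprime to `W` -/

/-- few primes are lost when counting by residue classes -/
theorem FW1_classes (W a x : ℕ) (hW : 0 < W) :
    ∑ c ∈ (range W).filter (fun c => Nat.Coprime c W ∧ Nat.Coprime (c + a) W),
      ((Icc 1 x).filter (fun n => n.Prime ∧ n ≡ c [MOD W])).card ≤
    ((Icc 1 x).filter (fun p => p.Prime ∧ Nat.Coprime (p + a) W)).card := by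
  classical
  rw [card_eq_sum_card_fiberwise (f := fun p => p % W) (t := range W)
    (fun p _ => by simpa using Nat.mod_lt p hW)]
  refine le_trans ?_ (sum_le_sum_of_subset (filter_subset
    (fun c => Nat.Coprime c W ∧ Nat.Coprime (c + a) W) (range W)))
  refine sum_le_sum fun c hc => ?_
  rw [mem_filter, mem_range] at hc
  refine card_le_card fun p hp => ?_
  rw [mem_filter] at hp
  have h1 : p % W = c := by
    have h2 : p % W = c % W := hp.2.2
    rw [h2, Nat.mod_eq_of_lt hc.1]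
  rw [mem_filter, mem_filter]
  refine ⟨⟨hp.1, hp.2.1, ?_⟩, h1⟩
  have h3 : p + a ≡ c + a [MOD W] := Nat.ModEq.add_right a hp.2.2
  have h4 := Nat.ModEq.gcd_eq h3
  unfold Nat.Coprime
  rw [h4]
  exact hc.2.2

theorem FW1_class_lower (C : ℝ) (x W c : ℕ) (hx : 2 ≤ x) (hW : 1 ≤ W)
    (h : |∑ n ∈ (Icc 1 ⌊(x : ℝ)⌋₊).filter (fun n => n.Prime ∧ n ≡ c [MOD W]),
          Real.log n - x / W.totient| ≤ C * (W : ℝ) ^ (1 : ℝ) * x / (Real.log x) ^ 8) :
    ((x : ℝ) / W.totient - C * W * x / (Real.log x) ^ 8) / Real.log x ≤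
      (((Icc 1 x).filter (fun n => n.Prime ∧ n ≡ c [MOD W])).card : ℝ) := by
  have hx3 : (2 : ℝ) ≤ x := by exact_mod_cast hx
  have hL : 0 < Real.log x := Real.log_pos (by linarith)
  rw [Nat.floor_natCast, Real.rpow_one] at h
  rw [div_le_iff₀ hL]
  have h1 : ∑ n ∈ (Icc 1 x).filter (fun n => n.Prime ∧ n ≡ c [MOD W]), Real.log n ≤
      (((Icc 1 x).filter (fun n => n.Prime ∧ n ≡ c [MOD W])).card : ℝ) * Real.log x := by
    rw [← nsmul_eq_mul]
    refine sum_le_card_nsmul _ _ _ fun p hp => ?_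
    rw [mem_filter, mem_Icc] at hp
    exact Real.log_le_log (by exact_mod_cast hp.1.1) (by exact_mod_cast hp.1.2)
  linarith [(abs_le.1 h).1]

/-- the set `{x - p : p < x prime}` -/
def FW1S (x : ℕ) : Finset ℕ := ((Icc 1 x).filter (fun p => p.Prime ∧ p < x)).image (fun p => x - p)

theorem FW1S_sub (x : ℕ) : FW1S x ⊆ Icc 1 x := by
  intro s hs
  unfold FW1S at hs
  rw [mem_image] at hs
  obtain ⟨p, hp, rfl⟩ := hs
  rw [mem_filter, mem_Icc] at hp
  rw [mem_Icc]
  omega

theorem FW1_count (x a : ℕ) (P : ℕ → Prop) [DecidablePred P] :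
    ((FW1S x).filter (fun s => s < x + a ∧ P (x + a - s))).card =
      ((Icc 1 x).filter (fun p => p.Prime ∧ p < x ∧ P (p + a))).card := by
  symm
  refine card_nbij' (fun p => x - p) (fun s => x - s) ?_ ?_ ?_ ?_
  · intro p hp
    simp only [coe_filter, mem_Icc, Set.mem_ofPred_eq] at hp
    have e : x + a - (x - p) = p + a := by omega
    simp only [coe_filter, Set.mem_ofPred_eq, e]
    refine ⟨?_, by omega, hp.2.2.2⟩
    unfold FW1S
    exact mem_image.2 ⟨p, mem_filter.2 ⟨mem_Icc.2 hp.1, hp.2.1, hp.2.2.1⟩, rfl⟩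
  · intro s hs
    simp only [coe_filter, Set.mem_ofPred_eq] at hs
    unfold FW1S at hs
    rw [mem_image] at hs
    obtain ⟨⟨p, hp, rfl⟩, h2, h3⟩ := hs
    rw [mem_filter, mem_Icc] at hp
    have e : x + a - (x - p) = p + a := by omega
    have e2 : x - (x - p) = p := by omega
    rw [e] at h3
    simp only [coe_filter, mem_Icc, Set.mem_ofPred_eq, e2]
    exact ⟨hp.1, hp.2.1, hp.2.2, h3⟩
  · intro p hp
    simp only [coe_filter, mem_Icc, Set.mem_ofPred_eq] at hp
    show x - (x - p) = p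
    omega
  · intro s hs
    simp only [coe_filter, Set.mem_ofPred_eq] at hs
    have := FW1S_sub x hs.1
    rw [mem_Icc] at this
    show x - (x - s) = s
    omega

/-- elementary inequality used in the last step -/
theorem FW1_alg (η ε c L x S V π m r φ W : ℝ) (hη : 0 < η) (hη1 : 8 * η ≤ 1) (hηε : 8 * η ≤ ε)
    (hc1 : 1 ≤ c) (hcL : c ≤ L) (hL : 4 ≤ L) (hS : 1 ≤ S) (hφ : 0 < φ) (hW : 0 < W)
    (hcW : c = W / φ) (hVW : V * W = S * φ ^ 2) (hx : L ^ 3 ≤ η * x)
    (hm : V * ((x / φ) * (1 - η)) / L - 1 ≤ m)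
    (hπ0 : 0 ≤ π) (hπ : π * L ≤ (1 + η) * x)
    (hr : |r - c * m / L| ≤ η * c * max m (x / L ^ 3) / L) :
    (1 - ε) * S * π ^ 2 / x ≤ r := by
  have hL0 : 0 < L := by linarith
  have hx0 : 0 < x := by
    by_contra h
    push Not at h
    have h1 : 0 < L ^ 3 := by positivity
    have h2 : η * x ≤ 0 := mul_nonpos_of_nonneg_of_nonpos hη.le h
    linarith
  have hL1 : 1 ≤ L := by linarith
  have hVφ : V / φ = S / c := by
    rw [hcW]
    field_simp
    linarith
  have hm1 : S / c * ((1 - η) * x / L) - 1 ≤ m := by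
    have : V * ((x / φ) * (1 - η)) / L = V / φ * ((1 - η) * x / L) := by
      field_simp
    rw [this, hVφ] at hm
    exact hm
  -- `m ≥ x / L ^ 3`
  have hSc : 1 / L ≤ S / c := by
    rw [div_le_div_iff₀ hL0 (by linarith), one_mul]
    exact hcL.trans (le_mul_of_one_le_left hL0.le hS)
  have hxL2 : L ≤ η * (x / L ^ 2) := by
    have : η * (x / L ^ 2) = η * x / L ^ 2 := by ring
    rw [this, le_div_iff₀ (by positivity)]
    calc L * L ^ 2 = L ^ 3 := by ring
      _ ≤ η * x := hx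
  have hxL : 0 < x / L ^ 2 := by positivity
  have h0 : 0 ≤ (1 - η) * x / L := by
    have : 0 ≤ 1 - η := by linarith
    positivity
  have hm2 : x / L ^ 3 ≤ m := by
    have h1 : 1 / L * ((1 - η) * x / L) ≤ S / c * ((1 - η) * x / L) :=
      mul_le_mul_of_nonneg_right hSc h0
    have h2 : 1 / L * ((1 - η) * x / L) = (1 - η) * (x / L ^ 2) := by
      field_simp
    have h3 : x / L ^ 3 ≤ (x / L ^ 2) / 4 := by
      have : x / L ^ 3 = (x / L ^ 2) / L := by field_simp
      rw [this]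
      exact div_le_div_of_nonneg_left hxL.le (by norm_num) hL
    have h4 : 1 ≤ η * (x / L ^ 2) := by linarith
    have h5 : (1 - η) * (x / L ^ 2) = x / L ^ 2 - η * (x / L ^ 2) := by ring
    have h6 : η * (x / L ^ 2) ≤ (1 / 8) * (x / L ^ 2) :=
      mul_le_mul_of_nonneg_right (by linarith) hxL.le
    rw [h2, h5] at h1
    linarith
  rw [max_eq_left hm2] at hr
  have hm0 : 0 < m := lt_of_lt_of_le (by positivity) hm2
  have hr1 : (1 - η) * (c * m / L) ≤ r := by
    have h1 := (abs_le.1 hr).1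
    have h2 : η * c * m / L = η * (c * m / L) := by ring
    rw [h2] at h1
    linarith
  have hr2 : S * ((1 - η) * (x / L ^ 2)) - 1 ≤ c * m / L := by
    have h1 : c / L * (S / c * ((1 - η) * x / L) - 1) ≤ c / L * m :=
      mul_le_mul_of_nonneg_left hm1 (by positivity)
    have h2 : c / L * (S / c * ((1 - η) * x / L) - 1) =
        S * ((1 - η) * (x / L ^ 2)) - c / L := by
      field_simp
    have h3 : c / L ≤ 1 := by
      rw [div_le_one hL0]
      exact hcL
    rw [h2] at h1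
    have h4 : c * m / L = c / L * m := by ring
    rw [h4]
    linarith
  have hr3 : (1 - 2 * η) * (S * (x / L ^ 2)) ≤ c * m / L := by
    have h4 : 1 ≤ η * (x / L ^ 2) := by linarith
    have h5 : η * (x / L ^ 2) ≤ S * (η * (x / L ^ 2)) := le_mul_of_one_le_left (by positivity) hS
    have h6 : (1 - 2 * η) * (S * (x / L ^ 2)) =
        S * ((1 - η) * (x / L ^ 2)) - S * (η * (x / L ^ 2)) := by ring
    rw [h6]
    linarith
  have hπ2 : π ^ 2 / x ≤ (1 + η) ^ 2 * (x / L ^ 2) := by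
    rw [div_le_iff₀ hx0]
    have h1 : (π * L) ^ 2 ≤ ((1 + η) * x) ^ 2 := by
      apply pow_le_pow_left₀ (by positivity) hπ
    have h2 : (1 + η) ^ 2 * (x / L ^ 2) * x = ((1 + η) * x) ^ 2 / L ^ 2 := by
      field_simp
    rw [h2, le_div_iff₀ (by positivity)]
    calc π ^ 2 * L ^ 2 = (π * L) ^ 2 := by ring
      _ ≤ _ := h1
  have hSπ : (1 - 8 * η) * S * (π ^ 2 / x) ≤ (1 - 8 * η) * S * ((1 + η) ^ 2 * (x / L ^ 2)) := by
    apply mul_le_mul_of_nonneg_left hπ2
    have : 0 ≤ 1 - 8 * η := by linarith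
    positivity
  have h9 : (1 - ε) * S * (π ^ 2 / x) ≤ (1 - 8 * η) * S * (π ^ 2 / x) := by
    apply mul_le_mul_of_nonneg_right _ (by positivity)
    exact mul_le_mul_of_nonneg_right (by linarith) (by linarith)
  have h10 : (1 - 8 * η) * (1 + η) ^ 2 ≤ (1 - η) * (1 - 2 * η) := by
    have e : (1 - η) * (1 - 2 * η) - (1 - 8 * η) * (1 + η) ^ 2 = 3 * η + 17 * η ^ 2 + 8 * η ^ 3 := by
      ring
    have e2 : 0 ≤ 3 * η + 17 * η ^ 2 + 8 * η ^ 3 := by positivity
    linarith
  have h11 : 0 ≤ S * (x / L ^ 2) := by positivity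
  have h12 := mul_le_mul_of_nonneg_right h10 h11
  have h13 : (1 - η) * ((1 - 2 * η) * (S * (x / L ^ 2))) ≤ (1 - η) * (c * m / L) :=
    mul_le_mul_of_nonneg_left hr3 (by linarith)
  have h14 : (1 - ε) * S * π ^ 2 / x = (1 - ε) * S * (π ^ 2 / x) := by ring
  rw [h14]
  calc (1 - ε) * S * (π ^ 2 / x) ≤ (1 - 8 * η) * S * (π ^ 2 / x) := h9
    _ ≤ (1 - 8 * η) * S * ((1 + η) ^ 2 * (x / L ^ 2)) := hSπ
    _ = (1 - 8 * η) * (1 + η) ^ 2 * (S * (x / L ^ 2)) := by ring
    _ ≤ (1 - η) * (1 - 2 * η) * (S * (x / L ^ 2)) := h12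
    _ = (1 - η) * ((1 - 2 * η) * (S * (x / L ^ 2))) := by ring
    _ ≤ (1 - η) * (c * m / L) := h13
    _ ≤ r := hr1

theorem pairs_almost_all (ε : ℝ) (hε : 0 < ε) : ∃ X₀ : ℕ, ∀ x : ℕ, X₀ ≤ x →
    (((Icc 1 x).filter (fun a =>
      (((Icc 1 x).filter (fun p => p.Prime ∧ (p + a).Prime)).card : ℝ) <
        (1 - ε) * S2w a (wX x) * (Nat.primeCounting x : ℝ) ^ 2 / x)).card : ℝ) ≤ ε * x := by
  classical
  set η : ℝ := min ε 1 / 8 with hη
  have hη0 : 0 < η := by
    have : 0 < min ε 1 := lt_min hε one_pos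
    positivity
  have hη1 : 8 * η ≤ 1 := by
    have : min ε 1 ≤ 1 := min_le_right _ _
    rw [hη]
    linarith
  have hηε : 8 * η ≤ ε := by
    have : min ε 1 ≤ ε := min_le_left _ _
    rw [hη]
    linarith
  obtain ⟨C, hC, hθ⟩ := theta_ap 8 1 one_pos
  obtain ⟨N₁, hN₁⟩ := local_global 3 η hη0
  obtain ⟨N₂, hN₂⟩ := cX_le_log
  obtain ⟨N₃, hN₃⟩ := primeCounting_mul_log η hη0
  obtain ⟨N₄, hN₄⟩ := Filter.eventually_atTop.1
    ((ev_log (max 4 (C / η))).and ((ev_w 2).and (ev_pow (1 / η) 3)))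
  refine ⟨N₁ + N₂ + N₃ + N₄ + 2, fun x hx => ?_⟩
  have h1 := hN₁ x (by omega) (FW1S x) (FW1S_sub x)
  obtain ⟨hcL, hWL⟩ := hN₂ x (by omega)
  obtain ⟨-, hπ⟩ := hN₃ x (by omega)
  obtain ⟨hL4, hw2, hp3⟩ := hN₄ x (by omega)
  have hx2 : 2 ≤ x := by omega
  have hx3 : (2 : ℝ) ≤ x := by exact_mod_cast hx2
  set L : ℝ := Real.log x with hL
  set W : ℕ := WX x with hW
  have hL4' : 4 ≤ L := (le_max_left _ _).trans hL4
  have hLC : C ≤ η * L := by
    have := (le_max_right _ _).trans hL4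
    rw [div_le_iff₀ hη0] at this
    linarith
  have hL0 : 0 < L := by linarith
  have hWpos : 0 < W := WX_pos x
  have hφpos : 0 < W.totient := WX_totient_pos x
  have hWR : (0 : ℝ) < W := by exact_mod_cast hWpos
  have hφR : (0 : ℝ) < W.totient := by exact_mod_cast hφpos
  have hφW : (W.totient : ℝ) ≤ W := by exact_mod_cast Nat.totient_le W
  have hx3' : L ^ 3 ≤ η * x := by
    have h2 : 1 / η * L ^ 3 ≤ x := hp3
    rw [one_div, inv_mul_le_iff₀ hη0] at h2
    linarith
  -- for good `a` we have the lower bound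
  have hmain : ∀ a ∈ Icc 1 x,
      (((Icc 1 x).filter (fun p => p.Prime ∧ (p + a).Prime)).card : ℝ) <
        (1 - ε) * S2w a (wX x) * (Nat.primeCounting x : ℝ) ^ 2 / x →
      η * cX x * max ((SN (WX x) (FW1S x) (x + a)).card : ℝ) (x / (Real.log x) ^ 3) / Real.log x <
          |(reps (FW1S x) (x + a) : ℝ) -
            cX x * (SN (WX x) (FW1S x) (x + a)).card / Real.log x| := by
    intro a ha hlt
    by_contra hcon
    push Not at hcon
    refine absurd hlt (not_lt.2 ?_)
    by_cases hev : Even a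
    · have hS1 := one_le_S2w a (wX x) hev hw2
      have hreps : (reps (FW1S x) (x + a) : ℝ) ≤
          (((Icc 1 x).filter (fun p => p.Prime ∧ (p + a).Prime)).card : ℝ) := by
        unfold reps
        rw [FW1_count x a (fun n => n.Prime)]
        have : ((Icc 1 x).filter (fun p => p.Prime ∧ p < x ∧ (p + a).Prime)).card ≤
            ((Icc 1 x).filter (fun p => p.Prime ∧ (p + a).Prime)).card := by
          refine card_le_card fun p hp => ?_
          rw [mem_filter] at hp ⊢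
          exact ⟨hp.1, hp.2.1, hp.2.2.2⟩
        exact_mod_cast this
      refine le_trans ?_ hreps
      have hSN : (SN (WX x) (FW1S x) (x + a)).card =
          ((Icc 1 x).filter (fun p => p.Prime ∧ p < x ∧ Nat.Coprime (p + a) W)).card := by
        unfold SN
        exact FW1_count x a (fun n => Nat.Coprime n W)
      have hcard : ((Icc 1 x).filter (fun p => p.Prime ∧ Nat.Coprime (p + a) W)).card ≤
          ((Icc 1 x).filter (fun p => p.Prime ∧ p < x ∧ Nat.Coprime (p + a) W)).card + 1 := by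
        have : (Icc 1 x).filter (fun p => p.Prime ∧ Nat.Coprime (p + a) W) ⊆
            insert x ((Icc 1 x).filter (fun p => p.Prime ∧ p < x ∧ Nat.Coprime (p + a) W)) := by
          intro p hp
          rw [mem_filter, mem_Icc] at hp
          rw [mem_insert, mem_filter, mem_Icc]
          rcases Nat.lt_or_ge p x with h | h
          · exact Or.inr ⟨hp.1, hp.2.1, h, hp.2.2⟩
          · exact Or.inl (by omega)
        exact (card_le_card this).trans (card_insert_le _ _)
      have hm : (FW1V W a : ℝ) * ((x / (W.totient : ℝ)) * (1 - η)) / L - 1 ≤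
          ((SN (WX x) (FW1S x) (x + a)).card : ℝ) := by
        rw [hSN]
        have h2 : (FW1V W a : ℝ) * ((x / (W.totient : ℝ)) * (1 - η)) / L ≤
            (((Icc 1 x).filter (fun p => p.Prime ∧ Nat.Coprime (p + a) W)).card : ℝ) := by
          have h3 : (∑ c ∈ (range W).filter (fun c => Nat.Coprime c W ∧ Nat.Coprime (c + a) W),
              (((Icc 1 x).filter (fun n => n.Prime ∧ n ≡ c [MOD W])).card : ℝ)) ≤
              (((Icc 1 x).filter (fun p => p.Prime ∧ Nat.Coprime (p + a) W)).card : ℝ) := by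
            exact_mod_cast FW1_classes W a x hWpos
          refine le_trans ?_ h3
          have h4 : (FW1V W a : ℝ) * ((x / (W.totient : ℝ)) * (1 - η)) / L =
              ∑ c ∈ (range W).filter (fun c => Nat.Coprime c W ∧ Nat.Coprime (c + a) W),
                ((x / (W.totient : ℝ)) * (1 - η)) / L := by
            rw [sum_const, nsmul_eq_mul]
            unfold FW1V
            ring
          rw [h4]
          refine sum_le_sum fun c hc => ?_
          rw [mem_filter] at hc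
          have h5 := FW1_class_lower C x W c hx2 hWpos (hθ W c hWpos hc.2.1 x hx3)
          refine le_trans ?_ h5
          refine div_le_div_of_nonneg_right ?_ hL0.le
          have h6 : C * W * x / L ^ 8 ≤ η * (x / (W.totient : ℝ)) := by
            rw [div_le_iff₀ (by positivity)]
            have h7 : η * (x / (W.totient : ℝ)) * L ^ 8 = η * x * L ^ 8 / W.totient := by
              field_simp
            rw [h7, le_div_iff₀ hφR]
            have h8 : (W : ℝ) * W.totient ≤ L ^ 4 := by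
              calc (W : ℝ) * W.totient ≤ L ^ 2 * L ^ 2 :=
                    mul_le_mul hWL (hφW.trans hWL) hφR.le (by positivity)
                _ = L ^ 4 := by ring
            calc C * W * x * W.totient = C * x * (W * W.totient) := by ring
              _ ≤ C * x * L ^ 4 := mul_le_mul_of_nonneg_left h8 (by positivity)
              _ ≤ (η * L) * x * L ^ 4 := by
                  have : 0 ≤ x * L ^ 4 := by positivity
                  nlinarith
              _ = η * x * L ^ 5 := by ring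
              _ ≤ η * x * L ^ 8 := by
                  apply mul_le_mul_of_nonneg_left _ (by positivity)
                  exact pow_le_pow_right₀ (by linarith) (by norm_num)
          linarith
        have h3 : (((Icc 1 x).filter (fun p => p.Prime ∧ Nat.Coprime (p + a) W)).card : ℝ) ≤
            (((Icc 1 x).filter (fun p => p.Prime ∧ p < x ∧ Nat.Coprime (p + a) W)).card : ℝ) + 1 := by
          exact_mod_cast hcard
        linarith
      exact FW1_alg η ε (cX x) L x (S2w a (wX x)) (FW1V W a) (Nat.primeCounting x)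
        ((SN (WX x) (FW1S x) (x + a)).card) (reps (FW1S x) (x + a)) W.totient W hη0 hη1 hηε
        (one_le_cX x) hcL hL4' hS1 hφR hWR rfl (FW1V_primorial a (wX x)) hx3' hm
        (Nat.cast_nonneg _) hπ hcon
    · have h2 : S2w a (wX x) = 0 := by
        unfold S2w
        refine prod_eq_zero (i := 2) ?_ ?_
        · rw [mem_filter, mem_Icc]
          exact ⟨⟨by norm_num, hw2⟩, Nat.prime_two⟩
        · rw [if_neg (fun h => hev (even_iff_two_dvd.2 h))]
          norm_num
      rw [h2, mul_zero, zero_mul, zero_div]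
      exact Nat.cast_nonneg _
  calc (((Icc 1 x).filter (fun a =>
      (((Icc 1 x).filter (fun p => p.Prime ∧ (p + a).Prime)).card : ℝ) <
        (1 - ε) * S2w a (wX x) * (Nat.primeCounting x : ℝ) ^ 2 / x)).card : ℝ)
      ≤ (((Ioc x (2 * x)).filter (fun N =>
        η * cX x * max ((SN (WX x) (FW1S x) N).card : ℝ) (x / (Real.log x) ^ 3) / Real.log x <
          |(reps (FW1S x) N : ℝ) - cX x * (SN (WX x) (FW1S x) N).card / Real.log x|)).card : ℝ) := by
        have : ((Icc 1 x).filter (fun a =>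
            (((Icc 1 x).filter (fun p => p.Prime ∧ (p + a).Prime)).card : ℝ) <
            (1 - ε) * S2w a (wX x) * (Nat.primeCounting x : ℝ) ^ 2 / x)).card ≤
            ((Ioc x (2 * x)).filter (fun N =>
            η * cX x * max ((SN (WX x) (FW1S x) N).card : ℝ) (x / (Real.log x) ^ 3) / Real.log x <
            |(reps (FW1S x) N : ℝ) -
              cX x * (SN (WX x) (FW1S x) N).card / Real.log x|)).card := by
          refine card_le_card_of_injOn (fun a => x + a) ?_ ?_
          · intro a ha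
            have ha' := mem_filter.1 (mem_coe.1 ha)
            have ha2 := mem_Icc.1 ha'.1
            have e1 : x < x + a := by omega
            have e2 : x + a ≤ 2 * x := by omega
            refine mem_coe.2 (mem_filter.2 ⟨mem_Ioc.2 ⟨e1, e2⟩, ?_⟩)
            exact hmain a ha'.1 ha'.2
          · intro a _ b _ h
            simpa using h
        exact_mod_cast this
    _ ≤ η * x := h1
    _ ≤ ε * x := mul_le_mul_of_nonneg_right (by linarith) (Nat.cast_nonneg _)

end Pool.Agent.Lib.SW
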