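import Pool.Agent.Lib.MP_7b7e48_nt.GT.ExpTools

/-!
# SW-T: geometric sums and the lemma of Vinogradov (module T)

`nd β` = distance to the nearest integer, `gmin T β` = min(T, 1/(2 ‖β‖)) (with the right convention at
‖β‖ = 0).

PROOFS. `geom_le`: if 1 ≤ 2 T nd β use `GT.RE.norm_geom_Icc_le` (η = nd β: |β - n| ≥ nd β for all
integers n) and translate the interval (multiply by e(β K₁)), otherwise trivial bound K₂ - K₁ ≤ T.
`gmin_mono`, `gmin_nonneg`, `gmin_le`: elementary.
`vino_sum`: write m = h q + r, 1 ≤ r ≤ q, 0 ≤ h ≤ M/q. (i) m = r ≤ q/2: |rα - ra/q| ≤ r/q² ≤ 1/(2q) ≤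
(1/2) ‖ra/q‖ (q does not divide r a since r < q, if q ≥ 2), so the sum is ≤ ∑_{r≤q/2} 1/‖ra/q‖ ≤ ∑_{c=1}^{q-1} 1/‖c/q‖ ≤
2 q (1 + log q) (r ↦ r a mod q injective). (ii) all other m satisfy m ≥ (h+1) q/2, so X/m ≤ 2X/((h+1)q). For fixed h the points
(hq + r)α, 1 ≤ r ≤ q, are within 1/q of θ_h + r a/q (θ_h = h q α), so for every real ξ at most 4 of them (mod 1) lie
within 1/(2q) of ξ: the sum over r of gmin (2X/((h+1)q)) is ≤ C X/((h+1)q) + C ∑_{c=1}^{q} q/c. Sum over h:
C (X/q)(1 + log (M/q + 1)) + C (M/q + 1) q (1 + log q) ≤ C' (X/q + M + q) log (2 q M).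
(If 2X < m, i.e. never, as M ≤ X.)
-/

open Finset Pool.Agent.Lib.GT

namespace Pool.Agent.Lib.SW

/-- distance to the nearest integer -/
noncomputable def nd (β : ℝ) : ℝ := |β - round β|

/-- `min(T, 1/(2‖β‖))` -/
noncomputable def gmin (T β : ℝ) : ℝ := if 1 ≤ 2 * T * nd β then 1 / (2 * nd β) else T

theorem Vino_nd_nonneg (β : ℝ) : 0 ≤ nd β := abs_nonneg _

theorem Vino_nd_le (β : ℝ) (n : ℤ) : nd β ≤ |β - n| := round_le β n

theorem Vino_nd_pos (T β : ℝ) (h : 1 ≤ 2 * T * nd β) : 0 < nd β := by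
  rcases (Vino_nd_nonneg β).lt_or_eq with h1 | h1
  · exact h1
  · rw [← h1, mul_zero] at h
    linarith

theorem gmin_nonneg (T β : ℝ) (hT : 0 ≤ T) : 0 ≤ gmin T β := by
  rw [gmin]
  split_ifs with h
  · have := Vino_nd_pos T β h
    positivity
  · exact hT

theorem gmin_le (T β : ℝ) (hT : 0 ≤ T) : gmin T β ≤ T := by
  rw [gmin]
  split_ifs with h
  · have := Vino_nd_pos T β h
    rw [div_le_iff₀ (by positivity)]
    linarith
  · exact le_rfl

theorem gmin_le' (T β η : ℝ) (hη : 0 < η) (h : η ≤ nd β) (hT : 0 ≤ T) : gmin T β ≤ 1 / (2 * η) := by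
  have h0 : 0 < nd β := lt_of_lt_of_le hη h
  have h1 : 1 / (2 * nd β) ≤ 1 / (2 * η) := by
    apply one_div_le_one_div_of_le (by positivity)
    linarith
  rw [gmin]
  split_ifs with h2
  · exact h1
  · refine le_trans ?_ h1
    rw [le_div_iff₀ (by positivity)]
    push Not at h2
    linarith

theorem gmin_mono (T T' β : ℝ) (hT : 0 ≤ T) (h : T ≤ T') : gmin T β ≤ gmin T' β := by
  have h0 := Vino_nd_nonneg β
  have h3 : 2 * T * nd β ≤ 2 * T' * nd β := by
    apply mul_le_mul_of_nonneg_right _ h0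
    linarith
  rw [gmin, gmin]
  split_ifs with h1 h2 h2
  · exact le_rfl
  · exact absurd (h1.trans h3) h2
  · have h4 := Vino_nd_pos T' β h2
    push Not at h1
    rw [le_div_iff₀ (by positivity)]
    linarith
  · exact h

theorem geom_le (T β : ℝ) (K₁ K₂ : ℕ) (hK : K₁ ≤ K₂) (hT : (K₂ : ℝ) - K₁ ≤ T) :
    ‖∑ k ∈ Ioc K₁ K₂, e (k * β)‖ ≤ gmin T β := by
  rw [gmin]
  split_ifs with h
  · have h0 := Vino_nd_pos T β h
    have h1 : ∑ k ∈ Ioc K₁ K₂, e (k * β) =
        e (K₁ * β) * ∑ k ∈ Icc 1 (K₂ - K₁), e (β * k) := by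
      rw [mul_sum]
      refine sum_bij (fun k _ => k - K₁) ?_ ?_ ?_ ?_
      · intro k hk
        rw [mem_Ioc] at hk
        rw [mem_Icc]
        omega
      · intro k hk l hl hkl
        rw [mem_Ioc] at hk hl
        omega
      · intro l hl
        rw [mem_Icc] at hl
        exact ⟨l + K₁, by rw [mem_Ioc]; omega, by omega⟩
      · intro k hk
        rw [mem_Ioc] at hk
        rw [← e_add]
        congr 1
        rw [Nat.cast_sub hk.1.le]
        ring
    rw [h1, norm_mul, norm_e, one_mul]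
    exact RE.norm_geom_Icc_le β (nd β) h0 (Vino_nd_le β) _
  · refine (norm_sum_le _ _).trans ?_
    refine le_trans (le_of_eq ?_) hT
    rw [sum_congr rfl (fun (k : ℕ) _ => norm_e ((k : ℝ) * β)), sum_const, nsmul_eq_mul, mul_one,
      Nat.card_Ioc, Nat.cast_sub hK]

theorem Vino_harm (n : ℕ) : ∑ i ∈ range n, (1 : ℝ) / (i + 1) ≤ 1 + Real.log n := by
  have h := harmonic_le_one_add_log n
  rw [harmonic] at h
  push_cast at h
  refine le_trans (le_of_eq ?_) h
  refine sum_congr rfl fun a _ ↦ ?_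
  rw [one_div]

theorem Vino_wsum (q : ℕ) (hq : 1 ≤ q) :
    ∑ c ∈ range q, ((q : ℝ) / c + q / (q - c)) ≤ 2 * q * (1 + Real.log q) := by
  have h := Vino_harm q
  have hq0 : (0 : ℝ) ≤ q := Nat.cast_nonneg q
  have h1 : ∑ c ∈ range q, (q : ℝ) / (q - c) = q * ∑ i ∈ range q, (1 : ℝ) / (i + 1) := by
    rw [mul_sum, ← sum_range_reflect]
    refine sum_congr rfl fun c hc => ?_
    rw [mem_range] at hc
    have h3 : ((q - 1 - c : ℕ) : ℝ) = q - 1 - c := by
      rw [Nat.cast_sub (by omega), Nat.cast_sub hq]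
      push_cast
      ring
    rw [h3, mul_one_div]
    congr 1
    ring
  have h2 : ∑ c ∈ range q, (q : ℝ) / c ≤ q * ∑ i ∈ range q, (1 : ℝ) / (i + 1) := by
    obtain ⟨p, hp⟩ : ∃ p, q = p + 1 := ⟨q - 1, by omega⟩
    have h3 : ∑ c ∈ range q, (q : ℝ) / c = q * ∑ i ∈ range p, (1 : ℝ) / (i + 1) := by
      rw [hp, sum_range_succ', Nat.cast_zero, div_zero, add_zero, mul_sum]
      refine sum_congr rfl fun c _ => ?_
      rw [mul_one_div]
      push_cast
      ring
    rw [h3]
    apply mul_le_mul_of_nonneg_left _ hq0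
    apply sum_le_sum_of_subset_of_nonneg
    · rw [hp]
      exact range_subset_range.mpr (by omega)
    · intro i _ _
      positivity
  rw [sum_add_distrib, h1]
  nlinarith [mul_le_mul_of_nonneg_left h hq0]

/-- pointwise bound -/
theorem Vino_pt (T β δ : ℝ) (N : ℤ) (q c : ℕ) (hq : 1 ≤ q) (hT : 0 ≤ T)
    (hβ : |β - N / q| ≤ δ) (hc : (c : ℤ) = N % q) (hc0 : 1 ≤ c) (h1 : 2 * q * δ ≤ c)
    (h2 : 2 * q * δ ≤ q - c) : gmin T β ≤ (q : ℝ) / c + q / (q - c) := by
  have hq0 : (0 : ℝ) < q := by exact_mod_cast hq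
  have hcq : (c : ℤ) < q := by
    rw [hc]
    exact Int.emod_lt_of_pos _ (by exact_mod_cast hq)
  have hcq' : (c : ℝ) < q := by exact_mod_cast hcq
  have hc0' : (0 : ℝ) < c := by exact_mod_cast hc0
  have hqc : (0 : ℝ) < q - c := by linarith
  have hN : (N : ℝ) / q = ((N / (q : ℤ) : ℤ) : ℝ) + c / q := by
    have h3 : N = (q : ℤ) * (N / (q : ℤ)) + c := by
      rw [hc]
      exact (Int.mul_ediv_add_emod N q).symm
    have h4 : (N : ℝ) = (q : ℝ) * ((N / (q : ℤ) : ℤ) : ℝ) + c := by exact_mod_cast h3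
    rw [h4]
    field_simp
  have hd1 : δ ≤ c / (2 * q) := by
    rw [le_div_iff₀ (by positivity)]
    linarith
  have hd2 : δ ≤ (q - c) / (2 * q) := by
    rw [le_div_iff₀ (by positivity)]
    linarith
  set j : ℤ := N / (q : ℤ) with hj
  set n : ℤ := round β with hn
  have h5 : |β - n| = nd β := rfl
  have e1 : (c : ℝ) / q - c / (2 * q) = c / (2 * q) := by
    field_simp
    ring
  have e2 : 1 - (c : ℝ) / q - (q - c) / (2 * q) = (q - c) / (2 * q) := by
    field_simp
    ring
  rcases le_or_gt n j with h6 | h6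
  · have h7 : (n : ℝ) ≤ j := by exact_mod_cast h6
    have h8 : (c : ℝ) / (2 * q) ≤ nd β := by
      rw [← h5]
      have h9 := le_abs_self (β - n)
      have h10 := (abs_le.mp hβ).1
      rw [hN] at h10
      linarith
    have h11 := gmin_le' T β _ (by positivity) h8 hT
    have h12 : 1 / (2 * ((c : ℝ) / (2 * q))) = q / c := by
      field_simp
    rw [h12] at h11
    have h13 : 0 ≤ (q : ℝ) / (q - c) := by positivity
    linarith
  · have h7 : (j : ℝ) + 1 ≤ n := by exact_mod_cast h6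
    have h8 : ((q : ℝ) - c) / (2 * q) ≤ nd β := by
      rw [← h5]
      have h9 := neg_le_abs (β - n)
      have h10 := (abs_le.mp hβ).2
      rw [hN] at h10
      linarith
    have h11 := gmin_le' T β _ (by positivity) h8 hT
    have h12 : 1 / (2 * (((q : ℝ) - c) / (2 * q))) = q / (q - c) := by
      field_simp
    rw [h12] at h11
    have h13 : 0 ≤ (q : ℝ) / c := by positivity
    linarith

theorem Vino_inj (a k : ℤ) (q : ℕ) (hq : 1 ≤ q) (hc : IsCoprime a (q : ℤ)) (r s : ℕ) (hr : r < q)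
    (hs : s < q) (h : (k + r * a) % q = (k + s * a) % q) : r = s := by
  have h1 : (k + r * a) ≡ (k + s * a) [ZMOD q] := h
  have h2 : (q : ℤ) ∣ (k + s * a) - (k + r * a) := h1.dvd
  have h3 : (q : ℤ) ∣ ((s : ℤ) - r) * a := by
    have h4 : (k + s * a) - (k + r * a) = ((s : ℤ) - r) * a := by ring
    rwa [h4] at h2
  have h5 : (q : ℤ) ∣ (s : ℤ) - r := hc.symm.dvd_of_dvd_mul_right h3
  obtain ⟨t, ht⟩ := h5
  have hr' : (r : ℤ) < q := by exact_mod_cast hr
  have hs' : (s : ℤ) < q := by exact_mod_cast hs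
  have hq' : (1 : ℤ) ≤ q := by exact_mod_cast hq
  have h6 : t = 0 := by
    by_contra h7
    rcases lt_or_gt_of_ne h7 with h8 | h8
    · have : (q : ℤ) * t ≤ q * (-1) := by
        apply mul_le_mul_of_nonneg_left _ (by omega)
        omega
      omega
    · have : (q : ℤ) * 1 ≤ q * t := by
        apply mul_le_mul_of_nonneg_left _ (by omega)
        omega
      omega
  rw [h6, mul_zero] at ht
  omega

theorem Vino_sum_le (a k : ℤ) (q : ℕ) (hq : 1 ≤ q) (hc : IsCoprime a (q : ℤ)) (S : Finset ℕ)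
    (hS : ∀ r ∈ S, r < q) (F : ℕ → ℝ) (hF : ∀ c ∈ range q, 0 ≤ F c) :
    ∑ r ∈ S, F ((k + r * a) % q).toNat ≤ ∑ c ∈ range q, F c := by
  have hq' : (0 : ℤ) < q := by exact_mod_cast hq
  have hnn : ∀ r : ℕ, 0 ≤ (k + r * a) % q := fun r => Int.emod_nonneg _ hq'.ne'
  have h1 : Set.InjOn (fun r : ℕ => ((k + r * a) % q).toNat) (S : Set ℕ) := by
    intro r hr s hs hrs
    simp only at hrs
    have h2 : (k + r * a) % q = (k + s * a) % q := by
      rw [← Int.toNat_of_nonneg (hnn r), ← Int.toNat_of_nonneg (hnn s), hrs]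
    exact Vino_inj a k q hq hc r s (hS r hr) (hS s hs) h2
  rw [← sum_image (f := F) (g := fun r : ℕ => ((k + r * a) % q).toNat) h1]
  apply sum_le_sum_of_subset_of_nonneg
  · intro c hcm
    rw [mem_image] at hcm
    obtain ⟨r, -, hr⟩ := hcm
    rw [mem_range, ← hr]
    have h3 := Int.emod_lt_of_pos (k + r * a) hq'
    have h4 := hnn r
    omega
  · intro c hc2 _
    exact hF c hc2

theorem Vino_card (q : ℕ) : ((range q).filter (fun c => c ≤ 3 ∨ q ≤ c + 3)).card ≤ 7 := by
  have h : (range q).filter (fun c => c ≤ 3 ∨ q ≤ c + 3) ⊆ range 4 ∪ Ico (q - 3) q := by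
    intro c hc
    rw [mem_filter, mem_range] at hc
    rw [mem_union, mem_range, mem_Ico]
    omega
  refine (card_le_card h).trans ((card_union_le _ _).trans ?_)
  rw [card_range, Nat.card_Ico]
  omega

theorem Vino_block (α T : ℝ) (a : ℤ) (q h : ℕ) (hT : 0 ≤ T) (hq : 1 ≤ q)
    (hc : IsCoprime a (q : ℤ)) (hα : |α - a / q| ≤ 1 / (q : ℝ) ^ 2) :
    ∑ r ∈ range q, gmin T (((h * q + r + 1 : ℕ) : ℝ) * α) ≤ 7 * T + 2 * q * (1 + Real.log q) := by
  have hq0 : (0 : ℝ) < q := by exact_mod_cast hq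
  have hq' : (0 : ℤ) < q := by exact_mod_cast hq
  set k : ℤ := ⌊(q : ℝ) * (h * q * α)⌋ with hk
  have hk1 : (k : ℝ) ≤ (q : ℝ) * (h * q * α) := Int.floor_le _
  have hk2 : (q : ℝ) * (h * q * α) < k + 1 := Int.lt_floor_add_one _
  set F : ℕ → ℝ := fun c => (if c ≤ 3 ∨ q ≤ c + 3 then T else 0) + ((q : ℝ) / c + q / (q - c))
    with hF
  have hw : ∀ c ∈ range q, 0 ≤ ((q : ℝ) / c + q / (q - c)) := by
    intro c hc2
    rw [mem_range] at hc2
    have : (c : ℝ) < q := by exact_mod_cast hc2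
    have h3 : 0 < (q : ℝ) - c := by linarith
    positivity
  have hF0 : ∀ c ∈ range q, 0 ≤ F c := by
    intro c hc2
    have h1 := hw c hc2
    rw [hF]
    simp only
    split_ifs
    · linarith
    · linarith
  have key : ∀ r ∈ range q, gmin T (((h * q + r + 1 : ℕ) : ℝ) * α) ≤
      F (((k + a) + r * a) % q).toNat := by
    intro r hr
    rw [mem_range] at hr
    have hr' : (r : ℝ) + 1 ≤ q := by exact_mod_cast hr
    set N : ℤ := (k + a) + r * a with hN
    have hnn : 0 ≤ N % q := Int.emod_nonneg _ hq'.ne'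
    have hlt : N % q < q := Int.emod_lt_of_pos _ hq'
    set c : ℕ := (N % q).toNat with hcd
    have hcN : (c : ℤ) = N % q := Int.toNat_of_nonneg hnn
    have hcq : c < q := by omega
    have hcq' : c ∈ range q := mem_range.mpr hcq
    have h1 := hw c hcq'
    rw [hF]
    simp only
    by_cases h2 : c ≤ 3 ∨ q ≤ c + 3
    · rw [if_pos h2]
      have := gmin_le T (((h * q + r + 1 : ℕ) : ℝ) * α) hT
      linarith
    · rw [if_neg h2, zero_add]
      push Not at h2
      have h3 : (4 : ℝ) ≤ c := by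
        have : 4 ≤ c := by omega
        exact_mod_cast this
      have h4 : (4 : ℝ) ≤ q - c := by
        have : c + 4 ≤ q := by omega
        have : (c : ℝ) + 4 ≤ q := by exact_mod_cast this
        linarith
      refine Vino_pt T _ (2 / q) N q c hq hT ?_ hcN (by omega) ?_ ?_
      · have e1 : ((h * q + r + 1 : ℕ) : ℝ) * α - N / q =
            ((q : ℝ) * (h * q * α) - k) / q + (r + 1) * (α - a / q) := by
          rw [hN]
          push_cast
          field_simp
          ring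
        rw [e1]
        refine (abs_add_le _ _).trans ?_
        have e2 : |((q : ℝ) * (h * q * α) - k) / q| ≤ 1 / q := by
          rw [abs_div, abs_of_pos hq0]
          apply div_le_div_of_nonneg_right _ hq0.le
          rw [abs_of_nonneg (by linarith)]
          linarith
        have e3 : |((r : ℝ) + 1) * (α - a / q)| ≤ 1 / q := by
          rw [abs_mul, abs_of_nonneg (by positivity)]
          calc ((r : ℝ) + 1) * |α - a / q| ≤ q * (1 / (q : ℝ) ^ 2) := by
                apply mul_le_mul hr' hα (abs_nonneg _) hq0.le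
            _ = 1 / q := by
                field_simp
        have e4 : (2 : ℝ) / q = 1 / q + 1 / q := by ring
        rw [e4]
        exact add_le_add e2 e3
      · have : 2 * (q : ℝ) * (2 / q) = 4 := by
          field_simp
          norm_num
        rw [this]
        exact h3
      · have : 2 * (q : ℝ) * (2 / q) = 4 := by
          field_simp
          norm_num
        rw [this]
        exact h4
  refine (sum_le_sum key).trans ?_
  refine (Vino_sum_le a (k + a) q hq hc (range q) (fun r hr => mem_range.mp hr) F hF0).trans ?_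
  rw [hF, sum_add_distrib]
  apply add_le_add _ (Vino_wsum q hq)
  rw [← sum_filter, sum_const, nsmul_eq_mul]
  apply mul_le_mul_of_nonneg_right _ hT
  exact_mod_cast Vino_card q

theorem Vino_first (α X : ℝ) (a : ℤ) (q : ℕ) (hX : 0 ≤ X) (hq : 1 ≤ q)
    (hc : IsCoprime a (q : ℤ)) (hα : |α - a / q| ≤ 1 / (q : ℝ) ^ 2) :
    ∑ m ∈ (range q).filter (fun m => 1 ≤ m ∧ 2 * m ≤ q), gmin (X / m) (m * α) ≤
      2 * q * (1 + Real.log q) := by
  have hq0 : (0 : ℝ) < q := by exact_mod_cast hq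
  have hq' : (0 : ℤ) < q := by exact_mod_cast hq
  refine le_trans ?_ (Vino_wsum q hq)
  have hw : ∀ c ∈ range q, 0 ≤ ((q : ℝ) / c + q / (q - c)) := by
    intro c hc2
    rw [mem_range] at hc2
    have : (c : ℝ) < q := by exact_mod_cast hc2
    have h3 : 0 < (q : ℝ) - c := by linarith
    positivity
  refine le_trans (sum_le_sum (g := fun m : ℕ => (fun c : ℕ => (q : ℝ) / c + q / (q - c))
    ((0 + m * a) % q).toNat) ?_) (Vino_sum_le a 0 q hq hc _
      (fun r hr => mem_range.mp (mem_filter.mp hr).1) _ hw)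
  intro m hm
  rw [mem_filter, mem_range] at hm
  obtain ⟨hm1, hm2, hm3⟩ := hm
  simp only
  set N : ℤ := 0 + m * a with hN
  have hnn : 0 ≤ N % q := Int.emod_nonneg _ hq'.ne'
  have hlt : N % q < q := Int.emod_lt_of_pos _ hq'
  set c : ℕ := (N % q).toNat with hcd
  have hcN : (c : ℤ) = N % q := Int.toNat_of_nonneg hnn
  have hcq : c < q := by omega
  have hm0 : (0 : ℝ) < m := by exact_mod_cast hm2
  have hm3' : 2 * (m : ℝ) ≤ q := by exact_mod_cast hm3
  have hc0 : 1 ≤ c := by
    by_contra h0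
    have h1 : N % q = 0 := by omega
    have h2 : (0 + (m : ℤ) * a) % q = (0 + ((0 : ℕ) : ℤ) * a) % q := by
      rw [← hN, h1]
      simp
    have := Vino_inj a 0 q hq hc m 0 hm1 (by omega) h2
    omega
  have h1c : (1 : ℝ) ≤ c := by exact_mod_cast hc0
  have h1q : (1 : ℝ) ≤ q - c := by
    have : (c : ℝ) + 1 ≤ q := by exact_mod_cast hcq
    linarith
  have hδ : 2 * (q : ℝ) * (m / (q : ℝ) ^ 2) ≤ 1 := by
    have : 2 * (q : ℝ) * (m / (q : ℝ) ^ 2) = 2 * m / q := by
      field_simp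
    rw [this, div_le_one hq0]
    exact hm3'
  refine Vino_pt (X / m) _ (m / (q : ℝ) ^ 2) N q c hq (by positivity) ?_ hcN hc0
    (hδ.trans h1c) (hδ.trans h1q)
  have e1 : (m : ℝ) * α - N / q = m * (α - a / q) := by
    rw [hN]
    push_cast
    ring
  rw [e1, abs_mul, abs_of_pos hm0]
  calc (m : ℝ) * |α - a / q| ≤ m * (1 / (q : ℝ) ^ 2) := mul_le_mul_of_nonneg_left hα hm0.le
    _ = m / (q : ℝ) ^ 2 := by ring

theorem Vino_range_mul (f : ℕ → ℝ) (n q : ℕ) :
    ∑ i ∈ range (n * q), f i = ∑ h ∈ range n, ∑ r ∈ range q, f (h * q + r) := by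
  induction n with
  | zero => simp
  | succ n ih =>
    rw [Nat.succ_mul, sum_range_add, ih, sum_range_succ]

theorem vino_sum :
    ∃ C : ℝ, 0 < C ∧ ∀ (α X : ℝ) (a : ℤ) (q M : ℕ), 1 ≤ q → IsCoprime a (q : ℤ) →
      |α - a / q| ≤ 1 / (q : ℝ) ^ 2 → 1 ≤ M → (M : ℝ) ≤ X →
        ∑ m ∈ Icc 1 M, gmin (X / m) (m * α) ≤ C * (X / q + M + q) * Real.log (2 * q * M) := by
  refine ⟨42, by norm_num, ?_⟩
  intro α X a q M hq hc hα hM hMX
  have hq0 : (0 : ℝ) < q := by exact_mod_cast hq
  have hq1 : (1 : ℝ) ≤ q := by exact_mod_cast hq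
  have hM1 : (1 : ℝ) ≤ M := by exact_mod_cast hM
  have hX0 : 0 < X := by linarith
  set H : ℕ := M / q with hH
  -- the block majorant
  set B : ℕ → ℝ := fun i => gmin (2 * X / ((((i / q : ℕ) : ℝ) + 1) * q)) (((i + 1 : ℕ) : ℝ) * α)
    with hB
  have hB0 : ∀ i, 0 ≤ B i := fun i => gmin_nonneg _ _ (by positivity)
  set A : ℕ → ℝ := fun m => if m < q ∧ 1 ≤ m ∧ 2 * m ≤ q then gmin (X / m) (m * α) else 0 with hA
  have hpt : ∀ i ∈ range M, gmin (X / ((i + 1 : ℕ) : ℝ)) (((i + 1 : ℕ) : ℝ) * α) ≤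
      A (i + 1) + B i := by
    intro i _
    have hb := hB0 i
    by_cases h2 : 2 * (i + 1) ≤ q
    · rw [hA]
      simp only
      rw [if_pos ⟨by omega, by omega, h2⟩]
      linarith
    · have h3 : A (i + 1) = 0 := by
        rw [hA]
        simp only
        rw [if_neg]
        rintro ⟨_, _, h4⟩
        exact h2 h4
      rw [h3, zero_add, hB]
      simp only
      apply gmin_mono _ _ _ (by positivity)
      rw [div_le_div_iff₀ (by positivity) (by positivity)]
      have h5 : (i / q + 1) * q ≤ 2 * (i + 1) := by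
        rcases Nat.eq_zero_or_pos (i / q) with h6 | h6
        · rw [h6]
          omega
        · have h7 : i / q * q ≤ i := Nat.div_mul_le_self i q
          have h8 : 1 * q ≤ i / q * q := Nat.mul_le_mul_right q h6
          nlinarith
      have h6 : (((i / q : ℕ) : ℝ) + 1) * q ≤ 2 * ((i + 1 : ℕ) : ℝ) := by exact_mod_cast h5
      nlinarith
  have h1 : ∑ m ∈ Icc 1 M, gmin (X / m) (m * α) =
      ∑ i ∈ range M, gmin (X / ((i + 1 : ℕ) : ℝ)) (((i + 1 : ℕ) : ℝ) * α) := by
    rw [range_eq_Ico, sum_Ico_add' (fun m : ℕ => gmin (X / (m : ℝ)) ((m : ℝ) * α)) 0 M 1]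
    rfl
  have hA1 : ∑ i ∈ range M, A (i + 1) ≤ 2 * q * (1 + Real.log q) := by
    refine le_trans ?_ (Vino_first α X a q hX0.le hq hc hα)
    have hA0 : ∀ m, 0 ≤ A m := by
      intro m
      rw [hA]
      simp only
      split_ifs
      · exact gmin_nonneg _ _ (by positivity)
      · exact le_rfl
    have h2 : ∑ m ∈ (range q).filter (fun m => 1 ≤ m ∧ 2 * m ≤ q), gmin (X / m) (m * α) =
        ∑ m ∈ range q, A m := by
      rw [sum_filter]
      refine sum_congr rfl fun m hm => ?_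
      rw [mem_range] at hm
      rw [hA]
      simp only
      by_cases h3 : 1 ≤ m ∧ 2 * m ≤ q
      · rw [if_pos h3, if_pos ⟨hm, h3⟩]
      · rw [if_neg h3, if_neg (fun h4 => h3 h4.2)]
    rw [h2]
    have h3 : ∑ i ∈ range M, A (i + 1) = ∑ m ∈ Icc 1 M, A m := by
      rw [range_eq_Ico, sum_Ico_add' A 0 M 1]
      rfl
    rw [h3]
    have h4 : ∑ m ∈ Icc 1 M, A m = ∑ m ∈ (Icc 1 M).filter (fun m => m < q), A m := by
      rw [sum_filter]
      refine sum_congr rfl fun m _ => ?_
      by_cases h5 : m < q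
      · rw [if_pos h5]
      · rw [if_neg h5, hA]
        simp only
        rw [if_neg (fun h6 => h5 h6.1)]
    rw [h4]
    apply sum_le_sum_of_subset_of_nonneg
    · intro m hm
      rw [mem_filter] at hm
      exact mem_range.mpr hm.2
    · intro m _ _
      exact hA0 m
  have hlog : (1 : ℝ) ≤ 2 * Real.log (2 * q * M) := by
    have h2 : Real.log 2 ≤ Real.log (2 * q * M) := by
      apply Real.log_le_log (by norm_num)
      nlinarith
    have := Real.log_two_gt_d9
    linarith
  have hlogq : Real.log q ≤ Real.log (2 * q * M) := by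
    apply Real.log_le_log hq0
    nlinarith
  have hlogH : Real.log ((H + 1 : ℕ) : ℝ) ≤ Real.log (2 * q * M) := by
    apply Real.log_le_log (by positivity)
    have h2 : H ≤ M := Nat.div_le_self M q
    have h3 : (H : ℝ) ≤ M := by exact_mod_cast h2
    push_cast
    nlinarith
  have hB1 : ∑ i ∈ range M, B i ≤ 14 * (X / q) * (1 + Real.log ((H + 1 : ℕ) : ℝ)) +
      ((H + 1 : ℕ) : ℝ) * (2 * q * (1 + Real.log q)) := by
    have h2 : ∑ i ∈ range M, B i ≤ ∑ i ∈ range ((H + 1) * q), B i := by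
      apply sum_le_sum_of_subset_of_nonneg
      · apply range_subset_range.mpr
        have h3 := Nat.div_add_mod M q
        have h4 := Nat.mod_lt M hq
        rw [hH]
        nlinarith
      · intro i _ _
        exact hB0 i
    refine h2.trans ?_
    rw [Vino_range_mul]
    have h3 : ∀ h ∈ range (H + 1), ∑ r ∈ range q, B (h * q + r) ≤
        14 * (X / q) * (1 / ((h : ℝ) + 1)) + 2 * q * (1 + Real.log q) := by
      intro h _
      have h4 : ∑ r ∈ range q, B (h * q + r) =
          ∑ r ∈ range q, gmin (2 * X / (((h : ℝ) + 1) * q)) (((h * q + r + 1 : ℕ) : ℝ) * α) := by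
        refine sum_congr rfl fun r hr => ?_
        rw [mem_range] at hr
        rw [hB]
        simp only
        have h5 : (h * q + r) / q = h := by
          rw [Nat.add_comm, Nat.add_mul_div_right _ _ hq, Nat.div_eq_of_lt hr, zero_add]
        rw [h5]
      rw [h4]
      refine (Vino_block α _ a q h (by positivity) hq hc hα).trans (le_of_eq ?_)
      congr 1
      field_simp
      norm_num
    refine (sum_le_sum h3).trans ?_
    rw [sum_add_distrib, ← mul_sum, sum_const, card_range, nsmul_eq_mul]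
    apply add_le_add _ le_rfl
    apply mul_le_mul_of_nonneg_left (Vino_harm (H + 1)) (by positivity)
  rw [h1]
  refine (sum_le_sum hpt).trans ?_
  rw [sum_add_distrib]
  set L := Real.log (2 * q * M) with hL
  have hHq : ((H + 1 : ℕ) : ℝ) * q ≤ M + q := by
    have h2 : H * q ≤ M := Nat.div_mul_le_self M q
    have h3 : (H : ℝ) * q ≤ M := by exact_mod_cast h2
    push_cast
    linarith
  have b1 : 2 * q * (1 + Real.log q) ≤ 2 * q * (3 * L) := by
    apply mul_le_mul_of_nonneg_left _ (by positivity)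
    linarith
  have b2 : 14 * (X / q) * (1 + Real.log ((H + 1 : ℕ) : ℝ)) ≤ 14 * (X / q) * (3 * L) := by
    apply mul_le_mul_of_nonneg_left _ (by positivity)
    linarith
  have b3 : ((H + 1 : ℕ) : ℝ) * (2 * q * (1 + Real.log q)) ≤ 2 * (M + q) * (3 * L) := by
    have h2 : ((H + 1 : ℕ) : ℝ) * (2 * q * (1 + Real.log q)) =
        2 * ((((H + 1 : ℕ) : ℝ) * q) * (1 + Real.log q)) := by ring
    have h4 : 0 ≤ 1 + Real.log q := by
      have := Real.log_nonneg hq1
      linarith
    have h3 : (((H + 1 : ℕ) : ℝ) * q) * (1 + Real.log q) ≤ (M + q) * (3 * L) := by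
      apply mul_le_mul hHq (by linarith) h4 (by positivity)
    rw [h2]
    linarith
  have hL0 : 0 ≤ L := by linarith
  have hXq : 0 ≤ X / q := by positivity
  have hfin : 2 * (q : ℝ) * (3 * L) + (14 * (X / q) * (3 * L) + 2 * (M + q) * (3 * L)) ≤
      42 * (X / q + M + q) * L := by
    have : 42 * (X / q + M + q) * L - (2 * (q : ℝ) * (3 * L) + (14 * (X / q) * (3 * L) + 2 * (M + q) * (3 * L)))
        = (36 * M + 30 * q) * L := by ring
    have h5 : 0 ≤ (36 * (M : ℝ) + 30 * q) * L := by positivity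
    linarith
  linarith

end Pool.Agent.Lib.SW
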