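import Pool.Agent.Lib.SW.LG2
import Pool.Agent.Lib.Sieve.Mertens3
import Pool.Agent.Lib.MP_5d7b92_nt.Count

/-!
# LG-3: iterated prime-indexed primes, the constant 2 e^(-γ), sharpness

`PI 0` = primes, `PI (j+1)` = primes p with π(p) ∈ PI j.

PROOFS.
`PI_count`: #(PI j ∩ [1,X]) = π^(j+1)(X) (p ↦ π(p) is a bijection from PI (j+1) ∩ [1,X] onto PI j ∩ [1, π(X)]: `primeCounting_nth`), and
π(y) ≥ c y/log y ≥ y/(log y)^2 for large y (`primeCounting_ge`), so π^(j+1)(X) ≥ X/(log X)^(2j+3) for X ≥ X_j.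
`cX_asymp`: 1/cX X = ∏_{p ≤ w}(1-1/p), w = ⌊log log X⌋, `mertens_three`: log w · ∏ → e^(-γ), and log ⌊log log X⌋ / log log log X → 1.
`iter_lower`: `sums_lower` with S = PI j ∩ [1,2X] (all p in it, restricted), K = 2j+4, and `cX_asymp`.
`sharp`: W₀ = primorial ⌊(log log X)/4⌋ ≤ 4^((log log X)/4) ≤ (log X)^(0.35), S = primes ≤ 2X that are ≡ 1 mod W₀. Count for
√X ≤ Y ≤ 2X by `theta_ap` (k = 3, ε = 1): ≥ (θ(Y;W₀,1))/log Y ≥ (Y/φ(W₀) - C W₀ Y/(log Y)^3)/log Y ≥ Y/(log Y)^2. If 2n = s + p, s ∈ S, then either p ≤ w₀ (at most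
w₀ π(2X) ≤ ε X/log log log X such n) or 2n - 1 ≡ p is coprime to W₀; the number of N ≤ 2X with (N-1,W₀) = 1 is ≤ (2X/W₀ + 1) φ(W₀), and φ(W₀)/W₀ ~ e^(-γ)/log w₀ ~ e^(-γ)/log log log X.
-/

open Finset Pool.Agent.Lib.GT

namespace Pool.Agent.Lib.SW

/-- iterated prime-indexed primes: `PI 0` = primes, `PI 1` = primes with prime index, ... -/
def PI : ℕ → ℕ → Prop
  | 0, p => p.Prime
  | j + 1, p => p.Prime ∧ PI j (Nat.primeCounting p)

noncomputable instance (j : ℕ) : DecidablePred (PI j) := fun _ => Classical.dec _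

theorem PI_prime (j p : ℕ) (h : PI j p) : p.Prime := by
  cases j with
  | zero => exact h
  | succ j => exact h.1

/-! ### auxiliary limits -/

theorem LG3_log_ev (T : ℝ) : ∀ᶠ X : ℕ in Filter.atTop, T ≤ Real.log X :=
  (Real.tendsto_log_atTop.comp tendsto_natCast_atTop_atTop).eventually_ge_atTop T

theorem LG3_loglog : Filter.Tendsto (fun X : ℕ => Real.log (Real.log X))
    Filter.atTop Filter.atTop :=
  Real.tendsto_log_atTop.comp (Real.tendsto_log_atTop.comp tendsto_natCast_atTop_atTop)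

theorem LG3_loglog_ev (T : ℝ) : ∀ᶠ X : ℕ in Filter.atTop, T ≤ Real.log (Real.log X) :=
  LG3_loglog.eventually_ge_atTop T

theorem LG3_log3_ev (T : ℝ) : ∀ᶠ X : ℕ in Filter.atTop,
    T ≤ Real.log (Real.log (Real.log X)) :=
  (Real.tendsto_log_atTop.comp LG3_loglog).eventually_ge_atTop T

theorem LG3_pow (m : ℕ) {x : ℝ} (hx : 1 ≤ x) :
    (Real.log x) ^ m ≤ (m.factorial : ℝ) * x := by
  have h1 := Real.pow_div_factorial_le_exp (Real.log x) (Real.log_nonneg hx) m
  rw [Real.exp_log (by linarith), div_le_iff₀ (by positivity)] at h1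
  rwa [mul_comm]

/-! ### counting iterated prime-indexed primes -/

theorem LG3_step (j X : ℕ) : ((Icc 1 (Nat.primeCounting X)).filter (PI j)).card ≤
    ((Icc 1 X).filter (PI (j + 1))).card := by
  refine Finset.card_le_card_of_injOn (fun k => Nat.nth Nat.Prime (k - 1)) ?_ ?_
  · intro k hk
    obtain ⟨hk1, hk2⟩ := mem_filter.1 (Finset.mem_coe.1 hk)
    obtain ⟨hk3, hk4⟩ := mem_Icc.1 hk1
    have h1 : Nat.nth Nat.Prime (k - 1) < X + 1 := by
      apply Nat.nth_lt_of_lt_count
      have h2 : Nat.count Nat.Prime (X + 1) = Nat.primeCounting X := rfl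
      rw [h2]
      omega
    have h2 : Nat.primeCounting (Nat.nth Nat.Prime (k - 1)) = k := by
      rw [MP_5d7b92_nt.primeCounting_nth]
      omega
    have hp := Nat.prime_nth_prime (k - 1)
    rw [Finset.mem_coe, mem_filter, mem_Icc]
    refine ⟨⟨hp.one_lt.le, Nat.lt_succ_iff.1 h1⟩, hp, ?_⟩
    rw [h2]
    exact hk2
  · intro a ha b hb hab
    have ha' := mem_Icc.1 (mem_filter.1 (Finset.mem_coe.1 ha)).1
    have hb' := mem_Icc.1 (mem_filter.1 (Finset.mem_coe.1 hb)).1
    have h3 := Nat.nth_injective Nat.infinite_setOfPred_prime hab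
    omega

theorem LG3_base (X : ℕ) : Nat.primeCounting X ≤ ((Icc 1 X).filter (PI 0)).card := by
  rw [← Nat.primesLE_card_eq_primeCounting X]
  refine card_le_card fun p hp => ?_
  have hp' := Nat.mem_primesLE.mp hp
  exact mem_filter.2 ⟨mem_Icc.2 ⟨hp'.2.one_lt.le, hp'.1⟩, hp'.2⟩

theorem PI_count (j : ℕ) : ∃ X₀ : ℕ, ∀ X : ℕ, X₀ ≤ X →
    X / (Real.log X) ^ (2 * j + 3) ≤ (((Icc 1 X).filter (PI j)).card : ℝ) := by
  obtain ⟨X₁, hX₁⟩ := Filter.eventually_atTop.1 (LG3_log_ev 10)
  -- `π(X) ≥ X / (log X)^2`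
  have hpi : ∀ X : ℕ, max X₁ 2 ≤ X → X / (Real.log X) ^ 2 ≤ (Nat.primeCounting X : ℝ) := by
    intro X hX
    have h1 := MP_5d7b92_nt.primeCounting_ge X ((le_max_right _ _).trans hX)
    have h2 := hX₁ X ((le_max_left _ _).trans hX)
    refine le_trans ?_ h1
    have hX0 : (0 : ℝ) ≤ X := Nat.cast_nonneg X
    rw [div_le_div_iff₀ (by positivity) (by linarith)]
    have h3 : (X : ℝ) * 1 ≤ X * (1 / 10 * Real.log X) :=
      mul_le_mul_of_nonneg_left (by linarith) hX0
    have h4 : 0 ≤ Real.log X := by linarith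
    nlinarith
  induction j with
  | zero =>
    refine ⟨max X₁ 2, fun X hX => ?_⟩
    have h2 := hX₁ X ((le_max_left _ _).trans hX)
    have h3 := hpi X hX
    have h4 : (Nat.primeCounting X : ℝ) ≤ (((Icc 1 X).filter (PI 0)).card : ℝ) := by
      exact_mod_cast LG3_base X
    refine le_trans ?_ (h3.trans h4)
    exact div_le_div_of_nonneg_left (Nat.cast_nonneg X) (by positivity)
      (pow_le_pow_right₀ (by linarith) (by norm_num))
  | succ j ih =>
    obtain ⟨X₂, hX₂⟩ := ih
    obtain ⟨X₃, hX₃⟩ := Filter.eventually_atTop.1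
      (Nat.tendsto_primeCounting.eventually_ge_atTop (max X₂ 2))
    refine ⟨max X₃ (max X₁ 2), fun X hX => ?_⟩
    have hXa : X₃ ≤ X := (le_max_left _ _).trans hX
    have hXb : max X₁ 2 ≤ X := (le_max_right _ _).trans hX
    have h2 := hX₁ X ((le_max_left _ _).trans hXb)
    have h3 := hpi X hXb
    have h4 := hX₃ X hXa
    have h5 := hX₂ (Nat.primeCounting X) ((le_max_left _ _).trans h4)
    have h6 : (2 : ℝ) ≤ Nat.primeCounting X := by exact_mod_cast (le_max_right _ _).trans h4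
    have h7 : (Nat.primeCounting X : ℝ) ≤ X := by
      have h8 : Nat.primeCounting X ≤ X := by
        have h9 := Nat.primesLE_card_eq_primeCounting X
        rw [← h9]
        calc (Nat.primesLE X).card ≤ (Icc 1 X).card := by
              refine card_le_card fun p hp => ?_
              have hp' := Nat.mem_primesLE.mp hp
              exact mem_Icc.2 ⟨hp'.2.one_lt.le, hp'.1⟩
          _ = X := by rw [Nat.card_Icc, Nat.add_sub_cancel]
      exact_mod_cast h8
    have h8 : (((Icc 1 (Nat.primeCounting X)).filter (PI j)).card : ℝ) ≤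
        (((Icc 1 X).filter (PI (j + 1))).card : ℝ) := by
      exact_mod_cast LG3_step j X
    refine le_trans ?_ (h5.trans h8)
    have h9 : Real.log (Nat.primeCounting X : ℝ) ≤ Real.log X := Real.log_le_log (by linarith) h7
    have h10 : 0 < Real.log (Nat.primeCounting X : ℝ) := Real.log_pos (by linarith)
    calc (X : ℝ) / (Real.log X) ^ (2 * (j + 1) + 3)
        = X / (Real.log X) ^ 2 / (Real.log X) ^ (2 * j + 3) := by
          rw [div_div, ← pow_add]
          congr 2
          ring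
      _ ≤ (Nat.primeCounting X : ℝ) / (Real.log X) ^ (2 * j + 3) :=
          div_le_div_of_nonneg_right h3 (by positivity)
      _ ≤ (Nat.primeCounting X : ℝ) / (Real.log (Nat.primeCounting X : ℝ)) ^ (2 * j + 3) :=
          div_le_div_of_nonneg_left (by linarith) (by positivity)
            (pow_le_pow_left₀ h10.le h9 _)

/-! ### Mertens -/

/-- `∏_{p ≤ z} (1 - 1/p)` -/
noncomputable def LG3V (z : ℕ) : ℝ := ∏ p ∈ (range (z + 1)).filter Nat.Prime, (1 - 1 / (p : ℝ))

theorem LG3_V (z : ℕ) : ((primorial z).totient : ℝ) / (primorial z : ℝ) = LG3V z := by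
  have h1 := Nat.totient_eq_mul_prod_factors (primorial z)
  have h0 : (primorial z : ℝ) ≠ 0 := by exact_mod_cast primorial_ne_zero z
  have h2 : ((primorial z).totient : ℝ) =
      (primorial z : ℝ) * ∏ p ∈ (primorial z).primeFactors, (1 - (p : ℝ)⁻¹) := by
    have h3 := congrArg (fun r : ℚ => (r : ℝ)) h1
    push_cast at h3
    exact h3
  rw [h2, mul_div_cancel_left₀ _ h0, primeFactors_primorial]
  unfold LG3V
  refine prod_congr rfl fun p _ => ?_
  rw [one_div]

theorem LG3_mertens (c : ℝ) (hc : 0 < c) :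
    Filter.Tendsto (fun y : ℝ => Real.log y * LG3V ⌊c * y⌋₊) Filter.atTop
      (nhds (Real.exp (-Real.eulerMascheroniConstant))) := by
  have h0 : Filter.Tendsto (fun y : ℝ => c * y) Filter.atTop Filter.atTop :=
    Filter.tendsto_id.const_mul_atTop hc
  have h1 : Filter.Tendsto (fun y : ℝ => ⌊c * y⌋₊) Filter.atTop Filter.atTop :=
    tendsto_nat_floor_atTop.comp h0
  have h2 := Sieve.Mertens3.mertens_three.comp h1
  have h4 : Filter.Tendsto (fun y : ℝ => Real.log ((⌊c * y⌋₊ : ℝ) / y)) Filter.atTop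
      (nhds (Real.log c)) := (tendsto_nat_floor_mul_div_atTop hc.le).log hc.ne'
  have h5 : Filter.Tendsto (fun y : ℝ => Real.log ((⌊c * y⌋₊ : ℝ) / y) / Real.log y)
      Filter.atTop (nhds 0) := h4.div_atTop Real.tendsto_log_atTop
  have hev : ∀ᶠ y : ℝ in Filter.atTop, 1 < y ∧ 2 ≤ c * y :=
    (Filter.eventually_gt_atTop 1).and (h0.eventually_ge_atTop 2)
  have h3 : Filter.Tendsto (fun y : ℝ => Real.log (⌊c * y⌋₊ : ℝ) / Real.log y) Filter.atTop
      (nhds 1) := by
    have h6 := h5.add_const 1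
    rw [zero_add] at h6
    refine h6.congr' ?_
    filter_upwards [hev] with y hy
    have h7 : (2 : ℝ) ≤ (⌊c * y⌋₊ : ℝ) := by
      exact_mod_cast Nat.le_floor (by exact_mod_cast hy.2)
    have h8 : 0 < Real.log y := Real.log_pos hy.1
    rw [Real.log_div (by linarith) (by linarith), sub_div, div_self h8.ne', sub_add_cancel]
  have h6 := h2.div h3 one_ne_zero
  rw [div_one] at h6
  refine h6.congr' ?_
  filter_upwards [hev] with y hy
  have h7 : (2 : ℝ) ≤ (⌊c * y⌋₊ : ℝ) := by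
    exact_mod_cast Nat.le_floor (by exact_mod_cast hy.2)
  have h8 : 0 < Real.log y := Real.log_pos hy.1
  have h9 : 0 < Real.log (⌊c * y⌋₊ : ℝ) := Real.log_pos (by linarith)
  simp only [Function.comp_apply, Pi.div_apply]
  unfold LG3V
  field_simp

theorem cX_asymp : Filter.Tendsto (fun X : ℕ => Real.log (Real.log (Real.log X)) / cX X)
    Filter.atTop (nhds (Real.exp (-Real.eulerMascheroniConstant))) := by
  have h1 := (LG3_mertens 1 one_pos).comp LG3_loglog
  refine h1.congr fun X => ?_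
  simp only [Function.comp_apply]
  rw [one_mul, ← LG3_V]
  unfold cX WX wX
  rw [div_div_eq_mul_div, mul_div_assoc]

theorem LG3_gamma : Real.exp (-Real.eulerMascheroniConstant) ≤ 1 := by
  have h := Real.one_half_lt_eulerMascheroniConstant
  rw [Real.exp_le_one_iff]
  linarith

/-! ### the lower bound -/

theorem iter_lower (j : ℕ) (ε : ℝ) (hε : 0 < ε) : ∃ X₀ : ℕ, ∀ X : ℕ, X₀ ≤ X →
    (2 * Real.exp (-Real.eulerMascheroniConstant) - ε) * X / Real.log (Real.log (Real.log X)) ≤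
      (((Icc 1 X).filter (fun n => ∃ p ∈ range (2 * n), PI j p ∧ (2 * n - p).Prime ∧
        p ≠ 2 * n - p)).card : ℝ) := by
  obtain ⟨δ, hδ, hδ1, hδε⟩ : ∃ δ : ℝ, 0 < δ ∧ δ ≤ 1 ∧ δ ≤ ε / 4 :=
    ⟨min 1 (ε / 4), lt_min one_pos (by linarith), min_le_left _ _, min_le_right _ _⟩
  have hg := LG3_gamma
  have hg0 := Real.exp_pos (-Real.eulerMascheroniConstant)
  obtain ⟨X₁, hX₁⟩ := sums_lower (2 * j + 4) δ hδ
  obtain ⟨X₂, hX₂⟩ := PI_count j
  -- the comparison of the constants
  have hc : ∀ᶠ X : ℕ in Filter.atTop, 2 * Real.exp (-Real.eulerMascheroniConstant) - ε ≤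
      2 * (1 - δ) * (Real.log (Real.log (Real.log X)) / cX X) := by
    have h1 := cX_asymp.const_mul (2 * (1 - δ))
    have h2 : 2 * Real.exp (-Real.eulerMascheroniConstant) - ε <
        2 * (1 - δ) * Real.exp (-Real.eulerMascheroniConstant) := by nlinarith
    exact (h1.eventually_const_lt h2).mono fun X hX => hX.le
  have hcast : Filter.Tendsto (fun X : ℕ => (X : ℝ)) Filter.atTop Filter.atTop :=
    tendsto_natCast_atTop_atTop
  obtain ⟨X₃, hX₃⟩ := Filter.eventually_atTop.1 (hc.and ((LG3_log3_ev 1).and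
    ((LG3_log_ev (16 / δ)).and ((LG3_log_ev (((2 * j + 12).factorial : ℝ) + 1)).and
      ((hcast.eventually_ge_atTop (16 * (X₂ + 2) / δ)).and
        (Filter.eventually_ge_atTop X₁))))))
  refine ⟨X₃, fun X hX => ?_⟩
  obtain ⟨k1, k2, k3, k4, k5, k6⟩ := hX₃ X hX
  have hL : 0 < Real.log X := by
    have : 0 < 16 / δ := by positivity
    linarith
  have hfac : (1 : ℝ) ≤ ((2 * j + 12).factorial : ℝ) := by
    exact_mod_cast Nat.one_le_iff_ne_zero.2 (Nat.factorial_ne_zero _)
  have hX16 : 16 * ((X₂ : ℝ) + 2) ≤ δ * X := by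
    rw [div_le_iff₀ hδ] at k5
    linarith
  have hX2nn : (0 : ℝ) ≤ X₂ := Nat.cast_nonneg X₂
  have hX1 : (1 : ℝ) ≤ X := by nlinarith [(Nat.cast_nonneg X : (0 : ℝ) ≤ X)]
  have hX0 : (0 : ℝ) < X := by linarith
  -- density of the iterated primes
  have hdens : X / (Real.log X) ^ (2 * j + 4) ≤
      ((((Icc 1 (2 * X)).filter (PI j)).filter
        (fun s : ℕ => (s : ℝ) ≤ δ / 8 * X)).card : ℝ) := by
    obtain ⟨Y, hY⟩ : ∃ Y : ℕ, Y = ⌊δ / 8 * X⌋₊ := ⟨_, rfl⟩
    have hYle : (Y : ℝ) ≤ δ / 8 * X := by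
      rw [hY]
      exact Nat.floor_le (by positivity)
    have hYge : δ / 16 * X ≤ (Y : ℝ) := by
      have h1 := Nat.lt_floor_add_one (δ / 8 * X)
      rw [← hY] at h1
      nlinarith
    have hYX₂ : X₂ ≤ Y := by
      have h1 : (X₂ : ℝ) ≤ Y := by linarith
      exact_mod_cast h1
    have hY2 : (2 : ℝ) ≤ Y := by linarith
    have hYX : (Y : ℝ) ≤ X := by nlinarith
    have h1 := hX₂ Y hYX₂
    have h2 : (((Icc 1 Y).filter (PI j)).card : ℝ) ≤
        ((((Icc 1 (2 * X)).filter (PI j)).filter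
          (fun s : ℕ => (s : ℝ) ≤ δ / 8 * X)).card : ℝ) := by
      refine Nat.cast_le.2 (card_le_card fun s hs => ?_)
      obtain ⟨hs1, hs2⟩ := mem_filter.1 hs
      obtain ⟨hs3, hs4⟩ := mem_Icc.1 hs1
      have hs5 : (s : ℝ) ≤ Y := by exact_mod_cast hs4
      have hYX' : Y ≤ X := by exact_mod_cast hYX
      exact mem_filter.2 ⟨mem_filter.2 ⟨mem_Icc.2 ⟨hs3, by omega⟩, hs2⟩, by linarith⟩
    refine le_trans ?_ (h1.trans h2)
    have h3 : 0 < Real.log Y := Real.log_pos (by linarith)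
    have h4 : Real.log Y ≤ Real.log X := Real.log_le_log (by linarith) hYX
    calc (X : ℝ) / (Real.log X) ^ (2 * j + 4)
        ≤ (δ / 16 * X) / (Real.log X) ^ (2 * j + 3) := by
          have h6 : (Real.log X) ^ (2 * j + 4) = (Real.log X) ^ (2 * j + 3) * Real.log X :=
            pow_succ _ _
          rw [div_le_div_iff₀ (by positivity) (by positivity), h6]
          rw [div_le_iff₀ hδ] at k3
          have h5 : 0 ≤ X * (Real.log X) ^ (2 * j + 3) := by positivity
          nlinarith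
      _ ≤ Y / (Real.log X) ^ (2 * j + 3) :=
          div_le_div_of_nonneg_right hYge (by positivity)
      _ ≤ Y / (Real.log Y) ^ (2 * j + 3) :=
          div_le_div_of_nonneg_left (by linarith) (by positivity) (pow_le_pow_left₀ h3.le h4 _)
  have hmain := hX₁ X k6 ((Icc 1 (2 * X)).filter (PI j))
    (fun s hs => PI_prime j s (mem_filter.1 hs).2) hdens
  -- many representations
  have hbig : 1 < X / (Real.log X) ^ (2 * j + 4 + 7) := by
    rw [one_lt_div (by positivity)]
    have h1 := LG3_pow (2 * j + 12) hX1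
    have h2 : (Real.log X) ^ (2 * j + 12) = (Real.log X) ^ (2 * j + 4 + 7) * Real.log X := by
      rw [← pow_succ]
    rw [h2] at h1
    have h3 : 0 < (Real.log X) ^ (2 * j + 4 + 7) := by positivity
    nlinarith
  have hsub : (((Icc 1 X).filter (fun n => X / (Real.log X) ^ (2 * j + 4 + 7) ≤
      (reps ((Icc 1 (2 * X)).filter (PI j)) (2 * n) : ℝ))).card : ℝ) ≤
      (((Icc 1 X).filter (fun n => ∃ p ∈ range (2 * n), PI j p ∧ (2 * n - p).Prime ∧
        p ≠ 2 * n - p)).card : ℝ) := by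
    refine Nat.cast_le.2 (card_le_card fun n hn => ?_)
    obtain ⟨hn1, hn2⟩ := mem_filter.1 hn
    refine mem_filter.2 ⟨hn1, ?_⟩
    have h1 : (1 : ℝ) < (reps ((Icc 1 (2 * X)).filter (PI j)) (2 * n) : ℝ) :=
      lt_of_lt_of_le hbig hn2
    have h2 : 1 < reps ((Icc 1 (2 * X)).filter (PI j)) (2 * n) := by exact_mod_cast h1
    unfold reps at h2
    obtain ⟨a, ha, b, hb, hab⟩ := one_lt_card.1 h2
    obtain ⟨c, hc1, hcn⟩ : ∃ c, c ∈ ((Icc 1 (2 * X)).filter (PI j)).filter
        (fun s => s < 2 * n ∧ (2 * n - s).Prime) ∧ c ≠ n := by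
      by_cases han : a = n
      · exact ⟨b, hb, fun h => hab (by rw [han, h])⟩
      · exact ⟨a, ha, han⟩
    obtain ⟨hc2, hc3, hc4⟩ := mem_filter.1 hc1
    exact ⟨c, mem_range.2 hc3, (mem_filter.1 hc2).2, hc4, by omega⟩
  refine le_trans ?_ (hmain.trans hsub)
  have h3 : (0 : ℝ) < Real.log (Real.log (Real.log X)) := by linarith
  have hcX := one_le_cX X
  rw [div_le_div_iff₀ h3 (by linarith)]
  have h4 : (2 * Real.exp (-Real.eulerMascheroniConstant) - ε) * cX X ≤
      2 * (1 - δ) * Real.log (Real.log (Real.log X)) := by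
    have h5 := mul_le_mul_of_nonneg_right k1 (by linarith : (0 : ℝ) ≤ cX X)
    rwa [mul_assoc, div_mul_cancel₀ _ (by linarith : cX X ≠ 0)] at h5
  nlinarith

/-! ### sharpness -/

theorem LG3_four_pow {y : ℝ} (hy : 0 ≤ y) {z : ℕ} (hz : (z : ℝ) ≤ 1 / 4 * y) :
    ((primorial z : ℕ) : ℝ) ≤ Real.exp (y / 2) := by
  have h1 : ((primorial z : ℕ) : ℝ) ≤ (4 : ℝ) ^ z := by exact_mod_cast primorial_le_four_pow z
  have h2 : (4 : ℝ) ^ z = Real.exp (z * Real.log 4) := by
    rw [mul_comm, Real.exp_mul, Real.exp_log (by norm_num), Real.rpow_natCast]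
  have h3 : Real.log 4 ≤ 2 := by
    have h4 : Real.log 4 = 2 * Real.log 2 := by
      rw [show (4 : ℝ) = 2 ^ 2 by norm_num, Real.log_pow]
      norm_num
    have h5 := Real.log_two_lt_d9
    linarith
  have h4 : 0 ≤ Real.log 4 := Real.log_nonneg (by norm_num)
  refine h1.trans ?_
  rw [h2, Real.exp_le_exp]
  have hz0 : (0 : ℝ) ≤ z := Nat.cast_nonneg z
  calc (z : ℝ) * Real.log 4 ≤ z * 2 := mul_le_mul_of_nonneg_left h3 hz0
    _ ≤ y / 2 := by linarith

theorem sharp (ε : ℝ) (hε : 0 < ε) : ∃ X₀ : ℕ, ∀ X : ℕ, X₀ ≤ X → ∃ S : Finset ℕ,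
    (∀ s ∈ S, s.Prime ∧ s ≤ 2 * X) ∧
    (∀ Y : ℕ, Real.sqrt X ≤ Y → Y ≤ 2 * X →
      Y / (Real.log Y) ^ 2 ≤ ((S.filter (fun s => s ≤ Y)).card : ℝ)) ∧
    (((Icc 1 X).filter (fun n => ∃ s ∈ S, s < 2 * n ∧ (2 * n - s).Prime)).card : ℝ) ≤
      (2 * Real.exp (-Real.eulerMascheroniConstant) + ε) * X / Real.log (Real.log (Real.log X)) := by
  obtain ⟨C, hC, hθ⟩ := theta_ap 3 1 one_pos
  have hm : ∀ᶠ X : ℕ in Filter.atTop, 2 * (Real.log (Real.log (Real.log X)) *
      LG3V ⌊1 / 4 * Real.log (Real.log X)⌋₊) ≤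
      2 * Real.exp (-Real.eulerMascheroniConstant) + ε / 2 := by
    have h1 := ((LG3_mertens (1 / 4) (by norm_num)).comp LG3_loglog).const_mul 2
    exact (h1.eventually_lt_const (by linarith)).mono fun X hX => hX.le
  obtain ⟨X₀, hX₀⟩ := Filter.eventually_atTop.1 (hm.and ((LG3_log3_ev 1).and
    ((LG3_log_ev (max 16 (max C (24 / ε)))).and ((LG3_loglog_ev (max 1 (480 / ε))).and
      (Filter.eventually_ge_atTop 16)))))
  refine ⟨X₀, fun X hX => ?_⟩
  obtain ⟨k1, k2, k3, k4, k5⟩ := hX₀ X hX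
  obtain ⟨L, hL⟩ : ∃ L, L = Real.log X := ⟨_, rfl⟩
  obtain ⟨M, hM⟩ : ∃ M, M = Real.log L := ⟨_, rfl⟩
  obtain ⟨T, hT⟩ : ∃ T, T = Real.log M := ⟨_, rfl⟩
  rw [← hL, ← hM, ← hT] at k1
  rw [← hL, ← hM, ← hT] at k2
  rw [← hL] at k3
  rw [← hL, ← hM] at k4
  have hL16 : 16 ≤ L := (le_max_left _ _).trans k3
  have hLC : C ≤ L := ((le_max_left _ _).trans (le_max_right _ _)).trans k3
  have hLε : 24 / ε ≤ L := ((le_max_right _ _).trans (le_max_right _ _)).trans k3
  have hM1 : 1 ≤ M := (le_max_left _ _).trans k4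
  have hMε : 480 / ε ≤ M := (le_max_right _ _).trans k4
  have hXr : (16 : ℝ) ≤ X := by exact_mod_cast k5
  have hX0 : (0 : ℝ) < X := by linarith
  obtain ⟨z, hz⟩ : ∃ z, z = ⌊1 / 4 * M⌋₊ := ⟨_, rfl⟩
  rw [← hz] at k1
  have hzM : (z : ℝ) ≤ 1 / 4 * M := by
    rw [hz]
    exact Nat.floor_le (by linarith)
  obtain ⟨W, hW⟩ : ∃ W, W = primorial z := ⟨_, rfl⟩
  have hW0 : 0 < W := by
    rw [hW]
    exact primorial_pos z
  have hW1 : (1 : ℝ) ≤ W := by exact_mod_cast hW0
  have hWL : (W : ℝ) ≤ √L := by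
    have h1 := LG3_four_pow (by linarith : 0 ≤ M) hzM
    rw [← hW] at h1
    refine h1.trans (le_of_eq ?_)
    rw [Real.exp_half, hM, Real.exp_log (by linarith)]
  have hsL : √L ≤ L / 4 := by
    have h1 := Real.sq_sqrt (by linarith : 0 ≤ L)
    have h2 : 4 ≤ √L := by
      rw [Real.le_sqrt (by norm_num) (by linarith)]
      linarith
    nlinarith
  have hφ : 0 < W.totient := Nat.totient_pos.2 hW0
  have hφ' : (0 : ℝ) < W.totient := by exact_mod_cast hφ
  have hφW : (W.totient : ℝ) ≤ W := by exact_mod_cast Nat.totient_le W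
  refine ⟨(Icc 1 (2 * X)).filter (fun s => s.Prime ∧ s ≡ 1 [MOD W]), ?_, ?_, ?_⟩
  · intro s hs
    obtain ⟨hs1, hs2, -⟩ := mem_filter.1 hs
    exact ⟨hs2, (mem_Icc.1 hs1).2⟩
  · intro Y hY1 hY2
    have h4 : (4 : ℝ) ≤ √X := by
      rw [Real.le_sqrt (by norm_num) (by linarith)]
      linarith
    have hY0 : (4 : ℝ) ≤ Y := h4.trans hY1
    have hlY : L / 2 ≤ Real.log Y := by
      rw [hL, ← Real.log_sqrt (by linarith)]
      exact Real.log_le_log (by linarith) hY1
    have h1 := hθ W 1 hW0 (Nat.coprime_one_left W) Y (by linarith)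
    rw [Nat.floor_natCast, Real.rpow_one] at h1
    have h2 : (Icc 1 Y).filter (fun n => n.Prime ∧ n ≡ 1 [MOD W]) ⊆
        ((Icc 1 (2 * X)).filter (fun s => s.Prime ∧ s ≡ 1 [MOD W])).filter (fun s => s ≤ Y) := by
      intro s hs
      obtain ⟨hs1, hs2⟩ := mem_filter.1 hs
      obtain ⟨hs3, hs4⟩ := mem_Icc.1 hs1
      exact mem_filter.2 ⟨mem_filter.2 ⟨mem_Icc.2 ⟨hs3, hs4.trans hY2⟩, hs2⟩, hs4⟩
    refine le_trans ?_ (Nat.cast_le.2 (card_le_card h2))
    have h3 : ∑ n ∈ (Icc 1 Y).filter (fun n => n.Prime ∧ n ≡ 1 [MOD W]), Real.log n ≤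
        (((Icc 1 Y).filter (fun n => n.Prime ∧ n ≡ 1 [MOD W])).card : ℝ) * Real.log Y := by
      rw [← nsmul_eq_mul, ← sum_const]
      refine sum_le_sum fun n hn => ?_
      obtain ⟨hn1, hn2⟩ := mem_Icc.1 (mem_filter.1 hn).1
      exact Real.log_le_log (by exact_mod_cast hn1) (by exact_mod_cast hn2)
    generalize (((Icc 1 Y).filter (fun n => n.Prime ∧ n ≡ 1 [MOD W])).card : ℝ) = c at *
    generalize ∑ n ∈ (Icc 1 Y).filter (fun n => n.Prime ∧ n ≡ 1 [MOD W]), Real.log n = A at *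
    have hYp : (0 : ℝ) < Y := by linarith
    generalize hl : Real.log Y = l at *
    have hl0 : 0 < l := by linarith
    have h5 : (Y : ℝ) / W ≤ Y / W.totient := div_le_div_of_nonneg_left hYp.le hφ' hφW
    have hWl : (W : ℝ) ≤ l / 2 := by linarith
    have h6 : 2 * (Y / l) ≤ (Y : ℝ) / W := by
      rw [le_div_iff₀ (by linarith)]
      calc 2 * (Y / l) * W ≤ 2 * (Y / l) * (l / 2) :=
            mul_le_mul_of_nonneg_left hWl (by positivity)
        _ = Y := by field_simp
    have h7 : C * W * Y / l ^ 3 ≤ Y / l := by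
      rw [div_le_div_iff₀ (by positivity) hl0]
      have h8 : C * W ≤ l * l := by
        have h9 : C ≤ 2 * l := by linarith
        calc C * W ≤ (2 * l) * (l / 2) := mul_le_mul h9 hWl (by linarith) (by linarith)
          _ = l * l := by ring
      calc C * W * Y * l ≤ (l * l) * Y * l := by
            refine mul_le_mul_of_nonneg_right (mul_le_mul_of_nonneg_right h8 hYp.le) hl0.le
        _ = Y * l ^ 3 := by ring
    have h8 := (abs_le.1 h1).1
    have h9 : Y / l ≤ c * l := by linarith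
    rw [div_le_iff₀ (by positivity)]
    rw [div_le_iff₀ hl0] at h9
    calc (Y : ℝ) ≤ c * l * l := h9
      _ = c * l ^ 2 := by ring
  · -- the upper bound
    have hcov : (Icc 1 X).filter (fun n => ∃ s ∈ (Icc 1 (2 * X)).filter
        (fun s => s.Prime ∧ s ≡ 1 [MOD W]), s < 2 * n ∧ (2 * n - s).Prime) ⊆
        (((Icc 1 (2 * X)).filter Nat.Prime) ×ˢ range (z + 1)).image (fun p => (p.1 + p.2) / 2) ∪
        (Icc 1 X).filter (fun n => Nat.Coprime W (2 * n - 1)) := by
      intro n hn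
      obtain ⟨hn1, s, hs, hsn, hp⟩ := mem_filter.1 hn
      obtain ⟨hs1, hs2, hs3⟩ := mem_filter.1 hs
      rw [mem_union]
      by_cases hpz : 2 * n - s ≤ z
      · left
        refine mem_image.2 ⟨(s, 2 * n - s), mem_product.2 ⟨mem_filter.2 ⟨hs1, hs2⟩,
          mem_range.2 (by omega)⟩, ?_⟩
        simp only
        omega
      · right
        refine mem_filter.2 ⟨hn1, ?_⟩
        have h1 : Nat.Coprime W (2 * n - s) := by
          rw [Nat.coprime_comm, Nat.Prime.coprime_iff_not_dvd hp, hW, hp.dvd_primorial_iff]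
          exact hpz
        have h2 : W ∣ s - 1 := (Nat.modEq_iff_dvd' hs2.one_lt.le).1 hs3.symm
        obtain ⟨m, hm⟩ := h2
        have hs1' := hs2.one_lt
        have h3 : 2 * n - 1 = (2 * n - s) + W * m := by
          rw [← hm]
          omega
        rw [h3]
        exact (Nat.coprime_add_mul_left_right _ _ _).2 h1
    have hT1 : (((((Icc 1 (2 * X)).filter Nat.Prime) ×ˢ range (z + 1)).image
        (fun p => (p.1 + p.2) / 2)).card : ℝ) ≤ 20 * X * M / L := by
      have h1 : ((((Icc 1 (2 * X)).filter Nat.Prime) ×ˢ range (z + 1)).image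
          (fun p => (p.1 + p.2) / 2)).card ≤ Nat.primeCounting (2 * X) * (z + 1) := by
        refine card_image_le.trans ?_
        rw [card_product, card_range]
        refine Nat.mul_le_mul_right _ ?_
        rw [← Nat.primesLE_card_eq_primeCounting]
        refine card_le_card fun p hp => ?_
        obtain ⟨hp1, hp2⟩ := mem_filter.1 hp
        exact Nat.mem_primesLE.mpr ⟨(mem_Icc.1 hp1).2, hp2⟩
      have h2 := MP_5d7b92_nt.primeCounting_le (2 * X) (by omega)
      have h3 : L ≤ Real.log ((2 * X : ℕ) : ℝ) := by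
        rw [hL]
        refine Real.log_le_log hX0 ?_
        push_cast
        linarith
      have h4 : (Nat.primeCounting (2 * X) : ℝ) ≤ 10 * X / L := by
        refine h2.trans ?_
        push_cast
        push_cast at h3
        rw [div_le_div_iff₀ (by linarith) (by linarith)]
        nlinarith
      calc _ ≤ ((Nat.primeCounting (2 * X) * (z + 1) : ℕ) : ℝ) := by exact_mod_cast h1
        _ = (Nat.primeCounting (2 * X) : ℝ) * ((z : ℝ) + 1) := by push_cast; ring
        _ ≤ (10 * X / L) * (2 * M) := by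
            refine mul_le_mul h4 (by linarith) (by positivity) (by positivity)
        _ = 20 * X * M / L := by ring
    have hT2 : (((Icc 1 X).filter (fun n => Nat.Coprime W (2 * n - 1))).card : ℝ) ≤
        2 * X * LG3V z + √L := by
      have h1 : ((Icc 1 X).filter (fun n => Nat.Coprime W (2 * n - 1))).card ≤
          ((Ico 0 (0 + 2 * X)).filter (fun x => W.Coprime x)).card := by
        refine Finset.card_le_card_of_injOn (fun n => 2 * n - 1) ?_ ?_
        · intro n hn
          obtain ⟨hn1, hn2⟩ := mem_filter.1 (Finset.mem_coe.1 hn)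
          obtain ⟨hn3, hn4⟩ := mem_Icc.1 hn1
          have hlt : 2 * n - 1 < 0 + 2 * X := by omega
          exact Finset.mem_coe.2 (mem_filter.2 ⟨mem_Ico.2 ⟨Nat.zero_le _, hlt⟩, hn2⟩)
        · intro a ha b hb hab
          have ha' := mem_Icc.1 (mem_filter.1 (Finset.mem_coe.1 ha)).1
          have hb' := mem_Icc.1 (mem_filter.1 (Finset.mem_coe.1 hb)).1
          simp only at hab
          omega
      have h2 := h1.trans (Nat.Ico_filter_coprime_le 0 (2 * X) hW0.ne')
      have h3 : (((2 * X / W : ℕ) : ℕ) : ℝ) ≤ 2 * X / W := by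
        refine (Nat.cast_div_le).trans (le_of_eq ?_)
        push_cast
        ring
      calc _ ≤ ((W.totient * (2 * X / W + 1) : ℕ) : ℝ) := by exact_mod_cast h2
        _ = (W.totient : ℝ) * (((2 * X / W : ℕ) : ℝ) + 1) := by push_cast; ring
        _ ≤ (W.totient : ℝ) * (2 * X / W + 1) :=
            mul_le_mul_of_nonneg_left (by linarith) hφ'.le
        _ = 2 * X * ((W.totient : ℝ) / W) + W.totient := by ring
        _ ≤ 2 * X * LG3V z + √L := by
            rw [hW, LG3_V]
            rw [← hW]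
            linarith
    have htot := (Nat.cast_le (α := ℝ)).2 ((card_le_card hcov).trans (card_union_le _ _))
    push_cast at htot
    rw [← hL, ← hM, ← hT, le_div_iff₀ (by linarith)]
    have hT0 : 0 < T := by linarith
    have hTM : T ≤ M := by
      rw [hT]
      exact (Real.log_le_sub_one_of_pos (by linarith)).trans (by linarith)
    have hML : M ≤ L := by
      rw [hM]
      exact (Real.log_le_sub_one_of_pos (by linarith)).trans (by linarith)
    -- `√L T ≤ (ε/4) X`
    have e1 : √L * T ≤ ε / 4 * X := by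
      have h1 : L ^ 3 ≤ 6 * X := by
        have h2 := LG3_pow 3 (by linarith : (1 : ℝ) ≤ X)
        rw [← hL] at h2
        norm_num [Nat.factorial] at h2
        exact h2
      have h2 : 24 ≤ L * ε := by
        rw [div_le_iff₀ hε] at hLε
        exact hLε
      calc √L * T ≤ L * L := mul_le_mul (by linarith) (by linarith) hT0.le (by linarith)
        _ ≤ ε / 4 * X := by nlinarith
    -- `20 X M T / L ≤ (ε/4) X`
    have e2 : 20 * X * M / L * T ≤ ε / 4 * X := by
      have h1 : M ^ 3 ≤ 6 * L := by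
        have h2 := LG3_pow 3 (by linarith : (1 : ℝ) ≤ L)
        rw [← hM] at h2
        norm_num [Nat.factorial] at h2
        exact h2
      have h2 : 480 ≤ M * ε := by
        rw [div_le_iff₀ hε] at hMε
        exact hMε
      have h3 : 20 * M * M ≤ ε / 4 * L := by nlinarith
      calc 20 * X * M / L * T ≤ 20 * X * M / L * M :=
            mul_le_mul_of_nonneg_left hTM (by positivity)
        _ = X * (20 * M * M) / L := by ring
        _ ≤ X * (ε / 4 * L) / L :=
            div_le_div_of_nonneg_right (mul_le_mul_of_nonneg_left h3 hX0.le) (by linarith)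
        _ = ε / 4 * X := by field_simp
    have e3 : 2 * X * LG3V z * T ≤ (2 * Real.exp (-Real.eulerMascheroniConstant) + ε / 2) * X := by
      have := mul_le_mul_of_nonneg_right k1 hX0.le
      linarith
    calc _ ≤ (20 * X * M / L + (2 * X * LG3V z + √L)) * T :=
          mul_le_mul_of_nonneg_right (htot.trans (add_le_add hT1 hT2)) hT0.le
      _ = 20 * X * M / L * T + 2 * X * LG3V z * T + √L * T := by ring
      _ ≤ ε / 4 * X + (2 * Real.exp (-Real.eulerMascheroniConstant) + ε / 2) * X + ε / 4 * X := by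
          linarith
      _ = (2 * Real.exp (-Real.eulerMascheroniConstant) + ε) * X := by ring

end Pool.Agent.Lib.SW
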