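import Pool.Agent.Lib.SW.SP4

/-!
# SP-5: size of `primorial w` for w ≤ log log X + 2
-/

open Finset Pool.Agent.Lib.GT

namespace Pool.Agent.Lib.SW

theorem primorial_le_sq (X w : ℕ) (hL : 100 ≤ Real.log (X : ℝ))
    (hw : (w : ℝ) ≤ Real.log (Real.log (X : ℝ)) + 2) :
    (primorial w : ℝ) ≤ (Real.log X) ^ 2 := by
  have hL0 : 0 < Real.log (X : ℝ) := by linarith
  have h2 : (primorial w : ℝ) ≤ (4 : ℝ) ^ w := by exact_mod_cast primorial_le_four_pow w
  have hl4 : Real.log 4 ≤ 1.39 := by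
    have h4 : Real.log 4 = 2 * Real.log 2 := by
      rw [show (4 : ℝ) = 2 ^ 2 by norm_num, Real.log_pow]
      norm_num
    have h5 := Real.log_two_lt_d9
    linarith
  have hl40 : 0 ≤ Real.log 4 := Real.log_nonneg (by norm_num)
  have h3 : (4 : ℝ) ^ w = Real.exp (w * Real.log 4) := by
    rw [mul_comm, Real.exp_mul, Real.exp_log (by norm_num), Real.rpow_natCast]
  have h100 : 4.6 ≤ Real.log (Real.log (X : ℝ)) := by
    rw [Real.le_log_iff_exp_le hL0]
    refine le_trans ?_ hL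
    have h6 : Real.exp 4.6 = (Real.exp 1) ^ 4 * Real.exp 0.6 := by
      rw [← Real.exp_nat_mul, ← Real.exp_add]
      norm_num
    have h7 := Real.exp_one_lt_d9
    have h8 : Real.exp 0.6 ≤ 1.83 := by
      have h9 : Real.exp 0.6 ^ 5 = (Real.exp 1) ^ 3 := by
        rw [← Real.exp_nat_mul, ← Real.exp_nat_mul]
        norm_num
      by_contra hcon
      have h10 : (1.83 : ℝ) ≤ Real.exp 0.6 := (lt_of_not_ge hcon).le
      have h11 : (1.83 : ℝ) ^ 5 ≤ Real.exp 0.6 ^ 5 := pow_le_pow_left₀ (by norm_num) h10 5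
      have h12 : (Real.exp 1) ^ 3 ≤ (2.7182818286 : ℝ) ^ 3 :=
        pow_le_pow_left₀ (Real.exp_pos 1).le h7.le 3
      rw [h9] at h11
      have h13 : (2.7182818286 : ℝ) ^ 3 < (1.83 : ℝ) ^ 5 := by norm_num
      linarith
    have h14 : (Real.exp 1) ^ 4 ≤ (2.7182818286 : ℝ) ^ 4 :=
      pow_le_pow_left₀ (Real.exp_pos 1).le h7.le 4
    rw [h6]
    calc (Real.exp 1) ^ 4 * Real.exp 0.6 ≤ (2.7182818286 : ℝ) ^ 4 * 1.83 :=
          mul_le_mul h14 h8 (Real.exp_pos _).le (by positivity)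
      _ ≤ 100 := by norm_num
  refine h2.trans ?_
  rw [h3]
  have h15 : (Real.log (X : ℝ)) ^ 2 = Real.exp (2 * Real.log (Real.log X)) := by
    rw [two_mul, Real.exp_add, Real.exp_log hL0, sq]
  rw [h15]
  apply Real.exp_le_exp.mpr
  have hw0 : (0 : ℝ) ≤ w := Nat.cast_nonneg w
  calc (w : ℝ) * Real.log 4 ≤ (Real.log (Real.log X) + 2) * 1.39 :=
        mul_le_mul hw hl4 hl40 (by linarith)
    _ ≤ 2 * Real.log (Real.log X) := by linarith

end Pool.Agent.Lib.SW
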