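import Pool.Agent.Lib.SW.LG1

/-!
# LG-2: every set of primes of relative density (log X)^(-K): lower bound for the number of sums

PROOF of `many_sums`. L = log X, S' = elements of S coprime to W (all but ≤ w of them: a prime s divides W or is coprime to W). For a mod W
let S'_a = {s ∈ S' : (a-s,W) = 1}; ∑_{a mod W} |S'_a| = |S'| φ(W). Let U = {a : |S'_a| ≥ X/L^(K+3)}. Then
∑_{a∈U} |S'_a| ≥ |S'| φ(W) - W X/L^(K+3) ≥ (1-ε/4) |S'| φ(W) (W ≤ L²... use W ≤ L^2, |S'| ≥ X/L^K - w; so W X/L^(K+3) ≤ X/L^(K+1)) and |S'_a| ≤ |S'|, so |U| ≥ (1-ε/4) φ(W).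
For every a in U the number of N ≡ a mod W in (X,2X] is ≥ X/W - 1. `local_global` with K+3 and ε' = small/(..)?: CAUTION: the exceptional set there is ε' X, to be compared
with X φ(W)/W: use `sparse_l2` class by class instead: for a ∈ U the exceptional N ≡ a number ≤ 2ε₀/η² X/W (Chebyshev as in LG-1), so good N
number ≥ |U| (X/W)(1 - ε/4 - ..) ≥ (1-ε) φ(W)/W X. For a good N: rS ≥ (1-η) c |S_a| ≥ (1/2) X/L^(K+3), reps ≥ rS/log 2X ≥ X/L^(K+5).
`sums_lower`: dyadic intervals (Y, 2Y], Y = ⌊X/2^j⌋, 2^(-j) ≥ ε/8 (finitely many j), `many_sums` for S ∩ [1,Y] (⊇ the part ≤ (ε/8) X) with K+1 in place of K; cX is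
monotone in X (w increases), so X/cX X ≤ X/cX Y; total ≥ (1-ε/4)(2 - ε/4) X/cX X - O(1) ≥ 2(1-ε) X/cX X numbers N ≤ 2X which are sums s + p with many representations; N is even
for all but at most ... of them (N odd implies s = 2 or p = 2: then reps S N ≤ 2 < X/L^(K+6)), so N = 2n, n ≤ X.
-/

open Finset Pool.Agent.Lib.GT

namespace Pool.Agent.Lib.SW

/-- for every `s`, the number of residues `a` mod `W` with `a - s` coprime to `W` is `φ(W)` -/
theorem card_coprime_shift (W : ℕ) (hW : 0 < W) (s : ℕ) :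
    ((range W).filter (fun a : ℕ => IsCoprime ((a : ℤ) - s) (W : ℤ))).card = W.totient := by
  have key : ∀ a : ℕ, (IsCoprime ((a : ℤ) - s) (W : ℤ) ↔ W.Coprime (a + s * (W - 1))) := by
    intro a
    rw [Nat.coprime_comm, ← Nat.isCoprime_iff_coprime]
    have h : ((a + s * (W - 1) : ℕ) : ℤ) = ((a : ℤ) - s) + (W : ℤ) * s := by
      push_cast [Nat.cast_sub (show 1 ≤ W from hW)]
      ring
    rw [h]
    exact (IsCoprime.add_mul_left_left_iff).symm
  rw [← Nat.filter_coprime_Ico_eq_totient W (s * (W - 1))]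
  apply Finset.card_bij (fun (a : ℕ) _ => a + s * (W - 1))
  · intro a ha
    rw [Finset.mem_filter, Finset.mem_range] at ha
    rw [Finset.mem_filter, Finset.mem_Ico]
    exact ⟨⟨by omega, by omega⟩, (key a).mp ha.2⟩
  · intro a _ b _ hab
    have h2 : a + s * (W - 1) = b + s * (W - 1) := hab
    omega
  · intro x hx
    rw [Finset.mem_filter, Finset.mem_Ico] at hx
    refine ⟨x - s * (W - 1), ?_, ?_⟩
    · rw [Finset.mem_filter, Finset.mem_range]
      refine ⟨by omega, (key _).mpr ?_⟩
      rw [Nat.sub_add_cancel hx.1.1]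
      exact hx.2
    · exact Nat.sub_add_cancel hx.1.1

theorem sum_card_Sa (W : ℕ) (hW : 0 < W) (S : Finset ℕ) :
    ∑ a ∈ range W, (Sa W S a).card = S.card * W.totient := by
  have h1 : ∀ a ∈ range W, (Sa W S a).card =
      ∑ s ∈ S, (if IsCoprime ((a : ℤ) - s) (W : ℤ) then 1 else 0) := by
    intro a _
    unfold Sa
    rw [Finset.card_filter]
  rw [Finset.sum_congr rfl h1, Finset.sum_comm]
  have h2 : ∀ s ∈ S, ∑ a ∈ range W, (if IsCoprime ((a : ℤ) - s) (W : ℤ) then 1 else 0) =
      W.totient := by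
    intro s _
    rw [← Finset.card_filter]
    exact card_coprime_shift W hW s
  rw [Finset.sum_congr rfl h2, Finset.sum_const, smul_eq_mul]

/-- powers of the logarithm are small -/
theorem eventually_log_pow (k : ℕ) (δ : ℝ) (hδ : 0 < δ) :
    ∀ᶠ X : ℕ in Filter.atTop, (Real.log (X : ℝ)) ^ k ≤ δ * X := by
  have h := (Real.tendsto_pow_log_div_mul_add_atTop 1 0 k one_ne_zero).comp
    (tendsto_natCast_atTop_atTop (R := ℝ))
  have h2 := h.eventually (gt_mem_nhds hδ)
  filter_upwards [h2, Filter.eventually_ge_atTop 1] with X hX hX1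
  have hXpos : (0 : ℝ) < X := by exact_mod_cast hX1
  have h3 : (Real.log (X : ℝ)) ^ k / (1 * (X : ℝ) + 0) < δ := hX
  rw [one_mul, add_zero, div_lt_iff₀ hXpos] at h3
  exact h3.le

theorem eventually_log_ge (C : ℝ) : ∀ᶠ X : ℕ in Filter.atTop, C ≤ Real.log (X : ℝ) :=
  (Real.tendsto_log_atTop.comp tendsto_natCast_atTop_atTop).eventually_ge_atTop C

theorem card_class_ge (X W a : ℕ) (hW : 0 < W) :
    (X : ℝ) / W - 1 ≤ (((Ioc X (2 * X)).filter (fun N => N ≡ a [MOD W])).card : ℝ) := by
  have h1 := Nat.Ioc_filter_modEq_card X (2 * X) hW a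
  have h2 : (((Ioc X (2 * X)).filter (fun N => N ≡ a [MOD W])).card : ℚ) ≥ (X : ℚ) / W - 1 := by
    have h3 : ((((Ioc X (2 * X)).filter (fun N => N ≡ a [MOD W])).card : ℤ) : ℚ) =
        ((max (⌊(((2 * X : ℕ) : ℚ) - a) / (W : ℚ)⌋ - ⌊((X : ℚ) - a) / (W : ℚ)⌋) 0 : ℤ) : ℚ) := by
      rw [h1]
    have h4 : (X : ℚ) / W - 1 ≤
        ((max (⌊(((2 * X : ℕ) : ℚ) - a) / (W : ℚ)⌋ - ⌊((X : ℚ) - a) / (W : ℚ)⌋) 0 : ℤ) : ℚ) := by
      have h5 := Int.sub_one_lt_floor ((((2 * X : ℕ) : ℚ) - a) / (W : ℚ))
      have h6 := Int.floor_le (((X : ℚ) - a) / (W : ℚ))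
      have h7 : (((⌊(((2 * X : ℕ) : ℚ) - a) / (W : ℚ)⌋ - ⌊((X : ℚ) - a) / (W : ℚ)⌋ : ℤ)) : ℚ) ≤
          ((max (⌊(((2 * X : ℕ) : ℚ) - a) / (W : ℚ)⌋ - ⌊((X : ℚ) - a) / (W : ℚ)⌋) 0 : ℤ) : ℚ) := by
        exact_mod_cast le_max_left _ _
      refine le_trans ?_ h7
      push_cast at h5 ⊢
      have h8 : (2 * (X : ℚ) - a) / W = (X : ℚ) / W + ((X : ℚ) - a) / W := by ring
      linarith
    rw [← h3] at h4
    exact_mod_cast h4
  have h9 : ((((X : ℚ) / W - 1 : ℚ)) : ℝ) ≤
      ((((((Ioc X (2 * X)).filter (fun N => N ≡ a [MOD W])).card : ℕ) : ℚ)) : ℝ) := by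
    exact_mod_cast h2
  push_cast at h9
  exact h9

theorem many_sums (K : ℕ) (ε : ℝ) (hε : 0 < ε) :
    ∃ X₀ : ℕ, ∀ X : ℕ, X₀ ≤ X → ∀ S : Finset ℕ, S ⊆ Icc 1 X → (∀ s ∈ S, s.Prime) →
      X / (Real.log X) ^ K ≤ (S.card : ℝ) →
      (1 - ε) * X / cX X ≤
        (((Ioc X (2 * X)).filter (fun N => X / (Real.log X) ^ (K + 5) ≤ (reps S N : ℝ))).card : ℝ) := by
  obtain ⟨X₁, hX₁⟩ := class_bad (K + 3) (1 / 2) (ε / 4) (by norm_num) (by positivity)
  obtain ⟨X₂, hX₂⟩ := cX_le_log
  obtain ⟨X₃, hX₃⟩ := Filter.eventually_atTop.mp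
    ((eventually_log_ge (max 4 (4 / ε))).and (eventually_log_pow 2 (ε / 4) (by positivity)))
  refine ⟨max (max X₁ X₂) (max X₃ 1), ?_⟩
  intro X hX S hS _hSp hcard
  have hXa : X₁ ≤ X := le_trans (le_trans (le_max_left _ _) (le_max_left _ _)) hX
  have hXb : X₂ ≤ X := le_trans (le_trans (le_max_right _ _) (le_max_left _ _)) hX
  have hXc : X₃ ≤ X := le_trans (le_trans (le_max_left _ _) (le_max_right _ _)) hX
  have hXd : 1 ≤ X := le_trans (le_trans (le_max_right _ _) (le_max_right _ _)) hX
  have hXpos : (0 : ℝ) < X := by exact_mod_cast hXd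
  obtain ⟨hL, hL2⟩ := hX₃ X hXc
  obtain ⟨hcL, hWL⟩ := hX₂ X hXb
  have hL4 : 4 ≤ Real.log (X : ℝ) := le_trans (le_max_left _ _) hL
  have hLε : 4 / ε ≤ Real.log (X : ℝ) := le_trans (le_max_right _ _) hL
  set L : ℝ := Real.log (X : ℝ) with hLdef
  have hL0 : 0 < L := by linarith
  have hWpos := WX_pos X
  have hφpos := WX_totient_pos X
  have hc1 := one_le_cX X
  set W : ℕ := WX X with hW
  have hWr : (0 : ℝ) < W := by exact_mod_cast hWpos
  have hφr : (0 : ℝ) < W.totient := by exact_mod_cast hφpos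
  set c : ℝ := cX X with hc
  have hcW : c = (W : ℝ) / W.totient := rfl
  have hc0 : 0 < c := by linarith
  by_cases hε1 : 1 ≤ ε
  · have h1 : (1 - ε) * X / c ≤ 0 := by
      apply div_nonpos_of_nonpos_of_nonneg _ hc0.le
      exact mul_nonpos_of_nonpos_of_nonneg (by linarith) hXpos.le
    exact le_trans h1 (by positivity)
  · have hε2 : ε < 1 := lt_of_not_ge hε1
    have hScard : 0 < (S.card : ℝ) := lt_of_lt_of_le (by positivity) hcard
    set U := (range W).filter (fun a => X / L ^ (K + 3) ≤ ((Sa W S a).card : ℝ)) with hU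
    -- size of U
    have hUcard : (1 - ε / 4) * W.totient ≤ (U.card : ℝ) := by
      have h1 : ((∑ a ∈ range W, (Sa W S a).card : ℕ) : ℝ) = (S.card : ℝ) * W.totient := by
        rw [sum_card_Sa W hWpos S]
        push_cast
        ring
      have h2 : ((∑ a ∈ range W, (Sa W S a).card : ℕ) : ℝ) ≤
          (U.card : ℝ) * S.card + W * (X / L ^ (K + 3)) := by
        push_cast
        rw [← Finset.sum_filter_add_sum_filter_not (range W)
          (fun a => X / L ^ (K + 3) ≤ ((Sa W S a).card : ℝ))]
        apply add_le_add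
        · calc ∑ a ∈ U, ((Sa W S a).card : ℝ) ≤ ∑ _a ∈ U, (S.card : ℝ) := by
                apply Finset.sum_le_sum
                intro a _
                exact_mod_cast Finset.card_le_card (Finset.filter_subset _ _)
            _ = (U.card : ℝ) * S.card := by rw [Finset.sum_const, nsmul_eq_mul]
        · calc ∑ a ∈ (range W).filter (fun a => ¬ X / L ^ (K + 3) ≤ ((Sa W S a).card : ℝ)),
                ((Sa W S a).card : ℝ)
              ≤ ∑ _a ∈ (range W).filter (fun a => ¬ X / L ^ (K + 3) ≤ ((Sa W S a).card : ℝ)),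
                X / L ^ (K + 3) := by
                apply Finset.sum_le_sum
                intro a ha
                rw [Finset.mem_filter] at ha
                exact (lt_of_not_ge ha.2).le
            _ ≤ ∑ _a ∈ range W, X / L ^ (K + 3) := by
                apply Finset.sum_le_sum_of_subset_of_nonneg (Finset.filter_subset _ _)
                intro _ _ _
                positivity
            _ = W * (X / L ^ (K + 3)) := by
                rw [Finset.sum_const, Finset.card_range, nsmul_eq_mul]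
      rw [h1] at h2
      have h3 : X / L ^ (K + 3) ≤ (S.card : ℝ) / L ^ 3 := by
        rw [pow_add, ← div_div]
        exact div_le_div_of_nonneg_right hcard (by positivity)
      have h4 : (W : ℝ) * (X / L ^ (K + 3)) ≤ (S.card : ℝ) * (W.totient * (ε / 4)) := by
        have e1 : (W : ℝ) = c * W.totient := by
          rw [hcW]
          field_simp
        have e2 : c / L ^ 3 ≤ ε / 4 := by
          have e3 : c / L ^ 3 ≤ L / L ^ 3 := div_le_div_of_nonneg_right hcL (by positivity)
          have e4 : L / L ^ 3 = 1 / L ^ 2 := by field_simp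
          have e5 : 1 / L ^ 2 ≤ 1 / L := by
            apply div_le_div_of_nonneg_left zero_le_one hL0
            nlinarith
          have e6 : 1 / L ≤ ε / 4 := by
            rw [div_le_div_iff₀ hL0 (by norm_num)]
            rw [div_le_iff₀ hε] at hLε
            linarith
          linarith
        calc (W : ℝ) * (X / L ^ (K + 3)) ≤ W * ((S.card : ℝ) / L ^ 3) := by gcongr
          _ = (S.card : ℝ) * (W.totient * (c / L ^ 3)) := by
              rw [e1]
              ring
          _ ≤ (S.card : ℝ) * (W.totient * (ε / 4)) :=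
              mul_le_mul_of_nonneg_left (mul_le_mul_of_nonneg_left e2 hφr.le) hScard.le
      have h5 : (S.card : ℝ) * ((1 - ε / 4) * W.totient) ≤ (S.card : ℝ) * U.card := by
        calc (S.card : ℝ) * ((1 - ε / 4) * W.totient) =
              (S.card : ℝ) * W.totient - (S.card : ℝ) * (W.totient * (ε / 4)) := by ring
          _ ≤ (S.card : ℝ) * U.card := by linarith
      exact le_of_mul_le_mul_left h5 hScard
    -- good N in the classes of U
    set T : Finset ℕ := (Ioc X (2 * X)).filter (fun N => X / L ^ (K + 5) ≤ (reps S N : ℝ)) with hT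
    have hclass : ∀ a ∈ U, (1 - ε / 2) * (X / W) ≤ ((T.filter (fun N => N % W = a)).card : ℝ) := by
      intro a ha
      rw [hU, Finset.mem_filter, Finset.mem_range] at ha
      have haW : a % W = a := Nat.mod_eq_of_lt ha.1
      have hbad := hX₁ X hXa S hS a
      have hmax : max ((Sa W S a).card : ℝ) (X / L ^ (K + 3)) = (Sa W S a).card := max_eq_left ha.2
      rw [← hLdef, ← hc, ← hW, hmax] at hbad
      set B := (Ioc X (2 * X)).filter (fun N => N ≡ a [MOD W] ∧
        1 / 2 * c * ((Sa W S a).card : ℝ) < |rS S N - c * (Sa W S a).card|) with hB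
      have hcl := card_class_ge X W a hWpos
      have hsub : (Ioc X (2 * X)).filter (fun N => N ≡ a [MOD W]) ⊆
          B ∪ T.filter (fun N => N % W = a) := by
        intro N hN
        rw [Finset.mem_filter] at hN
        rw [Finset.mem_union]
        by_cases hb : 1 / 2 * c * ((Sa W S a).card : ℝ) < |rS S N - c * (Sa W S a).card|
        · left
          rw [hB, Finset.mem_filter]
          exact ⟨hN.1, hN.2, hb⟩
        · right
          rw [Finset.mem_filter, hT, Finset.mem_filter]
          refine ⟨⟨hN.1, ?_⟩, ?_⟩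
          · have h1 := (abs_le.mp (le_of_not_gt hb)).1
            have h2 : 1 / 2 * (X / L ^ (K + 3)) ≤ rS S N := by
              have e1 : X / L ^ (K + 3) ≤ c * ((Sa W S a).card : ℝ) := by
                calc X / L ^ (K + 3) ≤ 1 * ((Sa W S a).card : ℝ) := by rw [one_mul]; exact ha.2
                  _ ≤ c * ((Sa W S a).card : ℝ) := by gcongr
              linarith
            have h3 := rS_le S X N hXd (Finset.mem_Ioc.mp hN.1).2
            rw [← hLdef] at h3
            have h4 : Real.log 2 ≤ L := by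
              have := Real.log_two_lt_d9
              linarith
            have h5 : rS S N ≤ 2 * L * reps S N := by
              calc rS S N ≤ (L + Real.log 2) * reps S N := h3
                _ ≤ (L + L) * reps S N := by gcongr
                _ = 2 * L * reps S N := by ring
            have h6 : X / L ^ (K + 3) ≤ 4 * L * reps S N := by linarith
            have h7 : X / L ^ (K + 5) = X / L ^ (K + 3) / L ^ 2 := by
              rw [div_div, ← pow_add]
            rw [h7, div_le_iff₀ (by positivity)]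
            calc X / L ^ (K + 3) ≤ 4 * L * reps S N := h6
              _ ≤ L * L * reps S N := by gcongr
              _ = (reps S N : ℝ) * L ^ 2 := by ring
          · have h8 : N % W = a % W := hN.2
            rw [h8, haW]
      have hle : (((Ioc X (2 * X)).filter (fun N => N ≡ a [MOD W])).card : ℝ) ≤
          (B.card : ℝ) + ((T.filter (fun N => N % W = a)).card : ℝ) := by
        exact_mod_cast le_trans (Finset.card_le_card hsub) (Finset.card_union_le _ _)
      have hone : 1 ≤ ε / 4 * (X / W) := by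
        have e1 : (W : ℝ) ≤ ε / 4 * X := le_trans hWL hL2
        have e2 : ε / 4 * (X / W) = (ε / 4 * X) / W := by ring
        rw [e2, one_le_div hWr]
        exact e1
      have e3 : (1 - ε / 2) * ((X : ℝ) / W) = X / W - ε / 4 * (X / W) - ε / 4 * (X / W) := by ring
      linarith
    have hsum : ∑ a ∈ U, ((T.filter (fun N => N % W = a)).card : ℝ) ≤ (T.card : ℝ) := by
      have h1 : ∑ a ∈ U, (T.filter (fun N => N % W = a)).card =
          (U.biUnion (fun a => T.filter (fun N => N % W = a))).card := by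
        rw [Finset.card_biUnion]
        intro a _ b _ hab
        rw [Function.onFun, Finset.disjoint_left]
        intro N hN hN2
        rw [Finset.mem_filter] at hN hN2
        exact hab (hN.2.symm.trans hN2.2)
      have h2 : (U.biUnion (fun a => T.filter (fun N => N % W = a))).card ≤ T.card := by
        apply Finset.card_le_card
        intro N hN
        rw [Finset.mem_biUnion] at hN
        obtain ⟨a, _, ha⟩ := hN
        exact (Finset.mem_filter.mp ha).1
      rw [← h1] at h2
      exact_mod_cast h2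
    calc (1 - ε) * X / c = (1 - ε) * W.totient * (X / W) := by
          rw [hcW]
          field_simp
      _ ≤ ((1 - ε / 4) * W.totient) * ((1 - ε / 2) * (X / W)) := by
          have e1 : (1 - ε) ≤ (1 - ε / 4) * (1 - ε / 2) := by nlinarith
          have e2 : ((1 - ε / 4) * W.totient) * ((1 - ε / 2) * ((X : ℝ) / W)) =
              ((1 - ε / 4) * (1 - ε / 2)) * (W.totient * (X / W)) := by ring
          rw [e2, mul_assoc]
          exact mul_le_mul_of_nonneg_right e1 (by positivity)
      _ ≤ (U.card : ℝ) * ((1 - ε / 2) * (X / W)) := by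
          apply mul_le_mul_of_nonneg_right hUcard
          have : 0 ≤ 1 - ε / 2 := by linarith
          positivity
      _ = ∑ _a ∈ U, (1 - ε / 2) * (X / W) := by rw [Finset.sum_const, nsmul_eq_mul]
      _ ≤ ∑ a ∈ U, ((T.filter (fun N => N % W = a)).card : ℝ) := Finset.sum_le_sum hclass
      _ ≤ (T.card : ℝ) := hsum

theorem ratio_mono : Monotone (fun n : ℕ => (primorial n : ℝ) / ((primorial n).totient : ℝ)) := by
  apply monotone_nat_of_le_succ
  intro n
  by_cases hp : (n + 1).Prime
  · have h1 : primorial (n + 1) = (n + 1) * primorial n := by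
      unfold primorial
      rw [Finset.range_add_one, Finset.filter_insert, if_pos hp, Finset.prod_insert]
      simp
    have hco : Nat.Coprime (n + 1) (primorial n) := by
      rw [Nat.Prime.coprime_iff_not_dvd hp, hp.dvd_primorial_iff]
      omega
    have hn : 1 ≤ n := by
      have := hp.two_le
      omega
    have hnr : (0 : ℝ) < n := by exact_mod_cast hn
    rw [h1, Nat.totient_mul hco, Nat.totient_prime hp, Nat.add_sub_cancel]
    have hφ : (0 : ℝ) < (primorial n).totient := by
      exact_mod_cast Nat.totient_pos.mpr (primorial_pos n)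
    rw [div_le_div_iff₀ hφ (by push_cast; positivity)]
    push_cast
    have h2 : (0 : ℝ) < primorial n := by exact_mod_cast primorial_pos n
    nlinarith [mul_pos h2 hφ]
  · have h1 : primorial (n + 1) = primorial n := by
      unfold primorial
      rw [Finset.range_add_one, Finset.filter_insert, if_neg hp]
    rw [h1]

theorem cX_mono {X Y : ℕ} (hX : 2 ≤ X) (hXY : X ≤ Y) : cX X ≤ cX Y := by
  unfold cX WX
  apply ratio_mono
  unfold wX
  apply Nat.floor_mono
  have hXr : (2 : ℝ) ≤ X := by exact_mod_cast hX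
  have hXYr : (X : ℝ) ≤ Y := by exact_mod_cast hXY
  apply Real.log_le_log
  · exact Real.log_pos (by linarith)
  · exact Real.log_le_log (by linarith) hXYr

/-- an odd number has at most two representations -/
theorem reps_odd (S : Finset ℕ) (hS : ∀ s ∈ S, s.Prime) (N : ℕ) (hN : N % 2 = 1) :
    reps S N ≤ 2 := by
  unfold reps
  have hsub : S.filter (fun s => s < N ∧ (N - s).Prime) ⊆ {2, N - 2} := by
    intro s hs
    rw [Finset.mem_filter] at hs
    obtain ⟨hs1, hs2, hs3⟩ := hs
    rw [Finset.mem_insert, Finset.mem_singleton]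
    rcases (hS s hs1).eq_two_or_odd with h | h
    · left
      exact h
    · right
      rcases hs3.eq_two_or_odd with h2 | h2
      · omega
      · omega
  exact le_trans (Finset.card_le_card hsub) Finset.card_le_two

theorem reps_mono {S T : Finset ℕ} (h : S ⊆ T) (N : ℕ) : reps S N ≤ reps T N := by
  unfold reps
  exact Finset.card_le_card (Finset.filter_subset_filter _ h)

theorem sums_lower (K : ℕ) (ε : ℝ) (hε : 0 < ε) :
    ∃ X₀ : ℕ, ∀ X : ℕ, X₀ ≤ X → ∀ S : Finset ℕ, (∀ s ∈ S, s.Prime) →
      X / (Real.log X) ^ K ≤ ((S.filter (fun s : ℕ => (s : ℝ) ≤ ε / 8 * X)).card : ℝ) →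
      2 * (1 - ε) * X / cX X ≤
        (((Icc 1 X).filter (fun n => X / (Real.log X) ^ (K + 7) ≤ (reps S (2 * n) : ℝ))).card : ℝ) := by
  by_cases hε1 : 1 ≤ ε
  · refine ⟨0, ?_⟩
    intro X _ S _ _
    have hc1 := one_le_cX X
    have h1 : 2 * (1 - ε) * X / cX X ≤ 0 := by
      apply div_nonpos_of_nonpos_of_nonneg _ (by linarith)
      exact mul_nonpos_of_nonpos_of_nonneg (by linarith) (by positivity)
    exact le_trans h1 (by positivity)
  · have hε2 : ε < 1 := lt_of_not_ge hε1
    obtain ⟨n, hn1, hn2⟩ := exists_nat_pow_near_of_lt_one (x := ε / 4) (y := (1 / 2 : ℝ))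
      (by positivity) (by linarith) (by norm_num) (by norm_num)
    obtain ⟨X₁, hX₁⟩ := many_sums (K + 1) (ε / 2) (by positivity)
    obtain ⟨X₃, hX₃⟩ := Filter.eventually_atTop.mp
      ((eventually_log_ge (max (8 / ε) (max (2 ^ (K + 1)) (2 * Real.log (8 / ε))))).and
        ((eventually_log_pow (K + 7) (1 / 3) (by norm_num)).and
          (Filter.eventually_ge_atTop ⌈max (max (16 / ε) (8 / ε * X₁)) (2 * (n + 1) / ε)⌉₊)))
    refine ⟨max X₃ 2, ?_⟩
    intro X hX S hSp hcard
    have hXc : X₃ ≤ X := le_trans (le_max_left _ _) hX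
    have hXd : 2 ≤ X := le_trans (le_max_right _ _) hX
    have hX2 : (2 : ℝ) ≤ X := by exact_mod_cast hXd
    have hXpos : (0 : ℝ) < X := by linarith
    obtain ⟨hL, hL7, hXge⟩ := hX₃ X hXc
    have hXge2 : max (max (16 / ε) (8 / ε * X₁)) (2 * (n + 1) / ε) ≤ (X : ℝ) := Nat.ceil_le.mp hXge
    have hXe1 : 16 / ε ≤ (X : ℝ) := le_trans (le_trans (le_max_left _ _) (le_max_left _ _)) hXge2
    have hXe2 : 8 / ε * X₁ ≤ (X : ℝ) :=
      le_trans (le_trans (le_max_right _ _) (le_max_left _ _)) hXge2
    have hXe3 : 2 * (n + 1) / ε ≤ (X : ℝ) := le_trans (le_max_right _ _) hXge2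
    have hLe1 : 8 / ε ≤ Real.log (X : ℝ) := le_trans (le_max_left _ _) hL
    have hLe2 : (2 : ℝ) ^ (K + 1) ≤ Real.log (X : ℝ) :=
      le_trans (le_trans (le_max_left _ _) (le_max_right _ _)) hL
    have hLe3 : 2 * Real.log (8 / ε) ≤ Real.log (X : ℝ) :=
      le_trans (le_trans (le_max_right _ _) (le_max_right _ _)) hL
    set L : ℝ := Real.log (X : ℝ) with hLdef
    have hL1 : 1 ≤ L := le_trans (one_le_pow₀ (by norm_num)) hLe2
    have hL0 : 0 < L := by linarith
    have hc1 := one_le_cX X
    have hc0 : 0 < cX X := by linarith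
    set TT : ℝ := X / L ^ (K + 7) with hTT
    -- the dyadic points
    have hYlow : ∀ j : ℕ, j ≤ n → ε / 8 * X ≤ ((X / 2 ^ j : ℕ) : ℝ) := by
      intro j hj
      have h1 : (X : ℝ) / 2 ^ j - 1 ≤ ((X / 2 ^ j : ℕ) : ℝ) := by
        have h2 := Nat.lt_div_mul_add (a := X) (b := 2 ^ j) (by positivity)
        have h3 : (X : ℝ) < ((X / 2 ^ j : ℕ) : ℝ) * 2 ^ j + 2 ^ j := by exact_mod_cast h2
        have h4 : (0 : ℝ) < 2 ^ j := by positivity
        rw [sub_le_iff_le_add, div_le_iff₀ h4]
        linarith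
      have h5 : ε / 4 * X ≤ (X : ℝ) / 2 ^ j := by
        have h6 : ε / 4 ≤ 1 / 2 ^ j := by
          calc ε / 4 ≤ (1 / 2) ^ n := hn2
            _ ≤ (1 / 2) ^ j := pow_le_pow_of_le_one (by norm_num) (by norm_num) hj
            _ = 1 / 2 ^ j := by rw [div_pow, one_pow]
        calc ε / 4 * X ≤ 1 / 2 ^ j * X := by gcongr
          _ = (X : ℝ) / 2 ^ j := by ring
      have h7 : 1 ≤ ε / 8 * X := by
        rw [div_le_iff₀ hε] at hXe1
        linarith
      linarith
    have hYup : ∀ j : ℕ, X / 2 ^ j ≤ X := fun j => Nat.div_le_self _ _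
    -- one dyadic interval
    have hdy : ∀ j ∈ range (n + 1), (1 - ε / 2) * ((X / 2 ^ j : ℕ) : ℝ) / cX X ≤
        (((Ioc (X / 2 ^ j) (2 * (X / 2 ^ j))).filter (fun N => TT ≤ (reps S N : ℝ))).card : ℝ) := by
      intro j hj
      rw [Finset.mem_range] at hj
      have hjn : j ≤ n := by omega
      have hYl := hYlow j hjn
      have hYu := hYup j
      set Y : ℕ := X / 2 ^ j with hY
      have hYur : (Y : ℝ) ≤ X := by exact_mod_cast hYu
      have hY2 : (2 : ℝ) ≤ Y := by
        rw [div_le_iff₀ hε] at hXe1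
        linarith
      have hY2n : 2 ≤ Y := by exact_mod_cast hY2
      have hYX₁ : X₁ ≤ Y := by
        have h1 : (X₁ : ℝ) ≤ Y := by
          have h2 : (X₁ : ℝ) = ε / 8 * (8 / ε * X₁) := by field_simp
          rw [h2]
          calc ε / 8 * (8 / ε * X₁) ≤ ε / 8 * X := by gcongr
            _ ≤ Y := hYl
        exact_mod_cast h1
      have hlogYu : Real.log (Y : ℝ) ≤ L := Real.log_le_log (by linarith) hYur
      have hlogYl : L / 2 ≤ Real.log (Y : ℝ) := by
        have h1 : Real.log (ε / 8 * X) ≤ Real.log (Y : ℝ) := Real.log_le_log (by positivity) hYl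
        have h2 : Real.log (ε / 8 * X) = L - Real.log (8 / ε) := by
          rw [Real.log_mul (by positivity) hXpos.ne']
          have h3 : ε / 8 = (8 / ε)⁻¹ := by rw [inv_div]
          rw [h3, Real.log_inv]
          ring
        linarith
      have hlogY0 : 0 < Real.log (Y : ℝ) := by linarith
      set S' := S.filter (fun s => s ≤ Y) with hS'
      have hS'sub : S' ⊆ Icc 1 Y := by
        intro s hs
        rw [hS', Finset.mem_filter] at hs
        rw [Finset.mem_Icc]
        exact ⟨(hSp s hs.1).one_le, hs.2⟩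
      have hS'p : ∀ s ∈ S', s.Prime := fun s hs => hSp s (Finset.mem_filter.mp hs).1
      have hpowL : L ^ K ≤ (Real.log (Y : ℝ)) ^ (K + 1) := by
        calc L ^ K = L ^ K * 2 ^ (K + 1) / 2 ^ (K + 1) := by field_simp
          _ ≤ L ^ K * L / 2 ^ (K + 1) := by gcongr
          _ = (L / 2) ^ (K + 1) := by rw [div_pow, pow_succ L K]
          _ ≤ (Real.log (Y : ℝ)) ^ (K + 1) := by gcongr
      have hS'card : (Y : ℝ) / (Real.log Y) ^ (K + 1) ≤ (S'.card : ℝ) := by
        calc (Y : ℝ) / (Real.log Y) ^ (K + 1) ≤ X / L ^ K := by gcongr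
          _ ≤ ((S.filter (fun s : ℕ => (s : ℝ) ≤ ε / 8 * X)).card : ℝ) := hcard
          _ ≤ (S'.card : ℝ) := by
              have h1 : S.filter (fun s : ℕ => (s : ℝ) ≤ ε / 8 * X) ⊆ S' := by
                intro s hs
                rw [Finset.mem_filter] at hs
                rw [hS', Finset.mem_filter]
                refine ⟨hs.1, ?_⟩
                have h2 : (s : ℝ) ≤ Y := le_trans hs.2 hYl
                exact_mod_cast h2
              exact_mod_cast Finset.card_le_card h1
      have hmain := hX₁ Y hYX₁ S' hS'sub hS'p hS'card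
      have hcY := cX_mono hY2n hYu
      have hcY1 := one_le_cX Y
      calc (1 - ε / 2) * (Y : ℝ) / cX X ≤ (1 - ε / 2) * (Y : ℝ) / cX Y := by
            apply div_le_div_of_nonneg_left _ (by linarith) hcY
            exact mul_nonneg (by linarith) (by linarith)
        _ ≤ _ := hmain
        _ ≤ _ := by
            have h1 : (Ioc Y (2 * Y)).filter
                  (fun N => (Y : ℝ) / (Real.log Y) ^ (K + 1 + 5) ≤ (reps S' N : ℝ)) ⊆
                (Ioc Y (2 * Y)).filter (fun N => TT ≤ (reps S N : ℝ)) := by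
              intro N hN
              rw [Finset.mem_filter] at hN ⊢
              refine ⟨hN.1, ?_⟩
              have h2 : (reps S' N : ℝ) ≤ reps S N := by
                exact_mod_cast reps_mono (Finset.filter_subset _ _) N
              have h3 : TT ≤ (Y : ℝ) / (Real.log Y) ^ (K + 1 + 5) := by
                calc TT = X / L ^ (K + 7) := rfl
                  _ = (1 / L * X) / L ^ (K + 1 + 5) := by
                      rw [show K + 7 = (K + 1 + 5) + 1 by ring, pow_succ]
                      field_simp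
                  _ ≤ (Y : ℝ) / L ^ (K + 1 + 5) := by
                      apply div_le_div_of_nonneg_right _ (by positivity)
                      have h4 : 1 / L ≤ ε / 8 := by
                        rw [div_le_div_iff₀ hL0 (by norm_num)]
                        rw [div_le_iff₀ hε] at hLe1
                        linarith
                      calc 1 / L * X ≤ ε / 8 * X := by gcongr
                        _ ≤ Y := hYl
                  _ ≤ (Y : ℝ) / (Real.log Y) ^ (K + 1 + 5) := by gcongr
              linarith [hN.2]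
            exact_mod_cast Finset.card_le_card h1
    -- the union
    have hdisj : ∀ i ∈ range (n + 1), ∀ j ∈ range (n + 1), i ≠ j →
        Disjoint ((Ioc (X / 2 ^ i) (2 * (X / 2 ^ i))).filter (fun N => TT ≤ (reps S N : ℝ)))
          ((Ioc (X / 2 ^ j) (2 * (X / 2 ^ j))).filter (fun N => TT ≤ (reps S N : ℝ))) := by
      have key : ∀ i j : ℕ, i < j → 2 * (X / 2 ^ j) ≤ X / 2 ^ i := by
        intro i j hij
        have h1 : X / 2 ^ j ≤ X / 2 ^ (i + 1) :=
          Nat.div_le_div_left (Nat.pow_le_pow_right (by norm_num) hij) (by positivity)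
        have h2 : X / 2 ^ (i + 1) = X / 2 ^ i / 2 := by
          rw [pow_succ, Nat.div_div_eq_div_mul]
        omega
      intro i _ j _ hij
      rw [Finset.disjoint_left]
      intro N hN hN2
      rw [Finset.mem_filter, Finset.mem_Ioc] at hN hN2
      rcases lt_or_gt_of_ne hij with h | h
      · have := key i j h
        omega
      · have := key j i h
        omega
    set A := (range (n + 1)).biUnion (fun j =>
      (Ioc (X / 2 ^ j) (2 * (X / 2 ^ j))).filter (fun N => TT ≤ (reps S N : ℝ))) with hA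
    have hAcard : (A.card : ℝ) = ∑ j ∈ range (n + 1),
        (((Ioc (X / 2 ^ j) (2 * (X / 2 ^ j))).filter (fun N => TT ≤ (reps S N : ℝ))).card : ℝ) := by
      rw [hA, Finset.card_biUnion hdisj]
      push_cast
      rfl
    have hTT2 : 2 < TT := by
      rw [hTT, lt_div_iff₀ (by positivity)]
      linarith
    -- pass to halves
    have hhalf : A.card ≤ ((Icc 1 X).filter (fun n => TT ≤ (reps S (2 * n) : ℝ))).card := by
      have heven : ∀ N ∈ A, N % 2 = 0 ∧ X / 2 ^ n < N ∧ N ≤ 2 * X ∧ TT ≤ (reps S N : ℝ) := by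
        intro N hN
        rw [hA, Finset.mem_biUnion] at hN
        obtain ⟨j, hj, hN⟩ := hN
        rw [Finset.mem_filter, Finset.mem_Ioc] at hN
        rw [Finset.mem_range] at hj
        have h1 := hYup j
        have h2 : X / 2 ^ n ≤ X / 2 ^ j :=
          Nat.div_le_div_left (Nat.pow_le_pow_right (by norm_num) (by omega)) (by positivity)
        refine ⟨?_, by omega, by omega, hN.2⟩
        by_contra hodd
        have h3 := reps_odd S hSp N (by omega)
        have h4 : (reps S N : ℝ) ≤ 2 := by exact_mod_cast h3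
        linarith [hN.2]
      apply Finset.card_le_card_of_injOn (fun N => N / 2)
      · intro N hN
        obtain ⟨h1, h2, h3, h4⟩ := heven N hN
        have h5 : 2 * (N / 2) = N := by omega
        have h6 : 0 < N := lt_of_le_of_lt (Nat.zero_le _) h2
        rw [Finset.mem_coe, Finset.mem_filter, Finset.mem_Icc]
        refine ⟨⟨?_, ?_⟩, ?_⟩
        · show 1 ≤ N / 2
          omega
        · show N / 2 ≤ X
          omega
        · show TT ≤ (reps S (2 * (N / 2)) : ℝ)
          rw [h5]
          exact h4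
      · intro N hN M hM hNM
        obtain ⟨h1, _⟩ := heven N hN
        obtain ⟨h2, _⟩ := heven M hM
        have h3 : N / 2 = M / 2 := hNM
        omega
    have hsumY : 2 * (1 - ε / 4) * X - (n + 1) ≤ ∑ j ∈ range (n + 1), ((X / 2 ^ j : ℕ) : ℝ) := by
      have h1 : ∀ j ∈ range (n + 1), (X : ℝ) * (1 / 2) ^ j - 1 ≤ ((X / 2 ^ j : ℕ) : ℝ) := by
        intro j _
        have h2 := Nat.lt_div_mul_add (a := X) (b := 2 ^ j) (by positivity)
        have h3 : (X : ℝ) < ((X / 2 ^ j : ℕ) : ℝ) * 2 ^ j + 2 ^ j := by exact_mod_cast h2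
        have h4 : (0 : ℝ) < 2 ^ j := by positivity
        have h5 : (X : ℝ) * (1 / 2) ^ j = X / 2 ^ j := by
          rw [div_pow, one_pow]
          ring
        rw [h5, sub_le_iff_le_add, div_le_iff₀ h4]
        linarith
      have h6 : ∑ j ∈ range (n + 1), ((X : ℝ) * (1 / 2) ^ j - 1) =
          X * (2 * (1 - (1 / 2) ^ (n + 1))) - (n + 1) := by
        rw [Finset.sum_sub_distrib, ← Finset.mul_sum, geom_sum_eq (by norm_num)]
        rw [Finset.sum_const, Finset.card_range, nsmul_eq_mul, mul_one]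
        push_cast
        ring
      calc 2 * (1 - ε / 4) * X - (n + 1) = X * (2 * (1 - ε / 4)) - (n + 1) := by ring
        _ ≤ X * (2 * (1 - (1 / 2) ^ (n + 1))) - (n + 1) := by
            have : 1 - ε / 4 ≤ 1 - (1 / 2 : ℝ) ^ (n + 1) := by linarith
            gcongr
        _ = ∑ j ∈ range (n + 1), ((X : ℝ) * (1 / 2) ^ j - 1) := h6.symm
        _ ≤ _ := Finset.sum_le_sum h1
    have hfin : 2 * (1 - ε) * X ≤ (1 - ε / 2) * (2 * (1 - ε / 4) * X - (n + 1)) := by
      have h1 : (n + 1 : ℝ) ≤ ε / 2 * X := by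
        rw [div_le_iff₀ hε] at hXe3
        linarith
      have h2 : (1 - ε / 2) * (n + 1 : ℝ) ≤ 1 * (ε / 2 * X) :=
        mul_le_mul (by linarith) h1 (by positivity) (by norm_num)
      have h3 : 0 ≤ ε * ε * X := by positivity
      nlinarith
    calc 2 * (1 - ε) * X / cX X ≤ (1 - ε / 2) * (2 * (1 - ε / 4) * X - (n + 1)) / cX X :=
          div_le_div_of_nonneg_right hfin hc0.le
      _ ≤ (1 - ε / 2) * (∑ j ∈ range (n + 1), ((X / 2 ^ j : ℕ) : ℝ)) / cX X := by
          apply div_le_div_of_nonneg_right _ hc0.le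
          exact mul_le_mul_of_nonneg_left hsumY (by linarith)
      _ = ∑ j ∈ range (n + 1), (1 - ε / 2) * ((X / 2 ^ j : ℕ) : ℝ) / cX X := by
          rw [Finset.mul_sum, Finset.sum_div]
      _ ≤ ∑ j ∈ range (n + 1),
          (((Ioc (X / 2 ^ j) (2 * (X / 2 ^ j))).filter (fun N => TT ≤ (reps S N : ℝ))).card : ℝ) :=
          Finset.sum_le_sum hdy
      _ = (A.card : ℝ) := hAcard.symm
      _ ≤ _ := by exact_mod_cast hhalf

end Pool.Agent.Lib.SW
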