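import Pool.Agent.Lib.SW.StripChar

/-!
# SW-J: real characters on the real line (module J)

PROOFS. χ² = 1: values in {0, 1, -1}, real.
`LFunction_im`: for real σ > 0, L(σ,χ) is real: it is the limit of the partial sums (real numbers:
n^(-σ) is real positive) by `LFunction_sub_sum_le` (M → ∞).
`LFunction_one_pos`: L(1,χ) ≠ 0 (`LFunction_apply_one_ne_zero`), real, and ≥ 0 as the limit of
L(σ,χ), σ → 1+, which is > 0: exp of a real sum (`LSeries_eulerProduct_exp_log` for σ > 1: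
L(σ,χ) = exp(∑ -log(1 - χ(p) p^(-σ))) with real logarithms), or ≥ 0 because
L(σ,χ) · (LSeries (χμ)...) ... any argument.  A simple one: on (1,∞) L(σ,χ) is real, continuous,
nonzero (`LFunction_ne_zero_of_one_le_re`) and → 1 as σ → ∞ (or > 0 at σ = 3: |L(3,χ) - 1| ≤
ζ(3) - 1 < 1), so > 0 on [1, ∞) by the intermediate value theorem.
`LFunction_pos_of_no_zero`: same intermediate value argument on [σ₀, 1].
-/

open Complex

namespace Pool.Agent.Lib.SW

theorem rc_real {q : ℕ} {χ : DirichletCharacter ℂ q} (h2 : χ ^ 2 = 1) (a : ZMod q) :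
    (χ a).im = 0 := by
  by_cases ha : IsUnit a
  · have h : (χ a) ^ 2 = 1 := by
      rw [← MulChar.pow_apply' χ two_ne_zero, h2, MulChar.one_apply ha]
    have h3 : (χ a - 1) * (χ a + 1) = 0 := by linear_combination h
    rcases mul_eq_zero.1 h3 with h4 | h4
    · rw [sub_eq_zero.1 h4, one_im]
    · rw [eq_neg_of_add_eq_zero_left h4, neg_im, one_im, neg_zero]
  · rw [χ.map_nonunit ha, zero_im]

theorem rc_term {q : ℕ} {χ : DirichletCharacter ℂ q} (h2 : χ ^ 2 = 1) (σ : ℝ) (n : ℕ) :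
    (ch χ n * (n : ℂ) ^ (-(σ : ℂ))).im = 0 := by
  have h1 : (n : ℂ) ^ (-(σ : ℂ)) = (((n : ℝ) ^ (-σ) : ℝ) : ℂ) := by
    rw [Complex.ofReal_cpow (Nat.cast_nonneg n)]
    push_cast
    rfl
  rw [h1, mul_im, ofReal_im, ofReal_re, mul_zero, zero_add, ch, rc_real h2, zero_mul]

theorem LFunction_im {q : ℕ} [NeZero q] {χ : DirichletCharacter ℂ q} (hχ : χ ≠ 1)
    (h2 : χ ^ 2 = 1) (σ : ℝ) (hσ : 0 < σ) : (DirichletCharacter.LFunction χ σ).im = 0 := by
  have hb : ∀ M : ℕ, 1 ≤ M → |(DirichletCharacter.LFunction χ σ).im| ≤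
      q * (1 + ‖(σ : ℂ)‖ / σ) * (M : ℝ) ^ (-σ) := by
    intro M hM
    have h := LFunction_sub_sum_le hχ (σ : ℂ) (by simpa using hσ) M hM
    have h3 : (DirichletCharacter.LFunction χ σ -
        ∑ n ∈ Finset.Icc 1 M, ch χ n * (n : ℂ) ^ (-(σ : ℂ))).im =
        (DirichletCharacter.LFunction χ σ).im := by
      rw [sub_im, im_sum, Finset.sum_eq_zero fun n _ => rc_term h2 σ n, sub_zero]
    rw [← h3]
    exact (abs_im_le_norm _).trans (by simpa using h)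
  have hlim : Filter.Tendsto (fun M : ℕ => q * (1 + ‖(σ : ℂ)‖ / σ) * (M : ℝ) ^ (-σ))
      Filter.atTop (nhds (q * (1 + ‖(σ : ℂ)‖ / σ) * 0)) :=
    ((tendsto_rpow_neg_atTop hσ).comp tendsto_natCast_atTop_atTop).const_mul _
  rw [mul_zero] at hlim
  have h4 : |(DirichletCharacter.LFunction χ σ).im| ≤ 0 :=
    ge_of_tendsto hlim (Filter.eventually_atTop.2 ⟨1, fun M hM => hb M hM⟩)
  exact abs_nonpos_iff.1 h4

theorem rc_large {q : ℕ} [NeZero q] {χ : DirichletCharacter ℂ q} (hχ : χ ≠ 1) (N : ℝ)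
    (hN : 2 * q + 1 ≤ N) : 0 < (DirichletCharacter.LFunction χ N).re := by
  have hq : (0 : ℝ) ≤ q := Nat.cast_nonneg q
  have hN1 : 1 ≤ N := by linarith
  have hN0 : 0 < N := by linarith
  have h := LFunction_sub_sum_le hχ (N : ℂ) (by simpa using hN0) 2 (by norm_num)
  rw [show Finset.Icc 1 2 = {1, 2} by rfl, Finset.sum_pair (by norm_num)] at h
  have e1 : ch χ 1 * ((1 : ℕ) : ℂ) ^ (-(N : ℂ)) = 1 := by simp [ch]
  rw [e1, norm_real, Real.norm_eq_abs, abs_of_pos hN0, ofReal_re, div_self hN0.ne'] at h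
  have e2 : ‖ch χ 2 * ((2 : ℕ) : ℂ) ^ (-(N : ℂ))‖ ≤ (2 : ℝ) ^ (-N) := by
    rw [norm_mul]
    have e3 : ‖((2 : ℕ) : ℂ) ^ (-(N : ℂ))‖ = (2 : ℝ) ^ (-N) := by
      rw [Complex.norm_natCast_cpow_of_pos (by norm_num)]
      simp
    rw [e3]
    have := norm_ch_le χ 2
    have h0 : (0 : ℝ) ≤ (2 : ℝ) ^ (-N) := by positivity
    nlinarith
  have e4 : (2 * q + 1) * (2 : ℝ) ^ (-N) < 1 := by
    have e5 : 1 + N * 1 ≤ (1 + 1 : ℝ) ^ N := one_add_mul_self_le_rpow_one_add (by norm_num) hN1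
    have e6 : (2 * q + 1 : ℝ) < (2 : ℝ) ^ N := by
      have : (1 + 1 : ℝ) = 2 := by norm_num
      rw [this] at e5
      linarith
    have e7 : (2 : ℝ) ^ N * (2 : ℝ) ^ (-N) = 1 := by
      rw [← Real.rpow_add (by norm_num)]
      simp
    have e8 : 0 < (2 : ℝ) ^ (-N) := by positivity
    nlinarith
  have e9 : ‖DirichletCharacter.LFunction χ N - 1‖ < 1 := by
    have : DirichletCharacter.LFunction χ N - 1 =
        (DirichletCharacter.LFunction χ N - (1 + ch χ 2 * ((2 : ℕ) : ℂ) ^ (-(N : ℂ)))) +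
          ch χ 2 * ((2 : ℕ) : ℂ) ^ (-(N : ℂ)) := by ring
    rw [this]
    refine (norm_add_le _ _).trans_lt ?_
    push_cast at h e2 ⊢
    linarith
  have e10 := abs_lt.1 ((abs_re_le_norm _).trans_lt e9)
  rw [sub_re, one_re] at e10
  linarith [e10.1]

theorem rc_pos {q : ℕ} [NeZero q] {χ : DirichletCharacter ℂ q} (hχ : χ ≠ 1)
    (h2 : χ ^ 2 = 1) (σ₀ : ℝ) (hσ : 0 < σ₀)
    (h0 : ∀ σ : ℝ, σ₀ ≤ σ → DirichletCharacter.LFunction χ σ ≠ 0) (σ : ℝ) (h : σ₀ ≤ σ) :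
    0 < (DirichletCharacter.LFunction χ σ).re := by
  by_contra hcon
  rw [not_lt] at hcon
  obtain ⟨N, hN⟩ : ∃ N, N = max σ (2 * q + 1) := ⟨_, rfl⟩
  have hNσ : σ ≤ N := by rw [hN]; exact le_max_left _ _
  have hpos := rc_large hχ N (by rw [hN]; exact le_max_right _ _)
  have hcont : Continuous fun t : ℝ => (DirichletCharacter.LFunction χ t).re :=
    continuous_re.comp ((DirichletCharacter.differentiable_LFunction hχ).continuous.comp
      continuous_ofReal)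
  have hivt := intermediate_value_Icc hNσ hcont.continuousOn
  obtain ⟨c, hc, hc0⟩ := hivt (Set.mem_Icc.2 ⟨hcon, hpos.le⟩)
  refine h0 c (h.trans hc.1) ?_
  apply Complex.ext
  · exact hc0
  · exact LFunction_im hχ h2 c (by linarith [hc.1])

theorem LFunction_pos {q : ℕ} [NeZero q] {χ : DirichletCharacter ℂ q} (hχ : χ ≠ 1)
    (h2 : χ ^ 2 = 1) (σ : ℝ) (hσ : 1 ≤ σ) : 0 < (DirichletCharacter.LFunction χ σ).re :=
  rc_pos hχ h2 1 one_pos (fun t ht => DirichletCharacter.LFunction_ne_zero_of_one_le_re χ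
    (Or.inl hχ) (by simpa using ht)) σ hσ

theorem LFunction_pos_of_no_zero {q : ℕ} [NeZero q] {χ : DirichletCharacter ℂ q} (hχ : χ ≠ 1)
    (h2 : χ ^ 2 = 1) (σ₀ : ℝ) (hσ : 0 < σ₀)
    (h0 : ∀ σ : ℝ, σ₀ ≤ σ → σ < 1 → DirichletCharacter.LFunction χ σ ≠ 0) (σ : ℝ) (h : σ₀ ≤ σ) :
    0 < (DirichletCharacter.LFunction χ σ).re := by
  refine rc_pos hχ h2 σ₀ hσ (fun t ht => ?_) σ h
  rcases lt_or_ge t 1 with h1 | h1
  · exact h0 t ht h1
  · exact DirichletCharacter.LFunction_ne_zero_of_one_le_re χ (Or.inl hχ) (by simpa using h1)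

end Pool.Agent.Lib.SW
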