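import Pool.Agent.Lib.SW.Estermann
import Pool.Agent.Lib.SW.RealChar
import Pool.Agent.Lib.SW.TrivChar

/-!
# SW-K: Siegel's theorem (module K)

PROOF. Let ε > 0, C from `estermann` (C ≥ 1 wlog), δ = min (1/16) (ε/(8C)) or smaller. Upper bound
|L(1,χ)| ≤ C₁ q^(ε/8) for χ ≠ 1 (`LFunction_strip`).  For characters χ₁ mod q₁, χ₂ mod q₂ let
χ₃ = changeLevel χ₁ * changeLevel χ₂ mod q₁ q₂ (ch χ₃ n = ch χ₁ n * ch χ₂ n for all n: if n is coprime to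
q₁ q₂ by `changeLevel_eq_cast_of_dvd`, otherwise both sides are 0).

Claim. Suppose χ₁ (quadratic, ≠ 1) and σ₁ in [1-δ, 1), σ₁ > 7/8, are such that for every quadratic χ₂ ≠ 1 with
χ₃ ≠ 1: re(ζ(σ₁) L(σ₁,χ₁) L(σ₁,χ₂) L(σ₁,χ₃)) ≤ 0. Then there is c > 0 with |L(1,χ)| ≥ c q^(-ε) for
all quadratic χ ≠ 1 mod q. Indeed for χ₂ with χ₃ ≠ 1: 1 - σ₁ ≤ C (q₁q₂)^(Cδ) |L(1,χ₁)| |L(1,χ₂)|
|L(1,χ₃)| ≤ C' (q₁ q₂)^(ε/8 + ε/8) q₁^(ε/8) |L(1,χ₂)|, and q₁, σ₁ are fixed. If χ₃ = 1: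
LFunction_changeLevel for χ₁ and χ₂ to level q₁q₂: the lifted characters are equal (χ₁' χ₂' = 1 and
χ₂'^2 = 1), so L(1,χ₂) ∏_{p | q₁q₂} (1 - χ₂(p)/p) = L(1,χ₁) ∏_{p | q₁ q₂} (1 - χ₁(p)/p); the factors have
modulus between 1/2 and 2 (3/2), so |L(1,χ₂)| ≥ |L(1,χ₁)| 4^(-ω(q₁q₂)) ≥ c q₂^(-ε) by `pow_omega_le`
(K = 4) and |L(1,χ₁)| > 0.
Case A: some quadratic χ₁ ≠ 1 has a real zero σ₁ in (1-δ, 1): the product is 0, Claim.
Case B: no quadratic character ≠ 1 has a zero in [1-δ/2, 1) (negation of A with σ ≥ 1 - δ/2 > 1-δ). If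
there is no quadratic character ≠ 1 at all, nothing to prove; otherwise fix one, χ₁, and
σ₁ = 1 - δ/2: ζ(σ₁) < 0 (`zeta_neg`; and im ζ(σ₁) = 0: real by conjugation symmetry or from
`zeta_sub_sum_le`, M → ∞), the other three are real and > 0 (`LFunction_pos_of_no_zero`; χ₃ is
quadratic ≠ 1), so the product is < 0. Claim. To avoid im ζ = 0: the product of the three positive reals
is a positive real r, and re (ζ r) = r re ζ < 0.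
-/

open Complex

namespace Pool.Agent.Lib.SW

/-- the product character at the level `q₁ q₂` -/
theorem ch_mul_changeLevel {q₁ q₂ : ℕ} [NeZero q₁] [NeZero q₂] (χ₁ : DirichletCharacter ℂ q₁)
    (χ₂ : DirichletCharacter ℂ q₂) (n : ℕ) :
    ch (DirichletCharacter.changeLevel (Nat.dvd_mul_right q₁ q₂) χ₁ *
      DirichletCharacter.changeLevel (Nat.dvd_mul_left q₂ q₁) χ₂) n = ch χ₁ n * ch χ₂ n := by
  unfold ch
  rw [MulChar.mul_apply]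
  by_cases hn : Nat.Coprime n (q₁ * q₂)
  · have h1 : IsCoprime (n : ℤ) ((q₁ * q₂ : ℕ) : ℤ) := Nat.isCoprime_iff_coprime.mpr hn
    have e1 := DirichletCharacter.changeLevel_eq_cast_of_dvd' χ₁ (Nat.dvd_mul_right q₁ q₂) h1
    have e2 := DirichletCharacter.changeLevel_eq_cast_of_dvd' χ₂ (Nat.dvd_mul_left q₂ q₁) h1
    rw [Int.cast_natCast, Int.cast_natCast] at e1 e2
    rw [e1, e2]
  · have hu : ¬ IsUnit ((n : ℕ) : ZMod (q₁ * q₂)) := by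
      rwa [ZMod.isUnit_iff_coprime]
    rw [MulChar.map_nonunit _ hu, zero_mul]
    have hn2 : ¬ Nat.Coprime n q₁ ∨ ¬ Nat.Coprime n q₂ := by
      by_contra hcon
      push Not at hcon
      exact hn (Nat.Coprime.mul_right hcon.1 hcon.2)
    rcases hn2 with h | h
    · have hu1 : ¬ IsUnit ((n : ℕ) : ZMod q₁) := by
        rwa [ZMod.isUnit_iff_coprime]
      rw [MulChar.map_nonunit χ₁ hu1, zero_mul]
    · have hu2 : ¬ IsUnit ((n : ℕ) : ZMod q₂) := by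
        rwa [ZMod.isUnit_iff_coprime]
      rw [MulChar.map_nonunit χ₂ hu2, mul_zero]

theorem norm_prod_le {q : ℕ} (χ : DirichletCharacter ℂ q) (N : ℕ) :
    ‖∏ p ∈ N.primeFactors, (1 - χ p * (p : ℂ) ^ (-(1 : ℂ)))‖ ≤ 2 ^ N.primeFactors.card := by
  rw [norm_prod]
  have h : ∀ p ∈ N.primeFactors, ‖(1 - χ p * (p : ℂ) ^ (-(1 : ℂ)))‖ ≤ 2 := by
    intro p hp
    have hpp := Nat.prime_of_mem_primeFactors hp
    have hp2 : (2 : ℝ) ≤ p := by exact_mod_cast hpp.two_le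
    have h1 : ‖χ p * (p : ℂ) ^ (-(1 : ℂ))‖ ≤ 1 := by
      rw [norm_mul, Complex.cpow_neg_one, norm_inv, Complex.norm_natCast]
      have h2 := DirichletCharacter.norm_le_one χ (p : ZMod q)
      have h3 : (p : ℝ)⁻¹ ≤ 1 := inv_le_one_of_one_le₀ (by linarith)
      have h4 : 0 ≤ (p : ℝ)⁻¹ := by positivity
      calc ‖χ p‖ * (p : ℝ)⁻¹ ≤ 1 * 1 := by gcongr
        _ = 1 := by norm_num
    calc ‖(1 - χ p * (p : ℂ) ^ (-(1 : ℂ)))‖ ≤ ‖(1 : ℂ)‖ + ‖χ p * (p : ℂ) ^ (-(1 : ℂ))‖ := norm_sub_le _ _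
      _ ≤ 1 + 1 := by rw [norm_one]; linarith
      _ = 2 := by norm_num
  calc ∏ p ∈ N.primeFactors, ‖(1 - χ p * (p : ℂ) ^ (-(1 : ℂ)))‖
      ≤ ∏ _p ∈ N.primeFactors, (2 : ℝ) := Finset.prod_le_prod (fun p _ => norm_nonneg _) h
    _ = 2 ^ N.primeFactors.card := by rw [Finset.prod_const]

theorem le_norm_prod {q : ℕ} (χ : DirichletCharacter ℂ q) (N : ℕ) :
    (1 / 2) ^ N.primeFactors.card ≤ ‖∏ p ∈ N.primeFactors, (1 - χ p * (p : ℂ) ^ (-(1 : ℂ)))‖ := by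
  rw [norm_prod]
  have h : ∀ p ∈ N.primeFactors, (1 / 2 : ℝ) ≤ ‖(1 - χ p * (p : ℂ) ^ (-(1 : ℂ)))‖ := by
    intro p hp
    have hpp := Nat.prime_of_mem_primeFactors hp
    have hp2 : (2 : ℝ) ≤ p := by exact_mod_cast hpp.two_le
    have h1 : ‖χ p * (p : ℂ) ^ (-(1 : ℂ))‖ ≤ 1 / 2 := by
      rw [norm_mul, Complex.cpow_neg_one, norm_inv, Complex.norm_natCast]
      have h2 := DirichletCharacter.norm_le_one χ (p : ZMod q)
      have h3 : (p : ℝ)⁻¹ ≤ 1 / 2 := by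
        rw [one_div]
        exact inv_anti₀ (by norm_num) hp2
      have h4 : 0 ≤ (p : ℝ)⁻¹ := by positivity
      calc ‖χ p‖ * (p : ℝ)⁻¹ ≤ 1 * (1 / 2) := by gcongr
        _ = 1 / 2 := by norm_num
    have h5 := norm_sub_norm_le (1 : ℂ) (χ p * (p : ℂ) ^ (-(1 : ℂ)))
    rw [norm_one] at h5
    linarith
  calc (1 / 2 : ℝ) ^ N.primeFactors.card = ∏ _p ∈ N.primeFactors, (1 / 2 : ℝ) := by
        rw [Finset.prod_const]
    _ ≤ ∏ p ∈ N.primeFactors, ‖(1 - χ p * (p : ℂ) ^ (-(1 : ℂ)))‖ :=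
        Finset.prod_le_prod (fun p _ => by norm_num) h

/-- the claim of the head comment: one good pair `(χ₁, σ₁)` is enough -/
theorem siegel_claim (ε : ℝ) (hε : 0 < ε) (C₀ : ℝ) (hC₀ : 0 < C₀)
    (hE : ∀ (q₁ q₂ q₃ : ℕ) [NeZero q₁] [NeZero q₂] [NeZero q₃]
      (χ₁ : DirichletCharacter ℂ q₁) (χ₂ : DirichletCharacter ℂ q₂)
      (χ₃ : DirichletCharacter ℂ q₃), q₃ = q₁ * q₂ → χ₁ ≠ 1 → χ₂ ≠ 1 → χ₃ ≠ 1 →
      χ₁ ^ 2 = 1 → χ₂ ^ 2 = 1 → (∀ n : ℕ, ch χ₃ n = ch χ₁ n * ch χ₂ n) →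
      ∀ σ : ℝ, 7 / 8 < σ → σ < 1 →
        (riemannZeta σ * DirichletCharacter.LFunction χ₁ σ *
          DirichletCharacter.LFunction χ₂ σ * DirichletCharacter.LFunction χ₃ σ).re ≤ 0 →
        1 - σ ≤ C₀ * (q₃ : ℝ) ^ (C₀ * (1 - σ)) *
          ‖DirichletCharacter.LFunction χ₁ 1 * DirichletCharacter.LFunction χ₂ 1 *
            DirichletCharacter.LFunction χ₃ 1‖)
    (q₁ : ℕ) [NeZero q₁] (χ₁ : DirichletCharacter ℂ q₁) (hχ₁ : χ₁ ≠ 1) (h₁ : χ₁ ^ 2 = 1)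
    (σ : ℝ) (hσ7 : 7 / 8 < σ) (hσ1 : σ < 1) (hσε : C₀ * (1 - σ) ≤ ε / 8)
    (hneg : ∀ (q₂ : ℕ) [NeZero q₂] (χ₂ : DirichletCharacter ℂ q₂)
      (χ₃ : DirichletCharacter ℂ (q₁ * q₂)), χ₂ ≠ 1 → χ₃ ≠ 1 → χ₂ ^ 2 = 1 → χ₃ ^ 2 = 1 →
      (riemannZeta σ * DirichletCharacter.LFunction χ₁ σ *
          DirichletCharacter.LFunction χ₂ σ * DirichletCharacter.LFunction χ₃ σ).re ≤ 0) :
    ∃ c : ℝ, 0 < c ∧ ∀ (q : ℕ) [NeZero q] (χ : DirichletCharacter ℂ q), χ ≠ 1 → χ ^ 2 = 1 →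
      c * (q : ℝ) ^ (-ε) ≤ ‖DirichletCharacter.LFunction χ 1‖ := by
  obtain ⟨δ', hδ'0, hδ'1, C₁, hC₁, hstrip⟩ := LFunction_strip (ε / 8) (by positivity)
  obtain ⟨C₄, hC₄, hω⟩ := pow_omega_le 4 ε (by norm_num) hε
  have hL1 : 0 < ‖DirichletCharacter.LFunction χ₁ 1‖ :=
    norm_pos_iff.mpr (DirichletCharacter.LFunction_apply_one_ne_zero hχ₁)
  set A : ℝ := ‖DirichletCharacter.LFunction χ₁ 1‖ with hA
  have hq1 : (1 : ℝ) ≤ q₁ := by exact_mod_cast Nat.one_le_iff_ne_zero.mpr (NeZero.ne q₁)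
  have hq1pos : (0 : ℝ) < q₁ := by linarith
  set D : ℝ := C₀ * (C₁ * 2 ^ (ε / 8)) * A * (q₁ : ℝ) ^ (ε / 4) with hD
  have hDpos : 0 < D := by positivity
  refine ⟨min ((1 - σ) / D) (A / (C₄ * (q₁ : ℝ) ^ ε)), lt_min (div_pos (by linarith) hDpos)
    (by positivity), ?_⟩
  intro q₂ _ χ₂ hχ₂ h₂
  have hq2 : (1 : ℝ) ≤ q₂ := by exact_mod_cast Nat.one_le_iff_ne_zero.mpr (NeZero.ne q₂)
  have hq2pos : (0 : ℝ) < q₂ := by linarith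
  have hq2ε : 0 < (q₂ : ℝ) ^ (-ε) := Real.rpow_pos_of_pos hq2pos _
  have hsq1 : (DirichletCharacter.changeLevel (Nat.dvd_mul_right q₁ q₂) χ₁) ^ 2 = 1 := by
    rw [← map_pow, h₁, map_one]
  have hsq2 : (DirichletCharacter.changeLevel (Nat.dvd_mul_left q₂ q₁) χ₂) ^ 2 = 1 := by
    rw [← map_pow, h₂, map_one]
  by_cases h3 : DirichletCharacter.changeLevel (Nat.dvd_mul_right q₁ q₂) χ₁ *
      DirichletCharacter.changeLevel (Nat.dvd_mul_left q₂ q₁) χ₂ = 1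
  · -- the lifted characters are equal
    have heq : DirichletCharacter.changeLevel (Nat.dvd_mul_right q₁ q₂) χ₁ =
        DirichletCharacter.changeLevel (Nat.dvd_mul_left q₂ q₁) χ₂ := by
      calc DirichletCharacter.changeLevel (Nat.dvd_mul_right q₁ q₂) χ₁
          = DirichletCharacter.changeLevel (Nat.dvd_mul_right q₁ q₂) χ₁ *
            (DirichletCharacter.changeLevel (Nat.dvd_mul_left q₂ q₁) χ₂) ^ 2 := by
              rw [hsq2, mul_one]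
        _ = (DirichletCharacter.changeLevel (Nat.dvd_mul_right q₁ q₂) χ₁ *
            DirichletCharacter.changeLevel (Nat.dvd_mul_left q₂ q₁) χ₂) *
            DirichletCharacter.changeLevel (Nat.dvd_mul_left q₂ q₁) χ₂ := by
              rw [pow_two, mul_assoc]
        _ = _ := by rw [h3, one_mul]
    have e1 := DirichletCharacter.LFunction_changeLevel (Nat.dvd_mul_right q₁ q₂) χ₁ (s := 1)
      (Or.inl hχ₁)
    have e2 := DirichletCharacter.LFunction_changeLevel (Nat.dvd_mul_left q₂ q₁) χ₂ (s := 1)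
      (Or.inl hχ₂)
    rw [heq, e2] at e1
    have e3 := congrArg norm e1
    rw [norm_mul, norm_mul] at e3
    have hup := norm_prod_le χ₂ (q₁ * q₂)
    have hlo := le_norm_prod χ₁ (q₁ * q₂)
    have hom := hω (q₁ * q₂) (Nat.one_le_iff_ne_zero.mpr (NeZero.ne _))
    push_cast at hom
    rw [Real.mul_rpow hq1pos.le hq2pos.le] at hom
    set w : ℕ := (q₁ * q₂).primeFactors.card with hw
    have h5 : A * (1 / 2) ^ w ≤ ‖DirichletCharacter.LFunction χ₂ 1‖ * 2 ^ w := by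
      calc A * (1 / 2) ^ w ≤ A * ‖∏ p ∈ (q₁ * q₂).primeFactors, (1 - χ₁ p * (p : ℂ) ^ (-(1 : ℂ)))‖ := by
            gcongr
        _ = ‖DirichletCharacter.LFunction χ₂ 1‖ *
            ‖∏ p ∈ (q₁ * q₂).primeFactors, (1 - χ₂ p * (p : ℂ) ^ (-(1 : ℂ)))‖ := e3.symm
        _ ≤ ‖DirichletCharacter.LFunction χ₂ 1‖ * 2 ^ w := by gcongr
    have h6 : A ≤ ‖DirichletCharacter.LFunction χ₂ 1‖ * 4 ^ w := by
      have h2w : (0 : ℝ) < 2 ^ w := by positivity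
      have h7 : A = (A * (1 / 2) ^ w) * 2 ^ w := by
        rw [mul_assoc, ← mul_pow]
        norm_num
      have h8 : (4 : ℝ) ^ w = 2 ^ w * 2 ^ w := by
        rw [← mul_pow]
        norm_num
      rw [h7, h8, ← mul_assoc]
      gcongr
    have h9 : A ≤ ‖DirichletCharacter.LFunction χ₂ 1‖ * (C₄ * ((q₁ : ℝ) ^ ε * (q₂ : ℝ) ^ ε)) :=
      h6.trans (by gcongr)
    have hq2e : (q₂ : ℝ) ^ (-ε) = ((q₂ : ℝ) ^ ε)⁻¹ := Real.rpow_neg hq2pos.le ε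
    have hq2e0 : 0 < (q₂ : ℝ) ^ ε := Real.rpow_pos_of_pos hq2pos _
    have hq1e0 : 0 < (q₁ : ℝ) ^ ε := Real.rpow_pos_of_pos hq1pos _
    calc min ((1 - σ) / D) (A / (C₄ * (q₁ : ℝ) ^ ε)) * (q₂ : ℝ) ^ (-ε)
        ≤ (A / (C₄ * (q₁ : ℝ) ^ ε)) * (q₂ : ℝ) ^ (-ε) := by
          gcongr
          exact min_le_right _ _
      _ = A / (C₄ * ((q₁ : ℝ) ^ ε * (q₂ : ℝ) ^ ε)) := by
          rw [hq2e]
          field_simp
      _ ≤ ‖DirichletCharacter.LFunction χ₂ 1‖ := by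
          rw [div_le_iff₀ (by positivity)]
          exact h9
  · -- the product character is not trivial
    set χ₃ := DirichletCharacter.changeLevel (Nat.dvd_mul_right q₁ q₂) χ₁ *
      DirichletCharacter.changeLevel (Nat.dvd_mul_left q₂ q₁) χ₂ with hχ₃
    have hsq3 : χ₃ ^ 2 = 1 := by
      rw [hχ₃, mul_pow, hsq1, hsq2, mul_one]
    have hprod := hneg q₂ χ₂ χ₃ hχ₂ h3 h₂ hsq3
    have hmain := hE q₁ q₂ (q₁ * q₂) χ₁ χ₂ χ₃ rfl hχ₁ hχ₂ h3 h₁ h₂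
      (fun n => ch_mul_changeLevel χ₁ χ₂ n) σ hσ7 hσ1 hprod
    have hL3 : ‖DirichletCharacter.LFunction χ₃ 1‖ ≤
        (C₁ * 2 ^ (ε / 8)) * ((q₁ : ℝ) ^ (ε / 8) * (q₂ : ℝ) ^ (ε / 8)) := by
      have h := hstrip (q₁ * q₂) χ₃ h3 1 (by simp; linarith) (by simp)
      have hQ : Qt (q₁ * q₂) (1 : ℂ).im = 2 * ((q₁ : ℝ) * q₂) := by
        unfold Qt
        rw [Complex.one_im, abs_zero]
        push_cast
        ring
      rw [hQ, Real.mul_rpow (by norm_num) (by positivity), Real.mul_rpow hq1pos.le hq2pos.le] at h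
      calc _ ≤ _ := h
        _ = _ := by ring
    have hpow : ((q₁ * q₂ : ℕ) : ℝ) ^ (C₀ * (1 - σ)) ≤
        (q₁ : ℝ) ^ (ε / 8) * (q₂ : ℝ) ^ (ε / 8) := by
      have h1 : (1 : ℝ) ≤ ((q₁ * q₂ : ℕ) : ℝ) := by
        push_cast
        nlinarith
      calc ((q₁ * q₂ : ℕ) : ℝ) ^ (C₀ * (1 - σ)) ≤ ((q₁ * q₂ : ℕ) : ℝ) ^ (ε / 8) :=
            Real.rpow_le_rpow_of_exponent_le h1 hσε
        _ = (q₁ : ℝ) ^ (ε / 8) * (q₂ : ℝ) ^ (ε / 8) := by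
            push_cast
            rw [Real.mul_rpow hq1pos.le hq2pos.le]
    have hq1s : (q₁ : ℝ) ^ (ε / 8) * (q₁ : ℝ) ^ (ε / 8) = (q₁ : ℝ) ^ (ε / 4) := by
      rw [← Real.rpow_add hq1pos]
      congr 1
      ring
    have hq2s : (q₂ : ℝ) ^ (ε / 8) * (q₂ : ℝ) ^ (ε / 8) = (q₂ : ℝ) ^ (ε / 4) := by
      rw [← Real.rpow_add hq2pos]
      congr 1
      ring
    rw [norm_mul, norm_mul, ← hA] at hmain
    have hfin : 1 - σ ≤ D * (q₂ : ℝ) ^ (ε / 4) * ‖DirichletCharacter.LFunction χ₂ 1‖ := by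
      calc 1 - σ ≤ C₀ * ((q₁ * q₂ : ℕ) : ℝ) ^ (C₀ * (1 - σ)) *
            (A * ‖DirichletCharacter.LFunction χ₂ 1‖ * ‖DirichletCharacter.LFunction χ₃ 1‖) := hmain
        _ ≤ C₀ * ((q₁ : ℝ) ^ (ε / 8) * (q₂ : ℝ) ^ (ε / 8)) *
            (A * ‖DirichletCharacter.LFunction χ₂ 1‖ *
              ((C₁ * 2 ^ (ε / 8)) * ((q₁ : ℝ) ^ (ε / 8) * (q₂ : ℝ) ^ (ε / 8)))) := by
            gcongr
        _ = C₀ * (C₁ * 2 ^ (ε / 8)) * A * ((q₁ : ℝ) ^ (ε / 8) * (q₁ : ℝ) ^ (ε / 8)) *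
            ((q₂ : ℝ) ^ (ε / 8) * (q₂ : ℝ) ^ (ε / 8)) *
              ‖DirichletCharacter.LFunction χ₂ 1‖ := by ring
        _ = D * (q₂ : ℝ) ^ (ε / 4) * ‖DirichletCharacter.LFunction χ₂ 1‖ := by
            rw [hq1s, hq2s]
    have hq4 : 0 < (q₂ : ℝ) ^ (ε / 4) := Real.rpow_pos_of_pos hq2pos _
    calc min ((1 - σ) / D) (A / (C₄ * (q₁ : ℝ) ^ ε)) * (q₂ : ℝ) ^ (-ε)
        ≤ ((1 - σ) / D) * (q₂ : ℝ) ^ (-ε) := by
          gcongr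
          exact min_le_left _ _
      _ ≤ ((1 - σ) / D) * (q₂ : ℝ) ^ (-(ε / 4)) := by
          have h0 : 0 ≤ (1 - σ) / D := div_nonneg (by linarith) hDpos.le
          have h1 : (q₂ : ℝ) ^ (-ε) ≤ (q₂ : ℝ) ^ (-(ε / 4)) :=
            Real.rpow_le_rpow_of_exponent_le hq2 (by linarith)
          exact mul_le_mul_of_nonneg_left h1 h0
      _ = (1 - σ) / (D * (q₂ : ℝ) ^ (ε / 4)) := by
          rw [Real.rpow_neg hq2pos.le]
          field_simp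
      _ ≤ ‖DirichletCharacter.LFunction χ₂ 1‖ := by
          rw [div_le_iff₀ (by positivity)]
          calc 1 - σ ≤ D * (q₂ : ℝ) ^ (ε / 4) * ‖DirichletCharacter.LFunction χ₂ 1‖ := hfin
            _ = ‖DirichletCharacter.LFunction χ₂ 1‖ * (D * (q₂ : ℝ) ^ (ε / 4)) := by ring

theorem siegel (ε : ℝ) (hε : 0 < ε) :
    ∃ c : ℝ, 0 < c ∧ ∀ (q : ℕ) [NeZero q] (χ : DirichletCharacter ℂ q), χ ≠ 1 → χ ^ 2 = 1 →
      c * (q : ℝ) ^ (-ε) ≤ ‖DirichletCharacter.LFunction χ 1‖ := by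
  obtain ⟨C₀, hC₀, hE⟩ := estermann
  obtain ⟨δ, hδ0, hδ1, hδε⟩ : ∃ δ : ℝ, 0 < δ ∧ δ ≤ 1 / 16 ∧ C₀ * δ ≤ ε / 8 := by
    refine ⟨min (1 / 16) (ε / (8 * C₀)), lt_min (by norm_num) (by positivity),
      min_le_left _ _, ?_⟩
    calc C₀ * min (1 / 16) (ε / (8 * C₀)) ≤ C₀ * (ε / (8 * C₀)) := by
          gcongr
          exact min_le_right _ _
      _ = ε / 8 := by field_simp
  by_cases hA : ∃ (q₁ : ℕ) (_ : NeZero q₁) (χ₁ : DirichletCharacter ℂ q₁) (σ₁ : ℝ),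
      χ₁ ≠ 1 ∧ χ₁ ^ 2 = 1 ∧ 1 - δ < σ₁ ∧ σ₁ < 1 ∧ DirichletCharacter.LFunction χ₁ σ₁ = 0
  · obtain ⟨q₁, _, χ₁, σ₁, hχ₁, h₁, hσ, hσ1, hz⟩ := hA
    refine siegel_claim ε hε C₀ hC₀ (fun q₁ q₂ q₃ _ _ _ χ₁ χ₂ χ₃ => hE q₁ q₂ q₃ χ₁ χ₂ χ₃)
      q₁ χ₁ hχ₁ h₁ σ₁ (by linarith) hσ1 ?_ ?_
    · calc C₀ * (1 - σ₁) ≤ C₀ * δ := by
            gcongr
            linarith
        _ ≤ ε / 8 := hδε
    · intro q₂ _ χ₂ χ₃ _ _ _ _
      rw [hz]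
      simp
  · by_cases hB : ∃ (q₁ : ℕ) (_ : NeZero q₁) (χ₁ : DirichletCharacter ℂ q₁), χ₁ ≠ 1 ∧ χ₁ ^ 2 = 1
    · obtain ⟨q₁, _, χ₁, hχ₁, h₁⟩ := hB
      have hpos : ∀ (q : ℕ) [NeZero q] (χ : DirichletCharacter ℂ q), χ ≠ 1 → χ ^ 2 = 1 →
          0 < (DirichletCharacter.LFunction χ ((1 - δ / 2 : ℝ) : ℂ)).re ∧
          (DirichletCharacter.LFunction χ ((1 - δ / 2 : ℝ) : ℂ)).im = 0 := by
        intro q _ χ hχ h2
        refine ⟨LFunction_pos_of_no_zero hχ h2 (1 - δ / 2) (by linarith) ?_ (1 - δ / 2) le_rfl,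
          LFunction_im hχ h2 _ (by linarith)⟩
        intro σ hs1 hs2 hz
        exact hA ⟨q, inferInstance, χ, σ, hχ, h2, by linarith, hs2, hz⟩
      refine siegel_claim ε hε C₀ hC₀ (fun q₁ q₂ q₃ _ _ _ χ₁ χ₂ χ₃ => hE q₁ q₂ q₃ χ₁ χ₂ χ₃)
        q₁ χ₁ hχ₁ h₁ (1 - δ / 2) (by linarith) (by linarith) ?_ ?_
      · calc C₀ * (1 - (1 - δ / 2)) ≤ C₀ * δ := by
              gcongr
              linarith
          _ ≤ ε / 8 := hδε
      · intro q₂ _ χ₂ χ₃ hχ₂ hχ₃ h₂ h₃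
        have a1 := hpos q₁ χ₁ hχ₁ h₁
        have a2 := hpos q₂ χ₂ hχ₂ h₂
        have a3 := hpos (q₁ * q₂) χ₃ hχ₃ h₃
        have hz := zeta_neg (1 - δ / 2) (by linarith) (by linarith)
        rw [Complex.mul_re, Complex.mul_re, Complex.mul_re, a1.2, a2.2, a3.2]
        simp only [mul_zero, sub_zero]
        have h12 := mul_pos a1.1 a2.1
        have h123 := mul_pos h12 a3.1
        nlinarith
    · refine ⟨1, one_pos, ?_⟩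
      intro q _ χ hχ h2
      exact absurd ⟨q, inferInstance, χ, hχ, h2⟩ hB

end Pool.Agent.Lib.SW
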