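import Pool.Agent.Lib.SW.LG3

/-!
# LG4: the exact order of the number of `n` reached by a thin set of primes
-/

open Finset

namespace Pool.Agent.Lib.SW

/-- every set of primes which is not too thin reaches `(2 e^(-γ) - ε) X / log log log X` of the
`n ≤ X` -/
theorem gen_lower (K : ℕ) (ε : ℝ) (hε : 0 < ε) : ∃ X₀ : ℕ, ∀ X : ℕ, X₀ ≤ X →
    ∀ S : Finset ℕ, (∀ s ∈ S, s.Prime) →
      (∀ Y : ℕ, Real.sqrt X ≤ Y → Y ≤ 2 * X →
        Y / (Real.log Y) ^ K ≤ ((S.filter (fun s => s ≤ Y)).card : ℝ)) →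
    (2 * Real.exp (-Real.eulerMascheroniConstant) - ε) * X / Real.log (Real.log (Real.log X)) ≤
      (((Icc 1 X).filter (fun n => ∃ s ∈ S, s < 2 * n ∧ (2 * n - s).Prime)).card : ℝ) := by
  obtain ⟨δ, hδ, hδ1, hδε⟩ : ∃ δ : ℝ, 0 < δ ∧ δ ≤ 1 ∧ δ ≤ ε / 4 :=
    ⟨min 1 (ε / 4), lt_min one_pos (by linarith), min_le_left _ _, min_le_right _ _⟩
  have hg := LG3_gamma
  have hg0 := Real.exp_pos (-Real.eulerMascheroniConstant)
  obtain ⟨X₁, hX₁⟩ := sums_lower (K + 1) δ hδ
  -- the comparison of the constants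
  have hc : ∀ᶠ X : ℕ in Filter.atTop, 2 * Real.exp (-Real.eulerMascheroniConstant) - ε ≤
      2 * (1 - δ) * (Real.log (Real.log (Real.log X)) / cX X) := by
    have h1 := cX_asymp.const_mul (2 * (1 - δ))
    have h2 : 2 * Real.exp (-Real.eulerMascheroniConstant) - ε <
        2 * (1 - δ) * Real.exp (-Real.eulerMascheroniConstant) := by nlinarith
    exact (h1.eventually_const_lt h2).mono fun X hX => hX.le
  have hcast : Filter.Tendsto (fun X : ℕ => (X : ℝ)) Filter.atTop Filter.atTop :=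
    tendsto_natCast_atTop_atTop
  obtain ⟨X₃, hX₃⟩ := Filter.eventually_atTop.1 (hc.and ((LG3_log3_ev 1).and
    ((LG3_log_ev (16 / δ)).and ((hcast.eventually_ge_atTop (256 / δ ^ 2 + 64 / δ)).and
      (Filter.eventually_ge_atTop (max X₁ 3))))))
  refine ⟨X₃, fun X hX S hSp hS => ?_⟩
  obtain ⟨k1, k2, k3, k4, k5⟩ := hX₃ X hX
  have hX3 : 3 ≤ X := (le_max_right _ _).trans k5
  have hXr3 : (3 : ℝ) ≤ X := by exact_mod_cast hX3
  have hX0 : (0 : ℝ) < X := by linarith
  have hL : 0 < Real.log X := Real.log_pos (by linarith)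
  -- density
  have hdens : X / (Real.log X) ^ (K + 1) ≤
      ((S.filter (fun s : ℕ => (s : ℝ) ≤ δ / 8 * X)).card : ℝ) := by
    obtain ⟨Y, hY⟩ : ∃ Y : ℕ, Y = ⌊δ / 8 * X⌋₊ := ⟨_, rfl⟩
    have hYle : (Y : ℝ) ≤ δ / 8 * X := by
      rw [hY]
      exact Nat.floor_le (by positivity)
    have hX64 : 64 ≤ δ * X := by
      have h1 : 64 / δ ≤ X := by
        have : 0 ≤ 256 / δ ^ 2 := by positivity
        linarith
      rwa [div_le_iff₀ hδ, mul_comm] at h1
    have hYge : δ / 16 * X ≤ (Y : ℝ) := by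
      have h1 := Nat.lt_floor_add_one (δ / 8 * X)
      rw [← hY] at h1
      nlinarith
    have hY2 : (2 : ℝ) ≤ Y := by linarith
    have hYX : (Y : ℝ) ≤ X := by nlinarith
    have hsq : Real.sqrt X ≤ Y := by
      refine le_trans ?_ hYge
      rw [Real.sqrt_le_left (by positivity)]
      have h1 : 256 / δ ^ 2 ≤ X := by
        have : 0 ≤ 64 / δ := by positivity
        linarith
      rw [div_le_iff₀ (by positivity)] at h1
      nlinarith
    have hYX' : Y ≤ 2 * X := by
      have : Y ≤ X := by exact_mod_cast hYX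
      omega
    have h1 := hS Y hsq hYX'
    have h2 : ((S.filter (fun s => s ≤ Y)).card : ℝ) ≤
        ((S.filter (fun s : ℕ => (s : ℝ) ≤ δ / 8 * X)).card : ℝ) := by
      refine Nat.cast_le.2 (card_le_card fun s hs => ?_)
      obtain ⟨hs1, hs2⟩ := mem_filter.1 hs
      have hs5 : (s : ℝ) ≤ Y := by exact_mod_cast hs2
      exact mem_filter.2 ⟨hs1, by linarith⟩
    refine le_trans ?_ (h1.trans h2)
    have h3 : 0 < Real.log Y := Real.log_pos (by linarith)
    have h4 : Real.log Y ≤ Real.log X := Real.log_le_log (by linarith) hYX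
    calc (X : ℝ) / (Real.log X) ^ (K + 1)
        ≤ (δ / 16 * X) / (Real.log X) ^ K := by
          have h6 : (Real.log X) ^ (K + 1) = (Real.log X) ^ K * Real.log X :=
            pow_succ _ _
          rw [div_le_div_iff₀ (by positivity) (by positivity), h6]
          rw [div_le_iff₀ hδ] at k3
          have h5 : 0 ≤ X * (Real.log X) ^ K := by positivity
          nlinarith
      _ ≤ Y / (Real.log X) ^ K :=
          div_le_div_of_nonneg_right hYge (by positivity)
      _ ≤ Y / (Real.log Y) ^ K :=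
          div_le_div_of_nonneg_left (by linarith) (by positivity) (pow_le_pow_left₀ h3.le h4 _)
  have hmain := hX₁ X ((le_max_left _ _).trans k5) S hSp hdens
  have hsub : (((Icc 1 X).filter (fun n => X / (Real.log X) ^ (K + 1 + 7) ≤
      (reps S (2 * n) : ℝ))).card : ℝ) ≤
      (((Icc 1 X).filter (fun n => ∃ s ∈ S, s < 2 * n ∧ (2 * n - s).Prime)).card : ℝ) := by
    refine Nat.cast_le.2 (card_le_card fun n hn => ?_)
    obtain ⟨hn1, hn2⟩ := mem_filter.1 hn
    refine mem_filter.2 ⟨hn1, ?_⟩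
    have hpos : 0 < X / (Real.log X) ^ (K + 1 + 7) := by positivity
    have h2 : 0 < reps S (2 * n) := by
      have : (0 : ℝ) < reps S (2 * n) := lt_of_lt_of_le hpos hn2
      exact_mod_cast this
    unfold reps at h2
    obtain ⟨a, ha⟩ := card_pos.1 h2
    obtain ⟨ha1, ha2, ha3⟩ := mem_filter.1 ha
    exact ⟨a, ha1, ha2, ha3⟩
  refine le_trans ?_ (hmain.trans hsub)
  have h3 : (0 : ℝ) < Real.log (Real.log (Real.log X)) := by linarith
  have hcX := one_le_cX X
  rw [div_le_div_iff₀ h3 (by linarith)]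
  have h4 : (2 * Real.exp (-Real.eulerMascheroniConstant) - ε) * cX X ≤
      2 * (1 - δ) * Real.log (Real.log (Real.log X)) := by
    have h5 := mul_le_mul_of_nonneg_right k1 (by linarith : (0 : ℝ) ≤ cX X)
    rwa [mul_assoc, div_mul_cancel₀ _ (by linarith : cX X ≠ 0)] at h5
  nlinarith

end Pool.Agent.Lib.SW
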