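import Pool.Agent.Lib.SW.TypeSums
import Pool.Agent.Lib.SW.Vaughan

/-!
# SW-V: minor arcs, Λ and μ (module V)

PROOF (Λ). Wlog q ≤ X (otherwise √(Xq) ≥ X and |S| ≤ ψ(X) ≤ C X) and X ≥ X₀. `vaughan` with f(n) = e(nα),
U = V = ⌊X^(2/5)⌋ (≥ 1). n ≤ V: ≤ ψ(V) ≤ C X^(2/5). Type I: `type_I_log` (M = U, A = 1) and `type_I` (M = U V ≤
X^(4/5), A = log X by `abs_cUV_le`): ≤ C (X/q + X^(4/5) + q) log² ≤ C (X/√q + X^(4/5) + √(Xq)) log²
(q ≤ X). Type II: split l in (V, X] dyadically, L = 2^i V; only L < X/U matters (j > U, l j ≤ X), at most 2 log X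
values; J = X/L (nat division; L J ≤ X and X/(L+1) ≤ J). u = Λ on (V,X] else 0: ∑ ≤ C L log X; v = bU: ∑_{j ≤ J} ≤ C (X/L) log³ X. So each
block is ≤ (C · L log · (X/L) log³ · (X/q + L + X/L + q) log)^(1/2) = C X^(1/2) log^(5/2) (..)^(1/2); L ≤ X/U, X/L ≤ X/V:
total ≤ C log X · X^(1/2) log^(5/2) ((X/q)^(1/2) + q^(1/2) + X^(1/2)/U^(1/2) + ..) ≤ C log^(7/2) (X/√q + √(Xq) + X^(4/5)).
μ: the same with `vaughan_mu`, type I part by
Cauchy-Schwarz: ∑_{m ≤ M} d(m) gmin(X/m)(mα) ≤ (∑ d(m)² X/m)^(1/2) (∑ gmin(X/m)(mα))^(1/2) ≤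
(C X log^4)^(1/2) (C (X/q + M + q) log)^(1/2).
-/

open Finset Pool.Agent.Lib.GT
open scoped ArithmeticFunction.Moebius ArithmeticFunction.vonMangoldt

namespace Pool.Agent.Lib.SW

theorem norm_e' (x : ℝ) : ‖e x‖ = 1 := by
  unfold e
  rw [show (2 * Real.pi * x * Complex.I : ℂ) = ((2 * Real.pi * x : ℝ) : ℂ) * Complex.I by
    push_cast; ring]
  exact Complex.norm_exp_ofReal_mul_I _

theorem half_le_log (X : ℕ) (hX : 2 ≤ X) : (1 / 2 : ℝ) ≤ Real.log X := by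
  have h1 := Real.log_two_gt_d9
  have h2 : Real.log 2 ≤ Real.log X := Real.log_le_log (by norm_num) (by exact_mod_cast hX)
  linarith

/-- the dyadic decomposition -/
theorem dyadic (f : ℕ → ℂ) (V I : ℕ) :
    ∑ l ∈ Ioc V (2 ^ I * V), f l = ∑ i ∈ range I, ∑ l ∈ Ioc (2 ^ i * V) (2 * (2 ^ i * V)), f l := by
  induction I with
  | zero => simp
  | succ n ih =>
    rw [Finset.sum_range_succ, ← ih, show 2 ^ (n + 1) * V = 2 * (2 ^ n * V) by ring]
    have h1 : V ≤ 2 ^ n * V := Nat.le_mul_of_pos_left V (by positivity)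
    have h2 : 2 ^ n * V ≤ 2 * (2 ^ n * V) := Nat.le_mul_of_pos_left _ (by norm_num)
    rw [← Finset.sum_union]
    · congr 1
      ext l
      simp only [Finset.mem_union, Finset.mem_Ioc]
      omega
    · rw [Finset.disjoint_left]
      intro l h3 h4
      rw [Finset.mem_Ioc] at h3 h4
      omega

/-- the comparison function of the minor arc estimate -/
noncomputable def EQ (X q : ℕ) (t : ℝ) : ℝ := X / Real.sqrt q + t + Real.sqrt (X * q)

theorem EQ_nonneg (X q : ℕ) (t : ℝ) (ht : 0 ≤ t) : 0 ≤ EQ X q t := by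
  unfold EQ
  positivity

theorem EQ_sq (X q : ℕ) (t : ℝ) (ht : 0 ≤ t) :
    (X : ℝ) ^ 2 / q + t ^ 2 + X * q ≤ EQ X q t ^ 2 := by
  unfold EQ
  have h1 : ((X : ℝ) / Real.sqrt q) ^ 2 = (X : ℝ) ^ 2 / q := by
    rw [div_pow, Real.sq_sqrt (by positivity)]
  have h2 : (Real.sqrt (X * q)) ^ 2 = X * q := Real.sq_sqrt (by positivity)
  have h3 : 0 ≤ (X : ℝ) / Real.sqrt q := by positivity
  have h4 : 0 ≤ Real.sqrt ((X : ℝ) * q) := by positivity
  rw [← h1]
  have h5 : (Real.sqrt (X * q)) ^ 2 = X * q := h2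
  have h6 := mul_nonneg h3 ht
  have h7 := mul_nonneg h3 h4
  have h8 := mul_nonneg ht h4
  nlinarith

/-- fifth root parameters: `x = X^(1/5)`, `U = ⌊x^2⌋` -/
theorem params (X : ℕ) (hX : 1 ≤ X) :
    ∃ x : ℝ, ∃ U : ℕ, 1 ≤ x ∧ x ^ 5 = X ∧ x ^ 4 = (X : ℝ) ^ (4 / 5 : ℝ) ∧
      x ^ 9 = ((X : ℝ) ^ (9 / 10 : ℝ)) ^ 2 ∧ 1 ≤ U ∧ (U : ℝ) ≤ x ^ 2 ∧ x ^ 2 ≤ U + 1 := by
  have hX0 : (1 : ℝ) ≤ X := by exact_mod_cast hX
  have hX1 : (0 : ℝ) ≤ X := by linarith
  refine ⟨(X : ℝ) ^ (1 / 5 : ℝ), ⌊((X : ℝ) ^ (1 / 5 : ℝ)) ^ 2⌋₊, ?_, ?_, ?_, ?_, ?_, ?_, ?_⟩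
  · exact Real.one_le_rpow hX0 (by norm_num)
  · rw [← Real.rpow_natCast, ← Real.rpow_mul hX1]
    norm_num
  · rw [← Real.rpow_natCast, ← Real.rpow_mul hX1]
    norm_num
  · rw [← Real.rpow_natCast, ← Real.rpow_mul hX1, ← Real.rpow_natCast, ← Real.rpow_mul hX1]
    norm_num
  · rw [Nat.one_le_floor_iff]
    exact one_le_pow₀ (Real.one_le_rpow hX0 (by norm_num))
  · exact Nat.floor_le (by positivity)
  · exact (Nat.lt_floor_add_one _).le

/-- a dyadic block of the type II sum -/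
theorem block_II :
    ∃ C : ℝ, 0 < C ∧ ∀ (α B x : ℝ) (a : ℤ) (q L U X : ℕ) (u : ℕ → ℂ), 2 ≤ X → 1 ≤ q → q ≤ X →
      IsCoprime a (q : ℤ) → |α - a / q| ≤ 1 / (q : ℝ) ^ 2 →
      1 ≤ x → x ^ 5 = X → 1 ≤ U → (U : ℝ) ≤ x ^ 2 → x ^ 2 ≤ U + 1 → U ≤ L → 0 ≤ B →
      (L ≤ X → ∑ l ∈ Ioc L (2 * L), ‖u l‖ ^ 2 ≤ B * L * Real.log X) →
        ‖∑ l ∈ Ioc L (2 * L), u l * ∑ j ∈ Ioc U (X / l), (bU U j : ℂ) * e ((l * j : ℕ) * α)‖ ≤
          C * Real.sqrt B * EQ X q (x ^ 4) * (Real.log X) ^ 3 := by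
  obtain ⟨C, hC, hII⟩ := type_II
  refine ⟨Real.sqrt (486 * C), by positivity, ?_⟩
  intro α B x a q L U X u hX hq hqX hcop hα hx hx5 hU hUx hxU hUL hB hu
  have hLg := half_le_log X hX
  set W := Real.log X with hW
  have hE := EQ_nonneg X q (x ^ 4) (by positivity)
  by_cases hcase : X / (L + 1) ≤ U
  · -- all inner sums are empty
    have h1 : ∑ l ∈ Ioc L (2 * L), u l * ∑ j ∈ Ioc U (X / l), (bU U j : ℂ) *
        e ((l * j : ℕ) * α) = 0 := by
      refine Finset.sum_eq_zero fun l hl => ?_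
      rw [Finset.mem_Ioc] at hl
      have h2 : X / l ≤ X / (L + 1) := Nat.div_le_div_left (by omega) (by omega)
      rw [Finset.Ioc_eq_empty_of_le (h2.trans hcase), Finset.sum_empty, mul_zero]
    rw [h1, norm_zero]
    have : 0 ≤ W := by linarith
    positivity
  · push Not at hcase
    have hL1 : 1 ≤ L := le_trans hU hUL
    have h1 : (U + 1) * (L + 1) ≤ X := by
      have : U + 1 ≤ X / (L + 1) := hcase
      exact (Nat.le_div_iff_mul_le (by omega)).mp this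
    have h2 : L * (U + 1) ≤ X := by nlinarith
    set J := X / L with hJ
    have hJ1 : 1 ≤ J := by
      rw [hJ, Nat.one_le_div_iff (by omega)]
      nlinarith
    have hLJ : L * J ≤ X := Nat.mul_div_le X L
    have hXJ : X / (L + 1) ≤ J := Nat.div_le_div_left (by omega) (by omega)
    have hLX : L ≤ X := le_trans (Nat.le_mul_of_pos_right L (by omega)) h2
    have hJX : J ≤ X := Nat.div_le_self _ _
    have h3 := hII α a q L J U X u (fun j => (bU U j : ℂ)) hq hcop hα hL1 hJ1 hLJ hXJ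
    -- the two square sums
    have h4 := hu hLX
    have h5 : ∑ j ∈ Ioc U J, ‖(bU U j : ℂ)‖ ^ 2 ≤ 27 * J * W ^ 3 := by
      have h6 : ∑ j ∈ Ioc U J, ‖(bU U j : ℂ)‖ ^ 2 ≤ ∑ j ∈ Icc 1 J, ((j.divisors.card : ℝ)) ^ 2 := by
        refine le_trans (Finset.sum_le_sum (g := fun j => ((j.divisors.card : ℝ)) ^ 2)
          fun j _ => ?_) ?_
        · rw [Complex.norm_real, Real.norm_eq_abs]
          exact pow_le_pow_left₀ (abs_nonneg _) (abs_bU_le U j) 2
        · refine Finset.sum_le_sum_of_subset_of_nonneg ?_ (fun _ _ _ => sq_nonneg _)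
          intro j hj
          rw [Finset.mem_Ioc] at hj
          rw [Finset.mem_Icc]
          omega
      have h7 := sum_divisors_sq_le J hJ1
      have h8 : Real.log J ≤ W := Real.log_le_log (by exact_mod_cast hJ1) (by exact_mod_cast hJX)
      have h9 : 0 ≤ Real.log J := Real.log_natCast_nonneg _
      have h10 : (1 + Real.log J) ^ 3 ≤ (3 * W) ^ 3 :=
        pow_le_pow_left₀ (by linarith) (by linarith) 3
      calc _ ≤ (J : ℝ) * (1 + Real.log J) ^ 3 := h6.trans h7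
        _ ≤ J * (3 * W) ^ 3 := mul_le_mul_of_nonneg_left h10 (by positivity)
        _ = _ := by ring
    -- the logarithm
    have hXR : (2 : ℝ) ≤ X := by exact_mod_cast hX
    have hqR : (1 : ℝ) ≤ q := by exact_mod_cast hq
    have hqXR : (q : ℝ) ≤ X := by exact_mod_cast hqX
    have h6 : Real.log (2 * q * X) ≤ 3 * W := by
      have h7 : Real.log (2 * q * X) ≤ Real.log ((X : ℝ) ^ 3) := by
        apply Real.log_le_log (by positivity)
        calc (2 : ℝ) * q * X ≤ X * X * X := by gcongr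
          _ = _ := by ring
      rw [Real.log_pow] at h7
      exact_mod_cast h7
    -- the sizes
    have hx0 : 0 < x := by linarith
    have h7 : (L : ℝ) ≤ x ^ 3 := by
      have h8 : (L : ℝ) * (U + 1) ≤ x ^ 5 := by
        rw [hx5]
        exact_mod_cast h2
      have h9 : (L : ℝ) * x ^ 2 ≤ x ^ 3 * x ^ 2 := by
        calc _ ≤ (L : ℝ) * (U + 1) := by gcongr
          _ ≤ x ^ 5 := h8
          _ = _ := by ring
      exact le_of_mul_le_mul_right h9 (by positivity)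
    have h8 : (J : ℝ) ≤ 2 * x ^ 3 := by
      have h9 : (L : ℝ) * J ≤ x ^ 5 := by
        rw [hx5]
        exact_mod_cast hLJ
      have h10 : x ^ 2 ≤ 2 * L := by
        have : (U : ℝ) ≤ L := by exact_mod_cast hUL
        have : (1 : ℝ) ≤ U := by exact_mod_cast hU
        linarith
      have h11 : (J : ℝ) * x ^ 2 ≤ 2 * x ^ 3 * x ^ 2 := by
        calc (J : ℝ) * x ^ 2 ≤ J * (2 * L) := by gcongr
          _ = 2 * (L * J) := by ring
          _ ≤ 2 * x ^ 5 := by gcongr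
          _ = _ := by ring
      exact le_of_mul_le_mul_right h11 (by positivity)
    have h9 := EQ_sq X q (x ^ 4) (by positivity)
    set E := EQ X q (x ^ 4) with hEdef
    have hW0 : 0 ≤ W := by linarith
    have hLJR : (L : ℝ) * J ≤ X := by exact_mod_cast hLJ
    have h10 : ((X : ℝ)) * (X / q + L + J + q) ≤ 3 * E ^ 2 := by
      have h11 : (X : ℝ) * (X / q + L + J + q) ≤
          (X : ℝ) ^ 2 / q + 3 * (x ^ 4) ^ 2 + X * q := by
        have h12 : (X : ℝ) * (L + J) ≤ 3 * (x ^ 4) ^ 2 := by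
          calc (X : ℝ) * (L + J) ≤ X * (x ^ 3 + 2 * x ^ 3) := by gcongr
            _ = x ^ 5 * (x ^ 3 + 2 * x ^ 3) := by rw [hx5]
            _ = _ := by ring
        have h13 : (X : ℝ) * (X / q) = (X : ℝ) ^ 2 / q := by ring
        calc _ = (X : ℝ) * (X / q) + X * (L + J) + X * q := by ring
          _ ≤ _ := by rw [h13]; linarith
      have h14 : 0 ≤ (X : ℝ) ^ 2 / q := by positivity
      have h15 : 0 ≤ (X : ℝ) * q := by positivity
      linarith
    have h11 : ‖∑ l ∈ Ioc L (2 * L), u l * ∑ j ∈ Ioc U (X / l), (bU U j : ℂ) *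
        e ((l * j : ℕ) * α)‖ ^ 2 ≤ (Real.sqrt (486 * C) * Real.sqrt B * E * W ^ 3) ^ 2 := by
      have h12 : (0 : ℝ) ≤ X / q + L + J + q := by positivity
      calc _ ≤ C * (∑ l ∈ Ioc L (2 * L), ‖u l‖ ^ 2) * (∑ j ∈ Ioc U J, ‖(bU U j : ℂ)‖ ^ 2) *
            (X / q + L + J + q) * Real.log (2 * q * X) := h3
        _ ≤ C * (B * L * W) * (27 * J * W ^ 3) * (X / q + L + J + q) * (3 * W) := by
          have h13 : 0 ≤ ∑ l ∈ Ioc L (2 * L), ‖u l‖ ^ 2 := Finset.sum_nonneg fun _ _ => sq_nonneg _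
          have h14 : 0 ≤ ∑ j ∈ Ioc U J, ‖(bU U j : ℂ)‖ ^ 2 :=
            Finset.sum_nonneg fun _ _ => sq_nonneg _
          have h15 : 0 ≤ Real.log (2 * q * X) := by
            apply Real.log_nonneg
            nlinarith
          gcongr
        _ = 81 * C * B * W ^ 5 * (L * J) * (X / q + L + J + q) := by ring
        _ ≤ 81 * C * B * W ^ 5 * X * (X / q + L + J + q) := by gcongr
        _ = 81 * C * B * W ^ 5 * (X * (X / q + L + J + q)) := by ring
        _ ≤ 81 * C * B * W ^ 5 * (3 * E ^ 2) := by gcongr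
        _ = 243 * C * B * E ^ 2 * W ^ 5 * 1 := by ring
        _ ≤ 243 * C * B * E ^ 2 * W ^ 5 * (2 * W) := by
          gcongr
          linarith
        _ = (486 * C) * B * E ^ 2 * (W ^ 3) ^ 2 := by ring
        _ = _ := by
          rw [mul_pow, mul_pow, mul_pow, Real.sq_sqrt (by positivity), Real.sq_sqrt hB]
    have h12 := abs_le_of_sq_le_sq h11 (by positivity)
    rwa [abs_of_nonneg (norm_nonneg _)] at h12

/-- the full type II sum -/
theorem full_II :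
    ∃ C : ℝ, 0 < C ∧ ∀ (α B x : ℝ) (a : ℤ) (q U X : ℕ) (u : ℕ → ℂ), 2 ≤ X → 1 ≤ q → q ≤ X →
      IsCoprime a (q : ℤ) → |α - a / q| ≤ 1 / (q : ℝ) ^ 2 →
      1 ≤ x → x ^ 5 = X → 1 ≤ U → (U : ℝ) ≤ x ^ 2 → x ^ 2 ≤ U + 1 → 0 ≤ B →
      (∀ L : ℕ, 1 ≤ L → L ≤ X → ∑ l ∈ Ioc L (2 * L), ‖u l‖ ^ 2 ≤ B * L * Real.log X) →
        ‖∑ l ∈ Ioc U X, u l * ∑ j ∈ Ioc U (X / l), (bU U j : ℂ) * e ((l * j : ℕ) * α)‖ ≤
          C * Real.sqrt B * EQ X q (x ^ 4) * (Real.log X) ^ 4 := by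
  obtain ⟨C, hC, hb⟩ := block_II
  refine ⟨4 * C, by positivity, ?_⟩
  intro α B x a q U X u hX hq hqX hcop hα hx hx5 hU hUx hxU hB hu
  have hLg := half_le_log X hX
  have hE := EQ_nonneg X q (x ^ 4) (by positivity)
  set F : ℕ → ℂ := fun l => u l * ∑ j ∈ Ioc U (X / l), (bU U j : ℂ) * e ((l * j : ℕ) * α) with hF
  set I := Nat.log 2 X + 1 with hI
  have h1 : X < 2 ^ I := Nat.lt_pow_succ_log_self (by norm_num) X
  have h2 : X ≤ 2 ^ I * U := le_trans h1.le (Nat.le_mul_of_pos_right _ (by omega))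
  have h3 : ∑ l ∈ Ioc U X, F l = ∑ l ∈ Ioc U (2 ^ I * U), F l := by
    apply Finset.sum_subset
    · exact Finset.Ioc_subset_Ioc_right h2
    · intro l hl hl'
      rw [Finset.mem_Ioc] at hl hl'
      have h4 : X < l := by omega
      have h5 : X / l = 0 := Nat.div_eq_of_lt h4
      simp only [hF, h5]
      rw [Finset.Ioc_eq_empty_of_le (Nat.zero_le _), Finset.sum_empty, mul_zero]
  rw [h3, dyadic]
  have h4 : ∀ i ∈ range I, ‖∑ l ∈ Ioc (2 ^ i * U) (2 * (2 ^ i * U)), F l‖ ≤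
      C * Real.sqrt B * EQ X q (x ^ 4) * (Real.log X) ^ 3 := by
    intro i _
    have h5 : U ≤ 2 ^ i * U := Nat.le_mul_of_pos_left U (by positivity)
    exact hb α B x a q (2 ^ i * U) U X u hX hq hqX hcop hα hx hx5 hU hUx hxU h5 hB
      (hu (2 ^ i * U) (hU.trans h5))
  refine (norm_sum_le _ _).trans ((Finset.sum_le_sum h4).trans ?_)
  rw [Finset.sum_const, Finset.card_range, nsmul_eq_mul]
  have h5 : (I : ℝ) ≤ 4 * Real.log X := by
    have h6 : (Nat.log 2 X : ℝ) * Real.log 2 ≤ Real.log X := by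
      have h7 : (2 : ℝ) ^ (Nat.log 2 X) ≤ X := by exact_mod_cast Nat.pow_log_le_self 2 (by omega)
      have h8 := Real.log_le_log (by positivity) h7
      rwa [Real.log_pow] at h8
    have h7 := Real.log_two_gt_d9
    have h8 : (0 : ℝ) ≤ (Nat.log 2 X : ℝ) := by positivity
    rw [hI]
    push_cast
    nlinarith
  have h6 : 0 ≤ C * Real.sqrt B * EQ X q (x ^ 4) * (Real.log X) ^ 3 := by
    have : 0 ≤ Real.log X := by linarith
    positivity
  calc (I : ℝ) * (C * Real.sqrt B * EQ X q (x ^ 4) * (Real.log X) ^ 3) ≤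
      (4 * Real.log X) * (C * Real.sqrt B * EQ X q (x ^ 4) * (Real.log X) ^ 3) :=
        mul_le_mul_of_nonneg_right h5 h6
    _ = _ := by ring

theorem psi_sum_le (X : ℕ) : ∑ n ∈ Icc 1 X, (Λ n : ℝ) ≤ (Real.log 4 + 4) * X := by
  have h1 := Chebyshev.psi_le_const_mul_self (x := (X : ℝ)) (by positivity)
  unfold Chebyshev.psi at h1
  rw [Nat.floor_natCast] at h1
  have h2 : Icc 1 X = Ioc 0 X := by
    ext n
    simp only [Finset.mem_Icc, Finset.mem_Ioc]
    omega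
  rw [h2]
  exact h1

theorem norm_Lam_sum_le (X : ℕ) (α : ℝ) :
    ‖∑ n ∈ Icc 1 X, ((Λ n : ℝ) : ℂ) * e (n * α)‖ ≤ (Real.log 4 + 4) * X := by
  refine (norm_sum_le _ _).trans (le_trans (le_of_eq ?_) (psi_sum_le X))
  refine Finset.sum_congr rfl fun n _ => ?_
  rw [norm_mul, norm_e', mul_one, Complex.norm_real,
    Real.norm_of_nonneg ArithmeticFunction.vonMangoldt_nonneg]

theorem abs_mu_le (n : ℕ) : |((μ n : ℤ) : ℝ)| ≤ 1 := by
  exact_mod_cast ArithmeticFunction.abs_moebius_le_one (n := n)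

theorem norm_mu_sum_le (X : ℕ) (α : ℝ) :
    ‖∑ n ∈ Icc 1 X, ((μ n : ℝ) : ℂ) * e (n * α)‖ ≤ X := by
  refine (norm_sum_le _ _).trans (le_trans (Finset.sum_le_sum (g := fun _ => (1 : ℝ))
    fun n _ => ?_) ?_)
  · rw [norm_mul, norm_e', mul_one, Complex.norm_real, Real.norm_eq_abs]
    exact abs_mu_le n
  · simp

theorem parts_le_EQ (t : ℝ) (q X : ℕ) (hq : 1 ≤ q)
    (hqX : q ≤ X) (T : ℝ) (hT : T ≤ t) :
    (X : ℝ) / q + T + q ≤ EQ X q t := by
  have hqR : (1 : ℝ) ≤ q := by exact_mod_cast hq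
  have hqXR : (q : ℝ) ≤ X := by exact_mod_cast hqX
  unfold EQ
  have h1 : (X : ℝ) / q ≤ X / Real.sqrt q := by
    apply div_le_div_of_nonneg_left (by positivity) (by positivity)
    rw [Real.sqrt_le_left (by positivity)]
    nlinarith
  have h2 : (q : ℝ) ≤ Real.sqrt (X * q) := by
    apply Real.le_sqrt_of_sq_le
    nlinarith
  linarith

theorem log_qX_le (q X : ℕ) (hX : 2 ≤ X) (hq : 1 ≤ q) (hqX : q ≤ X) :
    Real.log (2 * q * X) ≤ 3 * Real.log X := by
  have hXR : (2 : ℝ) ≤ X := by exact_mod_cast hX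
  have hqR : (1 : ℝ) ≤ q := by exact_mod_cast hq
  have hqXR : (q : ℝ) ≤ X := by exact_mod_cast hqX
  have h7 : Real.log (2 * q * X) ≤ Real.log ((X : ℝ) ^ 3) := by
    apply Real.log_le_log (by positivity)
    calc (2 : ℝ) * q * X ≤ X * X * X := by gcongr
      _ = _ := by ring
  rw [Real.log_pow] at h7
  exact_mod_cast h7

theorem minor_Q :
    ∃ C : ℝ, 0 < C ∧ ∀ (α : ℝ) (a : ℤ) (q X : ℕ), 2 ≤ X → 1 ≤ q → IsCoprime a (q : ℤ) →
      |α - a / q| ≤ 1 / (q : ℝ) ^ 2 →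
        ‖∑ n ∈ Icc 1 X, ((Λ n : ℝ) : ℂ) * e (n * α)‖ ≤
          C * (X / Real.sqrt q + (X : ℝ) ^ (4 / 5 : ℝ) + Real.sqrt (X * q)) * (Real.log X) ^ 4 := by
  obtain ⟨C1, hC1, hI⟩ := type_I
  obtain ⟨C2, hC2, hIl⟩ := type_I_log
  obtain ⟨C3, hC3, hII⟩ := full_II
  obtain ⟨C4, hC4, hsq⟩ := sum_vonMangoldt_sq_le
  have hl4 : 0 ≤ Real.log 4 := Real.log_nonneg (by norm_num)
  refine ⟨16 * (Real.log 4 + 4) + 36 * C2 + 12 * C1 + C3 * Real.sqrt (8 * C4), by positivity, ?_⟩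
  intro α a q X hX hq hcop hα
  have hLg := half_le_log X hX
  obtain ⟨x, U, hx, hx5, hx4, -, hU, hUx, hxU⟩ := params X (by omega)
  rw [← hx4]
  change _ ≤ _ * EQ X q (x ^ 4) * _
  set W := Real.log X with hW
  have hE := EQ_nonneg X q (x ^ 4) (by positivity)
  have hW0 : 0 ≤ W := by linarith
  have hW4 : 1 ≤ 16 * W ^ 4 := by
    have : (1 / 2 : ℝ) ^ 4 ≤ W ^ 4 := pow_le_pow_left₀ (by norm_num) hLg 4
    linarith
  have hW2 : W ^ 2 ≤ 4 * W ^ 4 := by
    have : (1 / 2 : ℝ) ^ 2 ≤ W ^ 2 := pow_le_pow_left₀ (by norm_num) hLg 2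
    nlinarith [sq_nonneg W]
  have hpos : 0 ≤ 36 * C2 + 12 * C1 + C3 * Real.sqrt (8 * C4) := by positivity
  have hX0 : (0 : ℝ) ≤ X := by positivity
  by_cases hqX : q ≤ X
  · have hx0 : 0 < x := by linarith
    have hx24 : x ^ 2 ≤ x ^ 4 := pow_le_pow_right₀ hx (by norm_num)
    have hUU : ((U * U : ℕ) : ℝ) ≤ x ^ 4 := by
      push_cast
      calc (U : ℝ) * U ≤ x ^ 2 * x ^ 2 := by gcongr
        _ = _ := by ring
    have hUUX : U * U ≤ X := by
      have : ((U * U : ℕ) : ℝ) ≤ X := by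
        rw [← hx5]
        exact hUU.trans (pow_le_pow_right₀ hx (by norm_num))
      exact_mod_cast this
    have hUX : U ≤ X := le_trans (Nat.le_mul_of_pos_left U hU) hUUX
    have hlog := log_qX_le q X hX hq hqX
    have hlog0 : 0 ≤ Real.log (2 * q * X) :=
      le_trans (Real.log_nonneg (by norm_num)) (log_two_le_qX q X hq (by omega))
    -- the decomposition
    have hsplit : ∑ n ∈ Icc 1 X, ((Λ n : ℝ) : ℂ) * e (n * α) =
        ∑ n ∈ Icc 1 U, ((Λ n : ℝ) : ℂ) * e (n * α) +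
          ∑ n ∈ Ioc U X, ((Λ n : ℝ) : ℂ) * e (n * α) := by
      rw [← Finset.sum_union]
      · congr 1
        ext n
        simp only [Finset.mem_union, Finset.mem_Icc, Finset.mem_Ioc]
        omega
      · rw [Finset.disjoint_left]
        intro l h3 h4
        rw [Finset.mem_Icc] at h3
        rw [Finset.mem_Ioc] at h4
        omega
    have hv := vaughan U U X (fun n => e (n * α))
    have hT0 := norm_Lam_sum_le U α
    have hT1 := hIl α 1 a q U X (fun m => ((μ m : ℝ) : ℂ)) hq hcop hα hUX (by omega)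
      (fun m _ => by
        rw [Complex.norm_real, Real.norm_eq_abs]
        exact abs_mu_le m) zero_le_one
    have hT2 := hI α W a q (U * U) X (fun m => (cUV U U m : ℂ)) hq hcop hα hUUX (by omega)
      (fun m hm => by
        rw [Finset.mem_Icc] at hm
        rw [Complex.norm_real, Real.norm_eq_abs]
        refine (abs_cUV_le U U m hm.1).trans ?_
        exact Real.log_le_log (by exact_mod_cast hm.1) (by exact_mod_cast hm.2.trans hUUX)) hW0
    have hT3 := hII α (8 * C4) x a q U X (fun l => ((Λ l : ℝ) : ℂ)) hX hq hqX hcop hα hx hx5 hU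
      hUx hxU (by positivity) (fun L hL hLX => by
        have h1 : ∑ l ∈ Ioc L (2 * L), ‖((Λ l : ℝ) : ℂ)‖ ^ 2 ≤ ∑ n ∈ Icc 1 (2 * L), (Λ n) ^ 2 := by
          refine le_trans (le_of_eq (Finset.sum_congr rfl fun l _ => ?_))
            (Finset.sum_le_sum_of_subset_of_nonneg (f := fun n => (Λ n : ℝ) ^ 2) ?_
              (fun _ _ _ => sq_nonneg _))
          · rw [Complex.norm_real, Real.norm_eq_abs, sq_abs]
          · intro j hj
            rw [Finset.mem_Ioc] at hj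
            rw [Finset.mem_Icc]
            omega
        have h2 := hsq (2 * L) (by omega)
        have h3 : Real.log ((2 * L : ℕ) : ℝ) ≤ 2 * W := by
          have h4 : Real.log ((2 * L : ℕ) : ℝ) ≤ Real.log ((X : ℝ) ^ 2) := by
            apply Real.log_le_log
            · have : 0 < 2 * L := by omega
              exact_mod_cast this
            · have : 2 * L ≤ X ^ 2 := by nlinarith
              exact_mod_cast this
          rw [Real.log_pow] at h4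
          exact_mod_cast h4
        have h5 : (1 + Real.log ((2 * L : ℕ) : ℝ)) ≤ 4 * W := by linarith
        calc _ ≤ C4 * ((2 * L : ℕ) : ℝ) * (1 + Real.log ((2 * L : ℕ) : ℝ)) := h1.trans h2
          _ ≤ C4 * ((2 * L : ℕ) : ℝ) * (4 * W) := by gcongr
          _ = _ := by push_cast; ring)
    -- the four bounds
    have hP1 := parts_le_EQ (x ^ 4) q X hq hqX (U : ℝ) (hUx.trans hx24)
    have hP2 := parts_le_EQ (x ^ 4) q X hq hqX ((U * U : ℕ) : ℝ) hUU
    set E := EQ X q (x ^ 4) with hEdef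
    have hB0 : ‖∑ n ∈ Icc 1 U, ((Λ n : ℝ) : ℂ) * e (n * α)‖ ≤
        16 * (Real.log 4 + 4) * E * W ^ 4 := by
      have h1 : (U : ℝ) ≤ E := by
        have : (0 : ℝ) ≤ X / q := by positivity
        have : (0 : ℝ) ≤ q := by positivity
        linarith
      calc _ ≤ (Real.log 4 + 4) * U := hT0
        _ ≤ (Real.log 4 + 4) * E * 1 := by
          rw [mul_one]
          exact mul_le_mul_of_nonneg_left h1 (by positivity)
        _ ≤ (Real.log 4 + 4) * E * (16 * W ^ 4) := by gcongr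
        _ = _ := by ring
    have hB1 : ‖∑ m ∈ Icc 1 U, ((μ m : ℝ) : ℂ) *
        ∑ k ∈ Icc 1 (X / m), (Real.log k : ℂ) * e ((m * k : ℕ) * α)‖ ≤ 36 * C2 * E * W ^ 4 := by
      calc _ ≤ C2 * 1 * (X / q + U + q) * (Real.log (2 * q * X)) ^ 2 := hT1
        _ ≤ C2 * 1 * E * (3 * W) ^ 2 := by gcongr
        _ = 9 * C2 * E * W ^ 2 := by ring
        _ ≤ 9 * C2 * E * (4 * W ^ 4) := by gcongr
        _ = _ := by ring
    have hB2 : ‖∑ m ∈ Icc 1 (U * U), (cUV U U m : ℂ) *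
        ∑ k ∈ Icc 1 (X / m), e ((m * k : ℕ) * α)‖ ≤ 12 * C1 * E * W ^ 4 := by
      calc _ ≤ C1 * W * (X / q + ((U * U : ℕ) : ℝ) + q) * Real.log (2 * q * X) := hT2
        _ ≤ C1 * W * E * (3 * W) := by gcongr
        _ = 3 * C1 * E * W ^ 2 := by ring
        _ ≤ 3 * C1 * E * (4 * W ^ 4) := by gcongr
        _ = _ := by ring
    rw [hsplit, hv]
    refine (norm_add_le _ _).trans ?_
    have h5 := norm_add_le (∑ m ∈ Icc 1 U, ((μ m : ℝ) : ℂ) *
        ∑ k ∈ Icc 1 (X / m), (Real.log k : ℂ) * e ((m * k : ℕ) * α) -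
        ∑ m ∈ Icc 1 (U * U), (cUV U U m : ℂ) * ∑ k ∈ Icc 1 (X / m), e ((m * k : ℕ) * α))
      (∑ l ∈ Ioc U X, ((Λ l : ℝ) : ℂ) * ∑ j ∈ Ioc U (X / l), (bU U j : ℂ) * e ((l * j : ℕ) * α))
    have h6 := norm_sub_le (∑ m ∈ Icc 1 U, ((μ m : ℝ) : ℂ) *
        ∑ k ∈ Icc 1 (X / m), (Real.log k : ℂ) * e ((m * k : ℕ) * α))
        (∑ m ∈ Icc 1 (U * U), (cUV U U m : ℂ) * ∑ k ∈ Icc 1 (X / m), e ((m * k : ℕ) * α))
    calc _ ≤ 16 * (Real.log 4 + 4) * E * W ^ 4 + ((36 * C2 * E * W ^ 4 + 12 * C1 * E * W ^ 4) +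
          C3 * Real.sqrt (8 * C4) * E * W ^ 4) := by
          refine add_le_add hB0 (h5.trans (add_le_add (h6.trans (add_le_add hB1 hB2)) hT3))
      _ = _ := by ring
  · push Not at hqX
    have h1 := norm_Lam_sum_le X α
    have h2 : (X : ℝ) ≤ EQ X q (x ^ 4) := by
      have h3 : (X : ℝ) ≤ Real.sqrt (X * q) := by
        apply Real.le_sqrt_of_sq_le
        have : (X : ℝ) ≤ q := by exact_mod_cast hqX.le
        nlinarith
      unfold EQ
      have h4 : 0 ≤ (X : ℝ) / Real.sqrt q := by positivity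
      have h5 : 0 ≤ x ^ 4 := by positivity
      linarith
    calc _ ≤ (Real.log 4 + 4) * X := h1
      _ ≤ (Real.log 4 + 4) * EQ X q (x ^ 4) * 1 := by
        rw [mul_one]
        gcongr
      _ ≤ (Real.log 4 + 4) * EQ X q (x ^ 4) * (16 * W ^ 4) := by gcongr
      _ = (16 * (Real.log 4 + 4)) * EQ X q (x ^ 4) * W ^ 4 := by ring
      _ ≤ _ := by
        gcongr
        linarith

/-- summation by parts for `∑ a m / m` -/
theorem sum_div_le (a : ℕ → ℝ) (G : ℝ) (M n : ℕ) (hn : 1 ≤ n) (hnM : n ≤ M)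
    (hG : ∀ m : ℕ, 1 ≤ m → m ≤ M → ∑ j ∈ Icc 1 m, a j ≤ m * G) :
    ∑ m ∈ Icc 1 n, a m / m ≤
      (∑ j ∈ Icc 1 n, a j) / n + G * (∑ m ∈ Icc 1 n, (1 : ℝ) / m - 1) := by
  induction n, hn using Nat.le_induction with
  | base => simp
  | succ n hn ih =>
    have h1 := ih (by omega)
    have h2 := hG n hn (by omega)
    have hn0 : (0 : ℝ) < n := by exact_mod_cast hn
    rw [Finset.sum_Icc_succ_top (by omega), Finset.sum_Icc_succ_top (by omega) a,
      Finset.sum_Icc_succ_top (by omega) (fun m : ℕ => (1 : ℝ) / m)]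
    set A := ∑ j ∈ Icc 1 n, a j with hA
    set H := ∑ m ∈ Icc 1 n, (1 : ℝ) / m with hH
    have h3 : A / n ≤ A / (n + 1 : ℕ) + G * (1 / (n + 1 : ℕ)) := by
      have h4 : A / n - A / (n + 1 : ℕ) = (A / n) / (n + 1 : ℕ) := by
        push_cast
        field_simp
        ring
      have h5 : A / n ≤ G := by
        rw [div_le_iff₀ hn0]
        linarith
      have h6 : (A / n) / (n + 1 : ℕ) ≤ G / (n + 1 : ℕ) := by gcongr
      rw [mul_one_div]
      linarith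
    have h7 : (A + a (n + 1)) / (n + 1 : ℕ) = A / (n + 1 : ℕ) + a (n + 1) / (n + 1 : ℕ) := by
      rw [add_div]
    rw [h7]
    linarith

theorem sum_divisors_sq_div_le (M : ℕ) (hM : 1 ≤ M) :
    ∑ m ∈ Icc 1 M, ((m.divisors.card : ℝ)) ^ 2 / m ≤ (1 + Real.log M) ^ 4 := by
  set G := (1 + Real.log M) ^ 3 with hGdef
  have hlM : 0 ≤ Real.log M := Real.log_natCast_nonneg _
  have hG0 : 0 ≤ G := by positivity
  have hG : ∀ m : ℕ, 1 ≤ m → m ≤ M → ∑ j ∈ Icc 1 m, ((j.divisors.card : ℝ)) ^ 2 ≤ m * G := by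
    intro m hm hmM
    refine (sum_divisors_sq_le m hm).trans ?_
    have h1 : Real.log m ≤ Real.log M := Real.log_le_log (by exact_mod_cast hm)
      (by exact_mod_cast hmM)
    have h2 : 0 ≤ Real.log m := Real.log_natCast_nonneg _
    rw [hGdef]
    gcongr
  have h1 := sum_div_le (fun m => ((m.divisors.card : ℝ)) ^ 2) G M M hM le_rfl hG
  have hM0 : (0 : ℝ) < M := by exact_mod_cast hM
  have h2 : (∑ j ∈ Icc 1 M, ((j.divisors.card : ℝ)) ^ 2) / M ≤ G := by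
    rw [div_le_iff₀ hM0]
    have := hG M hM le_rfl
    linarith
  have h3 : ∑ m ∈ Icc 1 M, (1 : ℝ) / m ≤ 1 + Real.log M := by
    have h4 := harmonic_le_one_add_log M
    rw [harmonic_eq_sum_Icc] at h4
    push_cast at h4
    simpa [one_div] using h4
  calc _ ≤ (∑ j ∈ Icc 1 M, ((j.divisors.card : ℝ)) ^ 2) / M +
        G * (∑ m ∈ Icc 1 M, (1 : ℝ) / m - 1) := h1
    _ ≤ G + G * ((1 + Real.log M) - 1) := by gcongr
    _ = _ := by rw [hGdef]; ring

theorem abs_cmu_le (U m : ℕ) :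
    |∑ d ∈ m.divisors.filter (fun d => d ≤ U ∧ m / d ≤ U), (μ d : ℝ) * (μ (m / d) : ℝ)| ≤
      (m.divisors.card : ℝ) := by
  refine (Finset.abs_sum_le_sum_abs _ _).trans ?_
  refine (Finset.sum_le_sum (g := fun _ => (1 : ℝ)) fun d _ => ?_).trans ?_
  · rw [abs_mul]
    have h1 := abs_mu_le d
    have h2 := abs_mu_le (m / d)
    calc _ ≤ (1 : ℝ) * 1 := mul_le_mul h1 h2 (abs_nonneg _) zero_le_one
      _ = 1 := one_mul 1
  · rw [Finset.sum_const, nsmul_eq_mul, mul_one]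
    exact_mod_cast Finset.card_filter_le _ _

/-- the type I sums with divisor bounded coefficients -/
theorem type_I_div :
    ∃ C : ℝ, 0 < C ∧ ∀ (α : ℝ) (a : ℤ) (q M X : ℕ) (c : ℕ → ℂ), 2 ≤ X → 1 ≤ q → q ≤ X →
      IsCoprime a (q : ℤ) → |α - a / q| ≤ 1 / (q : ℝ) ^ 2 → 1 ≤ M → M ≤ X →
      (∀ m ∈ Icc 1 M, ‖c m‖ ≤ (m.divisors.card : ℝ)) →
        ‖∑ m ∈ Icc 1 M, c m * ∑ k ∈ Icc 1 (X / m), e ((m * k : ℕ) * α)‖ ^ 2 ≤
          C * X * (X / q + M + q) * (Real.log X) ^ 5 := by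
  obtain ⟨C, hC, hV⟩ := vino_sum
  refine ⟨243 * C, by positivity, ?_⟩
  intro α a q M X c hX hq hqX hcop hα hM hMX hc
  have hLg := half_le_log X hX
  set W := Real.log X with hW
  have hW0 : 0 ≤ W := by linarith
  set g : ℕ → ℝ := fun m => gmin ((X : ℝ) / m) (m * α) with hg
  have hg0 : ∀ m, 0 ≤ g m := fun m => gmin_nonneg _ _ (by positivity)
  have h1 : ‖∑ m ∈ Icc 1 M, c m * ∑ k ∈ Icc 1 (X / m), e ((m * k : ℕ) * α)‖ ≤
      ∑ m ∈ Icc 1 M, ((m.divisors.card : ℝ) * Real.sqrt (g m)) * Real.sqrt (g m) := by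
    refine (norm_sum_le _ _).trans (Finset.sum_le_sum fun m hm => ?_)
    rw [norm_mul, mul_assoc, Real.mul_self_sqrt (hg0 m)]
    exact mul_le_mul (hc m hm) (inner_le α m X _ le_rfl) (norm_nonneg _) (by positivity)
  have h2 : ‖∑ m ∈ Icc 1 M, c m * ∑ k ∈ Icc 1 (X / m), e ((m * k : ℕ) * α)‖ ^ 2 ≤
      (∑ m ∈ Icc 1 M, (m.divisors.card : ℝ) ^ 2 * g m) * ∑ m ∈ Icc 1 M, g m := by
    calc _ ≤ (∑ m ∈ Icc 1 M, ((m.divisors.card : ℝ) * Real.sqrt (g m)) * Real.sqrt (g m)) ^ 2 := by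
          gcongr
      _ ≤ (∑ m ∈ Icc 1 M, ((m.divisors.card : ℝ) * Real.sqrt (g m)) ^ 2) *
          ∑ m ∈ Icc 1 M, (Real.sqrt (g m)) ^ 2 := Finset.sum_mul_sq_le_sq_mul_sq _ _ _
      _ = _ := by
        congr 1
        · refine Finset.sum_congr rfl fun m _ => ?_
          rw [mul_pow, Real.sq_sqrt (hg0 m)]
        · refine Finset.sum_congr rfl fun m _ => ?_
          rw [Real.sq_sqrt (hg0 m)]
  have h3 : ∑ m ∈ Icc 1 M, (m.divisors.card : ℝ) ^ 2 * g m ≤ X * (81 * W ^ 4) := by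
    have h4 : ∑ m ∈ Icc 1 M, (m.divisors.card : ℝ) ^ 2 * g m ≤
        ∑ m ∈ Icc 1 M, X * ((m.divisors.card : ℝ) ^ 2 / m) := by
      refine Finset.sum_le_sum fun m _ => ?_
      have h5 : g m ≤ (X : ℝ) / m := gmin_le _ _ (by positivity)
      calc _ ≤ (m.divisors.card : ℝ) ^ 2 * ((X : ℝ) / m) := by gcongr
        _ = _ := by ring
    rw [← Finset.mul_sum] at h4
    have h5 := sum_divisors_sq_div_le M hM
    have h6 : Real.log M ≤ W := Real.log_le_log (by exact_mod_cast hM) (by exact_mod_cast hMX)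
    have h7 : 0 ≤ Real.log M := Real.log_natCast_nonneg _
    have h8 : (1 + Real.log M) ^ 4 ≤ (3 * W) ^ 4 := pow_le_pow_left₀ (by linarith) (by linarith) 4
    calc _ ≤ (X : ℝ) * ∑ m ∈ Icc 1 M, (m.divisors.card : ℝ) ^ 2 / m := h4
      _ ≤ X * (3 * W) ^ 4 := by
        gcongr
        exact h5.trans h8
      _ = _ := by ring
  have h4 := hV α X a q M hq hcop hα hM (by exact_mod_cast hMX)
  have h5 := (log_le_log_qX q M X hq hM hMX).trans (log_qX_le q X hX hq hqX)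
  have h6 : ∑ m ∈ Icc 1 M, g m ≤ C * (X / q + M + q) * (3 * W) := by
    refine h4.trans ?_
    gcongr
  have h7 : 0 ≤ ∑ m ∈ Icc 1 M, g m := Finset.sum_nonneg fun m _ => hg0 m
  calc _ ≤ _ := h2
    _ ≤ (X * (81 * W ^ 4)) * (C * (X / q + M + q) * (3 * W)) := by gcongr
    _ = _ := by ring

theorem minor_Q_mu :
    ∃ C : ℝ, 0 < C ∧ ∀ (α : ℝ) (a : ℤ) (q X : ℕ), 2 ≤ X → 1 ≤ q → IsCoprime a (q : ℤ) →
      |α - a / q| ≤ 1 / (q : ℝ) ^ 2 →
        ‖∑ n ∈ Icc 1 X, ((μ n : ℝ) : ℂ) * e (n * α)‖ ≤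
          C * (X / Real.sqrt q + (X : ℝ) ^ (9 / 10 : ℝ) + Real.sqrt (X * q)) * (Real.log X) ^ 5 := by
  obtain ⟨C1, hC1, hI⟩ := type_I_div
  obtain ⟨C3, hC3, hII⟩ := full_II
  refine ⟨64 + 4 * Real.sqrt (2 * C1) + 2 * (C3 * Real.sqrt 2), by positivity, ?_⟩
  intro α a q X hX hq hcop hα
  have hLg := half_le_log X hX
  obtain ⟨x, U, hx, hx5, hx4, hx9, hU, hUx, hxU⟩ := params X (by omega)
  set t := (X : ℝ) ^ (9 / 10 : ℝ) with ht
  have ht0 : 0 ≤ t := by positivity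
  change _ ≤ _ * EQ X q t * _
  set W := Real.log X with hW
  have hE := EQ_nonneg X q t ht0
  have hW0 : 0 ≤ W := by linarith
  have hx0 : 0 < x := by linarith
  have hxt : x ^ 4 ≤ t := by
    have h1 : (x ^ 4) ^ 2 ≤ t ^ 2 := by
      rw [← hx9]
      calc (x ^ 4) ^ 2 = x ^ 8 := by ring
        _ ≤ x ^ 9 := pow_le_pow_right₀ hx (by norm_num)
    exact le_of_sq_le_sq h1 ht0
  have hW5 : 1 ≤ 32 * W ^ 5 := by
    have : (1 / 2 : ℝ) ^ 5 ≤ W ^ 5 := pow_le_pow_left₀ (by norm_num) hLg 5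
    linarith
  have hX0 : (0 : ℝ) ≤ X := by positivity
  by_cases hqX : q ≤ X
  · have hx24 : x ^ 2 ≤ x ^ 4 := pow_le_pow_right₀ hx (by norm_num)
    have hUU : ((U * U : ℕ) : ℝ) ≤ x ^ 4 := by
      push_cast
      calc (U : ℝ) * U ≤ x ^ 2 * x ^ 2 := by gcongr
        _ = _ := by ring
    have hUUX : U * U ≤ X := by
      have : ((U * U : ℕ) : ℝ) ≤ X := by
        rw [← hx5]
        exact hUU.trans (pow_le_pow_right₀ hx (by norm_num))
      exact_mod_cast this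
    have hUX : U ≤ X := le_trans (Nat.le_mul_of_pos_left U hU) hUUX
    have hv := vaughan_mu U U X (fun n => e (n * α))
    rw [min_eq_left hUX] at hv
    have hT0 := norm_mu_sum_le U α
    have hT1 := hI α a q (U * U) X
      (fun m => ((∑ d ∈ m.divisors.filter (fun d => d ≤ U ∧ m / d ≤ U),
        (μ d : ℝ) * (μ (m / d) : ℝ) : ℝ) : ℂ)) hX hq hqX hcop hα (Nat.mul_pos hU hU) hUUX
      (fun m _ => by
        rw [Complex.norm_real, Real.norm_eq_abs]
        exact abs_cmu_le U m)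
    have hT3 := hII α 2 x a q U X (fun l => ((μ l : ℝ) : ℂ)) hX hq hqX hcop hα hx hx5 hU
      hUx hxU (by norm_num) (fun L hL hLX => by
        have h1 : ∑ l ∈ Ioc L (2 * L), ‖((μ l : ℝ) : ℂ)‖ ^ 2 ≤ L := by
          refine le_trans (Finset.sum_le_sum (g := fun _ => (1 : ℝ)) fun l _ => ?_) ?_
          · rw [Complex.norm_real, Real.norm_eq_abs]
            calc _ ≤ (1 : ℝ) ^ 2 := pow_le_pow_left₀ (abs_nonneg _) (abs_mu_le l) 2
              _ = 1 := one_pow 2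
          · simp only [Finset.sum_const, Nat.card_Ioc, nsmul_eq_mul, mul_one]
            have : 2 * L - L = L := by omega
            rw [this]
        have h2 : (0 : ℝ) ≤ L := by positivity
        nlinarith)
    have hEE : EQ X q (x ^ 4) ≤ EQ X q t := by
      unfold EQ
      linarith
    have hP1 := parts_le_EQ t q X hq hqX (U : ℝ) ((hUx.trans hx24).trans hxt)
    have hP2 := EQ_sq X q t ht0
    set E := EQ X q t with hEdef
    have hB0 : ‖∑ n ∈ Icc 1 U, ((μ n : ℝ) : ℂ) * e (n * α)‖ ≤ 32 * E * W ^ 5 := by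
      have h1 : (U : ℝ) ≤ E := by
        have : (0 : ℝ) ≤ X / q := by positivity
        have : (0 : ℝ) ≤ q := by positivity
        linarith
      calc _ ≤ (U : ℝ) := hT0
        _ ≤ E * 1 := by rw [mul_one]; exact h1
        _ ≤ E * (32 * W ^ 5) := by gcongr
        _ = _ := by ring
    have hB1 : ‖∑ m ∈ Icc 1 (U * U),
        ((∑ d ∈ m.divisors.filter (fun d => d ≤ U ∧ m / d ≤ U),
          (μ d : ℝ) * (μ (m / d) : ℝ) : ℝ) : ℂ) *
        ∑ k ∈ Icc 1 (X / m), e ((m * k : ℕ) * α)‖ ≤ 4 * Real.sqrt (2 * C1) * E * W ^ 5 := by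
      have h1 : (X : ℝ) * (X / q + ((U * U : ℕ) : ℝ) + q) ≤ E ^ 2 := by
        have h2 : (X : ℝ) * ((U * U : ℕ) : ℝ) ≤ t ^ 2 := by
          rw [← hx9, ← hx5]
          calc x ^ 5 * ((U * U : ℕ) : ℝ) ≤ x ^ 5 * x ^ 4 := by gcongr
            _ = _ := by ring
        calc _ = (X : ℝ) ^ 2 / q + X * ((U * U : ℕ) : ℝ) + X * q := by ring
          _ ≤ (X : ℝ) ^ 2 / q + t ^ 2 + X * q := by linarith
          _ ≤ _ := hP2
      have h3 := hT1.trans (show C1 * X * (X / q + ((U * U : ℕ) : ℝ) + q) * W ^ 5 ≤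
          (Real.sqrt (2 * C1) * E * W ^ 3) ^ 2 by
        calc _ = C1 * W ^ 5 * (X * (X / q + ((U * U : ℕ) : ℝ) + q)) * 1 := by ring
          _ ≤ C1 * W ^ 5 * E ^ 2 * (2 * W) := by
            gcongr
            linarith
          _ = (2 * C1) * E ^ 2 * (W ^ 3) ^ 2 := by ring
          _ = _ := by
            rw [mul_pow, mul_pow, Real.sq_sqrt (by positivity)])
      have h4 := abs_le_of_sq_le_sq h3 (by positivity)
      rw [abs_of_nonneg (norm_nonneg _)] at h4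
      refine h4.trans ?_
      have h5 : W ^ 3 ≤ 4 * W ^ 5 := by
        have : (1 / 2 : ℝ) ^ 2 ≤ W ^ 2 := pow_le_pow_left₀ (by norm_num) hLg 2
        have h6 : 0 ≤ W ^ 3 := by positivity
        calc W ^ 3 = W ^ 3 * 1 := by ring
          _ ≤ W ^ 3 * (4 * W ^ 2) := by
            gcongr
            linarith
          _ = _ := by ring
      calc _ ≤ Real.sqrt (2 * C1) * E * (4 * W ^ 5) := by gcongr
        _ = _ := by ring
    have hB3 : ‖∑ l ∈ Ioc U X, ((μ l : ℝ) : ℂ) *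
        ∑ j ∈ Ioc U (X / l), (bU U j : ℂ) * e ((l * j : ℕ) * α)‖ ≤
        2 * (C3 * Real.sqrt 2) * E * W ^ 5 := by
      refine hT3.trans ?_
      have h5 : W ^ 4 ≤ 2 * W ^ 5 := by
        have h6 : 0 ≤ W ^ 4 := by positivity
        calc W ^ 4 = W ^ 4 * 1 := by ring
          _ ≤ W ^ 4 * (2 * W) := by
            gcongr
            linarith
          _ = _ := by ring
      have h7 : 0 ≤ EQ X q (x ^ 4) := EQ_nonneg _ _ _ (by positivity)
      calc _ ≤ C3 * Real.sqrt 2 * E * (2 * W ^ 5) := by gcongr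
        _ = _ := by ring
    rw [hv]
    refine (norm_add_le _ _).trans ?_
    refine (add_le_add (norm_sub_le _ _) le_rfl).trans ?_
    refine (add_le_add (add_le_add (norm_add_le _ _) le_rfl) le_rfl).trans ?_
    calc _ ≤ ((32 * E * W ^ 5 + 32 * E * W ^ 5) + 4 * Real.sqrt (2 * C1) * E * W ^ 5) +
          2 * (C3 * Real.sqrt 2) * E * W ^ 5 :=
          add_le_add (add_le_add (add_le_add hB0 hB0) hB1) hB3
      _ = _ := by ring
  · push Not at hqX
    have h1 := norm_mu_sum_le X α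
    have h2 : (X : ℝ) ≤ EQ X q t := by
      have h3 : (X : ℝ) ≤ Real.sqrt (X * q) := by
        apply Real.le_sqrt_of_sq_le
        have : (X : ℝ) ≤ q := by exact_mod_cast hqX.le
        nlinarith
      unfold EQ
      have h4 : 0 ≤ (X : ℝ) / Real.sqrt q := by positivity
      linarith
    have hpos : 0 ≤ 4 * Real.sqrt (2 * C1) + 2 * (C3 * Real.sqrt 2) := by positivity
    calc _ ≤ (X : ℝ) := h1
      _ ≤ EQ X q t * 1 := by rw [mul_one]; exact h2
      _ ≤ EQ X q t * (32 * W ^ 5) := by gcongr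
      _ = 32 * EQ X q t * W ^ 5 := by ring
      _ ≤ _ := by
        gcongr
        linarith

end Pool.Agent.Lib.SW
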