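import Pool.Agent.Lib.SW.LowerCplx
import Pool.Agent.Lib.SW.Siegel

/-!
# SW-L: |L(s, χ)| ≥ c (q(|t|+2))^(-ε) for all χ ≠ 1, 1 < re s ≤ 2 (module L)

PROOF. χ² ≠ 1: `lower_cplx`. χ² = 1: let ε' = ε/8 (say), Siegel: |L(1,χ)| ≥ c q^(-ε'),
Lipschitz: |L(s,χ) - L(1,χ)| ≤ B q^(ε') |s-1| for |im s| ≤ 1 (`LSeries_sub_LFunction_one`, B ≥ 1, c ≤ 1 wlog).
Let η = c q^(-2ε')/(4 B) ≤ 1/4. (i) If σ - 1 ≤ η and |t| ≤ η: |L(s)| ≥ c q^(-ε') - B q^(ε') 2η ≥ (c/2) q^(-ε').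
(ii) If |t| > η: `lower_real`: ≥ c' η Qt^(-ε'). (iii) If |t| ≤ η and σ - 1 > η:
`inv_le`: |L(s,χ)| ≥ 1/ζ(σ) ≥ c''(σ-1) ≥ c'' η, because L(s,χ) LSeries(χμ)(s) = 1
(`DirichletCharacter.LSeries.mul_mu_eq_one`) and |LSeries(χμ)(s)| ≤ ∑ n^(-σ) ≤ C/(σ-1)
(`triv_upper_real` with q = 1, or `norm_LSeries_le..`/`zeta_strip`). Collect: all ≥ const · q^(-3ε') Qt^(-ε').
-/

open Complex

namespace Pool.Agent.Lib.SW

theorem lowerAll_norm_le {f : ℕ → ℂ} (hf : ∀ n, ‖f n‖ ≤ 1) {s : ℂ} (hs : 1 < s.re) :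
    ‖LSeries f s‖ ≤ ‖riemannZeta (s.re : ℂ)‖ := by
  have h0 : 1 < ((s.re : ℝ) : ℂ).re := by rw [Complex.ofReal_re]; exact hs
  have hs1 : Summable fun n => ‖LSeries.term 1 ((s.re : ℝ) : ℂ) n‖ :=
    (LSeriesSummable_one_iff.2 h0).norm
  have hle : ∀ n, ‖LSeries.term f s n‖ ≤ ‖LSeries.term 1 ((s.re : ℝ) : ℂ) n‖ := by
    intro n
    rw [LSeries.norm_term_eq, LSeries.norm_term_eq]
    by_cases h : n = 0
    · rw [if_pos h, if_pos h]
    · rw [if_neg h, if_neg h, Pi.one_apply, norm_one, Complex.ofReal_re]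
      exact div_le_div_of_nonneg_right (hf n) (Real.rpow_nonneg (Nat.cast_nonneg n) _)
  have hs2 : Summable fun n => ‖LSeries.term f s n‖ :=
    Summable.of_nonneg_of_le (fun n => norm_nonneg _) hle hs1
  have h1 : ‖LSeries f s‖ ≤ ∑' n, ‖LSeries.term 1 ((s.re : ℝ) : ℂ) n‖ := by
    unfold LSeries
    refine (norm_tsum_le_tsum_norm hs2).trans ?_
    exact Summable.tsum_le_tsum hle hs2 hs1
  refine h1.trans (le_of_eq ?_)
  rw [← LSeries_one_eq_riemannZeta h0]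
  unfold LSeries
  have h2 : ∑' n, LSeries.term 1 ((s.re : ℝ) : ℂ) n
      = ((∑' n, ‖LSeries.term 1 ((s.re : ℝ) : ℂ) n‖ : ℝ) : ℂ) := by
    rw [Complex.ofReal_tsum]
    exact tsum_congr fun n => TrivChar_term n
  rw [h2, Complex.norm_real, Real.norm_eq_abs, abs_of_nonneg (tsum_nonneg fun n => norm_nonneg _)]

theorem lowerAll_zeta : ∃ C : ℝ, 0 < C ∧ ∀ σ : ℝ, 1 < σ → σ ≤ 2 →
    ‖riemannZeta (σ : ℂ)‖ ≤ C / (σ - 1) := by
  obtain ⟨δ, hδ, -, C, hC, h⟩ := zeta_strip 1 one_pos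
  refine ⟨C * 4, by positivity, ?_⟩
  intro σ h1 h2
  have hne : (σ : ℂ) ≠ 1 := by
    intro h3
    have h4 : σ = 1 := by exact_mod_cast h3
    linarith
  have h3 := h σ hne (by rw [Complex.ofReal_re]; linarith) (by rw [Complex.ofReal_re]; linarith)
  have h4 : ‖(σ : ℂ) - 1‖ = σ - 1 := by
    rw [← Complex.ofReal_one, ← Complex.ofReal_sub, Complex.norm_real, Real.norm_eq_abs,
      abs_of_pos (by linarith)]
  rw [h4, Complex.ofReal_im, abs_zero, zero_add, Real.rpow_one] at h3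
  refine h3.trans ?_
  have h5 : 1 ≤ 1 / (σ - 1) := by
    rw [le_div_iff₀ (by linarith)]
    linarith
  calc C * 2 * (1 + 1 / (σ - 1)) ≤ C * 2 * (2 * (1 / (σ - 1))) := by
        refine mul_le_mul_of_nonneg_left ?_ (by positivity)
        linarith
    _ = C * 4 / (σ - 1) := by ring

theorem lower_triv_bound : ∃ c : ℝ, 0 < c ∧ ∀ (q : ℕ) [NeZero q] (χ : DirichletCharacter ℂ q),
    ∀ s : ℂ, 1 < s.re → s.re ≤ 2 → c * (s.re - 1) ≤ ‖LSeries (ch χ) s‖ := by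
  obtain ⟨C, hC, hz⟩ := lowerAll_zeta
  refine ⟨1 / C, by positivity, ?_⟩
  intro q _ χ s hs1 hs2
  have h1 := DirichletCharacter.LSeries.mul_mu_eq_one χ hs1
  have h2 := congrArg norm h1
  rw [norm_mul, norm_one] at h2
  have h3 := lowerAll_norm_le (f := (fun n : ℕ => χ (n : ZMod q)) *
    (fun n : ℕ => ((ArithmeticFunction.moebius n : ℤ) : ℂ))) (s := s) (by
      intro n
      rw [Pi.mul_apply, norm_mul]
      have e1 : ‖χ (n : ZMod q)‖ ≤ 1 := DirichletCharacter.norm_le_one χ _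
      have e2 : ‖((ArithmeticFunction.moebius n : ℤ) : ℂ)‖ ≤ 1 := by
        rw [Complex.norm_intCast]
        exact_mod_cast ArithmeticFunction.abs_moebius_le_one
      calc _ ≤ (1 : ℝ) * 1 := mul_le_mul e1 e2 (norm_nonneg _) zero_le_one
        _ = 1 := one_mul 1) hs1
  have h4 := h3.trans (hz s.re hs1 hs2)
  have h5 : (1 : ℝ) ≤ ‖LSeries (ch χ) s‖ * (C / (s.re - 1)) := by
    calc (1 : ℝ) = _ := h2.symm
      _ ≤ _ := mul_le_mul_of_nonneg_left h4 (norm_nonneg _)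
  have hx : 0 < s.re - 1 := by linarith
  have h6 : ‖LSeries (ch χ) s‖ * (C / (s.re - 1)) = (‖LSeries (ch χ) s‖ * C) / (s.re - 1) := by
    ring
  rw [h6, le_div_iff₀ hx, one_mul] at h5
  rw [one_div, inv_mul_le_iff₀ hC, mul_comm C]
  exact h5

theorem lower_all (ε : ℝ) (hε : 0 < ε) :
    ∃ c : ℝ, 0 < c ∧ ∀ (q : ℕ) [NeZero q] (χ : DirichletCharacter ℂ q), χ ≠ 1 → ∀ s : ℂ,
      1 < s.re → s.re ≤ 2 → c * (Qt q s.im) ^ (-ε) ≤ ‖LSeries (ch χ) s‖ := by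
  obtain ⟨c1, hc1, H1⟩ := lower_cplx ε hε
  obtain ⟨c2', hc2', H2'⟩ := siegel (ε / 4) (by positivity)
  obtain ⟨B', hB', H3'⟩ := LSeries_sub_LFunction_one (ε / 4) (by positivity)
  obtain ⟨c4, hc4, H4⟩ := lower_real (ε / 4) (by positivity)
  obtain ⟨c5, hc5, H5⟩ := lower_triv_bound
  obtain ⟨c2, hc2, hc21, hc22⟩ : ∃ c2 : ℝ, 0 < c2 ∧ c2 ≤ 1 ∧ c2 ≤ c2' :=
    ⟨min 1 c2', lt_min one_pos hc2', min_le_left _ _, min_le_right _ _⟩
  obtain ⟨B, hB, hB1⟩ : ∃ B : ℝ, 1 ≤ B ∧ B' ≤ B := ⟨max 1 B', le_max_left _ _, le_max_right _ _⟩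
  have hB0 : 0 < B := by linarith
  set κ : ℝ := c2 / (4 * B) with hκ
  have hκ0 : 0 < κ := by positivity
  have hκ1 : κ ≤ 1 / 4 := by
    rw [hκ, div_le_iff₀ (by positivity)]
    linarith
  refine ⟨min (min c1 (c2 / 2)) (min (c4 * κ) (c5 * κ)), by positivity, ?_⟩
  intro q _ χ hχ s hs1 hs2
  have hQ2 := two_le_Qt q s.im
  have hQ1 : 1 ≤ Qt q s.im := by linarith
  have hQ0 : 0 < Qt q s.im := by linarith
  set c : ℝ := min (min c1 (c2 / 2)) (min (c4 * κ) (c5 * κ)) with hc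
  have hcc1 : c ≤ c1 := (min_le_left _ _).trans (min_le_left _ _)
  have hcc2 : c ≤ c2 / 2 := (min_le_left _ _).trans (min_le_right _ _)
  have hcc4 : c ≤ c4 * κ := (min_le_right _ _).trans (min_le_left _ _)
  have hcc5 : c ≤ c5 * κ := (min_le_right _ _).trans (min_le_right _ _)
  have hc0 : 0 < c := by rw [hc]; positivity
  by_cases h2 : χ ^ 2 = 1
  swap
  · refine le_trans ?_ (H1 q χ h2 s hs1 hs2)
    exact mul_le_mul_of_nonneg_right hcc1 (Real.rpow_nonneg hQ0.le _)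
  have hq1 : (1 : ℝ) ≤ q := by exact_mod_cast Nat.one_le_iff_ne_zero.mpr (NeZero.ne q)
  have hq0 : (0 : ℝ) < q := by linarith
  have hqQ : (q : ℝ) ≤ Qt q s.im := by
    unfold Qt
    have := abs_nonneg s.im
    nlinarith
  -- R = Q^(-e), r = q^(-e)
  set e : ℝ := ε / 4 with he
  have he0 : 0 < e := by positivity
  set R : ℝ := (Qt q s.im) ^ (-e) with hR
  set r : ℝ := (q : ℝ) ^ (-e) with hr
  have hR0 : 0 < R := Real.rpow_pos_of_pos hQ0 _
  have hr0 : 0 < r := Real.rpow_pos_of_pos hq0 _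
  have hr1 : r ≤ 1 := Real.rpow_le_one_of_one_le_of_nonpos hq1 (by linarith)
  have hRr : R ≤ r := Real.rpow_le_rpow_of_nonpos hq0 hqQ (by linarith)
  have hR1 : R ≤ 1 := hRr.trans hr1
  have hR4 : (Qt q s.im) ^ (-ε) = R ^ 4 := by
    rw [hR, ← Real.rpow_natCast, ← Real.rpow_mul hQ0.le]
    congr 1
    rw [he]
    push_cast
    ring
  have hqe : (q : ℝ) ^ e = r⁻¹ := by
    rw [hr, Real.rpow_neg hq0.le, inv_inv]
  rw [hR4]
  have hR43 : R ^ 4 ≤ R ^ 3 := pow_le_pow_of_le_one hR0.le hR1 (by norm_num)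
  have hR42 : R ^ 4 ≤ R ^ 2 := pow_le_pow_of_le_one hR0.le hR1 (by norm_num)
  have hR41 : R ^ 4 ≤ R := by
    calc R ^ 4 ≤ R ^ 1 := pow_le_pow_of_le_one hR0.le hR1 (by norm_num)
      _ = R := pow_one R
  have hRr2 : R ^ 2 ≤ r ^ 2 := pow_le_pow_left₀ hR0.le hRr 2
  -- η
  set η : ℝ := κ * r ^ 2 with hη
  have hη0 : 0 < η := by positivity
  have hr2 : r ^ 2 ≤ 1 := pow_le_one₀ hr0.le hr1
  have hη1 : η ≤ 1 / 4 := by
    rw [hη]
    nlinarith
  by_cases hσ : s.re - 1 ≤ η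
  swap
  · -- (iii)
    push Not at hσ
    calc c * R ^ 4 ≤ (c5 * κ) * r ^ 2 := by
          apply mul_le_mul hcc5 (hR42.trans hRr2) (by positivity) (by positivity)
      _ = c5 * η := by rw [hη]; ring
      _ ≤ c5 * (s.re - 1) := mul_le_mul_of_nonneg_left hσ.le hc5.le
      _ ≤ _ := H5 q χ s hs1 hs2
  by_cases ht : |s.im| ≤ η
  swap
  · -- (ii)
    push Not at ht
    have hmin : η ≤ min 1 |s.im| := le_min (by linarith) ht.le
    calc c * R ^ 4 ≤ (c4 * κ) * R ^ 3 := by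
          apply mul_le_mul hcc4 hR43 (by positivity) (by positivity)
      _ = c4 * (κ * R ^ 2) * R := by ring
      _ ≤ c4 * η * R := by
          apply mul_le_mul_of_nonneg_right _ hR0.le
          apply mul_le_mul_of_nonneg_left _ hc4.le
          rw [hη]
          exact mul_le_mul_of_nonneg_left hRr2 hκ0.le
      _ ≤ c4 * min 1 |s.im| * R := by
          apply mul_le_mul_of_nonneg_right _ hR0.le
          exact mul_le_mul_of_nonneg_left hmin hc4.le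
      _ ≤ _ := H4 q χ hχ h2 s hs1 hs2
  -- (i)
  have hn : ‖s - 1‖ ≤ 2 * η := by
    have h6 := Complex.norm_le_abs_re_add_abs_im (s - 1)
    have h7 : (s - 1).re = s.re - 1 := by simp
    have h8 : (s - 1).im = s.im := by simp
    rw [h7, h8, abs_of_pos (by linarith : 0 < s.re - 1)] at h6
    linarith
  have hL := H3' q χ hχ s hs1 hs2 (by linarith)
  have hS := H2' q χ hχ h2
  rw [hqe] at hL
  have hL2 : ‖LSeries (ch χ) s - DirichletCharacter.LFunction χ 1‖ ≤ c2 / 2 * r := by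
    refine hL.trans ?_
    calc B' * r⁻¹ * ‖s - 1‖ ≤ B * r⁻¹ * (2 * η) := by
          apply mul_le_mul _ hn (norm_nonneg _) (by positivity)
          exact mul_le_mul_of_nonneg_right hB1 (by positivity)
      _ = c2 / 2 * r := by
          rw [hη, hκ]
          field_simp
          ring
  have hS2 : c2 * r ≤ ‖DirichletCharacter.LFunction χ 1‖ := by
    refine le_trans ?_ hS
    exact mul_le_mul_of_nonneg_right hc22 hr0.le
  have h9 : ‖DirichletCharacter.LFunction χ 1‖ ≤ ‖LSeries (ch χ) s‖ +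
      ‖LSeries (ch χ) s - DirichletCharacter.LFunction χ 1‖ := by
    have := norm_sub_le (LSeries (ch χ) s) (LSeries (ch χ) s - DirichletCharacter.LFunction χ 1)
    rwa [sub_sub_cancel] at this
  calc c * R ^ 4 ≤ c2 / 2 * r := by
        apply mul_le_mul hcc2 (hR41.trans hRr) (by positivity) (by positivity)
    _ ≤ ‖LSeries (ch χ) s‖ := by linarith

end Pool.Agent.Lib.SW
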