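import Pool.Agent.Lib.SW.Leibniz
import Pool.Agent.Lib.SW.LowerAll

/-!
# SW-N: all derivatives of L'/L and 1/L are ≤ C (q(|t|+2))^ε in 1 < re s ≤ 2 (module N)

PROOFS. Strong induction on K. From `rec_L`: the term i = K is L_0 D_K (C(K,K) = 1), so
L_0 D_K = L_{K+1} - ∑_{i<K} C(K,i) L_{K-i} D_i, with |L_j| ≤ C Qt^(ε/4) (`deriv_char_le`),
|D_i| ≤ C Qt^(ε/4) (induction), |L_0| ≥ c Qt^(-ε/4) (`lower_all`; lc f 0 = f by `lc_zero`). Same for M.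
Zeta: |im s| ≥ 1, `deriv_zeta_le`, `lower_zeta` (LSeries 1 s = riemannZeta s:
`LSeries_one_eq_riemannZeta`).
-/

open Complex

namespace Pool.Agent.Lib.SW

/-- one step of the recursion -/
theorem boundsD_step (K : ℕ) (a D : ℕ → ℂ) (r : ℂ) {T e B c : ℝ} (hT : 1 ≤ T) (he : 0 < e)
    (hB : 0 ≤ B) (hc : 0 < c)
    (h : r = ∑ i ∈ Finset.range (K + 1), (K.choose i : ℂ) * (a (K - i) * D i))
    (hr : ‖r‖ ≤ B * T ^ e) (ha : ∀ j, j ≤ K → ‖a j‖ ≤ B * T ^ e)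
    (hD : ∀ i, i < K → ‖D i‖ ≤ B * T ^ e) (h0 : c * T ^ (-e) ≤ ‖a 0‖) :
    ‖D K‖ ≤ ((B + 2 ^ K * B ^ 2) / c) * T ^ (4 * e) := by
  have hT0 : 0 < T := by linarith
  have hTe : 1 ≤ T ^ e := Real.one_le_rpow hT he.le
  have hTe0 : 0 < T ^ e := by linarith
  rw [Finset.sum_range_succ, Nat.choose_self, Nat.cast_one, one_mul, Nat.sub_self] at h
  have h1 : a 0 * D K = r - ∑ i ∈ Finset.range K, (K.choose i : ℂ) * (a (K - i) * D i) := by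
    rw [h]
    ring
  have h2 : ‖∑ i ∈ Finset.range K, (K.choose i : ℂ) * (a (K - i) * D i)‖ ≤
      2 ^ K * (B * T ^ e * (B * T ^ e)) := by
    have h3 : ∀ i ∈ Finset.range K, ‖(K.choose i : ℂ) * (a (K - i) * D i)‖ ≤
        (K.choose i : ℝ) * (B * T ^ e * (B * T ^ e)) := by
      intro i hi
      rw [norm_mul, norm_mul, Complex.norm_natCast]
      have hi' := Finset.mem_range.1 hi
      have b1 := ha (K - i) (Nat.sub_le _ _)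
      have b2 := hD i hi'
      exact mul_le_mul_of_nonneg_left
        (mul_le_mul b1 b2 (norm_nonneg _) (mul_nonneg hB hTe0.le)) (Nat.cast_nonneg _)
    have h4 : (∑ i ∈ Finset.range K, (K.choose i : ℝ)) ≤ 2 ^ K := by
      have h5 := Nat.sum_range_choose K
      have h6 : (∑ i ∈ Finset.range (K + 1), (K.choose i : ℝ)) = 2 ^ K := by exact_mod_cast h5
      rw [Finset.sum_range_succ] at h6
      have h7 : (0 : ℝ) ≤ (K.choose K : ℝ) := Nat.cast_nonneg _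
      linarith
    calc ‖∑ i ∈ Finset.range K, (K.choose i : ℂ) * (a (K - i) * D i)‖
        ≤ ∑ i ∈ Finset.range K, ‖(K.choose i : ℂ) * (a (K - i) * D i)‖ := norm_sum_le _ _
      _ ≤ ∑ i ∈ Finset.range K, (K.choose i : ℝ) * (B * T ^ e * (B * T ^ e)) :=
          Finset.sum_le_sum h3
      _ = (∑ i ∈ Finset.range K, (K.choose i : ℝ)) * (B * T ^ e * (B * T ^ e)) := by
          rw [Finset.sum_mul]
      _ ≤ 2 ^ K * (B * T ^ e * (B * T ^ e)) :=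
          mul_le_mul_of_nonneg_right h4 (by positivity)
  have h8 : ‖a 0‖ * ‖D K‖ ≤ (B + 2 ^ K * B ^ 2) * (T ^ e * T ^ e) := by
    rw [← norm_mul, h1]
    have h9 := norm_sub_le r (∑ i ∈ Finset.range K, (K.choose i : ℂ) * (a (K - i) * D i))
    have h10 : B * T ^ e ≤ B * (T ^ e * T ^ e) := by
      apply mul_le_mul_of_nonneg_left _ hB
      nlinarith
    have h11 : 2 ^ K * (B * T ^ e * (B * T ^ e)) = 2 ^ K * B ^ 2 * (T ^ e * T ^ e) := by ring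
    have h12 : (B + 2 ^ K * B ^ 2) * (T ^ e * T ^ e) =
        B * (T ^ e * T ^ e) + 2 ^ K * B ^ 2 * (T ^ e * T ^ e) := by ring
    rw [h12]
    linarith
  have h13 : c * T ^ (-e) * ‖D K‖ ≤ (B + 2 ^ K * B ^ 2) * (T ^ e * T ^ e) :=
    (mul_le_mul_of_nonneg_right h0 (norm_nonneg _)).trans h8
  have h14 : ‖D K‖ ≤ ((B + 2 ^ K * B ^ 2) / c) * (T ^ e * T ^ e * T ^ e) := by
    have h15 : T ^ (-e) * T ^ e = 1 := by
      rw [← Real.rpow_add hT0]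
      simp
    have h16 : c * T ^ (-e) * ‖D K‖ * T ^ e ≤ (B + 2 ^ K * B ^ 2) * (T ^ e * T ^ e) * T ^ e :=
      mul_le_mul_of_nonneg_right h13 hTe0.le
    have h17 : c * T ^ (-e) * ‖D K‖ * T ^ e = c * ‖D K‖ := by
      calc c * T ^ (-e) * ‖D K‖ * T ^ e = c * ‖D K‖ * (T ^ (-e) * T ^ e) := by ring
        _ = c * ‖D K‖ := by rw [h15, mul_one]
    rw [h17] at h16
    rw [div_mul_eq_mul_div, le_div_iff₀ hc]
    calc ‖D K‖ * c = c * ‖D K‖ := by ring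
      _ ≤ (B + 2 ^ K * B ^ 2) * (T ^ e * T ^ e) * T ^ e := h16
      _ = (B + 2 ^ K * B ^ 2) * (T ^ e * T ^ e * T ^ e) := by ring
  have h18 : T ^ e * T ^ e * T ^ e ≤ T ^ (4 * e) := by
    rw [← Real.rpow_add hT0, ← Real.rpow_add hT0]
    exact Real.rpow_le_rpow_of_exponent_le hT (by linarith)
  exact h14.trans (mul_le_mul_of_nonneg_left h18 (by positivity))

/-- the recursion, uniformly in a parameter -/
theorem boundsD_gen {ι : Type} (T : ι → ℝ) (hT : ∀ x, 1 ≤ T x) (a D r : ι → ℕ → ℂ)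
    (ha : ∀ j : ℕ, ∀ ε : ℝ, 0 < ε → ∃ C : ℝ, 0 < C ∧ ∀ x, ‖a x j‖ ≤ C * T x ^ ε)
    (hr : ∀ j : ℕ, ∀ ε : ℝ, 0 < ε → ∃ C : ℝ, 0 < C ∧ ∀ x, ‖r x j‖ ≤ C * T x ^ ε)
    (h0 : ∀ ε : ℝ, 0 < ε → ∃ c : ℝ, 0 < c ∧ ∀ x, c * T x ^ (-ε) ≤ ‖a x 0‖)
    (hrec : ∀ x K, r x K = ∑ i ∈ Finset.range (K + 1),
      (K.choose i : ℂ) * (a x (K - i) * D x i)) :
    ∀ K : ℕ, ∀ ε : ℝ, 0 < ε → ∃ C : ℝ, 0 < C ∧ ∀ x, ‖D x K‖ ≤ C * T x ^ ε := by
  intro K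
  induction K using Nat.strong_induction_on with
  | _ K ih =>
    intro ε hε
    have hε4 : 0 < ε / 4 := by linarith
    have ih' : ∀ i : ℕ, ∃ C : ℝ, 0 < C ∧ (i < K → ∀ x, ‖D x i‖ ≤ C * T x ^ (ε / 4)) := by
      intro i
      by_cases hi : i < K
      · obtain ⟨C, hC, h⟩ := ih i hi (ε / 4) hε4
        exact ⟨C, hC, fun _ => h⟩
      · exact ⟨1, one_pos, fun h => absurd h hi⟩
    choose CD hCD hCD' using ih'
    choose CA hCA hCA' using fun j => ha j (ε / 4) hε4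
    obtain ⟨CR, hCR, hCR'⟩ := hr K (ε / 4) hε4
    obtain ⟨c, hc, hc'⟩ := h0 (ε / 4) hε4
    set B : ℝ := CR + ∑ i ∈ Finset.range (K + 1), (CD i + CA i) with hB
    have hsum : ∀ i, i ≤ K → CD i + CA i ≤ ∑ i ∈ Finset.range (K + 1), (CD i + CA i) := by
      intro i hi
      exact Finset.single_le_sum (f := fun i => CD i + CA i)
        (fun j _ => (add_pos (hCD j) (hCA j)).le) (Finset.mem_range.2 (by omega))
    have hsum0 : 0 ≤ ∑ i ∈ Finset.range (K + 1), (CD i + CA i) :=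
      Finset.sum_nonneg fun j _ => (add_pos (hCD j) (hCA j)).le
    have hBpos : 0 < B := by
      rw [hB]
      linarith
    refine ⟨(B + 2 ^ K * B ^ 2) / c, by positivity, fun x => ?_⟩
    have hT0 : 0 ≤ T x ^ (ε / 4) := Real.rpow_nonneg (by linarith [hT x]) _
    have key := boundsD_step K (a x) (D x) (r x K) (hT x) hε4 hBpos.le hc (hrec x K)
      ((hCR' x).trans (mul_le_mul_of_nonneg_right (by rw [hB]; linarith) hT0))
      (fun j hj => (hCA' j x).trans (mul_le_mul_of_nonneg_right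
        (by rw [hB]; linarith [hsum j hj, hCD j]) hT0))
      (fun i hi => (hCD' i hi x).trans (mul_le_mul_of_nonneg_right
        (by rw [hB]; linarith [hsum i hi.le, hCA i]) hT0))
      (hc' x)
    have h4 : 4 * (ε / 4) = ε := by ring
    rw [h4] at key
    exact key

/-- the parameters for characters -/
structure BoundsDIdx where
  q : ℕ
  hq : NeZero q
  χ : DirichletCharacter ℂ q
  hχ : χ ≠ 1
  s : ℂ
  h1 : 1 < s.re
  h2 : s.re ≤ 2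

theorem boundsD_T (x : BoundsDIdx) : 1 ≤ Qt x.q x.s.im := by
  have := x.hq
  linarith [two_le_Qt x.q x.s.im]

theorem boundsD_a : ∀ j : ℕ, ∀ ε : ℝ, 0 < ε → ∃ C : ℝ, 0 < C ∧ ∀ x : BoundsDIdx,
    ‖LSeries (lc (ch x.χ) j) x.s‖ ≤ C * Qt x.q x.s.im ^ ε := by
  intro j ε hε
  obtain ⟨C, hC, h⟩ := deriv_char_le j ε hε
  refine ⟨C, hC, fun x => ?_⟩
  have := x.hq
  exact h x.q x.χ x.hχ x.s x.h1 x.h2

theorem boundsD_0 : ∀ ε : ℝ, 0 < ε → ∃ c : ℝ, 0 < c ∧ ∀ x : BoundsDIdx,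
    c * Qt x.q x.s.im ^ (-ε) ≤ ‖LSeries (lc (ch x.χ) 0) x.s‖ := by
  intro ε hε
  obtain ⟨c, hc, h⟩ := lower_all ε hε
  refine ⟨c, hc, fun x => ?_⟩
  have := x.hq
  rw [lc_zero]
  exact h x.q x.χ x.hχ x.s x.h1 x.h2

theorem boundsD_one {T : ℝ} (hT : 1 ≤ T) (j : ℕ) {ε : ℝ} (hε : 0 < ε) :
    ‖(if j = 0 then (1 : ℂ) else 0)‖ ≤ 1 * T ^ ε := by
  have h1 : 1 ≤ T ^ ε := Real.one_le_rpow hT hε.le
  rw [one_mul]
  split_ifs
  · simpa using h1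
  · simp only [norm_zero]
    linarith

theorem bound_chL (K : ℕ) (ε : ℝ) (hε : 0 < ε) :
    ∃ C : ℝ, 0 < C ∧ ∀ (q : ℕ) [NeZero q] (χ : DirichletCharacter ℂ q), χ ≠ 1 → ∀ s : ℂ,
      1 < s.re → s.re ≤ 2 → ‖LSeries (lc (chL χ) K) s‖ ≤ C * (Qt q s.im) ^ ε := by
  obtain ⟨C, hC, h⟩ := boundsD_gen (fun x : BoundsDIdx => Qt x.q x.s.im) boundsD_T
    (fun x j => LSeries (lc (ch x.χ) j) x.s) (fun x j => LSeries (lc (chL x.χ) j) x.s)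
    (fun x j => LSeries (lc (ch x.χ) (j + 1)) x.s) boundsD_a
    (fun j ε hε => boundsD_a (j + 1) ε hε) boundsD_0
    (fun x K => rec_L x.χ K x.h1) K ε hε
  exact ⟨C, hC, fun q hq χ hχ s h1 h2 => h ⟨q, hq, χ, hχ, s, h1, h2⟩⟩

theorem bound_chM (K : ℕ) (ε : ℝ) (hε : 0 < ε) :
    ∃ C : ℝ, 0 < C ∧ ∀ (q : ℕ) [NeZero q] (χ : DirichletCharacter ℂ q), χ ≠ 1 → ∀ s : ℂ,
      1 < s.re → s.re ≤ 2 → ‖LSeries (lc (chM χ) K) s‖ ≤ C * (Qt q s.im) ^ ε := by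
  obtain ⟨C, hC, h⟩ := boundsD_gen (fun x : BoundsDIdx => Qt x.q x.s.im) boundsD_T
    (fun x j => LSeries (lc (ch x.χ) j) x.s) (fun x j => LSeries (lc (chM x.χ) j) x.s)
    (fun _ j => if j = 0 then (1 : ℂ) else 0) boundsD_a
    (fun j _ hε => ⟨1, one_pos, fun x => boundsD_one (boundsD_T x) j hε⟩) boundsD_0
    (fun x K => rec_M x.χ K x.h1) K ε hε
  exact ⟨C, hC, fun q hq χ hχ s h1 h2 => h ⟨q, hq, χ, hχ, s, h1, h2⟩⟩

/-- the parameters for zeta -/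
structure BoundsDIdz where
  s : ℂ
  h1 : 1 < s.re
  h2 : s.re ≤ 2
  h3 : 1 ≤ |s.im|

theorem boundsD_Tz (x : BoundsDIdz) : 1 ≤ |x.s.im| + 2 := by
  linarith [x.h3]

theorem boundsD_az : ∀ j : ℕ, ∀ ε : ℝ, 0 < ε → ∃ C : ℝ, 0 < C ∧ ∀ x : BoundsDIdz,
    ‖LSeries (lc 1 j) x.s‖ ≤ C * (|x.s.im| + 2) ^ ε := by
  intro j ε hε
  obtain ⟨C, hC, h⟩ := deriv_zeta_le j ε hε
  exact ⟨C, hC, fun x => h x.s x.h1 x.h2 x.h3⟩

theorem boundsD_0z : ∀ ε : ℝ, 0 < ε → ∃ c : ℝ, 0 < c ∧ ∀ x : BoundsDIdz,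
    c * (|x.s.im| + 2) ^ (-ε) ≤ ‖LSeries (lc 1 0) x.s‖ := by
  intro ε hε
  obtain ⟨c, hc, h⟩ := lower_zeta ε hε
  refine ⟨c, hc, fun x => ?_⟩
  rw [lc_zero, LSeries_one_eq_riemannZeta x.h1]
  exact h x.s x.h1 x.h2 x.h3

theorem bound_vL_far (K : ℕ) (ε : ℝ) (hε : 0 < ε) :
    ∃ C : ℝ, 0 < C ∧ ∀ s : ℂ, 1 < s.re → s.re ≤ 2 → 1 ≤ |s.im| →
      ‖LSeries (lc vL K) s‖ ≤ C * (|s.im| + 2) ^ ε := by
  obtain ⟨C, hC, h⟩ := boundsD_gen (fun x : BoundsDIdz => |x.s.im| + 2) boundsD_Tz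
    (fun x j => LSeries (lc 1 j) x.s) (fun x j => LSeries (lc vL j) x.s)
    (fun x j => LSeries (lc 1 (j + 1)) x.s) boundsD_az
    (fun j ε hε => boundsD_az (j + 1) ε hε) boundsD_0z
    (fun x K => rec_L_zeta K x.h1) K ε hε
  exact ⟨C, hC, fun s h1 h2 h3 => h ⟨s, h1, h2, h3⟩⟩

theorem bound_vM_far (K : ℕ) (ε : ℝ) (hε : 0 < ε) :
    ∃ C : ℝ, 0 < C ∧ ∀ s : ℂ, 1 < s.re → s.re ≤ 2 → 1 ≤ |s.im| →
      ‖LSeries (lc vM K) s‖ ≤ C * (|s.im| + 2) ^ ε := by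
  obtain ⟨C, hC, h⟩ := boundsD_gen (fun x : BoundsDIdz => |x.s.im| + 2) boundsD_Tz
    (fun x j => LSeries (lc 1 j) x.s) (fun x j => LSeries (lc vM j) x.s)
    (fun _ j => if j = 0 then (1 : ℂ) else 0) boundsD_az
    (fun j _ hε => ⟨1, one_pos, fun x => boundsD_one (boundsD_Tz x) j hε⟩) boundsD_0z
    (fun x K => rec_M_zeta K x.h1) K ε hε
  exact ⟨C, hC, fun s h1 h2 h3 => h ⟨s, h1, h2, h3⟩⟩

end Pool.Agent.Lib.SW
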