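import Pool.Agent.Lib.SW.Defs

/-!
# SW-H: non-negativity of the coefficients of `ζ L(χ₁) L(χ₂) L(χ₁χ₂)` (module H)

PROOF. Let f₁ = ch χ₁, f₂ = ch χ₂ (completely multiplicative, values 0, 1, -1), f₃ = f₁ f₂ and
a = (1 ⍟ f₁) ⍟ (f₂ ⍟ f₃) (`LSeries.convolution`, (f ⍟ g) n = ∑ over divisorsAntidiagonal).
For a completely multiplicative f: f · log = f ⍟ (f Λ) (from ∑_{d | n} Λ(d) = log n), and log is a
derivation for ⍟: (u ⍟ v) log = (u log) ⍟ v + u ⍟ (v log). Hence
a · log = a ⍟ g, g = Λ (1 + f₁ + f₂ + f₃) = Λ (1 + f₁)(1 + f₂) ≥ 0 (use commutativity and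
associativity of ⍟; e.g. work in `ArithmeticFunction ℂ` via `toArithmeticFunction`, or with
ArithmeticFunction ℝ/ℤ versions). Strong induction on n: a 1 = 1 and for n ≥ 2
a(n) log n = ∑_{d e = n} a(d) g(e) = ∑_{e > 1} a(n/e) g(e) ≥ 0 since g 1 = 0 and n/e < n.
(Alternative: `zetaMul` from Mathlib: 1 ⍟ f₁ ≥ 0 multiplicative and a look at prime powers.)
The ordering on ℂ is `open ComplexOrder`.

`coef4_LSeries`: for re s > 1, `LSeries_convolution'` three times (summability: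
`DirichletCharacter.LSeriesSummable_of_one_lt_re`, f₃ = ch χ₃ on ℕ by hypothesis) and
`LSeries_one_eq_riemannZeta`.
-/

open Complex LSeries
open scoped ComplexOrder

namespace Pool.Agent.Lib.SW

/-- multiplication by the logarithm -/
noncomputable def c4D (f : ArithmeticFunction ℂ) : ArithmeticFunction ℂ :=
  ⟨fun n => f n * (Real.log n : ℂ), by simp⟩

theorem c4D_apply (f : ArithmeticFunction ℂ) (n : ℕ) : c4D f n = f n * (Real.log n : ℂ) := rfl

theorem c4D_mul (f g : ArithmeticFunction ℂ) : c4D (f * g) = c4D f * g + f * c4D g := by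
  ext n
  rw [c4D_apply, ArithmeticFunction.add_apply, ArithmeticFunction.mul_apply,
    ArithmeticFunction.mul_apply, ArithmeticFunction.mul_apply, Finset.sum_mul,
    ← Finset.sum_add_distrib]
  apply Finset.sum_congr rfl
  intro x hx
  obtain ⟨h1, h2⟩ := Nat.mem_divisorsAntidiagonal.1 hx
  have h3 : x.1 ≠ 0 := by
    rintro h
    rw [h, zero_mul] at h1
    exact h2 h1.symm
  have h4 : x.2 ≠ 0 := by
    rintro h
    rw [h, mul_zero] at h1
    exact h2 h1.symm
  have h5 : (Real.log n : ℂ) = (Real.log x.1 : ℂ) + (Real.log x.2 : ℂ) := by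
    rw [← h1, Nat.cast_mul, Real.log_mul (by exact_mod_cast h3) (by exact_mod_cast h4)]
    push_cast
    rfl
  rw [h5, c4D_apply, c4D_apply]
  ring

/-- multiplication by the von Mangoldt function -/
noncomputable def c4L (f : ArithmeticFunction ℂ) : ArithmeticFunction ℂ :=
  ⟨fun n => f n * ((ArithmeticFunction.vonMangoldt n : ℝ) : ℂ), by simp⟩

theorem c4L_apply (f : ArithmeticFunction ℂ) (n : ℕ) :
    c4L f n = f n * ((ArithmeticFunction.vonMangoldt n : ℝ) : ℂ) := rfl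

theorem c4D_cm (f : ArithmeticFunction ℂ) (hf : ∀ m n, m ≠ 0 → n ≠ 0 → f (m * n) = f m * f n) :
    c4D f = f * c4L f := by
  ext n
  rw [c4D_apply, ArithmeticFunction.mul_apply]
  rcases eq_or_ne n 0 with rfl | hn
  · simp
  have h1 : (Real.log n : ℂ) =
      ∑ x ∈ n.divisorsAntidiagonal, ((ArithmeticFunction.vonMangoldt x.2 : ℝ) : ℂ) := by
    rw [← ArithmeticFunction.vonMangoldt_sum (n := n), ← Nat.sum_divisorsAntidiagonal'
      (f := fun _ i => ArithmeticFunction.vonMangoldt i)]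
    push_cast
    rfl
  rw [h1, Finset.mul_sum]
  apply Finset.sum_congr rfl
  intro x hx
  obtain ⟨h1, h2⟩ := Nat.mem_divisorsAntidiagonal.1 hx
  have h3 : x.1 ≠ 0 := by
    rintro h
    rw [h, zero_mul] at h1
    exact h2 h1.symm
  have h4 : x.2 ≠ 0 := by
    rintro h
    rw [h, mul_zero] at h1
    exact h2 h1.symm
  rw [← h1, hf _ _ h3 h4, c4L_apply]
  ring

theorem c4_nonneg {A G : ArithmeticFunction ℂ} (h1 : 0 ≤ A 1) (hG1 : G 1 = 0)
    (hG : ∀ n, 0 ≤ G n) (h : c4D A = A * G) (n : ℕ) : 0 ≤ A n := by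
  induction n using Nat.strong_induction_on with
  | _ n ih =>
    rcases Nat.lt_or_ge n 2 with hn | hn
    · interval_cases n
      · simp
      · exact h1
    · have hlog : 0 < Real.log n := Real.log_pos (by exact_mod_cast hn)
      have h2 : 0 ≤ c4D A n := by
        rw [h, ArithmeticFunction.mul_apply]
        apply Finset.sum_nonneg
        intro x hx
        obtain ⟨h3, h4⟩ := Nat.mem_divisorsAntidiagonal.1 hx
        rcases eq_or_ne x.2 1 with h5 | h5
        · rw [h5, hG1, mul_zero]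
        · have h6 : x.1 ≠ 0 := by
            rintro h
            rw [h, zero_mul] at h3
            exact h4 h3.symm
          have h7 : x.2 ≠ 0 := by
            rintro h
            rw [h, mul_zero] at h3
            exact h4 h3.symm
          have h8 : x.1 < n := by
            rw [← h3]
            have : 2 ≤ x.2 := by omega
            calc x.1 = x.1 * 1 := (mul_one _).symm
              _ < x.1 * x.2 := Nat.mul_lt_mul_of_pos_left (by omega) (Nat.pos_of_ne_zero h6)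
          exact mul_nonneg (ih x.1 h8) (hG x.2)
      have h3 : A n = c4D A n * (((Real.log n)⁻¹ : ℝ) : ℂ) := by
        rw [c4D_apply, mul_assoc, ← ofReal_mul, mul_inv_cancel₀ hlog.ne', ofReal_one, mul_one]
      rw [h3]
      refine mul_nonneg h2 ?_
      rw [← ofReal_zero, real_le_real]
      exact (inv_pos.2 hlog).le

theorem c4_val {q : ℕ} {χ : DirichletCharacter ℂ q} (h2 : χ ^ 2 = 1) (n : ℕ) :
    0 ≤ 1 + ch χ n := by
  unfold ch
  by_cases ha : IsUnit (n : ZMod q)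
  · have h : (χ (n : ZMod q)) ^ 2 = 1 := by
      rw [← MulChar.pow_apply' χ two_ne_zero, h2, MulChar.one_apply ha]
    have h3 : (χ (n : ZMod q) - 1) * (χ (n : ZMod q) + 1) = 0 := by linear_combination h
    rcases mul_eq_zero.1 h3 with h4 | h4
    · rw [sub_eq_zero.1 h4]
      norm_num
    · rw [eq_neg_of_add_eq_zero_left h4]
      simp
  · rw [χ.map_nonunit ha, add_zero]
    exact zero_le_one

theorem c4_ch_mul {q : ℕ} (χ : DirichletCharacter ℂ q) (m n : ℕ) :
    ch χ (m * n) = ch χ m * ch χ n := by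
  unfold ch
  rw [Nat.cast_mul, map_mul]

/-- the coefficients of `ζ(s) L(s, χ₁) L(s, χ₂) L(s, χ₁χ₂)` -/
noncomputable def coef4 {q₁ q₂ : ℕ} (χ₁ : DirichletCharacter ℂ q₁)
    (χ₂ : DirichletCharacter ℂ q₂) : ℕ → ℂ :=
  LSeries.convolution (LSeries.convolution 1 (ch χ₁))
    (LSeries.convolution (ch χ₂) (fun n => ch χ₁ n * ch χ₂ n))

theorem c4_toAF (f g : ℕ → ℂ) :
    toArithmeticFunction (LSeries.convolution f g) =
      toArithmeticFunction f * toArithmeticFunction g := by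
  ext n
  rcases eq_or_ne n 0 with rfl | hn
  · simp
  · simp [toArithmeticFunction, LSeries.convolution, hn]

theorem c4_toAF_apply (f : ℕ → ℂ) (n : ℕ) :
    toArithmeticFunction f n = if n = 0 then 0 else f n := rfl

theorem coef4_nonneg {q₁ q₂ : ℕ} (χ₁ : DirichletCharacter ℂ q₁)
    (χ₂ : DirichletCharacter ℂ q₂) (h₁ : χ₁ ^ 2 = 1) (h₂ : χ₂ ^ 2 = 1) (n : ℕ) :
    0 ≤ coef4 χ₁ χ₂ n := by
  obtain ⟨F₀, hF₀⟩ : ∃ F, F = toArithmeticFunction (1 : ℕ → ℂ) := ⟨_, rfl⟩
  obtain ⟨F₁, hF₁⟩ : ∃ F, F = toArithmeticFunction (ch χ₁) := ⟨_, rfl⟩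
  obtain ⟨F₂, hF₂⟩ : ∃ F, F = toArithmeticFunction (ch χ₂) := ⟨_, rfl⟩
  obtain ⟨F₃, hF₃⟩ : ∃ F, F = toArithmeticFunction (fun n => ch χ₁ n * ch χ₂ n) := ⟨_, rfl⟩
  have hA : coef4 χ₁ χ₂ n = (F₀ * F₁ * (F₂ * F₃)) n := by
    rw [hF₀, hF₁, hF₂, hF₃, ← c4_toAF, ← c4_toAF]
    rfl
  have d₀ : c4D F₀ = F₀ * c4L F₀ := c4D_cm _ (by
    intro m n hm hn
    simp [hF₀, c4_toAF_apply, hm, hn])
  have d₁ : c4D F₁ = F₁ * c4L F₁ := c4D_cm _ (by
    intro m n hm hn
    simp [hF₁, c4_toAF_apply, hm, hn, c4_ch_mul])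
  have d₂ : c4D F₂ = F₂ * c4L F₂ := c4D_cm _ (by
    intro m n hm hn
    simp [hF₂, c4_toAF_apply, hm, hn, c4_ch_mul])
  have d₃ : c4D F₃ = F₃ * c4L F₃ := c4D_cm _ (by
    intro m n hm hn
    simp only [hF₃, c4_toAF_apply, hm, hn, mul_eq_zero, or_self, if_false, c4_ch_mul]
    ring)
  rw [hA]
  refine c4_nonneg (G := c4L F₀ + c4L F₁ + c4L F₂ + c4L F₃) ?_ ?_ ?_ ?_ n
  · have e0 : F₀ 1 = 1 := by simp [hF₀, c4_toAF_apply]
    have e1 : F₁ 1 = 1 := by simp [hF₁, c4_toAF_apply, ch]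
    have e2 : F₂ 1 = 1 := by simp [hF₂, c4_toAF_apply, ch]
    have e3 : F₃ 1 = 1 := by simp [hF₃, c4_toAF_apply, ch]
    have : (F₀ * F₁ * (F₂ * F₃)) 1 = 1 := by
      simp [ArithmeticFunction.mul_apply, e0, e1, e2, e3]
    rw [this]
    exact zero_le_one
  · simp [ArithmeticFunction.add_apply, c4L_apply]
  · intro m
    rcases eq_or_ne m 0 with rfl | hm
    · simp
    · have e : (c4L F₀ + c4L F₁ + c4L F₂ + c4L F₃) m =
          ((ArithmeticFunction.vonMangoldt m : ℝ) : ℂ) * ((1 + ch χ₁ m) * (1 + ch χ₂ m)) := by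
        simp only [ArithmeticFunction.add_apply, c4L_apply, hF₀, hF₁, hF₂, hF₃, c4_toAF_apply, hm,
          if_false, Pi.one_apply]
        ring
      rw [e]
      refine mul_nonneg ?_ (mul_nonneg (c4_val h₁ m) (c4_val h₂ m))
      rw [← ofReal_zero, real_le_real]
      exact ArithmeticFunction.vonMangoldt_nonneg
  · rw [c4D_mul, c4D_mul, c4D_mul, d₀, d₁, d₂, d₃]
    ring

theorem coef4_one {q₁ q₂ : ℕ} (χ₁ : DirichletCharacter ℂ q₁)
    (χ₂ : DirichletCharacter ℂ q₂) : coef4 χ₁ χ₂ 1 = 1 := by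
  simp [coef4, LSeries.convolution, ArithmeticFunction.mul_apply, c4_toAF_apply, ch]

theorem coef4_LSeries {q₁ q₂ q₃ : ℕ} [NeZero q₁] [NeZero q₂] [NeZero q₃]
    (χ₁ : DirichletCharacter ℂ q₁) (χ₂ : DirichletCharacter ℂ q₂) (χ₃ : DirichletCharacter ℂ q₃)
    (h₃ : ∀ n : ℕ, ch χ₃ n = ch χ₁ n * ch χ₂ n) (s : ℂ) (hs : 1 < s.re) :
    LSeriesSummable (coef4 χ₁ χ₂) s ∧
    LSeries (coef4 χ₁ χ₂) s = riemannZeta s * DirichletCharacter.LFunction χ₁ s *
      DirichletCharacter.LFunction χ₂ s * DirichletCharacter.LFunction χ₃ s := by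
  have s0 : LSeriesSummable 1 s := LSeriesSummable_one_iff.2 hs
  have s1 : LSeriesSummable (ch χ₁) s :=
    DirichletCharacter.LSeriesSummable_of_one_lt_re χ₁ hs
  have s2 : LSeriesSummable (ch χ₂) s :=
    DirichletCharacter.LSeriesSummable_of_one_lt_re χ₂ hs
  have s3 : LSeriesSummable (fun n => ch χ₁ n * ch χ₂ n) s := by
    have h : (fun n => ch χ₁ n * ch χ₂ n) = ch χ₃ := funext fun n => (h₃ n).symm
    rw [h]
    exact DirichletCharacter.LSeriesSummable_of_one_lt_re χ₃ hs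
  have l1 : LSeries (ch χ₁) s = DirichletCharacter.LFunction χ₁ s :=
    (DirichletCharacter.LFunction_eq_LSeries χ₁ hs).symm
  have l2 : LSeries (ch χ₂) s = DirichletCharacter.LFunction χ₂ s :=
    (DirichletCharacter.LFunction_eq_LSeries χ₂ hs).symm
  have l3 : LSeries (fun n => ch χ₁ n * ch χ₂ n) s = DirichletCharacter.LFunction χ₃ s := by
    have h : (fun n => ch χ₁ n * ch χ₂ n) = ch χ₃ := funext fun n => (h₃ n).symm
    rw [h]
    exact (DirichletCharacter.LFunction_eq_LSeries χ₃ hs).symm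
  refine ⟨(s0.convolution s1).convolution (s2.convolution s3), ?_⟩
  rw [coef4, LSeries_convolution' (s0.convolution s1) (s2.convolution s3),
    LSeries_convolution' s0 s1, LSeries_convolution' s2 s3, LSeries_one_eq_riemannZeta hs,
    l1, l2, l3]
  ring

end Pool.Agent.Lib.SW
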