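import Pool.Agent.Lib.SW.Defs

/-!
# SW-A: analytic continuation with an error bound (module A)

PROOFS.

`norm_cpow_sub_le`. For `1 ≤ u ≤ v` real, `u^(-s) - v^(-s) = s ∫_u^v x^(-s-1) dx`, and
`|x^(-s-1)| = x^(-σ-1)`, so `|u^(-s) - v^(-s)| ≤ |s| ∫_u^v x^(-σ-1) dx = (|s|/σ)(u^(-σ) - v^(-σ))`.
(Or: mean value inequality `norm_image_sub_le_of_norm_deriv_le_segment...` with a comparison
function: `image_norm_le_of_norm_deriv_right_le_deriv_boundary`, f(x) = u^(-s) - x^(-s),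
B(x) = (|s|/σ)(u^(-σ) - x^(-σ)).)

`norm_cpow_one_sub_le`. `v^(1-s) - u^(1-s) = (1-s) ∫_u^v x^(-s) dx` and for x in [u,v]
`|x^(-s) - v^(-s)| ≤ (|s|/σ)(x^(-σ) - v^(-σ)) ≤ (|s|/σ)(u^(-σ) - v^(-σ))`; integrate (v - u = 1).

`continuation`. On `U = {0 < re s}` (open, convex): for a compact K in U the functions `f N` are
uniformly Cauchy on K (B is bounded on K, re s ≥ a > 0 on K, M^(-a) → 0), so they converge
uniformly on K to the pointwise limit F; hence F is differentiable on U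
(`TendstoLocallyUniformlyOn.differentiableOn`). F = g on `{1 < re s}` by `hlim` and uniqueness of
limits; both are analytic on the preconnected U (`DifferentiableOn.analyticOnNhd`,
`AnalyticOnNhd.eqOn_of_preconnected_of_eventuallyEq`), so F = g on U. Let N → ∞ in `hC`.
-/

open Complex Filter Topology

namespace Pool.Agent.Lib.SW

theorem continuation_hasDeriv (r : ℂ) {x : ℝ} (hx : 0 < x) :
    HasDerivAt (fun y : ℝ => (y : ℂ) ^ r) (r * (x : ℂ) ^ (r - 1)) x := by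
  have h1 : HasDerivAt (fun z : ℂ => z ^ r) (r * (x : ℂ) ^ (r - 1) * 1) (x : ℂ) :=
    (hasDerivAt_id (x : ℂ)).cpow_const (Or.inl (by simpa using hx))
  rw [mul_one] at h1
  exact h1.comp_ofReal

theorem norm_cpow_sub_le (s : ℂ) (hs : 0 < s.re) {u v : ℝ} (hu : 1 ≤ u) (huv : u ≤ v) :
    ‖(u : ℂ) ^ (-s) - (v : ℂ) ^ (-s)‖ ≤ ‖s‖ / s.re * (u ^ (-s.re) - v ^ (-s.re)) := by
  have h := image_norm_le_of_norm_deriv_right_le_deriv_boundary' (a := u) (b := v)
    (f := fun x : ℝ => (u : ℂ) ^ (-s) - (x : ℂ) ^ (-s))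
    (f' := fun x : ℝ => -(-s * (x : ℂ) ^ (-s - 1)))
    (B := fun x : ℝ => ‖s‖ / s.re * (u ^ (-s.re) - x ^ (-s.re)))
    (B' := fun x : ℝ => ‖s‖ / s.re * (-(-s.re * x ^ (-s.re - 1))))
    (fun x hx => ((continuation_hasDeriv (-s)
      (lt_of_lt_of_le one_pos (hu.trans hx.1))).const_sub _).continuousAt.continuousWithinAt)
    (fun x hx => ((continuation_hasDeriv (-s)
      (lt_of_lt_of_le one_pos (hu.trans hx.1))).const_sub _).hasDerivWithinAt)
    (by simp)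
    (fun x hx => (((Real.hasDerivAt_rpow_const
      (Or.inl (lt_of_lt_of_le one_pos (hu.trans hx.1)).ne')).const_sub _).const_mul
        _).continuousAt.continuousWithinAt)
    (fun x hx => (((Real.hasDerivAt_rpow_const
      (Or.inl (lt_of_lt_of_le one_pos (hu.trans hx.1)).ne')).const_sub _).const_mul
        _).hasDerivWithinAt)
    (by
      intro x hx
      have hx0 : 0 < x := lt_of_lt_of_le one_pos (hu.trans hx.1)
      rw [neg_mul, neg_neg, norm_mul, Complex.norm_cpow_eq_rpow_re_of_pos hx0]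
      have e : (-s - 1).re = -s.re - 1 := by simp
      rw [e]
      apply le_of_eq
      field_simp)
  exact h ⟨huv, le_rfl⟩

theorem norm_cpow_one_sub_le (s : ℂ) (hs : 0 < s.re) {u : ℝ} (hu : 1 ≤ u) :
    ‖((u + 1 : ℝ) : ℂ) ^ (1 - s) - (u : ℂ) ^ (1 - s) - (1 - s) * ((u + 1 : ℝ) : ℂ) ^ (-s)‖ ≤
      ‖1 - s‖ * (‖s‖ / s.re) * (u ^ (-s.re) - (u + 1) ^ (-s.re)) := by
  set v : ℝ := u + 1 with hv
  set f : ℝ → ℂ := fun x => (x : ℂ) ^ (1 - s) - (u : ℂ) ^ (1 - s) -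
    (1 - s) * ((x : ℂ) - u) * (v : ℂ) ^ (-s) with hf
  have hd : ∀ x ∈ Set.Icc u v, HasDerivWithinAt f
      ((1 - s) * (x : ℂ) ^ (1 - s - 1) - (1 - s) * 1 * (v : ℂ) ^ (-s)) (Set.Icc u v) x := by
    intro x hx
    have hx0 : 0 < x := lt_of_lt_of_le one_pos (hu.trans hx.1)
    have h1 := (continuation_hasDeriv (1 - s) hx0).sub_const ((u : ℂ) ^ (1 - s))
    have h2 : HasDerivAt (fun y : ℝ => (y : ℂ) - (u : ℂ)) 1 x :=
      (Complex.ofRealCLM.hasDerivAt (x := x)).sub_const _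
    have h3 := (h2.const_mul (1 - s)).mul_const ((v : ℂ) ^ (-s))
    exact (h1.sub h3).hasDerivWithinAt
  have hb : ∀ x ∈ Set.Ico u v,
      ‖(1 - s) * (x : ℂ) ^ (1 - s - 1) - (1 - s) * 1 * (v : ℂ) ^ (-s)‖ ≤
        ‖1 - s‖ * (‖s‖ / s.re) * (u ^ (-s.re) - v ^ (-s.re)) := by
    intro x hx
    have e : (1 - s) * (x : ℂ) ^ (1 - s - 1) - (1 - s) * 1 * (v : ℂ) ^ (-s) =
        (1 - s) * ((x : ℂ) ^ (-s) - (v : ℂ) ^ (-s)) := by
      rw [show (1 - s - 1 : ℂ) = -s by ring]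
      ring
    rw [e, norm_mul, mul_assoc]
    apply mul_le_mul_of_nonneg_left _ (norm_nonneg _)
    refine (norm_cpow_sub_le s hs (hu.trans hx.1) hx.2.le).trans ?_
    apply mul_le_mul_of_nonneg_left _ (div_nonneg (norm_nonneg _) hs.le)
    have : x ^ (-s.re) ≤ u ^ (-s.re) :=
      Real.rpow_le_rpow_of_nonpos (lt_of_lt_of_le one_pos hu) hx.1 (by linarith)
    linarith
  have h := norm_image_sub_le_of_norm_deriv_le_segment' hd hb v ⟨by rw [hv]; linarith, le_rfl⟩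
  have e1 : f v - f u = (v : ℂ) ^ (1 - s) - (u : ℂ) ^ (1 - s) - (1 - s) * (v : ℂ) ^ (-s) := by
    simp only [hf, hv]
    push_cast
    ring
  rw [e1] at h
  refine h.trans (le_of_eq ?_)
  rw [hv]
  ring

theorem continuation {g : ℂ → ℂ} (hg : DifferentiableOn ℂ g {s | 0 < s.re})
    {f : ℕ → ℂ → ℂ} (hf : ∀ N, DifferentiableOn ℂ (f N) {s | 0 < s.re})
    {B : ℂ → ℝ} (hB : ContinuousOn B {s | 0 < s.re})
    (hC : ∀ s : ℂ, 0 < s.re → ∀ M N : ℕ, 1 ≤ M → M ≤ N →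
      ‖f N s - f M s‖ ≤ B s * (M : ℝ) ^ (-s.re))
    (hlim : ∀ s : ℂ, 1 < s.re → Tendsto (fun N => f N s) atTop (𝓝 (g s))) :
    ∀ s : ℂ, 0 < s.re → ∀ M : ℕ, 1 ≤ M → ‖g s - f M s‖ ≤ B s * (M : ℝ) ^ (-s.re) := by
  set U : Set ℂ := {s | 0 < s.re} with hU
  have hUo : IsOpen U := isOpen_lt continuous_const Complex.continuous_re
  have hUc : Convex ℝ U := convex_halfSpace_re_gt 0
  have hpow : ∀ a : ℝ, 0 < a → Tendsto (fun M : ℕ => (M : ℝ) ^ (-a)) atTop (𝓝 0) := fun a ha =>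
    (tendsto_rpow_neg_atTop ha).comp tendsto_natCast_atTop_atTop
  have hcau : ∀ s ∈ U, ∃ l, Tendsto (fun N => f N s) atTop (𝓝 l) := by
    intro s hs
    apply cauchySeq_tendsto_of_complete
    have hb : Tendsto (fun M : ℕ => B s * (M : ℝ) ^ (-s.re)) atTop (𝓝 0) := by
      simpa using (hpow s.re hs).const_mul (B s)
    rw [Metric.cauchySeq_iff']
    intro ε hε
    obtain ⟨M, hM⟩ := ((hb.eventually (gt_mem_nhds hε)).and (eventually_ge_atTop 1)).exists
    refine ⟨M, fun n hn => ?_⟩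
    rw [dist_eq_norm]
    exact lt_of_le_of_lt (hC s hs M n hM.2 hn) hM.1
  choose! F hF using hcau
  have hFb : ∀ s ∈ U, ∀ M : ℕ, 1 ≤ M → ‖F s - f M s‖ ≤ B s * (M : ℝ) ^ (-s.re) := by
    intro s hs M hM
    refine le_of_tendsto ((hF s hs).sub_const (f M s)).norm ?_
    filter_upwards [eventually_ge_atTop M] with N hN
    exact hC s hs M N hM hN
  have hloc : TendstoLocallyUniformlyOn f F atTop U := by
    rw [tendstoLocallyUniformlyOn_iff_forall_isCompact hUo]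
    intro K hKU hK
    rcases K.eq_empty_or_nonempty with hKe | hKn
    · rw [hKe]
      exact tendstoUniformlyOn_empty
    obtain ⟨b, hb⟩ := hK.exists_bound_of_continuousOn (hB.mono hKU)
    obtain ⟨s₀, hs₀, hmin⟩ := hK.exists_isMinOn hKn Complex.continuous_re.continuousOn
    have ha : 0 < s₀.re := hKU hs₀
    have hlim0 : Tendsto (fun M : ℕ => b * (M : ℝ) ^ (-s₀.re)) atTop (𝓝 0) := by
      simpa using (hpow s₀.re ha).const_mul b
    rw [Metric.tendstoUniformlyOn_iff]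
    intro ε hε
    filter_upwards [hlim0.eventually (gt_mem_nhds hε), eventually_ge_atTop 1] with M hM hM1 s hs
    rw [dist_eq_norm]
    refine lt_of_le_of_lt (hFb s (hKU hs) M hM1) (lt_of_le_of_lt ?_ hM)
    have hM1' : (1 : ℝ) ≤ M := by exact_mod_cast hM1
    have h1 : (M : ℝ) ^ (-s.re) ≤ (M : ℝ) ^ (-s₀.re) :=
      Real.rpow_le_rpow_of_exponent_le hM1' (neg_le_neg (hmin hs))
    have h2 : B s ≤ b := (le_abs_self _).trans (hb s hs)
    have h3 : 0 ≤ b := (abs_nonneg _).trans (hb s hs)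
    exact mul_le_mul h2 h1 (Real.rpow_nonneg (by positivity) _) h3
  have hFd : DifferentiableOn ℂ F U :=
    hloc.differentiableOn (Eventually.of_forall hf) hUo
  have hFg : ∀ s : ℂ, 1 < s.re → F s = g s := fun s hs =>
    tendsto_nhds_unique (hF s (show 0 < s.re by linarith)) (hlim s hs)
  have h2U : (2 : ℂ) ∈ U := by
    show 0 < (2 : ℂ).re
    norm_num
  have hev : F =ᶠ[𝓝 (2 : ℂ)] g := by
    have : {s : ℂ | 1 < s.re} ∈ 𝓝 (2 : ℂ) :=
      (isOpen_lt continuous_const Complex.continuous_re).mem_nhds (by norm_num)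
    filter_upwards [this] with s hs
    exact hFg s hs
  have hEq : Set.EqOn F g U :=
    AnalyticOnNhd.eqOn_of_preconnected_of_eventuallyEq (hFd.analyticOnNhd hUo)
      (hg.analyticOnNhd hUo) hUc.isPreconnected h2U hev
  intro s hs M hM
  rw [← hEq hs]
  exact hFb s hs M hM

end Pool.Agent.Lib.SW
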