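import Mathlib

/-!
# Siegel-Walfisz library: definitions

`lc f j n = f n (log n)^j`, `ch χ` (a Dirichlet character as a function on `ℕ`), `chL χ = χ Λ`,
`chM χ = χ μ`, `vL = Λ`, `vM = μ`, `Tame f` (growth at most a power of the logarithm),
`Qt q t = q (|t| + 2)` (the analytic conductor).
-/

open Complex

namespace Pool.Agent.Lib.SW

/-- `f n * (log n) ^ j` -/
noncomputable def lc (f : ℕ → ℂ) (j : ℕ) (n : ℕ) : ℂ := f n * (((Real.log n) ^ j : ℝ) : ℂ)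

/-- a Dirichlet character as a function on `ℕ` -/
noncomputable def ch {q : ℕ} (χ : DirichletCharacter ℂ q) (n : ℕ) : ℂ := χ (n : ZMod q)

/-- `χ(n) Λ(n)` -/
noncomputable def chL {q : ℕ} (χ : DirichletCharacter ℂ q) (n : ℕ) : ℂ :=
  χ (n : ZMod q) * ((ArithmeticFunction.vonMangoldt n : ℝ) : ℂ)

/-- `χ(n) μ(n)` -/
noncomputable def chM {q : ℕ} (χ : DirichletCharacter ℂ q) (n : ℕ) : ℂ :=
  χ (n : ZMod q) * ((ArithmeticFunction.moebius n : ℤ) : ℂ)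

/-- `Λ(n)` -/
noncomputable def vL (n : ℕ) : ℂ := ((ArithmeticFunction.vonMangoldt n : ℝ) : ℂ)

/-- `μ(n)` -/
noncomputable def vM (n : ℕ) : ℂ := ((ArithmeticFunction.moebius n : ℤ) : ℂ)

/-- growth at most a power of the logarithm -/
def Tame (f : ℕ → ℂ) : Prop :=
  ∃ C : ℝ, ∃ k : ℕ, 0 ≤ C ∧ ∀ n : ℕ, 1 ≤ n → ‖f n‖ ≤ C * (1 + Real.log n) ^ k

/-- the analytic conductor `q (|t| + 2)` -/
noncomputable def Qt (q : ℕ) (t : ℝ) : ℝ := (q : ℝ) * (|t| + 2)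

theorem two_le_Qt (q : ℕ) [NeZero q] (t : ℝ) : 2 ≤ Qt q t := by
  unfold Qt
  have h1 : (1 : ℝ) ≤ q := by exact_mod_cast Nat.one_le_iff_ne_zero.mpr (NeZero.ne q)
  have h2 : 0 ≤ |t| := abs_nonneg t
  nlinarith

theorem lc_zero (f : ℕ → ℂ) : lc f 0 = f := by
  funext n
  simp [lc]

theorem lc_succ (f : ℕ → ℂ) (j : ℕ) (n : ℕ) : lc f (j + 1) n = lc f j n * (Real.log n : ℂ) := by
  simp only [lc]
  push_cast
  ring

theorem norm_lc (f : ℕ → ℂ) (j n : ℕ) : ‖lc f j n‖ = ‖f n‖ * (Real.log n) ^ j := by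
  simp only [lc, norm_mul, Complex.norm_real]
  rw [Real.norm_of_nonneg]
  exact pow_nonneg (Real.log_natCast_nonneg n) j

theorem norm_ch_le {q : ℕ} (χ : DirichletCharacter ℂ q) (n : ℕ) : ‖ch χ n‖ ≤ 1 :=
  DirichletCharacter.norm_le_one χ _

end Pool.Agent.Lib.SW
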