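import Pool.Agent.Lib.SW.Continuation

/-!
# SW-C: bounds for the zeta function in `re s > 0` (module C)
-/

open Complex Filter Topology

namespace Pool.Agent.Lib.SW

/-- the entire function `(s - 1) ζ(s)` -/
noncomputable def szEnt : ℂ → ℂ := DirichletCharacter.LFunctionTrivChar₁ 1

theorem szEnt_diff : Differentiable ℂ szEnt := DirichletCharacter.differentiable_LFunctionTrivChar₁ 1

theorem szEnt_eq {s : ℂ} (hs : s ≠ 1) : szEnt s = (s - 1) * riemannZeta s := by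
  unfold szEnt
  rw [DirichletCharacter.LFunctionTrivChar₁, Function.update_of_ne hs,
    DirichletCharacter.LFunctionTrivChar_eq_mul_riemannZeta hs]
  simp

theorem szN_norm {n : ℕ} (hn : 1 ≤ n) (s : ℂ) : ‖(n : ℂ) ^ s‖ = (n : ℝ) ^ s.re := by
  have hn0 : (0 : ℝ) < n := by exact_mod_cast hn
  have := Complex.norm_cpow_eq_rpow_re_of_pos hn0 s
  simpa using this

/-- approximants -/
noncomputable def szF (N : ℕ) (s : ℂ) : ℂ :=
  (s - 1) * ∑ n ∈ Finset.Icc 1 N, (n : ℂ) ^ (-s) + (N : ℂ) ^ (1 - s)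

theorem szF_step (s : ℂ) (hs : 0 < s.re) (N : ℕ) (hN : 1 ≤ N) :
    ‖szF (N + 1) s - szF N s‖ ≤
      ‖s - 1‖ * (‖s‖ / s.re) * ((N : ℝ) ^ (-s.re) - ((N : ℝ) + 1) ^ (-s.re)) := by
  have hN1 : (1 : ℝ) ≤ N := by exact_mod_cast hN
  have h := norm_cpow_one_sub_le s hs hN1
  have e : szF (N + 1) s - szF N s = ((((N : ℝ) + 1 : ℝ) : ℂ) ^ (1 - s) -
      ((N : ℝ) : ℂ) ^ (1 - s) - (1 - s) * (((N : ℝ) + 1 : ℝ) : ℂ) ^ (-s)) := by
    unfold szF
    rw [Finset.sum_Icc_succ_top (by omega : 1 ≤ N + 1)]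
    push_cast
    ring
  rw [e, norm_sub_rev s 1]
  exact h

theorem szF_tel (s : ℂ) (hs : 0 < s.re) (M : ℕ) (hM : 1 ≤ M) (N : ℕ) (hN : M ≤ N) :
    ‖szF N s - szF M s‖ ≤
      ‖s - 1‖ * (‖s‖ / s.re) * ((M : ℝ) ^ (-s.re) - (N : ℝ) ^ (-s.re)) := by
  induction N, hN using Nat.le_induction with
  | base => simp
  | succ N hN ih =>
    have h1 := szF_step s hs N (hM.trans hN)
    have e : szF (N + 1) s - szF M s = (szF (N + 1) s - szF N s) + (szF N s - szF M s) := by ring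
    rw [e]
    refine (norm_add_le _ _).trans ((add_le_add h1 ih).trans (le_of_eq ?_))
    push_cast
    ring

theorem szF_lim (s : ℂ) (hs : 1 < s.re) : Tendsto (fun N => szF N s) atTop (𝓝 (szEnt s)) := by
  have hs1 : s ≠ 1 := by
    rintro rfl
    simp at hs
  rw [szEnt_eq hs1]
  have h1 : Tendsto (fun N : ℕ => ∑ n ∈ Finset.Icc 1 N, (n : ℂ) ^ (-s)) atTop
      (𝓝 (riemannZeta s)) := by
    have hsum : Summable (fun n : ℕ => 1 / ((n : ℂ) + 1) ^ s) := by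
      have h0 : Summable (fun n : ℕ => 1 / (n : ℂ) ^ s) := Complex.summable_one_div_nat_cpow.2 hs
      have := (summable_nat_add_iff 1).2 h0
      simpa using this
    have h2 := hsum.hasSum.tendsto_sum_nat
    rw [← zeta_eq_tsum_one_div_nat_add_one_cpow hs] at h2
    refine h2.congr fun N => ?_
    have e1 : Finset.Icc 1 N = Finset.Ico 1 (N + 1) := by
      ext n; simp only [Finset.mem_Icc, Finset.mem_Ico]; omega
    rw [e1, Finset.sum_Ico_eq_sum_range]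
    refine Finset.sum_congr rfl fun n _ => ?_
    rw [Complex.cpow_neg]
    push_cast
    rw [one_div, add_comm]
  have h2 : Tendsto (fun N : ℕ => (N : ℂ) ^ (1 - s)) atTop (𝓝 0) := by
    rw [tendsto_zero_iff_norm_tendsto_zero]
    have h3 : Tendsto (fun N : ℕ => (N : ℝ) ^ (-(s.re - 1))) atTop (𝓝 0) :=
      (tendsto_rpow_neg_atTop (by linarith)).comp tendsto_natCast_atTop_atTop
    refine h3.congr' ?_
    filter_upwards [eventually_ge_atTop 1] with N hN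
    rw [szN_norm hN]
    congr 1
    simp
  have h3 := (h1.const_mul (s - 1)).add h2
  rw [add_zero] at h3
  exact h3

theorem szEnt_sub_le (s : ℂ) (hs : 0 < s.re) (M : ℕ) (hM : 1 ≤ M) :
    ‖szEnt s - szF M s‖ ≤ (‖s - 1‖ * (‖s‖ / s.re)) * (M : ℝ) ^ (-s.re) := by
  refine continuation (g := szEnt) (f := fun N s => if N = 0 then 0 else szF N s)
    (B := fun s => ‖s - 1‖ * (‖s‖ / s.re)) szEnt_diff.differentiableOn ?_ ?_ ?_ ?_ s hs M hM |>
    fun h => by simpa [show M ≠ 0 by omega] using h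
  · intro N
    by_cases hN : N = 0
    · simp only [hN, if_true]
      exact differentiableOn_const 0
    · simp only [hN, if_false]
      apply Differentiable.differentiableOn
      unfold szF
      apply Differentiable.add
      · apply Differentiable.mul (by fun_prop)
        apply Differentiable.fun_sum
        intro n hn z
        have hn0 : (n : ℂ) ≠ 0 := by
          have := (Finset.mem_Icc.1 hn).1
          exact_mod_cast (by omega : n ≠ 0)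
        exact (differentiableAt_id.neg).const_cpow (Or.inl hn0)
      · intro z
        have hn0 : (N : ℂ) ≠ 0 := by exact_mod_cast hN
        exact ((differentiableAt_const 1).sub differentiableAt_id).const_cpow (Or.inl hn0)
  · apply ContinuousOn.mul (by fun_prop)
    apply ContinuousOn.div continuous_norm.continuousOn Complex.continuous_re.continuousOn
    intro z hz
    exact (show 0 < z.re from hz).ne'
  · intro s hs M N hM hMN
    have h := szF_tel s hs M hM N hMN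
    simp only [show M ≠ 0 by omega, show N ≠ 0 by omega, if_false]
    refine h.trans ?_
    apply mul_le_mul_of_nonneg_left _ (mul_nonneg (norm_nonneg _)
      (div_nonneg (norm_nonneg _) hs.le))
    have : 0 ≤ (N : ℝ) ^ (-s.re) := Real.rpow_nonneg (Nat.cast_nonneg _) _
    linarith
  · intro s hs
    refine (szF_lim s hs).congr' ?_
    filter_upwards [eventually_ge_atTop 1] with N hN
    simp [show N ≠ 0 by omega]

theorem zeta_sub_sum_le (s : ℂ) (hs : 0 < s.re) (hs1 : s ≠ 1) (M : ℕ) (hM : 1 ≤ M) :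
    ‖riemannZeta s - ∑ n ∈ Finset.Icc 1 M, (n : ℂ) ^ (-s) - (M : ℂ) ^ (1 - s) / (s - 1)‖ ≤
      ‖s‖ / s.re * (M : ℝ) ^ (-s.re) := by
  have h := szEnt_sub_le s hs M hM
  have hne : s - 1 ≠ 0 := sub_ne_zero.2 hs1
  have e : szEnt s - szF M s = (s - 1) * (riemannZeta s - ∑ n ∈ Finset.Icc 1 M, (n : ℂ) ^ (-s) -
      (M : ℂ) ^ (1 - s) / (s - 1)) := by
    rw [szEnt_eq hs1]
    unfold szF
    field_simp
    ring
  rw [e, norm_mul] at h
  have hpos : 0 < ‖s - 1‖ := norm_pos_iff.2 hne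
  refine le_of_mul_le_mul_left (h.trans (le_of_eq ?_)) hpos
  ring

theorem sz_sum_le (ε δ σ : ℝ) (hε : 0 < ε) (hδ : δ ≤ ε / 2) (hδ0 : 0 ≤ δ)
    (hσ : 1 - δ ≤ σ) (M : ℕ) (hM : 1 ≤ M) :
    ∑ n ∈ Finset.Icc 1 M, (n : ℝ) ^ (-σ) ≤ (1 + 2 / ε) * (M : ℝ) ^ ε := by
  have hM1 : (1 : ℝ) ≤ M := by exact_mod_cast hM
  have hM0 : (0 : ℝ) < M := by linarith
  have h1 : ∀ n ∈ Finset.Icc 1 M, (n : ℝ) ^ (-σ) ≤ (M : ℝ) ^ δ * (n : ℝ)⁻¹ := by
    intro n hn
    obtain ⟨hn1, hn2⟩ := Finset.mem_Icc.1 hn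
    have hn1' : (1 : ℝ) ≤ n := by exact_mod_cast hn1
    have hn2' : (n : ℝ) ≤ M := by exact_mod_cast hn2
    have hn0 : (0 : ℝ) < n := by linarith
    calc (n : ℝ) ^ (-σ) ≤ (n : ℝ) ^ (δ + (-1)) :=
          Real.rpow_le_rpow_of_exponent_le hn1' (by linarith)
      _ = (n : ℝ) ^ δ * (n : ℝ)⁻¹ := by
          rw [Real.rpow_add hn0, Real.rpow_neg_one]
      _ ≤ (M : ℝ) ^ δ * (n : ℝ)⁻¹ :=
          mul_le_mul_of_nonneg_right (Real.rpow_le_rpow hn0.le hn2' hδ0) (inv_nonneg.2 hn0.le)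
  have h2 : ∑ n ∈ Finset.Icc 1 M, (n : ℝ)⁻¹ ≤ 1 + Real.log M := by
    have h3 := harmonic_le_one_add_log M
    refine le_trans (le_of_eq ?_) h3
    unfold harmonic
    push_cast
    have e1 : Finset.Icc 1 M = Finset.Ico 1 (M + 1) := by
      ext n; simp only [Finset.mem_Icc, Finset.mem_Ico]; omega
    rw [e1, Finset.sum_Ico_eq_sum_range]
    refine Finset.sum_congr rfl fun n _ => ?_
    push_cast
    rw [add_comm]
  have h4 : Real.log M ≤ (M : ℝ) ^ (ε / 2) / (ε / 2) :=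
    Real.log_le_rpow_div hM0.le (by linarith)
  have h5 : (1 : ℝ) ≤ (M : ℝ) ^ (ε / 2) := Real.one_le_rpow hM1 (by linarith)
  have h6 : 1 + Real.log M ≤ (1 + 2 / ε) * (M : ℝ) ^ (ε / 2) := by
    have e : (M : ℝ) ^ (ε / 2) / (ε / 2) = 2 / ε * (M : ℝ) ^ (ε / 2) := by
      field_simp
    rw [e] at h4
    nlinarith
  calc ∑ n ∈ Finset.Icc 1 M, (n : ℝ) ^ (-σ) ≤
        ∑ n ∈ Finset.Icc 1 M, (M : ℝ) ^ δ * (n : ℝ)⁻¹ := Finset.sum_le_sum h1
    _ = (M : ℝ) ^ δ * ∑ n ∈ Finset.Icc 1 M, (n : ℝ)⁻¹ := by rw [Finset.mul_sum]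
    _ ≤ (M : ℝ) ^ (ε / 2) * ((1 + 2 / ε) * (M : ℝ) ^ (ε / 2)) := by
        apply mul_le_mul (Real.rpow_le_rpow_of_exponent_le hM1 hδ) (h2.trans h6)
        · exact Finset.sum_nonneg fun n _ => inv_nonneg.2 (Nat.cast_nonneg n)
        · exact Real.rpow_nonneg hM0.le _
    _ = (1 + 2 / ε) * (M : ℝ) ^ ε := by
        have e : (M : ℝ) ^ ε = (M : ℝ) ^ (ε / 2) * (M : ℝ) ^ (ε / 2) := by
          rw [← Real.rpow_add hM0]
          congr 1
          ring
        rw [e]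
        ring

theorem zeta_strip (ε : ℝ) (hε : 0 < ε) :
    ∃ δ : ℝ, 0 < δ ∧ δ ≤ 1 / 4 ∧ ∃ C : ℝ, 0 < C ∧ ∀ s : ℂ, s ≠ 1 →
      1 - δ ≤ s.re → s.re ≤ 3 →
        ‖riemannZeta s‖ ≤ C * (|s.im| + 2) ^ ε * (1 + 1 / ‖s - 1‖) := by
  refine ⟨min (ε / 2) (1 / 4), lt_min (by linarith) (by norm_num), min_le_right _ _,
    (5 + 2 / ε) * 2 ^ ε, by positivity, ?_⟩
  intro s hsne hs1 hs3
  set δ := min (ε / 2) (1 / 4) with hδ
  have hδ0 : 0 < δ := lt_min (by linarith) (by norm_num)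
  have hδ1 : δ ≤ ε / 2 := min_le_left _ _
  have hδ2 : δ ≤ 1 / 4 := min_le_right _ _
  have hs0 : 3 / 4 ≤ s.re := by linarith
  have hspos : 0 < s.re := by linarith
  have habs := abs_nonneg s.im
  set X := |s.im| + 2 with hXdef
  have hX : 2 ≤ X := by linarith
  set M := ⌈X⌉₊ with hMdef
  have hXM : X ≤ M := Nat.le_ceil _
  have hM1 : (1 : ℝ) ≤ M := by linarith
  have hM0 : (0 : ℝ) < M := by linarith
  have hM : 1 ≤ M := by exact_mod_cast hM1
  have hM2 : (M : ℝ) ≤ 2 * X := by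
    have := (Nat.ceil_lt_add_one (by linarith : 0 ≤ X)).le
    linarith
  have h1 := zeta_sub_sum_le s hspos hsne M hM
  have h2 : ‖∑ n ∈ Finset.Icc 1 M, (n : ℂ) ^ (-s)‖ ≤ (1 + 2 / ε) * (M : ℝ) ^ ε := by
    refine (norm_sum_le _ _).trans ?_
    refine le_trans ?_ (sz_sum_le ε δ s.re hε hδ1 hδ0.le hs1 M hM)
    refine Finset.sum_le_sum fun n hn => ?_
    rw [szN_norm (Finset.mem_Icc.1 hn).1]
    simp
  have h3 : ‖s‖ / s.re ≤ 4 * M := by
    have a1 : ‖s‖ ≤ 3 + |s.im| := by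
      refine (Complex.norm_le_abs_re_add_abs_im s).trans ?_
      rw [abs_of_pos hspos]
      linarith
    have a2 : ‖s‖ / s.re ≤ 4 / 3 * (3 + |s.im|) := by
      rw [div_le_iff₀ hspos]
      nlinarith
    linarith
  have b1 : (M : ℝ) ^ (-s.re) ≤ (M : ℝ) ^ (ε + (-1)) :=
    Real.rpow_le_rpow_of_exponent_le hM1 (by linarith)
  have b2 : (M : ℝ) ^ (ε + (-1)) = (M : ℝ) ^ ε * (M : ℝ)⁻¹ := by
    rw [Real.rpow_add hM0, Real.rpow_neg_one]
  have h4 : ‖s‖ / s.re * (M : ℝ) ^ (-s.re) ≤ 4 * (M : ℝ) ^ ε := by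
    calc ‖s‖ / s.re * (M : ℝ) ^ (-s.re) ≤
          (4 * M) * ((M : ℝ) ^ ε * (M : ℝ)⁻¹) := by
          apply mul_le_mul h3 (b1.trans (le_of_eq b2)) (Real.rpow_nonneg hM0.le _) (by linarith)
      _ = 4 * (M : ℝ) ^ ε := by
          field_simp
  have hpos : 0 < ‖s - 1‖ := norm_pos_iff.2 (sub_ne_zero.2 hsne)
  have h5 : ‖(M : ℂ) ^ (1 - s) / (s - 1)‖ ≤ (M : ℝ) ^ ε * (1 / ‖s - 1‖) := by
    rw [norm_div, szN_norm hM, div_eq_mul_one_div]
    apply mul_le_mul_of_nonneg_right _ (by positivity)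
    apply Real.rpow_le_rpow_of_exponent_le hM1
    simp
    linarith
  have hMe : 0 ≤ (M : ℝ) ^ ε := Real.rpow_nonneg hM0.le _
  have hinv : 0 ≤ 1 / ‖s - 1‖ := by positivity
  have h6 : ‖riemannZeta s‖ ≤ (5 + 2 / ε) * (M : ℝ) ^ ε * (1 + 1 / ‖s - 1‖) := by
    have e : riemannZeta s = (riemannZeta s - ∑ n ∈ Finset.Icc 1 M, (n : ℂ) ^ (-s) -
        (M : ℂ) ^ (1 - s) / (s - 1)) + ∑ n ∈ Finset.Icc 1 M, (n : ℂ) ^ (-s) +
        (M : ℂ) ^ (1 - s) / (s - 1) := by ring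
    rw [e]
    refine (norm_add_le _ _).trans ?_
    have h7 := norm_add_le (riemannZeta s - ∑ n ∈ Finset.Icc 1 M, (n : ℂ) ^ (-s) -
        (M : ℂ) ^ (1 - s) / (s - 1)) (∑ n ∈ Finset.Icc 1 M, (n : ℂ) ^ (-s))
    have h8 : 0 ≤ (4 + 2 / ε) * (M : ℝ) ^ ε * (1 / ‖s - 1‖) := by positivity
    nlinarith [h1, h2, h4, h5, h7, h8]
  refine h6.trans ?_
  apply mul_le_mul_of_nonneg_right _ (by positivity)
  rw [mul_assoc]
  apply mul_le_mul_of_nonneg_left _ (by positivity)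
  rw [← Real.mul_rpow (by norm_num) (by linarith)]
  exact Real.rpow_le_rpow hM0.le hM2 hε.le

theorem zeta_neg (σ : ℝ) (h1 : 1 / 2 < σ) (h2 : σ < 1) : (riemannZeta (σ : ℂ)).re < 0 := by
  have hne : (σ : ℂ) ≠ 1 := by
    intro h
    have : σ = 1 := by exact_mod_cast h
    linarith
  have h := zeta_sub_sum_le (σ : ℂ) (by simpa using (by linarith : 0 < σ)) hne 1 le_rfl
  have e1 : ∑ n ∈ Finset.Icc (1 : ℕ) 1, (n : ℂ) ^ (-(σ : ℂ)) = 1 := by simp
  have e2 : ((1 : ℕ) : ℂ) ^ (1 - (σ : ℂ)) = 1 := by simp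
  have e3 : ((1 : ℕ) : ℝ) ^ (-(σ : ℂ).re) = 1 := by simp
  rw [e1, e2, e3, mul_one] at h
  have e4 : ‖(σ : ℂ)‖ / (σ : ℂ).re = 1 := by
    rw [Complex.norm_real, Complex.ofReal_re, Real.norm_of_nonneg (by linarith)]
    exact div_self (by linarith)
  rw [e4] at h
  have h3 := (Complex.re_le_norm _).trans h
  have e5 : (riemannZeta (σ : ℂ) - 1 - 1 / ((σ : ℂ) - 1)).re =
      (riemannZeta (σ : ℂ)).re - 1 - 1 / (σ - 1) := by
    have : (1 : ℂ) / ((σ : ℂ) - 1) = ((1 / (σ - 1) : ℝ) : ℂ) := by push_cast; ring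
    rw [this, Complex.sub_re, Complex.sub_re, Complex.ofReal_re, Complex.one_re]
  rw [e5] at h3
  have h4 : 1 / (σ - 1) < -2 := by
    have h5 : 2 < 1 / (1 - σ) := by
      rw [lt_div_iff₀ (by linarith)]
      linarith
    have h6 : 1 / (σ - 1) = -(1 / (1 - σ)) := by
      rw [← neg_sub 1 σ]
      rw [one_div, one_div, inv_neg]
    rw [h6]
    linarith
  linarith

end Pool.Agent.Lib.SW
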