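import Pool.Agent.Lib.SW.StripChar
import Pool.Agent.Lib.SW.StripZeta

/-!
# SW-D: bounds for the derivatives of `L(s, χ)` and `ζ(s)` in `re s > 1` (module D)

PROOFS. `LSeries.logMul^[j] f = lc f j` (as functions, up to the value at 0 which `LSeries`
ignores), so `LSeries_iteratedDeriv` gives |LSeries (lc (ch χ) j) s| = |iteratedDeriv j L(·,χ) s| for
re s > 1 (`abscissaOfAbsConv` of a character is 1; LFunction = LSeries on the open set re > 1, so the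
iterated derivatives agree: `Filter.EventuallyEq.iteratedDeriv_eq`). Cauchy's estimate
(`Complex.norm_iteratedDeriv_le_of_forall_mem_sphere_norm_le`) on the circle |w - s| = δ with δ from
`LFunction_strip ε`: there re w ≥ 1 - δ, re w ≤ 3 and |im w| + 2 ≤ 2 (|im s| + 2), hence
|L_j(s)| ≤ j! δ^(-j) C (2 Qt)^ε. For zeta with |im s| ≥ 1: radius δ ≤ 1/4, so |w - 1| ≥ 3/4.

`LSeries_sub_LFunction_one`: (Lipschitz) for χ ≠ 1, 1 < re s ≤ 2, |im s| ≤ 1:
|L(s,χ) - L(1,χ)| ≤ C q^ε |s - 1|: mean value inequality for the entire function LFunction χ on the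
segment from 1 to s, where |L'| ≤ C q^ε by Cauchy's estimate (the segment has re ≥ 1, |im| ≤ 1).

`lipschitz_char`, `lipschitz_zeta`: Lipschitz bounds in σ on vertical distance 0 (segment with fixed imaginary part), from the j = 1
bounds (mean value inequality on the segment, L' = - LSeries (lc (ch χ) 1)).
-/

open Complex Filter Topology

namespace Pool.Agent.Lib.SW

theorem Deriv_logMul (f : ℕ → ℂ) (j : ℕ) : LSeries.logMul^[j] f = lc f j := by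
  induction j with
  | zero => rw [Function.iterate_zero, id_eq, lc_zero]
  | succ j ih =>
    rw [Function.iterate_succ_apply', ih]
    funext n
    rw [lc_succ]
    unfold LSeries.logMul
    rw [← Complex.natCast_log, mul_comm]

theorem Deriv_absc {f : ℕ → ℂ} (h : ∀ n, ‖f n‖ ≤ 1) {s : ℂ} (hs : 1 < s.re) :
    LSeries.abscissaOfAbsConv f < s.re := by
  refine lt_of_le_of_lt (LSeries.abscissaOfAbsConv_le_of_le_const ⟨1, fun n _ => h n⟩) ?_
  exact_mod_cast hs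

theorem Deriv_norm {f : ℕ → ℂ} (h : ∀ n, ‖f n‖ ≤ 1) {g : ℂ → ℂ}
    (hg : ∀ s : ℂ, 1 < s.re → g s = LSeries f s) (j : ℕ) {s : ℂ} (hs : 1 < s.re) :
    ‖LSeries (lc f j) s‖ = ‖iteratedDeriv j g s‖ := by
  have h1 : iteratedDeriv j g s = iteratedDeriv j (LSeries f) s := by
    refine Filter.EventuallyEq.iteratedDeriv_eq j ?_
    have h2 : {w : ℂ | 1 < w.re} ∈ 𝓝 s :=
      (isOpen_lt continuous_const Complex.continuous_re).mem_nhds hs
    filter_upwards [h2] with w hw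
    exact hg w hw
  rw [h1, LSeries_iteratedDeriv j (Deriv_absc h hs), Deriv_logMul, norm_mul, norm_pow, norm_neg,
    norm_one, one_pow, one_mul]

/-- points on the circle around `s` -/
theorem Deriv_sphere {s w : ℂ} {δ : ℝ} (hδ : δ ≤ 1 / 4) (hw : w ∈ Metric.sphere s δ) :
    s.re - δ ≤ w.re ∧ w.re ≤ s.re + 1 / 4 ∧ |w.im| ≤ |s.im| + 1 / 4 ∧ |s.im| - 1 / 4 ≤ |w.im| := by
  rw [mem_sphere_iff_norm] at hw
  have h1 : |w.re - s.re| ≤ δ := by
    have := Complex.abs_re_le_norm (w - s)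
    rwa [Complex.sub_re, hw] at this
  have h2 : |w.im - s.im| ≤ δ := by
    have := Complex.abs_im_le_norm (w - s)
    rwa [Complex.sub_im, hw] at this
  have h3 := abs_le.1 h1
  have h4 : |w.im| ≤ |s.im| + δ := by
    have h5 := abs_add_le s.im (w.im - s.im)
    rw [add_sub_cancel] at h5
    linarith
  have h6 : |s.im| ≤ |w.im| + δ := by
    have h5 := abs_sub_abs_le_abs_sub s.im w.im
    rw [abs_sub_comm] at h5
    linarith
  refine ⟨by linarith [h3.1], by linarith [h3.2], by linarith, by linarith⟩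

theorem Deriv_Qt {q : ℕ} {ε : ℝ} (hε : 0 < ε) {a b : ℝ} (h : |a| ≤ |b| + 1 / 4) :
    (Qt q a) ^ ε ≤ 2 ^ ε * (Qt q b) ^ ε := by
  have hq : (0 : ℝ) ≤ q := Nat.cast_nonneg q
  have hb := abs_nonneg b
  have ha := abs_nonneg a
  rw [← Real.mul_rpow (by norm_num) (by unfold Qt; positivity)]
  refine Real.rpow_le_rpow (by unfold Qt; positivity) ?_ hε.le
  unfold Qt
  nlinarith

theorem Deriv_char (ε : ℝ) (hε : 0 < ε) : ∃ δ : ℝ, 0 < δ ∧ ∃ C : ℝ, 0 < C ∧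
    ∀ (q : ℕ) [NeZero q] (χ : DirichletCharacter ℂ q), χ ≠ 1 → ∀ (j : ℕ) (s : ℂ),
      1 ≤ s.re → s.re ≤ 2 → ‖iteratedDeriv j (DirichletCharacter.LFunction χ) s‖ ≤
        (j.factorial * C / δ ^ j) * (Qt q s.im) ^ ε := by
  obtain ⟨δ, hδ, hδ4, C, hC, h⟩ := LFunction_strip ε hε
  refine ⟨δ, hδ, C * 2 ^ ε, by positivity, ?_⟩
  intro q _ χ hχ j s hs1 hs2
  have h1 : ∀ w ∈ Metric.sphere s δ, ‖DirichletCharacter.LFunction χ w‖ ≤
      C * 2 ^ ε * (Qt q s.im) ^ ε := by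
    intro w hw
    obtain ⟨h2, h3, h4, -⟩ := Deriv_sphere hδ4 hw
    refine (h q χ hχ w (by linarith) (by linarith)).trans ?_
    rw [mul_assoc]
    exact mul_le_mul_of_nonneg_left (Deriv_Qt hε h4) hC.le
  have h2 := Complex.norm_iteratedDeriv_le_of_forall_mem_sphere_norm_le j hδ
    (DirichletCharacter.differentiable_LFunction hχ).diffContOnCl h1
  refine h2.trans (le_of_eq ?_)
  ring

theorem Deriv_zeta (ε : ℝ) (hε : 0 < ε) : ∃ δ : ℝ, 0 < δ ∧ ∃ C : ℝ, 0 < C ∧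
    ∀ (j : ℕ) (s : ℂ), 1 ≤ s.re → s.re ≤ 2 → 1 ≤ |s.im| → ‖iteratedDeriv j riemannZeta s‖ ≤
        (j.factorial * C / δ ^ j) * (|s.im| + 2) ^ ε := by
  obtain ⟨δ, hδ, hδ4, C, hC, h⟩ := zeta_strip ε hε
  refine ⟨δ, hδ, C * 2 ^ ε * 3, by positivity, ?_⟩
  intro j s hs1 hs2 hs3
  have h1 : ∀ w ∈ Metric.sphere s δ, ‖riemannZeta w‖ ≤
      C * 2 ^ ε * 3 * (|s.im| + 2) ^ ε := by
    intro w hw
    obtain ⟨h2, h3, h4, h5⟩ := Deriv_sphere hδ4 hw
    have h6 : 3 / 4 ≤ ‖w - 1‖ := by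
      have h7 := Complex.abs_im_le_norm (w - 1)
      rw [Complex.sub_im, Complex.one_im, sub_zero] at h7
      linarith
    have hne : w ≠ 1 := by
      rintro rfl
      rw [sub_self, norm_zero] at h6
      norm_num at h6
    refine (h w hne (by linarith) (by linarith)).trans ?_
    have h8 : 1 + 1 / ‖w - 1‖ ≤ 3 := by
      have h9 : 1 / ‖w - 1‖ ≤ 4 / 3 := by
        rw [div_le_iff₀ (by linarith)]
        linarith
      linarith
    have h10 : (|w.im| + 2) ^ ε ≤ 2 ^ ε * (|s.im| + 2) ^ ε := by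
      have hb := abs_nonneg s.im
      have ha := abs_nonneg w.im
      rw [← Real.mul_rpow (by norm_num) (by positivity)]
      exact Real.rpow_le_rpow (by positivity) (by linarith) hε.le
    calc C * (|w.im| + 2) ^ ε * (1 + 1 / ‖w - 1‖)
        ≤ C * (2 ^ ε * (|s.im| + 2) ^ ε) * 3 := by
          refine mul_le_mul (mul_le_mul_of_nonneg_left h10 hC.le) h8 (by positivity) ?_
          have hb := abs_nonneg s.im
          positivity
      _ = C * 2 ^ ε * 3 * (|s.im| + 2) ^ ε := by ring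
  have hd : DiffContOnCl ℂ riemannZeta (Metric.ball s δ) := by
    refine DifferentiableOn.diffContOnCl ?_
    intro w hw
    have hw' : w ∈ Metric.closedBall s δ := Metric.closure_ball_subset_closedBall hw
    refine (differentiableAt_riemannZeta ?_).differentiableWithinAt
    rintro rfl
    rw [mem_closedBall_iff_norm] at hw'
    have h7 := Complex.abs_im_le_norm (1 - s)
    rw [Complex.sub_im, Complex.one_im, zero_sub, abs_neg] at h7
    linarith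
  have h2 := Complex.norm_iteratedDeriv_le_of_forall_mem_sphere_norm_le j hδ hd h1
  refine h2.trans (le_of_eq ?_)
  ring

theorem deriv_char_le (j : ℕ) (ε : ℝ) (hε : 0 < ε) :
    ∃ C : ℝ, 0 < C ∧ ∀ (q : ℕ) [NeZero q] (χ : DirichletCharacter ℂ q), χ ≠ 1 → ∀ s : ℂ,
      1 < s.re → s.re ≤ 2 → ‖LSeries (lc (ch χ) j) s‖ ≤ C * (Qt q s.im) ^ ε := by
  obtain ⟨δ, hδ, C, hC, h⟩ := Deriv_char ε hε
  refine ⟨j.factorial * C / δ ^ j, by positivity, ?_⟩
  intro q _ χ hχ s hs1 hs2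
  rw [Deriv_norm (norm_ch_le χ) (g := DirichletCharacter.LFunction χ)
    (fun w hw => DirichletCharacter.LFunction_eq_LSeries χ hw) j hs1]
  exact h q χ hχ j s hs1.le hs2

theorem deriv_zeta_le (j : ℕ) (ε : ℝ) (hε : 0 < ε) :
    ∃ C : ℝ, 0 < C ∧ ∀ s : ℂ, 1 < s.re → s.re ≤ 2 → 1 ≤ |s.im| →
      ‖LSeries (lc 1 j) s‖ ≤ C * (|s.im| + 2) ^ ε := by
  obtain ⟨δ, hδ, C, hC, h⟩ := Deriv_zeta ε hε
  refine ⟨j.factorial * C / δ ^ j, by positivity, ?_⟩
  intro s hs1 hs2 hs3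
  rw [Deriv_norm (f := 1) (fun n => by rw [Pi.one_apply, norm_one]) (g := riemannZeta)
    (fun w hw => (LSeries_one_eq_riemannZeta hw).symm) j hs1]
  exact h j s hs1.le hs2 hs3

theorem Deriv_char1 (ε : ℝ) (hε : 0 < ε) : ∃ C : ℝ, 0 < C ∧
    ∀ (q : ℕ) [NeZero q] (χ : DirichletCharacter ℂ q), χ ≠ 1 → ∀ (s : ℂ),
      1 ≤ s.re → s.re ≤ 2 → ‖deriv (DirichletCharacter.LFunction χ) s‖ ≤
        C * (Qt q s.im) ^ ε := by
  obtain ⟨δ, hδ, C, hC, h⟩ := Deriv_char ε hε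
  refine ⟨Nat.factorial 1 * C / δ ^ 1, by positivity, ?_⟩
  intro q _ χ hχ s hs1 hs2
  rw [← iteratedDeriv_one]
  exact h q χ hχ 1 s hs1 hs2

theorem LSeries_sub_LFunction_one (ε : ℝ) (hε : 0 < ε) :
    ∃ C : ℝ, 0 < C ∧ ∀ (q : ℕ) [NeZero q] (χ : DirichletCharacter ℂ q), χ ≠ 1 → ∀ s : ℂ,
      1 < s.re → s.re ≤ 2 → |s.im| ≤ 1 →
        ‖LSeries (ch χ) s - DirichletCharacter.LFunction χ 1‖ ≤ C * (q : ℝ) ^ ε * ‖s - 1‖ := by
  obtain ⟨C, hC, h⟩ := Deriv_char1 ε hε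
  refine ⟨C * 3 ^ ε, by positivity, ?_⟩
  intro q _ χ hχ s hs1 hs2 hs3
  have hK : Convex ℝ ({w : ℂ | 1 ≤ w.re} ∩ ({w : ℂ | w.re ≤ 2} ∩
      ({w : ℂ | -1 ≤ w.im} ∩ {w : ℂ | w.im ≤ 1}))) :=
    (convex_halfSpace_re_ge 1).inter ((convex_halfSpace_re_le 2).inter
      ((convex_halfSpace_im_ge (-1)).inter (convex_halfSpace_im_le 1)))
  have hb : ∀ w ∈ ({w : ℂ | 1 ≤ w.re} ∩ ({w : ℂ | w.re ≤ 2} ∩
      ({w : ℂ | -1 ≤ w.im} ∩ {w : ℂ | w.im ≤ 1}))),
      ‖deriv (DirichletCharacter.LFunction χ) w‖ ≤ C * 3 ^ ε * (q : ℝ) ^ ε := by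
    rintro w ⟨h1, h2, h3, h4⟩
    refine (h q χ hχ w h1 h2).trans ?_
    rw [mul_assoc]
    refine mul_le_mul_of_nonneg_left ?_ hC.le
    have hq : (0 : ℝ) ≤ q := Nat.cast_nonneg q
    have h5 : |w.im| ≤ 1 := abs_le.2 ⟨h3, h4⟩
    have h6 := abs_nonneg w.im
    rw [← Real.mul_rpow (by norm_num) hq]
    refine Real.rpow_le_rpow (by unfold Qt; positivity) ?_ hε.le
    unfold Qt
    nlinarith
  have h1 := Convex.norm_image_sub_le_of_norm_deriv_le (f := DirichletCharacter.LFunction χ)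
    (x := 1) (y := s) (fun w _ => (DirichletCharacter.differentiable_LFunction hχ) w) hb hK
    ⟨by simp, by simp, by simp, by simp⟩ ⟨hs1.le, hs2, (abs_le.1 hs3).1, (abs_le.1 hs3).2⟩
  rw [DirichletCharacter.LFunction_eq_LSeries χ hs1] at h1
  exact h1

theorem lipschitz_char (ε : ℝ) (hε : 0 < ε) :
    ∃ C : ℝ, 0 < C ∧ ∀ (q : ℕ) [NeZero q] (χ : DirichletCharacter ℂ q), χ ≠ 1 → ∀ σ σ' t : ℝ,
      1 < σ → σ ≤ σ' → σ' ≤ 2 →
        ‖LSeries (ch χ) (σ' + t * I) - LSeries (ch χ) (σ + t * I)‖ ≤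
          C * (Qt q t) ^ ε * (σ' - σ) := by
  obtain ⟨C, hC, h⟩ := Deriv_char1 ε hε
  refine ⟨C, hC, ?_⟩
  intro q _ χ hχ σ σ' t h1 h2 h3
  have hK : Convex ℝ ({w : ℂ | 1 ≤ w.re} ∩ ({w : ℂ | w.re ≤ 2} ∩
      ({w : ℂ | t ≤ w.im} ∩ {w : ℂ | w.im ≤ t}))) :=
    (convex_halfSpace_re_ge 1).inter ((convex_halfSpace_re_le 2).inter
      ((convex_halfSpace_im_ge t).inter (convex_halfSpace_im_le t)))
  have hb : ∀ w ∈ ({w : ℂ | 1 ≤ w.re} ∩ ({w : ℂ | w.re ≤ 2} ∩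
      ({w : ℂ | t ≤ w.im} ∩ {w : ℂ | w.im ≤ t}))),
      ‖deriv (DirichletCharacter.LFunction χ) w‖ ≤ C * (Qt q t) ^ ε := by
    rintro w ⟨h4, h5, h6, h7⟩
    have h8 : w.im = t := le_antisymm h7 h6
    have h9 := h q χ hχ w h4 h5
    rwa [h8] at h9
  have hre : ∀ x : ℝ, ((x : ℂ) + t * I).re = x := fun x => by simp
  have him : ∀ x : ℝ, ((x : ℂ) + t * I).im = t := fun x => by simp
  have h4 := Convex.norm_image_sub_le_of_norm_deriv_le (f := DirichletCharacter.LFunction χ)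
    (x := (σ : ℂ) + t * I) (y := (σ' : ℂ) + t * I)
    (fun w _ => (DirichletCharacter.differentiable_LFunction hχ) w) hb hK
    ⟨by rw [Set.mem_setOf_eq, hre]; exact h1.le, by rw [Set.mem_setOf_eq, hre]; linarith,
      by rw [Set.mem_setOf_eq, him], by rw [Set.mem_setOf_eq, him]⟩
    ⟨by rw [Set.mem_setOf_eq, hre]; linarith, by rw [Set.mem_setOf_eq, hre]; exact h3,
      by rw [Set.mem_setOf_eq, him], by rw [Set.mem_setOf_eq, him]⟩
  rw [DirichletCharacter.LFunction_eq_LSeries χ (by rw [hre]; linarith),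
    DirichletCharacter.LFunction_eq_LSeries χ (by rw [hre]; linarith)] at h4
  have h5 : ‖((σ' : ℂ) + t * I) - ((σ : ℂ) + t * I)‖ = σ' - σ := by
    rw [add_sub_add_right_eq_sub, ← Complex.ofReal_sub, Complex.norm_real, Real.norm_eq_abs,
      abs_of_nonneg (by linarith)]
  rw [h5] at h4
  exact h4

theorem lipschitz_zeta (ε : ℝ) (hε : 0 < ε) :
    ∃ C : ℝ, 0 < C ∧ ∀ σ σ' t : ℝ, 1 ≤ |t| → 1 < σ → σ ≤ σ' → σ' ≤ 2 →
        ‖riemannZeta (σ' + t * I) - riemannZeta (σ + t * I)‖ ≤ C * (|t| + 2) ^ ε * (σ' - σ) := by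
  obtain ⟨δ, hδ, C, hC, h⟩ := Deriv_zeta ε hε
  refine ⟨Nat.factorial 1 * C / δ ^ 1, by positivity, ?_⟩
  intro σ σ' t ht h1 h2 h3
  have hK : Convex ℝ ({w : ℂ | 1 ≤ w.re} ∩ ({w : ℂ | w.re ≤ 2} ∩
      ({w : ℂ | t ≤ w.im} ∩ {w : ℂ | w.im ≤ t}))) :=
    (convex_halfSpace_re_ge 1).inter ((convex_halfSpace_re_le 2).inter
      ((convex_halfSpace_im_ge t).inter (convex_halfSpace_im_le t)))
  have hb : ∀ w ∈ ({w : ℂ | 1 ≤ w.re} ∩ ({w : ℂ | w.re ≤ 2} ∩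
      ({w : ℂ | t ≤ w.im} ∩ {w : ℂ | w.im ≤ t}))),
      ‖deriv riemannZeta w‖ ≤ Nat.factorial 1 * C / δ ^ 1 * (|t| + 2) ^ ε := by
    rintro w ⟨h4, h5, h6, h7⟩
    have h8 : w.im = t := le_antisymm h7 h6
    have h9 := h 1 w h4 h5 (by rw [h8]; exact ht)
    rwa [h8, iteratedDeriv_one] at h9
  have hre : ∀ x : ℝ, ((x : ℂ) + t * I).re = x := fun x => by simp
  have him : ∀ x : ℝ, ((x : ℂ) + t * I).im = t := fun x => by simp
  have hd : ∀ w ∈ ({w : ℂ | 1 ≤ w.re} ∩ ({w : ℂ | w.re ≤ 2} ∩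
      ({w : ℂ | t ≤ w.im} ∩ {w : ℂ | w.im ≤ t}))), DifferentiableAt ℂ riemannZeta w := by
    rintro w ⟨-, -, h6, h7⟩
    refine differentiableAt_riemannZeta ?_
    rintro rfl
    have h8 : (1 : ℂ).im = t := le_antisymm h7 h6
    rw [← h8, Complex.one_im, abs_zero] at ht
    norm_num at ht
  have h4 := Convex.norm_image_sub_le_of_norm_deriv_le (f := riemannZeta)
    (x := (σ : ℂ) + t * I) (y := (σ' : ℂ) + t * I) hd hb hK
    ⟨by rw [Set.mem_setOf_eq, hre]; exact h1.le, by rw [Set.mem_setOf_eq, hre]; linarith,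
      by rw [Set.mem_setOf_eq, him], by rw [Set.mem_setOf_eq, him]⟩
    ⟨by rw [Set.mem_setOf_eq, hre]; linarith, by rw [Set.mem_setOf_eq, hre]; exact h3,
      by rw [Set.mem_setOf_eq, him], by rw [Set.mem_setOf_eq, him]⟩
  have h5 : ‖((σ' : ℂ) + t * I) - ((σ : ℂ) + t * I)‖ = σ' - σ := by
    rw [add_sub_add_right_eq_sub, ← Complex.ofReal_sub, Complex.norm_real, Real.norm_eq_abs,
      abs_of_nonneg (by linarith)]
  rw [h5] at h4
  exact h4

end Pool.Agent.Lib.SW
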