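import Pool.Agent.Lib.SW.Coef4
import Pool.Agent.Lib.SW.StripChar
import Pool.Agent.Lib.SW.StripZeta

/-!
# SW-I: the inequality of Estermann (module I)

`estermann_abs` (pure complex analysis, no number theory).
PROOF. G entire, F = G/(s-1) off 1, λ = G(1). Let H(s) = dslope G 1 s = (G(s) - G(1))/(s - 1)
(entire: `Differentiable` of dslope, `Complex.differentiableOn_dslope`). On |s - 2| = 3/2 we have
|s - 1| ≥ 1/2, so |H| ≤ 2 (|G(s)| + |λ|) ≤ 4 K (|λ| ≤ K: 1 is in the closed disc). Write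
H(s) = ∑ h_n (2 - s)^n (Taylor at 2, `Complex.hasSum_taylorSeries_of_entire`-like), Cauchy:
|h_n| ≤ 4 K (2/3)^n. Also 1/(s-1) = ∑ (2 - s)^n for |s - 2| < 1, so on that disc F = H + λ/(s-1) has
Taylor coefficients (in powers of (2 - s)) b_n = h_n + λ, i.e. h_n = b_n - λ, where
b_n = (-1)^n F^(n)(2)/n! ≥ 0 and b_0 = F(2) ≥ 1 (hypotheses hb0, hb). For real σ in (7/8, 1), x = 2 - σ in (1, 9/8):
H(σ) = ∑ (b_n - λ) x^n. For n ≥ M: |h_n| x^n ≤ 4 K (3/4)^n, sum ≤ 16 K (3/4)^M. For n < M: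
∑_{n<M} (b_n - λ) x^n ≥ 1 - λ ∑_{n<M} x^n = 1 - λ (x^M - 1)/(x - 1) (real parts; λ ≥ 0 real).
So re F(σ) = re H(σ) - λ/(1-σ) ≥ 1 - λ (x^M - 1)/(1-σ) - λ/(1-σ) - 16 K (3/4)^M
= 1 - λ x^M/(1-σ) - 16 K (3/4)^M. Choose M = ⌈log (32 K) / log (4/3)⌉: 16 K (3/4)^M ≤ 1/2, and
x^M ≤ exp (M (1-σ)) with M ≤ 1 + 4 log (32 K) (log (4/3) > 1/4): x^M ≤ e^{1-σ} (32 K)^{4(1-σ)}. If re F(σ) ≤ 0 then
1/2 ≤ λ x^M/(1-σ), i.e. 1-σ ≤ 2 λ e (32 K)^{4 (1-σ)}.  (The statement has the constant 6 ≥ 2e.)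

`estermann`: G(s) = LFunctionTrivChar₁ 1 s * L(s,χ₁) L(s,χ₂) L(s,χ₃) (entire; value λ at 1 as
LFunctionTrivChar₁ 1 1 = 1); K = C (q₁ q₂)^4 on |s-2| ≤ 3/2 (re s ≥ 1/2) by `LFunction_crude`
(|s| + 1 ≤ 9/2, and |LFunctionTrivChar₁ 1| is bounded on the compact disc, a universal constant).
λ real ≥ 0: limit of (σ-1) LSeries (coef4) (σ) ≥ 0 as σ → 1+. Derivatives at 2: on |s-2|<1, F = LSeries (coef4)
(`coef4_LSeries`), and `LSeries.iteratedDeriv_alternating` gives (-1)^n F^(n)(2) ≥ 0;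
F(2) = ∑ a(n) n^(-2) ≥ a(1) = 1.
-/

open Complex
open scoped ComplexOrder

namespace Pool.Agent.Lib.SW

theorem estermann_abs_iter (n : ℕ) :
    iteratedDeriv n (fun s : ℂ => (s - 1)⁻¹) 2 = (-1) ^ n * n.factorial := by
  have h := congrFun (iter_deriv_inv_linear_sub (𝕜 := ℂ) n 1 1) 2
  rw [iteratedDeriv_eq_iterate]
  have h2 : (fun x : ℂ => (1 * x - 1)⁻¹) = fun x : ℂ => (x - 1)⁻¹ := by
    funext x; rw [one_mul]
  rw [h2] at h
  rw [h]
  have h3 : (1 * (2:ℂ) - 1) = 1 := by norm_num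
  rw [h3, one_zpow]
  ring

theorem estermann_abs_coef (H F : ℂ → ℂ) (lam : ℝ) (hH : Differentiable ℂ H)
    (hFH : ∀ s : ℂ, s ≠ 1 → F s = H s + (lam : ℂ) * (s - 1)⁻¹) (n : ℕ) :
    iteratedDeriv n F 2 = iteratedDeriv n H 2 + (lam : ℂ) * ((-1) ^ n * n.factorial) := by
  have hev : F =ᶠ[nhds (2 : ℂ)] (fun s => H s + (lam : ℂ) * (s - 1)⁻¹) := by
    have : ∀ᶠ s : ℂ in nhds (2 : ℂ), s ≠ 1 := by
      apply IsOpen.eventually_mem isOpen_ne
      norm_num
    filter_upwards [this] with s hs using hFH s hs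
  rw [hev.iteratedDeriv_eq]
  have hc : ContDiffAt ℂ n (fun s : ℂ => (s - 1)⁻¹) 2 := by
    apply ContDiffAt.inv
    · fun_prop
    · norm_num
  rw [iteratedDeriv_fun_add (hH.contDiff.contDiffAt) (contDiffAt_const.mul hc),
    iteratedDeriv_const_mul_field, estermann_abs_iter]

theorem estermann_abs_M (K : ℝ) (hK : 1 ≤ K) (y : ℝ) (hy : 0 < y) (hy8 : y ≤ 1 / 8) :
    ∃ M : ℕ, 1 ≤ M ∧ 16 * K * (3 / 4) ^ M ≤ 1 / 2 ∧
      (1 + y) ^ M ≤ 3 * (32 * K) ^ (4 * y) := by
  have h32 : 1 < 32 * K := by linarith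
  have h32' : 0 < 32 * K := by linarith
  have hlog : 0 < Real.log (32 * K) := Real.log_pos h32
  have hl43 : 1 / 4 ≤ Real.log (4 / 3) := by
    rw [Real.le_log_iff_exp_le (by norm_num)]
    have h1 : Real.exp (1 / 4) ^ 4 ≤ (4 / 3) ^ 4 := by
      rw [← Real.exp_nat_mul]
      have : ((4 : ℕ) : ℝ) * (1 / 4) = 1 := by norm_num
      rw [this]
      have := Real.exp_one_lt_d9
      norm_num
      linarith
    exact le_of_pow_le_pow_left₀ (by norm_num) (by norm_num) h1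
  have hl43p : 0 < Real.log (4 / 3) := by linarith
  set M := ⌈Real.log (32 * K) / Real.log (4 / 3)⌉₊ with hM
  have hMge : Real.log (32 * K) / Real.log (4 / 3) ≤ M := Nat.le_ceil _
  have hMlt : (M : ℝ) < Real.log (32 * K) / Real.log (4 / 3) + 1 :=
    Nat.ceil_lt_add_one (by positivity)
  have hdiv : Real.log (32 * K) / Real.log (4 / 3) ≤ 4 * Real.log (32 * K) := by
    rw [div_le_iff₀ hl43p]
    nlinarith
  refine ⟨M, ?_, ?_, ?_⟩
  · have : 0 < M := Nat.ceil_pos.mpr (by positivity)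
    exact this
  · have h1 : Real.log (32 * K) ≤ M * Real.log (4 / 3) := by
      rwa [div_le_iff₀ hl43p] at hMge
    have h2 : 32 * K ≤ (4 / 3) ^ M := by
      rw [← Real.log_pow] at h1
      exact (Real.log_le_log_iff h32' (by positivity)).mp h1
    have h3 : ((3 : ℝ) / 4) ^ M = ((4 / 3) ^ M)⁻¹ := by
      rw [← inv_pow]; norm_num
    rw [h3]
    have h4 : (0 : ℝ) < (4 / 3) ^ M := by positivity
    rw [← div_eq_mul_inv, div_le_iff₀ h4]
    linarith
  · have h1 : (1 + y) ^ M ≤ Real.exp (M * y) := by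
      rw [Real.exp_nat_mul]
      apply pow_le_pow_left₀ (by linarith)
      linarith [Real.add_one_le_exp y]
    have h2 : (M : ℝ) * y ≤ 1 + (4 * y) * Real.log (32 * K) := by
      nlinarith
    have h3 : Real.exp (1 + (4 * y) * Real.log (32 * K)) ≤ 3 * (32 * K) ^ (4 * y) := by
      rw [Real.exp_add, Real.rpow_def_of_pos h32', mul_comm (Real.log _)]
      have := Real.exp_one_lt_d9
      apply mul_le_mul_of_nonneg_right (by linarith) (Real.exp_pos _).le
    exact h1.trans ((Real.exp_le_exp.mpr h2).trans h3)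

theorem estermann_abs (G F : ℂ → ℂ) (hG : Differentiable ℂ G) (hFG : ∀ s : ℂ, s ≠ 1 → F s = G s / (s - 1))
    (K : ℝ) (hK : 1 ≤ K) (hGK : ∀ s : ℂ, ‖s - 2‖ ≤ 3 / 2 → ‖G s‖ ≤ K)
    (lam : ℝ) (hlam : 0 ≤ lam) (hG1 : G 1 = lam)
    (hb0 : 1 ≤ (F 2).re) (hb : ∀ n : ℕ, 0 ≤ (-1 : ℂ) ^ n * iteratedDeriv n F 2)
    (σ : ℝ) (h1 : 7 / 8 < σ) (h2 : σ < 1) (hF : (F σ).re ≤ 0) :
    1 - σ ≤ 6 * (32 * K) ^ (4 * (1 - σ)) * lam := by
  set H : ℂ → ℂ := dslope G 1 with hHdef
  have hH : Differentiable ℂ H := by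
    rw [← differentiableOn_univ, hHdef, Complex.differentiableOn_dslope Filter.univ_mem]
    exact hG.differentiableOn
  have hHs : ∀ s : ℂ, s ≠ 1 → H s = (G s - lam) / (s - 1) := by
    intro s hs
    rw [hHdef, dslope_of_ne _ hs, slope_def_field, hG1]
  have hFH : ∀ s : ℂ, s ≠ 1 → F s = H s + (lam : ℂ) * (s - 1)⁻¹ := by
    intro s hs
    rw [hFG s hs, hHs s hs]
    field_simp
    ring
  have hlamK : lam ≤ K := by
    have := hGK 1 (by norm_num)
    rw [hG1, Complex.norm_real, Real.norm_of_nonneg hlam] at this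
    exact this
  -- Cauchy
  have hcau : ∀ n : ℕ, ‖iteratedDeriv n H 2‖ ≤ n.factorial * (4 * K) / (3 / 2) ^ n := by
    intro n
    apply Complex.norm_iteratedDeriv_le_of_forall_mem_sphere_norm_le n (by norm_num)
      hH.diffContOnCl
    intro z hz
    have hz' : ‖z - 2‖ = 3 / 2 := by simpa [mem_sphere_iff_norm] using hz
    have hz1 : 1 / 2 ≤ ‖z - 1‖ := by
      have : ‖z - 2‖ ≤ ‖z - 1‖ + ‖(1 : ℂ)‖ := by
        have h := norm_sub_le (z - 1) 1
        have h' : z - 1 - 1 = z - 2 := by ring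
        rwa [h'] at h
      rw [hz', norm_one] at this
      linarith
    have hz2 : z ≠ 1 := by
      intro h
      rw [h, sub_self, norm_zero] at hz1
      linarith
    rw [hHs z hz2, norm_div]
    have hpos : 0 < ‖z - 1‖ := by linarith
    rw [div_le_iff₀ hpos]
    have h3 : ‖G z - lam‖ ≤ K + K := by
      refine (norm_sub_le _ _).trans ?_
      have := hGK z (by rw [hz'])
      rw [Complex.norm_real, Real.norm_of_nonneg hlam]
      linarith
    nlinarith
  set x : ℝ := 2 - σ with hx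
  have hx1 : 1 < x := by linarith
  have hx2 : x ≤ 9 / 8 := by linarith
  -- the coefficients
  set c : ℕ → ℂ := fun n => (n.factorial : ℂ)⁻¹ * ((-1) ^ n * iteratedDeriv n H 2) with hc
  have hcre : ∀ n, (c n).re ≥ - lam := by
    intro n
    have h := estermann_abs_coef H F lam hH hFH n
    have hpos := hb n
    rw [h] at hpos
    have hf : (n.factorial : ℂ) ≠ 0 := by exact_mod_cast n.factorial_ne_zero
    have e : (-1 : ℂ) ^ n * (iteratedDeriv n H 2 + (lam : ℂ) * ((-1) ^ n * n.factorial)) =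
        (n.factorial : ℂ) * (c n + lam) := by
      rw [hc]
      have : ((-1 : ℂ) ^ n) * ((-1 : ℂ) ^ n) = 1 := by
        rw [← mul_pow]; norm_num
      simp only
      field_simp
      linear_combination (lam : ℂ) * n.factorial * this
    rw [e] at hpos
    have hre := (Complex.le_def.mp hpos).1
    rw [Complex.zero_re, ← Complex.ofReal_natCast, Complex.re_ofReal_mul] at hre
    have hfp : (0 : ℝ) < n.factorial := by exact_mod_cast n.factorial_pos
    have := nonneg_of_mul_nonneg_right hre hfp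
    rw [Complex.add_re, Complex.ofReal_re] at this
    linarith
  have hc0 : (c 0).re ≥ 1 - lam := by
    have h := hFH 2 (by norm_num)
    have h' : c 0 = H 2 := by simp [hc]
    rw [h']
    have h3 : (F 2).re = (H 2).re + lam := by
      rw [h]
      have : ((2 : ℂ) - 1)⁻¹ = 1 := by norm_num
      rw [this, mul_one, Complex.add_re, Complex.ofReal_re]
    linarith
  have hcn : ∀ n, ‖c n‖ ≤ 4 * K * (2 / 3) ^ n := by
    intro n
    have hfp : (0 : ℝ) < n.factorial := by exact_mod_cast n.factorial_pos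
    have h := hcau n
    rw [hc]
    simp only [norm_mul, norm_inv, norm_pow, norm_neg, norm_one, one_pow, one_mul,
      Complex.norm_natCast]
    rw [inv_mul_le_iff₀ hfp]
    refine h.trans (le_of_eq ?_)
    have : ((2 : ℝ) / 3) ^ n = ((3 / 2) ^ n)⁻¹ := by rw [← inv_pow]; norm_num
    rw [this]
    ring
  have hsum : HasSum (fun n => c n * (x : ℂ) ^ n) (H σ) := by
    have h := Complex.hasSum_taylorSeries_of_entire hH 2 (σ : ℂ)
    have e : (fun n : ℕ => c n * (x : ℂ) ^ n) =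
        fun n : ℕ => (n.factorial : ℂ)⁻¹ • ((σ : ℂ) - 2) ^ n • iteratedDeriv n H 2 := by
      funext n
      rw [hc]
      simp only [smul_eq_mul]
      have : ((σ : ℂ) - 2) ^ n = (-1) ^ n * (x : ℂ) ^ n := by
        rw [← mul_pow, hx]
        push_cast
        ring
      rw [this]
      ring
    rw [e]
    exact h
  have hsre : HasSum (fun n => (c n).re * x ^ n) (H σ).re := by
    have h := Complex.hasSum_re hsum
    have e : (fun n : ℕ => (c n).re * x ^ n) = fun n : ℕ => (c n * (x : ℂ) ^ n).re := by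
      funext n
      rw [← Complex.ofReal_pow, Complex.re_mul_ofReal]
    rw [e]
    exact h
  obtain ⟨M, hM1, hM2, hM3⟩ := estermann_abs_M K hK (1 - σ) (by linarith) (by linarith)
  have hx3 : 1 + (1 - σ) = x := by rw [hx]; ring
  rw [hx3] at hM3
  -- head
  have hhead : 1 - lam * ∑ n ∈ Finset.range M, x ^ n ≤ ∑ n ∈ Finset.range M, (c n).re * x ^ n := by
    obtain ⟨m, rfl⟩ : ∃ m, M = m + 1 := ⟨M - 1, by omega⟩
    rw [Finset.sum_range_succ', Finset.sum_range_succ' (fun n => (c n).re * x ^ n), mul_add,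
      Finset.mul_sum]
    have : ∑ n ∈ Finset.range m, -(lam * x ^ (n + 1)) ≤
        ∑ n ∈ Finset.range m, (c (n + 1)).re * x ^ (n + 1) := by
      apply Finset.sum_le_sum
      intro n _
      have h := hcre (n + 1)
      have hp : 0 < x ^ (n + 1) := by positivity
      nlinarith
    rw [Finset.sum_neg_distrib] at this
    simp only [pow_zero, mul_one]
    linarith
  -- tail
  have htail : -(16 * K * (3 / 4) ^ M) ≤ ∑' n, (c (n + M)).re * x ^ (n + M) := by
    have hg : HasSum (fun n : ℕ => 4 * K * (3 / 4 : ℝ) ^ (n + M)) (16 * K * (3 / 4) ^ M) := by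
      have h := (hasSum_geometric_of_lt_one (r := (3 / 4 : ℝ)) (by norm_num) (by norm_num)).mul_left
        (4 * K * (3 / 4) ^ M)
      have e : (fun n : ℕ => 4 * K * (3 / 4 : ℝ) ^ (n + M)) =
          fun n : ℕ => 4 * K * (3 / 4) ^ M * (3 / 4) ^ n := by
        funext n; rw [pow_add]; ring
      have e2 : 16 * K * (3 / 4 : ℝ) ^ M = 4 * K * (3 / 4) ^ M * (1 - 3 / 4)⁻¹ := by
        norm_num; ring
      rw [e, e2]
      exact h
    have hs2 : Summable (fun n => (c (n + M)).re * x ^ (n + M)) :=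
      (summable_nat_add_iff (f := fun n => (c n).re * x ^ n) M).mpr hsre.summable
    have hb' : ∀ n, -(4 * K * (3 / 4 : ℝ) ^ (n + M)) ≤ (c (n + M)).re * x ^ (n + M) := by
      intro n
      have h := (Complex.abs_re_le_norm (c (n + M))).trans (hcn (n + M))
      have h' := (abs_le.mp h).1
      have hp : 0 < x ^ (n + M) := by positivity
      have h4 : (2 / 3 : ℝ) ^ (n + M) * x ^ (n + M) ≤ (3 / 4) ^ (n + M) := by
        rw [← mul_pow]
        apply pow_le_pow_left₀ (by positivity)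
        linarith
      have h5 : -(4 * K * (2 / 3) ^ (n + M)) * x ^ (n + M) ≤ (c (n + M)).re * x ^ (n + M) :=
        mul_le_mul_of_nonneg_right h' hp.le
      have h6 : 4 * K * ((2 / 3 : ℝ) ^ (n + M) * x ^ (n + M)) ≤ 4 * K * (3 / 4) ^ (n + M) :=
        mul_le_mul_of_nonneg_left h4 (by linarith)
      linarith
    have := hg.neg.summable.tsum_le_tsum hb' hs2
    rwa [hg.neg.tsum_eq] at this
  have hsplit := hsre.summable.sum_add_tsum_nat_add M
  rw [hsre.tsum_eq] at hsplit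
  have hgeom : (∑ n ∈ Finset.range M, x ^ n) * (x - 1) = x ^ M - 1 := geom_sum_mul x M
  have hσ1 : (σ : ℂ) ≠ 1 := by
    intro h
    have : σ = 1 := by exact_mod_cast h
    linarith
  have hFre : (F σ).re = (H σ).re - lam / (1 - σ) := by
    rw [hFH σ hσ1, Complex.add_re]
    have : ((σ : ℂ) - 1)⁻¹ = ((-(1 - σ)⁻¹ : ℝ) : ℂ) := by
      push_cast
      rw [neg_inv]
      congr 1
      ring
    rw [this, ← Complex.ofReal_mul, Complex.ofReal_re]
    rw [div_eq_mul_inv]; ring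
  have hy : 0 < 1 - σ := by linarith
  have hxy : x - 1 = 1 - σ := by rw [hx]; ring
  have hS : ∑ n ∈ Finset.range M, x ^ n = (x ^ M - 1) / (1 - σ) := by
    rw [eq_div_iff hy.ne', ← hxy, hgeom]
  rw [hS] at hhead
  have hfin : 1 / 2 ≤ lam * (x ^ M / (1 - σ)) := by
    have e : lam * (x ^ M / (1 - σ)) = lam * ((x ^ M - 1) / (1 - σ)) + lam / (1 - σ) := by
      field_simp
      ring
    rw [e]
    rw [hFre] at hF
    linarith
  have h7 : (1 - σ) ≤ 2 * lam * x ^ M := by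
    rw [← mul_div_assoc, le_div_iff₀ hy] at hfin
    linarith
  have h8 : 2 * lam * x ^ M ≤ 2 * lam * (3 * (32 * K) ^ (4 * (1 - σ))) :=
    mul_le_mul_of_nonneg_left hM3 (by linarith)
  linarith

/-- the entire function `(s - 1) ζ(s)` -/
theorem estermann_zeta₁ (s : ℂ) (hs : s ≠ 1) :
    DirichletCharacter.LFunctionTrivChar₁ 1 s = (s - 1) * riemannZeta s := by
  rw [DirichletCharacter.LFunctionTrivChar₁, Function.update_of_ne hs,
    DirichletCharacter.LFunctionTrivChar, DirichletCharacter.LFunction_modOne_eq]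

theorem estermann_zeta₁_one : DirichletCharacter.LFunctionTrivChar₁ 1 1 = 1 := by
  rw [DirichletCharacter.LFunctionTrivChar₁, Function.update_self]
  simp

theorem estermann_bound : ∃ B : ℝ, 1 ≤ B ∧ ∀ s : ℂ, ‖s - 2‖ ≤ 3 / 2 →
    ‖DirichletCharacter.LFunctionTrivChar₁ 1 s‖ ≤ B := by
  have hc : IsCompact (Metric.closedBall (2 : ℂ) (3 / 2)) := isCompact_closedBall _ _
  obtain ⟨B, hB⟩ := hc.exists_bound_of_continuousOn
    (DirichletCharacter.differentiable_LFunctionTrivChar₁ 1).continuous.continuousOn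
  refine ⟨max B 1, le_max_right _ _, fun s hs => (hB s ?_).trans (le_max_left _ _)⟩
  rwa [mem_closedBall_iff_norm]

theorem estermann_LB {q : ℕ} [NeZero q] {χ : DirichletCharacter ℂ q} (hχ : χ ≠ 1) (s : ℂ)
    (hs : ‖s - 2‖ ≤ 3 / 2) : ‖DirichletCharacter.LFunction χ s‖ ≤ 18 * q := by
  have h1 : 1 / 2 ≤ s.re := by
    have := (abs_le.mp ((Complex.abs_re_le_norm (s - 2)).trans hs)).1
    simp only [Complex.sub_re, Complex.re_ofNat] at this
    linarith
  have h2 : ‖s‖ ≤ 7 / 2 := by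
    have : ‖s‖ ≤ ‖s - 2‖ + ‖(2 : ℂ)‖ := by
      have h := norm_add_le (s - 2) 2
      rwa [sub_add_cancel] at h
    rw [Complex.norm_ofNat] at this
    linarith
  have h := LFunction_crude hχ s h1
  have hq : (0 : ℝ) ≤ q := Nat.cast_nonneg q
  nlinarith

theorem estermann :
    ∃ C : ℝ, 0 < C ∧ ∀ (q₁ q₂ q₃ : ℕ) [NeZero q₁] [NeZero q₂] [NeZero q₃]
      (χ₁ : DirichletCharacter ℂ q₁) (χ₂ : DirichletCharacter ℂ q₂)
      (χ₃ : DirichletCharacter ℂ q₃), q₃ = q₁ * q₂ → χ₁ ≠ 1 → χ₂ ≠ 1 → χ₃ ≠ 1 →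
      χ₁ ^ 2 = 1 → χ₂ ^ 2 = 1 → (∀ n : ℕ, ch χ₃ n = ch χ₁ n * ch χ₂ n) →
      ∀ σ : ℝ, 7 / 8 < σ → σ < 1 →
        (riemannZeta σ * DirichletCharacter.LFunction χ₁ σ *
          DirichletCharacter.LFunction χ₂ σ * DirichletCharacter.LFunction χ₃ σ).re ≤ 0 →
        1 - σ ≤ C * (q₃ : ℝ) ^ (C * (1 - σ)) *
          ‖DirichletCharacter.LFunction χ₁ 1 * DirichletCharacter.LFunction χ₂ 1 *
            DirichletCharacter.LFunction χ₃ 1‖ := by
  obtain ⟨B, hB1, hB⟩ := estermann_bound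
  set C₀ : ℝ := 5832 * B with hC₀
  set C : ℝ := max 8 (6 * (32 * C₀) ^ (1 / 2 : ℝ)) with hC
  refine ⟨C, lt_of_lt_of_le (by norm_num) (le_max_left _ _), ?_⟩
  intro q₁ q₂ q₃ _ _ _ χ₁ χ₂ χ₃ hq hχ₁ hχ₂ hχ₃ h₁ h₂ h₃ σ hσ1 hσ2 hre
  set G : ℂ → ℂ := fun s => DirichletCharacter.LFunctionTrivChar₁ 1 s *
    DirichletCharacter.LFunction χ₁ s * DirichletCharacter.LFunction χ₂ s *
    DirichletCharacter.LFunction χ₃ s with hG
  set F : ℂ → ℂ := fun s => riemannZeta s * DirichletCharacter.LFunction χ₁ s *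
    DirichletCharacter.LFunction χ₂ s * DirichletCharacter.LFunction χ₃ s with hF
  have hGd : Differentiable ℂ G := by
    have e1 := DirichletCharacter.differentiable_LFunctionTrivChar₁ 1
    have e2 := DirichletCharacter.differentiable_LFunction hχ₁
    have e3 := DirichletCharacter.differentiable_LFunction hχ₂
    have e4 := DirichletCharacter.differentiable_LFunction hχ₃
    exact ((e1.mul e2).mul e3).mul e4
  have hGF : ∀ s : ℂ, s ≠ 1 → G s = (s - 1) * F s := by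
    intro s hs
    simp only [hG, hF]
    rw [estermann_zeta₁ s hs]
    ring
  have hFG : ∀ s : ℂ, s ≠ 1 → F s = G s / (s - 1) := by
    intro s hs
    rw [hGF s hs]
    have : s - 1 ≠ 0 := sub_ne_zero.mpr hs
    field_simp
  have hFL : ∀ s : ℂ, 1 < s.re → F s = LSeries (coef4 χ₁ χ₂) s := by
    intro s hs
    rw [(coef4_LSeries χ₁ χ₂ χ₃ h₃ s hs).2]
  have hLs : ∀ s : ℂ, 1 < s.re → LSeriesSummable (coef4 χ₁ χ₂) s := fun s hs =>
    (coef4_LSeries χ₁ χ₂ χ₃ h₃ s hs).1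
  have hann : ∀ n, 0 ≤ coef4 χ₁ χ₂ n := coef4_nonneg χ₁ χ₂ h₁ h₂
  have hterm : ∀ (x : ℝ) (n : ℕ), 0 ≤ LSeries.term (coef4 χ₁ χ₂) x n := by
    intro x n
    exact LSeries.term_nonneg (hann n) x
  -- value at one
  have hG1 : 0 ≤ G 1 := by
    have hcont : Filter.Tendsto (fun x : ℝ => G (x : ℂ)) (nhdsWithin 1 (Set.Ioi 1)) (nhds (G 1)) := by
      have h : Continuous (fun x : ℝ => G (x : ℂ)) := hGd.continuous.comp Complex.continuous_ofReal
      have h2 := h.tendsto 1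
      rw [Complex.ofReal_one] at h2
      exact h2.mono_left nhdsWithin_le_nhds
    have hev : ∀ᶠ x : ℝ in nhdsWithin 1 (Set.Ioi 1), 0 ≤ G (x : ℂ) := by
      filter_upwards [self_mem_nhdsWithin] with x hx
      have hx' : (1 : ℝ) < x := hx
      have hx1 : (x : ℂ) ≠ 1 := by
        intro h
        have : x = 1 := by exact_mod_cast h
        linarith
      rw [hGF x hx1, hFL x (by simpa using hx')]
      apply mul_nonneg
      · rw [← Complex.ofReal_one, ← Complex.ofReal_sub]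
        exact Complex.zero_le_real.mpr (by linarith)
      · exact tsum_nonneg (hterm x)
    rw [Complex.le_def]
    constructor
    · rw [Complex.zero_re]
      have h := (Complex.continuous_re.tendsto (G 1)).comp hcont
      refine ge_of_tendsto h ?_
      filter_upwards [hev] with x hx
      exact (Complex.le_def.mp hx).1
    · rw [Complex.zero_im]
      have h := (Complex.continuous_im.tendsto (G 1)).comp hcont
      refine tendsto_nhds_unique (f := fun _ : ℝ => (0 : ℝ)) tendsto_const_nhds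
        (h.congr' ?_)
      filter_upwards [hev] with x hx
      exact (Complex.le_def.mp hx).2.symm
  have hG1' : G 1 = ((‖DirichletCharacter.LFunction χ₁ 1 * DirichletCharacter.LFunction χ₂ 1 *
            DirichletCharacter.LFunction χ₃ 1‖ : ℝ) : ℂ) := by
    have e : G 1 = DirichletCharacter.LFunction χ₁ 1 * DirichletCharacter.LFunction χ₂ 1 *
            DirichletCharacter.LFunction χ₃ 1 := by
      simp only [hG]
      rw [estermann_zeta₁_one, one_mul]
    rw [← e]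
    exact Complex.eq_coe_norm_of_nonneg hG1
  have hq3 : (1 : ℝ) ≤ q₃ := by exact_mod_cast Nat.one_le_iff_ne_zero.mpr (NeZero.ne q₃)
  have hC₀1 : 5832 ≤ C₀ := by rw [hC₀]; linarith
  set K : ℝ := C₀ * (q₃ : ℝ) ^ 2 with hK
  have hq32 : (1 : ℝ) ≤ (q₃ : ℝ) ^ 2 := one_le_pow₀ hq3
  have hK1 : 1 ≤ K := by rw [hK]; nlinarith
  have hGK : ∀ s : ℂ, ‖s - 2‖ ≤ 3 / 2 → ‖G s‖ ≤ K := by
    intro s hs
    simp only [hG, norm_mul]
    have e1 := hB s hs
    have e2 := estermann_LB hχ₁ s hs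
    have e3 := estermann_LB hχ₂ s hs
    have e4 := estermann_LB hχ₃ s hs
    have hq1 : (0 : ℝ) ≤ q₁ := Nat.cast_nonneg _
    have hq2 : (0 : ℝ) ≤ q₂ := Nat.cast_nonneg _
    calc _ ≤ B * (18 * q₁) * (18 * q₂) * (18 * q₃) := by gcongr
      _ = K := by
        rw [hK, hC₀]
        have : (q₃ : ℝ) = q₁ * q₂ := by exact_mod_cast hq
        rw [this]; ring
  have hb0 : 1 ≤ (F 2).re := by
    have h2 : (1 : ℝ) < ((2 : ℝ) : ℂ).re := by simp
    have e : F 2 = LSeries (coef4 χ₁ χ₂) ((2 : ℝ) : ℂ) := by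
      rw [← hFL _ h2]; norm_num
    rw [e, LSeries]
    have hs : Summable (LSeries.term (coef4 χ₁ χ₂) ((2 : ℝ) : ℂ)) := hLs _ h2
    rw [Complex.re_tsum hs]
    have hsr : Summable (fun n => (LSeries.term (coef4 χ₁ χ₂) ((2 : ℝ) : ℂ) n).re) :=
      (Complex.hasSum_re hs.hasSum).summable
    have h := hsr.le_tsum 1 (fun j _ => (Complex.le_def.mp (hterm 2 j)).1)
    refine le_trans ?_ h
    rw [LSeries.term_of_ne_zero one_ne_zero, coef4_one]
    simp
  have habs : LSeries.abscissaOfAbsConv (coef4 χ₁ χ₂) < ((2 : ℝ) : EReal) := by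
    have h := (hLs ((3 / 2 : ℝ) : ℂ) (by rw [Complex.ofReal_re]; norm_num)).abscissaOfAbsConv_le
    rw [Complex.ofReal_re] at h
    refine lt_of_le_of_lt h ?_
    exact_mod_cast (by norm_num : (3 / 2 : ℝ) < 2)
  have hb : ∀ n : ℕ, 0 ≤ (-1 : ℂ) ^ n * iteratedDeriv n F 2 := by
    intro n
    have h := LSeries.iteratedDeriv_alternating (a := coef4 χ₁ χ₂) (fun n => hann n) habs n
    have hev : F =ᶠ[nhds (2 : ℂ)] LSeries (coef4 χ₁ χ₂) := by
      have : ∀ᶠ s : ℂ in nhds (2 : ℂ), 1 < s.re := by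
        apply IsOpen.eventually_mem (isOpen_lt continuous_const Complex.continuous_re)
        simp
      filter_upwards [this] with s hs using hFL s hs
    rw [hev.iteratedDeriv_eq]
    have e : (((2 : ℝ) : ℂ)) = 2 := by norm_num
    rw [← e]
    exact h
  have hmain := estermann_abs G F hGd hFG K hK1 hGK _ (norm_nonneg _) hG1' hb0 hb σ hσ1 hσ2 hre
  refine hmain.trans ?_
  apply mul_le_mul_of_nonneg_right _ (norm_nonneg _)
  have hy : 0 < 1 - σ := by linarith
  have e1 : (32 * K) ^ (4 * (1 - σ)) = (32 * C₀) ^ (4 * (1 - σ)) * (q₃ : ℝ) ^ (8 * (1 - σ)) := by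
    rw [hK, ← mul_assoc, Real.mul_rpow (by positivity) (by positivity), ← Real.rpow_natCast,
      ← Real.rpow_mul (by linarith)]
    congr 2
    push_cast
    ring
  rw [e1, ← mul_assoc]
  have e2 : (32 * C₀) ^ (4 * (1 - σ)) ≤ (32 * C₀) ^ (1 / 2 : ℝ) :=
    Real.rpow_le_rpow_of_exponent_le (by linarith) (by linarith)
  have e3 : (q₃ : ℝ) ^ (8 * (1 - σ)) ≤ (q₃ : ℝ) ^ (C * (1 - σ)) :=
    Real.rpow_le_rpow_of_exponent_le hq3
      (mul_le_mul_of_nonneg_right (le_max_left _ _) hy.le)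
  have e4 : 6 * (32 * C₀) ^ (4 * (1 - σ)) ≤ C :=
    (mul_le_mul_of_nonneg_left e2 (by norm_num)).trans (le_max_right _ _)
  exact mul_le_mul e4 e3 (by positivity) ((by norm_num : (0 : ℝ) ≤ 8).trans (le_max_left _ _))

end Pool.Agent.Lib.SW
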