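import Pool.Agent.Lib.SW.SP1
import Pool.Agent.Lib.Sieve.Mertens

/-!
# FW-2: multiplicative majorants on short intervals and progressions (elementary)

`BK K w n = ∏_{p | n, p > w} (1 + K/p)`.

PROOF of `sum_BK`. n ≤ 3x has at most log(3x)/log log x prime factors > log x, so ∏_{p | n, p > log x} (1 + K/p) ≤
exp(K log(3x)/(log x · log log x)) ≤ 1 + η/4 for large x. For the primes w < p ≤ log x: ∏ (1 + K/p) over p | n = ∑_{d | n, d squarefree with primes in (w, log x]} K^ω(d)/d;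
the number of n in (y, y+J], n ≡ c mod W, d | n is ≤ J/(W d) + 1 (W coprime to d since all primes of W are ≤ w), so the sum is
≤ (J/W) ∏_{p>w} (1 + K/p²) + ∏_{p ≤ log x} (1 + K/p) ≤ (J/W) exp(K/w) + (C log log x)^⌈K⌉ (`mertens_product_upper`, (1+1/p)^K' ≥ 1 + K'/p), and
(C log log x)^K' ≤ (η/4) J/W for large x because J/W ≥ (log x)^(1/4).
-/

open Finset

namespace Pool.Agent.Lib.SW

/-- `∏_{p | n, p > w} (1 + K/p)` -/
noncomputable def BK (K : ℝ) (w n : ℕ) : ℝ :=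
  ∏ p ∈ n.primeFactors.filter (fun p => w < p), (1 + K / p)

theorem one_le_BK (K : ℝ) (hK : 0 ≤ K) (w n : ℕ) : 1 ≤ BK K w n := by
  unfold BK
  have := Finset.prod_le_prod (s := n.primeFactors.filter (fun p => w < p))
    (f := fun _ => (1 : ℝ)) (g := fun p : ℕ => 1 + K / (p : ℝ)) (fun _ _ => zero_le_one)
    (fun p _ => by
      have : 0 ≤ K / (p : ℝ) := by positivity
      linarith)
  simpa using this

/-- multiples of `d` in a progression modulo `W`, `(d, W) = 1` -/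
theorem FW2_count (y J W c d : ℕ) (hW : 1 ≤ W) (hd : 1 ≤ d) (hco : Nat.Coprime W d) :
    (((Ioc y (y + J)).filter (fun n => n ≡ c [MOD W] ∧ d ∣ n)).card : ℝ) ≤
      (J : ℝ) / ((W : ℝ) * d) + 1 := by
  obtain ⟨c', hc1, hc2⟩ := Nat.chineseRemainder hco c 0
  have h1 : (Ioc y (y + J)).filter (fun n => n ≡ c [MOD W] ∧ d ∣ n) =
      (Ioc y (y + J)).filter (fun n => n ≡ c' [MOD (W * d)]) := by
    refine filter_congr fun n _ => ?_
    rw [← Nat.modEq_and_modEq_iff_modEq_mul hco]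
    constructor
    · rintro ⟨h2, h3⟩
      exact ⟨h2.trans hc1.symm, ((Nat.modEq_zero_iff_dvd.2 h3).trans hc2.symm)⟩
    · rintro ⟨h2, h3⟩
      exact ⟨h2.trans hc1, Nat.modEq_zero_iff_dvd.1 (h3.trans hc2)⟩
  rw [h1]
  have hr : 0 < W * d := Nat.mul_pos hW hd
  have h2 := Nat.Ioc_filter_modEq_card y (y + J) hr c'
  have h3 : (((Ioc y (y + J)).filter (fun n => n ≡ c' [MOD (W * d)])).card : ℤ) =
    max (⌊((((y + J : ℕ) : ℚ) - c') / ((W * d : ℕ) : ℚ))⌋ - ⌊(((y : ℕ) : ℚ) - c') / ((W * d : ℕ) : ℚ)⌋) 0 := h2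
  have h4 : ((((Ioc y (y + J)).filter (fun n => n ≡ c' [MOD (W * d)])).card : ℤ) : ℚ) ≤
      (J : ℚ) / ((W : ℚ) * d) + 1 := by
    rw [h3]
    push_cast
    refine max_le ?_ (by positivity)
    have h5 := Int.floor_le (((y : ℚ) + J - c') / ((W : ℚ) * d))
    have h6 := Int.lt_floor_add_one (((y : ℚ) - c') / ((W : ℚ) * d))
    have h7 : ((y : ℚ) + J - c') / ((W : ℚ) * d) = ((y : ℚ) - c') / ((W : ℚ) * d) + J / ((W : ℚ) * d) := by
      ring
    linarith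
  have h5 : (((((Ioc y (y + J)).filter (fun n => n ≡ c' [MOD (W * d)])).card : ℤ) : ℚ) : ℝ) ≤
      (((J : ℚ) / ((W : ℚ) * d) + 1 : ℚ) : ℝ) := by exact_mod_cast h4
  push_cast at h5
  exact h5

/-- expansion over subsets of the primes in `(w, T]` -/
theorem FW2_expand (K : ℝ) (hK : 0 ≤ K) (w T W y J c : ℕ) (hW : 1 ≤ W)
    (hWp : ∀ p : ℕ, p.Prime → p ∣ W → p ≤ w) :
    ∑ n ∈ (Ioc y (y + J)).filter (fun n => n ≡ c [MOD W]),
      ∏ p ∈ ((Icc (w + 1) T).filter Nat.Prime).filter (fun p => p ∣ n), (1 + K / (p : ℝ)) ≤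
    (J : ℝ) / W * ∏ p ∈ (Icc (w + 1) T).filter Nat.Prime, (1 + K / (p : ℝ) ^ 2) +
      ∏ p ∈ (Icc (w + 1) T).filter Nat.Prime, (1 + K / (p : ℝ)) := by
  set P : Finset ℕ := (Icc (w + 1) T).filter Nat.Prime with hP
  have hPw : ∀ p ∈ P, w < p := fun p hp => by
    have := (mem_Icc.1 (mem_filter.1 hp).1).1
    omega
  have hPp : ∀ p ∈ P, p.Prime := fun p hp => (mem_filter.1 hp).2
  have hc0 : ∀ p : ℕ, 0 ≤ K / (p : ℝ) := fun p => by positivity
  have h1 : ∀ n : ℕ, ∏ p ∈ P.filter (fun p => p ∣ n), (1 + K / (p : ℝ)) ≤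
      ∑ D ∈ P.powerset, (∏ p ∈ D, K / (p : ℝ)) * (if (∏ p ∈ D, p) ∣ n then 1 else 0) := by
    intro n
    have e2 : ∏ p ∈ P.filter (fun p => p ∣ n), (1 + K / (p : ℝ)) =
        ∏ p ∈ P, (1 + K / (p : ℝ) * (if p ∣ n then 1 else 0)) := by
      rw [prod_filter]
      refine prod_congr rfl fun p _ => ?_
      by_cases h3 : p ∣ n
      · rw [if_pos h3, if_pos h3, mul_one]
      · rw [if_neg h3, if_neg h3, mul_zero, add_zero]
    rw [e2, prod_one_add]
    refine sum_le_sum fun D hD => ?_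
    have hD' := mem_powerset.1 hD
    rw [prod_mul_distrib]
    refine mul_le_mul_of_nonneg_left ?_ (prod_nonneg fun p _ => hc0 p)
    by_cases h3 : (∏ p ∈ D, p) ∣ n
    · rw [if_pos h3]
      refine prod_le_one (fun p _ => by split_ifs <;> norm_num) fun p _ => by
        split_ifs <;> norm_num
    · rw [if_neg h3]
      have : ∃ p ∈ D, ¬ p ∣ n := by
        by_contra hcon
        push Not at hcon
        exact h3 (Finset.prod_primes_dvd n (fun p hp => (hPp p (hD' hp)).prime) hcon)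
      obtain ⟨p, hp, hpn⟩ := this
      rw [prod_eq_zero hp (if_neg hpn)]
  calc ∑ n ∈ (Ioc y (y + J)).filter (fun n => n ≡ c [MOD W]),
        ∏ p ∈ P.filter (fun p => p ∣ n), (1 + K / (p : ℝ))
      ≤ ∑ n ∈ (Ioc y (y + J)).filter (fun n => n ≡ c [MOD W]),
          ∑ D ∈ P.powerset, (∏ p ∈ D, K / (p : ℝ)) * (if (∏ p ∈ D, p) ∣ n then 1 else 0) :=
        sum_le_sum fun n _ => h1 n
    _ = ∑ D ∈ P.powerset, (∏ p ∈ D, K / (p : ℝ)) *
          (((Ioc y (y + J)).filter (fun n => n ≡ c [MOD W] ∧ (∏ p ∈ D, p) ∣ n)).card : ℝ) := by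
        rw [sum_comm]
        refine sum_congr rfl fun D _ => ?_
        rw [← mul_sum, ← sum_filter, filter_filter, sum_const, nsmul_eq_mul, mul_one]
    _ ≤ ∑ D ∈ P.powerset, (∏ p ∈ D, K / (p : ℝ)) *
          ((J : ℝ) / ((W : ℝ) * ((∏ p ∈ D, p : ℕ) : ℝ)) + 1) := by
        refine sum_le_sum fun D hD => ?_
        have hD' := mem_powerset.1 hD
        refine mul_le_mul_of_nonneg_left ?_ (prod_nonneg fun p _ => hc0 p)
        refine FW2_count y J W c _ hW (Nat.one_le_iff_ne_zero.2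
          (prod_ne_zero_iff.2 fun p hp => (hPp p (hD' hp)).ne_zero)) ?_
        refine Nat.Coprime.prod_right fun p hp => ?_
        rw [Nat.coprime_comm, Nat.Prime.coprime_iff_not_dvd (hPp p (hD' hp))]
        intro h
        have := hWp p (hPp p (hD' hp)) h
        have := hPw p (hD' hp)
        omega
    _ = ∑ D ∈ P.powerset, ((J : ℝ) / W * (∏ p ∈ D, K / (p : ℝ) ^ 2) +
          ∏ p ∈ D, K / (p : ℝ)) := by
        refine sum_congr rfl fun D hD => ?_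
        have hD' := mem_powerset.1 hD
        have h2 : ∏ p ∈ D, K / (p : ℝ) ^ 2 = (∏ p ∈ D, K / (p : ℝ)) / ((∏ p ∈ D, p : ℕ) : ℝ) := by
          push_cast
          rw [← prod_div_distrib]
          refine prod_congr rfl fun p _ => ?_
          rw [div_div, sq]
        rw [h2, mul_add, mul_one]
        have h3 : ((∏ p ∈ D, p : ℕ) : ℝ) ≠ 0 := by
          have : (∏ p ∈ D, p : ℕ) ≠ 0 := prod_ne_zero_iff.2 fun p hp => (hPp p (hD' hp)).ne_zero
          exact_mod_cast this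
        have h4 : (W : ℝ) ≠ 0 := by
          have : W ≠ 0 := by omega
          exact_mod_cast this
        congr 1
        field_simp
    _ = _ := by
        rw [sum_add_distrib, ← mul_sum, ← prod_one_add, ← prod_one_add]

/-- the convergent factor -/
theorem FW2_sq (K : ℝ) (hK : 0 ≤ K) (w T : ℕ) (hw : 1 ≤ w) :
    ∏ p ∈ (Icc (w + 1) T).filter Nat.Prime, (1 + K / (p : ℝ) ^ 2) ≤ Real.exp (K / w) := by
  have h1 : ∏ p ∈ (Icc (w + 1) T).filter Nat.Prime, (1 + K / (p : ℝ) ^ 2) ≤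
      ∏ p ∈ (Icc (w + 1) T).filter Nat.Prime, Real.exp (K / (p : ℝ) ^ 2) := by
    refine prod_le_prod (fun p _ => by positivity) fun p _ => ?_
    have := Real.add_one_le_exp (K / (p : ℝ) ^ 2)
    linarith
  refine h1.trans ?_
  rw [← Real.exp_sum]
  refine Real.exp_le_exp.2 ?_
  calc ∑ p ∈ (Icc (w + 1) T).filter Nat.Prime, K / (p : ℝ) ^ 2
      ≤ ∑ p ∈ Icc (w + 1) T, K / (p : ℝ) ^ 2 :=
        sum_le_sum_of_subset_of_nonneg (filter_subset _ _) fun p _ _ => by positivity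
    _ ≤ ∑ p ∈ Icc (w + 1) T, K * (1 / ((p : ℝ) * ((p : ℝ) - 1))) := by
        refine sum_le_sum fun p hp => ?_
        rw [mem_Icc] at hp
        have h2 : (2 : ℝ) ≤ p := by
          have : 2 ≤ p := by omega
          exact_mod_cast this
        rw [mul_one_div]
        refine div_le_div_of_nonneg_left hK (by nlinarith) (by nlinarith)
    _ = K * ∑ p ∈ Icc (w + 1) T, 1 / ((p : ℝ) * ((p : ℝ) - 1)) := by rw [mul_sum]
    _ ≤ K * (1 / w) := mul_le_mul_of_nonneg_left (sp1_sum w T hw) hK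
    _ = K / w := by ring

/-- the divergent factor is a power of `log T` -/
theorem FW2_lin (K : ℝ) (hK : 0 ≤ K) : ∃ C : ℝ, 0 < C ∧ ∀ w T : ℕ, 2 ≤ T →
    ∏ p ∈ (Icc (w + 1) T).filter Nat.Prime, (1 + K / (p : ℝ)) ≤ (C * Real.log T) ^ ⌈K⌉₊ := by
  obtain ⟨C, hC, hM⟩ := Sieve.mertens_product_upper
  refine ⟨C, hC, fun w T hT => ?_⟩
  have h1 : ∀ p ∈ (Icc 1 T).filter Nat.Prime, 1 + K / (p : ℝ) ≤ ((1 - (1 : ℝ) / p)⁻¹) ^ ⌈K⌉₊ := by
    intro p hp
    have hp' := (mem_filter.1 hp).2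
    have hp2 : (2 : ℝ) ≤ p := by exact_mod_cast hp'.two_le
    have hp0 : (0 : ℝ) < 1 / p := by positivity
    have hp1 : (1 : ℝ) / p ≤ 1 / 2 := one_div_le_one_div_of_le (by norm_num) hp2
    have h2 : 1 + K / (p : ℝ) ≤ 1 + (⌈K⌉₊ : ℝ) * (1 / p) := by
      have := mul_le_mul_of_nonneg_right (Nat.le_ceil K) hp0.le
      have e : K * (1 / (p : ℝ)) = K / p := by ring
      linarith
    have h3 : 1 + (⌈K⌉₊ : ℝ) * (1 / p) ≤ (1 + 1 / (p : ℝ)) ^ ⌈K⌉₊ :=
      one_add_mul_le_pow (by linarith) _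
    have h4 : 1 + 1 / (p : ℝ) ≤ (1 - (1 : ℝ) / p)⁻¹ := by
      rw [← one_div (1 - (1 : ℝ) / p), le_div_iff₀ (by linarith)]
      nlinarith
    exact h2.trans (h3.trans (pow_le_pow_left₀ (by linarith) h4 _))
  have h5 : ∀ p ∈ (Icc 1 T).filter Nat.Prime, 1 ≤ 1 + K / (p : ℝ) := fun p _ => by
    have : 0 ≤ K / (p : ℝ) := by positivity
    linarith
  calc ∏ p ∈ (Icc (w + 1) T).filter Nat.Prime, (1 + K / (p : ℝ))
      ≤ ∏ p ∈ (Icc 1 T).filter Nat.Prime, (1 + K / (p : ℝ)) := by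
        refine prod_le_prod_of_subset_of_one_le (filter_subset_filter _
          (Icc_subset_Icc (by omega) le_rfl)) (fun p _ => by positivity) fun p hp _ => h5 p hp
    _ ≤ ∏ p ∈ (Icc 1 T).filter Nat.Prime, ((1 - (1 : ℝ) / p)⁻¹) ^ ⌈K⌉₊ :=
        prod_le_prod (fun p _ => by positivity) h1
    _ = (∏ p ∈ (Icc 1 T).filter Nat.Prime, (1 - (1 : ℝ) / p)⁻¹) ^ ⌈K⌉₊ := by rw [prod_pow]
    _ ≤ (C * Real.log T) ^ ⌈K⌉₊ := by
        refine pow_le_pow_left₀ (prod_nonneg fun p hp => ?_) (hM T hT) _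
        have hp2 : (2 : ℝ) ≤ p := by exact_mod_cast (mem_filter.1 hp).2.two_le
        have hp1 : (1 : ℝ) / p ≤ 1 / 2 := one_div_le_one_div_of_le (by norm_num) hp2
        rw [inv_nonneg]
        linarith

/-- splitting off the primes `> T` -/
theorem FW2_split (K : ℝ) (hK : 0 ≤ K) (w T n : ℕ) (hT : 2 ≤ T) (hn : 1 ≤ n) :
    BK K w n ≤ (∏ p ∈ ((Icc (w + 1) T).filter Nat.Prime).filter (fun p => p ∣ n),
      (1 + K / (p : ℝ))) * Real.exp (K * (Real.log n / (T * Real.log T))) := by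
  have hTR : (2 : ℝ) ≤ T := by exact_mod_cast hT
  have hlT : 0 < Real.log T := Real.log_pos (by linarith)
  set A := n.primeFactors.filter (fun p => w < p) with hA
  have e1 : ((Icc (w + 1) T).filter Nat.Prime).filter (fun p => p ∣ n) =
      A.filter (fun p => p ≤ T) := by
    ext p
    simp only [hA, mem_filter, Nat.mem_primeFactors, mem_Icc]
    constructor
    · rintro ⟨⟨⟨h3, h4⟩, h5⟩, h6⟩
      exact ⟨⟨⟨h5, h6, by omega⟩, by omega⟩, h4⟩
    · rintro ⟨⟨⟨h3, h4, h5⟩, h6⟩, h7⟩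
      exact ⟨⟨⟨by omega, h7⟩, h3⟩, h4⟩
  have e2 : BK K w n = (∏ p ∈ A.filter (fun p => p ≤ T), (1 + K / (p : ℝ))) *
      ∏ p ∈ A.filter (fun p => ¬ p ≤ T), (1 + K / (p : ℝ)) := by
    unfold BK
    exact (prod_filter_mul_prod_filter_not A (fun p => p ≤ T) _).symm
  rw [e1, e2]
  refine mul_le_mul_of_nonneg_left ?_ (prod_nonneg fun p _ => by positivity)
  set B := A.filter (fun p => ¬ p ≤ T) with hB
  have hBp : ∀ p ∈ B, p.Prime ∧ T < p := fun p hp => by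
    rw [hB, hA, mem_filter, mem_filter, Nat.mem_primeFactors] at hp
    exact ⟨hp.1.1.1, by omega⟩
  have hBsub : B ⊆ n.primeFactors := (filter_subset _ _).trans (filter_subset _ _)
  -- number of large prime factors
  have h1 : (B.card : ℝ) * Real.log T ≤ Real.log n := by
    have h2 : T ^ B.card ≤ n := by
      calc T ^ B.card = ∏ _p ∈ B, T := by rw [prod_const]
        _ ≤ ∏ p ∈ B, p := prod_le_prod' fun p hp => (hBp p hp).2.le
        _ ≤ ∏ p ∈ n.primeFactors, p :=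
            prod_le_prod_of_subset_of_one_le' hBsub
              fun p hp _ => (Nat.prime_of_mem_primeFactors hp).one_le
        _ ≤ n := Nat.le_of_dvd hn (Nat.prod_primeFactors_dvd n)
    have h3 : Real.log ((T : ℝ) ^ B.card) ≤ Real.log n :=
      Real.log_le_log (by positivity) (by exact_mod_cast h2)
    rw [Real.log_pow] at h3
    exact h3
  have h2 : ∏ p ∈ B, (1 + K / (p : ℝ)) ≤ ∏ _p ∈ B, Real.exp (K / T) := by
    refine prod_le_prod (fun p _ => by positivity) fun p hp => ?_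
    have h3 : K / (p : ℝ) ≤ K / T :=
      div_le_div_of_nonneg_left hK (by linarith) (by exact_mod_cast (hBp p hp).2.le)
    have := Real.add_one_le_exp (K / (T : ℝ))
    linarith
  refine h2.trans ?_
  rw [prod_const, ← Real.exp_nat_mul]
  refine Real.exp_le_exp.2 ?_
  have h3 : (B.card : ℝ) ≤ Real.log n / Real.log T := by
    rw [le_div_iff₀ hlT]
    exact h1
  calc (B.card : ℝ) * (K / T) ≤ Real.log n / Real.log T * (K / T) :=
        mul_le_mul_of_nonneg_right h3 (by positivity)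
    _ = K * (Real.log n / (T * Real.log T)) := by field_simp

/-- analytic conditions for large `x` -/
theorem FW2_range (K C δ : ℝ) (hC : 0 < C) (hδ : 0 < δ) :
    ∃ X₀ : ℕ, ∀ x : ℕ, X₀ ≤ x → 1 ≤ x ∧ 2 ≤ ⌊Real.log x⌋₊ ∧
      (C * Real.log (⌊Real.log x⌋₊ : ℕ)) ^ ⌈K⌉₊ ≤ δ * (Real.log x) ^ (1 / 4 : ℝ) ∧
      ∀ n : ℕ, 1 ≤ n → n ≤ 3 * x →
        K * (Real.log n / ((⌊Real.log x⌋₊ : ℕ) * Real.log (⌊Real.log x⌋₊ : ℕ))) ≤ δ := by
  have hlog : Filter.Tendsto (fun x : ℕ => Real.log (x : ℝ)) Filter.atTop Filter.atTop :=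
    Real.tendsto_log_atTop.comp tendsto_natCast_atTop_atTop
  -- first condition
  have h1 : ∀ᶠ u : ℝ in Filter.atTop, (C * Real.log u) ^ ⌈K⌉₊ ≤ δ * u ^ (1 / 4 : ℝ) := by
    have h2 := isLittleO_log_rpow_rpow_atTop (⌈K⌉₊ : ℝ) (show (0 : ℝ) < 1 / 4 by norm_num)
    have h3 : (0 : ℝ) < δ / C ^ ⌈K⌉₊ := by positivity
    have h4 := h2.bound h3
    filter_upwards [h4, Filter.eventually_ge_atTop 1] with u hu hu1
    have hlu : 0 ≤ Real.log u := Real.log_nonneg hu1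
    rw [Real.norm_of_nonneg (Real.rpow_nonneg hlu _), Real.rpow_natCast,
      Real.norm_of_nonneg (Real.rpow_nonneg (by linarith) _)] at hu
    rw [mul_pow]
    calc C ^ ⌈K⌉₊ * Real.log u ^ ⌈K⌉₊ ≤ C ^ ⌈K⌉₊ * (δ / C ^ ⌈K⌉₊ * u ^ (1 / 4 : ℝ)) :=
          mul_le_mul_of_nonneg_left hu (by positivity)
      _ = δ * u ^ (1 / 4 : ℝ) := by field_simp
  obtain ⟨U, hU⟩ := Filter.eventually_atTop.1 h1
  obtain ⟨N, hN⟩ := Filter.eventually_atTop.1 (hlog.eventually_ge_atTop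
    (max (max U 4) (2 * Real.exp (4 * |K| / δ + 1))))
  refine ⟨max N 1, fun x hx => ?_⟩
  have hx1 := hN x ((le_max_left _ _).trans hx)
  have hx2 : 1 ≤ x := (le_max_right _ _).trans hx
  have hx3 : (1 : ℝ) ≤ x := by exact_mod_cast hx2
  set L := Real.log (x : ℝ) with hL
  have hLU : U ≤ L := (le_max_left _ _).trans ((le_max_left _ _).trans hx1)
  have hL4 : 4 ≤ L := (le_max_right _ _).trans ((le_max_left _ _).trans hx1)
  have hLe : 2 * Real.exp (4 * |K| / δ + 1) ≤ L := (le_max_right _ _).trans hx1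
  have hT2 : 2 ≤ ⌊L⌋₊ := Nat.le_floor (by push_cast; linarith)
  have hTR : (2 : ℝ) ≤ (⌊L⌋₊ : ℝ) := by exact_mod_cast hT2
  have hTL : (⌊L⌋₊ : ℝ) ≤ L := Nat.floor_le (by linarith)
  have hTL2 : L / 2 ≤ (⌊L⌋₊ : ℝ) := by
    have := Nat.lt_floor_add_one L
    linarith
  have hlT : 0 < Real.log (⌊L⌋₊ : ℝ) := Real.log_pos (by linarith)
  refine ⟨hx2, hT2, ?_, ?_⟩
  · refine le_trans ?_ (hU L hLU)
    refine pow_le_pow_left₀ (by positivity) ?_ _
    exact mul_le_mul_of_nonneg_left (Real.log_le_log (by linarith) hTL) hC.le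
  · intro n hn hn3
    have hnR : (1 : ℝ) ≤ n := by exact_mod_cast hn
    have h2 : Real.log n ≤ 2 * L := by
      have h3 : Real.log n ≤ Real.log (3 * x) :=
        Real.log_le_log (by linarith) (by exact_mod_cast hn3)
      rw [Real.log_mul (by norm_num) (by linarith)] at h3
      have h4 : Real.log 3 ≤ 3 - 1 := Real.log_le_sub_one_of_pos (by norm_num)
      linarith
    have hln : 0 ≤ Real.log n := Real.log_nonneg hnR
    have h3 : 4 * |K| / δ + 1 ≤ Real.log (⌊L⌋₊ : ℝ) := by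
      rw [Real.le_log_iff_exp_le (by linarith)]
      linarith
    have h4 : Real.log n / ((⌊L⌋₊ : ℝ) * Real.log (⌊L⌋₊ : ℝ)) ≤ 4 / Real.log (⌊L⌋₊ : ℝ) := by
      rw [div_le_div_iff₀ (by positivity) hlT]
      have h5 : Real.log n * Real.log (⌊L⌋₊ : ℝ) ≤ 2 * L * Real.log (⌊L⌋₊ : ℝ) :=
        mul_le_mul_of_nonneg_right h2 hlT.le
      have h6 : 2 * L * Real.log (⌊L⌋₊ : ℝ) ≤ 4 * (⌊L⌋₊ : ℝ) * Real.log (⌊L⌋₊ : ℝ) :=
        mul_le_mul_of_nonneg_right (by linarith) hlT.le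
      linarith
    calc K * (Real.log n / ((⌊L⌋₊ : ℝ) * Real.log (⌊L⌋₊ : ℝ)))
        ≤ |K| * (4 / Real.log (⌊L⌋₊ : ℝ)) := by
          refine mul_le_mul (le_abs_self K) h4 (by positivity) (abs_nonneg K)
      _ ≤ δ := by
          have h7 : |K| * (4 / Real.log (⌊L⌋₊ : ℝ)) = (4 * |K|) / Real.log (⌊L⌋₊ : ℝ) := by ring
          rw [h7, div_le_iff₀ hlT]
          have h8 : 4 * |K| / δ ≤ Real.log (⌊L⌋₊ : ℝ) := by linarith
          rw [div_le_iff₀ hδ] at h8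
          linarith

/-- `η` can be any positive number; then `w ≥ w₀(K, η)`, `x ≥ x₀(K, η)` (uniformly in `w`). -/
theorem sum_BK (K η : ℝ) (hK : 0 ≤ K) (hη : 0 < η) : ∃ w₀ X₀ : ℕ, ∀ w x : ℕ, w₀ ≤ w → X₀ ≤ x →
    ∀ W : ℕ, 1 ≤ W → (∀ p : ℕ, p.Prime → p ∣ W → p ≤ w) → ∀ y J c : ℕ, y + J ≤ 3 * x →
      (Real.log x) ^ (1 / 4 : ℝ) * W ≤ J →
        ∑ n ∈ (Ioc y (y + J)).filter (fun n => n ≡ c [MOD W]), BK K w n ≤ (1 + η) * J / W := by
  set δ : ℝ := min η 1 / 16 with hδ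
  have hδ0 : 0 < δ := by
    have : 0 < min η 1 := lt_min hη one_pos
    positivity
  have hδ1 : 16 * δ ≤ 1 := by
    have : min η 1 ≤ 1 := min_le_right _ _
    rw [hδ]
    linarith
  have hδη : 16 * δ ≤ η := by
    have : min η 1 ≤ η := min_le_left _ _
    rw [hδ]
    linarith
  obtain ⟨C, hC, hlin⟩ := FW2_lin K hK
  obtain ⟨X₀, hX₀⟩ := FW2_range K C δ hC hδ0
  refine ⟨⌈K / δ⌉₊ + 1, X₀, fun w x hw hx W hW hWp y J c hyJ hJ => ?_⟩
  obtain ⟨hx1, hT2, hpow, hexp⟩ := hX₀ x hx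
  set T : ℕ := ⌊Real.log x⌋₊ with hT
  have hw1 : 1 ≤ w := by omega
  have hwR : (0 : ℝ) < w := by exact_mod_cast hw1
  have hWR : (0 : ℝ) < W := by exact_mod_cast hW
  have hKw : K / w ≤ δ := by
    rw [div_le_iff₀ hwR]
    have h1 : K / δ ≤ w := by
      refine (Nat.le_ceil _).trans ?_
      have : ⌈K / δ⌉₊ ≤ w := by omega
      exact_mod_cast this
    rw [div_le_iff₀ hδ0] at h1
    linarith
  have h1 : ∑ n ∈ (Ioc y (y + J)).filter (fun n => n ≡ c [MOD W]), BK K w n ≤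
      ∑ n ∈ (Ioc y (y + J)).filter (fun n => n ≡ c [MOD W]),
        (∏ p ∈ ((Icc (w + 1) T).filter Nat.Prime).filter (fun p => p ∣ n),
          (1 + K / (p : ℝ))) * Real.exp δ := by
    refine sum_le_sum fun n hn => ?_
    have hn1 := mem_Ioc.1 (mem_filter.1 hn).1
    refine (FW2_split K hK w T n hT2 (by omega)).trans ?_
    refine mul_le_mul_of_nonneg_left (Real.exp_le_exp.2 (hexp n (by omega) (by omega)))
      (prod_nonneg fun p _ => by positivity)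
  rw [← sum_mul] at h1
  have h2 := FW2_expand K hK w T W y J c hW hWp
  have h3 := FW2_sq K hK w T hw1
  have h4 := hlin w T hT2
  have h5 : ∏ p ∈ (Icc (w + 1) T).filter Nat.Prime, (1 + K / (p : ℝ)) ≤ δ * ((J : ℝ) / W) := by
    refine h4.trans (hpow.trans ?_)
    refine mul_le_mul_of_nonneg_left ?_ hδ0.le
    rw [le_div_iff₀ hWR]
    exact hJ
  have hJW : 0 ≤ (J : ℝ) / W := by positivity
  have hexpδ : Real.exp δ ≤ 1 + 2 * δ := by
    have h7 : Real.exp δ * (1 - δ) ≤ 1 := by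
      have h8 := Real.add_one_le_exp (-δ)
      have h9 : Real.exp δ * Real.exp (-δ) = 1 := by
        rw [← Real.exp_add, add_neg_cancel, Real.exp_zero]
      calc Real.exp δ * (1 - δ) ≤ Real.exp δ * Real.exp (-δ) :=
            mul_le_mul_of_nonneg_left (by linarith) (Real.exp_pos _).le
        _ = 1 := h9
    have h10 : (1 + 2 * δ) * (1 - δ) ≥ 1 := by nlinarith
    have h11 : Real.exp δ * (1 - δ) ≤ (1 + 2 * δ) * (1 - δ) := by linarith
    exact le_of_mul_le_mul_right h11 (by linarith)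
  have h6 : (J : ℝ) / W * ∏ p ∈ (Icc (w + 1) T).filter Nat.Prime, (1 + K / (p : ℝ) ^ 2) ≤
      (J : ℝ) / W * (1 + 2 * δ) := by
    refine mul_le_mul_of_nonneg_left (h3.trans ((Real.exp_le_exp.2 hKw).trans hexpδ)) hJW
  have h7 : ∑ n ∈ (Ioc y (y + J)).filter (fun n => n ≡ c [MOD W]),
      ∏ p ∈ ((Icc (w + 1) T).filter Nat.Prime).filter (fun p => p ∣ n), (1 + K / (p : ℝ)) ≤
        (1 + 3 * δ) * ((J : ℝ) / W) := by
    linarith
  have h8 : (1 + 3 * δ) * (1 + 2 * δ) ≤ 1 + η := by nlinarith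
  calc ∑ n ∈ (Ioc y (y + J)).filter (fun n => n ≡ c [MOD W]), BK K w n
      ≤ _ := h1
    _ ≤ ((1 + 3 * δ) * ((J : ℝ) / W)) * (1 + 2 * δ) :=
        mul_le_mul h7 hexpδ (Real.exp_pos _).le (by positivity)
    _ = (1 + 3 * δ) * (1 + 2 * δ) * ((J : ℝ) / W) := by ring
    _ ≤ (1 + η) * ((J : ℝ) / W) := mul_le_mul_of_nonneg_right h8 hJW
    _ = (1 + η) * J / W := by ring

end Pool.Agent.Lib.SW
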