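import Pool.Agent.Lib.SW.FW1
import Pool.Agent.Lib.SW.FW2
import Pool.Agent.Lib.MP_092512_nt.Defs
import Pool.Agent.Lib.MP_092512_nt.Singular

/-!
# FW-3: average over b of the singular series of {0, a, b, a+b} for a FIXED a

PROOF of `fibre_average`. Fix x large, w = wX x = ⌊log log x⌋, W = primorial w ≤ (log x)^1.4, a in [1,x], J in [(log x)^2, x]. If a is odd, both sides are 0 (the factor at 2: nuq = 2
for every b if a is odd; S2w = 0) — careful: Spart = 0 for z > 2, so S a b = 0. Let a be even.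
For a prime p > w (w ≥ 7) and b ≠ a: local factor (1 - nuq a b p/p)/(1-1/p)^4 ≤ [(1 - ν/p)/(1-1/p)^2]^2 · (1 + 3/p)^([p | b] + [p | b-a] + [p | b+a]), ν = 1 or 2 according to p | a:
 p | a: nuq = 2 (p ∤ b) or 1 (p | b), ratio (1-2/p)/(1-1/p)^2 ≤ 1, resp. 1/(1-1/p) = 1 + 1/(p-1) ≤ 1 + 3/p;
 p ∤ a: nuq = 4 generically (ratio (1-4/p)/(1-2/p)^2 ≤ 1), nuq ≥ 3 if b ≡ ±a (ratio ≤ (1-3/p)/(1-2/p)^2 ≤ 1 + 3/p), nuq = 2 if p | b (ratio 1/(1-2/p) = 1 + 2/(p-2) ≤ 1 + 3/p for p ≥ 6).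
And ∏_{w<p<z} [(1-ν/p)/(1-1/p)^2] ≤ ∏_{p | a, p > w} (1-1/p)^(-1)..: NOTE this factor is ∏_{p|a,p>w} 1/(1-1/p) ∏_{p∤a} (1-1/(p-1)^2), which can be > 1 (a with many primes > w): bounded by exp(Tp w a).
So S a b ≤ exp(2 Tp w a) · S2w(a,w)^2 · R(b) · BK 3 w b · BK 3 w |b-a| · BK 3 w (a+b), where
R(b) = ∏_{p ≤ w} [(1 - nuq a b p/p)/(1-1/p)^4] / (S2w a w)^2 depends on b mod W only and has mean 1 over b mod W: for every p, ∑_{b mod p} (1 - nuq a b p/p) = p (1 - ν/p)^2
(both sides count (1/p) #{(n,b) : n, n+a, n+b, n+a+b all ≢ 0}, resp. the square of the number of n with n, n+a ≢ 0), and CRT.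
Product of three: u v t ≤ (u^3 + v^3 + t^3)/3 and (BK 3)^3 ≤ BK 20 ((1+3/p)^3 ≤ 1 + 20/p for p ≥ 7). By `sum_BK` (K = 20, η) each of
∑_{b ≡ c (W), b in an initial interval of length j} of BK 20 w b, BK 20 w (a+b), BK 20 w |b-a| is ≤ (1+η) j/W for j ≥ η J (|b-a| runs over at most two intervals: if a ≤ J split at a and treat a piece shorter than η² J trivially.. by
monotonicity enlarge it to length η² J).
Then ∑_{b<J} (J-b) F(b) = ∑_{j<J} ∑_{b ≤ j} F(b) ≤ (1+..) J²/2 with F = R · (majorant).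
The statement has the hypothesis Tp w a ≤ η (true for almost all a: `few_bad_a`, from `exp_moment`).
-/

open Finset Filter Topology

namespace Pool.Agent.Lib.SW

open Pool.Agent.Lib.MP_092512_nt.ParAvg

/-- `Tp w a > ε` for at most `ε x` of the `a ≤ x` -/
theorem few_bad_a (ε : ℝ) (hε : 0 < ε) : ∃ w₀ : ℕ, ∀ w x : ℕ, w₀ ≤ w → 1 ≤ x →
    (((Icc 1 x).filter (fun a => ε < Tp w a)).card : ℝ) ≤ ε * x := by
  refine ⟨⌈(Real.exp 1 - Real.log ε) / ε⌉₊ + 1, ?_⟩
  intro w x hw hx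
  have hw1 : 1 ≤ w := by omega
  have hw2 : (Real.exp 1 - Real.log ε) / ε ≤ w := by
    have h1 := Nat.le_ceil ((Real.exp 1 - Real.log ε) / ε)
    have h2 : ((⌈(Real.exp 1 - Real.log ε) / ε⌉₊ + 1 : ℕ) : ℝ) ≤ w := by exact_mod_cast hw
    push_cast at h2
    linarith
  rw [div_le_iff₀ hε] at hw2
  have hm := exp_moment w x hw1 1 one_pos
  rw [one_mul, one_mul] at hm
  set B := (Icc 1 x).filter (fun a => ε < Tp w a) with hB
  have h1 : (B.card : ℝ) * Real.exp (w * ε) ≤ Real.exp (Real.exp 1) * x := by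
    calc (B.card : ℝ) * Real.exp (w * ε) = ∑ a ∈ B, Real.exp (w * ε) := by
          rw [sum_const, nsmul_eq_mul]
      _ ≤ ∑ a ∈ B, Real.exp ((w : ℝ) * Tp w a) := by
          refine sum_le_sum fun a ha => Real.exp_le_exp.2 ?_
          exact mul_le_mul_of_nonneg_left (mem_filter.1 ha).2.le (Nat.cast_nonneg _)
      _ ≤ ∑ a ∈ Icc 1 x, Real.exp ((w : ℝ) * Tp w a) :=
          sum_le_sum_of_subset_of_nonneg (filter_subset _ _) fun _ _ _ => (Real.exp_pos _).le
      _ ≤ _ := by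
          refine le_trans (le_of_eq ?_) hm
          refine sum_congr rfl fun a _ => ?_
          ring_nf
  have h2 : Real.exp (Real.exp 1) ≤ ε * Real.exp (w * ε) := by
    have h3 : ε = Real.exp (Real.log ε) := (Real.exp_log hε).symm
    calc Real.exp (Real.exp 1) ≤ Real.exp (Real.log ε + w * ε) := Real.exp_le_exp.2 (by linarith)
      _ = ε * Real.exp (w * ε) := by rw [Real.exp_add, Real.exp_log hε]
  have h3 : 0 < Real.exp (w * ε) := Real.exp_pos _
  have h4 : (B.card : ℝ) * Real.exp (w * ε) ≤ ε * x * Real.exp (w * ε) := by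
    calc _ ≤ Real.exp (Real.exp 1) * x := h1
      _ ≤ ε * Real.exp (w * ε) * x := mul_le_mul_of_nonneg_right h2 (Nat.cast_nonneg _)
      _ = _ := by ring
  exact le_of_mul_le_mul_right h4 h3

/-- local factor of `{0, a}` -/
noncomputable def fw3_f2 (p a : ℕ) : ℝ :=
  (1 - (if p ∣ a then (1 : ℝ) else 2) / p) / (1 - 1 / (p : ℝ)) ^ 2

theorem fw3_f2_nonneg {p : ℕ} (hp : p.Prime) (a : ℕ) : 0 ≤ fw3_f2 p a := by
  unfold fw3_f2
  have h2 : (2 : ℝ) ≤ p := by exact_mod_cast hp.two_le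
  have h0 : (0 : ℝ) < p := by linarith
  refine div_nonneg ?_ (sq_nonneg _)
  rw [sub_nonneg, div_le_one h0]
  split_ifs <;> linarith

theorem fw3_sum_zmod {p : ℕ} [Fact p.Prime] (F : ZMod p → ℝ) :
    ∑ a ∈ range p, F (a : ZMod p) = ∑ a : ZMod p, F a := by
  refine Finset.sum_nbij' (fun n => (n : ZMod p)) (fun n => n.val) ?_ ?_ ?_ ?_ ?_
  · intro a _; exact mem_univ _
  · intro a _; exact mem_range.mpr (ZMod.val_lt a)
  · intro a ha; exact ZMod.val_cast_of_lt (mem_range.mp ha)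
  · intro a _; exact ZMod.natCast_zmod_val a
  · intro a _; rfl

theorem fw3_sum_rho {p : ℕ} (hp : p.Prime) (a : ℕ) :
    ∑ b ∈ range p, (rho p a b : ℝ) = ((p : ℝ) - (if p ∣ a then (1 : ℝ) else 2)) ^ 2 := by
  have : Fact p.Prime := ⟨hp⟩
  have hcard : (Fintype.card (ZMod p) : ℝ) = p := by rw [ZMod.card]
  set I : ZMod p → ℝ := fun m => if m ≠ 0 ∧ m + a ≠ 0 then 1 else 0 with hI
  have h1 : ∀ b : ℕ, (rho p a b : ℝ) = ∑ n : ZMod p, I n * I (n + b) := by
    intro b
    rw [rho_eq_zmod, ← Finset.sum_boole]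
    refine sum_congr rfl fun n _ => ?_
    rw [hI]
    simp only
    have e : n + (b : ZMod p) + a = n + a + b := by ring
    rw [e]
    by_cases h : n ≠ 0 ∧ n + (a : ZMod p) ≠ 0
    · rw [if_pos h, one_mul]
      by_cases h' : n + (b : ZMod p) ≠ 0 ∧ n + a + b ≠ 0
      · rw [if_pos h', if_pos ⟨h.1, h.2, h'.1, h'.2⟩]
      · rw [if_neg h', if_neg (fun h2 => h' ⟨h2.2.2.1, h2.2.2.2⟩)]
    · rw [if_neg h, zero_mul, if_neg (fun h2 => h ⟨h2.1, h2.2.1⟩)]
  have h2 : ∑ b ∈ range p, (rho p a b : ℝ) = (∑ n : ZMod p, I n) ^ 2 := by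
    rw [sum_congr rfl (fun b _ => h1 b), fw3_sum_zmod (fun b => ∑ n : ZMod p, I n * I (n + b)),
      sum_comm, sq, sum_mul]
    refine sum_congr rfl fun n _ => ?_
    rw [← mul_sum]
    congr 1
    exact Equiv.sum_comp (Equiv.addLeft n) I
  rw [h2]
  congr 1
  by_cases ha : p ∣ a
  · rw [if_pos ha]
    have ha0 : (a : ZMod p) = 0 := (ZMod.natCast_eq_zero_iff _ _).2 ha
    have h3 : ∀ n : ZMod p, I n = 1 - (if n = 0 then 1 else 0) := by
      intro n
      rw [hI]
      simp only [ha0, add_zero]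
      by_cases h : n = 0
      · simp [h]
      · simp [h]
    rw [sum_congr rfl (fun n _ => h3 n), sum_sub_distrib,
      Finset.sum_ite_eq' univ (0 : ZMod p) (fun _ => (1:ℝ)), if_pos (mem_univ _), sum_const,
      card_univ, nsmul_eq_mul, hcard, mul_one]
  · rw [if_neg ha]
    have ha0 : (a : ZMod p) ≠ 0 := by rw [Ne, ZMod.natCast_eq_zero_iff]; exact ha
    have h3 : ∀ n : ZMod p, I n = 1 - (if n = 0 then 1 else 0) - (if n = -(a : ZMod p) then 1 else 0) := by
      intro n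
      rw [hI]
      simp only
      by_cases h : n = 0
      · have h4 : ¬ (n = -(a : ZMod p)) := by
          rw [h]
          intro h5
          exact ha0 (by rw [eq_comm, neg_eq_zero] at h5; exact h5)
        rw [if_neg (fun h5 => h5.1 h), if_pos h, if_neg h4]
        ring
      · by_cases h5 : n = -(a : ZMod p)
        · rw [if_neg (fun h6 => h6.2 (by rw [h5]; ring)), if_neg h, if_pos h5]
          ring
        · rw [if_pos ⟨h, fun h6 => h5 (eq_neg_of_add_eq_zero_left h6)⟩, if_neg h, if_neg h5]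
          ring
    rw [sum_congr rfl (fun n _ => h3 n), sum_sub_distrib, sum_sub_distrib,
      Finset.sum_ite_eq' univ (0 : ZMod p) (fun _ => (1:ℝ)), if_pos (mem_univ _),
      Finset.sum_ite_eq' univ (-(a : ZMod p)) (fun _ => (1:ℝ)), if_pos (mem_univ _), sum_const,
      card_univ, nsmul_eq_mul, hcard]
    ring

theorem fw3_sum_fac {p : ℕ} (hp : p.Prime) (a : ℕ) :
    ∑ b ∈ range p, fac p a b = p * fw3_f2 p a ^ 2 := by
  unfold fac
  rw [← sum_div, ← sum_div, fw3_sum_rho hp]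
  unfold fw3_f2
  have hp1 : (1:ℝ) < p := by exact_mod_cast hp.one_lt
  have h0 : (p:ℝ) ≠ 0 := by linarith
  have h1 : (p:ℝ) - 1 ≠ 0 := by linarith
  have h2 : (1 - 1 / (p:ℝ)) = (p - 1) / p := by field_simp
  rw [h2]
  have h3 : 1 - (if p ∣ a then (1 : ℝ) else 2) / p = (p - (if p ∣ a then (1 : ℝ) else 2)) / p := by
    field_simp
  rw [h3]
  generalize (p : ℝ) - (if p ∣ a then (1 : ℝ) else 2) = t
  field_simp

theorem fw3_period (P : Finset ℕ) (hP : ∀ p ∈ P, p.Prime) (a : ℕ) :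
    ∑ b ∈ range (∏ p ∈ P, p), PP P a b = ∏ p ∈ P, ((p:ℝ) * fw3_f2 p a ^ 2) := by
  induction P using Finset.induction_on with
  | empty => simp [PP]
  | insert q P hq ih =>
    have hP' : ∀ p ∈ P, p.Prime := fun p hp => hP p (mem_insert_of_mem hp)
    have hqp : q.Prime := hP q (mem_insert_self _ _)
    have ih' := ih hP'
    rw [Finset.prod_insert hq, Finset.prod_insert hq]
    have hcop : Nat.Coprime q (∏ p ∈ P, p) := by
      apply Nat.Coprime.prod_right
      intro p hp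
      rw [Nat.coprime_primes hqp (hP' p hp)]
      rintro rfl
      exact hq hp
    have hne : (∏ p ∈ P, p) ≠ 0 := by
      apply Finset.prod_ne_zero_iff.mpr
      intro p hp
      exact (hP' p hp).ne_zero
    have hdiv : ∀ p ∈ P, p ∣ ∏ p ∈ P, p := fun p hp => Finset.dvd_prod_of_mem _ hp
    rw [← ih', ← fw3_sum_fac hqp, sum_mul_sum,
      ← sum_range_mul_coprime hqp.ne_zero hne hcop (fun i j => fac q a i * PP P a j)]
    refine sum_congr rfl fun b _ => ?_
    unfold PP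
    rw [Finset.prod_insert hq]
    congr 1
    · rw [← fac_mod q a b, ← fac_mod q a (b % q), Nat.mod_mod]
    · apply Finset.prod_congr rfl
      intro p hp
      rw [← fac_mod p a (b % _), Nat.mod_mod_of_dvd _ (hdiv p hp), fac_mod]

theorem fw3_PP_mod (P : Finset ℕ) (a b : ℕ) : PP P a (b % ∏ p ∈ P, p) = PP P a b := by
  unfold PP
  refine prod_congr rfl fun p hp => ?_
  rw [← fac_mod p a (b % _), Nat.mod_mod_of_dvd _ (Finset.dvd_prod_of_mem _ hp), fac_mod]

theorem fw3_Icc (w : ℕ) : (Icc 1 w).filter Nat.Prime = (range (w + 1)).filter Nat.Prime := by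
  ext p
  simp only [mem_filter, mem_Icc, mem_range]
  constructor
  · rintro ⟨⟨h1, h2⟩, h3⟩
    exact ⟨by omega, h3⟩
  · rintro ⟨h1, h3⟩
    exact ⟨⟨h3.one_lt.le, by omega⟩, h3⟩

theorem fw3_period' (w a : ℕ) :
    ∑ b ∈ range (primorial w), PP ((Icc 1 w).filter Nat.Prime) a b =
      primorial w * S2w a w ^ 2 := by
  have h := fw3_period ((Icc 1 w).filter Nat.Prime) (fun p hp => (mem_filter.1 hp).2) a
  have h1 : primorial w = ∏ p ∈ (Icc 1 w).filter Nat.Prime, p := by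
    rw [fw3_Icc]
    rfl
  rw [h1, h, prod_mul_distrib, Nat.cast_prod, prod_pow]
  rfl

theorem fw3_rho_le {p : ℕ} [Fact p.Prime] (a b : ℕ) (T : Finset (ZMod p))
    (hT : ∀ t ∈ T, t = 0 ∨ t = -(a : ZMod p) ∨ t = -(b : ZMod p) ∨ t = -((a : ZMod p) + b)) :
    rho p a b + T.card ≤ p := by
  rw [rho_eq_zmod]
  set A := (univ.filter (fun n : ZMod p => n ≠ 0 ∧ n + a ≠ 0 ∧ n + b ≠ 0 ∧ n + a + b ≠ 0))
    with hA
  have hdisj : Disjoint A T := by
    rw [Finset.disjoint_left]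
    intro x hx hx2
    rw [hA, mem_filter] at hx
    obtain ⟨_, h0, h1, h2, h3⟩ := hx
    rcases hT x hx2 with h | h | h | h
    · exact h0 h
    · exact h1 (by rw [h]; ring)
    · exact h2 (by rw [h]; ring)
    · exact h3 (by rw [h]; ring)
  rw [← card_union_of_disjoint hdisj]
  calc _ ≤ (univ : Finset (ZMod p)).card := card_le_univ _
    _ = p := by rw [card_univ, ZMod.card]

theorem fw3_dd {p a b : ℕ} : p ∣ dd a b ↔ (a : ZMod p) = (b : ZMod p) := by
  unfold dd
  rcases le_total a b with hle | hle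
  · rw [Nat.sub_eq_zero_of_le hle, zero_add, ← ZMod.natCast_eq_zero_iff, Nat.cast_sub hle,
      sub_eq_zero, eq_comm]
  · rw [Nat.sub_eq_zero_of_le hle, add_zero, ← ZMod.natCast_eq_zero_iff, Nat.cast_sub hle,
      sub_eq_zero]

/-- number of excluded classes, real form -/
theorem fw3_rho_cases {p : ℕ} (hp : p.Prime) (hp3 : 3 ≤ p) (a b : ℕ) :
    (p ∣ a → (rho p a b : ℝ) ≤ p - 1 ∧ (¬ p ∣ b → (rho p a b : ℝ) ≤ p - 2)) ∧
    (¬ p ∣ a → (rho p a b : ℝ) ≤ p - 2 ∧ (¬ p ∣ b → (rho p a b : ℝ) ≤ p - 3)) := by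
  have : Fact p.Prime := ⟨hp⟩
  have key : ∀ T : Finset (ZMod p), ∀ k : ℕ, T.card = k →
      (∀ t ∈ T, t = 0 ∨ t = -(a : ZMod p) ∨ t = -(b : ZMod p) ∨ t = -((a : ZMod p) + b)) →
      (rho p a b : ℝ) ≤ p - k := by
    intro T k hk hT
    have h := fw3_rho_le a b T hT
    rw [hk] at h
    have h2 : ((rho p a b + k : ℕ) : ℝ) ≤ p := by exact_mod_cast h
    push_cast at h2
    linarith
  have hneg : ∀ n : ℕ, ¬ p ∣ n → (-(n : ZMod p)) ≠ 0 := by
    intro n hn h
    rw [neg_eq_zero, ZMod.natCast_eq_zero_iff] at h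
    exact hn h
  refine ⟨fun ha => ⟨?_, fun hb => ?_⟩, fun ha => ⟨?_, fun hb => ?_⟩⟩
  · have := key {0} 1 (card_singleton _) (by
      intro t ht
      rw [mem_singleton] at ht
      exact Or.inl ht)
    simpa using this
  · have := key {0, -(b : ZMod p)} 2 (card_pair (hneg b hb).symm) (by
      intro t ht
      rw [mem_insert, mem_singleton] at ht
      tauto)
    simpa using this
  · have := key {0, -(a : ZMod p)} 2 (card_pair (hneg a ha).symm) (by
      intro t ht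
      rw [mem_insert, mem_singleton] at ht
      tauto)
    simpa using this
  · by_cases hab : (a : ZMod p) = b
    · have h2 : (2 : ZMod p) ≠ 0 := by
        have h3 : ((2 : ℕ) : ZMod p) ≠ 0 := by
          rw [Ne, ZMod.natCast_eq_zero_iff]
          intro h
          have := Nat.le_of_dvd (by norm_num) h
          omega
        exact_mod_cast h3
      have hne : -((a : ZMod p) + b) ≠ 0 := by
        rw [← hab, neg_ne_zero, ← two_mul]
        refine mul_ne_zero h2 ?_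
        intro h
        exact hneg a ha (by rw [h, neg_zero])
      have hne2 : -(a : ZMod p) ≠ -((a : ZMod p) + b) := by
        intro h
        have h3 := neg_injective h
        have h4 : (b : ZMod p) = 0 := by
          have : (a : ZMod p) + 0 = a + b := by rw [add_zero]; exact h3
          exact (add_left_cancel this).symm
        exact hneg b hb (by rw [h4, neg_zero])
      have := key {0, -(a : ZMod p), -((a : ZMod p) + b)} 3 (by
        rw [card_insert_of_notMem, card_pair hne2]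
        rw [mem_insert, mem_singleton, not_or]
        exact ⟨(hneg a ha).symm, hne.symm⟩) (by
        intro t ht
        rw [mem_insert, mem_insert, mem_singleton] at ht
        tauto)
      simpa using this
    · have := key {0, -(a : ZMod p), -(b : ZMod p)} 3 (by
        rw [card_insert_of_notMem, card_pair (fun h => hab (neg_injective h))]
        rw [mem_insert, mem_singleton, not_or]
        exact ⟨(hneg a ha).symm, (hneg b hb).symm⟩) (by
        intro t ht
        rw [mem_insert, mem_insert, mem_singleton] at ht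
        tauto)
      simpa using this

/-- `1 + 3/p` at the divisors -/
noncomputable def fw3_e (p n : ℕ) : ℝ := if p ∣ n then 1 + 3 / (p : ℝ) else 1

theorem fw3_one_le_e (p n : ℕ) : 1 ≤ fw3_e p n := by
  unfold fw3_e
  split_ifs
  · have : 0 ≤ 3 / (p : ℝ) := by positivity
    linarith
  · exact le_rfl

theorem fw3_local {p : ℕ} (hp : p.Prime) (hp7 : 7 ≤ p) (a b : ℕ) :
    fac p a b ≤ fw3_f2 p a ^ 2 * (fw3_e p b * fw3_e p (dd a b) * fw3_e p (a + b)) := by
  have hp0 : (0 : ℝ) < p := by exact_mod_cast hp.pos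
  have hp7' : (7 : ℝ) ≤ p := by exact_mod_cast hp7
  have h1 : (0 : ℝ) < 1 - 1 / (p : ℝ) := one_sub_pos hp
  have hred : (rho p a b : ℝ) * p ≤ (p - (if p ∣ a then (1 : ℝ) else 2)) ^ 2 *
      (fw3_e p b * fw3_e p (dd a b) * fw3_e p (a + b)) → fac p a b ≤ fw3_f2 p a ^ 2 *
      (fw3_e p b * fw3_e p (dd a b) * fw3_e p (a + b)) := by
    intro h
    unfold fac fw3_f2
    have h2 : (1 - (if p ∣ a then (1 : ℝ) else 2) / p) =
        (p - (if p ∣ a then (1 : ℝ) else 2)) / p := by field_simp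
    rw [h2, div_pow, div_pow, ← pow_mul, div_mul_eq_mul_div, div_mul_eq_mul_div]
    rw [show 2 * 2 = 4 from rfl]
    refine div_le_div_of_nonneg_right ?_ (by positivity)
    rw [div_le_div_iff₀ hp0 (by positivity)]
    calc (rho p a b : ℝ) * p ^ 2 = (rho p a b : ℝ) * p * p := by ring
      _ ≤ _ := mul_le_mul_of_nonneg_right h hp0.le
  apply hred
  have e1 := fw3_one_le_e p b
  have e2 := fw3_one_le_e p (dd a b)
  have e3 := fw3_one_le_e p (a + b)
  obtain ⟨c1, c2⟩ := fw3_rho_cases hp (by omega) a b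
  have hE : 1 ≤ fw3_e p b * fw3_e p (dd a b) * fw3_e p (a + b) :=
    one_le_mul_of_one_le_of_one_le (one_le_mul_of_one_le_of_one_le e1 e2) e3
  have hE1 : fw3_e p b ≤ fw3_e p b * fw3_e p (dd a b) * fw3_e p (a + b) := by
    have h3 : fw3_e p b ≤ fw3_e p b * fw3_e p (dd a b) := le_mul_of_one_le_right (by linarith) e2
    exact h3.trans (le_mul_of_one_le_right (by linarith) e3)
  have hE2 : fw3_e p (dd a b) ≤ fw3_e p b * fw3_e p (dd a b) * fw3_e p (a + b) := by
    have h3 : fw3_e p (dd a b) ≤ fw3_e p b * fw3_e p (dd a b) :=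
      le_mul_of_one_le_left (by linarith) e1
    exact h3.trans (le_mul_of_one_le_right (by linarith) e3)
  have hE3 : fw3_e p (a + b) ≤ fw3_e p b * fw3_e p (dd a b) * fw3_e p (a + b) :=
    le_mul_of_one_le_left (by linarith) (one_le_mul_of_one_le_of_one_le e1 e2)
  set E := fw3_e p b * fw3_e p (dd a b) * fw3_e p (a + b) with hEdef
  have he : ∀ n, p ∣ n → fw3_e p n = (p + 3) / p := by
    intro n hn
    unfold fw3_e
    rw [if_pos hn]
    field_simp
  by_cases ha : p ∣ a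
  · rw [if_pos ha]
    by_cases hb : p ∣ b
    · have h2 := (c1 ha).1
      have h3 : (p + 3) / (p : ℝ) ≤ E := by rw [← he b hb]; exact hE1
      have h4 : (p : ℝ) + 3 ≤ E * p := by rwa [div_le_iff₀ hp0] at h3
      nlinarith [h2, h4, hp7', mul_pos hp0 hp0]
    · have h2 := (c1 ha).2 hb
      nlinarith [h2, hE, hp7', sq_nonneg ((p : ℝ) - 1)]
  · rw [if_neg ha]
    by_cases hb : p ∣ b
    · have h2 := (c2 ha).1
      have h3 : (p + 3) / (p : ℝ) ≤ E := by rw [← he b hb]; exact hE1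
      have h4 : (p : ℝ) + 3 ≤ E * p := by rwa [div_le_iff₀ hp0] at h3
      have h5 : (rho p a b : ℝ) * p ≤ (p - 2) * p := mul_le_mul_of_nonneg_right h2 hp0.le
      have h6 : (p - 2) * (p : ℝ) ^ 2 ≤ (p - 2) ^ 2 * (p + 3) := by nlinarith
      have h7 : (p - 2) ^ 2 * ((p : ℝ) + 3) ≤ (p - 2) ^ 2 * (E * p) :=
        mul_le_mul_of_nonneg_left h4 (sq_nonneg _)
      have h8 : (p - 2) * (p : ℝ) * p ≤ (p - 2) ^ 2 * E * p := by nlinarith
      have h9 := le_of_mul_le_mul_right h8 hp0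
      linarith
    · by_cases hs : p ∣ dd a b ∨ p ∣ a + b
      · have h2 := (c2 ha).2 hb
        have h3 : (p + 3) / (p : ℝ) ≤ E := by
          rcases hs with hs | hs
          · rw [← he _ hs]; exact hE2
          · rw [← he _ hs]; exact hE3
        have h4 : (p : ℝ) + 3 ≤ E * p := by rwa [div_le_iff₀ hp0] at h3
        have h5 : (rho p a b : ℝ) * p ≤ (p - 3) * p := mul_le_mul_of_nonneg_right h2 hp0.le
        have h6 : (p - 3) * (p : ℝ) ^ 2 ≤ (p - 2) ^ 2 * (p + 3) := by nlinarith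
        have h7 : (p - 2) ^ 2 * ((p : ℝ) + 3) ≤ (p - 2) ^ 2 * (E * p) :=
          mul_le_mul_of_nonneg_left h4 (sq_nonneg _)
        have h8 : (p - 3) * (p : ℝ) * p ≤ (p - 2) ^ 2 * E * p := by nlinarith
        have h9 := le_of_mul_le_mul_right h8 hp0
        linarith
      · rw [not_or] at hs
        have h2 : rho p a b + 4 ≤ p := rho_good hp ha hb hs.2 hs.1
        have h3 : (rho p a b : ℝ) ≤ p - 4 := by
          have : ((rho p a b + 4 : ℕ) : ℝ) ≤ p := by exact_mod_cast h2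
          push_cast at this
          linarith
        have h5 : (rho p a b : ℝ) * p ≤ (p - 4) * p := mul_le_mul_of_nonneg_right h3 hp0.le
        nlinarith [h5, hE, sq_nonneg ((p : ℝ) - 2)]

theorem fw3_f2_le {p : ℕ} (hp : p.Prime) (a : ℕ) :
    fw3_f2 p a ≤ if p ∣ a then Real.exp (1 / ((p : ℝ) - 1)) else 1 := by
  have hp1 : (1 : ℝ) < p := by exact_mod_cast hp.one_lt
  have h0 : (0 : ℝ) < p := by linarith
  have h1 : (0 : ℝ) < p - 1 := by linarith
  have h2 : (1 - 1 / (p:ℝ)) = (p - 1) / p := by field_simp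
  unfold fw3_f2
  rw [h2]
  by_cases ha : p ∣ a
  · rw [if_pos ha, if_pos ha]
    have h3 : (1 - 1 / (p:ℝ)) / ((p - 1) / p) ^ 2 = 1 / (p - 1) + 1 := by
      rw [h2]
      field_simp
      ring
    rw [h3]
    exact Real.add_one_le_exp _
  · rw [if_neg ha, if_neg ha, div_le_one (by positivity), div_pow, le_div_iff₀ (by positivity)]
    have h3 : (1 - 2 / (p:ℝ)) * p ^ 2 = p ^ 2 - 2 * p := by field_simp
    rw [h3]
    nlinarith

theorem fw3_prod_f2 (w a : ℕ) (ha : a ≠ 0) (R : Finset ℕ) (hR : ∀ p ∈ R, p.Prime ∧ w < p) :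
    ∏ p ∈ R, fw3_f2 p a ≤ Real.exp (Tp w a) := by
  calc ∏ p ∈ R, fw3_f2 p a ≤ ∏ p ∈ R, (if p ∣ a then Real.exp (1 / ((p : ℝ) - 1)) else 1) :=
        prod_le_prod (fun p hp => fw3_f2_nonneg (hR p hp).1 a)
          fun p hp => fw3_f2_le (hR p hp).1 a
    _ = ∏ p ∈ R.filter (fun p => p ∣ a), Real.exp (1 / ((p : ℝ) - 1)) := by
        rw [prod_filter]
    _ = Real.exp (∑ p ∈ R.filter (fun p => p ∣ a), 1 / ((p : ℝ) - 1)) := by
        rw [Real.exp_sum]
    _ ≤ _ := by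
        refine Real.exp_le_exp.2 ?_
        unfold Tp
        refine sum_le_sum_of_subset_of_nonneg ?_ ?_
        · intro p hp
          rw [mem_filter] at hp
          rw [mem_filter, Nat.mem_primeFactors]
          exact ⟨⟨(hR p hp.1).1, hp.2, ha⟩, (hR p hp.1).2⟩
        · intro p hp _
          have h1 := (Nat.prime_of_mem_primeFactors (mem_filter.1 hp).1).one_lt
          have h2 : (1 : ℝ) < p := by exact_mod_cast h1
          have h3 : 0 < (p : ℝ) - 1 := by linarith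
          positivity

theorem fw3_prod_e (w n : ℕ) (hn : n ≠ 0) (R : Finset ℕ) (hR : ∀ p ∈ R, p.Prime ∧ w < p) :
    ∏ p ∈ R, fw3_e p n ≤ BK 3 w n := by
  calc ∏ p ∈ R, fw3_e p n = ∏ p ∈ R.filter (fun p => p ∣ n), (1 + 3 / (p : ℝ)) := by
        unfold fw3_e
        rw [prod_filter]
    _ ≤ _ := by
        unfold BK
        have hsub : R.filter (fun p => p ∣ n) ⊆ n.primeFactors.filter (fun p => w < p) := by
          intro p hp
          rw [mem_filter] at hp
          rw [mem_filter, Nat.mem_primeFactors]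
          exact ⟨⟨(hR p hp.1).1, hp.2, hn⟩, (hR p hp.1).2⟩
        rw [← prod_sdiff hsub]
        refine le_mul_of_one_le_left (prod_nonneg fun p _ => by positivity) ?_
        refine one_le_prod_real _ _ fun p _ => ?_
        have : 0 ≤ 3 / (p : ℝ) := by positivity
        linarith

theorem fw3_PP_nonneg (w a b : ℕ) : 0 ≤ PP ((Icc 1 w).filter Nat.Prime) a b :=
  PP_nonneg (fun p hp => (mem_filter.1 hp).2) a b

theorem fw3_Spart_le (w a b z : ℕ) (hw : 7 ≤ w) (ha : 0 < a) (hb : 0 < b) (hab : a ≠ b)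
    (hz : w < z) :
    Pool.Agent.Lib.MP_092512_nt.Spart a b z ≤ Real.exp (2 * Tp w a) *
      PP ((Icc 1 w).filter Nat.Prime) a b * (BK 3 w b * BK 3 w (dd a b) * BK 3 w (a + b)) := by
  rw [Pool.Agent.Lib.MP_092512_nt.Spart_eq]
  set R := (Nat.primesBelow z).filter (fun p => w < p) with hRdef
  have hR : ∀ p ∈ R, p.Prime ∧ w < p := fun p hp =>
    ⟨Nat.prime_of_mem_primesBelow (mem_filter.1 hp).1, (mem_filter.1 hp).2⟩
  have hsplit : PP (Nat.primesBelow z) a b = PP ((Icc 1 w).filter Nat.Prime) a b *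
      ∏ p ∈ R, fac p a b := by
    unfold PP
    rw [← prod_filter_mul_prod_filter_not (Nat.primesBelow z) (fun p => w < p), mul_comm]
    congr 1
    refine prod_congr ?_ fun _ _ => rfl
    ext p
    simp only [mem_filter, Nat.mem_primesBelow, mem_Icc, not_lt]
    constructor
    · rintro ⟨⟨h1, h2⟩, h3⟩
      exact ⟨⟨h2.one_lt.le, h3⟩, h2⟩
    · rintro ⟨⟨h1, h2⟩, h3⟩
      exact ⟨⟨by omega, h3⟩, h2⟩
  rw [hsplit]
  have hdd : dd a b ≠ 0 := by
    unfold dd
    omega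
  have h1 : ∏ p ∈ R, fac p a b ≤ Real.exp (2 * Tp w a) *
      (BK 3 w b * BK 3 w (dd a b) * BK 3 w (a + b)) := by
    calc ∏ p ∈ R, fac p a b ≤ ∏ p ∈ R, (fw3_f2 p a ^ 2 *
          (fw3_e p b * fw3_e p (dd a b) * fw3_e p (a + b))) :=
          prod_le_prod (fun p hp => fac_nonneg (hR p hp).1 a b) fun p hp =>
            fw3_local (hR p hp).1 (le_trans hw (hR p hp).2.le) a b
      _ = (∏ p ∈ R, fw3_f2 p a) ^ 2 * ((∏ p ∈ R, fw3_e p b) * (∏ p ∈ R, fw3_e p (dd a b)) *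
          ∏ p ∈ R, fw3_e p (a + b)) := by
          rw [prod_mul_distrib, prod_mul_distrib, prod_mul_distrib, prod_pow]
      _ ≤ Real.exp (Tp w a) ^ 2 * (BK 3 w b * BK 3 w (dd a b) * BK 3 w (a + b)) := by
          have n1 : 0 ≤ ∏ p ∈ R, fw3_f2 p a := prod_nonneg fun p hp => fw3_f2_nonneg (hR p hp).1 a
          have n2 : ∀ n, 0 ≤ ∏ p ∈ R, fw3_e p n := fun n =>
            prod_nonneg fun p _ => le_trans zero_le_one (fw3_one_le_e p n)
          have m1 := fw3_prod_f2 w a (by omega) R hR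
          have m2 := fw3_prod_e w b (by omega) R hR
          have m3 := fw3_prod_e w (dd a b) hdd R hR
          have m4 := fw3_prod_e w (a + b) (by omega) R hR
          have k2 := (n2 b).trans m2
          have k3 := (n2 (dd a b)).trans m3
          refine mul_le_mul (pow_le_pow_left₀ n1 m1 2) ?_ ?_ (by positivity)
          · exact mul_le_mul (mul_le_mul m2 m3 (n2 _) k2) m4 (n2 _) (mul_nonneg k2 k3)
          · exact mul_nonneg (mul_nonneg (n2 _) (n2 _)) (n2 _)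
      _ = _ := by
          rw [← Real.exp_nat_mul]
          norm_num
  calc _ ≤ PP ((Icc 1 w).filter Nat.Prime) a b * (Real.exp (2 * Tp w a) *
        (BK 3 w b * BK 3 w (dd a b) * BK 3 w (a + b))) :=
        mul_le_mul_of_nonneg_left h1 (fw3_PP_nonneg w a b)
    _ = _ := by ring

theorem fw3_cube (w n : ℕ) (hw : 7 ≤ w) : BK 3 w n ^ 3 ≤ BK 20 w n := by
  unfold BK
  rw [← prod_pow]
  refine prod_le_prod (fun p _ => by positivity) fun p hp => ?_
  have h1 := (mem_filter.1 hp).2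
  have hp7 : (7 : ℝ) ≤ p := by
    have : 7 ≤ p := by omega
    exact_mod_cast this
  have hp0 : (0 : ℝ) < p := by linarith
  set t : ℝ := 1 / (p : ℝ) with ht
  have ht0 : 0 < t := by positivity
  have ht7 : t ≤ 1 / 7 := one_div_le_one_div_of_le (by norm_num) hp7
  have e1 : 3 / (p : ℝ) = 3 * t := by rw [ht]; ring
  have e2 : 20 / (p : ℝ) = 20 * t := by rw [ht]; ring
  rw [e1, e2]
  nlinarith [mul_pos ht0 ht0, mul_nonneg ht0.le (sub_nonneg.2 ht7),
    mul_nonneg (mul_pos ht0 ht0).le (sub_nonneg.2 ht7)]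

theorem fw3_amgm (x y z : ℝ) (hx : 0 ≤ x) (hy : 0 ≤ y) (hz : 0 ≤ z) :
    x * y * z ≤ (x ^ 3 + y ^ 3 + z ^ 3) / 3 := by
  nlinarith [mul_nonneg (add_nonneg (add_nonneg hx hy) hz)
    (add_nonneg (add_nonneg (sq_nonneg (x - y)) (sq_nonneg (y - z))) (sq_nonneg (z - x)))]

theorem fw3_S_le (w a b : ℕ) (hw : 7 ≤ w) (ha : 0 < a) (hb : 0 < b) (hab : a ≠ b) (s : ℝ)
    (hs : Tendsto (Pool.Agent.Lib.MP_092512_nt.Spart a b) atTop (𝓝 s)) (η : ℝ)
    (hη : Tp w a ≤ η) :
    s ≤ Real.exp (2 * η) / 3 * (PP ((Icc 1 w).filter Nat.Prime) a b *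
      (BK 20 w b + BK 20 w (dd a b) + BK 20 w (a + b))) := by
  have h1 : s ≤ Real.exp (2 * Tp w a) *
      PP ((Icc 1 w).filter Nat.Prime) a b * (BK 3 w b * BK 3 w (dd a b) * BK 3 w (a + b)) := by
    refine le_of_tendsto hs ?_
    filter_upwards [eventually_gt_atTop w] with z hz
    exact fw3_Spart_le w a b z hw ha hb hab hz
  have hbk : ∀ n, 0 ≤ BK 3 w n := fun n => le_trans zero_le_one (one_le_BK 3 (by norm_num) w n)
  have h2 := fw3_amgm _ _ _ (hbk b) (hbk (dd a b)) (hbk (a + b))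
  have h3 : BK 3 w b * BK 3 w (dd a b) * BK 3 w (a + b) ≤
      (BK 20 w b + BK 20 w (dd a b) + BK 20 w (a + b)) / 3 := by
    refine h2.trans (div_le_div_of_nonneg_right ?_ (by norm_num))
    linarith [fw3_cube w b hw, fw3_cube w (dd a b) hw, fw3_cube w (a + b) hw]
  have hP := fw3_PP_nonneg w a b
  have hE : Real.exp (2 * Tp w a) ≤ Real.exp (2 * η) := Real.exp_le_exp.2 (by linarith)
  have hbk3 : 0 ≤ BK 3 w b * BK 3 w (dd a b) * BK 3 w (a + b) :=
    mul_nonneg (mul_nonneg (hbk _) (hbk _)) (hbk _)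
  calc s ≤ _ := h1
    _ ≤ Real.exp (2 * η) * PP ((Icc 1 w).filter Nat.Prime) a b *
        ((BK 20 w b + BK 20 w (dd a b) + BK 20 w (a + b)) / 3) :=
        mul_le_mul (mul_le_mul_of_nonneg_right hE hP) h3 hbk3
          (mul_nonneg (Real.exp_pos _).le hP)
    _ = _ := by ring

/-! ### short sums -/

theorem fw3_inj (s t : Finset ℕ) (g : ℕ → ℕ) (f : ℕ → ℝ) (hg : Set.InjOn g s)
    (hmap : ∀ b ∈ s, g b ∈ t) (hf : ∀ n, 0 ≤ f n) : ∑ b ∈ s, f (g b) ≤ ∑ n ∈ t, f n := by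
  rw [← sum_image (f := f) hg]
  refine sum_le_sum_of_subset_of_nonneg ?_ fun n _ _ => hf n
  intro n hn
  obtain ⟨b, hb, rfl⟩ := mem_image.1 hn
  exact hmap b hb

/-- the hypothesis used for the majorants: sums over short intervals in classes -/
def fw3_H (f : ℕ → ℝ) (M W T : ℕ) (κ : ℝ) : Prop :=
  ∀ y j c : ℕ, y + j ≤ M → ∑ n ∈ (Ioc y (y + j)).filter (fun n => n ≡ c [MOD W]), f n ≤
    κ * (j + T) / W

theorem fw3_type1 {f : ℕ → ℝ} {M W T : ℕ} {κ : ℝ} (h : fw3_H f M W T κ) (j c : ℕ) (hj : j ≤ M) :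
    ∑ b ∈ (Icc 1 j).filter (fun b => b ≡ c [MOD W]), f b ≤ κ * (j + T) / W := by
  have h1 := h 0 j c (by omega)
  rw [zero_add] at h1
  exact h1

theorem fw3_type2 {f : ℕ → ℝ} (hf : ∀ n, 0 ≤ f n) {M W T : ℕ} {κ : ℝ} (h : fw3_H f M W T κ)
    (a j c : ℕ) (hj : a + j ≤ M) :
    ∑ b ∈ (Icc 1 j).filter (fun b => b ≡ c [MOD W]), f (a + b) ≤ κ * (j + T) / W := by
  refine le_trans ?_ (h a j (a + c) hj)
  refine fw3_inj _ _ (fun b => a + b) f (fun x _ y _ hxy => by simpa using hxy) ?_ hf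
  intro b hb
  rw [mem_filter, mem_Icc] at hb
  rw [mem_filter, mem_Ioc]
  exact ⟨⟨by omega, by omega⟩, hb.2.add_left a⟩

theorem fw3_type3 {f : ℕ → ℝ} (hf : ∀ n, 0 ≤ f n) {M W T : ℕ} {κ : ℝ} (hκ : 0 ≤ κ) (hW : 0 < W)
    (h : fw3_H f M W T κ) (a j c : ℕ) (ha : 0 < a) (hj : a ≤ M) (hj2 : j ≤ M) :
    ∑ b ∈ (Icc 1 j).filter (fun b => b ≠ a ∧ b ≡ c [MOD W]), f (dd a b) ≤
      κ * (j + 2 * T) / W := by
  have hsplit : (Icc 1 j).filter (fun b => b ≠ a ∧ b ≡ c [MOD W]) =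
      (Icc 1 j).filter (fun b => b < a ∧ b ≡ c [MOD W]) ∪
      (Icc 1 j).filter (fun b => a < b ∧ b ≡ c [MOD W]) := by
    ext b
    simp only [mem_filter, mem_union]
    constructor
    · rintro ⟨h1, h2, h3⟩
      rcases lt_or_gt_of_ne h2 with h4 | h4
      · exact Or.inl ⟨h1, h4, h3⟩
      · exact Or.inr ⟨h1, h4, h3⟩
    · rintro (⟨h1, h2, h3⟩ | ⟨h1, h2, h3⟩)
      · exact ⟨h1, by omega, h3⟩
      · exact ⟨h1, by omega, h3⟩
  rw [hsplit, sum_union (by
    rw [Finset.disjoint_left]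
    intro b h1 h2
    have h3 := (mem_filter.1 h1).2.1
    have h4 := (mem_filter.1 h2).2.1
    omega)]
  have hWm : ∀ t : ℕ, t + t * (W - 1) = t * W := by
    intro t
    obtain ⟨V, rfl⟩ : ∃ V, W = V + 1 := ⟨W - 1, by omega⟩
    rw [Nat.add_sub_cancel]
    ring
  have p1 : ∑ b ∈ (Icc 1 j).filter (fun b => b < a ∧ b ≡ c [MOD W]), f (dd a b) ≤
      κ * ((min j (a - 1) : ℕ) + T) / W := by
    set l := min j (a - 1) with hl
    have hl1 : l ≤ a - 1 := min_le_right _ _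
    refine le_trans ?_ (h (a - 1 - l) l (a + c * (W - 1)) (by omega))
    refine fw3_inj _ _ (fun b => dd a b) f ?_ ?_ hf
    · intro x hx y hy hxy
      have h1 := (mem_filter.1 (mem_coe.1 hx)).2.1
      have h2 := (mem_filter.1 (mem_coe.1 hy)).2.1
      simp only [dd] at hxy
      omega
    · intro b hb
      rw [mem_filter, mem_Icc] at hb
      rw [mem_filter, mem_Ioc]
      have hdd : dd a b = a - b := by unfold dd; omega
      refine ⟨⟨by rw [hdd]; omega, by rw [hdd]; omega⟩, ?_⟩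
      rw [hdd]
      have e1 : (a - b) + c ≡ a [MOD W] := by
        have := hb.2.2.symm.add_left (a - b)
        rwa [Nat.sub_add_cancel hb.2.1.le] at this
      have e2 : (a + c * (W - 1)) + c ≡ a [MOD W] := by
        have e3 : (a + c * (W - 1)) + c = a + W * c := by
          have := hWm c
          rw [mul_comm W c, ← this]
          ring
        rw [e3]
        unfold Nat.ModEq
        rw [Nat.add_mul_mod_self_left]
      exact Nat.ModEq.add_right_cancel' c (e1.trans e2.symm)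
  have p2 : ∑ b ∈ (Icc 1 j).filter (fun b => a < b ∧ b ≡ c [MOD W]), f (dd a b) ≤
      κ * ((j - a : ℕ) + T) / W := by
    refine le_trans ?_ (h 0 (j - a) (c + a * (W - 1)) (by omega))
    refine fw3_inj _ _ (fun b => dd a b) f ?_ ?_ hf
    · intro x hx y hy hxy
      have h1 := (mem_filter.1 (mem_coe.1 hx)).2.1
      have h2 := (mem_filter.1 (mem_coe.1 hy)).2.1
      simp only [dd] at hxy
      omega
    · intro b hb
      rw [mem_filter, mem_Icc] at hb
      rw [mem_filter, mem_Ioc]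
      have hdd : dd a b = b - a := by unfold dd; omega
      refine ⟨⟨by rw [hdd]; omega, by rw [hdd]; omega⟩, ?_⟩
      rw [hdd]
      have e1 : (b - a) + a ≡ c [MOD W] := by
        rw [Nat.sub_add_cancel hb.2.1.le]
        exact hb.2.2
      have e2 : (c + a * (W - 1)) + a ≡ c [MOD W] := by
        have e3 : (c + a * (W - 1)) + a = c + W * a := by
          have := hWm a
          rw [mul_comm W a, ← this]
          ring
        rw [e3]
        unfold Nat.ModEq
        rw [Nat.add_mul_mod_self_left]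
      exact Nat.ModEq.add_right_cancel' a (e1.trans e2.symm)
  have hW0 : (0 : ℝ) < W := by exact_mod_cast hW
  have hlen : ((min j (a - 1) : ℕ) : ℝ) + ((j - a : ℕ) : ℝ) ≤ j := by
    have : min j (a - 1) + (j - a) ≤ j := by
      rcases Nat.lt_or_ge j a with h1 | h1
      · have := min_le_left j (a - 1)
        omega
      · have := min_le_right j (a - 1)
        omega
    exact_mod_cast this
  calc _ ≤ κ * ((min j (a - 1) : ℕ) + T) / W + κ * ((j - a : ℕ) + T) / W := add_le_add p1 p2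
    _ = κ * ((((min j (a - 1) : ℕ) : ℝ) + ((j - a : ℕ) : ℝ)) + 2 * T) / W := by ring
    _ ≤ _ := by
        refine div_le_div_of_nonneg_right (mul_le_mul_of_nonneg_left ?_ hκ) hW0.le
        linarith

/-- from classes to the weighted sum -/
theorem fw3_weighted (W a J T : ℕ) (hW : 0 < W) (κ A : ℝ) (F g : ℕ → ℝ) (hF : ∀ b, 0 ≤ F b)
    (hFp : ∀ b, F (b % W) = F b) (hsum : ∑ c ∈ range W, F c = W * A) (hκ : 0 ≤ κ)
    (hA : 0 ≤ A)
    (hg : ∀ j < J, ∀ c : ℕ, ∑ b ∈ (Icc 1 j).filter (fun b => b ≠ a ∧ b ≡ c [MOD W]), g b ≤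
      κ * (j + 2 * T) / W) :
    ∑ b ∈ (Ico 1 J).filter (fun b => b ≠ a), ((J : ℝ) - b) * (F b * g b) ≤
      κ * A * ((J : ℝ) ^ 2 / 2 + 2 * T * J) := by
  have hW0 : (0 : ℝ) < W := by exact_mod_cast hW
  -- Abel summation
  have h1 : ∑ b ∈ (Ico 1 J).filter (fun b => b ≠ a), ((J : ℝ) - b) * (F b * g b) =
      ∑ j ∈ Ico 1 J, ∑ b ∈ (Icc 1 j).filter (fun b => b ≠ a), F b * g b := by
    have e1 : ∀ b ∈ (Ico 1 J).filter (fun b => b ≠ a), ((J : ℝ) - b) * (F b * g b) =
        ∑ j ∈ Ico 1 J, if b ≤ j then F b * g b else 0 := by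
      intro b hb
      rw [mem_filter, mem_Ico] at hb
      rw [← sum_filter, sum_const, nsmul_eq_mul]
      congr 1
      have e2 : (Ico 1 J).filter (fun j => b ≤ j) = Ico b J := by
        ext j
        simp only [mem_filter, mem_Ico]
        omega
      rw [e2, Nat.card_Ico, Nat.cast_sub hb.1.2.le]
    rw [sum_congr rfl e1, sum_comm]
    refine sum_congr rfl fun j hj => ?_
    rw [mem_Ico] at hj
    rw [← sum_filter]
    refine sum_congr ?_ fun _ _ => rfl
    ext b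
    simp only [mem_filter, mem_Ico, mem_Icc]
    constructor
    · rintro ⟨⟨⟨h2, h3⟩, h4⟩, h5⟩
      exact ⟨⟨h2, h5⟩, h4⟩
    · rintro ⟨⟨h2, h5⟩, h4⟩
      exact ⟨⟨⟨h2, by omega⟩, h4⟩, h5⟩
  -- one j
  have h2 : ∀ j ∈ Ico 1 J, ∑ b ∈ (Icc 1 j).filter (fun b => b ≠ a), F b * g b ≤
      κ * A * (j + 2 * T) := by
    intro j hj
    have e1 : ∑ b ∈ (Icc 1 j).filter (fun b => b ≠ a), F b * g b =
        ∑ c ∈ range W, ∑ b ∈ ((Icc 1 j).filter (fun b => b ≠ a)).filter (fun b => b % W = c),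
          F b * g b := by
      rw [sum_fiberwise_of_maps_to]
      intro b _
      exact mem_range.2 (Nat.mod_lt _ hW)
    rw [e1]
    calc _ ≤ ∑ c ∈ range W, F c * (κ * (j + 2 * T) / W) := by
          refine sum_le_sum fun c hc => ?_
          have hc' := mem_range.1 hc
          have e2 : ∑ b ∈ ((Icc 1 j).filter (fun b => b ≠ a)).filter (fun b => b % W = c),
              F b * g b = F c * ∑ b ∈ (Icc 1 j).filter (fun b => b ≠ a ∧ b ≡ c [MOD W]), g b := by
            rw [mul_sum, filter_filter]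
            refine sum_congr ?_ fun b hb => ?_
            · refine filter_congr fun b _ => ?_
              unfold Nat.ModEq
              rw [Nat.mod_eq_of_lt hc']
            · have := (mem_filter.1 hb).2.2
              unfold Nat.ModEq at this
              rw [Nat.mod_eq_of_lt hc'] at this
              rw [← hFp b, this]
          rw [e2]
          exact mul_le_mul_of_nonneg_left (hg j (mem_Ico.1 hj).2 c) (hF c)
      _ = (∑ c ∈ range W, F c) * (κ * (j + 2 * T) / W) := by rw [sum_mul]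
      _ = _ := by
          rw [hsum]
          field_simp
  rw [h1]
  calc _ ≤ ∑ j ∈ Ico 1 J, κ * A * ((j : ℝ) + 2 * T) := sum_le_sum h2
    _ = κ * A * (∑ j ∈ Ico 1 J, ((j : ℝ) + 2 * T)) := by rw [mul_sum]
    _ ≤ _ := by
        refine mul_le_mul_of_nonneg_left ?_ (mul_nonneg hκ hA)
        rw [sum_add_distrib, sum_const, nsmul_eq_mul, Nat.card_Ico]
        have e3 : ∑ j ∈ Ico 1 J, (j : ℝ) ≤ (J : ℝ) ^ 2 / 2 := by
          have e4 : ∀ n : ℕ, ∑ j ∈ Ico 1 n, (j : ℝ) ≤ (n : ℝ) ^ 2 / 2 := by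
            intro n
            induction n with
            | zero => simp
            | succ n ih =>
              rcases Nat.eq_zero_or_pos n with h0 | h0
              · subst h0; simp
              · rw [sum_Ico_succ_top (by omega)]
                push_cast
                nlinarith
          exact e4 J
        have e5 : ((J - 1 : ℕ) : ℝ) ≤ J := by exact_mod_cast Nat.sub_le _ _
        have e6 : ((J - 1 : ℕ) : ℝ) * (2 * T) ≤ J * (2 * T) :=
          mul_le_mul_of_nonneg_right e5 (by positivity)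
        linarith

theorem fw3_exp (η ε : ℝ) (hη : 0 < η) (h1 : η ≤ 1 / 16) (h2 : η ≤ ε / 16) :
    Real.exp (2 * η) * ((1 + η) * (1 + 4 * η)) ≤ 1 + ε := by
  have e1 : Real.exp (2 * η) ≤ 1 + 4 * η := by
    have h3 := Real.add_one_le_exp (-(2 * η))
    have h4 : Real.exp (2 * η) * Real.exp (-(2 * η)) = 1 := by
      rw [← Real.exp_add, add_neg_cancel, Real.exp_zero]
    have h5 : Real.exp (2 * η) * (1 - 2 * η) ≤ 1 := by
      rw [← h4]
      exact mul_le_mul_of_nonneg_left (by linarith) (Real.exp_pos _).le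
    have h6 : 0 < Real.exp (2 * η) := Real.exp_pos _
    by_contra hc
    rw [not_le] at hc
    have h7 : (1 + 4 * η) * (1 - 2 * η) < Real.exp (2 * η) * (1 - 2 * η) :=
      mul_lt_mul_of_pos_right hc (by linarith)
    nlinarith
  have e2 : (1 + η) * (1 + 4 * η) ≤ (1 + 4 * η) * (1 + 4 * η) :=
    mul_le_mul_of_nonneg_right (by linarith) (by linarith)
  calc _ ≤ (1 + 4 * η) * ((1 + 4 * η) * (1 + 4 * η)) :=
        mul_le_mul e1 e2 (by positivity) (by positivity)
    _ ≤ 1 + 16 * η := by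
        have q1 := mul_nonneg hη.le (sub_nonneg.2 h1)
        have q2 := mul_nonneg (mul_pos hη hη).le (sub_nonneg.2 h1)
        nlinarith [q1, q2, mul_pos hη hη]
    _ ≤ _ := by linarith

theorem fw3_logs (k : ℕ) (η : ℝ) (hη : 0 < η) : ∃ X₀ : ℕ, ∀ x : ℕ, X₀ ≤ x → k ≤ wX x ∧
    1 ≤ Real.log x ∧
    ((⌈(Real.log x) ^ (1 / 4 : ℝ) * (primorial (wX x) : ℝ)⌉₊ : ℕ) : ℝ) ≤ η * (Real.log x) ^ 2 := by
  have t1 : Tendsto (fun x : ℕ => Real.log (x : ℝ)) atTop atTop :=
    Real.tendsto_log_atTop.comp tendsto_natCast_atTop_atTop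
  have t2 : Tendsto (fun x : ℕ => Real.log (Real.log (x : ℝ))) atTop atTop :=
    Real.tendsto_log_atTop.comp t1
  have t3 : Tendsto (fun x : ℕ => (Real.log (x : ℝ)) ^ (7 / 20 : ℝ)) atTop atTop :=
    (tendsto_rpow_atTop (by norm_num)).comp t1
  have hev : ∀ᶠ x : ℕ in atTop, k ≤ wX x ∧ 1 ≤ Real.log x ∧
      ((⌈(Real.log x) ^ (1 / 4 : ℝ) * (primorial (wX x) : ℝ)⌉₊ : ℕ) : ℝ) ≤
        η * (Real.log x) ^ 2 := by
    filter_upwards [t1.eventually_ge_atTop 1, t2.eventually_ge_atTop (k : ℝ),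
      t3.eventually_ge_atTop (2 / η)] with x h1 h2 h3
    refine ⟨Nat.le_floor h2, h1, ?_⟩
    set L := Real.log (x : ℝ) with hL
    have hL0 : 0 < L := by linarith
    have hLL : 0 ≤ Real.log L := Real.log_nonneg h1
    have hw : (wX x : ℝ) ≤ Real.log L := Nat.floor_le hLL
    have hlog4 : Real.log 4 ≤ 7 / 5 := by
      have h4 : Real.log 4 = 2 * Real.log 2 := by
        rw [show (4 : ℝ) = 2 ^ 2 by norm_num, Real.log_pow]
        norm_num
      have := Real.log_two_lt_d9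
      rw [h4]
      linarith
    have hlog4' : 0 ≤ Real.log 4 := Real.log_nonneg (by norm_num)
    have hW : (primorial (wX x) : ℝ) ≤ L ^ (7 / 5 : ℝ) := by
      calc (primorial (wX x) : ℝ) ≤ ((4 ^ (wX x) : ℕ) : ℝ) := by
            exact_mod_cast primorial_le_four_pow (wX x)
        _ = Real.exp (Real.log 4 * wX x) := by
            push_cast
            rw [mul_comm, Real.exp_nat_mul, Real.exp_log (by norm_num)]
        _ ≤ Real.exp (7 / 5 * Real.log L) := by
            refine Real.exp_le_exp.2 ?_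
            calc Real.log 4 * wX x ≤ Real.log 4 * Real.log L :=
                  mul_le_mul_of_nonneg_left hw hlog4'
              _ ≤ _ := mul_le_mul_of_nonneg_right hlog4 hLL
        _ = _ := by rw [Real.rpow_def_of_pos hL0, mul_comm]
    have hprod : L ^ (1 / 4 : ℝ) * (primorial (wX x) : ℝ) ≤ L ^ (33 / 20 : ℝ) := by
      calc _ ≤ L ^ (1 / 4 : ℝ) * L ^ (7 / 5 : ℝ) :=
            mul_le_mul_of_nonneg_left hW (Real.rpow_nonneg hL0.le _)
        _ = _ := by
            rw [← Real.rpow_add hL0]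
            norm_num
    have hone : 1 ≤ L ^ (33 / 20 : ℝ) := Real.one_le_rpow h1 (by norm_num)
    have hc := (Nat.ceil_lt_add_one (a := L ^ (1 / 4 : ℝ) * (primorial (wX x) : ℝ))
      (by positivity)).le
    have hsq : L ^ 2 = L ^ (33 / 20 : ℝ) * L ^ (7 / 20 : ℝ) := by
      rw [← Real.rpow_add hL0, ← Real.rpow_natCast]
      norm_num
    calc _ ≤ 2 * L ^ (33 / 20 : ℝ) := by linarith
      _ = η * (L ^ (33 / 20 : ℝ) * (2 / η)) := by field_simp
      _ ≤ η * (L ^ (33 / 20 : ℝ) * L ^ (7 / 20 : ℝ)) := by gcongr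
      _ = _ := by rw [hsq]
  obtain ⟨X₀, hX₀⟩ := eventually_atTop.1 hev
  exact ⟨X₀, fun x hx => hX₀ x hx⟩

theorem fibre_average (S : ℕ → ℕ → ℝ)
    (hS : ∀ a b : ℕ, 0 < a → 0 < b → a ≠ b →
      Tendsto (Pool.Agent.Lib.MP_092512_nt.Spart a b) atTop (𝓝 (S a b))) (ε : ℝ) (hε : 0 < ε) :
    ∃ η : ℝ, 0 < η ∧ ∃ X₀ : ℕ, ∀ x : ℕ, X₀ ≤ x → ∀ a J : ℕ, 1 ≤ a → a ≤ x →
      (Real.log x) ^ 2 ≤ J → J ≤ x → Tp (wX x) a ≤ η →
      ∑ b ∈ (Ico 1 J).filter (fun b => b ≠ a), ((J : ℝ) - b) * S a b ≤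
        (1 + ε) * (S2w a (wX x)) ^ 2 * ((J : ℝ) ^ 2 / 2) := by
  obtain ⟨η, hη0, hη1, hη2⟩ : ∃ η : ℝ, 0 < η ∧ η ≤ 1 / 16 ∧ η ≤ ε / 16 :=
    ⟨min (1 / 16) (ε / 16), by positivity, min_le_left _ _, min_le_right _ _⟩
  obtain ⟨w₀, X₁, hBK⟩ := sum_BK 20 η (by norm_num) hη0
  obtain ⟨X₂, hX₂⟩ := fw3_logs (max w₀ 7) η hη0
  refine ⟨η, hη0, max X₁ X₂, ?_⟩
  intro x hx a J ha hax hJ hJx hTp
  have hx1 : X₁ ≤ x := le_trans (le_max_left _ _) hx
  obtain ⟨hk, hL1, hT⟩ := hX₂ x (le_trans (le_max_right _ _) hx)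
  obtain ⟨w, hw⟩ : ∃ w, w = wX x := ⟨_, rfl⟩
  rw [← hw] at hk hT hTp ⊢
  have hw0 : w₀ ≤ w := le_trans (le_max_left _ _) hk
  have hw7 : 7 ≤ w := le_trans (le_max_right _ _) hk
  obtain ⟨W, hW⟩ : ∃ W, W = primorial w := ⟨_, rfl⟩
  rw [← hW] at hT
  have hWpos : 0 < W := by rw [hW]; exact primorial_pos w
  have hW1 : (0 : ℝ) < W := by exact_mod_cast hWpos
  obtain ⟨T, hTdef⟩ : ∃ T, T = ⌈(Real.log x) ^ (1 / 4 : ℝ) * (W : ℝ)⌉₊ := ⟨_, rfl⟩
  rw [← hTdef] at hT
  have hTge : (Real.log x) ^ (1 / 4 : ℝ) * W ≤ T := by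
    rw [hTdef]
    exact Nat.le_ceil _
  have hTJ : (T : ℝ) ≤ η * J := hT.trans (mul_le_mul_of_nonneg_left hJ hη0.le)
  have hJ0 : (0 : ℝ) ≤ J := Nat.cast_nonneg _
  have hTJ' : T ≤ J := by
    have : (T : ℝ) ≤ J := by nlinarith
    exact_mod_cast this
  set f : ℕ → ℝ := BK 20 w with hf
  have hf0 : ∀ n, 0 ≤ f n := fun n => le_trans zero_le_one (one_le_BK 20 (by norm_num) w n)
  have hPW : ∀ p : ℕ, p.Prime → p ∣ W → p ≤ w := by
    intro p hp hpW
    rw [hW] at hpW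
    exact hp.dvd_primorial_iff.1 hpW
  have hH : fw3_H f (2 * x) W T (1 + η) := by
    intro y j c hyj
    have h1 := hBK w x hw0 hx1 W hWpos hPW y (j + T) c (by omega) (by
      push_cast
      have : (0 : ℝ) ≤ j := Nat.cast_nonneg _
      linarith)
    calc _ ≤ ∑ n ∈ (Ioc y (y + (j + T))).filter (fun n => n ≡ c [MOD W]), f n := by
          refine sum_le_sum_of_subset_of_nonneg ?_ fun n _ _ => hf0 n
          intro n hn
          rw [mem_filter, mem_Ioc] at hn ⊢
          exact ⟨⟨hn.1.1, by omega⟩, hn.2⟩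
      _ ≤ _ := h1
      _ = _ := by push_cast; ring
  have hκ : 0 ≤ 1 + η := by linarith
  set P := (Icc 1 w).filter Nat.Prime with hP
  have hWP : W = ∏ p ∈ P, p := by
    rw [hW, hP, fw3_Icc]
    rfl
  set F : ℕ → ℝ := fun b => PP P a b with hF
  have hF0 : ∀ b, 0 ≤ F b := fun b => fw3_PP_nonneg w a b
  have hFp : ∀ b, F (b % W) = F b := by
    intro b
    rw [hF, hWP]
    exact fw3_PP_mod P a b
  have hFs : ∑ c ∈ range W, F c = W * S2w a w ^ 2 := by
    rw [hW]
    exact fw3_period' w a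
  have hA : 0 ≤ S2w a w ^ 2 := sq_nonneg _
  have key : ∀ g : ℕ → ℝ, (∀ j < J, ∀ c : ℕ,
      ∑ b ∈ (Icc 1 j).filter (fun b => b ≠ a ∧ b ≡ c [MOD W]), g b ≤
      (1 + η) * (j + 2 * T) / W) →
      ∑ b ∈ (Ico 1 J).filter (fun b => b ≠ a), ((J : ℝ) - b) * (F b * g b) ≤
      (1 + η) * S2w a w ^ 2 * ((J : ℝ) ^ 2 / 2 + 2 * T * J) :=
    fun g hg => fw3_weighted W a J T hWpos (1 + η) (S2w a w ^ 2) F g hF0 hFp hFs hκ hA hg
  have hmono : ∀ (j c : ℕ) (g : ℕ → ℝ), (∀ n, 0 ≤ g n) →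
      ∑ b ∈ (Icc 1 j).filter (fun b => b ≡ c [MOD W]), g b ≤ (1 + η) * (j + T) / W →
      ∑ b ∈ (Icc 1 j).filter (fun b => b ≠ a ∧ b ≡ c [MOD W]), g b ≤
        (1 + η) * (j + 2 * T) / W := by
    intro j c g hg h1
    calc _ ≤ ∑ b ∈ (Icc 1 j).filter (fun b => b ≡ c [MOD W]), g b := by
          refine sum_le_sum_of_subset_of_nonneg ?_ fun n _ _ => hg n
          intro n hn
          rw [mem_filter] at hn ⊢
          exact ⟨hn.1, hn.2.2⟩
      _ ≤ _ := h1
      _ ≤ _ := by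
          refine div_le_div_of_nonneg_right (mul_le_mul_of_nonneg_left ?_ hκ) hW1.le
          have : (0 : ℝ) ≤ T := Nat.cast_nonneg _
          linarith
  have k1 := key f (fun j hj c => hmono j c f hf0 (fw3_type1 hH j c (by omega)))
  have k2 := key (fun b => f (dd a b)) (fun j hj c =>
    fw3_type3 hf0 hκ hWpos hH a j c (by omega) (by omega) (by omega))
  have k3 := key (fun b => f (a + b)) (fun j hj c => hmono j c (fun b => f (a + b))
    (fun n => hf0 _) (fw3_type2 hf0 hH a j c (by omega)))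
  have hpt : ∀ b ∈ (Ico 1 J).filter (fun b => b ≠ a), ((J : ℝ) - b) * S a b ≤
      Real.exp (2 * η) / 3 * (((J : ℝ) - b) * (F b * f b) + ((J : ℝ) - b) * (F b * f (dd a b)) +
        ((J : ℝ) - b) * (F b * f (a + b))) := by
    intro b hb
    rw [mem_filter, mem_Ico] at hb
    have h1 := fw3_S_le w a b hw7 (by omega) (by omega) (fun h => hb.2 h.symm) (S a b)
      (hS a b (by omega) (by omega) (fun h => hb.2 h.symm)) η hTp
    have h2 : (0 : ℝ) ≤ (J : ℝ) - b := by
      have : (b : ℝ) ≤ J := by exact_mod_cast hb.1.2.le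
      linarith
    calc _ ≤ ((J : ℝ) - b) * (Real.exp (2 * η) / 3 * (PP P a b *
          (BK 20 w b + BK 20 w (dd a b) + BK 20 w (a + b)))) := mul_le_mul_of_nonneg_left h1 h2
      _ = _ := by
          rw [hF, hf]
          ring
  have hE : 0 < Real.exp (2 * η) := Real.exp_pos _
  calc _ ≤ ∑ b ∈ (Ico 1 J).filter (fun b => b ≠ a), Real.exp (2 * η) / 3 *
        (((J : ℝ) - b) * (F b * f b) + ((J : ℝ) - b) * (F b * f (dd a b)) +
        ((J : ℝ) - b) * (F b * f (a + b))) := sum_le_sum hpt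
    _ = Real.exp (2 * η) / 3 * (∑ b ∈ (Ico 1 J).filter (fun b => b ≠ a), ((J : ℝ) - b) * (F b * f b) +
        ∑ b ∈ (Ico 1 J).filter (fun b => b ≠ a), ((J : ℝ) - b) * (F b * f (dd a b)) +
        ∑ b ∈ (Ico 1 J).filter (fun b => b ≠ a), ((J : ℝ) - b) * (F b * f (a + b))) := by
        rw [← mul_sum, sum_add_distrib, sum_add_distrib]
    _ ≤ Real.exp (2 * η) / 3 * (3 * ((1 + η) * S2w a w ^ 2 * ((J : ℝ) ^ 2 / 2 + 2 * T * J))) := by
        refine mul_le_mul_of_nonneg_left ?_ (by positivity)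
        linarith
    _ = Real.exp (2 * η) * (1 + η) * S2w a w ^ 2 * ((J : ℝ) ^ 2 / 2 + 2 * T * J) := by ring
    _ ≤ Real.exp (2 * η) * (1 + η) * S2w a w ^ 2 * ((1 + 4 * η) * ((J : ℝ) ^ 2 / 2)) := by
        refine mul_le_mul_of_nonneg_left ?_ (by positivity)
        nlinarith [mul_le_mul_of_nonneg_right hTJ hJ0]
    _ = (Real.exp (2 * η) * ((1 + η) * (1 + 4 * η))) * (S2w a w ^ 2 * ((J : ℝ) ^ 2 / 2)) := by ring
    _ ≤ (1 + ε) * (S2w a w ^ 2 * ((J : ℝ) ^ 2 / 2)) :=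
        mul_le_mul_of_nonneg_right (fw3_exp η ε hη0 hη1 hη2) (by positivity)
    _ = _ := by ring

end Pool.Agent.Lib.SW
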