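import Pool.Agent.Lib.SW.FW2
import Pool.Agent.Lib.MP_092512_nt.Second

/-!
# FW-4: second moment over b for a fixed a

PROOF. `quad_bound`: NN x a b ≤ C (GQ a b)^4 x/(log x)^4, GQ a b = gg a gg b gg (a+b) gg |a-b|, gg n = n/φ(n) = ∏_{p | n} (1-1/p)^(-1). So
∑_b NN² ≤ C² (x/log^4 x)² gg(a)^8 ∑_b (gg b gg(a+b) gg|a-b|)^8 and the product of three is ≤ the sum of the cubes: ∑_b gg(b)^24 + gg(a+b)^24 + gg|a-b|^24.
gg(n)^24 ≤ (∏_{p ≤ w₀} (1-1/p)^(-1))^24 · ∏_{p | n, p > w₀} (1-1/p)^(-24) ≤ C' · BK K w₀ n with K = 100 (w₀ = w₀(K,1) ≥ 200 from `sum_BK` with η = 1: (1-1/p)^(-24) ≤ 1 + 100/p for p ≥ 200),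
so by `sum_BK` (W = 1, η = 1) the sum over an interval of length J ≥ (log x)^(1/4) inside [0, 3x] is ≤ C'' J (for |a-b|, b < J: two intervals, each contained in one of length J).
gg(a)^8 ≤ K₁ for all but ε x of the a ≤ x (`sum_gg_pow_le`, Markov).
-/

open Finset

namespace Pool.Agent.Lib.SW

theorem fw4_prod_mono {s t : Finset ℕ} (h : s ⊆ t) (f : ℕ → ℝ) (hf : ∀ p ∈ t, 1 ≤ f p) :
    ∏ p ∈ s, f p ≤ ∏ p ∈ t, f p := by
  rw [← Finset.prod_sdiff h]
  have h1 : (1 : ℝ) ≤ ∏ p ∈ t \ s, f p := by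
    calc (1 : ℝ) = ∏ p ∈ t \ s, (1 : ℝ) := by rw [Finset.prod_const_one]
      _ ≤ _ := Finset.prod_le_prod (fun _ _ => zero_le_one)
          (fun p hp => hf p (Finset.mem_sdiff.1 hp).1)
  have h2 : 0 ≤ ∏ p ∈ s, f p := Finset.prod_nonneg fun p hp => zero_le_one.trans (hf p (h hp))
  nlinarith

/-- the constant of the small primes -/
noncomputable def fw4P (w : ℕ) : ℝ :=
  ∏ p ∈ (range (w + 1)).filter Nat.Prime, Pool.Agent.Lib.MP_092512_nt.yf p

theorem fw4P_pos (w : ℕ) : 0 < fw4P w :=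
  Finset.prod_pos fun p hp =>
    Pool.Agent.Lib.MP_092512_nt.yf_pos (Finset.mem_filter.1 hp).2

theorem fw4_gg (w n : ℕ) (hn : n ≠ 0) : Pool.Agent.Lib.MP_092512_nt.gg n ≤
    fw4P w * ∏ p ∈ n.primeFactors.filter (fun p => w < p), Pool.Agent.Lib.MP_092512_nt.yf p := by
  rw [Pool.Agent.Lib.MP_092512_nt.gg_eq_prod n hn]
  have h0 : n.primeFactors.filter (fun p => 0 < p) = n.primeFactors :=
    Finset.filter_true_of_mem fun p hp => (Nat.prime_of_mem_primeFactors hp).pos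
  rw [h0, ← Finset.prod_filter_mul_prod_filter_not n.primeFactors (fun p => w < p), mul_comm]
  refine mul_le_mul_of_nonneg_right ?_ ?_
  · refine fw4_prod_mono ?_ _ ?_
    · intro p hp
      rw [Finset.mem_filter] at hp
      rw [Finset.mem_filter, Finset.mem_range]
      exact ⟨by omega, Nat.prime_of_mem_primeFactors hp.1⟩
    · intro p hp
      exact Pool.Agent.Lib.MP_092512_nt.one_le_yf (Finset.mem_filter.1 hp).2
  · refine Finset.prod_nonneg fun p hp => ?_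
    exact (Pool.Agent.Lib.MP_092512_nt.yf_pos
      (Nat.prime_of_mem_primeFactors (Finset.mem_filter.1 hp).1)).le

theorem fw4_gg24 (w n : ℕ) : Pool.Agent.Lib.MP_092512_nt.gg n ^ 24 ≤
    fw4P w ^ 24 * BK (2 * (2 ^ 24 - 1)) w n := by
  have hK : (0 : ℝ) ≤ 2 * (2 ^ 24 - 1) := by norm_num
  have hB := one_le_BK (2 * (2 ^ 24 - 1)) hK w n
  rcases Nat.eq_zero_or_pos n with rfl | hn
  · have h0 : Pool.Agent.Lib.MP_092512_nt.gg 0 = 0 := by
      unfold Pool.Agent.Lib.MP_092512_nt.gg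
      simp
    rw [h0, zero_pow (by norm_num)]
    have := fw4P_pos w
    positivity
  · have h1 := pow_le_pow_left₀ (Pool.Agent.Lib.MP_092512_nt.gg_nonneg n) (fw4_gg w n hn.ne') 24
    refine h1.trans ?_
    rw [mul_pow]
    refine mul_le_mul_of_nonneg_left ?_ (pow_nonneg (fw4P_pos w).le _)
    unfold BK
    rw [← Finset.prod_pow]
    refine Finset.prod_le_prod ?_ ?_
    · intro p hp
      exact pow_nonneg (Pool.Agent.Lib.MP_092512_nt.yf_pos
        (Nat.prime_of_mem_primeFactors (Finset.mem_filter.1 hp).1)).le _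
    · intro p hp
      exact Pool.Agent.Lib.MP_092512_nt.yf_pow_le
        (Nat.prime_of_mem_primeFactors (Finset.mem_filter.1 hp).1) 24

theorem fw4_sum {w J y : ℕ} {S : ℝ}
    (hS : ∑ n ∈ (Ioc y (y + J)).filter (fun n => n ≡ 0 [MOD 1]), BK (2 * (2 ^ 24 - 1)) w n ≤ S)
    (s : Finset ℕ) (f : ℕ → ℕ) (hinj : Set.InjOn f s) (hm : ∀ b ∈ s, f b ∈ Ioc y (y + J)) :
    ∑ b ∈ s, Pool.Agent.Lib.MP_092512_nt.gg (f b) ^ 24 ≤ fw4P w ^ 24 * S := by
  have hK : (0 : ℝ) ≤ 2 * (2 ^ 24 - 1) := by norm_num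
  have h1 : ∑ b ∈ s, Pool.Agent.Lib.MP_092512_nt.gg (f b) ^ 24 ≤
      ∑ b ∈ s, fw4P w ^ 24 * BK (2 * (2 ^ 24 - 1)) w (f b) :=
    Finset.sum_le_sum fun b _ => fw4_gg24 w (f b)
  refine h1.trans ?_
  rw [← Finset.mul_sum]
  refine mul_le_mul_of_nonneg_left ?_ (pow_nonneg (fw4P_pos w).le _)
  refine le_trans ?_ hS
  rw [← Finset.sum_image (f := fun n => BK (2 * (2 ^ 24 - 1)) w n) hinj]
  refine Finset.sum_le_sum_of_subset_of_nonneg ?_ ?_
  · intro n hn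
    obtain ⟨b, hb, rfl⟩ := Finset.mem_image.1 hn
    rw [Finset.mem_filter]
    exact ⟨hm b hb, Nat.modEq_one⟩
  · intro n _ _
    exact zero_le_one.trans (one_le_BK _ hK w n)

theorem fw4_amgm {x y z : ℝ} (hx : 0 ≤ x) (hy : 0 ≤ y) (hz : 0 ≤ z) :
    x * y * z ≤ x ^ 3 + y ^ 3 + z ^ 3 := by
  have h1 : 0 ≤ (x + y + z) * ((x - y) ^ 2 + (y - z) ^ 2 + (x - z) ^ 2) := by positivity
  have h2 : 0 ≤ x ^ 3 := by positivity
  have h3 : 0 ≤ y ^ 3 := by positivity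
  have h4 : 0 ≤ z ^ 3 := by positivity
  have h5 : 0 ≤ x * y * z := by positivity
  nlinarith

theorem fw4_log {x : ℝ} (hx : 1 ≤ Real.log x) : Real.log x ^ (1 / 4 : ℝ) ≤ Real.log x ^ 2 := by
  have h1 : Real.log x ^ (1 / 4 : ℝ) ≤ Real.log x ^ (2 : ℝ) :=
    Real.rpow_le_rpow_of_exponent_le hx (by norm_num)
  rw [Real.rpow_two] at h1
  exact h1

open Pool.Agent.Lib.MP_092512_nt in
theorem fibre_second_moment (ε : ℝ) (hε : 0 < ε) : ∃ C : ℝ, 0 < C ∧ ∃ X₀ : ℕ, ∀ x : ℕ, X₀ ≤ x →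
    (((Icc 1 x).filter (fun a => ¬ ∀ J ∈ Icc 1 x, (Real.log x) ^ 2 ≤ J →
      ∑ b ∈ (Ico 1 J).filter (fun b => b ≠ a), (NN x a b : ℝ) ^ 2 ≤
        C * J * ((x : ℝ) / (Real.log x) ^ 4) ^ 2)).card : ℝ) ≤ ε * x := by
  obtain ⟨C₁, hC₁, hq⟩ := quad_bound
  obtain ⟨w, X₀, hB⟩ := sum_BK (2 * (2 ^ 24 - 1)) 1 (by norm_num) one_pos
  obtain ⟨K₁, hK₁⟩ : ∃ K₁ : ℝ, K₁ = Real.exp (4 * 2 ^ 8) / ε := ⟨_, rfl⟩
  have hK₁0 : 0 < K₁ := by
    rw [hK₁]
    positivity
  have hP := fw4P_pos w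
  refine ⟨C₁ ^ 2 * K₁ * (8 * fw4P w ^ 24), by positivity, max X₀ 3, ?_⟩
  intro x hx
  have hx1 : X₀ ≤ x := le_trans (le_max_left _ _) hx
  have hx3 : 3 ≤ x := le_trans (le_max_right _ _) hx
  have hx3' : (3 : ℝ) ≤ x := by exact_mod_cast hx3
  have hlog : 1 ≤ Real.log x := by
    rw [Real.le_log_iff_exp_le (by linarith)]
    exact (Real.exp_one_lt_d9.le.trans (by norm_num)).trans hx3'
  have hx0 : (0 : ℝ) < x := by linarith
  -- sums over short intervals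
  have hint : ∀ J y : ℕ, J ∈ Icc 1 x → (Real.log x) ^ 2 ≤ J → y + J ≤ 3 * x →
      ∑ n ∈ (Ioc y (y + J)).filter (fun n => n ≡ 0 [MOD 1]), BK (2 * (2 ^ 24 - 1)) w n ≤ 2 * J := by
    intro J y _ hJ2 hy
    have h1 := hB w x le_rfl hx1 1 le_rfl (fun p hp hp1 => by
      have := Nat.dvd_one.1 hp1
      exact absurd this hp.one_lt.ne') y J 0 hy (by
        rw [Nat.cast_one, mul_one]
        exact (fw4_log hlog).trans hJ2)
    refine h1.trans (le_of_eq ?_)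
    rw [Nat.cast_one, div_one]
    norm_num
  -- the good values of a
  have key : ∀ a ∈ Icc 1 x, gg a ^ 8 ≤ K₁ → ∀ J ∈ Icc 1 x, (Real.log x) ^ 2 ≤ J →
      ∑ b ∈ (Ico 1 J).filter (fun b => b ≠ a), (NN x a b : ℝ) ^ 2 ≤
        C₁ ^ 2 * K₁ * (8 * fw4P w ^ 24) * J * ((x : ℝ) / (Real.log x) ^ 4) ^ 2 := by
    intro a ha hga J hJ hJ2
    have ha1 := (mem_Icc.1 ha).1
    have ha2 := (mem_Icc.1 ha).2
    have hJx := (mem_Icc.1 hJ).2
    have hterm : ∀ b ∈ (Ico 1 J).filter (fun b => b ≠ a), (NN x a b : ℝ) ^ 2 ≤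
        C₁ ^ 2 * ((x : ℝ) / (Real.log x) ^ 4) ^ 2 * K₁ * ((gg b) ^ 24 + (gg (a + b)) ^ 24 +
          (gg (max a b - min a b)) ^ 24) := by
      intro b hb
      have hb1 := (mem_Ico.mp (mem_filter.mp hb).1).1
      have hne := (mem_filter.mp hb).2
      have hh := hq x a b (by omega) ha1 hb1 (Ne.symm hne)
      have hG := GQ_nonneg a b
      have g1 := gg_nonneg a
      have g2 := gg_nonneg b
      have g3 := gg_nonneg (a + b)
      have g4 := gg_nonneg (max a b - min a b)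
      calc (NN x a b : ℝ) ^ 2 ≤ (C₁ * (GQ a b) ^ 4 * x / (Real.log x) ^ 4) ^ 2 :=
            pow_le_pow_left₀ (Nat.cast_nonneg _) hh 2
        _ = C₁ ^ 2 * ((x : ℝ) / (Real.log x) ^ 4) ^ 2 * ((gg a) ^ 8 * ((gg b) ^ 8 *
            (gg (a + b)) ^ 8 * (gg (max a b - min a b)) ^ 8)) := by
            unfold GQ
            ring
        _ ≤ C₁ ^ 2 * ((x : ℝ) / (Real.log x) ^ 4) ^ 2 * (K₁ * (((gg b) ^ 8) ^ 3 +
            ((gg (a + b)) ^ 8) ^ 3 + ((gg (max a b - min a b)) ^ 8) ^ 3)) := by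
            refine mul_le_mul_of_nonneg_left ?_ (by positivity)
            exact mul_le_mul hga (fw4_amgm (by positivity) (by positivity) (by positivity))
              (by positivity) hK₁0.le
        _ = _ := by ring
    refine (sum_le_sum hterm).trans ?_
    rw [← mul_sum, sum_add_distrib, sum_add_distrib]
    have s1 : ∑ b ∈ (Ico 1 J).filter (fun b => b ≠ a), (gg b) ^ 24 ≤ fw4P w ^ 24 * (2 * J) := by
      refine fw4_sum (hint J 0 hJ hJ2 (by omega)) _ (fun b => b) (fun _ _ _ _ h => h) ?_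
      intro b hb
      rw [mem_filter, mem_Ico] at hb
      rw [mem_Ioc]
      omega
    have s2 : ∑ b ∈ (Ico 1 J).filter (fun b => b ≠ a), (gg (a + b)) ^ 24 ≤
        fw4P w ^ 24 * (2 * J) := by
      refine fw4_sum (hint J a hJ hJ2 (by omega)) _ (fun b => a + b) ?_ ?_
      · intro b _ b' _ h
        have h' : a + b = a + b' := h
        omega
      · intro b hb
        rw [mem_filter, mem_Ico] at hb
        rw [mem_Ioc]
        omega
    have s3 : ∑ b ∈ (Ico 1 J).filter (fun b => b ≠ a), (gg (max a b - min a b)) ^ 24 ≤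
        fw4P w ^ 24 * (2 * J) + fw4P w ^ 24 * (2 * J) := by
      rw [← sum_filter_add_sum_filter_not ((Ico 1 J).filter (fun b => b ≠ a)) (fun b => b < a)]
      refine add_le_add ?_ ?_
      · refine fw4_sum (hint J (a - J) hJ hJ2 (by omega)) _ (fun b => max a b - min a b) ?_ ?_
        · intro b hb b' hb' h
          rw [Finset.mem_coe, mem_filter] at hb hb'
          have h' : max a b - min a b = max a b' - min a b' := h
          omega
        · intro b hb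
          rw [mem_filter, mem_filter, mem_Ico] at hb
          rw [mem_Ioc]
          omega
      · refine fw4_sum (hint J 0 hJ hJ2 (by omega)) _ (fun b => max a b - min a b) ?_ ?_
        · intro b hb b' hb' h
          rw [Finset.mem_coe, mem_filter] at hb hb'
          have h' : max a b - min a b = max a b' - min a b' := h
          omega
        · intro b hb
          rw [mem_filter, mem_filter, mem_Ico] at hb
          rw [mem_Ioc]
          omega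
    have hc : 0 ≤ C₁ ^ 2 * ((x : ℝ) / (Real.log x) ^ 4) ^ 2 * K₁ := by positivity
    refine (mul_le_mul_of_nonneg_left (add_le_add (add_le_add s1 s2) s3) hc).trans (le_of_eq ?_)
    ring
  -- Markov
  obtain ⟨B, hBd⟩ : ∃ B : Finset ℕ, B = (Icc 1 x).filter (fun a => K₁ < gg a ^ 8) := ⟨_, rfl⟩
  have hsub : (Icc 1 x).filter (fun a => ¬ ∀ J ∈ Icc 1 x, (Real.log x) ^ 2 ≤ J →
      ∑ b ∈ (Ico 1 J).filter (fun b => b ≠ a), (NN x a b : ℝ) ^ 2 ≤
        C₁ ^ 2 * K₁ * (8 * fw4P w ^ 24) * J * ((x : ℝ) / (Real.log x) ^ 4) ^ 2) ⊆ B := by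
    intro a ha
    rw [mem_filter] at ha
    rw [hBd, mem_filter]
    refine ⟨ha.1, ?_⟩
    by_contra hc
    push Not at hc
    exact ha.2 (key a ha.1 hc)
  have hcard : (B.card : ℝ) * K₁ ≤ x * Real.exp (4 * 2 ^ 8) := by
    calc (B.card : ℝ) * K₁ = ∑ a ∈ B, K₁ := by rw [sum_const, nsmul_eq_mul]
      _ ≤ ∑ a ∈ B, gg a ^ 8 := by
          refine sum_le_sum fun a ha => ?_
          rw [hBd, mem_filter] at ha
          exact ha.2.le
      _ ≤ ∑ a ∈ Icc 1 x, gg a ^ 8 := by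
          refine sum_le_sum_of_subset_of_nonneg ?_ ?_
          · rw [hBd]
            exact filter_subset _ _
          · intro a _ _
            exact pow_nonneg (gg_nonneg a) _
      _ ≤ _ := sum_gg_pow_le 8 x
  have h1 : (((Icc 1 x).filter (fun a => ¬ ∀ J ∈ Icc 1 x, (Real.log x) ^ 2 ≤ J →
      ∑ b ∈ (Ico 1 J).filter (fun b => b ≠ a), (NN x a b : ℝ) ^ 2 ≤
        C₁ ^ 2 * K₁ * (8 * fw4P w ^ 24) * J * ((x : ℝ) / (Real.log x) ^ 4) ^ 2)).card : ℝ) ≤
      (B.card : ℝ) := by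
    exact_mod_cast card_le_card hsub
  refine h1.trans ?_
  have h2 : (B.card : ℝ) ≤ x * Real.exp (4 * 2 ^ 8) / K₁ := by
    rw [le_div_iff₀ hK₁0]
    exact hcard
  refine h2.trans (le_of_eq ?_)
  rw [hK₁]
  have h3 := Real.exp_pos (4 * 2 ^ 8)
  field_simp

end Pool.Agent.Lib.SW
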