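import Pool.Agent.Lib.SW.FW3
import Pool.Agent.Lib.SW.FW4
import Pool.Agent.Lib.MP_092512_nt.Final

/-!
# FW-5: assembly: for almost every even a, all b-averages

PROOF. Let e = min ε 1/64 and so on. Exceptional a: those of `pairs_almost_all` (e), `few_bad_a` (η = η(e) of `fibre_average`, also ≤ ε/8), `fibre_second_moment` (ε/8). Let a be even and not exceptional,
π = π(x), P4 x = π^4/x^3, s2 = S2w a (wX x) ≥ 1 (`one_le_S2w`), T = {p ≤ x : p, p+a prime}, n = #T ≥ (1-e) s2 π²/x. x/n ≤ C (log x)^2, so A large gives x/n ≤ e J/8, i.e. J n ≤ e J² n²/x (up to a constant factor).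
`plain_lower` for T (N = x): (J n)² ≤ (x + J)(J n + 2 ∑_{b<J} (J-b) rr T b), J ≤ c x: so ∑_{b ∈ Ico 1 J} (J-b) rr T b ≥ (1-2e) J² n²/(2x). rr T b ≤ NN x a b; the term b = a (if a < J) is ≤ J n ≤ e J² n²/x. Hence
E := ∑_{b≠a} (J-b) NN x a b ≥ (1-5e) J² n²/(2x) ≥ (1-8e) s2² (J²/2) P4 x, and `fibre_average`: ∑_{b≠a} (J-b) S a b ≤ (1+e) s2² J²/2. This gives (i): E ≥ (1-10e) P4 ∑ (J-b) S a b, and for (ii): with
T(b) = ((1-ε) S a b + c) P4, D = e s2² J²/2 P4 ≥ e J²/2 P4: D + ∑ (J-b) T(b) ≤ E (ε ≥ 64 e, c ≤ e), so D ≤ ∑_{b good} (J-b) NN ≤ J (∑_{good} 1)^(1/2) (∑ NN²)^(1/2) ≤ J (#good)^(1/2) (C J (x/log^4 x)²)^(1/2);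
P4 ≥ 10^(-4) x/log^4 x (`P4_ge`). Hence #good ≥ c J.
-/

open Finset Filter Topology

namespace Pool.Agent.Lib.SW

open Pool.Agent.Lib.MP_092512_nt in
/-- From a large weighted sum and a second moment bound to many good `b` (one variable). -/
theorem many_good_one (U : Finset ℕ) (J : ℝ) (w Nf T : ℕ → ℝ) (hJ : 0 ≤ J)
    (hw : ∀ b ∈ U, 0 ≤ w b ∧ w b ≤ J) (hN : ∀ b, 0 ≤ Nf b) (hT : ∀ b ∈ U, 0 ≤ T b)
    (D M2 : ℝ) (hD : 0 ≤ D) (h1 : D + ∑ b ∈ U, w b * T b ≤ ∑ b ∈ U, w b * Nf b)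
    (h2 : ∑ b ∈ U, (Nf b) ^ 2 ≤ M2) :
    D ^ 2 ≤ J ^ 2 * (((U.filter (fun b => T b ≤ Nf b)).card : ℝ) * M2) := by
  classical
  set G := U.filter (fun b => T b ≤ Nf b) with hG
  have hDle : D ≤ J * ∑ b ∈ G, Nf b := by
    have e1 : D ≤ ∑ b ∈ U, w b * (Nf b - T b) := by
      have : ∑ b ∈ U, w b * (Nf b - T b) = ∑ b ∈ U, w b * Nf b - ∑ b ∈ U, w b * T b := by
        rw [← Finset.sum_sub_distrib]
        exact Finset.sum_congr rfl fun q _ => by ring
      rw [this]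
      linarith
    refine e1.trans ?_
    rw [← Finset.sum_filter_add_sum_filter_not U (fun b => T b ≤ Nf b), ← hG]
    have e3 : ∑ b ∈ U.filter (fun b => ¬ T b ≤ Nf b), w b * (Nf b - T b) ≤ 0 := by
      apply Finset.sum_nonpos
      intro q hq
      have hq' := Finset.mem_filter.mp hq
      have := (hw q hq'.1).1
      have h3 := not_le.mp hq'.2
      exact mul_nonpos_of_nonneg_of_nonpos this (by linarith)
    have e4 : ∑ b ∈ G, w b * (Nf b - T b) ≤ J * ∑ b ∈ G, Nf b := by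
      rw [Finset.mul_sum]
      refine Finset.sum_le_sum fun q hq => ?_
      have hq' := Finset.mem_filter.mp hq
      have hb := hw q hq'.1
      have hT0 := hT q hq'.1
      calc w q * (Nf q - T q) ≤ w q * Nf q := mul_le_mul_of_nonneg_left (by linarith) hb.1
        _ ≤ J * Nf q := mul_le_mul_of_nonneg_right hb.2 (hN _)
    linarith
  calc D ^ 2 ≤ (J * ∑ b ∈ G, Nf b) ^ 2 := pow_le_pow_left₀ hD hDle 2
    _ = J ^ 2 * (∑ b ∈ G, Nf b) ^ 2 := by ring
    _ ≤ J ^ 2 * ((G.card : ℝ) * ∑ b ∈ G, (Nf b) ^ 2) := by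
        gcongr
        exact sq_sum_le_card_mul_sum_sq
    _ ≤ J ^ 2 * ((G.card : ℝ) * M2) := by
        gcongr
        refine le_trans ?_ h2
        apply Finset.sum_le_sum_of_subset_of_nonneg (Finset.filter_subset _ _)
        intro q _ _
        positivity

theorem fw_alg1 (e n π2x s2 : ℝ) (he : 0 < e) (he1 : e ≤ 1 / 64) (hp : 0 < π2x) (hs : 1 ≤ s2)
    (h : (1 - e) * s2 * π2x ≤ n) : π2x / 2 ≤ n := by
  have h1 : (1 - e) * 1 * π2x ≤ (1 - e) * s2 * π2x := by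
    have : 0 ≤ 1 - e := by linarith
    gcongr
  nlinarith

/-- The window inequality in the form `∑ ≥ (1 - 4 e) Q / 2`, `Q = J² n² / x`. -/
theorem fw_alg2 (e x J n Sg : ℝ) (he : 0 < e) (he1 : e ≤ 1 / 64) (hx : 0 < x) (hJ : 0 < J)
    (hn : 0 < n) (hSg : 0 ≤ Sg) (hJx : J ≤ e * x) (hJn : x ≤ e * (J * n))
    (h : (J * n) ^ 2 ≤ (x + J) * (J * n + 2 * Sg)) :
    (1 - 2 * e) * ((J * n) ^ 2 / x) / 2 ≤ Sg := by
  have h1 : (J * n) ^ 2 ≤ ((1 + e) * x) * (J * n + 2 * Sg) := by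
    refine h.trans ?_
    have : 0 ≤ J * n + 2 * Sg := by positivity
    gcongr
    linarith
  have h2 : (J * n) ^ 2 / x ≤ (1 + e) * (J * n + 2 * Sg) := by
    rw [div_le_iff₀ hx]
    linarith
  set Q := (J * n) ^ 2 / x with hQ
  have h3 : J * n ≤ e * Q := by
    rw [hQ, mul_div_assoc', le_div_iff₀ hx]
    have : 0 < J * n := by positivity
    nlinarith
  have hQ0 : 0 ≤ Q := by positivity
  have h4 : Q ≤ (1 + e) * (e * Q + 2 * Sg) := by
    refine h2.trans ?_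
    gcongr
  nlinarith [mul_nonneg he.le hQ0, mul_nonneg (mul_pos he he).le hQ0, mul_nonneg he.le hSg]

open Pool.Agent.Lib.MP_092512_nt in
theorem rr_le_NN (x a b : ℕ) :
    rr ((Icc 1 x).filter (fun p => p.Prime ∧ (p + a).Prime)) b ≤ NN x a b := by
  unfold rr NN
  apply Finset.card_le_card
  intro n hn
  simp only [Finset.mem_filter] at hn ⊢
  obtain ⟨⟨h1, h2, h3⟩, h4, h5, h6⟩ := hn
  refine ⟨h1, h2, h3, h5, ?_⟩
  have e : n + a + b = n + b + a := by ring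
  rw [e]; exact h6

theorem tendsto_wX : Tendsto wX atTop atTop := by
  have h1 : Tendsto (fun x : ℕ => Real.log (Real.log (x : ℝ))) atTop atTop :=
    Real.tendsto_log_atTop.comp (Real.tendsto_log_atTop.comp tendsto_natCast_atTop_atTop)
  exact tendsto_nat_floor_atTop.comp h1

open Pool.Agent.Lib.MP_092512_nt in
/-- The two conclusions for one pair `(a, J)`. -/
theorem fibre_core (S : ℕ → ℕ → ℝ)
    (hS0 : ∀ a b : ℕ, 0 < a → 0 < b → a ≠ b → 0 ≤ S a b) (ε e C A c : ℝ) (he : 0 < e)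
    (he1 : e ≤ 1 / 64) (heε : 32 * e ≤ ε) (hC : 0 < C) (hA : 200 / e ≤ A) (hc : 0 < c)
    (hce : c ≤ e / 2) (hcC : c ≤ (e / (2 * 10 ^ 4)) ^ 2 / C)
    (x a J : ℕ) (hx : 3 ≤ x) (ha : 0 < a) (s2 : ℝ) (hs2 : 1 ≤ s2)
    (hT : (1 - e) * s2 * (Nat.primeCounting x : ℝ) ^ 2 / x ≤
      (((Icc 1 x).filter (fun p => p.Prime ∧ (p + a).Prime)).card : ℝ))
    (hav : ∑ b ∈ (Ico 1 J).filter (fun b => b ≠ a), ((J : ℝ) - b) * S a b ≤
        (1 + e) * s2 ^ 2 * ((J : ℝ) ^ 2 / 2))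
    (hsm : ∑ b ∈ (Ico 1 J).filter (fun b => b ≠ a), (NN x a b : ℝ) ^ 2 ≤
        C * J * ((x : ℝ) / (Real.log x) ^ 4) ^ 2)
    (hJ1 : A * (Real.log x) ^ 2 ≤ J) (hJ2 : (J : ℝ) ≤ c * x) :
    (1 - ε) * P4 x * ∑ b ∈ (Ico 1 J).filter (fun b => b ≠ a), ((J : ℝ) - b) * S a b ≤
        ∑ b ∈ (Ico 1 J).filter (fun b => b ≠ a), ((J : ℝ) - b) * NN x a b ∧
      c * J ≤ (((Ico 1 J).filter (fun b => b ≠ a ∧
        ((1 - ε) * S a b + c) * P4 x ≤ NN x a b)).card : ℝ) := by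
  have hxr : (3 : ℝ) ≤ x := by exact_mod_cast hx
  have hx0 : (0 : ℝ) < x := by linarith
  have hlog1 : 1 ≤ Real.log x := by
    rw [Real.le_log_iff_exp_le hx0]
    have := Real.exp_one_lt_d9
    linarith
  have hlog : 0 < Real.log x := by linarith
  set L := Real.log x with hL
  have hπge := Pool.Agent.Lib.MP_5d7b92_nt.primeCounting_ge x (by omega)
  rw [← hL] at hπge
  set π : ℝ := (Nat.primeCounting x : ℝ) with hπdef
  have hπpos : 0 < π := by
    have : 0 < (1 / 10 : ℝ) * x / L := by positivity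
    linarith
  have hAp : 0 < A := lt_of_lt_of_le (by positivity) hA
  have hJr : (0 : ℝ) < J := lt_of_lt_of_le (by positivity) hJ1
  set T := (Icc 1 x).filter (fun p => p.Prime ∧ (p + a).Prime) with hTdef
  set n : ℝ := (T.card : ℝ) with hn
  have hπ2 : 0 < π ^ 2 / x := by positivity
  have hT' : (1 - e) * s2 * (π ^ 2 / x) ≤ n := by
    rw [← mul_div_assoc]; exact hT
  have hnhalf : π ^ 2 / x / 2 ≤ n := fw_alg1 e n _ s2 he he1 hπ2 hs2 hT'
  have hnpos : 0 < n := by linarith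
  have hn200 : x / (200 * L ^ 2) ≤ n := by
    have h1 : ((1 / 10 : ℝ) * x / L) ^ 2 ≤ π ^ 2 := by gcongr
    calc x / (200 * L ^ 2) = ((1 / 10 : ℝ) * x / L) ^ 2 / x / 2 := by field_simp; norm_num
      _ ≤ π ^ 2 / x / 2 := by gcongr
      _ ≤ n := hnhalf
  have hJn : x ≤ e * (J * n) := by
    have h1 : 200 / e * L ^ 2 ≤ J := le_trans (by gcongr) hJ1
    calc (x : ℝ) = e * ((200 / e * L ^ 2) * (x / (200 * L ^ 2))) := by field_simp
      _ ≤ e * (J * n) := by gcongr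
  have hJx : (J : ℝ) ≤ e * x := hJ2.trans (by gcongr; linarith)
  have hpl := plain_lower T x J (fun m hm => (Finset.mem_Icc.mp (Finset.mem_filter.mp hm).1).2)
  have hw : ∀ b ∈ Ico 1 J, 0 ≤ (J : ℝ) - b ∧ (J : ℝ) - b ≤ J := by
    intro b hb
    have h2 : (b : ℝ) ≤ J := by exact_mod_cast (Finset.mem_Ico.mp hb).2.le
    have h3 : (0 : ℝ) ≤ b := Nat.cast_nonneg _
    exact ⟨by linarith, by linarith⟩
  set Sg := ∑ b ∈ Ico 1 J, ((J : ℝ) - b) * (rr T b : ℝ) with hSg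
  have hSg0 : 0 ≤ Sg := Finset.sum_nonneg fun b hb => mul_nonneg (hw b hb).1 (Nat.cast_nonneg _)
  have hwin := fw_alg2 e x J n Sg he he1 hx0 hJr hnpos hSg0 hJx hJn hpl
  set E := ∑ b ∈ (Ico 1 J).filter (fun b => b ≠ a), ((J : ℝ) - b) * (NN x a b : ℝ) with hE
  set TS := ∑ b ∈ (Ico 1 J).filter (fun b => b ≠ a), ((J : ℝ) - b) * S a b with hTS
  have hdiag : Sg ≤ E + J * n := by
    rw [hSg, ← Finset.sum_filter_add_sum_filter_not (Ico 1 J) (fun b => b ≠ a)]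
    have h1 : ∑ b ∈ (Ico 1 J).filter (fun b => b ≠ a), ((J : ℝ) - b) * (rr T b : ℝ) ≤ E := by
      refine Finset.sum_le_sum fun b hb => ?_
      refine mul_le_mul_of_nonneg_left ?_ (hw b (Finset.mem_filter.mp hb).1).1
      exact_mod_cast rr_le_NN x a b
    have h2 : ∑ b ∈ (Ico 1 J).filter (fun b => ¬ b ≠ a), ((J : ℝ) - b) * (rr T b : ℝ) ≤
        J * n := by
      calc ∑ b ∈ (Ico 1 J).filter (fun b => ¬ b ≠ a), ((J : ℝ) - b) * (rr T b : ℝ)
          ≤ ∑ b ∈ (Ico 1 J).filter (fun b => ¬ b ≠ a), (J : ℝ) * n := by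
            refine Finset.sum_le_sum fun b hb => ?_
            have hwb := hw b (Finset.mem_filter.mp hb).1
            have : (rr T b : ℝ) ≤ n := by
              rw [hn]; exact_mod_cast Finset.card_filter_le _ _
            exact mul_le_mul hwb.2 this (Nat.cast_nonneg _) hJr.le
        _ = (((Ico 1 J).filter (fun b => ¬ b ≠ a)).card : ℝ) * (J * n) := by
            rw [Finset.sum_const, nsmul_eq_mul]
        _ ≤ 1 * (J * n) := by
            gcongr
            have : ((Ico 1 J).filter (fun b => ¬ b ≠ a)).card ≤ 1 := by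
              rw [Finset.card_le_one]
              intro u hu v hv
              have h1 := (Finset.mem_filter.mp hu).2
              have h2 := (Finset.mem_filter.mp hv).2
              simp only [ne_eq, not_not] at h1 h2
              rw [h1, h2]
            exact_mod_cast this
        _ = J * n := one_mul _
    linarith
  have hP4ge := P4_ge x (by omega)
  rw [← hL] at hP4ge
  have hP4eq : P4 x = π ^ 4 / (x : ℝ) ^ 3 := rfl
  set P := P4 x with hPdef
  have hPpos : 0 < P := by rw [hP4eq]; positivity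
  set Z : ℝ := s2 ^ 2 * ((J : ℝ) ^ 2 / 2) * P with hZ
  have hZ0 : 0 < Z := by positivity
  have hs22 : 1 ≤ s2 ^ 2 := one_le_pow₀ hs2
  have hZge : (J : ℝ) ^ 2 / 2 * P ≤ Z := by
    rw [hZ]
    calc (J : ℝ) ^ 2 / 2 * P = 1 * ((J : ℝ) ^ 2 / 2) * P := by ring
      _ ≤ _ := by gcongr
  have hQZ : (1 - e) ^ 2 * (2 * Z) ≤ ((J : ℝ) * n) ^ 2 / x := by
    have h0 : 0 ≤ 1 - e := by linarith
    calc (1 - e) ^ 2 * (2 * Z) = ((J : ℝ) * ((1 - e) * s2 * (π ^ 2 / x))) ^ 2 / x := by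
          rw [hZ, hP4eq]; field_simp
      _ ≤ _ := by gcongr
  have hJnQ : J * n ≤ e * (((J : ℝ) * n) ^ 2 / x) := by
    rw [mul_div_assoc', le_div_iff₀ hx0]
    have : 0 < J * n := by positivity
    nlinarith
  have hElow : (1 - 6 * e) * Z ≤ E := by
    have h1 : (1 - 4 * e) * (((J : ℝ) * n) ^ 2 / x) / 2 ≤ E := by nlinarith
    have h2 : (1 - 4 * e) * ((1 - e) ^ 2 * (2 * Z)) / 2 ≤ E := by
      refine le_trans ?_ h1
      have : 0 ≤ 1 - 4 * e := by linarith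
      gcongr
    have h3 : (1 - 6 * e) ≤ (1 - 4 * e) * (1 - e) ^ 2 := by
      nlinarith [mul_pos he he, pow_pos he 3]
    have h4 : (1 - 6 * e) * Z ≤ ((1 - 4 * e) * (1 - e) ^ 2) * Z := by gcongr
    linarith
  have hTS0 : 0 ≤ TS := by
    refine Finset.sum_nonneg fun b hb => ?_
    have hb' := Finset.mem_filter.mp hb
    exact mul_nonneg (hw b hb'.1).1 (hS0 a b ha (Finset.mem_Ico.mp hb'.1).1 (Ne.symm hb'.2))
  have hTSle : P * TS ≤ (1 + e) * Z := by
    calc P * TS ≤ P * ((1 + e) * s2 ^ 2 * ((J : ℝ) ^ 2 / 2)) := by gcongr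
      _ = _ := by rw [hZ]; ring
  have hPTS0 : 0 ≤ P * TS := by positivity
  have he32 : e ≤ 1 / 32 := by linarith
  have h32 : (1 - 32 * e) * (P * TS) ≤ (1 - 31 * e) * Z := alg_a3 e _ Z he he32 hZ0 hTSle
  constructor
  · have h1 : (1 - ε) * P * TS ≤ (1 - 32 * e) * (P * TS) := by
      rw [mul_assoc]
      exact mul_le_mul_of_nonneg_right (by linarith) hPTS0
    have h2 : (1 - 31 * e) * Z ≤ (1 - 6 * e) * Z := alg_a4 e Z he hZ0
    linarith
  · have hSab : ∀ b ∈ (Ico 1 J).filter (fun b => b ≠ a), 0 ≤ S a b := by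
      intro b hb
      have hb' := Finset.mem_filter.mp hb
      exact hS0 a b ha (Finset.mem_Ico.mp hb'.1).1 (Ne.symm hb'.2)
    have hmg := many_good_one ((Ico 1 J).filter (fun b => b ≠ a)) J (fun b => (J : ℝ) - b)
      (fun b => (NN x a b : ℝ)) (fun b => ((1 - 32 * e) * S a b + c) * P) hJr.le
      (fun b hb => hw b (Finset.mem_filter.mp hb).1) (fun b => Nat.cast_nonneg _) ?_
      (e * Z) (C * J * ((x : ℝ) / L ^ 4) ^ 2) (by positivity) ?_ hsm
    · set G' := ((Ico 1 J).filter (fun b => b ≠ a)).filter (fun b =>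
        ((1 - 32 * e) * S a b + c) * P ≤ (NN x a b : ℝ)) with hG'
      have hsub : G' ⊆ (Ico 1 J).filter (fun b => b ≠ a ∧
          ((1 - ε) * S a b + c) * P ≤ (NN x a b : ℝ)) := by
        intro q hq
        have hq' := Finset.mem_filter.mp hq
        have hqp := Finset.mem_filter.mp hq'.1
        refine Finset.mem_filter.mpr ⟨hqp.1, hqp.2, le_trans ?_ hq'.2⟩
        have hSq := hSab q hq'.1
        have : (1 - ε) * S a q ≤ (1 - 32 * e) * S a q :=
          mul_le_mul_of_nonneg_right (by linarith) hSq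
        exact mul_le_mul_of_nonneg_right (by linarith) hPpos.le
      have hcard : ((G'.card : ℕ) : ℝ) ≤ (((Ico 1 J).filter (fun b => b ≠ a ∧
          ((1 - ε) * S a b + c) * P ≤ (NN x a b : ℝ))).card : ℝ) := by
        exact_mod_cast Finset.card_le_card hsub
      refine le_trans ?_ hcard
      have hxL : (0 : ℝ) < (x : ℝ) / L ^ 4 := by positivity
      have h1 : (e / (2 * 10 ^ 4)) * (J : ℝ) ^ 2 * ((x : ℝ) / L ^ 4) ≤ e * Z := by
        calc (e / (2 * 10 ^ 4)) * (J : ℝ) ^ 2 * ((x : ℝ) / L ^ 4)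
            = e * ((J : ℝ) ^ 2 / 2 * ((1 / 10 : ℝ) ^ 4 * ((x : ℝ) / L ^ 4))) := by ring
          _ ≤ e * ((J : ℝ) ^ 2 / 2 * P) := by gcongr
          _ ≤ e * Z := by gcongr
      have h2 : ((e / (2 * 10 ^ 4)) * (J : ℝ) ^ 2 * ((x : ℝ) / L ^ 4)) ^ 2 ≤
          (J : ℝ) ^ 2 * ((G'.card : ℝ) * (C * J * ((x : ℝ) / L ^ 4) ^ 2)) :=
        (pow_le_pow_left₀ (by positivity) h1 2).trans hmg
      have h3 : (e / (2 * 10 ^ 4)) ^ 2 / C * J ≤ G'.card := by
        have hK : 0 < (J : ℝ) ^ 3 * C * ((x : ℝ) / L ^ 4) ^ 2 := by positivity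
        refine le_of_mul_le_mul_right ?_ hK
        calc (e / (2 * 10 ^ 4)) ^ 2 / C * J * ((J : ℝ) ^ 3 * C * ((x : ℝ) / L ^ 4) ^ 2)
            = ((e / (2 * 10 ^ 4)) * (J : ℝ) ^ 2 * ((x : ℝ) / L ^ 4)) ^ 2 := by
              field_simp
          _ ≤ _ := h2
          _ = _ := by ring
      calc c * (J : ℝ) ≤ (e / (2 * 10 ^ 4)) ^ 2 / C * J := by gcongr
        _ ≤ _ := h3
    · intro b hb
      have : 0 ≤ (1 - 32 * e) * S a b := mul_nonneg (by linarith) (hSab b hb)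
      exact mul_nonneg (by linarith) hPpos.le
    · have e1 : ∑ b ∈ (Ico 1 J).filter (fun b => b ≠ a),
            ((J : ℝ) - b) * (((1 - 32 * e) * S a b + c) * P) =
            (1 - 32 * e) * (P * TS) + c * P *
              ∑ b ∈ (Ico 1 J).filter (fun b => b ≠ a), ((J : ℝ) - b) := by
          rw [hTS, Finset.mul_sum, Finset.mul_sum, Finset.mul_sum, ← Finset.sum_add_distrib]
          refine Finset.sum_congr rfl fun b _ => by ring
      have e2 : ∑ b ∈ (Ico 1 J).filter (fun b => b ≠ a), ((J : ℝ) - b) ≤ (J : ℝ) ^ 2 := by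
        have h1 : ∀ b ∈ (Ico 1 J).filter (fun b => b ≠ a), (J : ℝ) - b ≤ (J : ℝ) :=
          fun b hb => (hw b (Finset.mem_filter.mp hb).1).2
        have h2 := Finset.sum_le_card_nsmul _ _ _ h1
        rw [nsmul_eq_mul] at h2
        refine h2.trans ?_
        have h3 : ((((Ico 1 J).filter (fun b => b ≠ a)).card : ℕ) : ℝ) ≤ J := by
          have := (Finset.card_filter_le (Ico 1 J) (fun b => b ≠ a))
          rw [Nat.card_Ico] at this
          exact_mod_cast this.trans (Nat.sub_le _ _)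
        calc _ ≤ (J : ℝ) * J := by gcongr
          _ = _ := by ring
      rw [e1]
      have e3 : c * P * ∑ b ∈ (Ico 1 J).filter (fun b => b ≠ a), ((J : ℝ) - b) ≤ e * Z := by
        calc _ ≤ c * P * (J : ℝ) ^ 2 := by gcongr
          _ ≤ (e / 2) * P * (J : ℝ) ^ 2 := by gcongr
          _ = e * ((J : ℝ) ^ 2 / 2 * P) := by ring
          _ ≤ e * Z := by gcongr
      have : e * Z + ((1 - 31 * e) * Z + e * Z) ≤ (1 - 6 * e) * Z := alg_a5 e Z he hZ0
      linarith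

open Pool.Agent.Lib.MP_092512_nt in
theorem fibrewise (S : ℕ → ℕ → ℝ)
    (hS : ∀ a b : ℕ, 0 < a → 0 < b → a ≠ b → Tendsto (Spart a b) atTop (𝓝 (S a b)))
    (hS0 : ∀ a b : ℕ, 0 < a → 0 < b → a ≠ b → 0 ≤ S a b) (ε : ℝ) (hε : 0 < ε) :
    ∃ A c : ℝ, 0 < A ∧ 0 < c ∧ ∃ x₀ : ℕ, ∀ x : ℕ, x₀ ≤ x →
      (((Icc 1 x).filter (fun a => Even a ∧ ¬ ∀ J ∈ Icc 1 x, A * (Real.log x) ^ 2 ≤ J →
        (J : ℝ) ≤ c * x →
          (1 - ε) * P4 x * ∑ b ∈ (Ico 1 J).filter (fun b => b ≠ a), ((J : ℝ) - b) * S a b ≤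
            ∑ b ∈ (Ico 1 J).filter (fun b => b ≠ a), ((J : ℝ) - b) * NN x a b ∧
          c * J ≤ (((Ico 1 J).filter (fun b => b ≠ a ∧
            ((1 - ε) * S a b + c) * P4 x ≤ NN x a b)).card : ℝ))).card : ℝ) ≤ ε * x := by
  set e : ℝ := min ε 1 / 64 with hedef
  have hmin : 0 < min ε 1 := lt_min hε one_pos
  have he : 0 < e := by positivity
  have he1 : e ≤ 1 / 64 := by
    have := min_le_right ε 1
    rw [hedef]; linarith
  have heε : 64 * e ≤ ε := by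
    have := min_le_left ε 1
    rw [hedef]; linarith
  obtain ⟨X1, hX1⟩ := pairs_almost_all e he
  obtain ⟨η, hη, X2, hX2⟩ := fibre_average S hS e he
  obtain ⟨w0, hw0⟩ := few_bad_a (min η (ε / 4)) (lt_min hη (by positivity))
  obtain ⟨C, hC, X3, hX3⟩ := fibre_second_moment (ε / 4) (by positivity)
  set c : ℝ := min (e / 2) ((e / (2 * 10 ^ 4)) ^ 2 / C) with hc
  have hcp : 0 < c := lt_min (by positivity) (by positivity)
  obtain ⟨X4, hX4⟩ := (tendsto_wX.eventually_ge_atTop (max w0 2)).exists_forall_of_atTop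
  refine ⟨200 / e, c, by positivity, hcp, max (max X1 X2) (max (max X3 X4) 3), ?_⟩
  intro x hx
  have hx1 : X1 ≤ x := (le_max_left _ _).trans ((le_max_left _ _).trans hx)
  have hx2 : X2 ≤ x := (le_max_right _ _).trans ((le_max_left _ _).trans hx)
  have hx3 : X3 ≤ x := (le_max_left _ _).trans ((le_max_left _ _).trans ((le_max_right _ _).trans hx))
  have hx4 : X4 ≤ x := (le_max_right _ _).trans ((le_max_left _ _).trans ((le_max_right _ _).trans hx))
  have hx5 : 3 ≤ x := (le_max_right _ _).trans ((le_max_right _ _).trans hx)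
  have hw := hX4 x hx4
  have hw1 : w0 ≤ wX x := (le_max_left _ _).trans hw
  have hw2 : 2 ≤ wX x := (le_max_right _ _).trans hw
  have hxr : (3 : ℝ) ≤ x := by exact_mod_cast hx5
  have hx0 : (0 : ℝ) < x := by linarith
  classical
  set F1 := (Icc 1 x).filter (fun a =>
      (((Icc 1 x).filter (fun p => p.Prime ∧ (p + a).Prime)).card : ℝ) <
        (1 - e) * S2w a (wX x) * (Nat.primeCounting x : ℝ) ^ 2 / x) with hF1
  set F2 := (Icc 1 x).filter (fun a => min η (ε / 4) < Tp (wX x) a) with hF2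
  set F3 := (Icc 1 x).filter (fun a => ¬ ∀ J ∈ Icc 1 x, (Real.log x) ^ 2 ≤ J →
      ∑ b ∈ (Ico 1 J).filter (fun b => b ≠ a), (NN x a b : ℝ) ^ 2 ≤
        C * J * ((x : ℝ) / (Real.log x) ^ 4) ^ 2) with hF3
  have c1 : (F1.card : ℝ) ≤ e * x := hX1 x hx1
  have c2 : (F2.card : ℝ) ≤ min η (ε / 4) * x := hw0 (wX x) x hw1 (by omega)
  have c3 : (F3.card : ℝ) ≤ ε / 4 * x := hX3 x hx3
  have hsub : (Icc 1 x).filter (fun a => Even a ∧ ¬ ∀ J ∈ Icc 1 x,
      200 / e * (Real.log x) ^ 2 ≤ J → (J : ℝ) ≤ c * x →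
          (1 - ε) * P4 x * ∑ b ∈ (Ico 1 J).filter (fun b => b ≠ a), ((J : ℝ) - b) * S a b ≤
            ∑ b ∈ (Ico 1 J).filter (fun b => b ≠ a), ((J : ℝ) - b) * NN x a b ∧
          c * J ≤ (((Ico 1 J).filter (fun b => b ≠ a ∧
            ((1 - ε) * S a b + c) * P4 x ≤ NN x a b)).card : ℝ)) ⊆ F1 ∪ (F2 ∪ F3) := by
    intro a haf
    obtain ⟨haI, hae, hnot⟩ := Finset.mem_filter.mp haf
    by_contra hcon
    simp only [Finset.mem_union, not_or] at hcon
    obtain ⟨n1, n2, n3⟩ := hcon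
    apply hnot
    intro J hJI hJ1 hJ2
    have hai := Finset.mem_Icc.mp haI
    have hJi := Finset.mem_Icc.mp hJI
    have m1 : (1 - e) * S2w a (wX x) * (Nat.primeCounting x : ℝ) ^ 2 / x ≤
        (((Icc 1 x).filter (fun p => p.Prime ∧ (p + a).Prime)).card : ℝ) := by
      by_contra hlt
      exact n1 (Finset.mem_filter.mpr ⟨haI, not_le.mp hlt⟩)
    have m2 : Tp (wX x) a ≤ min η (ε / 4) := by
      by_contra hlt
      exact n2 (Finset.mem_filter.mpr ⟨haI, not_le.mp hlt⟩)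
    have m3 : ∀ J ∈ Icc 1 x, (Real.log x) ^ 2 ≤ J →
        ∑ b ∈ (Ico 1 J).filter (fun b => b ≠ a), (NN x a b : ℝ) ^ 2 ≤
          C * J * ((x : ℝ) / (Real.log x) ^ 4) ^ 2 := by
      by_contra hlt
      exact n3 (Finset.mem_filter.mpr ⟨haI, hlt⟩)
    have hJL : (Real.log x) ^ 2 ≤ (J : ℝ) := by
      refine le_trans ?_ hJ1
      have h1 : 1 ≤ 200 / e := by
        rw [le_div_iff₀ he]; linarith
      exact le_mul_of_one_le_left (by positivity) h1
    exact fibre_core S hS0 ε e C (200 / e) c he he1 (by linarith) hC le_rfl hcp (min_le_left _ _)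
      (min_le_right _ _) x a J hx5 hai.1 (S2w a (wX x)) (one_le_S2w a _ hae hw2) m1
      (hX2 x hx2 a J hai.1 hai.2 hJL hJi.2 (m2.trans (min_le_left _ _)))
      (m3 J hJI hJL) hJ1 hJ2
  have hcard := Finset.card_le_card hsub
  have h1 := Finset.card_union_le F1 (F2 ∪ F3)
  have h2 := Finset.card_union_le F2 F3
  have h3 : ((((Icc 1 x).filter (fun a => Even a ∧ ¬ ∀ J ∈ Icc 1 x,
      200 / e * (Real.log x) ^ 2 ≤ J → (J : ℝ) ≤ c * x →
          (1 - ε) * P4 x * ∑ b ∈ (Ico 1 J).filter (fun b => b ≠ a), ((J : ℝ) - b) * S a b ≤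
            ∑ b ∈ (Ico 1 J).filter (fun b => b ≠ a), ((J : ℝ) - b) * NN x a b ∧
          c * J ≤ (((Ico 1 J).filter (fun b => b ≠ a ∧
            ((1 - ε) * S a b + c) * P4 x ≤ NN x a b)).card : ℝ))).card : ℕ) : ℝ) ≤
      (F1.card : ℝ) + (F2.card + F3.card) := by
    exact_mod_cast hcard.trans (h1.trans (by omega))
  refine h3.trans ?_
  have hm : min η (ε / 4) * x ≤ ε / 4 * x := by gcongr; exact min_le_right _ _
  nlinarith

end Pool.Agent.Lib.SW
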