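import Pool.Agent.Lib.SW.SP3

/-!
# LG-1: the local-global principle with counts, all but ε X of N in (X, 2X]

PROOF. Apply `sparse_l2` with K' = K + 1 and ε₀ = ε₁ (to be chosen ≤ c ε^4). Let L = log X, c = W/φ(W) ≥ 1, and for N in (X,2X]
let s_N = #SN (all s < N). For N ≡ a mod W, SN = Sa (s ≤ X < N), so by Chebyshev the number of N ≡ a in (X,2X]
with |rS - c s_N| > η c max(s_N, X/L^K) is ≤ ε₀ (X/W) c² (|S_a|² + (X/L^K')²)/(η c max)² ≤ 2 ε₀/η² · X/W; sum over a < W: ≤ 2 ε₀ X/η² ≤ ε X (η = ε/4, ε₀ = ε^3/64).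
Conversion: for s ∈ S with N - s prime and N - s ≥ X/L^(K+4): (1-η) L ≤ log(N-s) ≤ (1+η) L for X large; the others number ≤ X/L^(K+4) + 1
and are weighted ≤ log 2X. So |reps - rS/L| ≤ 2η reps + 4X/L^(K+4) ... hence |reps - c s_N/L| ≤ ε c max(s_N, X/L^K)/L.
-/

open Finset Pool.Agent.Lib.GT

namespace Pool.Agent.Lib.SW

/-- `W/φ(W)` -/
noncomputable def cX (X : ℕ) : ℝ := (WX X : ℝ) / ((WX X).totient : ℝ)

/-- number of `s ∈ S`, `s < N`, with `N - s` prime -/
def reps (S : Finset ℕ) (N : ℕ) : ℕ := (S.filter (fun s => s < N ∧ (N - s).Prime)).card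

theorem primorial_le_two_pow (n : ℕ) : primorial n ≤ 2 ^ n * (primorial n).totient := by
  induction n with
  | zero => simp
  | succ n ih =>
    by_cases hp : (n + 1).Prime
    · have h1 : primorial (n + 1) = (n + 1) * primorial n := by
        unfold primorial
        rw [Finset.range_add_one, Finset.filter_insert, if_pos hp, Finset.prod_insert]
        simp
      have hco : Nat.Coprime (n + 1) (primorial n) := by
        rw [Nat.Prime.coprime_iff_not_dvd hp, hp.dvd_primorial_iff]
        omega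
      have hn : 1 ≤ n := by
        have := hp.two_le
        omega
      rw [h1, Nat.totient_mul hco, Nat.totient_prime hp, Nat.add_sub_cancel]
      calc (n + 1) * primorial n ≤ (2 * n) * (2 ^ n * (primorial n).totient) :=
            Nat.mul_le_mul (by omega) ih
        _ = 2 ^ (n + 1) * (n * (primorial n).totient) := by ring
    · have h1 : primorial (n + 1) = primorial n := by
        unfold primorial
        rw [Finset.range_add_one, Finset.filter_insert, if_neg hp]
      rw [h1]
      calc primorial n ≤ 2 ^ n * (primorial n).totient := ih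
        _ ≤ 2 ^ (n + 1) * (primorial n).totient :=
            Nat.mul_le_mul_right _ (Nat.pow_le_pow_right (by norm_num) (by omega))

theorem WX_pos (X : ℕ) : 0 < WX X := primorial_pos _

theorem WX_totient_pos (X : ℕ) : 0 < (WX X).totient := Nat.totient_pos.mpr (WX_pos X)

theorem one_le_cX (X : ℕ) : 1 ≤ cX X := by
  unfold cX
  rw [one_le_div (by exact_mod_cast WX_totient_pos X)]
  exact_mod_cast Nat.totient_le _

theorem cX_le_log : ∃ X₀ : ℕ, ∀ X : ℕ, X₀ ≤ X → cX X ≤ Real.log X ∧ (WX X : ℝ) ≤ (Real.log X) ^ 2 := by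
  refine ⟨3, ?_⟩
  intro X hX
  have hX3 : (3 : ℝ) ≤ X := by exact_mod_cast hX
  have hL1 : 1 ≤ Real.log X := by
    rw [Real.le_log_iff_exp_le (by linarith)]
    have := Real.exp_one_lt_d9
    linarith
  have hL0 : 0 < Real.log X := by linarith
  have hLL : 0 ≤ Real.log (Real.log X) := Real.log_nonneg hL1
  have hw : (wX X : ℝ) ≤ Real.log (Real.log X) := Nat.floor_le hLL
  have hexpw : Real.exp (wX X) ≤ Real.log X := by
    calc Real.exp (wX X) ≤ Real.exp (Real.log (Real.log X)) := Real.exp_le_exp.mpr hw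
      _ = Real.log X := Real.exp_log hL0
  have h2 : (2 : ℝ) ^ (wX X) ≤ Real.log X := by
    calc (2 : ℝ) ^ (wX X) ≤ (Real.exp 1) ^ (wX X) := by
          have := Real.add_one_le_exp (1 : ℝ)
          exact pow_le_pow_left₀ (by norm_num) (by linarith) _
      _ = Real.exp (wX X) := by rw [← Real.exp_nat_mul, mul_one]
      _ ≤ Real.log X := hexpw
  constructor
  · unfold cX
    rw [div_le_iff₀ (by exact_mod_cast WX_totient_pos X)]
    calc (WX X : ℝ) ≤ ((2 ^ (wX X) * (WX X).totient : ℕ) : ℝ) := by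
          exact_mod_cast primorial_le_two_pow (wX X)
      _ = (2 : ℝ) ^ (wX X) * ((WX X).totient : ℝ) := by push_cast; ring
      _ ≤ Real.log X * ((WX X).totient : ℝ) := by gcongr
  · calc (WX X : ℝ) ≤ ((4 ^ (wX X) : ℕ) : ℝ) := by
          exact_mod_cast primorial_le_four_pow (wX X)
      _ = ((2 : ℝ) ^ (wX X)) ^ 2 := by
          push_cast
          rw [← pow_mul, mul_comm, pow_mul]
          norm_num
      _ ≤ (Real.log X) ^ 2 := by gcongr

/-- for `N > X` the set `SN` depends on the class of `N` only -/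
theorem SN_eq_Sa {W X N : ℕ} (S : Finset ℕ) (hS : S ⊆ Icc 1 X) (hN : X < N) (a : ℕ)
    (h : N ≡ a [MOD W]) : SN W S N = Sa W S a := by
  unfold SN Sa
  apply Finset.filter_congr
  intro s hs
  have hs2 := Finset.mem_Icc.mp (hS hs)
  have hsN : s < N := by omega
  have hmod : (W : ℤ) ∣ (a : ℤ) - (N : ℤ) := (Nat.modEq_iff_dvd).mp h
  constructor
  · rintro ⟨_, hc⟩
    have h1 : IsCoprime (((N - s : ℕ) : ℤ)) (W : ℤ) := Nat.isCoprime_iff_coprime.mpr hc
    rw [Nat.cast_sub hsN.le] at h1
    obtain ⟨k, hk⟩ := hmod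
    have h2 : ((a : ℤ) - s) = ((N : ℤ) - s) + (W : ℤ) * k := by linarith
    rw [h2]
    exact (IsCoprime.add_mul_left_left_iff).mpr h1
  · intro hc
    refine ⟨hsN, ?_⟩
    apply Nat.isCoprime_iff_coprime.mp
    rw [Nat.cast_sub hsN.le]
    obtain ⟨k, hk⟩ := hmod
    have h2 : ((a : ℤ) - s) = ((N : ℤ) - s) + (W : ℤ) * k := by linarith
    rw [h2] at hc
    exact (IsCoprime.add_mul_left_left_iff).mp hc

/-- Chebyshev in one residue class -/
theorem class_bad (K : ℕ) (η ε : ℝ) (hη : 0 < η) (hε : 0 < ε) :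
    ∃ X₀ : ℕ, ∀ X : ℕ, X₀ ≤ X → ∀ S : Finset ℕ, S ⊆ Icc 1 X → ∀ a : ℕ,
      (((Ioc X (2 * X)).filter (fun N => N ≡ a [MOD WX X] ∧
        η * cX X * max ((Sa (WX X) S a).card : ℝ) (X / (Real.log X) ^ K) <
          |rS S N - cX X * (Sa (WX X) S a).card|)).card : ℝ) ≤ ε * (X / WX X) := by
  obtain ⟨X₀, hX₀⟩ := sparse_l2 K (ε * η ^ 2 / 2) (by positivity)
  refine ⟨max X₀ 3, ?_⟩
  intro X hX S hS a
  have hX0 : X₀ ≤ X := le_trans (le_max_left _ _) hX
  have hX3 : 3 ≤ X := le_trans (le_max_right _ _) hX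
  have hX3' : (3 : ℝ) ≤ X := by exact_mod_cast hX3
  have hmain := hX₀ X hX0 S hS a
  have hL0 : 0 < Real.log X := Real.log_pos (by linarith)
  set M : ℝ := max ((Sa (WX X) S a).card : ℝ) (X / (Real.log X) ^ K) with hM
  have hM0 : 0 < M := lt_of_lt_of_le (by positivity) (le_max_right _ _)
  have hc1 := one_le_cX X
  set c : ℝ := cX X with hc
  have hcdef : (WX X : ℝ) / ((WX X).totient : ℝ) = c := rfl
  rw [hcdef] at hmain
  set B := (Ioc X (2 * X)).filter (fun N => N ≡ a [MOD WX X] ∧
        η * c * M < |rS S N - c * (Sa (WX X) S a).card|) with hB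
  have hsub : B ⊆ (Icc 1 (2 * X)).filter (fun N => N ≡ a [MOD WX X]) := by
    intro N hN
    rw [hB, Finset.mem_filter, Finset.mem_Ioc] at hN
    rw [Finset.mem_filter, Finset.mem_Icc]
    exact ⟨⟨by omega, hN.1.2⟩, hN.2.1⟩
  have h1 : (B.card : ℝ) * (η * c * M) ^ 2 ≤
      ∑ N ∈ (Icc 1 (2 * X)).filter (fun N => N ≡ a [MOD WX X]),
        (rS S N - c * (SN (WX X) S N).card) ^ 2 := by
    calc (B.card : ℝ) * (η * c * M) ^ 2 = ∑ _N ∈ B, (η * c * M) ^ 2 := by
          rw [Finset.sum_const, nsmul_eq_mul]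
      _ ≤ ∑ N ∈ B, (rS S N - c * (SN (WX X) S N).card) ^ 2 := by
          apply Finset.sum_le_sum
          intro N hN
          rw [hB, Finset.mem_filter, Finset.mem_Ioc] at hN
          rw [SN_eq_Sa S hS hN.1.1 a hN.2.1]
          have h0 : 0 ≤ η * c * M := by positivity
          calc (η * c * M) ^ 2 ≤ |rS S N - c * (Sa (WX X) S a).card| ^ 2 :=
                pow_le_pow_left₀ h0 hN.2.2.le 2
            _ = _ := sq_abs _
      _ ≤ _ := Finset.sum_le_sum_of_subset_of_nonneg hsub (fun _ _ _ => sq_nonneg _)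
  have h2 : ((Sa (WX X) S a).card : ℝ) ^ 2 + (X / (Real.log X) ^ K) ^ 2 ≤ 2 * M ^ 2 := by
    have e1 : ((Sa (WX X) S a).card : ℝ) ^ 2 ≤ M ^ 2 :=
      pow_le_pow_left₀ (by positivity) (le_max_left _ _) 2
    have e2 : (X / (Real.log X) ^ K : ℝ) ^ 2 ≤ M ^ 2 :=
      pow_le_pow_left₀ (by positivity) (le_max_right _ _) 2
    linarith
  have h3 : (B.card : ℝ) * (η * c * M) ^ 2 ≤ (ε * (X / WX X)) * (η * c * M) ^ 2 := by
    calc (B.card : ℝ) * (η * c * M) ^ 2 ≤ _ := h1
      _ ≤ _ := hmain
      _ ≤ ε * η ^ 2 / 2 * (X / WX X) * c ^ 2 * (2 * M ^ 2) := by gcongr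
      _ = (ε * (X / WX X)) * (η * c * M) ^ 2 := by ring
  have hpos : 0 < (η * c * M) ^ 2 := by positivity
  exact le_of_mul_le_mul_right h3 hpos

/-- the weighted count is at most `log 2X` times the count -/
theorem rS_le (S : Finset ℕ) (X N : ℕ) (hX : 1 ≤ X) (hN : N ≤ 2 * X) :
    rS S N ≤ (Real.log X + Real.log 2) * reps S N := by
  have h0 : rS S N = ∑ s ∈ S.filter (fun s => s < N ∧ (N - s).Prime), Real.log ((N - s : ℕ) : ℝ) := by
    unfold rS lam
    rw [← Finset.sum_filter, Finset.filter_filter]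
  rw [h0]
  unfold reps
  rw [mul_comm, ← nsmul_eq_mul]
  apply Finset.sum_le_card_nsmul
  intro s hs
  rw [Finset.mem_filter] at hs
  have hXr : (1 : ℝ) ≤ X := by exact_mod_cast hX
  rw [← Real.log_mul (by linarith) (by norm_num)]
  apply Real.log_le_log
  · exact_mod_cast hs.2.2.pos
  · have : N - s ≤ 2 * X := by omega
    have h2 : ((N - s : ℕ) : ℝ) ≤ 2 * X := by exact_mod_cast this
    linarith

/-- the count is at most the weighted count over `log T`, plus `T` -/
theorem reps_le (S : Finset ℕ) (N : ℕ) (T : ℝ) (hT : 1 < T) :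
    (reps S N : ℝ) ≤ rS S N / Real.log T + T := by
  have hlT : 0 < Real.log T := Real.log_pos hT
  have h0 : rS S N = ∑ s ∈ S.filter (fun s => s < N ∧ (N - s).Prime), Real.log ((N - s : ℕ) : ℝ) := by
    unfold rS lam
    rw [← Finset.sum_filter, Finset.filter_filter]
  set A := S.filter (fun s => s < N ∧ (N - s).Prime) with hA
  have hcard : A.card = (A.filter (fun s => T ≤ ((N - s : ℕ) : ℝ))).card +
      (A.filter (fun s => ¬ T ≤ ((N - s : ℕ) : ℝ))).card :=
    (Finset.card_filter_add_card_filter_not _).symm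
  have h1 : ((A.filter (fun s => T ≤ ((N - s : ℕ) : ℝ))).card : ℝ) * Real.log T ≤ rS S N := by
    rw [h0, ← nsmul_eq_mul]
    calc (A.filter (fun s => T ≤ ((N - s : ℕ) : ℝ))).card • Real.log T
        ≤ ∑ s ∈ A.filter (fun s => T ≤ ((N - s : ℕ) : ℝ)), Real.log ((N - s : ℕ) : ℝ) := by
          apply Finset.card_nsmul_le_sum
          intro s hs
          rw [Finset.mem_filter] at hs
          exact Real.log_le_log (by linarith) hs.2
      _ ≤ ∑ s ∈ A, Real.log ((N - s : ℕ) : ℝ) :=
          Finset.sum_le_sum_of_subset_of_nonneg (Finset.filter_subset _ _)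
            (fun s _ _ => Real.log_natCast_nonneg _)
  have h2 : ((A.filter (fun s => ¬ T ≤ ((N - s : ℕ) : ℝ))).card : ℝ) ≤ T := by
    have hsub : (A.filter (fun s => ¬ T ≤ ((N - s : ℕ) : ℝ))).card ≤ (Icc 1 ⌊T⌋₊).card := by
      apply Finset.card_le_card_of_injOn (fun s => N - s)
      · intro s hs
        rw [Finset.mem_coe, Finset.mem_filter, hA, Finset.mem_filter] at hs
        rw [Finset.mem_coe, Finset.mem_Icc]
        have h6 := hs.1.2.1
        refine ⟨Nat.sub_pos_of_lt h6, ?_⟩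
        exact Nat.le_floor (le_of_not_ge hs.2)
      · intro s hs t ht hst
        rw [Finset.mem_coe, Finset.mem_filter, hA, Finset.mem_filter] at hs ht
        have h5 : N - s = N - t := hst
        omega
    rw [Nat.card_Icc, Nat.add_sub_cancel] at hsub
    calc ((A.filter (fun s => ¬ T ≤ ((N - s : ℕ) : ℝ))).card : ℝ) ≤ (⌊T⌋₊ : ℝ) := by exact_mod_cast hsub
      _ ≤ T := Nat.floor_le (by linarith)
  have h3 : (reps S N : ℝ) = (A.card : ℝ) := rfl
  rw [h3, hcard]
  push_cast
  have h4 : ((A.filter (fun s => T ≤ ((N - s : ℕ) : ℝ))).card : ℝ) ≤ rS S N / Real.log T := by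
    rw [le_div_iff₀ hlT]
    exact h1
  linarith

theorem rS_nonneg (S : Finset ℕ) (N : ℕ) : 0 ≤ rS S N := by
  unfold rS lam
  apply Finset.sum_nonneg
  intro s _
  split_ifs
  · exact Real.log_natCast_nonneg _
  · exact le_rfl

/-- the real inequality behind the conversion -/
theorem conversion (r R c s M L η T lT : ℝ) (hη : 0 < η) (hη1 : η ≤ 1) (hc : 1 ≤ c) (hL : 1 ≤ L)
    (hs : s ≤ M) (hM : 0 < M)
    (hR : |R - c * s| ≤ η * c * M) (hR0 : 0 ≤ R)
    (hr1 : R ≤ (L + Real.log 2) * r) (hr2 : r ≤ R / lT + T)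
    (hlT : 0 < lT) (hlT2 : (1 - η / 2) * L ≤ lT)
    (hT : T ≤ η * M / L) (hL2 : 1 ≤ η * L) :
    |r - c * s / L| ≤ 4 * η * c * M / L := by
  have hL0 : 0 < L := by linarith
  have hc0 : 0 < c := by linarith
  obtain ⟨hRa, hRb⟩ := abs_le.mp hR
  have hcM : 0 < c * M := mul_pos hc0 hM
  have hcs : c * s ≤ c * M := mul_le_mul_of_nonneg_left hs hc0.le
  have hηcM : η * c * M ≤ c * M := by
    calc η * c * M = η * (c * M) := by ring
      _ ≤ 1 * (c * M) := mul_le_mul_of_nonneg_right hη1 hcM.le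
      _ = c * M := one_mul _
  have hR2 : R ≤ 2 * (c * M) := by linarith
  have hlog2 : Real.log 2 < 1 := by
    have := Real.log_two_lt_d9
    linarith
  have hlog0 : 0 < Real.log 2 := Real.log_pos (by norm_num)
  rw [abs_le]
  constructor
  · have h1 : R / (L + Real.log 2) ≤ r := by
      rw [div_le_iff₀ (by linarith)]
      linarith
    have h2 : R / L ≤ R / (L + Real.log 2) + 2 * η * (c * M) / L := by
      have e1 : R / L - R / (L + Real.log 2) = R * (Real.log 2 / (L * (L + Real.log 2))) := by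
        field_simp
        ring
      have e2 : Real.log 2 / (L * (L + Real.log 2)) ≤ η / L := by
        rw [div_le_div_iff₀ (by positivity) hL0]
        have e3 : 1 * L ≤ (η * L) * L := mul_le_mul_of_nonneg_right hL2 hL0.le
        have e4 : 0 ≤ η * L * Real.log 2 := by positivity
        nlinarith
      have e5 : R * (Real.log 2 / (L * (L + Real.log 2))) ≤ (2 * (c * M)) * (η / L) := by
        have e6 : 0 ≤ Real.log 2 / (L * (L + Real.log 2)) := by positivity
        exact mul_le_mul hR2 e2 e6 (by positivity)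
      have e7 : (2 * (c * M)) * (η / L) = 2 * η * (c * M) / L := by ring
      linarith
    have h3 : (c * s - η * c * M) / L ≤ R / L := div_le_div_of_nonneg_right (by linarith) hL0.le
    have h4 : (c * s - η * c * M) / L = c * s / L - η * (c * M) / L := by ring
    have h5 : 0 ≤ η * (c * M) / L := by positivity
    have h6 : 2 * η * (c * M) / L = 2 * (η * (c * M) / L) := by ring
    have h7 : 4 * η * c * M / L = 4 * (η * (c * M) / L) := by ring
    rw [h7]
    linarith
  · have h1 : R / lT ≤ (1 + η) * (R / L) := by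
      rw [div_le_iff₀ hlT]
      have e1 : 1 ≤ (1 + η) * (1 - η / 2) := by nlinarith
      have e2 : L ≤ (1 + η) * lT := by
        calc L = 1 * L := (one_mul _).symm
          _ ≤ ((1 + η) * (1 - η / 2)) * L := mul_le_mul_of_nonneg_right e1 hL0.le
          _ = (1 + η) * ((1 - η / 2) * L) := by ring
          _ ≤ (1 + η) * lT := mul_le_mul_of_nonneg_left hlT2 (by linarith)
      have e3 : R = R / L * L := by field_simp
      calc R = R / L * L := e3
        _ ≤ R / L * ((1 + η) * lT) := mul_le_mul_of_nonneg_left e2 (by positivity)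
        _ = (1 + η) * (R / L) * lT := by ring
    have h2 : R / L ≤ (c * s + η * c * M) / L := div_le_div_of_nonneg_right (by linarith) hL0.le
    have h3 : (c * s + η * c * M) / L = c * s / L + η * (c * M) / L := by ring
    have h4 : η * (R / L) ≤ 2 * (η * (c * M) / L) := by
      calc η * (R / L) ≤ η * (2 * (c * M) / L) := by gcongr
        _ = 2 * (η * (c * M) / L) := by ring
    have h5 : T ≤ η * (c * M) / L := by
      calc T ≤ η * M / L := hT
        _ ≤ η * (c * M) / L := by
          have : M ≤ c * M := by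
            calc M = 1 * M := (one_mul _).symm
              _ ≤ c * M := mul_le_mul_of_nonneg_right hc hM.le
          gcongr
    have h7 : 4 * η * c * M / L = 4 * (η * (c * M) / L) := by ring
    rw [h7]
    have h8 : (1 + η) * (R / L) = R / L + η * (R / L) := by ring
    linarith

/-- the range of `X` for the conversion -/
theorem eventually_range (K : ℕ) (η : ℝ) (hη : 0 < η) : ∃ X₀ : ℕ, ∀ X : ℕ, X₀ ≤ X →
    1 ≤ Real.log X ∧ 1 ≤ η * Real.log X ∧ 1 < X / (Real.log X) ^ (K + 2) ∧
      (1 - η / 2) * Real.log X ≤ Real.log (X / (Real.log X) ^ (K + 2)) := by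
  have hlog : Filter.Tendsto (fun X : ℕ => Real.log (X : ℝ)) Filter.atTop Filter.atTop :=
    Real.tendsto_log_atTop.comp tendsto_natCast_atTop_atTop
  have hlo : Filter.Tendsto (fun x : ℝ => Real.log x / x) Filter.atTop (nhds 0) := by
    have h := Real.tendsto_pow_log_div_mul_add_atTop 1 0 1 one_ne_zero
    simpa using h
  have h1 : ∀ᶠ X : ℕ in Filter.atTop, 1 ≤ Real.log (X : ℝ) := hlog.eventually_ge_atTop 1
  have h2 : ∀ᶠ X : ℕ in Filter.atTop, 1 / η ≤ Real.log (X : ℝ) := hlog.eventually_ge_atTop _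
  have h3 : ∀ᶠ X : ℕ in Filter.atTop,
      Real.log (Real.log (X : ℝ)) / Real.log X < min (η / 2) (1 / 2) / (K + 2) := by
    have h := (hlo.comp hlog).eventually (gt_mem_nhds
      (show (0 : ℝ) < min (η / 2) (1 / 2) / (K + 2) by positivity))
    exact h
  have hall := h1.and (h2.and h3)
  obtain ⟨X₀, hX₀⟩ := Filter.eventually_atTop.mp hall
  refine ⟨max X₀ 1, ?_⟩
  intro X hX
  obtain ⟨a1, a2, a3⟩ := hX₀ X (le_trans (le_max_left _ _) hX)
  have hXpos : (0 : ℝ) < X := by
    have : 1 ≤ X := le_trans (le_max_right _ _) hX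
    exact_mod_cast this
  have hL0 : 0 < Real.log (X : ℝ) := by linarith
  have a4 : 1 ≤ η * Real.log X := by
    rw [div_le_iff₀ hη] at a2
    linarith
  have a5 : (K + 2) * Real.log (Real.log X) ≤ min (η / 2) (1 / 2) * Real.log X := by
    rw [div_lt_div_iff₀ hL0 (by positivity)] at a3
    linarith
  have a6 : Real.log (X / (Real.log X) ^ (K + 2)) =
      Real.log X - (K + 2) * Real.log (Real.log X) := by
    rw [Real.log_div hXpos.ne' (by positivity), Real.log_pow]
    push_cast
    ring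
  have a7 : min (η / 2) (1 / 2) * Real.log X ≤ η / 2 * Real.log X :=
    mul_le_mul_of_nonneg_right (min_le_left _ _) hL0.le
  have a8 : min (η / 2) (1 / 2) * Real.log X ≤ 1 / 2 * Real.log X :=
    mul_le_mul_of_nonneg_right (min_le_right _ _) hL0.le
  refine ⟨a1, a4, ?_, ?_⟩
  · have hpos : 0 < X / (Real.log (X : ℝ)) ^ (K + 2) := by positivity
    rw [← Real.log_pos_iff hpos.le, a6]
    linarith
  · rw [a6]
    linarith

theorem local_global (K : ℕ) (ε : ℝ) (hε : 0 < ε) :
    ∃ X₀ : ℕ, ∀ X : ℕ, X₀ ≤ X → ∀ S : Finset ℕ, S ⊆ Icc 1 X →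
      (((Ioc X (2 * X)).filter (fun N =>
        ε * cX X * max ((SN (WX X) S N).card : ℝ) (X / (Real.log X) ^ K) / Real.log X <
          |(reps S N : ℝ) - cX X * (SN (WX X) S N).card / Real.log X|)).card : ℝ) ≤ ε * X := by
  obtain ⟨η, hη0, hη1, hηε⟩ : ∃ η : ℝ, 0 < η ∧ η ≤ 1 ∧ 4 * η ≤ ε := by
    refine ⟨min (ε / 4) 1, by positivity, min_le_right _ _, ?_⟩
    have := min_le_left (ε / 4) 1
    linarith
  obtain ⟨X₁, hX₁⟩ := class_bad K η ε hη0 hε
  obtain ⟨X₂, hX₂⟩ := eventually_range K η hη0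
  refine ⟨max X₁ (max X₂ 1), ?_⟩
  intro X hX S hS
  have hXa : X₁ ≤ X := le_trans (le_max_left _ _) hX
  have hXb : X₂ ≤ X := le_trans (le_trans (le_max_left _ _) (le_max_right _ _)) hX
  have hXc : 1 ≤ X := le_trans (le_trans (le_max_right _ _) (le_max_right _ _)) hX
  have hXr : (1 : ℝ) ≤ X := by exact_mod_cast hXc
  obtain ⟨hL1, hL2, hT1, hT2⟩ := hX₂ X hXb
  have hL0 : 0 < Real.log (X : ℝ) := by linarith
  have hWpos := WX_pos X
  have hc1 := one_le_cX X
  -- the bad N lie in the bad sets of the classes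
  have hsub : (Ioc X (2 * X)).filter (fun N =>
        ε * cX X * max ((SN (WX X) S N).card : ℝ) (X / (Real.log X) ^ K) / Real.log X <
          |(reps S N : ℝ) - cX X * (SN (WX X) S N).card / Real.log X|) ⊆
      (range (WX X)).biUnion (fun a => (Ioc X (2 * X)).filter (fun N => N ≡ a [MOD WX X] ∧
        η * cX X * max ((Sa (WX X) S a).card : ℝ) (X / (Real.log X) ^ K) <
          |rS S N - cX X * (Sa (WX X) S a).card|)) := by
    intro N hN
    rw [Finset.mem_filter, Finset.mem_Ioc] at hN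
    obtain ⟨⟨hN1, hN2⟩, hbad⟩ := hN
    rw [Finset.mem_biUnion]
    refine ⟨N % WX X, Finset.mem_range.mpr (Nat.mod_lt _ hWpos), ?_⟩
    have hmod : N ≡ N % WX X [MOD WX X] := (Nat.mod_modEq _ _).symm
    rw [Finset.mem_filter, Finset.mem_Ioc]
    refine ⟨⟨hN1, hN2⟩, hmod, ?_⟩
    by_contra hgood
    have hgood2 := le_of_not_gt hgood
    rw [SN_eq_Sa S hS hN1 (N % WX X) hmod] at hbad
    set M : ℝ := max ((Sa (WX X) S (N % WX X)).card : ℝ) (X / (Real.log X) ^ K) with hM
    have hM0 : 0 < M := lt_of_lt_of_le (by positivity) (le_max_right _ _)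
    have hconv := conversion (reps S N : ℝ) (rS S N) (cX X)
      ((Sa (WX X) S (N % WX X)).card : ℝ) M (Real.log X) η
      (X / (Real.log X) ^ (K + 2)) (Real.log (X / (Real.log X) ^ (K + 2)))
      hη0 hη1 hc1 hL1 (le_max_left _ _) hM0 hgood2 (rS_nonneg S N)
      (rS_le S X N hXc hN2) (reps_le S N _ hT1) (Real.log_pos hT1) hT2
      (by
        have e1 : (X : ℝ) / (Real.log X) ^ K ≤ M := le_max_right _ _
        have e2 : (X : ℝ) / (Real.log X) ^ (K + 2) =
            (X / (Real.log X) ^ K) * (1 / Real.log X) / Real.log X := by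
          rw [pow_add]
          field_simp
        rw [e2]
        have e3 : 1 / Real.log X ≤ η := by
          rw [div_le_iff₀ hL0]
          exact hL2
        have e4 : (X : ℝ) / (Real.log X) ^ K * (1 / Real.log X) ≤ M * η :=
          mul_le_mul e1 e3 (by positivity) hM0.le
        calc (X : ℝ) / (Real.log X) ^ K * (1 / Real.log X) / Real.log X
            ≤ M * η / Real.log X := div_le_div_of_nonneg_right e4 hL0.le
          _ = η * M / Real.log X := by rw [mul_comm M η])
      hL2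
    have h5 : 4 * η * cX X * M / Real.log X ≤ ε * cX X * M / Real.log X := by
      gcongr
    linarith
  have hcard : (((range (WX X)).biUnion (fun a => (Ioc X (2 * X)).filter (fun N =>
        N ≡ a [MOD WX X] ∧
        η * cX X * max ((Sa (WX X) S a).card : ℝ) (X / (Real.log X) ^ K) <
          |rS S N - cX X * (Sa (WX X) S a).card|))).card : ℝ) ≤ ε * X := by
    calc (((range (WX X)).biUnion (fun a => (Ioc X (2 * X)).filter (fun N =>
          N ≡ a [MOD WX X] ∧
          η * cX X * max ((Sa (WX X) S a).card : ℝ) (X / (Real.log X) ^ K) <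
            |rS S N - cX X * (Sa (WX X) S a).card|))).card : ℝ)
        ≤ ((∑ a ∈ range (WX X), ((Ioc X (2 * X)).filter (fun N =>
          N ≡ a [MOD WX X] ∧
          η * cX X * max ((Sa (WX X) S a).card : ℝ) (X / (Real.log X) ^ K) <
            |rS S N - cX X * (Sa (WX X) S a).card|)).card : ℕ) : ℝ) := by
          exact_mod_cast Finset.card_biUnion_le
      _ = ∑ a ∈ range (WX X), (((Ioc X (2 * X)).filter (fun N =>
          N ≡ a [MOD WX X] ∧
          η * cX X * max ((Sa (WX X) S a).card : ℝ) (X / (Real.log X) ^ K) <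
            |rS S N - cX X * (Sa (WX X) S a).card|)).card : ℝ) := by push_cast; rfl
      _ ≤ ∑ _a ∈ range (WX X), ε * (X / WX X) :=
          Finset.sum_le_sum (fun a _ => hX₁ X hXa S hS a)
      _ = ε * X := by
          rw [Finset.sum_const, Finset.card_range, nsmul_eq_mul]
          have : (WX X : ℝ) ≠ 0 := by exact_mod_cast hWpos.ne'
          field_simp
  refine le_trans ?_ hcard
  exact_mod_cast Finset.card_le_card hsub

end Pool.Agent.Lib.SW
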