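import Mathlib

/-!
# SW-F: the abstract 3-4-1 lower bound (module F)

PROOF. Put x₁ = 1 / (16 A B^4) ≤ 1 and σ₁ = 1 + x₁. If σ ≥ σ₁: F(σ)^4 ≥ (σ-1)^3 / A ≥ x₁^3 / A =
(1/(8 A B^3))^4 · (with 16^3 = 4096 = 8^4: x₁^3/A = 1/(4096 A^4 B^12)), so F(σ) ≥ 1/(8 A B^3). If
σ < σ₁: F(σ) ≥ F(σ₁) - B (σ₁ - σ) ≥ 1/(8AB^3) - B x₁ = 1/(8AB^3) - 1/(16AB^3) = 1/(16AB^3).
-/

namespace Pool.Agent.Lib.SW

theorem lowerabs_far (F : ℝ → ℝ) (A B : ℝ) (hA : 1 ≤ A) (hB : 1 ≤ B)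
    (hF0 : ∀ σ, 1 < σ → σ ≤ 2 → 0 ≤ F σ)
    (hF : ∀ σ, 1 < σ → σ ≤ 2 → (σ - 1) ^ 3 ≤ A * F σ ^ 4)
    (σ : ℝ) (h1 : 1 + 1 / (16 * A * B ^ 4) ≤ σ) (h2 : σ ≤ 2) : 1 / (8 * A * B ^ 3) ≤ F σ := by
  have hA0 : 0 < A := by linarith
  have hB0 : 0 < B := by linarith
  have hx : 0 < 1 / (16 * A * B ^ 4) := by positivity
  have hσ : 1 < σ := by linarith
  by_contra hc
  push Not at hc
  have h3 : F σ ^ 4 < (1 / (8 * A * B ^ 3)) ^ 4 :=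
    pow_lt_pow_left₀ hc (hF0 σ hσ h2) (by norm_num)
  have h4 : (1 / (16 * A * B ^ 4)) ^ 3 ≤ (σ - 1) ^ 3 :=
    pow_le_pow_left₀ hx.le (by linarith) 3
  have h5 := hF σ hσ h2
  have h6 : A * F σ ^ 4 < A * (1 / (8 * A * B ^ 3)) ^ 4 := mul_lt_mul_of_pos_left h3 hA0
  have h7 : A * (1 / (8 * A * B ^ 3)) ^ 4 = (1 / (16 * A * B ^ 4)) ^ 3 := by
    field_simp
    norm_num
  linarith

theorem lower_abs (F : ℝ → ℝ) (A B : ℝ) (hA : 1 ≤ A) (hB : 1 ≤ B)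
    (hF0 : ∀ σ, 1 < σ → σ ≤ 2 → 0 ≤ F σ)
    (hF : ∀ σ, 1 < σ → σ ≤ 2 → (σ - 1) ^ 3 ≤ A * F σ ^ 4)
    (hL : ∀ σ σ', 1 < σ → σ ≤ σ' → σ' ≤ 2 → F σ' - F σ ≤ B * (σ' - σ)) :
    ∀ σ, 1 < σ → σ ≤ 2 → 1 / (16 * A * B ^ 3) ≤ F σ := by
  intro σ h1 h2
  have hA0 : 0 < A := by linarith
  have hB0 : 0 < B := by linarith
  have hx : 0 < 1 / (16 * A * B ^ 4) := by positivity
  have hhalf : 1 / (16 * A * B ^ 3) = 1 / (8 * A * B ^ 3) / 2 := by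
    field_simp
    norm_num
  have hpos : 0 < 1 / (8 * A * B ^ 3) := by positivity
  have hx1 : 1 / (16 * A * B ^ 4) ≤ 1 := by
    rw [div_le_one (by positivity)]
    have h3 : 1 ≤ B ^ 4 := one_le_pow₀ hB
    have h4 : 1 ≤ A * B ^ 4 := one_le_mul_of_one_le_of_one_le hA h3
    linarith
  rcases le_total (1 + 1 / (16 * A * B ^ 4)) σ with h | h
  · have := lowerabs_far F A B hA hB hF0 hF σ h h2
    linarith
  · have h3 := lowerabs_far F A B hA hB hF0 hF (1 + 1 / (16 * A * B ^ 4)) le_rfl (by linarith)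
    have h4 := hL σ (1 + 1 / (16 * A * B ^ 4)) h1 h (by linarith)
    have h5 : B * (1 + 1 / (16 * A * B ^ 4) - σ) ≤ B * (1 / (16 * A * B ^ 4)) :=
      mul_le_mul_of_nonneg_left (by linarith) hB0.le
    have h6 : B * (1 / (16 * A * B ^ 4)) = 1 / (16 * A * B ^ 3) := by
      field_simp
    linarith

end Pool.Agent.Lib.SW
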