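import Pool.Agent.Lib.SW.Deriv
import Pool.Agent.Lib.SW.TrivChar
import Pool.Agent.Lib.SW.LowerAbs

/-!
# SW-G: lower bounds by 3-4-1 (module G)

PROOFS. Mathlib: `DirichletCharacter.norm_LSeries_product_ge_one` (x = σ - 1 > 0, y = t):
1 ≤ |L(σ,1_q)|^3 |L(σ+it,χ)|^4 |L(σ+2it,χ²)|. Use `triv_upper_real` for the first factor
(≤ C/(σ-1)). Third factor: if χ² ≠ 1: `deriv_char_le 0` (2t: Qt q (2t) ≤ 2 Qt q t). If χ² = 1:
`triv_upper` at σ + 2it, |s - 1| ≥ 2|t| : ≤ C (Qt q 2t)^ε (1 + 1/(2|t|)) ≤ C' (Qt q t)^ε / min 1 |t|.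
Apply `lower_abs` to F(σ) = |LSeries (ch χ) (σ + it)|, A = C^3 · (bound of third factor) (≥ 1 after
enlarging), B = the Lipschitz constant of `lipschitz_char` (enlarged to ≥ 1), with ε/4 in place of ε.
`lower_zeta`: q = 1 (characters mod 1: ch 1 = 1 on all n, `LSeries_one_eq_riemannZeta`), third factor
bounded by `zeta_strip` as |2t| ≥ 1; Lipschitz `lipschitz_zeta`.
-/

open Complex

namespace Pool.Agent.Lib.SW

theorem lowerCplx_core (F : ℝ → ℝ) (C1 C2 C3 e Q m : ℝ) (hQ : 1 ≤ Q) (he : 0 < e) (hm : 0 < m)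
    (hm1 : m ≤ 1) (h1 : 0 ≤ C1) (h2 : 0 ≤ C2) (h3 : 0 ≤ C3)
    (hF0 : ∀ σ, 1 < σ → σ ≤ 2 → 0 ≤ F σ)
    (hF : ∀ σ, 1 < σ → σ ≤ 2 → (σ - 1) ^ 3 ≤ C1 ^ 3 * (C3 * Q ^ (e / 4) / m) * F σ ^ 4)
    (hL : ∀ σ σ', 1 < σ → σ ≤ σ' → σ' ≤ 2 → F σ' - F σ ≤ C2 * Q ^ (e / 4) * (σ' - σ)) :
    ∀ σ, 1 < σ → σ ≤ 2 →
      1 / (16 * (1 + C1 ^ 3 * C3) * (1 + C2) ^ 3) * m * Q ^ (-e) ≤ F σ := by
  set P : ℝ := Q ^ (e / 4) with hP
  have hP1 : 1 ≤ P := Real.one_le_rpow hQ (by positivity)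
  have hP0 : 0 < P := by linarith
  have hK : 0 ≤ C1 ^ 3 * C3 := by positivity
  have hPm : 1 ≤ P / m := by
    rw [le_div_iff₀ hm]; linarith
  have hA : 1 ≤ (1 + C1 ^ 3 * C3) * (P / m) := by nlinarith
  have hB : 1 ≤ (1 + C2) * P := by nlinarith
  have hmain := lower_abs F ((1 + C1 ^ 3 * C3) * (P / m)) ((1 + C2) * P) hA hB hF0
    (by
      intro σ hσ hσ2
      refine (hF σ hσ hσ2).trans ?_
      apply mul_le_mul_of_nonneg_right _ (by positivity)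
      have : C1 ^ 3 * (C3 * P / m) = (C1 ^ 3 * C3) * (P / m) := by ring
      rw [this]
      apply mul_le_mul_of_nonneg_right _ (by positivity)
      linarith)
    (by
      intro σ σ' hσ hσσ hσ'
      refine (hL σ σ' hσ hσσ hσ').trans ?_
      apply mul_le_mul_of_nonneg_right _ (by linarith)
      nlinarith)
  intro σ hσ hσ2
  refine le_trans (le_of_eq ?_) (hmain σ hσ hσ2)
  have hQe : Q ^ (-e) = (P ^ 4)⁻¹ := by
    rw [Real.rpow_neg (by linarith), hP, ← Real.rpow_natCast, ← Real.rpow_mul (by linarith)]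
    congr 2
    push_cast
    ring
  rw [hQe]
  field_simp

theorem lowerCplx_Qt (q : ℕ) [NeZero q] (t e : ℝ) (he : 0 < e) :
    (Qt q (2 * t)) ^ e ≤ 2 ^ e * (Qt q t) ^ e := by
  have h1 := two_le_Qt q t
  have h2 := two_le_Qt q (2 * t)
  rw [← Real.mul_rpow (by norm_num) (by linarith)]
  apply Real.rpow_le_rpow (by linarith) _ he.le
  unfold Qt
  have hq : (0 : ℝ) ≤ q := Nat.cast_nonneg q
  rw [abs_mul, abs_of_pos (by norm_num : (0 : ℝ) < 2)]
  nlinarith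

/-- from the 3-4-1 inequality -/
theorem lowerCplx_prod {q : ℕ} (χ : DirichletCharacter ℂ q) (σ t C1 T : ℝ) (hσ : 1 < σ)
    (h0 : ‖LSeries (ch (1 : DirichletCharacter ℂ q)) σ‖ ≤ C1 / (σ - 1))
    (h2 : ‖LSeries (ch (χ ^ 2)) (σ + 2 * t * I)‖ ≤ T) :
    (σ - 1) ^ 3 ≤ C1 ^ 3 * T * ‖LSeries (ch χ) (σ + t * I)‖ ^ 4 := by
  have hx : 0 < σ - 1 := by linarith
  have h := DirichletCharacter.norm_LSeries_product_ge_one χ hx t
  have e0 : (1 : ℂ) + ((σ - 1 : ℝ) : ℂ) = σ := by push_cast; ring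
  have e1 : (1 : ℂ) + ((σ - 1 : ℝ) : ℂ) + I * t = σ + t * I := by push_cast; ring
  have e2 : (1 : ℂ) + ((σ - 1 : ℝ) : ℂ) + 2 * I * t = σ + 2 * t * I := by push_cast; ring
  rw [e2, e1, e0, norm_mul, norm_mul, norm_pow, norm_pow] at h
  change ‖LSeries (ch (1 : DirichletCharacter ℂ q)) σ‖ ^ 3 * ‖LSeries (ch χ) (σ + t * I)‖ ^ 4 *
    ‖LSeries (ch (χ ^ 2)) (σ + 2 * t * I)‖ ≥ 1 at h
  set a := ‖LSeries (ch (1 : DirichletCharacter ℂ q)) σ‖
  set b := ‖LSeries (ch χ) (σ + t * I)‖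
  set c := ‖LSeries (ch (χ ^ 2)) (σ + 2 * t * I)‖
  have ha : 0 ≤ a := norm_nonneg _
  have hb : 0 ≤ b := norm_nonneg _
  have hc : 0 ≤ c := norm_nonneg _
  have ha3 : a ^ 3 ≤ (C1 / (σ - 1)) ^ 3 := pow_le_pow_left₀ ha h0 3
  have hT : 0 ≤ T := hc.trans h2
  have h4 : (1 : ℝ) ≤ (C1 / (σ - 1)) ^ 3 * b ^ 4 * T := by
    calc (1 : ℝ) ≤ a ^ 3 * b ^ 4 * c := h
      _ ≤ (C1 / (σ - 1)) ^ 3 * b ^ 4 * T := by
          apply mul_le_mul _ h2 hc
          · apply mul_nonneg (ha.trans h0 |> fun h => pow_nonneg h 3) (by positivity)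
          · exact mul_le_mul_of_nonneg_right ha3 (by positivity)
  have h5 : (C1 / (σ - 1)) ^ 3 * b ^ 4 * T = (C1 ^ 3 * T * b ^ 4) / (σ - 1) ^ 3 := by
    rw [div_pow]; ring
  rw [h5, le_div_iff₀ (by positivity), one_mul] at h4
  exact h4

theorem lowerCplx_lip (f : ℂ → ℂ) (t B : ℝ)
    (h : ∀ σ σ' : ℝ, 1 < σ → σ ≤ σ' → σ' ≤ 2 →
      ‖f (σ' + t * I) - f (σ + t * I)‖ ≤ B * (σ' - σ)) :
    ∀ σ σ' : ℝ, 1 < σ → σ ≤ σ' → σ' ≤ 2 →
      ‖f (σ' + t * I)‖ - ‖f (σ + t * I)‖ ≤ B * (σ' - σ) := by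
  intro σ σ' h1 h2 h3
  exact (norm_sub_norm_le _ _).trans (h σ σ' h1 h2 h3)

theorem lower_cplx (ε : ℝ) (hε : 0 < ε) :
    ∃ c : ℝ, 0 < c ∧ ∀ (q : ℕ) [NeZero q] (χ : DirichletCharacter ℂ q), χ ^ 2 ≠ 1 → ∀ s : ℂ,
      1 < s.re → s.re ≤ 2 → c * (Qt q s.im) ^ (-ε) ≤ ‖LSeries (ch χ) s‖ := by
  obtain ⟨C1, hC1, H1⟩ := triv_upper_real
  obtain ⟨C2, hC2, H2⟩ := lipschitz_char (ε / 4) (by positivity)
  obtain ⟨C3, hC3, H3⟩ := deriv_char_le 0 (ε / 4) (by positivity)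
  set K3 : ℝ := C3 * 2 ^ (ε / 4) with hK3
  have hK3p : 0 < K3 := by positivity
  refine ⟨1 / (16 * (1 + C1 ^ 3 * K3) * (1 + C2) ^ 3), by positivity, ?_⟩
  intro q _ χ hχ s hs1 hs2
  have hχ1 : χ ≠ 1 := by
    rintro rfl
    exact hχ (one_pow 2)
  have hQ : 1 ≤ Qt q s.im := by linarith [two_le_Qt q s.im]
  have key := lowerCplx_core (fun σ => ‖LSeries (ch χ) (σ + s.im * I)‖) C1 C2 K3 ε
    (Qt q s.im) 1 hQ hε one_pos le_rfl hC1.le hC2.le hK3p.le (fun σ _ _ => norm_nonneg _)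
    (by
      intro σ hσ hσ2
      apply lowerCplx_prod χ σ s.im C1 _ hσ (H1 q σ hσ hσ2)
      have hh := H3 q (χ ^ 2) hχ (σ + 2 * s.im * I) (by simpa using hσ) (by simpa using hσ2)
      rw [lc_zero] at hh
      refine hh.trans ?_
      have him : ((σ : ℂ) + 2 * s.im * I).im = 2 * s.im := by simp
      rw [him, div_one, hK3, mul_assoc]
      exact mul_le_mul_of_nonneg_left (lowerCplx_Qt q s.im (ε / 4) (by positivity)) hC3.le)
    (lowerCplx_lip (LSeries (ch χ)) s.im _ (fun σ σ' h1 h2 h3 => H2 q χ hχ1 σ σ' s.im h1 h2 h3))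
    s.re hs1 hs2
  simp only [mul_one] at key
  have hs : (s.re : ℂ) + s.im * I = s := re_add_im s
  rw [hs] at key
  exact key

theorem lower_real (ε : ℝ) (hε : 0 < ε) :
    ∃ c : ℝ, 0 < c ∧ ∀ (q : ℕ) [NeZero q] (χ : DirichletCharacter ℂ q), χ ≠ 1 → χ ^ 2 = 1 →
      ∀ s : ℂ, 1 < s.re → s.re ≤ 2 →
        c * min 1 |s.im| * (Qt q s.im) ^ (-ε) ≤ ‖LSeries (ch χ) s‖ := by
  obtain ⟨C1, hC1, H1⟩ := triv_upper_real
  obtain ⟨C2, hC2, H2⟩ := lipschitz_char (ε / 4) (by positivity)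
  obtain ⟨C3, hC3, H3⟩ := triv_upper (ε / 4) (by positivity)
  set K3 : ℝ := C3 * 2 ^ (ε / 4) * 2 with hK3
  have hK3p : 0 < K3 := by positivity
  refine ⟨1 / (16 * (1 + C1 ^ 3 * K3) * (1 + C2) ^ 3), by positivity, ?_⟩
  intro q _ χ hχ1 hχ2 s hs1 hs2
  have hQ : 1 ≤ Qt q s.im := by linarith [two_le_Qt q s.im]
  rcases eq_or_ne s.im 0 with h0 | h0
  · rw [h0, abs_zero]
    simp
  have ht : 0 < |s.im| := abs_pos.mpr h0
  set m : ℝ := min 1 |s.im| with hm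
  have hmp : 0 < m := lt_min one_pos ht
  have hm1 : m ≤ 1 := min_le_left _ _
  have key := lowerCplx_core (fun σ => ‖LSeries (ch χ) (σ + s.im * I)‖) C1 C2 K3 ε
    (Qt q s.im) m hQ hε hmp hm1 hC1.le hC2.le hK3p.le (fun σ _ _ => norm_nonneg _)
    (by
      intro σ hσ hσ2
      apply lowerCplx_prod χ σ s.im C1 _ hσ (H1 q σ hσ hσ2)
      rw [hχ2]
      have hh := H3 q (σ + 2 * s.im * I) (by simpa using hσ)
        (by
          have : ((σ : ℂ) + 2 * s.im * I).re = σ := by simp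
          rw [this]; linarith)
      refine hh.trans ?_
      have him : ((σ : ℂ) + 2 * s.im * I).im = 2 * s.im := by simp
      have hnorm : |s.im| ≤ ‖(σ : ℂ) + 2 * s.im * I - 1‖ := by
        have h7 := abs_im_le_norm ((σ : ℂ) + 2 * s.im * I - 1)
        have h8 : ((σ : ℂ) + 2 * s.im * I - 1).im = 2 * s.im := by simp
        rw [h8, abs_mul, abs_of_pos (by norm_num : (0 : ℝ) < 2)] at h7
        linarith
      have hinv : 1 + 1 / ‖(σ : ℂ) + 2 * s.im * I - 1‖ ≤ 2 / m := by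
        have h9 : 1 / ‖(σ : ℂ) + 2 * s.im * I - 1‖ ≤ 1 / m :=
          one_div_le_one_div_of_le hmp ((min_le_right _ _).trans hnorm)
        have h10 : 1 ≤ 1 / m := by
          rw [le_div_iff₀ hmp]; linarith
        have h11 : 2 / m = 1 / m + 1 / m := by ring
        rw [h11]; linarith
      rw [him]
      have hq2 := lowerCplx_Qt q s.im (ε / 4) (by positivity)
      calc C3 * Qt q (2 * s.im) ^ (ε / 4) * (1 + 1 / ‖(σ : ℂ) + 2 * s.im * I - 1‖)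
          ≤ C3 * (2 ^ (ε / 4) * Qt q s.im ^ (ε / 4)) * (2 / m) := by
            apply mul_le_mul _ hinv (by positivity) (by positivity)
            exact mul_le_mul_of_nonneg_left hq2 hC3.le
        _ = K3 * Qt q s.im ^ (ε / 4) / m := by rw [hK3]; ring)
    (lowerCplx_lip (LSeries (ch χ)) s.im _ (fun σ σ' h1 h2 h3 => H2 q χ hχ1 σ σ' s.im h1 h2 h3))
    s.re hs1 hs2
  have hs : (s.re : ℂ) + s.im * I = s := re_add_im s
  simp only [hs] at key
  exact key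

theorem lowerCplx_ch_one : ch (1 : DirichletCharacter ℂ 1) = 1 := by
  funext n
  have : ((n : ZMod 1)) = 1 := Subsingleton.elim _ _
  rw [ch, this, map_one]
  rfl

theorem lower_zeta (ε : ℝ) (hε : 0 < ε) :
    ∃ c : ℝ, 0 < c ∧ ∀ s : ℂ, 1 < s.re → s.re ≤ 2 → 1 ≤ |s.im| →
      c * (|s.im| + 2) ^ (-ε) ≤ ‖riemannZeta s‖ := by
  obtain ⟨C1, hC1, H1⟩ := triv_upper_real
  obtain ⟨C2, hC2, H2⟩ := lipschitz_zeta (ε / 4) (by positivity)
  obtain ⟨δ, hδ0, hδ1, C3, hC3, H3⟩ := zeta_strip (ε / 4) (by positivity)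
  set K3 : ℝ := C3 * 2 ^ (ε / 4) * 2 with hK3
  have hK3p : 0 < K3 := by positivity
  refine ⟨1 / (16 * (1 + C1 ^ 3 * K3) * (1 + C2) ^ 3), by positivity, ?_⟩
  intro s hs1 hs2 hs3
  have hQ : 1 ≤ |s.im| + 2 := by linarith [abs_nonneg s.im]
  have hz : ∀ w : ℂ, 1 < w.re → LSeries (ch (1 : DirichletCharacter ℂ 1)) w = riemannZeta w := by
    intro w hw
    rw [lowerCplx_ch_one]
    exact LSeries_one_eq_riemannZeta hw
  have key := lowerCplx_core (fun σ => ‖riemannZeta (σ + s.im * I)‖) C1 C2 K3 ε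
    (|s.im| + 2) 1 hQ hε one_pos le_rfl hC1.le hC2.le hK3p.le (fun σ _ _ => norm_nonneg _)
    (by
      intro σ hσ hσ2
      have hp := lowerCplx_prod (1 : DirichletCharacter ℂ 1) σ s.im C1
        (K3 * (|s.im| + 2) ^ (ε / 4) / 1) hσ (H1 1 σ hσ hσ2)
        (by
          rw [one_pow, hz _ (by simpa using hσ)]
          have him : ((σ : ℂ) + 2 * s.im * I).im = 2 * s.im := by simp
          have hre : ((σ : ℂ) + 2 * s.im * I).re = σ := by simp
          have hnorm : 1 ≤ ‖(σ : ℂ) + 2 * s.im * I - 1‖ := by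
            have h7 := abs_im_le_norm ((σ : ℂ) + 2 * s.im * I - 1)
            have h8 : ((σ : ℂ) + 2 * s.im * I - 1).im = 2 * s.im := by simp
            rw [h8, abs_mul, abs_of_pos (by norm_num : (0 : ℝ) < 2)] at h7
            linarith
          have hne : (σ : ℂ) + 2 * s.im * I ≠ 1 := by
            intro h
            rw [h] at hnorm
            norm_num at hnorm
          have hh := H3 _ hne (by rw [hre]; linarith) (by rw [hre]; linarith)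
          refine hh.trans ?_
          rw [him, div_one, hK3]
          have h9 : 1 + 1 / ‖(σ : ℂ) + 2 * s.im * I - 1‖ ≤ 2 := by
            have : 1 / ‖(σ : ℂ) + 2 * s.im * I - 1‖ ≤ 1 := by
              rw [div_le_one (by linarith)]; exact hnorm
            linarith
          have h10 : (|2 * s.im| + 2) ^ (ε / 4) ≤ 2 ^ (ε / 4) * (|s.im| + 2) ^ (ε / 4) := by
            rw [← Real.mul_rpow (by norm_num) (by positivity)]
            apply Real.rpow_le_rpow (by positivity) _ (by positivity)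
            rw [abs_mul, abs_of_pos (by norm_num : (0 : ℝ) < 2)]
            linarith
          calc C3 * (|2 * s.im| + 2) ^ (ε / 4) * (1 + 1 / ‖(σ : ℂ) + 2 * s.im * I - 1‖)
              ≤ C3 * (2 ^ (ε / 4) * (|s.im| + 2) ^ (ε / 4)) * 2 := by
                apply mul_le_mul _ h9 (by positivity) (by positivity)
                exact mul_le_mul_of_nonneg_left h10 hC3.le
            _ = C3 * 2 ^ (ε / 4) * 2 * (|s.im| + 2) ^ (ε / 4) := by ring)
      rw [hz _ (by simpa using hσ)] at hp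
      exact hp)
    (lowerCplx_lip riemannZeta s.im _ (fun σ σ' h1 h2 h3 => H2 σ σ' s.im hs3 h1 h2 h3))
    s.re hs1 hs2
  simp only [mul_one] at key
  have hs : (s.re : ℂ) + s.im * I = s := re_add_im s
  rw [hs] at key
  exact key

end Pool.Agent.Lib.SW
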