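import Pool.Agent.Lib.SW.Defs

/-!
# SW-P: Perron's formula with the kernel 1/s² (module P)

PROOFS.
`kernel`: for σ > 0 and u real: (1/2π) ∫ e^{(σ+it)u} / (σ+it)² dt = max u 0. Proof: f(u) = (max u 0) e^{-σu} is
continuous and integrable, its Fourier transform is 𝓕 f(ξ) = ∫_0^∞ u e^{-(σ + 2πiξ)u} du =
1/(σ+2πiξ)² (`integral_cpow_mul_exp_neg_mul_Ioi` / Gamma integral, or integration by parts), which is
integrable (≤ 1/(σ²+4π²ξ²)); Fourier inversion
(`MeasureTheory.Integrable.fourierInv_fourier_eq` or `Continuous.fourierInv_fourier_eq`) gives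
f(u) = ∫ e^{2πiuξ}/(σ+2πiξ)² dξ; substitute t = 2πξ and multiply by e^{σu}.
`perron`: for n ≥ 1 put u = log (x/n): n^(-(σ+it)) x^(σ+it) = e^{(σ+it)u}; sum over n against a(n):
exchange by `MeasureTheory.hasSum_integral_of_summable_integral_norm` (the norms sum to
x^σ (∑ ‖a n‖ n^(-σ)) ∫ dt/(σ²+t²) < ∞); the n-th integral is 2π a(n) max (log (x/n)) 0, which vanishes for
n > x, so the sum is over Icc 1 ⌊x⌋₊.
`perron_bound`: take norms; |σ+it|² = σ²+t² ≥ 1 + t² (σ ≥ 1), and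
∫ (|t|+2)^(1/2)/(1+t²) dt ≤ ∫ (√2 + |t|^(1/2))/(1+t²) dt ≤ 4π (e.g. (|t|+2)^(1/2) ≤ 2 (1+t²)^(1/4) and
∫ (1+t²)^(-3/4) dt ≤ 2 + 2∫_1^∞ t^(-3/2) dt = 6): so ≤ x^σ M · (1/2π) · 12 ≤ 2 M x^σ.
-/

open Complex

namespace Pool.Agent.Lib.SW

theorem mel_norm_sq (σ t : ℝ) : ‖((σ : ℂ) + t * I) ^ 2‖ = σ ^ 2 + t ^ 2 := by
  rw [norm_pow, ← Complex.normSq_eq_norm_sq, Complex.normSq_add_mul_I]

theorem mel_ne {σ : ℝ} (hσ : 0 < σ) (t : ℝ) : ((σ : ℂ) + t * I) ≠ 0 := by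
  intro h
  have h1 := congrArg Complex.re h
  simp at h1
  exact hσ.ne' h1

theorem mel_int {σ : ℝ} (hσ : 0 < σ) : MeasureTheory.Integrable (fun t : ℝ => (σ ^ 2 + t ^ 2)⁻¹) := by
  have h1 := integrable_inv_one_add_sq.comp_div hσ.ne'
  have h2 := h1.const_mul (σ ^ 2)⁻¹
  refine h2.congr (Filter.Eventually.of_forall fun t => ?_)
  simp only
  rw [← mul_inv]
  congr 1
  field_simp

theorem mel_vert {σ : ℝ} (hσ : 0 < σ) :
    MeasureTheory.Integrable (fun t : ℝ => (((σ : ℂ) + t * I) ^ 2)⁻¹) := by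
  refine (mel_int hσ).mono' ?_ (Filter.Eventually.of_forall fun t => ?_)
  · refine Continuous.aestronglyMeasurable ?_
    refine Continuous.inv₀ (by fun_prop) fun t => pow_ne_zero 2 (mel_ne hσ t)
  · rw [norm_inv, mel_norm_sq]

theorem mel_conv {s : ℂ} (hs : 0 < s.re) :
    MellinConvergent (fun t : ℝ => Real.log t • Set.indicator (Set.Ioc 0 1) (fun _ => (1 : ℂ)) t) s ∧
    mellin (fun t : ℝ => Real.log t • Set.indicator (Set.Ioc 0 1) (fun _ => (1 : ℂ)) t) s =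
      -(s ^ 2)⁻¹ := by
  have h1 := mellin_hasDerivAt_of_isBigO_rpow (a := s.re + 1) (b := 0)
    (f := Set.indicator (Set.Ioc 0 1) (fun _ => (1 : ℂ))) (s := s) ?_ ?_ (by linarith) ?_ hs
  · refine ⟨h1.1, ?_⟩
    have h2 : HasDerivAt (fun z : ℂ => 1 / z) (-(s ^ 2)⁻¹) s := by
      have hs0 : s ≠ 0 := by
        intro h
        rw [h] at hs
        simp at hs
      simpa using hasDerivAt_inv hs0
    have h3 : (mellin (Set.indicator (Set.Ioc 0 1) (fun _ => (1 : ℂ)))) =ᶠ[nhds s]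
        fun z : ℂ => 1 / z := by
      have h4 : ∀ᶠ z : ℂ in nhds s, 0 < z.re :=
        (Complex.continuous_re.tendsto s).eventually (lt_mem_nhds hs)
      filter_upwards [h4] with z hz
      exact (hasMellin_one_Ioc hz).2
    exact (h1.2.congr_of_eventuallyEq h3.symm).unique h2
  · refine (MeasureTheory.IntegrableOn.locallyIntegrableOn ?_).mono_set (Set.subset_univ _)
    rw [MeasureTheory.integrableOn_univ, MeasureTheory.integrable_indicator_iff measurableSet_Ioc]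
    exact MeasureTheory.integrableOn_const (by simp)
  · refine Asymptotics.IsBigO.of_bound 0 ?_
    filter_upwards [Filter.eventually_gt_atTop 1] with t ht
    rw [Set.indicator_of_notMem (fun h => not_le.2 ht h.2)]
    simp
  · refine Asymptotics.IsBigO.of_bound 1 ?_
    filter_upwards [self_mem_nhdsWithin] with t _
    rw [neg_zero, Real.rpow_zero, norm_one, mul_one]
    by_cases h : t ∈ Set.Ioc (0 : ℝ) 1
    · rw [Set.indicator_of_mem h]
      simp
    · rw [Set.indicator_of_notMem h]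
      simp

theorem kernel (σ : ℝ) (hσ : 0 < σ) (u : ℝ) :
    ∫ t : ℝ, Complex.exp ((σ + t * I) * u) / (σ + t * I) ^ 2 = 2 * Real.pi * (max u 0 : ℝ) := by
  set f : ℝ → ℂ := fun t : ℝ => Real.log t • Set.indicator (Set.Ioc 0 1) (fun _ => (1 : ℂ)) t
    with hf
  have hx : 0 < Real.exp (-u) := Real.exp_pos _
  have hm : ∀ t : ℝ, mellin f ((σ : ℂ) + t * I) = -(((σ : ℂ) + t * I) ^ 2)⁻¹ := by
    intro t
    refine (mel_conv ?_).2
    simpa using hσ
  have hval : ∀ t : ℝ, 0 < t → f t = ((min (Real.log t) 0 : ℝ) : ℂ) := by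
    intro t ht
    rw [hf]
    simp only
    by_cases h : t ≤ 1
    · rw [Set.indicator_of_mem (Set.mem_Ioc.2 ⟨ht, h⟩), min_eq_left (Real.log_nonpos ht.le h)]
      simp
    · rw [Set.indicator_of_notMem (fun hh => h hh.2),
        min_eq_right (Real.log_nonneg (not_le.1 h).le)]
      simp
  have hcont : ContinuousAt f (Real.exp (-u)) := by
    have h1 : ContinuousAt (fun t : ℝ => ((min (Real.log t) 0 : ℝ) : ℂ)) (Real.exp (-u)) := by
      refine Complex.continuous_ofReal.continuousAt.comp ?_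
      exact (Real.continuousAt_log hx.ne').min continuousAt_const
    refine h1.congr ?_
    filter_upwards [lt_mem_nhds hx] with t ht
    exact (hval t ht).symm
  have h1 := mellinInv_mellin_eq σ f hx (mel_conv (s := (σ : ℂ)) (by simpa using hσ)).1 (by
    unfold Complex.VerticalIntegrable
    simp only [hm]
    exact (mel_vert hσ).neg) hcont
  rw [hval _ hx, Real.log_exp] at h1
  unfold mellinInv at h1
  simp only [hm] at h1
  have h2 : ∀ y : ℝ, ((Real.exp (-u) : ℝ) : ℂ) ^ (-((σ : ℂ) + y * I)) •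
      -(((σ : ℂ) + y * I) ^ 2)⁻¹ = -(Complex.exp ((σ + y * I) * u) / (σ + y * I) ^ 2) := by
    intro y
    rw [smul_eq_mul, Complex.cpow_def_of_ne_zero (by exact_mod_cast hx.ne'), ← Complex.ofReal_log
      hx.le, Real.log_exp, div_eq_mul_inv, mul_neg]
    congr 3
    push_cast
    ring
  simp only [h2] at h1
  rw [MeasureTheory.integral_neg] at h1
  have h3 : (min (-u) 0 : ℝ) = -(max u 0) := by
    rw [← neg_zero (G := ℝ), min_neg_neg]
    simp
  rw [h3] at h1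
  have h4 : (1 / (2 * Real.pi) : ℝ) ≠ 0 := by positivity
  rw [Complex.real_smul] at h1
  push_cast at h1
  have h5 : (2 * (Real.pi : ℂ)) ≠ 0 := by
    have := Real.pi_pos.ne'
    exact_mod_cast (by positivity : (2 * Real.pi : ℝ) ≠ 0)
  rw [one_div, mul_neg, neg_inj, inv_mul_eq_iff_eq_mul₀ h5] at h1
  rw [h1]

theorem mel_term_norm (a : ℕ → ℂ) (σ t : ℝ) (n : ℕ) :
    ‖LSeries.term a (σ + t * I) n‖ = ‖LSeries.term a σ n‖ := by
  rw [LSeries.norm_term_eq, LSeries.norm_term_eq]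
  simp

theorem perron (a : ℕ → ℂ) (σ : ℝ) (hσ : 0 < σ) (ha : LSeriesSummable a σ) (x : ℝ) (hx : 1 ≤ x) :
    ∫ t : ℝ, LSeries a (σ + t * I) * (x : ℂ) ^ (σ + t * I : ℂ) / (σ + t * I) ^ 2 =
      2 * Real.pi * ∑ n ∈ Finset.Icc 1 ⌊x⌋₊, a n * (Real.log (x / n) : ℂ) := by
  have hx0 : 0 < x := by linarith
  have hxc : (x : ℂ) ≠ 0 := by exact_mod_cast hx0.ne'
  set F : ℕ → ℝ → ℂ := fun n t =>
    LSeries.term a (σ + t * I) n * (x : ℂ) ^ (σ + t * I : ℂ) / (σ + t * I) ^ 2 with hF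
  have hnorm : ∀ n t, ‖F n t‖ = ‖LSeries.term a σ n‖ * x ^ σ * (σ ^ 2 + t ^ 2)⁻¹ := by
    intro n t
    rw [hF]
    simp only
    rw [norm_div, norm_mul, mel_term_norm, mel_norm_sq, Complex.norm_cpow_eq_rpow_re_of_pos hx0,
      div_eq_mul_inv]
    simp
  have hcont : ∀ n, Continuous (F n) := by
    intro n
    rw [hF]
    refine Continuous.div ?_ (by fun_prop) fun t => pow_ne_zero 2 (mel_ne hσ t)
    refine Continuous.mul ?_ ?_
    · rcases Nat.eq_zero_or_pos n with h | h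
      · subst h
        simp only [LSeries.term_zero]
        exact continuous_const
      · have hn : (n : ℂ) ≠ 0 := by exact_mod_cast h.ne'
        simp only [LSeries.term_of_ne_zero h.ne']
        refine Continuous.div continuous_const ?_ fun t => ?_
        · exact Continuous.const_cpow (by fun_prop) (Or.inl hn)
        · rw [Ne, Complex.cpow_eq_zero_iff]
          exact fun hh => hn hh.1
    · exact Continuous.const_cpow (by fun_prop) (Or.inl hxc)
  have hint : ∀ n, MeasureTheory.Integrable (F n) := by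
    intro n
    refine ((mel_int hσ).const_mul (‖LSeries.term a σ n‖ * x ^ σ)).mono'
      (hcont n).aestronglyMeasurable (Filter.Eventually.of_forall fun t => ?_)
    rw [hnorm]
  have hsum : Summable fun n => ∫ t, ‖F n t‖ := by
    simp only [hnorm]
    simp_rw [MeasureTheory.integral_const_mul]
    exact (ha.norm.mul_right _).mul_right _
  have h1 := MeasureTheory.hasSum_integral_of_summable_integral_norm hint hsum
  have hval : ∀ n, ∫ t, F n t = if n ∈ Finset.Icc 1 ⌊x⌋₊ then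
      2 * Real.pi * (a n * (Real.log (x / n) : ℂ)) else 0 := by
    intro n
    rcases Nat.eq_zero_or_pos n with h | h
    · subst h
      rw [if_neg (by simp)]
      rw [hF]
      simp
    · have hn : (0 : ℝ) < n := by exact_mod_cast h
      have hnc : (n : ℂ) ≠ 0 := by exact_mod_cast h.ne'
      have h2 : ∀ t : ℝ, F n t =
          a n * (Complex.exp ((σ + t * I) * (Real.log (x / n) : ℝ)) / (σ + t * I) ^ 2) := by
        intro t
        rw [hF]
        simp only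
        rw [LSeries.term_of_ne_zero h.ne', Complex.cpow_def_of_ne_zero hxc,
          Complex.cpow_def_of_ne_zero hnc, Real.log_div hx0.ne' hn.ne']
        have e1 : Complex.log (x : ℂ) = (Real.log x : ℂ) := (Complex.ofReal_log hx0.le).symm
        have e2 : Complex.log (n : ℂ) = (Real.log n : ℂ) := by
          rw [Complex.ofReal_log hn.le]
          simp
        rw [e1, e2]
        have e3 : Complex.exp ((σ + t * I) * ((Real.log x - Real.log n : ℝ) : ℂ)) =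
            Complex.exp ((Real.log x : ℂ) * (σ + t * I)) /
              Complex.exp ((Real.log n : ℂ) * (σ + t * I)) := by
          rw [← Complex.exp_sub]
          congr 1
          push_cast
          ring
        rw [e3]
        ring
      simp only [h2]
      rw [MeasureTheory.integral_const_mul, kernel σ hσ]
      by_cases h3 : n ∈ Finset.Icc 1 ⌊x⌋₊
      · rw [if_pos h3]
        have h4 : (n : ℝ) ≤ x := (Nat.le_floor_iff hx0.le).1 (Finset.mem_Icc.1 h3).2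
        rw [max_eq_left (Real.log_nonneg ((one_le_div hn).2 h4))]
        ring
      · rw [if_neg h3]
        have h4 : x ≤ n := by
          by_contra h5
          exact h3 (Finset.mem_Icc.2 ⟨h, Nat.le_floor (not_le.1 h5).le⟩)
        rw [max_eq_right (Real.log_nonpos (by positivity) ((div_le_one hn).2 h4))]
        simp
  have h2 : ∑' n, ∫ t, F n t =
      2 * Real.pi * ∑ n ∈ Finset.Icc 1 ⌊x⌋₊, a n * (Real.log (x / n) : ℂ) := by
    simp only [hval]
    rw [tsum_eq_sum (s := Finset.Icc 1 ⌊x⌋₊) (fun n hn => if_neg hn), Finset.mul_sum]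
    exact Finset.sum_congr rfl fun n hn => if_pos hn
  rw [← h2, h1.tsum_eq]
  congr 1
  funext t
  rw [hF]
  simp only
  rw [tsum_div_const, tsum_mul_right]
  rfl

theorem mel_G_le (r : ℝ) (hr : 0 ≤ r) : (r + 2) ^ (1 / 2 : ℝ) * (1 + r ^ 2)⁻¹ ≤
    if r ≤ 1 then 2 else 2 * r ^ (-(3 / 2) : ℝ) := by
  split_ifs with h
  · have h1 : (r + 2) ^ (1 / 2 : ℝ) ≤ 2 := by
      rw [← Real.sqrt_eq_rpow]
      refine Real.sqrt_le_iff.2 ⟨by norm_num, by linarith⟩
    have h2 : (1 + r ^ 2)⁻¹ ≤ 1 := inv_le_one_of_one_le₀ (by nlinarith)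
    calc _ ≤ 2 * 1 := mul_le_mul h1 h2 (by positivity) (by norm_num)
      _ = 2 := by norm_num
  · push Not at h
    have hr0 : 0 < r := by linarith
    have h1 : (r + 2) ^ (1 / 2 : ℝ) ≤ 2 * r ^ (1 / 2 : ℝ) := by
      have h3 : (r + 2) ^ (1 / 2 : ℝ) ≤ (4 * r) ^ (1 / 2 : ℝ) :=
        Real.rpow_le_rpow (by linarith) (by linarith) (by norm_num)
      rw [Real.mul_rpow (by norm_num) hr] at h3
      have h4 : (4 : ℝ) ^ (1 / 2 : ℝ) = 2 := by
        rw [← Real.sqrt_eq_rpow, show (4 : ℝ) = 2 ^ 2 by norm_num, Real.sqrt_sq (by norm_num)]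
      rwa [h4] at h3
    have h2 : (1 + r ^ 2)⁻¹ ≤ r ^ (-2 : ℝ) := by
      rw [Real.rpow_neg hr, show (2 : ℝ) = ((2 : ℕ) : ℝ) by norm_num, Real.rpow_natCast]
      exact inv_anti₀ (by positivity) (by linarith)
    calc _ ≤ 2 * r ^ (1 / 2 : ℝ) * r ^ (-2 : ℝ) := mul_le_mul h1 h2 (by positivity) (by positivity)
      _ = 2 * r ^ (-(3 / 2) : ℝ) := by
          rw [mul_assoc, ← Real.rpow_add hr0]
          norm_num

theorem mel_intG : MeasureTheory.Integrable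
    (fun t : ℝ => (|t| + 2) ^ (1 / 2 : ℝ) * (1 + t ^ 2)⁻¹) := by
  have h1 := (integrable_rpow_neg_one_add_norm_sq (E := ℝ) (μ := MeasureTheory.volume)
    (r := 3 / 2) (by norm_num)).const_mul 4
  refine h1.mono' (by fun_prop) (Filter.Eventually.of_forall fun t => ?_)
  have hp : 0 < 1 + t ^ 2 := by positivity
  rw [Real.norm_of_nonneg (by positivity), Real.norm_eq_abs, sq_abs]
  have h2 : (|t| + 2) ^ (1 / 2 : ℝ) ≤ 4 * (1 + t ^ 2) ^ (1 / 4 : ℝ) := by
    have h3 : (|t| + 2) ^ (1 / 2 : ℝ) = ((|t| + 2) ^ 2) ^ (1 / 4 : ℝ) := by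
      rw [← Real.rpow_natCast, ← Real.rpow_mul (by positivity)]
      norm_num
    have h4 : (|t| + 2) ^ 2 ≤ 5 * (1 + t ^ 2) := by
      nlinarith [sq_abs t, sq_nonneg (2 * |t| - 1)]
    have h5 : (5 : ℝ) ^ (1 / 4 : ℝ) ≤ 4 := by
      calc (5 : ℝ) ^ (1 / 4 : ℝ) ≤ (5 : ℝ) ^ (1 / 2 : ℝ) :=
            Real.rpow_le_rpow_of_exponent_le (by norm_num) (by norm_num)
        _ ≤ 4 := by
            rw [← Real.sqrt_eq_rpow]
            exact Real.sqrt_le_iff.2 ⟨by norm_num, by norm_num⟩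
    rw [h3]
    calc _ ≤ (5 * (1 + t ^ 2)) ^ (1 / 4 : ℝ) :=
          Real.rpow_le_rpow (by positivity) h4 (by norm_num)
      _ = 5 ^ (1 / 4 : ℝ) * (1 + t ^ 2) ^ (1 / 4 : ℝ) := Real.mul_rpow (by norm_num) hp.le
      _ ≤ _ := mul_le_mul_of_nonneg_right h5 (by positivity)
  calc _ ≤ 4 * (1 + t ^ 2) ^ (1 / 4 : ℝ) * (1 + t ^ 2)⁻¹ :=
        mul_le_mul_of_nonneg_right h2 (by positivity)
    _ = 4 * (1 + t ^ 2) ^ (-(3 / 2) / 2 : ℝ) := by
        rw [mul_assoc, ← Real.rpow_neg_one, ← Real.rpow_add hp]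
        norm_num

theorem mel_G_int : ∫ t : ℝ, (|t| + 2) ^ (1 / 2 : ℝ) * (1 + t ^ 2)⁻¹ ≤ 12 := by
  have h0 : (fun t : ℝ => (|t| + 2) ^ (1 / 2 : ℝ) * (1 + t ^ 2)⁻¹) =
      fun t : ℝ => (fun r : ℝ => (r + 2) ^ (1 / 2 : ℝ) * (1 + r ^ 2)⁻¹) |t| := by
    funext t
    simp only [sq_abs]
  rw [h0, integral_comp_abs (f := fun r : ℝ => (r + 2) ^ (1 / 2 : ℝ) * (1 + r ^ 2)⁻¹)]
  have hI1 : MeasureTheory.IntegrableOn (fun r : ℝ => 2 * r ^ (-(3 / 2) : ℝ)) (Set.Ioi 1) :=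
    (integrableOn_Ioi_rpow_of_lt (by norm_num) (by norm_num)).const_mul 2
  have hI0 : MeasureTheory.IntegrableOn (fun _ : ℝ => (2 : ℝ)) (Set.Ioc 0 1) :=
    MeasureTheory.integrableOn_const (by simp)
  have hG : MeasureTheory.IntegrableOn (fun r : ℝ => (r + 2) ^ (1 / 2 : ℝ) * (1 + r ^ 2)⁻¹)
      (Set.Ioi 0) := by
    refine (mel_intG.integrableOn (s := Set.Ioi 0)).congr_fun (fun r hr => ?_) measurableSet_Ioi
    simp only
    rw [abs_of_pos hr]
  have hu : Set.Ioi (0 : ℝ) = Set.Ioc 0 1 ∪ Set.Ioi 1 := (Set.Ioc_union_Ioi_eq_Ioi zero_le_one).symm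
  have h1 : ∫ r in Set.Ioi (0 : ℝ), (r + 2) ^ (1 / 2 : ℝ) * (1 + r ^ 2)⁻¹ =
      (∫ r in Set.Ioc (0 : ℝ) 1, (r + 2) ^ (1 / 2 : ℝ) * (1 + r ^ 2)⁻¹) +
        ∫ r in Set.Ioi (1 : ℝ), (r + 2) ^ (1 / 2 : ℝ) * (1 + r ^ 2)⁻¹ := by
    conv_lhs => rw [hu]
    refine MeasureTheory.setIntegral_union ?_ measurableSet_Ioi (hG.mono_set ?_) (hG.mono_set ?_)
    · rw [Set.disjoint_left]
      exact fun r h1 h2 => not_lt.2 h1.2 h2
    · exact Set.Ioc_subset_Ioi_self
    · exact Set.Ioi_subset_Ioi zero_le_one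
  have h2 : ∫ r in Set.Ioc (0 : ℝ) 1, (r + 2) ^ (1 / 2 : ℝ) * (1 + r ^ 2)⁻¹ ≤ 2 := by
    have h3 : ∫ r in Set.Ioc (0 : ℝ) 1, (r + 2) ^ (1 / 2 : ℝ) * (1 + r ^ 2)⁻¹ ≤
        ∫ _ in Set.Ioc (0 : ℝ) 1, (2 : ℝ) := by
      refine MeasureTheory.setIntegral_mono_on (hG.mono_set Set.Ioc_subset_Ioi_self) hI0
        measurableSet_Ioc fun r hr => ?_
      have := mel_G_le r hr.1.le
      rwa [if_pos hr.2] at this
    refine h3.trans (le_of_eq ?_)
    simp
  have h4 : ∫ r in Set.Ioi (1 : ℝ), (r + 2) ^ (1 / 2 : ℝ) * (1 + r ^ 2)⁻¹ ≤ 4 := by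
    have h3 : ∫ r in Set.Ioi (1 : ℝ), (r + 2) ^ (1 / 2 : ℝ) * (1 + r ^ 2)⁻¹ ≤
        ∫ r in Set.Ioi (1 : ℝ), 2 * r ^ (-(3 / 2) : ℝ) := by
      refine MeasureTheory.setIntegral_mono_on (hG.mono_set (Set.Ioi_subset_Ioi zero_le_one)) hI1
        measurableSet_Ioi fun r hr => ?_
      have hr' : (1 : ℝ) < r := hr
      have := mel_G_le r (by linarith)
      rwa [if_neg (not_le.2 hr')] at this
    refine h3.trans (le_of_eq ?_)
    rw [MeasureTheory.integral_const_mul, integral_Ioi_rpow_of_lt (by norm_num) (by norm_num)]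
    norm_num
  rw [h1]
  linarith

theorem perron_bound (a : ℕ → ℂ) (σ : ℝ) (hσ : 1 < σ) (ha : LSeriesSummable a σ)
    (M : ℝ) (hM : ∀ t : ℝ, ‖LSeries a (σ + t * I)‖ ≤ M * (|t| + 2) ^ (1 / 2 : ℝ))
    (x : ℝ) (hx : 1 ≤ x) :
    ‖∑ n ∈ Finset.Icc 1 ⌊x⌋₊, a n * (Real.log (x / n) : ℂ)‖ ≤ 4 * M * x ^ σ := by
  have hx0 : 0 < x := by linarith
  have hM0 : 0 ≤ M := by
    have h1 := (norm_nonneg _).trans (hM 0)
    have h2 : 0 < (|(0 : ℝ)| + 2) ^ (1 / 2 : ℝ) := by positivity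
    exact nonneg_of_mul_nonneg_left h1 h2
  have h1 := perron a σ (by linarith) ha x hx
  have h2 : ‖∫ t : ℝ, LSeries a (σ + t * I) * (x : ℂ) ^ (σ + t * I : ℂ) / (σ + t * I) ^ 2‖ ≤
      ∫ t : ℝ, (M * x ^ σ) * ((|t| + 2) ^ (1 / 2 : ℝ) * (1 + t ^ 2)⁻¹) := by
    refine MeasureTheory.norm_integral_le_of_norm_le (mel_intG.const_mul _)
      (Filter.Eventually.of_forall fun t => ?_)
    rw [norm_div, norm_mul, mel_norm_sq, Complex.norm_cpow_eq_rpow_re_of_pos hx0]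
    have h3 : ((σ : ℂ) + t * I).re = σ := by simp
    rw [h3, div_eq_mul_inv]
    have h4 : (σ ^ 2 + t ^ 2)⁻¹ ≤ (1 + t ^ 2)⁻¹ := inv_anti₀ (by positivity) (by nlinarith)
    calc _ ≤ (M * (|t| + 2) ^ (1 / 2 : ℝ)) * x ^ σ * (1 + t ^ 2)⁻¹ := by
          have := hM t
          gcongr
      _ = _ := by ring
  rw [h1, MeasureTheory.integral_const_mul, norm_mul] at h2
  have h3 : ‖(2 * Real.pi : ℂ)‖ = 2 * Real.pi := by
    rw [norm_mul, Complex.norm_real, Real.norm_of_nonneg Real.pi_pos.le]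
    norm_num
  rw [h3] at h2
  have h4 : (M * x ^ σ) * ∫ t : ℝ, (|t| + 2) ^ (1 / 2 : ℝ) * (1 + t ^ 2)⁻¹ ≤ (M * x ^ σ) * 12 :=
    mul_le_mul_of_nonneg_left mel_G_int (by positivity)
  have h5 := Real.pi_gt_three
  have h6 := norm_nonneg (∑ n ∈ Finset.Icc 1 ⌊x⌋₊, a n * (Real.log (x / n) : ℂ))
  have h7 : 0 ≤ M * x ^ σ := by positivity
  nlinarith

end Pool.Agent.Lib.SW
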