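import Mathlib

/-!
# SP-1: collisions (few differences of a sparse set have many prime factors > w)

`Tp w h = ∑_{p | h, p > w} 1/(p-1)`.

PROOFS.
`exp_moment`: exp(t T(h)) = ∏_{p | h, p > w} (1 + c_p), c_p = exp(t/(p-1)) - 1 (t = λ w), expand over subsets D of the
primes in (w, X] dividing h (`Finset.prod_one_add`), exchange: ∑_{h ≤ X} ≤ ∑_D ∏_{p∈D} c_p · X/∏D = X ∏_{w<p≤X} (1 + c_p/p) ≤
X exp(∑_{p>w} c_p/p). For p > w: p - 1 ≥ w, t/(p-1) ≤ λ, c_p ≤ (t/(p-1)) e^λ, so c_p/p ≤ λ w e^λ/(p(p-1)) and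
∑_{n>w} 1/(n(n-1)) ≤ 1/w. Total exponent ≤ λ e^λ. (#{h ≤ X : ∏D | h} ≤ X/∏D.)
`collide`: split pairs s ≠ s' according to T(|s-s'|) < ε (then exp T - 1 ≤ e^ε - 1) or ≥ ε; in the second case, with
t = λ w ≥ 1, exp(T) ≤ exp(T + (t-1)(T-ε)) = exp(tT - (t-1)ε). For fixed s each h in [1,X] is |s-s'| for at most 2 values of s', so the second part is
≤ 2 |S| e^{-(t-1)ε} ∑_{h≤X} exp(tT(h)) ≤ 2 |S| e^{-(λw-1)ε} e^{λ e^λ} X.
-/

open Finset

namespace Pool.Agent.Lib.SW

/-- `∑_{p | h, p > w} 1/(p-1)` -/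
noncomputable def Tp (w h : ℕ) : ℝ := ∑ p ∈ h.primeFactors.filter (fun p => w < p), 1 / ((p : ℝ) - 1)

theorem Tp_nonneg (w h : ℕ) : 0 ≤ Tp w h := by
  unfold Tp
  refine sum_nonneg fun p hp => ?_
  have h1 := (Nat.prime_of_mem_primeFactors (mem_filter.1 hp).1).one_lt
  have h2 : (1 : ℝ) < p := by exact_mod_cast h1
  have h3 : 0 < (p : ℝ) - 1 := by linarith
  positivity

theorem sp1_tele (w : ℕ) (hw : 1 ≤ w) (m : ℕ) :
    ∑ n ∈ Ico (w + 1) (w + 1 + m), 1 / ((n : ℝ) * ((n : ℝ) - 1)) =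
      1 / (w : ℝ) - 1 / ((w : ℝ) + m) := by
  have hw' : (1 : ℝ) ≤ w := by exact_mod_cast hw
  induction m with
  | zero => simp
  | succ m ih =>
    rw [← add_assoc, sum_Ico_succ_top (by omega), ih]
    push_cast
    have h1 : (w : ℝ) + m ≠ 0 := by positivity
    have h2 : (w : ℝ) + (m + 1) ≠ 0 := by positivity
    have h3 : (w : ℝ) + 1 + m ≠ 0 := by positivity
    have h4 : (w : ℝ) + 1 + m - 1 = w + m := by ring
    rw [h4]
    have h5 : (w : ℝ) ≠ 0 := by positivity
    field_simp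
    ring

theorem sp1_sum (w X : ℕ) (hw : 1 ≤ w) :
    ∑ n ∈ Icc (w + 1) X, 1 / ((n : ℝ) * ((n : ℝ) - 1)) ≤ 1 / (w : ℝ) := by
  rcases Nat.lt_or_ge X (w + 1) with h | h
  · rw [Icc_eq_empty (by omega), sum_empty]
    positivity
  · have h1 : Icc (w + 1) X = Ico (w + 1) (w + 1 + (X - w)) := by
      ext n
      simp only [mem_Icc, mem_Ico]
      omega
    rw [h1, sp1_tele w hw]
    have : (0 : ℝ) ≤ 1 / ((w : ℝ) + ((X - w : ℕ) : ℝ)) := by positivity
    linarith

theorem sp1_cp {w p : ℕ} (hw : 1 ≤ w) (hp : w < p) {lam : ℝ} (hlam : 0 < lam) :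
    0 ≤ Real.exp (lam * w / ((p : ℝ) - 1)) - 1 ∧
    (Real.exp (lam * w / ((p : ℝ) - 1)) - 1) / p ≤
      lam * w * Real.exp lam * (1 / ((p : ℝ) * ((p : ℝ) - 1))) := by
  have hw' : (1 : ℝ) ≤ w := by exact_mod_cast hw
  have hp' : (w : ℝ) + 1 ≤ p := by exact_mod_cast hp
  have h1 : 0 < (p : ℝ) - 1 := by linarith
  have h2 : 0 ≤ lam * w / ((p : ℝ) - 1) := by positivity
  have h3 : lam * w / ((p : ℝ) - 1) ≤ lam := by
    rw [div_le_iff₀ h1]
    exact mul_le_mul_of_nonneg_left (by linarith) hlam.le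
  refine ⟨by linarith [Real.one_le_exp h2], ?_⟩
  have h4 : Real.exp (lam * w / ((p : ℝ) - 1)) - 1 ≤
      lam * w / ((p : ℝ) - 1) * Real.exp (lam * w / ((p : ℝ) - 1)) := by
    set y := lam * w / ((p : ℝ) - 1)
    have h5 := Real.add_one_le_exp (-y)
    have h6 : Real.exp y * Real.exp (-y) = 1 := by rw [← Real.exp_add, add_neg_cancel, Real.exp_zero]
    have h7 := mul_le_mul_of_nonneg_left h5 (Real.exp_pos y).le
    rw [h6] at h7
    linarith
  have h5 : Real.exp (lam * w / ((p : ℝ) - 1)) - 1 ≤ lam * w / ((p : ℝ) - 1) * Real.exp lam :=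
    h4.trans (mul_le_mul_of_nonneg_left (Real.exp_le_exp.2 h3) h2)
  have hp0 : (0 : ℝ) < p := by linarith
  calc _ ≤ (lam * w / ((p : ℝ) - 1) * Real.exp lam) / p :=
        div_le_div_of_nonneg_right h5 hp0.le
    _ = _ := by
        field_simp

theorem sp1_card (X d : ℕ) :
    (((Icc 1 X).filter (fun h => d ∣ h)).card : ℝ) ≤ X / d := by
  rcases Nat.eq_zero_or_pos d with h | h
  · subst h
    have : (Icc 1 X).filter (fun h => 0 ∣ h) = ∅ := by
      refine filter_eq_empty_iff.2 fun n hn h => ?_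
      rw [zero_dvd_iff] at h
      rw [h] at hn
      simp at hn
    rw [this]
    simp
  · have h1 : (Icc 1 X).filter (fun h => d ∣ h) = (Ioc 0 X).filter (fun h => d ∣ h) := by
      congr 1
    rw [h1, Nat.Ioc_filter_dvd_card_eq_div]
    exact Nat.cast_div_le

theorem exp_moment (w X : ℕ) (hw : 1 ≤ w) (lam : ℝ) (hlam : 0 < lam) :
    ∑ h ∈ Icc 1 X, Real.exp (lam * w * Tp w h) ≤ Real.exp (lam * Real.exp lam) * X := by
  set P : Finset ℕ := (Icc (w + 1) X).filter Nat.Prime with hP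
  set c : ℕ → ℝ := fun p => Real.exp (lam * w / ((p : ℝ) - 1)) - 1 with hc
  have hPw : ∀ p ∈ P, w < p := fun p hp => by
    have := (mem_Icc.1 (mem_filter.1 hp).1).1
    omega
  have hPp : ∀ p ∈ P, p.Prime := fun p hp => (mem_filter.1 hp).2
  have hc0 : ∀ p ∈ P, 0 ≤ c p := fun p hp => (sp1_cp hw (hPw p hp) hlam).1
  have h1 : ∀ h ∈ Icc 1 X, Real.exp (lam * w * Tp w h) ≤
      ∑ D ∈ P.powerset, (∏ p ∈ D, c p) * (if (∏ p ∈ D, p) ∣ h then 1 else 0) := by
    intro h hh
    have hh1 := (mem_Icc.1 hh).1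
    have hh2 := (mem_Icc.1 hh).2
    have e1 : h.primeFactors.filter (fun p => w < p) = P.filter (fun p => p ∣ h) := by
      ext p
      simp only [mem_filter, Nat.mem_primeFactors, hP, mem_Icc]
      constructor
      · rintro ⟨⟨h3, h4, h5⟩, h6⟩
        have := Nat.le_of_dvd (by omega) h4
        exact ⟨⟨⟨by omega, by omega⟩, h3⟩, h4⟩
      · rintro ⟨⟨⟨h3, h4⟩, h5⟩, h6⟩
        exact ⟨⟨h5, h6, by omega⟩, by omega⟩
    have e2 : Real.exp (lam * w * Tp w h) = ∏ p ∈ P, (1 + c p * (if p ∣ h then 1 else 0)) := by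
      unfold Tp
      rw [e1, mul_sum, Real.exp_sum, prod_filter]
      refine prod_congr rfl fun p _ => ?_
      by_cases h3 : p ∣ h
      · rw [if_pos h3, if_pos h3, hc]
        simp only
        rw [mul_one, mul_one_div]
        ring
      · rw [if_neg h3, if_neg h3, mul_zero, add_zero]
    rw [e2, prod_one_add]
    refine sum_le_sum fun D hD => ?_
    have hD' := mem_powerset.1 hD
    rw [prod_mul_distrib]
    refine mul_le_mul_of_nonneg_left ?_ (prod_nonneg fun p hp => hc0 p (hD' hp))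
    by_cases h3 : (∏ p ∈ D, p) ∣ h
    · rw [if_pos h3]
      refine prod_le_one (fun p _ => by split_ifs <;> norm_num) fun p _ => by
        split_ifs <;> norm_num
    · rw [if_neg h3]
      have h4 : ∃ p ∈ D, ¬ p ∣ h := by
        by_contra h5
        push Not at h5
        apply h3
        refine Finset.prod_primes_dvd h (fun p hp => (hPp p (hD' hp)).prime) h5
      obtain ⟨p, hp, h5⟩ := h4
      rw [prod_eq_zero hp (if_neg h5)]
  have h2 : ∑ h ∈ Icc 1 X, ∑ D ∈ P.powerset, (∏ p ∈ D, c p) *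
      (if (∏ p ∈ D, p) ∣ h then (1 : ℝ) else 0) ≤
      ∑ D ∈ P.powerset, (∏ p ∈ D, c p) * (X / ((∏ p ∈ D, p : ℕ) : ℝ)) := by
    rw [sum_comm]
    refine sum_le_sum fun D hD => ?_
    have hD' := mem_powerset.1 hD
    rw [← mul_sum]
    refine mul_le_mul_of_nonneg_left ?_ (prod_nonneg fun p hp => hc0 p (hD' hp))
    rw [← sum_filter, sum_const, nsmul_eq_mul, mul_one]
    exact sp1_card X _
  have h3 : ∑ D ∈ P.powerset, (∏ p ∈ D, c p) * (X / ((∏ p ∈ D, p : ℕ) : ℝ)) =
      X * ∏ p ∈ P, (1 + c p / p) := by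
    rw [prod_one_add, mul_sum]
    refine sum_congr rfl fun D _ => ?_
    rw [prod_div_distrib]
    push_cast
    ring
  have h4 : ∏ p ∈ P, (1 + c p / p) ≤ Real.exp (lam * Real.exp lam) := by
    have h5 : ∏ p ∈ P, (1 + c p / p) ≤ ∏ p ∈ P, Real.exp (c p / p) := by
      refine prod_le_prod (fun p hp => ?_) fun p _ => ?_
      · have := hc0 p hp
        positivity
      · have := Real.add_one_le_exp (c p / p)
        linarith
    refine h5.trans ?_
    rw [← Real.exp_sum]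
    refine Real.exp_le_exp.2 ?_
    calc ∑ p ∈ P, c p / p ≤ ∑ p ∈ P, lam * w * Real.exp lam * (1 / ((p : ℝ) * ((p : ℝ) - 1))) :=
          sum_le_sum fun p hp => (sp1_cp hw (hPw p hp) hlam).2
      _ ≤ ∑ p ∈ Icc (w + 1) X, lam * w * Real.exp lam * (1 / ((p : ℝ) * ((p : ℝ) - 1))) := by
          refine sum_le_sum_of_subset_of_nonneg (filter_subset _ _) fun p hp _ => ?_
          have h6 : (1 : ℝ) < p := by
            have := (mem_Icc.1 hp).1
            exact_mod_cast (by omega : 1 < p)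
          have h7 : 0 < (p : ℝ) - 1 := by linarith
          positivity
      _ ≤ lam * w * Real.exp lam * (1 / (w : ℝ)) := by
          rw [← mul_sum]
          exact mul_le_mul_of_nonneg_left (sp1_sum w X hw) (by positivity)
      _ = lam * Real.exp lam := by
          have : (w : ℝ) ≠ 0 := by
            have : 0 < w := hw
            positivity
          field_simp
  calc _ ≤ _ := sum_le_sum h1
    _ ≤ _ := h2
    _ = _ := h3
    _ ≤ X * Real.exp (lam * Real.exp lam) := mul_le_mul_of_nonneg_left h4 (Nat.cast_nonneg X)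
    _ = _ := mul_comm _ _

theorem sp1_fib (X s : ℕ) (hs : s ∈ Icc 1 X) (S : Finset ℕ) (hS : S ⊆ Icc 1 X) (g : ℕ → ℝ)
    (hg : ∀ h, 0 ≤ g h) :
    ∑ s' ∈ S.filter (fun s' => s' ≠ s), g ((s : ℤ) - (s' : ℤ)).natAbs ≤
      2 * ∑ h ∈ Icc 1 X, g h := by
  rw [← sum_fiberwise_of_maps_to (s := S.filter (fun s' => s' ≠ s)) (t := Icc 1 X)
    (g := fun s' : ℕ => ((s : ℤ) - (s' : ℤ)).natAbs) (fun s' hs' => by
      obtain ⟨h1, h2⟩ := mem_filter.1 hs'
      have h3 := mem_Icc.1 (hS h1)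
      have h4 := mem_Icc.1 hs
      rw [mem_Icc]
      omega), mul_sum]
  refine sum_le_sum fun h _ => ?_
  calc _ ≤ ∑ s' ∈ (S.filter (fun s' => s' ≠ s)).filter
        (fun s' : ℕ => ((s : ℤ) - (s' : ℤ)).natAbs = h), g h :=
        sum_le_sum fun s' hs' => by rw [(mem_filter.1 hs').2]
    _ = (((S.filter (fun s' => s' ≠ s)).filter
        (fun s' : ℕ => ((s : ℤ) - (s' : ℤ)).natAbs = h)).card : ℝ) * g h := by
        rw [sum_const, nsmul_eq_mul]
    _ ≤ 2 * g h := by
        refine mul_le_mul_of_nonneg_right ?_ (hg h)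
        have h5 : (S.filter (fun s' => s' ≠ s)).filter
            (fun s' : ℕ => ((s : ℤ) - (s' : ℤ)).natAbs = h) ⊆ {s + h, s - h} := by
          intro s' hs'
          have h6 := (mem_filter.1 hs').2
          rw [mem_insert, mem_singleton]
          omega
        have h7 := (card_le_card h5).trans (card_le_two)
        exact_mod_cast h7

theorem collide (w X : ℕ) (hw : 1 ≤ w) (lam ε : ℝ) (hlam : 1 ≤ lam) (hε : 0 < ε)
    (S : Finset ℕ) (hS : S ⊆ Icc 1 X) :
    ∑ s ∈ S, ∑ s' ∈ S.filter (fun s' => s' ≠ s),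
        (Real.exp (Tp w ((s : ℤ) - (s' : ℤ)).natAbs) - 1) ≤
      (Real.exp ε - 1) * (S.card : ℝ) ^ 2 +
        2 * S.card * X * Real.exp (lam * Real.exp lam - (lam * w - 1) * ε) := by
  have hw' : (1 : ℝ) ≤ w := by exact_mod_cast hw
  have ht : 1 ≤ lam * w := by nlinarith
  have hε1 : 0 ≤ Real.exp ε - 1 := by linarith [Real.one_le_exp hε.le]
  have key : ∀ h : ℕ, Real.exp (Tp w h) - 1 ≤ (Real.exp ε - 1) +
      Real.exp (-((lam * w - 1) * ε)) * Real.exp (lam * w * Tp w h) := by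
    intro h
    rw [← Real.exp_add]
    rcases lt_or_ge (Tp w h) ε with h1 | h1
    · have h2 := Real.exp_le_exp.2 h1.le
      have h3 := (Real.exp_pos (-((lam * w - 1) * ε) + lam * w * Tp w h)).le
      linarith
    · have h2 : Tp w h ≤ -((lam * w - 1) * ε) + lam * w * Tp w h := by nlinarith
      have h3 := Real.exp_le_exp.2 h2
      linarith
  have h1 : ∀ s ∈ S, ∑ s' ∈ S.filter (fun s' => s' ≠ s),
      (Real.exp (Tp w ((s : ℤ) - (s' : ℤ)).natAbs) - 1) ≤
      (Real.exp ε - 1) * S.card +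
        Real.exp (-((lam * w - 1) * ε)) * (2 * (Real.exp (lam * Real.exp lam) * X)) := by
    intro s hs
    calc _ ≤ ∑ s' ∈ S.filter (fun s' => s' ≠ s), ((Real.exp ε - 1) +
          Real.exp (-((lam * w - 1) * ε)) *
            Real.exp (lam * w * Tp w ((s : ℤ) - (s' : ℤ)).natAbs)) :=
          sum_le_sum fun s' _ => key _
      _ = (Real.exp ε - 1) * ((S.filter (fun s' => s' ≠ s)).card : ℝ) +
          Real.exp (-((lam * w - 1) * ε)) * ∑ s' ∈ S.filter (fun s' => s' ≠ s),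
            Real.exp (lam * w * Tp w ((s : ℤ) - (s' : ℤ)).natAbs) := by
          rw [sum_add_distrib, sum_const, nsmul_eq_mul, mul_sum]
          ring
      _ ≤ _ := by
          refine add_le_add ?_ ?_
          · refine mul_le_mul_of_nonneg_left ?_ hε1
            exact_mod_cast card_filter_le _ _
          · refine mul_le_mul_of_nonneg_left ?_ (Real.exp_pos _).le
            refine (sp1_fib X s (hS hs) S hS (fun h => Real.exp (lam * w * Tp w h))
              (fun h => (Real.exp_pos _).le)).trans ?_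
            exact mul_le_mul_of_nonneg_left (exp_moment w X hw lam (by linarith)) (by norm_num)
  calc _ ≤ ∑ s ∈ S, ((Real.exp ε - 1) * S.card +
        Real.exp (-((lam * w - 1) * ε)) * (2 * (Real.exp (lam * Real.exp lam) * X))) :=
        sum_le_sum h1
    _ = _ := by
        rw [sum_const, nsmul_eq_mul, sub_eq_add_neg (lam * Real.exp lam), Real.exp_add]
        ring

end Pool.Agent.Lib.SW
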