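import Pool.Agent.Lib.SW.RamModel
import Pool.Agent.Lib.SW.SP1

/-!
# SP-2: second moment of the non-trivial part of the model

PROOFS.
`gq_corr`: insert `gq_eq_exp` for both factors: the sum is (μ(q)μ(q')/(φ(q)φ(q'))) ∑_{b,b'} e(bu/q + b'u'/q')
∑_{k<n} e(kW(b/q + b'/q')). If b/q + b'/q' is not an integer its distance (and that of W times it, W coprime to q q') to ℤ is ≥ 1/(q q'), so
the geometric sum is ≤ q q'/2 (`geom_le`, `gmin_le'`, or norm_geom_le). It is an integer only if q = q' (reduced fractions, b, b' coprime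
to q, q') and b' ≡ -b: total of these terms n (1/φ(q)²) ∑_b e(b(u-u')/q) = n · (μ(q)/φ(q)) gq q (u-u') (μ(q)² = 1).
`sum_kappa_le`: for q squarefree with all prime factors > w: |gq q h|/φ(q) = ∏_{p | q} (p | h ? 1/(p-1) : 1/(p-1)²); the sum over a
set of such q ≠ 1, all ≤ Q, is ≤ ∏_{w < p ≤ Q} (1 + [p | h]/(p-1) + 1/(p-1)²) - 1 ≤ exp(Tp w |h| + ∑_{p>w} 1/(p-1)²) - 1 and
∑_{n > w} 1/(n-1)² ≤ 2/w (w ≥ 1: ∑_{m≥w} 1/m² ≤ 1/w + 1/w² ≤ 2/w). (h ≠ 0; φ(q) = ∏ (p-1).)
`second_moment`: open the square: ∑_{s,s'∈S} ∑_{q,q'∈Q2} ∑_{N} with N ≤ 2X, N > max(s,s'), N ≡ a mod W: N = N₀ + W k,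
k < n, n ≤ 2X/W + 1 (if there is any such N). `gq_corr` with u = N₀ - s, u' = N₀ - s'. Errors: ≤ q q' ≤ Q² for each of the ≤ Q² pairs:
Q^4 |S|². Main: ≤ (2X/W + 1) ∑_{s,s'} ∑_q |gq q (s-s')|/φ(q); s = s': ≤ ∑_q 1 ≤ Q; s ≠ s': `sum_kappa_le`.
-/

open Finset Pool.Agent.Lib.GT

namespace Pool.Agent.Lib.SW

theorem sp2_resonance {W q q' : ℕ} (hW : Nat.Coprime W (q * q')) (hq : q ≠ 0) (hq' : q' ≠ 0)
    {b b' : ℕ} (hb : Nat.Coprime b q) (hb' : Nat.Coprime b' q') {n : ℤ}
    (h : (W : ℤ) * ((b : ℤ) * q' + b' * q) = n * (q * q')) : q = q' ∧ q ∣ b + b' := by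
  have h1 : q * q' ∣ W * (b * q' + b' * q) := by
    rw [← Int.natCast_dvd_natCast]
    push_cast
    rw [h]
    exact dvd_mul_left _ _
  have h2 : q * q' ∣ b * q' + b' * q := (Nat.Coprime.dvd_mul_left hW.symm).1 h1
  have h3 : q ∣ q' := by
    have h4 : q ∣ b * q' + b' * q := (dvd_mul_right q q').trans h2
    have h5 : q ∣ b * q' := (Nat.dvd_add_left (dvd_mul_left q b')).1 h4
    exact (Nat.Coprime.dvd_mul_left hb.symm).1 h5
  have h4 : q' ∣ q := by
    have h4 : q' ∣ b * q' + b' * q := (dvd_mul_left q' q).trans h2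
    have h5 : q' ∣ b' * q := (Nat.dvd_add_right (dvd_mul_left q' b)).1 h4
    exact (Nat.Coprime.dvd_mul_left hb'.symm).1 h5
  have h5 : q = q' := Nat.dvd_antisymm h3 h4
  subst h5
  refine ⟨rfl, ?_⟩
  rw [← add_mul] at h2
  exact Nat.dvd_of_mul_dvd_mul_right (Nat.pos_of_ne_zero hq) h2

/-- the sum over an arithmetic progression of two additive characters -/
noncomputable def sp2T (W q q' n : ℕ) (u u' : ℤ) (b b' : ℕ) : ℂ :=
  ∑ k ∈ range n, e ((b : ℝ) / q * ((W * k + u : ℤ) : ℝ)) * e ((b' : ℝ) / q' * ((W * k + u' : ℤ) : ℝ))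

theorem sp2T_eq (W q q' n : ℕ) (u u' : ℤ) (b b' : ℕ) : sp2T W q q' n u u' b b' =
    e ((b : ℝ) / q * u + (b' : ℝ) / q' * u') *
      ∑ k ∈ range n, e ((W * ((b : ℝ) / q + (b' : ℝ) / q')) * k) := by
  unfold sp2T
  rw [mul_sum]
  refine sum_congr rfl fun k _ => ?_
  rw [← e_add, ← e_add]
  congr 1
  push_cast
  ring

theorem sp2T_le {W q q' : ℕ} (hW : Nat.Coprime W (q * q')) (hq : q ≠ 0) (hq' : q' ≠ 0)
    {b b' : ℕ} (hb : Nat.Coprime b q) (hb' : Nat.Coprime b' q') (n : ℕ) (u u' : ℤ)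
    (h : ¬ (q = q' ∧ q ∣ b + b')) : ‖sp2T W q q' n u u' b b'‖ ≤ (q : ℝ) * q' := by
  have hqr : (0 : ℝ) < q := by exact_mod_cast Nat.pos_of_ne_zero hq
  have hqr' : (0 : ℝ) < q' := by exact_mod_cast Nat.pos_of_ne_zero hq'
  rw [sp2T_eq, norm_mul, norm_e, one_mul]
  have h1 := GT.RE.norm_geom_le (W * ((b : ℝ) / q + (b' : ℝ) / q')) (1 / (q * q')) (by positivity)
    (by
      intro m
      have h2 : (W : ℤ) * ((b : ℤ) * q' + b' * q) - m * (q * q') ≠ 0 := by
        intro h3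
        exact h (sp2_resonance hW hq hq' hb hb' (n := m) (by linarith))
      have h3 : (1 : ℝ) ≤ |(((W : ℤ) * ((b : ℤ) * q' + b' * q) - m * (q * q') : ℤ) : ℝ)| := by
        exact_mod_cast Int.one_le_abs h2
      have h4 : (W * ((b : ℝ) / q + (b' : ℝ) / q') : ℝ) - m =
          (((W : ℤ) * ((b : ℤ) * q' + b' * q) - m * (q * q') : ℤ) : ℝ) / (q * q') := by
        push_cast
        field_simp
      rw [h4, abs_div, abs_of_pos (by positivity : (0 : ℝ) < (q : ℝ) * q')]
      exact div_le_div_of_nonneg_right h3 (by positivity)) n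
  refine h1.trans ?_
  have h5 : 1 / (2 * (1 / ((q : ℝ) * q'))) = q * q' / 2 := by
    field_simp
  rw [h5]
  have : 0 < (q : ℝ) * q' := by positivity
  linarith

theorem sp2_prod (W q q' n : ℕ) (hq : Squarefree q) (hq' : Squarefree q') (u u' : ℤ) :
    ((∑ k ∈ range n, gq q (W * k + u) * gq q' (W * k + u') : ℝ) : ℂ) =
      (((ArithmeticFunction.moebius q : ℤ) : ℂ) / (q.totient : ℂ)) *
      (((ArithmeticFunction.moebius q' : ℤ) : ℂ) / (q'.totient : ℂ)) *
      ∑ b ∈ (range q).filter (fun b => Nat.Coprime b q),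
        ∑ b' ∈ (range q').filter (fun b' => Nat.Coprime b' q'), sp2T W q q' n u u' b b' := by
  push_cast
  have h1 : ∀ k ∈ range n, (gq q (W * k + u) : ℂ) * (gq q' (W * k + u') : ℂ) =
      (((ArithmeticFunction.moebius q : ℤ) : ℂ) / (q.totient : ℂ)) *
      (((ArithmeticFunction.moebius q' : ℤ) : ℂ) / (q'.totient : ℂ)) *
      ∑ b ∈ (range q).filter (fun b => Nat.Coprime b q),
        ∑ b' ∈ (range q').filter (fun b' => Nat.Coprime b' q'),
          e ((b : ℝ) / q * ((W * k + u : ℤ) : ℝ)) * e ((b' : ℝ) / q' * ((W * k + u' : ℤ) : ℝ)) := by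
    intro k _
    rw [gq_eq_exp q hq, gq_eq_exp q' hq', mul_mul_mul_comm, sum_mul_sum]
  rw [sum_congr rfl h1, ← mul_sum, sum_comm]
  congr 1
  refine sum_congr rfl fun b _ => ?_
  rw [sum_comm]
  rfl

theorem sp2_card (q : ℕ) : ((range q).filter (fun b => Nat.Coprime b q)).card = q.totient := by
  rw [Nat.totient_eq_card_coprime]
  congr 1
  ext b
  simp only [mem_filter, Nat.coprime_comm]

theorem sp2_c_le (q : ℕ) : ‖((ArithmeticFunction.moebius q : ℤ) : ℂ) / (q.totient : ℂ)‖ ≤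
    1 / (q.totient : ℝ) := by
  rw [norm_div, Complex.norm_intCast, Complex.norm_natCast]
  refine div_le_div_of_nonneg_right ?_ (Nat.cast_nonneg _)
  exact_mod_cast ArithmeticFunction.abs_moebius_le_one

theorem gq_corr (W q q' : ℕ) (hW : Nat.Coprime W (q * q')) (hq : Squarefree q)
    (hq' : Squarefree q') (u u' : ℤ) (n : ℕ) :
    |∑ k ∈ range n, gq q (W * k + u) * gq q' (W * k + u')| ≤
      (q : ℝ) * q' + (if q = q' then (n : ℝ) * (|gq q (u - u')| / (q.totient : ℝ)) else 0) := by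
  have h0 : |∑ k ∈ range n, gq q (W * k + u) * gq q' (W * k + u')| =
      ‖((∑ k ∈ range n, gq q (W * k + u) * gq q' (W * k + u') : ℝ) : ℂ)‖ := by
    rw [Complex.norm_real, Real.norm_eq_abs]
  rw [h0, sp2_prod W q q' n hq hq' u u']
  have hq0 : q ≠ 0 := hq.ne_zero
  have hq0' : q' ≠ 0 := hq'.ne_zero
  have ht : (0 : ℝ) < (q.totient : ℝ) := by exact_mod_cast Nat.totient_pos.2 (Nat.pos_of_ne_zero hq0)
  have ht' : (0 : ℝ) < (q'.totient : ℝ) := by
    exact_mod_cast Nat.totient_pos.2 (Nat.pos_of_ne_zero hq0')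
  set c : ℂ := ((ArithmeticFunction.moebius q : ℤ) : ℂ) / (q.totient : ℂ) with hc
  set c' : ℂ := ((ArithmeticFunction.moebius q' : ℤ) : ℂ) / (q'.totient : ℂ) with hc'
  have hcc : ‖c‖ ≤ 1 / (q.totient : ℝ) := sp2_c_le q
  have hcc' : ‖c'‖ ≤ 1 / (q'.totient : ℝ) := sp2_c_le q'
  -- the non-resonant part
  have hnon : ∀ F : ℕ → ℕ → ℂ, (∀ b ∈ (range q).filter (fun b => Nat.Coprime b q),
      ∀ b' ∈ (range q').filter (fun b' => Nat.Coprime b' q'), ‖F b b'‖ ≤ (q : ℝ) * q') →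
      ‖c * c' * ∑ b ∈ (range q).filter (fun b => Nat.Coprime b q),
        ∑ b' ∈ (range q').filter (fun b' => Nat.Coprime b' q'), F b b'‖ ≤ (q : ℝ) * q' := by
    intro F hF
    have g1 : ‖∑ b ∈ (range q).filter (fun b => Nat.Coprime b q),
        ∑ b' ∈ (range q').filter (fun b' => Nat.Coprime b' q'), F b b'‖ ≤
        (q.totient : ℝ) * ((q'.totient : ℝ) * ((q : ℝ) * q')) := by
      refine (norm_sum_le _ _).trans ?_
      have g2 : ∀ b ∈ (range q).filter (fun b => Nat.Coprime b q),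
          ‖∑ b' ∈ (range q').filter (fun b' => Nat.Coprime b' q'), F b b'‖ ≤
            (q'.totient : ℝ) * ((q : ℝ) * q') := by
        intro b hb
        refine (norm_sum_le _ _).trans ((sum_le_card_nsmul _ _ _ (hF b hb)).trans ?_)
        rw [sp2_card, nsmul_eq_mul]
      refine (sum_le_card_nsmul _ _ _ g2).trans ?_
      rw [sp2_card, nsmul_eq_mul]
    rw [norm_mul, norm_mul]
    calc ‖c‖ * ‖c'‖ * _ ≤ (1 / (q.totient : ℝ)) * (1 / (q'.totient : ℝ)) *
        ((q.totient : ℝ) * ((q'.totient : ℝ) * ((q : ℝ) * q'))) := by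
          refine mul_le_mul (mul_le_mul hcc hcc' (norm_nonneg _) (by positivity)) g1
            (norm_nonneg _) (by positivity)
      _ = (q : ℝ) * q' := by
          field_simp
  by_cases hqq : q = q'
  · subst hqq
    rw [if_pos rfl]
    -- split
    have hsplit : ∑ b ∈ (range q).filter (fun b => Nat.Coprime b q),
        ∑ b' ∈ (range q).filter (fun b' => Nat.Coprime b' q), sp2T W q q n u u' b b' =
        ∑ b ∈ (range q).filter (fun b => Nat.Coprime b q),
          ∑ b' ∈ (range q).filter (fun b' => Nat.Coprime b' q),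
            (if q ∣ b + b' then 0 else sp2T W q q n u u' b b') +
        ∑ b ∈ (range q).filter (fun b => Nat.Coprime b q),
          (n : ℂ) * e ((b : ℝ) / q * ((u - u' : ℤ) : ℝ)) := by
      rw [← sum_add_distrib]
      refine sum_congr rfl fun b hb => ?_
      have hb1 := mem_range.1 (mem_filter.1 hb).1
      have hb2 := (mem_filter.1 hb).2
      have g1 : ∑ b' ∈ (range q).filter (fun b' => Nat.Coprime b' q), sp2T W q q n u u' b b' =
          ∑ b' ∈ (range q).filter (fun b' => Nat.Coprime b' q),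
            (if q ∣ b + b' then 0 else sp2T W q q n u u' b b') +
          ∑ b' ∈ (range q).filter (fun b' => Nat.Coprime b' q),
            (if q ∣ b + b' then sp2T W q q n u u' b b' else 0) := by
        rw [← sum_add_distrib]
        refine sum_congr rfl fun b' _ => ?_
        by_cases h : q ∣ b + b'
        · rw [if_pos h, if_pos h, zero_add]
        · rw [if_neg h, if_neg h, add_zero]
      rw [g1]
      congr 1
      have hqpos : 0 < q := Nat.pos_of_ne_zero hq0
      have g2 : (q - b) % q < q := Nat.mod_lt _ hqpos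
      have g3 : q ∣ b + (q - b) % q := by
        have : (b + (q - b) % q) % q = 0 := by
          rw [Nat.add_mod_mod, Nat.add_sub_cancel' hb1.le, Nat.mod_self]
        exact Nat.dvd_of_mod_eq_zero this
      have g4 : Nat.Coprime ((q - b) % q) q := by
        unfold Nat.Coprime
        rw [← Nat.gcd_rec]
        have : Nat.Coprime q (q - b) := by
          rw [Nat.coprime_self_sub_right hb1.le]
          exact hb2.symm
        exact this
      rw [sum_eq_single_of_mem ((q - b) % q) (mem_filter.2 ⟨mem_range.2 g2, g4⟩), if_pos g3]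
      · rw [sp2T_eq]
        obtain ⟨m, hm⟩ := g3
        have hqr : (q : ℝ) ≠ 0 := by exact_mod_cast hq0
        have g5 : (((q - b) % q : ℕ) : ℝ) = q * m - b := by
          have : ((b + (q - b) % q : ℕ) : ℝ) = ((q * m : ℕ) : ℝ) := by exact_mod_cast hm
          push_cast at this
          linarith
        rw [g5]
        have g6 : ∀ k ∈ range n, e (((W : ℝ) * ((b : ℝ) / q + (q * m - b) / q)) * k) = 1 := by
          intro k _
          have : ((W : ℝ) * ((b : ℝ) / q + (q * m - b) / q)) * k = ((W * m * k : ℕ) : ℝ) := by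
            push_cast
            field_simp
            ring
          rw [this, e_nat]
        rw [sum_congr rfl g6]
        simp only [sum_const, card_range, nsmul_eq_mul, mul_one]
        rw [mul_comm]
        congr 1
        have g7 : (b : ℝ) / q * u + (q * m - b) / q * u' =
            (b : ℝ) / q * ((u - u' : ℤ) : ℝ) + ((m * u' : ℤ) : ℝ) := by
          push_cast
          field_simp
          ring
        rw [g7, e_add_int]
      · intro b' hb' hne
        refine if_neg fun hd => hne ?_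
        have hb1' := mem_range.1 (mem_filter.1 hb').1
        have g5 : b' ≡ (q - b) % q [MOD q] := by
          have e1 : b + b' ≡ b + (q - b) % q [MOD q] :=
            ((Nat.modEq_zero_iff_dvd.2 hd).trans (Nat.modEq_zero_iff_dvd.2 g3).symm)
          exact Nat.ModEq.add_left_cancel' b e1
        exact Nat.ModEq.eq_of_lt_of_lt g5 hb1' g2
    rw [hsplit, mul_add]
    refine (norm_add_le _ _).trans (add_le_add ?_ ?_)
    · refine hnon _ fun b hb b' hb' => ?_
      by_cases h : q ∣ b + b'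
      · rw [if_pos h, norm_zero]
        positivity
      · rw [if_neg h]
        exact sp2T_le hW hq0 hq0 (mem_filter.1 hb).2 (mem_filter.1 hb').2 n u u'
          (fun hh => h hh.2)
    · rw [← mul_sum]
      have g1 : c * ∑ b ∈ (range q).filter (fun b => Nat.Coprime b q),
          e ((b : ℝ) / q * ((u - u' : ℤ) : ℝ)) = (gq q (u - u') : ℂ) := by
        rw [gq_eq_exp q hq]
      have g2 : c * c' * ((n : ℂ) * ∑ b ∈ (range q).filter (fun b => Nat.Coprime b q),
          e ((b : ℝ) / q * ((u - u' : ℤ) : ℝ))) = (n : ℂ) * (c' * (gq q (u - u') : ℂ)) := by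
        rw [← g1]
        ring
      rw [g2, norm_mul, norm_mul, Complex.norm_natCast, Complex.norm_real, Real.norm_eq_abs]
      refine mul_le_mul_of_nonneg_left ?_ (Nat.cast_nonneg _)
      calc ‖c'‖ * |gq q (u - u')| ≤ (1 / (q.totient : ℝ)) * |gq q (u - u')| :=
            mul_le_mul_of_nonneg_right hcc' (abs_nonneg _)
        _ = |gq q (u - u')| / (q.totient : ℝ) := by ring
  · rw [if_neg hqq, add_zero]
    refine hnon _ fun b hb b' hb' => ?_
    exact sp2T_le hW hq0 hq0' (mem_filter.1 hb).2 (mem_filter.1 hb').2 n u u' (fun hh => hqq hh.1)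

theorem sp2_sum_sq (w : ℕ) (hw : 1 ≤ w) (M : Finset ℕ) (hM : ∀ m ∈ M, w ≤ m) :
    ∑ m ∈ M, 1 / (m : ℝ) ^ 2 ≤ 2 / (w : ℝ) := by
  obtain ⟨N, hN⟩ : ∃ N, ∀ m ∈ M, m < N := ⟨M.sup id + 1, fun m hm =>
    Nat.lt_succ_of_le (le_sup (f := id) hm)⟩
  have h1 : M ⊆ Ico w N := fun m hm => mem_Ico.2 ⟨hM m hm, hN m hm⟩
  have h2 : ∑ m ∈ M, 1 / (m : ℝ) ^ 2 ≤ ∑ m ∈ Ico w N, 1 / (m : ℝ) ^ 2 :=
    sum_le_sum_of_subset_of_nonneg h1 fun _ _ _ => by positivity
  refine h2.trans ?_
  have hwr : (1 : ℝ) ≤ w := by exact_mod_cast hw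
  have h3 : ∀ N : ℕ, w ≤ N → ∑ m ∈ Ico w N, 1 / (m : ℝ) ^ 2 ≤ 2 / (w : ℝ) - 2 / (N : ℝ) := by
    intro N hN
    induction N, hN using Nat.le_induction with
    | base => simp
    | succ k hk ih =>
      rw [sum_Ico_succ_top hk]
      have hk1 : (1 : ℝ) ≤ k := by exact_mod_cast hw.trans hk
      have h4 : 1 / (k : ℝ) ^ 2 ≤ 2 / k - 2 / ((k + 1 : ℕ) : ℝ) := by
        push_cast
        rw [div_sub_div _ _ (by positivity) (by positivity), div_le_div_iff₀ (by positivity)
          (by positivity)]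
        nlinarith
      linarith
  by_cases hwN : w ≤ N
  · have h4 := h3 N hwN
    have : 0 ≤ 2 / (N : ℝ) := by positivity
    linarith
  · rw [Ico_eq_empty (by omega), sum_empty]
    positivity

/-- the local factor of `|gq q h| / φ(q)` -/
noncomputable def sp2a (h : ℤ) (p : ℕ) : ℝ :=
  |(if (p : ℤ) ∣ h then (-1 : ℝ) else 1 / ((p : ℝ) - 1))| / ((p : ℝ) - 1)

theorem sp2_phi (q : ℕ) (hq : Squarefree q) : (q.totient : ℝ) = ∏ p ∈ q.primeFactors, ((p : ℝ) - 1) := by
  have h1 := Nat.totient_mul_prod_primeFactors q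
  rw [Nat.prod_primeFactors_of_squarefree hq, mul_comm] at h1
  have h2 := Nat.eq_of_mul_eq_mul_left (Nat.pos_of_ne_zero hq.ne_zero) h1
  rw [h2, Nat.cast_prod]
  refine prod_congr rfl fun p hp => ?_
  rw [Nat.cast_sub (Nat.prime_of_mem_primeFactors hp).one_lt.le, Nat.cast_one]

theorem sp2_kappa (q : ℕ) (hq : Squarefree q) (h : ℤ) :
    |gq q h| / (q.totient : ℝ) = ∏ p ∈ q.primeFactors, sp2a h p := by
  unfold gq sp2a
  rw [sp2_phi q hq, abs_prod, ← prod_div_distrib]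

theorem sp2a_nonneg (h : ℤ) {p : ℕ} (hp : p.Prime) : 0 ≤ sp2a h p := by
  unfold sp2a
  have : (1 : ℝ) < p := by exact_mod_cast hp.one_lt
  exact div_nonneg (abs_nonneg _) (by linarith)

theorem sp2a_le (h : ℤ) {p : ℕ} (hp : p.Prime) : sp2a h p ≤
    (if (p : ℤ) ∣ h then 1 / ((p : ℝ) - 1) else 0) + 1 / (((p - 1 : ℕ) : ℝ)) ^ 2 := by
  unfold sp2a
  have h1 : (1 : ℝ) < p := by exact_mod_cast hp.one_lt
  have h2 : (0 : ℝ) < (p : ℝ) - 1 := by linarith
  rw [Nat.cast_sub hp.one_lt.le, Nat.cast_one]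
  by_cases hd : (p : ℤ) ∣ h
  · rw [if_pos hd, if_pos hd, abs_neg, abs_one]
    have : 0 ≤ 1 / ((p : ℝ) - 1) ^ 2 := by positivity
    linarith
  · rw [if_neg hd, if_neg hd, abs_of_pos (by positivity), zero_add, div_div, sq]

theorem sum_kappa_le (w : ℕ) (hw : 1 ≤ w) (Q2 : Finset ℕ)
    (hQ2 : ∀ q ∈ Q2, Squarefree q ∧ 1 < q ∧ ∀ p : ℕ, p.Prime → p ∣ q → w < p) (h : ℤ) (hh : h ≠ 0) :
    ∑ q ∈ Q2, |gq q h| / (q.totient : ℝ) ≤ Real.exp (Tp w h.natAbs + 2 / w) - 1 := by
  classical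
  set PP : Finset ℕ := Q2.biUnion Nat.primeFactors with hPP
  have hP : ∀ p ∈ PP, p.Prime ∧ w < p := by
    intro p hp
    obtain ⟨q, hq, hpq⟩ := mem_biUnion.1 hp
    exact ⟨Nat.prime_of_mem_primeFactors hpq, (hQ2 q hq).2.2 p (Nat.prime_of_mem_primeFactors hpq)
      (Nat.dvd_of_mem_primeFactors hpq)⟩
  have h1 : ∑ q ∈ Q2, |gq q h| / (q.totient : ℝ) = ∑ q ∈ Q2, ∏ p ∈ q.primeFactors, sp2a h p :=
    sum_congr rfl fun q hq => sp2_kappa q (hQ2 q hq).1 h
  have hinj : Set.InjOn Nat.primeFactors (Q2 : Set ℕ) := by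
    intro a ha b hb hab
    have e1 := Nat.prod_primeFactors_of_squarefree (hQ2 a ha).1
    have e2 := Nat.prod_primeFactors_of_squarefree (hQ2 b hb).1
    rw [← e1, ← e2, hab]
  have h2 : ∑ q ∈ Q2, ∏ p ∈ q.primeFactors, sp2a h p =
      ∑ t ∈ Q2.image Nat.primeFactors, ∏ p ∈ t, sp2a h p := by
    rw [sum_image hinj]
  have h3 : Q2.image Nat.primeFactors ⊆ PP.powerset.erase ∅ := by
    intro t ht
    obtain ⟨q, hq, rfl⟩ := mem_image.1 ht
    refine mem_erase.2 ⟨?_, mem_powerset.2 (subset_biUnion_of_mem _ hq)⟩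
    rw [Ne, Nat.primeFactors_eq_empty]
    have := (hQ2 q hq).2.1
    omega
  have h4 : ∑ t ∈ Q2.image Nat.primeFactors, ∏ p ∈ t, sp2a h p ≤
      ∑ t ∈ PP.powerset.erase ∅, ∏ p ∈ t, sp2a h p := by
    refine sum_le_sum_of_subset_of_nonneg h3 fun t ht _ => prod_nonneg fun p hp => ?_
    exact sp2a_nonneg h (hP p (mem_powerset.1 (mem_erase.1 ht).2 hp)).1
  have h5 : ∑ t ∈ PP.powerset.erase ∅, ∏ p ∈ t, sp2a h p = ∏ p ∈ PP, (1 + sp2a h p) - 1 := by
    rw [prod_one_add, ← add_sum_erase _ _ (empty_mem_powerset PP), prod_empty]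
    ring
  have h6 : ∏ p ∈ PP, (1 + sp2a h p) ≤ Real.exp (∑ p ∈ PP, sp2a h p) := by
    rw [Real.exp_sum]
    refine prod_le_prod (fun p hp => ?_) fun p hp => ?_
    · have := sp2a_nonneg h (hP p hp).1
      linarith
    · rw [add_comm]
      exact Real.add_one_le_exp _
  have h7 : ∑ p ∈ PP, sp2a h p ≤ Tp w h.natAbs + 2 / w := by
    refine (sum_le_sum fun p hp => sp2a_le h (hP p hp).1).trans ?_
    rw [sum_add_distrib]
    refine add_le_add ?_ ?_
    · rw [← sum_filter]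
      unfold Tp
      refine sum_le_sum_of_subset_of_nonneg ?_ fun p hp _ => ?_
      · intro p hp
        have hp1 := (mem_filter.1 hp).1
        have hp2 := (mem_filter.1 hp).2
        refine mem_filter.2 ⟨Nat.mem_primeFactors.2 ⟨(hP p hp1).1, Int.natCast_dvd.1 hp2, ?_⟩,
          (hP p hp1).2⟩
        exact Int.natAbs_ne_zero.2 hh
      · have hp3 := Nat.prime_of_mem_primeFactors (mem_filter.1 hp).1
        have : (1 : ℝ) < p := by exact_mod_cast hp3.one_lt
        have : 0 < (p : ℝ) - 1 := by linarith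
        positivity
    · have e1 : ∑ p ∈ PP, 1 / (((p - 1 : ℕ) : ℝ)) ^ 2 =
          ∑ m ∈ PP.image (fun p : ℕ => p - 1), 1 / (m : ℝ) ^ 2 := by
        rw [sum_image]
        intro a ha b hb hab
        have := (hP a ha).1.one_lt
        have := (hP b hb).1.one_lt
        simp only at hab
        omega
      rw [e1]
      refine sp2_sum_sq w hw _ fun m hm => ?_
      obtain ⟨p, hp, rfl⟩ := mem_image.1 hm
      have := (hP p hp).2
      omega
  rw [h1, h2]
  refine h4.trans ?_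
  rw [h5]
  have h8 : Real.exp (∑ p ∈ PP, sp2a h p) ≤ Real.exp (Tp w h.natAbs + 2 / w) :=
    Real.exp_le_exp.2 h7
  linarith

/-- an arithmetic progression in an interval -/
theorem sp2_ap (M W a L : ℕ) (hW : 1 ≤ W) : ∃ N₀ n : ℕ, (n : ℝ) ≤ (M : ℝ) / W + 1 ∧
    ∀ F : ℕ → ℝ, ∑ N ∈ (Icc 1 M).filter (fun N => N ≡ a [MOD W] ∧ L < N), F N =
      ∑ k ∈ range n, F (N₀ + W * k) := by
  classical
  set A : Finset ℕ := (Icc 1 M).filter (fun N => N ≡ a [MOD W] ∧ L < N) with hA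
  by_cases hne : A.Nonempty
  · refine ⟨A.min' hne, (M - A.min' hne) / W + 1, ?_, fun F => ?_⟩
    · push_cast
      have h1 : (((M - A.min' hne) / W : ℕ) : ℝ) ≤ ((M - A.min' hne : ℕ) : ℝ) / W :=
        Nat.cast_div_le
      have h2 : ((M - A.min' hne : ℕ) : ℝ) ≤ (M : ℝ) := by exact_mod_cast Nat.sub_le _ _
      have h3 : ((M - A.min' hne : ℕ) : ℝ) / W ≤ (M : ℝ) / W :=
        div_le_div_of_nonneg_right h2 (Nat.cast_nonneg _)
      linarith
    · have hmin := A.min'_mem hne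
      have hm := mem_filter.1 hmin
      have hm1 := mem_Icc.1 hm.1
      symm
      refine sum_nbij (fun k => A.min' hne + W * k) ?_ ?_ ?_ fun _ _ => rfl
      · intro k hk
        have hk1 : k ≤ (M - A.min' hne) / W := Nat.lt_succ_iff.1 (mem_range.1 hk)
        have hk2 : W * k ≤ M - A.min' hne := by
          rw [mul_comm]
          exact (Nat.mul_le_mul_right W hk1).trans (Nat.div_mul_le_self _ _)
        refine mem_filter.2 ⟨mem_Icc.2 ⟨by omega, by omega⟩, ?_, by omega⟩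
        have : A.min' hne + W * k ≡ A.min' hne [MOD W] := by
          unfold Nat.ModEq
          rw [Nat.add_mul_mod_self_left]
        exact this.trans hm.2.1
      · intro k _ k' _ hkk
        simp only at hkk
        have : W * k = W * k' := by omega
        exact Nat.eq_of_mul_eq_mul_left hW this
      · intro N hN
        have hN' := mem_filter.1 (mem_coe.1 hN)
        have hN1 := mem_Icc.1 hN'.1
        have hle : A.min' hne ≤ N := A.min'_le _ (mem_coe.1 hN)
        have hmod : A.min' hne ≡ N [MOD W] := hm.2.1.trans hN'.2.1.symm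
        obtain ⟨k, hk⟩ := (Nat.modEq_iff_dvd' hle).1 hmod
        refine ⟨k, ?_, ?_⟩
        · simp only [coe_range, Set.mem_Iio]
          have : k ≤ (M - A.min' hne) / W := by
            rw [Nat.le_div_iff_mul_le hW, mul_comm]
            omega
          omega
        · simp only
          omega
  · refine ⟨0, 0, ?_, fun F => ?_⟩
    · push_cast
      positivity
    · rw [not_nonempty_iff_eq_empty.1 hne, sum_empty, range_zero, sum_empty]

theorem second_moment (w X Q W a : ℕ) (hw : 1 ≤ w) (hW : 1 ≤ W) (Q2 : Finset ℕ)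
    (hQ2 : ∀ q ∈ Q2, Squarefree q ∧ 1 < q ∧ ∀ p : ℕ, p.Prime → p ∣ q → w < p)
    (hQ : ∀ q ∈ Q2, q ≤ Q) (hWQ : ∀ q ∈ Q2, Nat.Coprime W q)
    (S : Finset ℕ) (hS : S ⊆ Icc 1 X) :
    ∑ N ∈ (Icc 1 (2 * X)).filter (fun N => N ≡ a [MOD W]),
        (∑ s ∈ S.filter (fun s => s < N), ∑ q ∈ Q2, gq q ((N : ℤ) - s)) ^ 2 ≤
      (2 * (X : ℝ) / W + 1) * (Q * S.card +
        ∑ s ∈ S, ∑ s' ∈ S.filter (fun s' => s' ≠ s),
          (Real.exp (Tp w ((s : ℤ) - (s' : ℤ)).natAbs + 2 / w) - 1)) +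
      (Q : ℝ) ^ 4 * (S.card : ℝ) ^ 2 := by
  classical
  have hcard : Q2.card ≤ Q := by
    have h1 : Q2 ⊆ Icc 1 Q := fun q hq => mem_Icc.2 ⟨(hQ2 q hq).2.1.le, hQ q hq⟩
    have h2 := card_le_card h1
    rw [Nat.card_Icc] at h2
    omega
  have hcardr : (Q2.card : ℝ) ≤ Q := by exact_mod_cast hcard
  -- open the square
  have h1 : ∀ N : ℕ, (∑ s ∈ S.filter (fun s => s < N), ∑ q ∈ Q2, gq q ((N : ℤ) - s)) ^ 2 =
      ∑ s ∈ S, ∑ s' ∈ S, ∑ q ∈ Q2, ∑ q' ∈ Q2,
        (if max s s' < N then gq q ((N : ℤ) - s) * gq q' ((N : ℤ) - s') else 0) := by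
    intro N
    rw [sum_filter, sq, sum_mul_sum]
    refine sum_congr rfl fun s _ => sum_congr rfl fun s' _ => ?_
    by_cases g1 : s < N
    · by_cases g2 : s' < N
      · rw [if_pos g1, if_pos g2, sum_mul_sum]
        refine sum_congr rfl fun q _ => sum_congr rfl fun q' _ => ?_
        rw [if_pos (max_lt g1 g2)]
      · rw [if_neg g2, mul_zero]
        symm
        refine sum_eq_zero fun q _ => sum_eq_zero fun q' _ => if_neg fun h => g2 ?_
        exact (le_max_right _ _).trans_lt h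
    · rw [if_neg g1, zero_mul]
      symm
      refine sum_eq_zero fun q _ => sum_eq_zero fun q' _ => if_neg fun h => g1 ?_
      exact (le_max_left _ _).trans_lt h
  rw [sum_congr rfl fun N _ => h1 N]
  rw [sum_comm]
  rw [sum_congr rfl fun s _ => sum_comm]
  rw [sum_congr rfl fun s _ => sum_congr rfl fun s' _ => sum_comm]
  rw [sum_congr rfl fun s _ => sum_congr rfl fun s' _ => sum_congr rfl fun q _ => sum_comm]
  -- the inner sums
  have h2 : ∀ s ∈ S, ∀ s' ∈ S, ∀ q ∈ Q2, ∀ q' ∈ Q2,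
      ∑ N ∈ (Icc 1 (2 * X)).filter (fun N => N ≡ a [MOD W]),
        (if max s s' < N then gq q ((N : ℤ) - s) * gq q' ((N : ℤ) - s') else 0) ≤
      (Q : ℝ) ^ 2 + (if q = q' then (2 * (X : ℝ) / W + 1) *
        (|gq q ((s' : ℤ) - s)| / (q.totient : ℝ)) else 0) := by
    intro s _ s' _ q hq q' hq'
    obtain ⟨N₀, n, hn, hF⟩ := sp2_ap (2 * X) W a (max s s') hW
    rw [← sum_filter, filter_filter, hF]
    have hc : Nat.Coprime W (q * q') := Nat.Coprime.mul_right (hWQ q hq) (hWQ q' hq')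
    have h3 := gq_corr W q q' hc (hQ2 q hq).1 (hQ2 q' hq').1 ((N₀ : ℤ) - s) ((N₀ : ℤ) - s') n
    have h4 : ∑ k ∈ range n, gq q (((N₀ + W * k : ℕ) : ℤ) - s) * gq q' (((N₀ + W * k : ℕ) : ℤ) - s') =
        ∑ k ∈ range n, gq q (W * k + ((N₀ : ℤ) - s)) * gq q' (W * k + ((N₀ : ℤ) - s')) := by
      refine sum_congr rfl fun k _ => ?_
      congr 2 <;> push_cast <;> ring
    rw [h4]
    refine (le_abs_self _).trans (h3.trans (add_le_add ?_ ?_))
    · have e1 : (q : ℝ) ≤ Q := by exact_mod_cast hQ q hq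
      have e2 : (q' : ℝ) ≤ Q := by exact_mod_cast hQ q' hq'
      rw [sq]
      exact mul_le_mul e1 e2 (Nat.cast_nonneg _) (Nat.cast_nonneg _)
    · by_cases hqq : q = q'
      · rw [if_pos hqq, if_pos hqq]
        have e1 : ((N₀ : ℤ) - s) - ((N₀ : ℤ) - s') = (s' : ℤ) - s := by ring
        rw [e1]
        refine mul_le_mul_of_nonneg_right ?_ (div_nonneg (abs_nonneg _) (Nat.cast_nonneg _))
        push_cast at hn
        exact hn
      · rw [if_neg hqq, if_neg hqq]
  have hXW : 0 ≤ 2 * (X : ℝ) / W + 1 := by positivity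
  have h3 : ∀ s ∈ S, ∀ s' ∈ S, ∑ q ∈ Q2, ∑ q' ∈ Q2,
      ∑ N ∈ (Icc 1 (2 * X)).filter (fun N => N ≡ a [MOD W]),
        (if max s s' < N then gq q ((N : ℤ) - s) * gq q' ((N : ℤ) - s') else 0) ≤
      (Q : ℝ) ^ 4 + (2 * (X : ℝ) / W + 1) * ∑ q ∈ Q2, |gq q ((s' : ℤ) - s)| / (q.totient : ℝ) := by
    intro s hs s' hs'
    refine (sum_le_sum fun q hq => sum_le_sum fun q' hq' => h2 s hs s' hs' q hq q' hq').trans ?_
    have e1 : ∀ q ∈ Q2, ∑ q' ∈ Q2, ((Q : ℝ) ^ 2 + (if q = q' then (2 * (X : ℝ) / W + 1) *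
        (|gq q ((s' : ℤ) - s)| / (q.totient : ℝ)) else 0)) =
        Q2.card * (Q : ℝ) ^ 2 + (2 * (X : ℝ) / W + 1) *
        (|gq q ((s' : ℤ) - s)| / (q.totient : ℝ)) := by
      intro q hq
      rw [sum_add_distrib, sum_const, nsmul_eq_mul, sum_ite_eq, if_pos hq]
    rw [sum_congr rfl e1, sum_add_distrib, sum_const, nsmul_eq_mul, ← mul_sum]
    refine add_le_add ?_ le_rfl
    have e2 : (Q2.card : ℝ) * (Q2.card * (Q : ℝ) ^ 2) ≤ (Q : ℝ) * (Q * (Q : ℝ) ^ 2) := by
      refine mul_le_mul hcardr (mul_le_mul_of_nonneg_right hcardr (by positivity)) (by positivity)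
        (Nat.cast_nonneg _)
    refine e2.trans (le_of_eq ?_)
    ring
  have h4 : ∀ s ∈ S, ∑ s' ∈ S, ((Q : ℝ) ^ 4 + (2 * (X : ℝ) / W + 1) *
      ∑ q ∈ Q2, |gq q ((s' : ℤ) - s)| / (q.totient : ℝ)) ≤
      S.card * (Q : ℝ) ^ 4 + (2 * (X : ℝ) / W + 1) * (Q +
        ∑ s' ∈ S.filter (fun s' => s' ≠ s),
          (Real.exp (Tp w ((s : ℤ) - (s' : ℤ)).natAbs + 2 / w) - 1)) := by
    intro s hs
    rw [sum_add_distrib, sum_const, nsmul_eq_mul, ← mul_sum]
    refine add_le_add le_rfl (mul_le_mul_of_nonneg_left ?_ hXW)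
    rw [← add_sum_erase S _ hs]
    refine add_le_add ?_ ?_
    · have e1 : ∀ q ∈ Q2, |gq q ((s : ℤ) - s)| / (q.totient : ℝ) ≤ 1 := by
        intro q hq
        have e2 : (1 : ℝ) ≤ (q.totient : ℝ) := by
          exact_mod_cast Nat.totient_pos.2 (Nat.pos_of_ne_zero (hQ2 q hq).1.ne_zero)
        rw [div_le_one (by linarith)]
        exact (abs_gq_le _ _).trans e2
      refine (sum_le_card_nsmul _ _ _ e1).trans ?_
      rw [nsmul_eq_mul, mul_one]
      exact hcardr
    · have e1 : S.erase s = S.filter (fun s' => s' ≠ s) := by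
        ext x
        simp only [mem_erase, mem_filter]
        tauto
      rw [e1]
      refine sum_le_sum fun s' hs' => ?_
      have hne := (mem_filter.1 hs').2
      have e2 : (s' : ℤ) - s ≠ 0 := by
        intro h
        apply hne
        have : (s' : ℤ) = s := by linarith
        exact_mod_cast this
      have e3 := sum_kappa_le w hw Q2 hQ2 ((s' : ℤ) - s) e2
      have e4 : ((s' : ℤ) - s).natAbs = ((s : ℤ) - s').natAbs := by
        rw [← Int.natAbs_neg]
        congr 1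
        ring
      rw [e4] at e3
      exact e3
  refine (sum_le_sum fun s hs => (sum_le_sum fun s' hs' => h3 s hs s' hs').trans (h4 s hs)).trans ?_
  rw [sum_add_distrib, sum_const, nsmul_eq_mul, ← mul_sum, sum_add_distrib, sum_const, nsmul_eq_mul]
  refine le_of_eq ?_
  ring

end Pool.Agent.Lib.SW
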