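import Pool.Agent.Lib.SW.FourierSW
import Pool.Agent.Lib.SW.SP2
import Pool.Agent.Lib.MP_7b7e48_nt.GT.ConvL2

/-!
# SP-3: THE LOCAL-GLOBAL PRINCIPLE FOR P + S, S SPARSE (main theorem of the sparse theory)

w = ⌊log log X⌋, W = ∏_{p ≤ w} p (`primorial w`) ≤ 4^w ≤ (log X)^2.

PROOF of `sparse_l2`. Let S_a = {s ∈ S : (a - s, W) = 1} (coprimality in ℤ), A := K + 3, A1 from `fourier_lam A`, Q := ⌊(log 2X)^A1⌋₊,
Q2 = {squarefree q, 1 < q ≤ Q, coprime to W} (all prime factors > w), Qs = {d q : d | W, q ∈ Q2 ∪ {1}} ⊇ all squarefree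
q ≤ (log 2X)^A1 (q = (q,W) · q/(q,W)), contained in [1, (log 2X)^A2] with A2 = A1 + 3, and LQ Qs m = (∑_{d|W} gq d m) (1 + G'(m)), G'(m) = ∑_{q∈Q2} gq q m
(`gq_mul`, injectivity of (d,q) ↦ dq) = (W/φ(W)) 1_{(m,W)=1} (1 + G'(m)) (`sum_gq_divisors`). For N ≡ a mod W, s < N:
(N - s, W) = 1 iff s ∈ S_a. So with f(n) = lam n - LQ Qs n (1 ≤ n ≤ 2X, 0 otherwise), r(N) = ∑_{s∈S, s<N} lam(N-s) and c = W/φ(W):
r(N) - c #{s ∈ S_a, s < N} = E1(N) + E2(N) + E3(N),
E1 = ∑_{s ∈ S \ S_a, s<N} lam(N-s): here N-s is a prime dividing W, so 0 ≤ E1 ≤ ∑_{p ≤ w} log p ≤ w²;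
E2 = ∑_{s∈S_a, s<N} f(N-s): ∑_N E2² ≤ (C 2X/(log 2X)^A)² |S_a| (`GT.conv_l2` with u = f, v = 1_{S_a}, supremum bound from
`fourier_lam` (X → 2X; e(α n) vs e(n α)));
E3 = c ∑_{s ∈ S_a, s<N} G'(N-s): `second_moment` for S_a and `collide` (on exp(T + 2/w) - 1 = e^{2/w}(exp T - 1) + (e^{2/w} - 1)) with ε' = small, λ = (K+3)/ε':
2|S_a| X exp(λe^λ + ε' - λ w ε') ≤ |S_a| X (log X)^(-K-2) for X large (w ≥ log log X - 1).
(x+y+z)² ≤ 3(x²+y²+z²). Everything is ≤ ε (X/W) c² (|S_a|² + (X/(log X)^K)²) for X ≥ X₀(K, ε): use c ≥ 1,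
E1: (2X/W + 1) w^4; E2: 4C² X³ (log X)^(-2A) ≤ (ε/10) (X/W) (X/(log X)^K)² since W ≤ (log X)^2; E3: (2X/W+1)(Q|S_a| + (e^{ε'}(1+..)-1)|S_a|² +
|S_a| X (log X)^(-K-1)) + Q^4 |S_a|², with Q |S_a| ≤ .. : if |S_a| ≤ X/(log X)^K·(1/√Q..) ... simply Q |S_a| ≤ Q X and X Q ≤
ε (X/(log X)^K)² for large X; |S_a| X (log X)^(-K-1) ≤ ε(|S_a|² + (X/(log X)^K)²); Q^4 |S_a|² ≤ ε (X/W)|S_a|².
-/

open Finset Pool.Agent.Lib.GT

namespace Pool.Agent.Lib.SW

/-- the sieving limit `⌊log log X⌋` -/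
noncomputable def wX (X : ℕ) : ℕ := ⌊Real.log (Real.log X)⌋₊

/-- `W = ∏_{p ≤ log log X} p` -/
noncomputable def WX (X : ℕ) : ℕ := primorial (wX X)

/-- number of representations of `N` as `p + s`, weighted by `log p` -/
noncomputable def rS (S : Finset ℕ) (N : ℕ) : ℝ := ∑ s ∈ S.filter (fun s => s < N), lam (N - s)

/-- elements of `S` below `N` with `N - s` coprime to `W` -/
noncomputable def SN (W : ℕ) (S : Finset ℕ) (N : ℕ) : Finset ℕ :=
  S.filter (fun s => s < N ∧ Nat.Coprime (N - s) W)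

/-- elements of `S` with `a - s` coprime to `W` -/
noncomputable def Sa (W : ℕ) (S : Finset ℕ) (a : ℕ) : Finset ℕ :=
  S.filter (fun s => IsCoprime ((a : ℤ) - s) (W : ℤ))

/-! ### The set of moduli -/

lemma gq_one' (n : ℤ) : gq 1 n = 1 := by simp [gq]

/-- all products of a divisor of `W` and an element of `Q2 ∪ {1}` -/
noncomputable def QsOf (W : ℕ) (Q2 : Finset ℕ) : Finset ℕ :=
  (W.divisors ×ˢ (insert 1 Q2)).image (fun x => x.1 * x.2)

lemma coprime_insert {W : ℕ} {Q2 : Finset ℕ} (hc : ∀ q ∈ Q2, Nat.Coprime W q) :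
    ∀ q ∈ insert 1 Q2, Nat.Coprime W q := by
  intro q hq
  rw [Finset.mem_insert] at hq
  rcases hq with rfl | hq
  · exact Nat.coprime_one_right W
  · exact hc q hq

lemma QsOf_inj {W : ℕ} {Q2 : Finset ℕ} (hc : ∀ q ∈ Q2, Nat.Coprime W q) :
    Set.InjOn (fun x : ℕ × ℕ => x.1 * x.2) (W.divisors ×ˢ (insert 1 Q2) : Finset (ℕ × ℕ)) := by
  rintro ⟨d, q⟩ h1 ⟨d', q'⟩ h2 h
  simp only [Finset.coe_product, Set.mem_prod, Finset.mem_coe, Nat.mem_divisors] at h1 h2 h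
  obtain ⟨⟨hd, hW0⟩, hq⟩ := h1
  obtain ⟨⟨hd', _⟩, hq'⟩ := h2
  have e1 : ∀ d q : ℕ, d ∣ W → Nat.Coprime W q → Nat.gcd (d * q) W = d := by
    intro d q hd hq
    rw [Nat.Coprime.gcd_mul_right_cancel d hq.symm]
    exact Nat.gcd_eq_left hd
  have hdd : d = d' := by
    rw [← e1 d q hd (coprime_insert hc q hq), ← e1 d' q' hd' (coprime_insert hc q' hq')]
    rw [h]
  subst hdd
  have hd0 : 0 < d := Nat.pos_of_dvd_of_pos hd (Nat.pos_of_ne_zero hW0)
  have := Nat.eq_of_mul_eq_mul_left hd0 h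
  rw [this]

lemma LQ_QsOf (W : ℕ) (hW : Squarefree W) (Q2 : Finset ℕ) (h1 : 1 ∉ Q2)
    (hc : ∀ q ∈ Q2, Nat.Coprime W q) (m : ℤ) :
    LQ (QsOf W Q2) m = (if IsCoprime m (W : ℤ) then (W : ℝ) / (W.totient : ℝ) else 0) *
      (1 + ∑ q ∈ Q2, gq q m) := by
  unfold LQ QsOf
  rw [Finset.sum_image (QsOf_inj hc), Finset.sum_product]
  have h2 : ∀ d ∈ W.divisors, ∑ q ∈ insert 1 Q2, gq (d * q) m =
      gq d m * (1 + ∑ q ∈ Q2, gq q m) := by
    intro d hd
    rw [Finset.sum_insert h1, mul_one, mul_add, mul_one, Finset.mul_sum]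
    congr 1
    apply Finset.sum_congr rfl
    intro q hq
    exact gq_mul d q ((hc q hq).coprime_dvd_left (Nat.dvd_of_mem_divisors hd)) m
  rw [Finset.sum_congr rfl h2, ← Finset.sum_mul, sum_gq_divisors W hW m]

/-- squarefree numbers `1 < q ≤ Q` coprime to `W` -/
noncomputable def Q2Of (W Q : ℕ) : Finset ℕ :=
  (Icc 1 Q).filter (fun q => Squarefree q ∧ 1 < q ∧ Nat.Coprime W q)

lemma mem_Q2Of {W Q q : ℕ} : q ∈ Q2Of W Q ↔ q ≤ Q ∧ Squarefree q ∧ 1 < q ∧ Nat.Coprime W q := by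
  unfold Q2Of
  rw [Finset.mem_filter, Finset.mem_Icc]
  constructor
  · rintro ⟨⟨_, h2⟩, h3⟩
    exact ⟨h2, h3⟩
  · rintro ⟨h2, h3⟩
    exact ⟨⟨by omega, h2⟩, h3⟩

lemma mem_QsOf_bound {W Q q : ℕ} (hW : Squarefree W) (hq : q ∈ QsOf W (Q2Of W Q)) (hQ : 1 ≤ Q) :
    Squarefree q ∧ q ≤ W * Q := by
  unfold QsOf at hq
  rw [Finset.mem_image] at hq
  obtain ⟨⟨d, r⟩, h, rfl⟩ := hq
  rw [Finset.mem_product, Nat.mem_divisors] at h
  obtain ⟨⟨hd, hW0⟩, hr⟩ := h
  simp only at hd hr ⊢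
  rw [Finset.mem_insert] at hr
  have hr' : Squarefree r ∧ Nat.Coprime W r ∧ r ≤ Q := by
    rcases hr with rfl | hr
    · exact ⟨squarefree_one, Nat.coprime_one_right W, hQ⟩
    · rw [mem_Q2Of] at hr
      exact ⟨hr.2.1, hr.2.2.2, hr.1⟩
  refine ⟨?_, ?_⟩
  · rw [Nat.squarefree_mul (hr'.2.1.coprime_dvd_left hd)]
    exact ⟨hW.squarefree_of_dvd hd, hr'.1⟩
  · exact Nat.mul_le_mul (Nat.le_of_dvd (Nat.pos_of_ne_zero hW0) hd) hr'.2.2

lemma mem_QsOf_of {W Q q : ℕ} (hW0 : W ≠ 0) (hq : Squarefree q) (hqQ : q ≤ Q) :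
    q ∈ QsOf W (Q2Of W Q) := by
  unfold QsOf
  rw [Finset.mem_image]
  have hq0 : q ≠ 0 := hq.ne_zero
  have hg : 0 < Nat.gcd q W := Nat.gcd_pos_of_pos_left _ (Nat.pos_of_ne_zero hq0)
  refine ⟨(Nat.gcd q W, q / Nat.gcd q W), ?_, ?_⟩
  · rw [Finset.mem_product, Nat.mem_divisors]
    refine ⟨⟨Nat.gcd_dvd_right q W, hW0⟩, ?_⟩
    simp only
    have hdvd : q / Nat.gcd q W ∣ q := Nat.div_dvd_of_dvd (Nat.gcd_dvd_left q W)
    have hcop : Nat.Coprime W (q / Nat.gcd q W) := by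
      rw [Nat.coprime_iff_gcd_eq_one]
      by_contra hne
      obtain ⟨p, hp, hpd⟩ := Nat.exists_prime_and_dvd hne
      have hpW : p ∣ W := hpd.trans (Nat.gcd_dvd_left _ _)
      have hpq' : p ∣ q / Nat.gcd q W := hpd.trans (Nat.gcd_dvd_right _ _)
      have hpq : p ∣ q := hpq'.trans hdvd
      have hpg : p ∣ Nat.gcd q W := Nat.dvd_gcd hpq hpW
      have : p * p ∣ q := by
        have h := Nat.mul_dvd_mul hpg hpq'
        rwa [Nat.mul_div_cancel' (Nat.gcd_dvd_left q W)] at h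
      have hu := hq p this
      exact hp.one_lt.ne' (Nat.isUnit_iff.mp hu)
    rw [Finset.mem_insert]
    by_cases h1 : q / Nat.gcd q W = 1
    · exact Or.inl h1
    · right
      rw [mem_Q2Of]
      refine ⟨(Nat.div_le_self _ _).trans hqQ, hq.squarefree_of_dvd hdvd, ?_, hcop⟩
      have h0 : q / Nat.gcd q W ≠ 0 := by
        intro h0
        rw [h0] at hdvd
        exact hq0 (Nat.eq_zero_of_zero_dvd hdvd)
      exact lt_of_le_of_ne (Nat.one_le_iff_ne_zero.mpr h0) (Ne.symm h1)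
  · exact Nat.mul_div_cancel' (Nat.gcd_dvd_left q W)

lemma WX_squarefree (w : ℕ) : Squarefree (primorial w) := by
  unfold primorial
  apply Finset.squarefree_prod_of_pairwise_isCoprime
  · intro p hp q hq hpq
    rw [Finset.mem_coe, Finset.mem_filter] at hp hq
    exact Nat.coprime_iff_isRelPrime.mp ((Nat.coprime_primes hp.2 hq.2).mpr hpq)
  · intro p hp
    simp only [Finset.mem_filter] at hp
    exact hp.2.squarefree


/-! ### The decomposition -/

lemma cop_cast {W N a s : ℕ} (hN : N ≡ a [MOD W]) (hs : s < N) :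
    Nat.Coprime (N - s) W ↔ IsCoprime ((a : ℤ) - s) (W : ℤ) := by
  rw [← Nat.isCoprime_iff_coprime, Nat.cast_sub hs.le]
  have h : (W : ℤ) ∣ (a : ℤ) - N := by
    exact (Nat.modEq_iff_dvd.mp hN)
  obtain ⟨k, hk⟩ := h
  have e1 : (a : ℤ) - s = ((N : ℤ) - s) + W * k := by rw [← hk]; ring
  rw [e1]
  exact (IsCoprime.add_mul_left_left_iff).symm

lemma mem_Sa {W a s : ℕ} {S : Finset ℕ} :
    s ∈ Sa W S a ↔ s ∈ S ∧ IsCoprime ((a : ℤ) - s) (W : ℤ) := by
  unfold Sa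
  rw [Finset.mem_filter]

lemma SN_eq {W N a : ℕ} (hN : N ≡ a [MOD W]) (S : Finset ℕ) :
    SN W S N = (Sa W S a).filter (fun s => s < N) := by
  unfold SN Sa
  rw [Finset.filter_filter]
  apply Finset.filter_congr
  intro s _
  constructor
  · rintro ⟨h1, h2⟩
    exact ⟨(cop_cast hN h1).mp h2, h1⟩
  · rintro ⟨h1, h2⟩
    exact ⟨h2, (cop_cast hN h2).mpr h1⟩

lemma lam_nonneg' (n : ℕ) : 0 ≤ lam n := by
  unfold lam
  split_ifs
  · exact Real.log_natCast_nonneg n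
  · exact le_refl 0

/-- the exceptional part -/
lemma E1_bound (w N a : ℕ) (hN : N ≡ a [MOD (primorial w)]) (S : Finset ℕ) :
    0 ≤ ∑ s ∈ (S \ Sa (primorial w) S a).filter (fun s => s < N), lam (N - s) ∧
    ∑ s ∈ (S \ Sa (primorial w) S a).filter (fun s => s < N), lam (N - s) ≤ (w : ℝ) ^ 2 := by
  refine ⟨Finset.sum_nonneg fun s _ => lam_nonneg' _, ?_⟩
  have h1 : ∑ s ∈ (S \ Sa (primorial w) S a).filter (fun s => s < N), lam (N - s) ≤
      ∑ n ∈ Icc 1 w, lam n := by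
    have h2 : ∑ s ∈ (S \ Sa (primorial w) S a).filter (fun s => s < N), lam (N - s) =
        ∑ s ∈ ((S \ Sa (primorial w) S a).filter (fun s => s < N)).filter
          (fun s => (N - s).Prime), lam (N - s) := by
      rw [Finset.sum_filter (p := fun s => (N - s).Prime)]
      apply Finset.sum_congr rfl
      intro s _
      by_cases hp : (N - s).Prime
      · rw [if_pos hp]
      · rw [if_neg hp]
        unfold lam
        rw [if_neg hp]
    rw [h2]
    have h3 : ∑ s ∈ ((S \ Sa (primorial w) S a).filter (fun s => s < N)).filter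
          (fun s => (N - s).Prime), lam (N - s) =
        ∑ n ∈ (((S \ Sa (primorial w) S a).filter (fun s => s < N)).filter
          (fun s => (N - s).Prime)).image (fun s => N - s), lam n := by
      rw [Finset.sum_image]
      intro s hs t ht hst
      simp only [Finset.coe_filter, Finset.mem_filter] at hs ht
      have hs1 : s < N := hs.1.2
      have ht1 : t < N := ht.1.2
      simp only at hst
      omega
    rw [h3]
    apply Finset.sum_le_sum_of_subset_of_nonneg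
    · intro n hn
      rw [Finset.mem_image] at hn
      obtain ⟨s, hs, rfl⟩ := hn
      rw [Finset.mem_filter, Finset.mem_filter, Finset.mem_sdiff, mem_Sa] at hs
      obtain ⟨⟨⟨hsS, hna⟩, hsN⟩, hp⟩ := hs
      have hnc : ¬ Nat.Coprime (N - s) (primorial w) := by
        intro hc
        exact hna ⟨hsS, (cop_cast hN hsN).mp hc⟩
      have hd : (N - s) ∣ primorial w := by
        rcases (Nat.Prime.coprime_iff_not_dvd hp).not.mp hnc with h
        rwa [not_not] at h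
      have hle : N - s ≤ w := by
        unfold primorial at hd
        rw [(Nat.Prime.prime hp).dvd_finsetProd_iff] at hd
        obtain ⟨p, hp', hpd⟩ := hd
        rw [Finset.mem_filter, Finset.mem_range] at hp'
        rw [(Nat.prime_dvd_prime_iff_eq hp hp'.2)] at hpd
        omega
      rw [Finset.mem_Icc]
      exact ⟨hp.one_le, hle⟩
    · intro n _ _
      exact lam_nonneg' n
  refine h1.trans ?_
  have h4 : ∀ n ∈ Icc 1 w, lam n ≤ (w : ℝ) := by
    intro n hn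
    rw [Finset.mem_Icc] at hn
    have hnw : (n : ℝ) ≤ w := by exact_mod_cast hn.2
    unfold lam
    split_ifs
    · have : (0 : ℝ) < n := by exact_mod_cast hn.1
      have := Real.log_le_sub_one_of_pos this
      linarith
    · exact Nat.cast_nonneg w
  refine (Finset.sum_le_sum h4).trans ?_
  rw [Finset.sum_const, Nat.card_Icc, nsmul_eq_mul]
  have : ((w + 1 - 1 : ℕ) : ℝ) = w := by simp
  rw [this, sq]

lemma decomp (W N a Q X : ℕ) (hW : Squarefree W) (hN : N ≡ a [MOD W]) (hNX : N ≤ 2 * X)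
    (S : Finset ℕ) :
    rS S N - (W : ℝ) / (W.totient : ℝ) * (SN W S N).card =
      ∑ s ∈ (S \ Sa W S a).filter (fun s => s < N), lam (N - s) +
      ∑ s ∈ (Sa W S a).filter (fun s => s < N),
        (if 1 ≤ N - s ∧ N - s ≤ 2 * X then lam (N - s) - LQ (QsOf W (Q2Of W Q)) ((N - s : ℕ) : ℤ)
          else 0) +
      (W : ℝ) / (W.totient : ℝ) * ∑ s ∈ (Sa W S a).filter (fun s => s < N),
        ∑ q ∈ Q2Of W Q, gq q ((N : ℤ) - s) := by
  have h1 : rS S N = ∑ s ∈ (S \ Sa W S a).filter (fun s => s < N), lam (N - s) +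
      ∑ s ∈ (Sa W S a).filter (fun s => s < N), lam (N - s) := by
    unfold rS
    rw [← Finset.sum_union]
    · congr 1
      rw [← Finset.filter_union]
      congr 1
      rw [Finset.sdiff_union_of_subset]
      unfold Sa
      exact Finset.filter_subset _ _
    · apply Finset.disjoint_filter_filter
      exact Finset.sdiff_disjoint
  have h2 : ∑ s ∈ (Sa W S a).filter (fun s => s < N), lam (N - s) =
      ∑ s ∈ (Sa W S a).filter (fun s => s < N),
        (if 1 ≤ N - s ∧ N - s ≤ 2 * X then lam (N - s) - LQ (QsOf W (Q2Of W Q)) ((N - s : ℕ) : ℤ)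
          else 0) +
      ∑ s ∈ (Sa W S a).filter (fun s => s < N), ((W : ℝ) / (W.totient : ℝ) +
        (W : ℝ) / (W.totient : ℝ) * ∑ q ∈ Q2Of W Q, gq q ((N : ℤ) - s)) := by
    rw [← Finset.sum_add_distrib]
    apply Finset.sum_congr rfl
    intro s hs
    rw [Finset.mem_filter, mem_Sa] at hs
    obtain ⟨⟨hsS, hc⟩, hsN⟩ := hs
    rw [if_pos (by omega), LQ_QsOf W hW, if_pos]
    · rw [Nat.cast_sub hsN.le]
      ring
    · have := (cop_cast hN hsN).mpr hc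
      rwa [← Nat.isCoprime_iff_coprime] at this
    · intro h
      rw [mem_Q2Of] at h
      omega
    · intro q hq
      rw [mem_Q2Of] at hq
      exact hq.2.2.2
  rw [h1, h2, SN_eq hN, Finset.sum_add_distrib, Finset.sum_const, nsmul_eq_mul, ← Finset.mul_sum]
  ring


/-! ### The three bounds -/

lemma E2_bound (X : ℕ) (S' : Finset ℕ) (hS' : S' ⊆ Icc 1 X) (Qs : Finset ℕ) (B : ℝ)
    (hB : ∀ α : ℝ, ‖∑ n ∈ Icc 1 (2 * X), ((lam n - LQ Qs n : ℝ) : ℂ) * e (n * α)‖ ≤ B)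
    (P : ℕ → Prop) [DecidablePred P] :
    ∑ N ∈ (Icc 1 (2 * X)).filter P, (∑ s ∈ S'.filter (fun s => s < N),
        (if 1 ≤ N - s ∧ N - s ≤ 2 * X then lam (N - s) - LQ Qs ((N - s : ℕ) : ℤ) else 0)) ^ 2 ≤
      B ^ 2 * S'.card := by
  classical
  set u : ℕ → ℝ := fun n => if 1 ≤ n ∧ n ≤ 2 * X then lam n - LQ Qs (n : ℤ) else 0 with hu
  set v : ℕ → ℝ := fun n => if n ∈ S' then 1 else 0 with hv
  have h := Transfer.conv_l2 (X := 2 * X) (u := u) (v := v) (S := B)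
    (fun n hn => by rw [hu]; simp only; rw [if_neg (by omega)])
    (fun n hn => by
      rw [hv]; simp only; rw [if_neg]
      intro h
      have := Finset.mem_Icc.mp (hS' h)
      omega)
    (fun α => by
      have h1 : ∑ n ∈ range (2 * X + 1), (u n : ℂ) * e (α * n) =
          ∑ n ∈ Icc 1 (2 * X), ((lam n - LQ Qs n : ℝ) : ℂ) * e (n * α) := by
        symm
        have h2 : ∑ n ∈ Icc 1 (2 * X), ((lam n - LQ Qs n : ℝ) : ℂ) * e (n * α) =
            ∑ n ∈ Icc 1 (2 * X), (u n : ℂ) * e (α * n) := by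
          apply Finset.sum_congr rfl
          intro n hn
          rw [Finset.mem_Icc] at hn
          rw [hu]
          simp only
          rw [if_pos hn, mul_comm (n : ℝ) α]
        rw [h2]
        apply Finset.sum_subset
        · intro n hn
          rw [Finset.mem_Icc] at hn
          rw [Finset.mem_range]
          omega
        · intro n hn hn'
          rw [Finset.mem_range] at hn
          rw [Finset.mem_Icc] at hn'
          rw [hu]
          simp only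
          rw [if_neg (by omega)]
          simp
      rw [h1]
      exact hB α)
  have h3 : ∑ n ∈ range (2 * X + 1), (v n) ^ 2 = S'.card := by
    rw [hv]
    simp only
    have : ∀ n : ℕ, (if n ∈ S' then (1 : ℝ) else 0) ^ 2 = if n ∈ S' then 1 else 0 := by
      intro n
      split_ifs <;> simp
    rw [Finset.sum_congr rfl (fun n _ => this n), ← Finset.sum_filter, Finset.sum_const,
      nsmul_eq_mul, mul_one]
    congr 2
    ext n
    rw [Finset.mem_filter, Finset.mem_range]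
    constructor
    · exact fun h => h.2
    · intro h
      have := Finset.mem_Icc.mp (hS' h)
      exact ⟨by omega, h⟩
  rw [h3] at h
  refine le_trans ?_ h
  have h4 : ∀ N : ℕ, ∑ x ∈ range (N + 1), u x * v (N - x) =
      ∑ s ∈ S'.filter (fun s => s < N),
        (if 1 ≤ N - s ∧ N - s ≤ 2 * X then lam (N - s) - LQ Qs ((N - s : ℕ) : ℤ) else 0) := by
    intro N
    rw [← Finset.sum_range_reflect]
    have h5 : ∀ j ∈ range (N + 1), u (N + 1 - 1 - j) * v (N - (N + 1 - 1 - j)) =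
        if j ∈ S' then u (N - j) else 0 := by
      intro j hj
      rw [Finset.mem_range] at hj
      rw [show N + 1 - 1 - j = N - j by omega, show N - (N - j) = j by omega, hv]
      simp only
      split_ifs <;> simp
    rw [Finset.sum_congr rfl h5, ← Finset.sum_filter]
    symm
    have h6 : ∀ s ∈ S'.filter (fun s => s < N),
        (if 1 ≤ N - s ∧ N - s ≤ 2 * X then lam (N - s) - LQ Qs ((N - s : ℕ) : ℤ) else 0) =
        u (N - s) := by
      intro s _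
      rfl
    rw [Finset.sum_congr rfl h6]
    apply Finset.sum_subset
    · intro s hs
      rw [Finset.mem_filter] at hs ⊢
      rw [Finset.mem_range]
      exact ⟨by omega, hs.1⟩
    · intro s hs hs'
      rw [Finset.mem_filter, Finset.mem_range] at hs
      rw [Finset.mem_filter] at hs'
      have : N - s = 0 := by
        by_contra h0
        exact hs' ⟨hs.2, by omega⟩
      rw [this, hu]
      simp
  have h7 : ∑ N ∈ (Icc 1 (2 * X)).filter P, (∑ s ∈ S'.filter (fun s => s < N),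
        (if 1 ≤ N - s ∧ N - s ≤ 2 * X then lam (N - s) - LQ Qs ((N - s : ℕ) : ℤ) else 0)) ^ 2 =
      ∑ N ∈ (Icc 1 (2 * X)).filter P, (∑ x ∈ range (N + 1), u x * v (N - x)) ^ 2 := by
    apply Finset.sum_congr rfl
    intro N _
    rw [h4 N]
  rw [h7]
  apply Finset.sum_le_sum_of_subset_of_nonneg
  · intro N hN
    rw [Finset.mem_filter, Finset.mem_Icc] at hN
    rw [Finset.mem_range]
    omega
  · intro N _ _
    positivity

lemma E3_bound (w X Q W a : ℕ) (hw : 1 ≤ w) (hW : W = primorial w) (hWX : W ≤ X)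
    (S' : Finset ℕ) (hS' : S' ⊆ Icc 1 X) (lm ε' δ : ℝ) (hlm : 1 ≤ lm) (hε' : 0 < ε')
    (h1 : Real.exp ε' - 1 ≤ δ) (h2 : Real.exp (2 / w) - 1 ≤ δ) (h3 : Real.exp (2 / w) ≤ 2)
    (D : ℝ) (hD : Real.exp (lm * Real.exp lm - (lm * w - 1) * ε') ≤ D) :
    ∑ N ∈ (Icc 1 (2 * X)).filter (fun N => N ≡ a [MOD W]),
        (∑ s ∈ S'.filter (fun s => s < N), ∑ q ∈ Q2Of W Q, gq q ((N : ℤ) - s)) ^ 2 ≤
      (3 * (X : ℝ) / W) * (Q * S'.card + 3 * δ * (S'.card : ℝ) ^ 2 +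
        4 * S'.card * X * D) + (Q : ℝ) ^ 4 * (S'.card : ℝ) ^ 2 := by
  have hW1 : 1 ≤ W := by rw [hW]; exact Nat.one_le_iff_ne_zero.mpr (primorial_pos w).ne'
  have hQ2 : ∀ q ∈ Q2Of W Q, Squarefree q ∧ 1 < q ∧ ∀ p : ℕ, p.Prime → p ∣ q → w < p := by
    intro q hq
    rw [mem_Q2Of] at hq
    refine ⟨hq.2.1, hq.2.2.1, fun p hp hpq => ?_⟩
    by_contra hpw
    push Not at hpw
    have hpW : p ∣ W := by
      rw [hW]
      unfold primorial
      apply Finset.dvd_prod_of_mem (fun p => p)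
      rw [Finset.mem_filter, Finset.mem_range]
      exact ⟨by omega, hp⟩
    have := Nat.Coprime.eq_one_of_dvd (hq.2.2.2.coprime_dvd_left hpW) hpq
    exact hp.one_lt.ne' this
  have hsm := second_moment w X Q W a hw hW1 (Q2Of W Q) hQ2
    (fun q hq => (mem_Q2Of.mp hq).1) (fun q hq => (mem_Q2Of.mp hq).2.2.2) S' hS'
  refine hsm.trans ?_
  have hcol := collide w X hw lm ε' hlm hε' S' hS'
  have hδ0 : 0 ≤ δ := le_trans (by have := Real.add_one_le_exp ε'; linarith) h1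
  have hn0 : (0 : ℝ) ≤ S'.card := Nat.cast_nonneg _
  have hX0 : (0 : ℝ) ≤ X := Nat.cast_nonneg _
  set E := Real.exp (2 / (w : ℝ)) with hE
  have hE0 : 0 ≤ E := (Real.exp_pos _).le
  have hE1 : 1 ≤ E := by rw [hE]; apply Real.one_le_exp; positivity
  have hsum : ∑ s ∈ S', ∑ s' ∈ S'.filter (fun s' => s' ≠ s),
          (Real.exp (Tp w ((s : ℤ) - (s' : ℤ)).natAbs + 2 / w) - 1) ≤
      3 * δ * (S'.card : ℝ) ^ 2 + 4 * S'.card * X * D := by
    have e1 : ∀ s ∈ S', ∑ s' ∈ S'.filter (fun s' => s' ≠ s),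
          (Real.exp (Tp w ((s : ℤ) - (s' : ℤ)).natAbs + 2 / w) - 1) ≤
        E * ∑ s' ∈ S'.filter (fun s' => s' ≠ s),
          (Real.exp (Tp w ((s : ℤ) - (s' : ℤ)).natAbs) - 1) + (E - 1) * S'.card := by
      intro s _
      have e2 : ∀ s' ∈ S'.filter (fun s' => s' ≠ s),
          (Real.exp (Tp w ((s : ℤ) - (s' : ℤ)).natAbs + 2 / w) - 1) =
          E * (Real.exp (Tp w ((s : ℤ) - (s' : ℤ)).natAbs) - 1) + (E - 1) := by
        intro s' _
        rw [Real.exp_add, ← hE]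
        ring
      rw [Finset.sum_congr rfl e2, Finset.sum_add_distrib, ← Finset.mul_sum, Finset.sum_const,
        nsmul_eq_mul]
      have e3 : (((S'.filter (fun s' => s' ≠ s)).card : ℕ) : ℝ) ≤ S'.card := by
        exact_mod_cast Finset.card_filter_le _ _
      nlinarith [mul_le_mul_of_nonneg_right e3 (sub_nonneg.mpr hE1)]
    refine (Finset.sum_le_sum e1).trans ?_
    rw [Finset.sum_add_distrib, ← Finset.mul_sum, Finset.sum_const, nsmul_eq_mul]
    have e4 : E * ∑ s ∈ S', ∑ s' ∈ S'.filter (fun s' => s' ≠ s),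
          (Real.exp (Tp w ((s : ℤ) - (s' : ℤ)).natAbs) - 1) ≤
        E * ((Real.exp ε' - 1) * (S'.card : ℝ) ^ 2 +
          2 * S'.card * X * Real.exp (lm * Real.exp lm - (lm * w - 1) * ε')) :=
      mul_le_mul_of_nonneg_left hcol hE0
    have e5 : E * ((Real.exp ε' - 1) * (S'.card : ℝ) ^ 2 +
          2 * S'.card * X * Real.exp (lm * Real.exp lm - (lm * w - 1) * ε')) ≤
        2 * (δ * (S'.card : ℝ) ^ 2 + 2 * S'.card * X * D) := by
      apply mul_le_mul h3 _ _ (by norm_num)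
      · have := mul_le_mul_of_nonneg_right h1 (sq_nonneg (S'.card : ℝ))
        have := mul_le_mul_of_nonneg_left hD (show (0 : ℝ) ≤ 2 * S'.card * X by positivity)
        linarith
      · have e6 : 0 ≤ Real.exp ε' - 1 := by
          have := Real.add_one_le_exp ε'; linarith
        have := Real.exp_pos (lm * Real.exp lm - (lm * w - 1) * ε')
        positivity
    have e7 : (E - 1) * (S'.card : ℝ) ^ 2 ≤ δ * (S'.card : ℝ) ^ 2 :=
      mul_le_mul_of_nonneg_right h2 (sq_nonneg _)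
    nlinarith
  have hcoef : 2 * (X : ℝ) / W + 1 ≤ 3 * (X : ℝ) / W := by
    have hW0 : (0 : ℝ) < W := by exact_mod_cast hW1
    have : (1 : ℝ) ≤ X / W := by
      rw [le_div_iff₀ hW0, one_mul]
      exact_mod_cast hWX
    have e1 : 3 * (X : ℝ) / W = 2 * (X : ℝ) / W + X / W := by ring
    rw [e1]
    linarith
  have hcoef0 : 0 ≤ 3 * (X : ℝ) / W := by positivity
  have hD0 : 0 ≤ D := le_trans (Real.exp_pos _).le hD
  have hb0 : 0 ≤ (Q : ℝ) * S'.card + (3 * δ * (S'.card : ℝ) ^ 2 + 4 * S'.card * X * D) := by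
    positivity
  have hsecond : (2 * (X : ℝ) / W + 1) * (Q * S'.card + ∑ s ∈ S', ∑ s' ∈ S'.filter (fun s' => s' ≠ s),
          (Real.exp (Tp w ((s : ℤ) - (s' : ℤ)).natAbs + 2 / w) - 1)) ≤
      (3 * (X : ℝ) / W) * (Q * S'.card + (3 * δ * (S'.card : ℝ) ^ 2 +
        4 * S'.card * X * D)) := by
    refine le_trans (mul_le_mul_of_nonneg_left (add_le_add_right hsum _) (by positivity)) ?_
    exact mul_le_mul_of_nonneg_right hcoef hb0
  have e8 : (3 * (X : ℝ) / W) * (Q * S'.card + 3 * δ * (S'.card : ℝ) ^ 2 +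
        4 * S'.card * X * D) = (3 * (X : ℝ) / W) * (Q * S'.card + (3 * δ * (S'.card : ℝ) ^ 2 +
        4 * S'.card * X * D)) := by ring
  rw [e8]
  linarith


/-! ### Asymptotics -/

lemma tendsto_loglog : Filter.Tendsto (fun X : ℕ => Real.log (Real.log (X : ℝ))) Filter.atTop
    Filter.atTop :=
  Real.tendsto_log_atTop.comp (Real.tendsto_log_atTop.comp tendsto_natCast_atTop_atTop)

lemma ev_log (M : ℝ) : ∀ᶠ X : ℕ in Filter.atTop, M ≤ Real.log (X : ℝ) :=
  (Real.tendsto_log_atTop.comp tendsto_natCast_atTop_atTop).eventually_ge_atTop M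

lemma ev_w (M : ℕ) : ∀ᶠ X : ℕ in Filter.atTop, M ≤ wX X := by
  filter_upwards [tendsto_loglog.eventually_ge_atTop (M : ℝ)] with X hX
  unfold wX
  exact Nat.le_floor hX

lemma ev_pow (c : ℝ) (m : ℕ) : ∀ᶠ X : ℕ in Filter.atTop, c * (Real.log (X : ℝ)) ^ m ≤ X := by
  have h1 : (fun x : ℝ => Real.log x ^ m) =o[Filter.atTop] id := Real.isLittleO_pow_log_id_atTop
  have h2 := h1.def (show (0 : ℝ) < 1 / (|c| + 1) by positivity)
  have h3 := (tendsto_natCast_atTop_atTop (R := ℝ)).eventually h2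
  filter_upwards [h3, ev_log 0] with X hX hL
  simp only [id, Real.norm_eq_abs] at hX
  have hX0 : (0 : ℝ) ≤ X := Nat.cast_nonneg X
  rw [abs_of_nonneg (pow_nonneg hL m), abs_of_nonneg hX0] at hX
  have hc : c ≤ |c| := le_abs_self c
  have hc0 : (0 : ℝ) < |c| + 1 := by positivity
  calc c * (Real.log (X : ℝ)) ^ m ≤ (|c| + 1) * (Real.log (X : ℝ)) ^ m := by
        apply mul_le_mul_of_nonneg_right (by linarith) (pow_nonneg hL m)
    _ ≤ (|c| + 1) * (1 / (|c| + 1) * X) := mul_le_mul_of_nonneg_left hX hc0.le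
    _ = X := by field_simp

lemma WX_le (X : ℕ) (hX : 1 ≤ Real.log (X : ℝ)) : (WX X : ℝ) ≤ (Real.log X) ^ 2 := by
  have hL : 0 < Real.log (X : ℝ) := by linarith
  have hll : 0 ≤ Real.log (Real.log (X : ℝ)) := Real.log_nonneg hX
  have h1 : (wX X : ℝ) ≤ Real.log (Real.log X) := by
    unfold wX
    exact Nat.floor_le hll
  have h2 : (WX X : ℝ) ≤ (4 : ℝ) ^ (wX X) := by
    unfold WX
    exact_mod_cast primorial_le_four_pow (wX X)
  have h3 : (4 : ℝ) ≤ Real.exp 2 := by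
    have := Real.add_one_le_exp (1 : ℝ)
    have e : Real.exp 2 = Real.exp 1 * Real.exp 1 := by rw [← Real.exp_add]; norm_num
    rw [e]
    nlinarith
  calc (WX X : ℝ) ≤ (4 : ℝ) ^ (wX X) := h2
    _ ≤ (Real.exp 2) ^ (wX X) := pow_le_pow_left₀ (by norm_num) h3 _
    _ = Real.exp (wX X * 2) := by rw [← Real.exp_nat_mul]
    _ ≤ Real.exp (Real.log (Real.log X) * 2) := by
        apply Real.exp_le_exp.mpr
        linarith
    _ = (Real.log X) ^ 2 := by
        rw [mul_comm, ← Real.log_rpow hL, Real.exp_log (by positivity)]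
        norm_cast

lemma wX_le (X : ℕ) (hX : 1 ≤ Real.log (X : ℝ)) : (wX X : ℝ) ≤ Real.log X := by
  have hL : 0 < Real.log (X : ℝ) := by linarith
  have hll : 0 ≤ Real.log (Real.log (X : ℝ)) := Real.log_nonneg hX
  have h1 : (wX X : ℝ) ≤ Real.log (Real.log X) := by
    unfold wX
    exact Nat.floor_le hll
  have h2 := Real.log_le_sub_one_of_pos hL
  linarith

/-- the collision term is a power of the logarithm smaller -/
lemma D_bound (X K : ℕ) (ε' lm : ℝ) (hX : 1 ≤ Real.log (X : ℝ)) (hl : lm * ε' = K + 1) :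
    Real.exp (lm * Real.exp lm - (lm * wX X - 1) * ε') ≤
      Real.exp (lm * Real.exp lm + ε' + (K + 1)) / (Real.log X) ^ (K + 1) := by
  have hL : 0 < Real.log (X : ℝ) := by linarith
  have h1 : Real.log (Real.log (X : ℝ)) - 1 ≤ wX X := by
    have := Nat.lt_floor_add_one (Real.log (Real.log (X : ℝ)))
    unfold wX
    linarith
  have h2 : (Real.log (X : ℝ)) ^ (K + 1) = Real.exp ((K + 1) * Real.log (Real.log X)) := by
    have : ((K : ℝ) + 1) * Real.log (Real.log X) = ((K + 1 : ℕ) : ℝ) * Real.log (Real.log X) := by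
      push_cast; ring
    rw [this, ← Real.log_pow, Real.exp_log (by positivity)]
  rw [h2, ← Real.exp_sub]
  apply Real.exp_le_exp.mpr
  have h3 : (lm * wX X - 1) * ε' = (K + 1) * wX X - ε' := by
    rw [← hl]; ring
  rw [h3]
  have hK : (0 : ℝ) ≤ (K : ℝ) + 1 := by positivity
  nlinarith [mul_le_mul_of_nonneg_left h1 hK]

lemma three_sq (x y z : ℝ) : (x + y + z) ^ 2 ≤ 3 * x ^ 2 + 3 * y ^ 2 + 3 * z ^ 2 := by
  have h1 := sq_nonneg (x - y)
  have h2 := sq_nonneg (x - z)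
  have h3 := sq_nonneg (y - z)
  linarith

lemma two_mul_le_sq' (n P δ : ℝ) (hδ : 0 ≤ δ) : 2 * (n * P) * δ ≤ δ * (n ^ 2 + P ^ 2) := by
  have h1 := mul_nonneg hδ (sq_nonneg (n - P))
  linarith

theorem sparse_l2 (K : ℕ) (ε : ℝ) (hε : 0 < ε) :
    ∃ X₀ : ℕ, ∀ X : ℕ, X₀ ≤ X → ∀ S : Finset ℕ, S ⊆ Icc 1 X → ∀ a : ℕ,
      ∑ N ∈ (Icc 1 (2 * X)).filter (fun N => N ≡ a [MOD WX X]),
          (rS S N - (WX X : ℝ) / ((WX X).totient : ℝ) * (SN (WX X) S N).card) ^ 2 ≤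
        ε * (X / WX X) * ((WX X : ℝ) / ((WX X).totient : ℝ)) ^ 2 *
          (((Sa (WX X) S a).card : ℝ) ^ 2 + (X / (Real.log X) ^ K) ^ 2) := by
  obtain ⟨A1, hA1⟩ := fourier_lam (K + 2)
  obtain ⟨C, hC0, hC⟩ := hA1 (A1 + 3)
  set ε' : ℝ := min 1 (ε / 200) with hε'
  have hε'0 : 0 < ε' := by rw [hε']; exact lt_min one_pos (by linarith)
  have hε'1 : ε' ≤ 1 := min_le_left _ _
  have hε'2 : ε' ≤ ε / 200 := min_le_right _ _
  set lm : ℝ := (K + 1) / ε' with hlm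
  have hlme : lm * ε' = K + 1 := by rw [hlm]; field_simp
  have hlm1 : 1 ≤ lm := by
    rw [hlm, le_div_iff₀ hε'0]
    have : (0 : ℝ) ≤ K := Nat.cast_nonneg K
    linarith
  set δ : ℝ := ε / 100 with hδ
  have hδ0 : 0 < δ := by rw [hδ]; linarith
  set D0 : ℝ := Real.exp (lm * Real.exp lm + ε' + (K + 1)) with hD0
  have hD00 : 0 < D0 := Real.exp_pos _
  have hexp : ∀ x : ℝ, 0 ≤ x → x ≤ 1 → x ≤ ε / 200 → Real.exp x - 1 ≤ δ := by
    intro x hx0 hx1 hx2
    have h := Real.abs_exp_sub_one_le (x := x) (by rw [abs_of_nonneg hx0]; exact hx1)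
    rw [abs_of_nonneg hx0] at h
    have := le_abs_self (Real.exp x - 1)
    rw [hδ]
    linarith
  have hev : ∀ᶠ X : ℕ in Filter.atTop, 2 ≤ X ∧ 1 ≤ Real.log (X : ℝ) ∧
      (4 ≤ wX X ∧ 400 / ε ≤ (wX X : ℝ)) ∧
      120 * C ^ 2 / ε ≤ Real.log (X : ℝ) ∧ 2 * D0 / δ ≤ Real.log (X : ℝ) ∧
      60 / ε * (Real.log (X : ℝ)) ^ (2 * K + 6) ≤ X ∧
      2 ^ A1 / δ * (Real.log (X : ℝ)) ^ (A1 + 2 * K) ≤ X ∧
      16 ^ A1 / δ * (Real.log (X : ℝ)) ^ (4 * A1 + 2) ≤ X ∧
      1 * (Real.log (X : ℝ)) ^ 2 ≤ X := by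
    filter_upwards [Filter.eventually_ge_atTop 2, ev_log 1, ev_w 4, ev_w ⌈400 / ε⌉₊,
      ev_log (120 * C ^ 2 / ε), ev_log (2 * D0 / δ), ev_pow (60 / ε) (2 * K + 6),
      ev_pow (2 ^ A1 / δ) (A1 + 2 * K), ev_pow (16 ^ A1 / δ) (4 * A1 + 2), ev_pow 1 2]
      with X h1 h2 h3 h4 h5 h6 h7 h8 h9 h10
    exact ⟨h1, h2, ⟨h3, (Nat.le_ceil _).trans (by exact_mod_cast h4)⟩, h5, h6, h7, h8, h9, h10⟩
  obtain ⟨X₀, hX₀⟩ := Filter.eventually_atTop.mp hev
  refine ⟨X₀, fun X hX S hS a => ?_⟩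
  obtain ⟨hX2, hL1, ⟨hw4, hw400⟩, hLC, hLD, hP1, hP2, hP3, hP4⟩ := hX₀ X hX
  set L : ℝ := Real.log (X : ℝ) with hL
  have hL0 : 0 < L := by linarith
  set W : ℕ := WX X with hWdef
  have hWsq : Squarefree W := WX_squarefree _
  have hW1 : 1 ≤ W := Nat.one_le_iff_ne_zero.mpr hWsq.ne_zero
  have hWR : (0 : ℝ) < W := by exact_mod_cast hW1
  have hWL : (W : ℝ) ≤ L ^ 2 := WX_le X hL1
  have hXpos : 0 < X := by omega
  have hXR : (0 : ℝ) < X := by exact_mod_cast hXpos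
  have hWX : W ≤ X := by
    have : (W : ℝ) ≤ X := by linarith
    exact_mod_cast this
  set w : ℕ := wX X with hw
  have hwL : (w : ℝ) ≤ L := wX_le X hL1
  have hw0 : (4 : ℝ) ≤ w := by exact_mod_cast hw4
  have h2w : 2 / (w : ℝ) ≤ 1 / 2 := by
    rw [div_le_iff₀ (by linarith)]; linarith
  have h2w' : 2 / (w : ℝ) ≤ ε / 200 := by
    rw [div_le_iff₀ (by linarith)]
    have h := mul_le_mul_of_nonneg_left hw400 hε.le
    have e : ε * (400 / ε) = 400 := by field_simp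
    rw [e] at h
    linarith
  have h2w0 : 0 ≤ 2 / (w : ℝ) := by positivity
  have hexp2 : Real.exp (2 / (w : ℝ)) ≤ 2 := by
    have h := Real.abs_exp_sub_one_le (x := 2 / (w : ℝ)) (by
      rw [abs_of_nonneg h2w0]; linarith)
    rw [abs_of_nonneg h2w0] at h
    have := le_abs_self (Real.exp (2 / (w : ℝ)) - 1)
    linarith
  -- the moduli
  set Q : ℕ := ⌊(Real.log ((2 * X : ℕ) : ℝ)) ^ A1⌋₊ with hQ
  have hl2X : L ≤ Real.log ((2 * X : ℕ) : ℝ) := by
    rw [hL]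
    apply Real.log_le_log hXR
    push_cast
    linarith
  have hl2X' : Real.log ((2 * X : ℕ) : ℝ) ≤ 2 * L := by
    have h2X : (2 : ℝ) ≤ X := by exact_mod_cast hX2
    have h := Real.log_le_log (show (0 : ℝ) < ((2 * X : ℕ) : ℝ) by push_cast; positivity)
      (show ((2 * X : ℕ) : ℝ) ≤ (X : ℝ) ^ 2 by
        push_cast; rw [sq]; exact mul_le_mul_of_nonneg_right h2X hXR.le)
    rw [Real.log_pow] at h
    simpa [hL] using h
  have hQle : (Q : ℝ) ≤ (Real.log ((2 * X : ℕ) : ℝ)) ^ A1 := Nat.floor_le (by positivity)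
  have hQle' : (Q : ℝ) ≤ (2 * L) ^ A1 :=
    hQle.trans (pow_le_pow_left₀ (by linarith) hl2X' _)
  have hQ1 : 1 ≤ Q := by
    rw [hQ]
    apply Nat.le_floor
    rw [Nat.cast_one]
    exact one_le_pow₀ (by linarith)
  set S' : Finset ℕ := Sa W S a with hS'
  have hS'S : S' ⊆ Icc 1 X := by
    intro s hs
    rw [hS', mem_Sa] at hs
    exact hS hs.1
  set n : ℝ := (S'.card : ℝ) with hn
  have hn0 : 0 ≤ n := Nat.cast_nonneg _
  have hnX : n ≤ X := by
    rw [hn]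
    have := Finset.card_le_card hS'S
    rw [Nat.card_Icc] at this
    have : S'.card ≤ X := by omega
    exact_mod_cast this
  -- Fourier
  have hF := hC (2 * X) (by omega) (QsOf W (Q2Of W Q)) (by
      intro q hq
      obtain ⟨h1, h2⟩ := mem_QsOf_bound hWsq hq hQ1
      refine ⟨h1, ?_⟩
      have h3 : (q : ℝ) ≤ W * Q := by exact_mod_cast h2
      refine h3.trans ?_
      have h4 : (W : ℝ) ≤ (Real.log ((2 * X : ℕ) : ℝ)) ^ 3 := by
        refine hWL.trans ?_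
        refine (pow_le_pow_left₀ hL0.le hl2X 2).trans ?_
        exact pow_le_pow_right₀ (by linarith) (by norm_num)
      calc (W : ℝ) * Q ≤ (Real.log ((2 * X : ℕ) : ℝ)) ^ 3 * (Real.log ((2 * X : ℕ) : ℝ)) ^ A1 :=
            mul_le_mul h4 hQle (Nat.cast_nonneg _) (by positivity)
        _ = (Real.log ((2 * X : ℕ) : ℝ)) ^ (A1 + 3) := by rw [← pow_add, add_comm])
    (by
      intro q hq hqQ
      exact mem_QsOf_of hWsq.ne_zero hq (Nat.le_floor hqQ)) (2 * X) le_rfl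
  set c : ℝ := (W : ℝ) / (W.totient : ℝ) with hc
  have hc1 : 1 ≤ c := by
    rw [hc, le_div_iff₀ (by exact_mod_cast Nat.totient_pos.mpr hW1), one_mul]
    exact_mod_cast Nat.totient_le W
  -- split
  set F := (Icc 1 (2 * X)).filter (fun N => N ≡ a [MOD W]) with hFdef
  set E1 : ℕ → ℝ := fun N => ∑ s ∈ (S \ S').filter (fun s => s < N), lam (N - s) with hE1
  set E2 : ℕ → ℝ := fun N => ∑ s ∈ S'.filter (fun s => s < N),
        (if 1 ≤ N - s ∧ N - s ≤ 2 * X then lam (N - s) - LQ (QsOf W (Q2Of W Q)) ((N - s : ℕ) : ℤ)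
          else 0) with hE2
  set G : ℕ → ℝ := fun N => ∑ s ∈ S'.filter (fun s => s < N),
        ∑ q ∈ Q2Of W Q, gq q ((N : ℤ) - s) with hG
  have hsplit : ∑ N ∈ F, (rS S N - c * (SN W S N).card) ^ 2 ≤
      3 * ∑ N ∈ F, (E1 N) ^ 2 + 3 * ∑ N ∈ F, (E2 N) ^ 2 + 3 * (c ^ 2 * ∑ N ∈ F, (G N) ^ 2) := by
    rw [Finset.mul_sum, Finset.mul_sum, Finset.mul_sum, Finset.mul_sum, ← Finset.sum_add_distrib,
      ← Finset.sum_add_distrib]
    apply Finset.sum_le_sum
    intro N hN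
    rw [hFdef, Finset.mem_filter, Finset.mem_Icc] at hN
    have hd := decomp W N a Q X hWsq hN.2 hN.1.2 S
    rw [hd]
    have e : ∑ s ∈ (S \ Sa W S a).filter (fun s => s < N), lam (N - s) +
      ∑ s ∈ (Sa W S a).filter (fun s => s < N),
        (if 1 ≤ N - s ∧ N - s ≤ 2 * X then lam (N - s) - LQ (QsOf W (Q2Of W Q)) ((N - s : ℕ) : ℤ)
          else 0) +
      (W : ℝ) / (W.totient : ℝ) * ∑ s ∈ (Sa W S a).filter (fun s => s < N),
        ∑ q ∈ Q2Of W Q, gq q ((N : ℤ) - s) = E1 N + E2 N + c * G N := rfl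
    rw [e]
    refine (three_sq (E1 N) (E2 N) (c * G N)).trans (le_of_eq ?_)
    rw [mul_pow]
  have hB1 : ∑ N ∈ F, (E1 N) ^ 2 ≤ 2 * X * L ^ 4 := by
    have e1 : ∀ N ∈ F, (E1 N) ^ 2 ≤ L ^ 4 := by
      intro N hN
      rw [hFdef, Finset.mem_filter] at hN
      obtain ⟨h1, h2⟩ := E1_bound w N a hN.2 S
      have h3 : E1 N ≤ L ^ 2 := h2.trans (pow_le_pow_left₀ (Nat.cast_nonneg _) hwL 2)
      have h4 : 0 ≤ E1 N := h1
      calc (E1 N) ^ 2 ≤ (L ^ 2) ^ 2 := pow_le_pow_left₀ h4 h3 2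
        _ = L ^ 4 := by ring
    refine (Finset.sum_le_sum e1).trans ?_
    rw [Finset.sum_const, nsmul_eq_mul]
    apply mul_le_mul_of_nonneg_right _ (by positivity)
    have : F.card ≤ 2 * X := by
      refine (Finset.card_filter_le _ _).trans ?_
      rw [Nat.card_Icc]; omega
    exact_mod_cast this
  have hB2 : ∑ N ∈ F, (E2 N) ^ 2 ≤ (C * (2 * X) / L ^ (K + 2)) ^ 2 * X := by
    have h := E2_bound X S' hS'S (QsOf W (Q2Of W Q)) (C * ((2 * X : ℕ) : ℝ) /
      (Real.log ((2 * X : ℕ) : ℝ)) ^ (K + 2)) hF (fun N => N ≡ a [MOD W])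
    refine h.trans ?_
    apply mul_le_mul _ hnX hn0 (by positivity)
    apply pow_le_pow_left₀ (by positivity)
    push_cast
    apply div_le_div_of_nonneg_left (by positivity) (by positivity)
    apply pow_le_pow_left₀ hL0.le
    have := hl2X
    push_cast at this
    exact this
  have hB3 := E3_bound w X Q W a (by omega) rfl hWX S' hS'S lm ε' δ hlm1 hε'0
    (hexp ε' hε'0.le hε'1 hε'2) (hexp _ h2w0 (by linarith) h2w') hexp2
    (D0 / L ^ (K + 1)) (D_bound X K ε' lm hL1 hlme)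
  -- the final inequality
  set P : ℝ := (X : ℝ) / L ^ K with hP
  have hLK : 0 < L ^ K := by positivity
  have hP0 : 0 < P := by rw [hP]; positivity
  have hPX : P ^ 2 * L ^ (2 * K) = (X : ℝ) ^ 2 := by
    rw [hP, div_pow, ← pow_mul, mul_comm K 2]
    field_simp
  have hXW : (X : ℝ) ≤ (X : ℝ) / W * L ^ 2 := by
    rw [div_mul_eq_mul_div, le_div_iff₀ hWR]
    exact mul_le_mul_of_nonneg_left hWL hXR.le
  have hXW0 : 0 < (X : ℝ) / W := by positivity
  have hT : (X : ℝ) ^ 3 ≤ ((X : ℝ) / W * P ^ 2) * L ^ (2 * K + 2) := by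
    have e : ((X : ℝ) / W * P ^ 2) * L ^ (2 * K + 2) = ((X : ℝ) / W * L ^ 2) * (P ^ 2 * L ^ (2 * K)) := by
      ring
    rw [e, hPX]
    calc (X : ℝ) ^ 3 = X * (X : ℝ) ^ 2 := by ring
      _ ≤ _ := mul_le_mul_of_nonneg_right hXW (by positivity)
  -- E1
  have hI1 : 3 * ∑ N ∈ F, (E1 N) ^ 2 ≤ ε / 10 * ((X : ℝ) / W * P ^ 2) := by
    have h1 : 60 * L ^ (2 * K + 6) ≤ ε * X := by
      have h := mul_le_mul_of_nonneg_left hP1 hε.le
      have e : ε * (60 / ε * L ^ (2 * K + 6)) = 60 * L ^ (2 * K + 6) := by field_simp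
      rwa [e] at h
    have h2 : (1 : ℝ) ≤ X := by exact_mod_cast hXpos
    have h3 : 6 * X * L ^ 4 * L ^ (2 * K + 2) ≤ ε / 10 * ((X : ℝ) / W * P ^ 2) * L ^ (2 * K + 2) := by
      have e1 : 6 * (X : ℝ) * L ^ 4 * L ^ (2 * K + 2) = 1 / 10 * (60 * L ^ (2 * K + 6)) * X := by
        ring
      rw [e1]
      calc 1 / 10 * (60 * L ^ (2 * K + 6)) * X ≤ 1 / 10 * (ε * X) * X := by
            apply mul_le_mul_of_nonneg_right _ hXR.le
            linarith
        _ = ε / 10 * ((X : ℝ) ^ 2 * 1) := by ring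
        _ ≤ ε / 10 * ((X : ℝ) ^ 2 * X) := by
            apply mul_le_mul_of_nonneg_left _ (by positivity)
            exact mul_le_mul_of_nonneg_left h2 (by positivity)
        _ = ε / 10 * (X : ℝ) ^ 3 := by ring
        _ ≤ ε / 10 * (((X : ℝ) / W * P ^ 2) * L ^ (2 * K + 2)) :=
            mul_le_mul_of_nonneg_left hT (by positivity)
        _ = _ := by ring
    have h4 := le_of_mul_le_mul_right h3 (by positivity : 0 < L ^ (2 * K + 2))
    linarith
  -- E2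
  have hI2 : 3 * ∑ N ∈ F, (E2 N) ^ 2 ≤ ε / 10 * ((X : ℝ) / W * P ^ 2) := by
    have h1 : 120 * C ^ 2 ≤ ε * L := by
      have h := mul_le_mul_of_nonneg_left hLC hε.le
      have e : ε * (120 * C ^ 2 / ε) = 120 * C ^ 2 := by field_simp
      rwa [e] at h
    have h2 : 120 * C ^ 2 ≤ ε * L ^ 2 := by
      have : ε * L ≤ ε * L ^ 2 := by
        apply mul_le_mul_of_nonneg_left _ hε.le
        have := mul_le_mul_of_nonneg_left hL1 hL0.le
        rw [sq]
        linarith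
      linarith
    have h3 : 3 * ((C * (2 * X) / L ^ (K + 2)) ^ 2 * X) * L ^ (2 * K + 4) ≤
        ε / 10 * ((X : ℝ) / W * P ^ 2) * L ^ (2 * K + 4) := by
      have e1 : 3 * ((C * (2 * X) / L ^ (K + 2)) ^ 2 * X) * L ^ (2 * K + 4) =
          1 / 10 * (120 * C ^ 2) * (X : ℝ) ^ 3 := by
        have : L ^ (2 * K + 4) = (L ^ (K + 2)) ^ 2 := by rw [← pow_mul]; congr 1; ring
        rw [this]
        have h0 : L ^ (K + 2) ≠ 0 := by positivity
        field_simp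
        ring
      rw [e1]
      calc 1 / 10 * (120 * C ^ 2) * (X : ℝ) ^ 3 ≤ 1 / 10 * (ε * L ^ 2) * (X : ℝ) ^ 3 := by
            apply mul_le_mul_of_nonneg_right _ (by positivity)
            linarith
        _ = ε / 10 * L ^ 2 * (X : ℝ) ^ 3 := by ring
        _ ≤ ε / 10 * L ^ 2 * (((X : ℝ) / W * P ^ 2) * L ^ (2 * K + 2)) :=
            mul_le_mul_of_nonneg_left hT (by positivity)
        _ = _ := by ring
    have h4 := le_of_mul_le_mul_right h3 (by positivity : 0 < L ^ (2 * K + 4))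
    linarith
  -- E3
  have hI3 : ∑ N ∈ F, (G N) ^ 2 ≤ 13 * δ * ((X : ℝ) / W * (n ^ 2 + P ^ 2)) := by
    refine hB3.trans ?_
    have hQn : (Q : ℝ) * n ≤ δ * P ^ 2 := by
      have h1 : 2 ^ A1 * L ^ (A1 + 2 * K) ≤ δ * X := by
        have h := mul_le_mul_of_nonneg_left hP2 hδ0.le
        have e : δ * (2 ^ A1 / δ * L ^ (A1 + 2 * K)) = 2 ^ A1 * L ^ (A1 + 2 * K) := by field_simp
        rwa [e] at h
      have h2 : (Q : ℝ) * n * L ^ (2 * K) ≤ δ * P ^ 2 * L ^ (2 * K) := by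
        rw [mul_assoc δ, hPX]
        calc (Q : ℝ) * n * L ^ (2 * K) ≤ (2 * L) ^ A1 * X * L ^ (2 * K) := by
              apply mul_le_mul_of_nonneg_right _ (by positivity)
              exact mul_le_mul hQle' hnX hn0 (by positivity)
          _ = 2 ^ A1 * L ^ (A1 + 2 * K) * X := by rw [mul_pow, pow_add]; ring
          _ ≤ δ * X * X := mul_le_mul_of_nonneg_right h1 hXR.le
          _ = _ := by ring
      exact le_of_mul_le_mul_right h2 (by positivity)
    have hcoll : 4 * n * X * (D0 / L ^ (K + 1)) ≤ δ * (n ^ 2 + P ^ 2) := by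
      have h1 : 2 * D0 ≤ δ * L := by
        have h := mul_le_mul_of_nonneg_left hLD hδ0.le
        have e : δ * (2 * D0 / δ) = 2 * D0 := by field_simp
        rwa [e] at h
      have e1 : 4 * n * X * (D0 / L ^ (K + 1)) = 2 * (n * P) * (2 * D0 / L) := by
        rw [hP, pow_succ]
        field_simp
        ring
      have h2 : 2 * D0 / L ≤ δ := by rw [div_le_iff₀ hL0]; exact h1
      rw [e1]
      calc 2 * (n * P) * (2 * D0 / L) ≤ 2 * (n * P) * δ :=
            mul_le_mul_of_nonneg_left h2 (by positivity)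
        _ ≤ δ * (n ^ 2 + P ^ 2) := two_mul_le_sq' n P δ hδ0.le
    have hQ4 : (Q : ℝ) ^ 4 * n ^ 2 ≤ δ * ((X : ℝ) / W * n ^ 2) := by
      have h1 : 16 ^ A1 * L ^ (4 * A1 + 2) ≤ δ * X := by
        have h := mul_le_mul_of_nonneg_left hP3 hδ0.le
        have e : δ * (16 ^ A1 / δ * L ^ (4 * A1 + 2)) = 16 ^ A1 * L ^ (4 * A1 + 2) := by field_simp
        rwa [e] at h
      have h2 : (Q : ℝ) ^ 4 * W ≤ δ * X := by
        calc (Q : ℝ) ^ 4 * W ≤ ((2 * L) ^ A1) ^ 4 * L ^ 2 := by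
              apply mul_le_mul (pow_le_pow_left₀ (Nat.cast_nonneg _) hQle' 4) hWL hWR.le
                (by positivity)
          _ = 16 ^ A1 * L ^ (4 * A1 + 2) := by
              rw [mul_pow, mul_pow, ← pow_mul, ← pow_mul, pow_add, mul_comm A1 4,
                pow_mul (2 : ℝ) 4 A1]
              norm_num
              ring
          _ ≤ δ * X := h1
      have h3 : (Q : ℝ) ^ 4 ≤ δ * ((X : ℝ) / W) := by
        rw [← mul_div_assoc, le_div_iff₀ hWR]
        exact h2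
      calc (Q : ℝ) ^ 4 * n ^ 2 ≤ δ * ((X : ℝ) / W) * n ^ 2 :=
            mul_le_mul_of_nonneg_right h3 (sq_nonneg n)
        _ = _ := by ring
    have h1 : (3 * (X : ℝ) / W) * (Q * n + 3 * δ * n ^ 2 + 4 * n * X * (D0 / L ^ (K + 1))) ≤
        (3 * (X : ℝ) / W) * (δ * P ^ 2 + 3 * δ * n ^ 2 + δ * (n ^ 2 + P ^ 2)) := by
      apply mul_le_mul_of_nonneg_left _ (by positivity)
      linarith
    have h2 : (3 * (X : ℝ) / W) * (δ * P ^ 2 + 3 * δ * n ^ 2 + δ * (n ^ 2 + P ^ 2)) +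
        δ * ((X : ℝ) / W * n ^ 2) ≤ 13 * δ * ((X : ℝ) / W * (n ^ 2 + P ^ 2)) := by
      have e : 13 * δ * ((X : ℝ) / W * (n ^ 2 + P ^ 2)) -
          ((3 * (X : ℝ) / W) * (δ * P ^ 2 + 3 * δ * n ^ 2 + δ * (n ^ 2 + P ^ 2)) +
        δ * ((X : ℝ) / W * n ^ 2)) = 7 * (δ * ((X : ℝ) / W) * P ^ 2) := by ring
      have h0 : 0 ≤ 7 * (δ * ((X : ℝ) / W) * P ^ 2) := by positivity
      linarith
    linarith
  have hc2 : 1 ≤ c ^ 2 := one_le_pow₀ hc1
  have hT0 : 0 ≤ (X : ℝ) / W * P ^ 2 := by positivity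
  have hfin1 : (X : ℝ) / W * P ^ 2 ≤ (X : ℝ) / W * c ^ 2 * (n ^ 2 + P ^ 2) := by
    have h1 : (X : ℝ) / W * P ^ 2 ≤ (X : ℝ) / W * (n ^ 2 + P ^ 2) := by
      apply mul_le_mul_of_nonneg_left _ hXW0.le
      have := sq_nonneg n
      linarith
    have h2 : (X : ℝ) / W * (n ^ 2 + P ^ 2) * 1 ≤ (X : ℝ) / W * (n ^ 2 + P ^ 2) * c ^ 2 :=
      mul_le_mul_of_nonneg_left hc2 (by positivity)
    have e : (X : ℝ) / W * c ^ 2 * (n ^ 2 + P ^ 2) = (X : ℝ) / W * (n ^ 2 + P ^ 2) * c ^ 2 := by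
      ring
    rw [e]
    linarith
  refine hsplit.trans ?_
  have hI3' : 3 * (c ^ 2 * ∑ N ∈ F, (G N) ^ 2) ≤
      39 * δ * ((X : ℝ) / W * c ^ 2 * (n ^ 2 + P ^ 2)) := by
    have h := mul_le_mul_of_nonneg_left hI3 (show 0 ≤ 3 * c ^ 2 by positivity)
    calc 3 * (c ^ 2 * ∑ N ∈ F, (G N) ^ 2) = 3 * c ^ 2 * ∑ N ∈ F, (G N) ^ 2 := by ring
      _ ≤ 3 * c ^ 2 * (13 * δ * ((X : ℝ) / W * (n ^ 2 + P ^ 2))) := h
      _ = _ := by ring
  have hfin2 : ε / 10 * ((X : ℝ) / W * P ^ 2) ≤ ε / 10 * ((X : ℝ) / W * c ^ 2 * (n ^ 2 + P ^ 2)) :=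
    mul_le_mul_of_nonneg_left hfin1 (by positivity)
  have hTT : 0 ≤ ε * ((X : ℝ) / W * c ^ 2 * (n ^ 2 + P ^ 2)) := by positivity
  have e9 : ε * ((X : ℝ) / W) * c ^ 2 * (n ^ 2 + P ^ 2) =
      ε * ((X : ℝ) / W * c ^ 2 * (n ^ 2 + P ^ 2)) := by ring
  rw [e9]
  have e10 : 39 * δ * ((X : ℝ) / W * c ^ 2 * (n ^ 2 + P ^ 2)) =
      39 / 100 * (ε * ((X : ℝ) / W * c ^ 2 * (n ^ 2 + P ^ 2))) := by rw [hδ]; ring
  rw [e10] at hI3'
  linarith

end Pool.Agent.Lib.SW
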