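import Pool.Agent.Lib.SW.SP3

/-!
# SP-4: the sparse local-global second moment with a flexible modulus

`sparse_l2` (SP3) with `W = primorial w` for every `w` with `log log X - 2 ≤ w ≤ log log X + 2`, so that it can be applied
at the scales `X/d` with one and the same `W`.  The proof is the one of SP3.
-/

open Finset Pool.Agent.Lib.GT

namespace Pool.Agent.Lib.SW

/-- the collision term is a power of the logarithm smaller -/
lemma D_bound_w (X K w : ℕ) (ε' lm : ℝ) (hX : 1 ≤ Real.log (X : ℝ)) (hl : lm * ε' = K + 1)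
    (hw : Real.log (Real.log (X : ℝ)) - 2 ≤ w) :
    Real.exp (lm * Real.exp lm - (lm * w - 1) * ε') ≤
      Real.exp (lm * Real.exp lm + ε' + 2 * (K + 1)) / (Real.log X) ^ (K + 1) := by
  have hL : 0 < Real.log (X : ℝ) := by linarith
  have h1 : Real.log (Real.log (X : ℝ)) - 2 ≤ w := hw
  have h2 : (Real.log (X : ℝ)) ^ (K + 1) = Real.exp ((K + 1) * Real.log (Real.log X)) := by
    have : ((K : ℝ) + 1) * Real.log (Real.log X) = ((K + 1 : ℕ) : ℝ) * Real.log (Real.log X) := by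
      push_cast; ring
    rw [this, ← Real.log_pow, Real.exp_log (by positivity)]
  rw [h2, ← Real.exp_sub]
  apply Real.exp_le_exp.mpr
  have h3 : (lm * w - 1) * ε' = (K + 1) * w - ε' := by
    rw [← hl]; ring
  rw [h3]
  have hK : (0 : ℝ) ≤ (K : ℝ) + 1 := by positivity
  nlinarith [mul_le_mul_of_nonneg_left h1 hK]

/-- `sparse_l2` with any modulus `primorial w`, `w` close to `log log X` -/
theorem sparse_l2_gen (K : ℕ) (ε : ℝ) (hε : 0 < ε) :
    ∃ X₀ : ℕ, ∀ X : ℕ, X₀ ≤ X → ∀ w : ℕ, Real.log (Real.log (X : ℝ)) - 2 ≤ w →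
      (w : ℝ) ≤ Real.log (Real.log (X : ℝ)) + 2 → ∀ S : Finset ℕ, S ⊆ Icc 1 X → ∀ a : ℕ,
      ∑ N ∈ (Icc 1 (2 * X)).filter (fun N => N ≡ a [MOD primorial w]),
          (rS S N - (primorial w : ℝ) / ((primorial w).totient : ℝ) *
            (SN (primorial w) S N).card) ^ 2 ≤
        ε * (X / primorial w) * ((primorial w : ℝ) / ((primorial w).totient : ℝ)) ^ 2 *
          (((Sa (primorial w) S a).card : ℝ) ^ 2 + (X / (Real.log X) ^ K) ^ 2) := by
  obtain ⟨A1, hA1⟩ := fourier_lam (K + 2)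
  obtain ⟨C, hC0, hC⟩ := hA1 (A1 + 3)
  set ε' : ℝ := min 1 (ε / 200) with hε'
  have hε'0 : 0 < ε' := by rw [hε']; exact lt_min one_pos (by linarith)
  have hε'1 : ε' ≤ 1 := min_le_left _ _
  have hε'2 : ε' ≤ ε / 200 := min_le_right _ _
  set lm : ℝ := (K + 1) / ε' with hlm
  have hlme : lm * ε' = K + 1 := by rw [hlm]; field_simp
  have hlm1 : 1 ≤ lm := by
    rw [hlm, le_div_iff₀ hε'0]
    have : (0 : ℝ) ≤ K := Nat.cast_nonneg K
    linarith
  set δ : ℝ := ε / 100 with hδ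
  have hδ0 : 0 < δ := by rw [hδ]; linarith
  set D0 : ℝ := Real.exp (lm * Real.exp lm + ε' + 2 * (K + 1)) with hD0
  have hD00 : 0 < D0 := Real.exp_pos _
  have hexp : ∀ x : ℝ, 0 ≤ x → x ≤ 1 → x ≤ ε / 200 → Real.exp x - 1 ≤ δ := by
    intro x hx0 hx1 hx2
    have h := Real.abs_exp_sub_one_le (x := x) (by rw [abs_of_nonneg hx0]; exact hx1)
    rw [abs_of_nonneg hx0] at h
    have := le_abs_self (Real.exp x - 1)
    rw [hδ]
    linarith
  have hev : ∀ᶠ X : ℕ in Filter.atTop, 2 ≤ X ∧ 1 ≤ Real.log (X : ℝ) ∧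
      (6 ≤ wX X ∧ 400 / ε + 2 ≤ (wX X : ℝ)) ∧
      120 * C ^ 2 / ε ≤ Real.log (X : ℝ) ∧ 2 * D0 / δ ≤ Real.log (X : ℝ) ∧
      60 / ε * (Real.log (X : ℝ)) ^ (2 * K + 6) ≤ X ∧
      2 ^ A1 / δ * (Real.log (X : ℝ)) ^ (A1 + 2 * K) ≤ X ∧
      16 ^ A1 / δ * (Real.log (X : ℝ)) ^ (4 * A1 + 2) ≤ X ∧
      1 * (Real.log (X : ℝ)) ^ 2 ≤ X := by
    filter_upwards [Filter.eventually_ge_atTop 2, ev_log 1, ev_w 6, ev_w ⌈400 / ε + 2⌉₊,
      ev_log (120 * C ^ 2 / ε), ev_log (2 * D0 / δ), ev_pow (60 / ε) (2 * K + 6),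
      ev_pow (2 ^ A1 / δ) (A1 + 2 * K), ev_pow (16 ^ A1 / δ) (4 * A1 + 2), ev_pow 1 2]
      with X h1 h2 h3 h4 h5 h6 h7 h8 h9 h10
    exact ⟨h1, h2, ⟨h3, (Nat.le_ceil _).trans (by exact_mod_cast h4)⟩, h5, h6, h7, h8, h9, h10⟩
  obtain ⟨X₀, hX₀⟩ := Filter.eventually_atTop.mp hev
  refine ⟨X₀, fun X hX w hwa hwb S hS a => ?_⟩
  obtain ⟨hX2, hL1, ⟨hw4', hw400'⟩, hLC, hLD, hP1, hP2, hP3, hP4⟩ := hX₀ X hX
  have hwXle : (wX X : ℝ) ≤ Real.log (Real.log (X : ℝ)) := by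
    unfold wX
    exact Nat.floor_le (Real.log_nonneg hL1)
  have hw4R : (4 : ℝ) ≤ w := by
    have : (6 : ℝ) ≤ wX X := by exact_mod_cast hw4'
    linarith
  have hw4 : 4 ≤ w := by exact_mod_cast hw4R
  have hw400 : 400 / ε ≤ (w : ℝ) := by linarith
  set L : ℝ := Real.log (X : ℝ) with hL
  have hL0 : 0 < L := by linarith
  set W : ℕ := primorial w with hWdef
  have hWsq : Squarefree W := WX_squarefree _
  have hW1 : 1 ≤ W := Nat.one_le_iff_ne_zero.mpr hWsq.ne_zero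
  have hWR : (0 : ℝ) < W := by exact_mod_cast hW1
  have hll6 : (6 : ℝ) ≤ Real.log L := by
    have : (6 : ℝ) ≤ wX X := by exact_mod_cast hw4'
    linarith
  have hWL : (W : ℝ) ≤ L ^ 2 := by
    have h2 : (W : ℝ) ≤ (4 : ℝ) ^ w := by
      rw [hWdef]
      exact_mod_cast primorial_le_four_pow w
    have h3 : (4 : ℝ) ≤ Real.exp 1.4 := by
      have e2 : (4 : ℝ) = Real.exp (2 * Real.log 2) := by
        rw [mul_comm, Real.exp_mul, Real.exp_log (by norm_num)]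
        norm_num
      rw [e2]
      apply Real.exp_le_exp.mpr
      have := Real.log_two_lt_d9
      linarith
    calc (W : ℝ) ≤ (4 : ℝ) ^ w := h2
      _ ≤ (Real.exp 1.4) ^ w := pow_le_pow_left₀ (by norm_num) h3 _
      _ = Real.exp (w * 1.4) := by rw [← Real.exp_nat_mul]
      _ ≤ Real.exp (Real.log L * 2) := by
          apply Real.exp_le_exp.mpr
          linarith
      _ = L ^ 2 := by
          rw [mul_comm, ← Real.log_rpow hL0, Real.exp_log (by positivity)]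
          norm_cast
  have hXpos : 0 < X := by omega
  have hXR : (0 : ℝ) < X := by exact_mod_cast hXpos
  have hWX : W ≤ X := by
    have : (W : ℝ) ≤ X := by linarith
    exact_mod_cast this
  have hwL : (w : ℝ) ≤ L := by
    have h1 := Real.quadratic_le_exp_of_nonneg (show (0 : ℝ) ≤ Real.log L by linarith)
    rw [Real.exp_log hL0] at h1
    nlinarith
  have hw0 : (4 : ℝ) ≤ w := by exact_mod_cast hw4
  have h2w : 2 / (w : ℝ) ≤ 1 / 2 := by
    rw [div_le_iff₀ (by linarith)]; linarith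
  have h2w' : 2 / (w : ℝ) ≤ ε / 200 := by
    rw [div_le_iff₀ (by linarith)]
    have h := mul_le_mul_of_nonneg_left hw400 hε.le
    have e : ε * (400 / ε) = 400 := by field_simp
    rw [e] at h
    linarith
  have h2w0 : 0 ≤ 2 / (w : ℝ) := by positivity
  have hexp2 : Real.exp (2 / (w : ℝ)) ≤ 2 := by
    have h := Real.abs_exp_sub_one_le (x := 2 / (w : ℝ)) (by
      rw [abs_of_nonneg h2w0]; linarith)
    rw [abs_of_nonneg h2w0] at h
    have := le_abs_self (Real.exp (2 / (w : ℝ)) - 1)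
    linarith
  -- the moduli
  set Q : ℕ := ⌊(Real.log ((2 * X : ℕ) : ℝ)) ^ A1⌋₊ with hQ
  have hl2X : L ≤ Real.log ((2 * X : ℕ) : ℝ) := by
    rw [hL]
    apply Real.log_le_log hXR
    push_cast
    linarith
  have hl2X' : Real.log ((2 * X : ℕ) : ℝ) ≤ 2 * L := by
    have h2X : (2 : ℝ) ≤ X := by exact_mod_cast hX2
    have h := Real.log_le_log (show (0 : ℝ) < ((2 * X : ℕ) : ℝ) by push_cast; positivity)
      (show ((2 * X : ℕ) : ℝ) ≤ (X : ℝ) ^ 2 by
        push_cast; rw [sq]; exact mul_le_mul_of_nonneg_right h2X hXR.le)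
    rw [Real.log_pow] at h
    simpa [hL] using h
  have hQle : (Q : ℝ) ≤ (Real.log ((2 * X : ℕ) : ℝ)) ^ A1 := Nat.floor_le (by positivity)
  have hQle' : (Q : ℝ) ≤ (2 * L) ^ A1 :=
    hQle.trans (pow_le_pow_left₀ (by linarith) hl2X' _)
  have hQ1 : 1 ≤ Q := by
    rw [hQ]
    apply Nat.le_floor
    rw [Nat.cast_one]
    exact one_le_pow₀ (by linarith)
  set S' : Finset ℕ := Sa W S a with hS'
  have hS'S : S' ⊆ Icc 1 X := by
    intro s hs
    rw [hS', mem_Sa] at hs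
    exact hS hs.1
  set n : ℝ := (S'.card : ℝ) with hn
  have hn0 : 0 ≤ n := Nat.cast_nonneg _
  have hnX : n ≤ X := by
    rw [hn]
    have := Finset.card_le_card hS'S
    rw [Nat.card_Icc] at this
    have : S'.card ≤ X := by omega
    exact_mod_cast this
  -- Fourier
  have hF := hC (2 * X) (by omega) (QsOf W (Q2Of W Q)) (by
      intro q hq
      obtain ⟨h1, h2⟩ := mem_QsOf_bound hWsq hq hQ1
      refine ⟨h1, ?_⟩
      have h3 : (q : ℝ) ≤ W * Q := by exact_mod_cast h2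
      refine h3.trans ?_
      have h4 : (W : ℝ) ≤ (Real.log ((2 * X : ℕ) : ℝ)) ^ 3 := by
        refine hWL.trans ?_
        refine (pow_le_pow_left₀ hL0.le hl2X 2).trans ?_
        exact pow_le_pow_right₀ (by linarith) (by norm_num)
      calc (W : ℝ) * Q ≤ (Real.log ((2 * X : ℕ) : ℝ)) ^ 3 * (Real.log ((2 * X : ℕ) : ℝ)) ^ A1 :=
            mul_le_mul h4 hQle (Nat.cast_nonneg _) (by positivity)
        _ = (Real.log ((2 * X : ℕ) : ℝ)) ^ (A1 + 3) := by rw [← pow_add, add_comm])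
    (by
      intro q hq hqQ
      exact mem_QsOf_of hWsq.ne_zero hq (Nat.le_floor hqQ)) (2 * X) le_rfl
  set c : ℝ := (W : ℝ) / (W.totient : ℝ) with hc
  have hc1 : 1 ≤ c := by
    rw [hc, le_div_iff₀ (by exact_mod_cast Nat.totient_pos.mpr hW1), one_mul]
    exact_mod_cast Nat.totient_le W
  -- split
  set F := (Icc 1 (2 * X)).filter (fun N => N ≡ a [MOD W]) with hFdef
  set E1 : ℕ → ℝ := fun N => ∑ s ∈ (S \ S').filter (fun s => s < N), lam (N - s) with hE1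
  set E2 : ℕ → ℝ := fun N => ∑ s ∈ S'.filter (fun s => s < N),
        (if 1 ≤ N - s ∧ N - s ≤ 2 * X then lam (N - s) - LQ (QsOf W (Q2Of W Q)) ((N - s : ℕ) : ℤ)
          else 0) with hE2
  set G : ℕ → ℝ := fun N => ∑ s ∈ S'.filter (fun s => s < N),
        ∑ q ∈ Q2Of W Q, gq q ((N : ℤ) - s) with hG
  have hsplit : ∑ N ∈ F, (rS S N - c * (SN W S N).card) ^ 2 ≤
      3 * ∑ N ∈ F, (E1 N) ^ 2 + 3 * ∑ N ∈ F, (E2 N) ^ 2 + 3 * (c ^ 2 * ∑ N ∈ F, (G N) ^ 2) := by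
    rw [Finset.mul_sum, Finset.mul_sum, Finset.mul_sum, Finset.mul_sum, ← Finset.sum_add_distrib,
      ← Finset.sum_add_distrib]
    apply Finset.sum_le_sum
    intro N hN
    rw [hFdef, Finset.mem_filter, Finset.mem_Icc] at hN
    have hd := decomp W N a Q X hWsq hN.2 hN.1.2 S
    rw [hd]
    have e : ∑ s ∈ (S \ Sa W S a).filter (fun s => s < N), lam (N - s) +
      ∑ s ∈ (Sa W S a).filter (fun s => s < N),
        (if 1 ≤ N - s ∧ N - s ≤ 2 * X then lam (N - s) - LQ (QsOf W (Q2Of W Q)) ((N - s : ℕ) : ℤ)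
          else 0) +
      (W : ℝ) / (W.totient : ℝ) * ∑ s ∈ (Sa W S a).filter (fun s => s < N),
        ∑ q ∈ Q2Of W Q, gq q ((N : ℤ) - s) = E1 N + E2 N + c * G N := rfl
    rw [e]
    refine (three_sq (E1 N) (E2 N) (c * G N)).trans (le_of_eq ?_)
    rw [mul_pow]
  have hB1 : ∑ N ∈ F, (E1 N) ^ 2 ≤ 2 * X * L ^ 4 := by
    have e1 : ∀ N ∈ F, (E1 N) ^ 2 ≤ L ^ 4 := by
      intro N hN
      rw [hFdef, Finset.mem_filter] at hN
      obtain ⟨h1, h2⟩ := E1_bound w N a hN.2 S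
      have h3 : E1 N ≤ L ^ 2 := h2.trans (pow_le_pow_left₀ (Nat.cast_nonneg _) hwL 2)
      have h4 : 0 ≤ E1 N := h1
      calc (E1 N) ^ 2 ≤ (L ^ 2) ^ 2 := pow_le_pow_left₀ h4 h3 2
        _ = L ^ 4 := by ring
    refine (Finset.sum_le_sum e1).trans ?_
    rw [Finset.sum_const, nsmul_eq_mul]
    apply mul_le_mul_of_nonneg_right _ (by positivity)
    have : F.card ≤ 2 * X := by
      refine (Finset.card_filter_le _ _).trans ?_
      rw [Nat.card_Icc]; omega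
    exact_mod_cast this
  have hB2 : ∑ N ∈ F, (E2 N) ^ 2 ≤ (C * (2 * X) / L ^ (K + 2)) ^ 2 * X := by
    have h := E2_bound X S' hS'S (QsOf W (Q2Of W Q)) (C * ((2 * X : ℕ) : ℝ) /
      (Real.log ((2 * X : ℕ) : ℝ)) ^ (K + 2)) hF (fun N => N ≡ a [MOD W])
    refine h.trans ?_
    apply mul_le_mul _ hnX hn0 (by positivity)
    apply pow_le_pow_left₀ (by positivity)
    push_cast
    apply div_le_div_of_nonneg_left (by positivity) (by positivity)
    apply pow_le_pow_left₀ hL0.le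
    have := hl2X
    push_cast at this
    exact this
  have hB3 := E3_bound w X Q W a (by omega) rfl hWX S' hS'S lm ε' δ hlm1 hε'0
    (hexp ε' hε'0.le hε'1 hε'2) (hexp _ h2w0 (by linarith) h2w') hexp2
    (D0 / L ^ (K + 1)) (D_bound_w X K w ε' lm hL1 hlme hwa)
  -- the final inequality
  set P : ℝ := (X : ℝ) / L ^ K with hP
  have hLK : 0 < L ^ K := by positivity
  have hP0 : 0 < P := by rw [hP]; positivity
  have hPX : P ^ 2 * L ^ (2 * K) = (X : ℝ) ^ 2 := by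
    rw [hP, div_pow, ← pow_mul, mul_comm K 2]
    field_simp
  have hXW : (X : ℝ) ≤ (X : ℝ) / W * L ^ 2 := by
    rw [div_mul_eq_mul_div, le_div_iff₀ hWR]
    exact mul_le_mul_of_nonneg_left hWL hXR.le
  have hXW0 : 0 < (X : ℝ) / W := by positivity
  have hT : (X : ℝ) ^ 3 ≤ ((X : ℝ) / W * P ^ 2) * L ^ (2 * K + 2) := by
    have e : ((X : ℝ) / W * P ^ 2) * L ^ (2 * K + 2) = ((X : ℝ) / W * L ^ 2) * (P ^ 2 * L ^ (2 * K)) := by
      ring
    rw [e, hPX]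
    calc (X : ℝ) ^ 3 = X * (X : ℝ) ^ 2 := by ring
      _ ≤ _ := mul_le_mul_of_nonneg_right hXW (by positivity)
  -- E1
  have hI1 : 3 * ∑ N ∈ F, (E1 N) ^ 2 ≤ ε / 10 * ((X : ℝ) / W * P ^ 2) := by
    have h1 : 60 * L ^ (2 * K + 6) ≤ ε * X := by
      have h := mul_le_mul_of_nonneg_left hP1 hε.le
      have e : ε * (60 / ε * L ^ (2 * K + 6)) = 60 * L ^ (2 * K + 6) := by field_simp
      rwa [e] at h
    have h2 : (1 : ℝ) ≤ X := by exact_mod_cast hXpos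
    have h3 : 6 * X * L ^ 4 * L ^ (2 * K + 2) ≤ ε / 10 * ((X : ℝ) / W * P ^ 2) * L ^ (2 * K + 2) := by
      have e1 : 6 * (X : ℝ) * L ^ 4 * L ^ (2 * K + 2) = 1 / 10 * (60 * L ^ (2 * K + 6)) * X := by
        ring
      rw [e1]
      calc 1 / 10 * (60 * L ^ (2 * K + 6)) * X ≤ 1 / 10 * (ε * X) * X := by
            apply mul_le_mul_of_nonneg_right _ hXR.le
            linarith
        _ = ε / 10 * ((X : ℝ) ^ 2 * 1) := by ring
        _ ≤ ε / 10 * ((X : ℝ) ^ 2 * X) := by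
            apply mul_le_mul_of_nonneg_left _ (by positivity)
            exact mul_le_mul_of_nonneg_left h2 (by positivity)
        _ = ε / 10 * (X : ℝ) ^ 3 := by ring
        _ ≤ ε / 10 * (((X : ℝ) / W * P ^ 2) * L ^ (2 * K + 2)) :=
            mul_le_mul_of_nonneg_left hT (by positivity)
        _ = _ := by ring
    have h4 := le_of_mul_le_mul_right h3 (by positivity : 0 < L ^ (2 * K + 2))
    linarith
  -- E2
  have hI2 : 3 * ∑ N ∈ F, (E2 N) ^ 2 ≤ ε / 10 * ((X : ℝ) / W * P ^ 2) := by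
    have h1 : 120 * C ^ 2 ≤ ε * L := by
      have h := mul_le_mul_of_nonneg_left hLC hε.le
      have e : ε * (120 * C ^ 2 / ε) = 120 * C ^ 2 := by field_simp
      rwa [e] at h
    have h2 : 120 * C ^ 2 ≤ ε * L ^ 2 := by
      have : ε * L ≤ ε * L ^ 2 := by
        apply mul_le_mul_of_nonneg_left _ hε.le
        have := mul_le_mul_of_nonneg_left hL1 hL0.le
        rw [sq]
        linarith
      linarith
    have h3 : 3 * ((C * (2 * X) / L ^ (K + 2)) ^ 2 * X) * L ^ (2 * K + 4) ≤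
        ε / 10 * ((X : ℝ) / W * P ^ 2) * L ^ (2 * K + 4) := by
      have e1 : 3 * ((C * (2 * X) / L ^ (K + 2)) ^ 2 * X) * L ^ (2 * K + 4) =
          1 / 10 * (120 * C ^ 2) * (X : ℝ) ^ 3 := by
        have : L ^ (2 * K + 4) = (L ^ (K + 2)) ^ 2 := by rw [← pow_mul]; congr 1; ring
        rw [this]
        have h0 : L ^ (K + 2) ≠ 0 := by positivity
        field_simp
        ring
      rw [e1]
      calc 1 / 10 * (120 * C ^ 2) * (X : ℝ) ^ 3 ≤ 1 / 10 * (ε * L ^ 2) * (X : ℝ) ^ 3 := by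
            apply mul_le_mul_of_nonneg_right _ (by positivity)
            linarith
        _ = ε / 10 * L ^ 2 * (X : ℝ) ^ 3 := by ring
        _ ≤ ε / 10 * L ^ 2 * (((X : ℝ) / W * P ^ 2) * L ^ (2 * K + 2)) :=
            mul_le_mul_of_nonneg_left hT (by positivity)
        _ = _ := by ring
    have h4 := le_of_mul_le_mul_right h3 (by positivity : 0 < L ^ (2 * K + 4))
    linarith
  -- E3
  have hI3 : ∑ N ∈ F, (G N) ^ 2 ≤ 13 * δ * ((X : ℝ) / W * (n ^ 2 + P ^ 2)) := by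
    refine hB3.trans ?_
    have hQn : (Q : ℝ) * n ≤ δ * P ^ 2 := by
      have h1 : 2 ^ A1 * L ^ (A1 + 2 * K) ≤ δ * X := by
        have h := mul_le_mul_of_nonneg_left hP2 hδ0.le
        have e : δ * (2 ^ A1 / δ * L ^ (A1 + 2 * K)) = 2 ^ A1 * L ^ (A1 + 2 * K) := by field_simp
        rwa [e] at h
      have h2 : (Q : ℝ) * n * L ^ (2 * K) ≤ δ * P ^ 2 * L ^ (2 * K) := by
        rw [mul_assoc δ, hPX]
        calc (Q : ℝ) * n * L ^ (2 * K) ≤ (2 * L) ^ A1 * X * L ^ (2 * K) := by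
              apply mul_le_mul_of_nonneg_right _ (by positivity)
              exact mul_le_mul hQle' hnX hn0 (by positivity)
          _ = 2 ^ A1 * L ^ (A1 + 2 * K) * X := by rw [mul_pow, pow_add]; ring
          _ ≤ δ * X * X := mul_le_mul_of_nonneg_right h1 hXR.le
          _ = _ := by ring
      exact le_of_mul_le_mul_right h2 (by positivity)
    have hcoll : 4 * n * X * (D0 / L ^ (K + 1)) ≤ δ * (n ^ 2 + P ^ 2) := by
      have h1 : 2 * D0 ≤ δ * L := by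
        have h := mul_le_mul_of_nonneg_left hLD hδ0.le
        have e : δ * (2 * D0 / δ) = 2 * D0 := by field_simp
        rwa [e] at h
      have e1 : 4 * n * X * (D0 / L ^ (K + 1)) = 2 * (n * P) * (2 * D0 / L) := by
        rw [hP, pow_succ]
        field_simp
        ring
      have h2 : 2 * D0 / L ≤ δ := by rw [div_le_iff₀ hL0]; exact h1
      rw [e1]
      calc 2 * (n * P) * (2 * D0 / L) ≤ 2 * (n * P) * δ :=
            mul_le_mul_of_nonneg_left h2 (by positivity)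
        _ ≤ δ * (n ^ 2 + P ^ 2) := two_mul_le_sq' n P δ hδ0.le
    have hQ4 : (Q : ℝ) ^ 4 * n ^ 2 ≤ δ * ((X : ℝ) / W * n ^ 2) := by
      have h1 : 16 ^ A1 * L ^ (4 * A1 + 2) ≤ δ * X := by
        have h := mul_le_mul_of_nonneg_left hP3 hδ0.le
        have e : δ * (16 ^ A1 / δ * L ^ (4 * A1 + 2)) = 16 ^ A1 * L ^ (4 * A1 + 2) := by field_simp
        rwa [e] at h
      have h2 : (Q : ℝ) ^ 4 * W ≤ δ * X := by
        calc (Q : ℝ) ^ 4 * W ≤ ((2 * L) ^ A1) ^ 4 * L ^ 2 := by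
              apply mul_le_mul (pow_le_pow_left₀ (Nat.cast_nonneg _) hQle' 4) hWL hWR.le
                (by positivity)
          _ = 16 ^ A1 * L ^ (4 * A1 + 2) := by
              rw [mul_pow, mul_pow, ← pow_mul, ← pow_mul, pow_add, mul_comm A1 4,
                pow_mul (2 : ℝ) 4 A1]
              norm_num
              ring
          _ ≤ δ * X := h1
      have h3 : (Q : ℝ) ^ 4 ≤ δ * ((X : ℝ) / W) := by
        rw [← mul_div_assoc, le_div_iff₀ hWR]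
        exact h2
      calc (Q : ℝ) ^ 4 * n ^ 2 ≤ δ * ((X : ℝ) / W) * n ^ 2 :=
            mul_le_mul_of_nonneg_right h3 (sq_nonneg n)
        _ = _ := by ring
    have h1 : (3 * (X : ℝ) / W) * (Q * n + 3 * δ * n ^ 2 + 4 * n * X * (D0 / L ^ (K + 1))) ≤
        (3 * (X : ℝ) / W) * (δ * P ^ 2 + 3 * δ * n ^ 2 + δ * (n ^ 2 + P ^ 2)) := by
      apply mul_le_mul_of_nonneg_left _ (by positivity)
      linarith
    have h2 : (3 * (X : ℝ) / W) * (δ * P ^ 2 + 3 * δ * n ^ 2 + δ * (n ^ 2 + P ^ 2)) +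
        δ * ((X : ℝ) / W * n ^ 2) ≤ 13 * δ * ((X : ℝ) / W * (n ^ 2 + P ^ 2)) := by
      have e : 13 * δ * ((X : ℝ) / W * (n ^ 2 + P ^ 2)) -
          ((3 * (X : ℝ) / W) * (δ * P ^ 2 + 3 * δ * n ^ 2 + δ * (n ^ 2 + P ^ 2)) +
        δ * ((X : ℝ) / W * n ^ 2)) = 7 * (δ * ((X : ℝ) / W) * P ^ 2) := by ring
      have h0 : 0 ≤ 7 * (δ * ((X : ℝ) / W) * P ^ 2) := by positivity
      linarith
    linarith
  have hc2 : 1 ≤ c ^ 2 := one_le_pow₀ hc1
  have hT0 : 0 ≤ (X : ℝ) / W * P ^ 2 := by positivity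
  have hfin1 : (X : ℝ) / W * P ^ 2 ≤ (X : ℝ) / W * c ^ 2 * (n ^ 2 + P ^ 2) := by
    have h1 : (X : ℝ) / W * P ^ 2 ≤ (X : ℝ) / W * (n ^ 2 + P ^ 2) := by
      apply mul_le_mul_of_nonneg_left _ hXW0.le
      have := sq_nonneg n
      linarith
    have h2 : (X : ℝ) / W * (n ^ 2 + P ^ 2) * 1 ≤ (X : ℝ) / W * (n ^ 2 + P ^ 2) * c ^ 2 :=
      mul_le_mul_of_nonneg_left hc2 (by positivity)
    have e : (X : ℝ) / W * c ^ 2 * (n ^ 2 + P ^ 2) = (X : ℝ) / W * (n ^ 2 + P ^ 2) * c ^ 2 := by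
      ring
    rw [e]
    linarith
  refine hsplit.trans ?_
  have hI3' : 3 * (c ^ 2 * ∑ N ∈ F, (G N) ^ 2) ≤
      39 * δ * ((X : ℝ) / W * c ^ 2 * (n ^ 2 + P ^ 2)) := by
    have h := mul_le_mul_of_nonneg_left hI3 (show 0 ≤ 3 * c ^ 2 by positivity)
    calc 3 * (c ^ 2 * ∑ N ∈ F, (G N) ^ 2) = 3 * c ^ 2 * ∑ N ∈ F, (G N) ^ 2 := by ring
      _ ≤ 3 * c ^ 2 * (13 * δ * ((X : ℝ) / W * (n ^ 2 + P ^ 2))) := h
      _ = _ := by ring
  have hfin2 : ε / 10 * ((X : ℝ) / W * P ^ 2) ≤ ε / 10 * ((X : ℝ) / W * c ^ 2 * (n ^ 2 + P ^ 2)) :=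
    mul_le_mul_of_nonneg_left hfin1 (by positivity)
  have hTT : 0 ≤ ε * ((X : ℝ) / W * c ^ 2 * (n ^ 2 + P ^ 2)) := by positivity
  have e9 : ε * ((X : ℝ) / W) * c ^ 2 * (n ^ 2 + P ^ 2) =
      ε * ((X : ℝ) / W * c ^ 2 * (n ^ 2 + P ^ 2)) := by ring
  rw [e9]
  have e10 : 39 * δ * ((X : ℝ) / W * c ^ 2 * (n ^ 2 + P ^ 2)) =
      39 / 100 * (ε * ((X : ℝ) / W * c ^ 2 * (n ^ 2 + P ^ 2))) := by rw [hδ]; ring
  rw [e10] at hI3'
  linarith

/-- the same with `w ≤ log log X` -/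
theorem sparse_l2_w (K : ℕ) (ε : ℝ) (hε : 0 < ε) :
    ∃ X₀ : ℕ, ∀ X : ℕ, X₀ ≤ X → ∀ w : ℕ, Real.log (Real.log (X : ℝ)) - 2 ≤ w →
      (w : ℝ) ≤ Real.log (Real.log (X : ℝ)) → ∀ S : Finset ℕ, S ⊆ Icc 1 X → ∀ a : ℕ,
      ∑ N ∈ (Icc 1 (2 * X)).filter (fun N => N ≡ a [MOD primorial w]),
          (rS S N - (primorial w : ℝ) / ((primorial w).totient : ℝ) *
            (SN (primorial w) S N).card) ^ 2 ≤
        ε * (X / primorial w) * ((primorial w : ℝ) / ((primorial w).totient : ℝ)) ^ 2 *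
          (((Sa (primorial w) S a).card : ℝ) ^ 2 + (X / (Real.log X) ^ K) ^ 2) := by
  obtain ⟨X₀, h⟩ := sparse_l2_gen K ε hε
  exact ⟨X₀, fun X hX w h1 h2 => h X hX w h1 (h2.trans (by linarith))⟩

end Pool.Agent.Lib.SW
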